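import Pool.Agent.ME.StCE
import Pool.Agent.MUX.XCAll

/-!
# ME, block CE (port of `MUX/C_X.lean`), module CHG (helper28): change of the ideal in its class
-/

set_option autoImplicit false

open Polynomial NumberField IsDedekindDomain

namespace Pool.Agent.MEC

open _root_.MU3 Pool.Agent.MU3A Pool.Agent.MU3B Pool.Agent.MUX Pool.Agent.MUXU Pool.Agent.RI
open Pool.Agent.ME
open Pool.Agent.MUXE (NL Sxe_RNG)
open Pool.Agent.MUXC (Sc_CLF Sc_COP Sc_TRO Sc_GEN Sc_ENO Sc_INV Sc_QCR Sc_QEX Sc_QNE Sc_ISL Sc_FEX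
  Sc_RP1 Sc_RP2 Sc_RP3 Sc_REP Sc_DNX Sc_NMC)

noncomputable section

namespace CHG

/-- translation by a lattice vector does not change `PME` -/
lemma pm_add {σ : ℂ ≃+* ℂ} {L L' : PeriodPair} {z z' v : ℂ} (h : PME σ L L' z z')
    (hv : v ∈ L'.lattice) : PME σ L L' z (z' + v) := by
  have e1 : xnE L' (z' + v) = xnE L' z' := by
    unfold xnE
    have := L'.weierstrassP_add_coe z' ⟨v, hv⟩
    simp only at this
    rw [this]
  have e2 : yy L' (z' + v) = yy L' z' := by
    unfold yy
    have := L'.derivWeierstrassP_add_coe z' ⟨v, hv⟩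
    simp only at this
    rw [this]
  rcases h with ⟨h1, h2⟩ | ⟨h1, h2, h3, h4⟩
  · exact Or.inl ⟨h1, add_mem h2 hv⟩
  · refine Or.inr ⟨h1, fun h5 => h2 ?_, by rw [e1, h3], by rw [e2, h4]⟩
    have := sub_mem h5 hv
    rwa [add_sub_cancel_right] at this

end CHG

/-- (CHG) the field `chg` of `TorXE`. -/
theorem tc_CHG : Sc_CHG := by
  rintro A B hc m a a' σ L L' mu x y - ha' hx hx0 hy0 hxy hxa ⟨b, om, hL⟩ hact
  have hcm : HasCM A B L := hL.toIsLI.hasCM hc
  have ex0 := emb_ne_zero hc hx0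
  have ey0 := emb_ne_zero hc hy0
  have hmu := hact.isq.1
  have f1 : ∀ α ∈ a, ∃ α' ∈ a', x * α = y * α' := by
    intro α hα
    have h1 : x * α ∈ sp y * a' := by
      rw [← hxa]
      exact Ideal.mul_mem_mul (Ideal.mem_span_singleton_self x) hα
    obtain ⟨t, ht, h⟩ := Ideal.mem_span_singleton_mul.1 h1
    exact ⟨t, ht, h.symm⟩
  have f2 : ∀ α' ∈ a', ∃ α ∈ a, x * α = y * α' := by
    intro α' hα'
    have h1 : y * α' ∈ sp x * a := by
      rw [hxa]
      exact Ideal.mul_mem_mul (Ideal.mem_span_singleton_self y) hα'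
    obtain ⟨t, ht, h⟩ := Ideal.mem_span_singleton_mul.1 h1
    exact ⟨t, ht, h⟩
  have key : ∀ α α' : OO A B, x * α = y * α' → ∀ z : ℂ,
      emb α * (emb x / emb y * z) = emb α' * z := by
    intro α α' h1 z
    have h3 : emb x * emb α = emb y * emb α' := by rw [← emb_mul hc, ← emb_mul hc, h1]
    field_simp
    linear_combination z * h3
  have hq : IsQ a' L L' (mu * emb x / emb y) := by
    refine ⟨div_ne_zero (mul_ne_zero hmu ex0) ey0, fun z => ?_⟩
    have e : mu * emb x / emb y * z = mu * (emb x / emb y * z) := by ring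
    rw [e, hact.isq.2]
    constructor
    · intro h α' hα'
      obtain ⟨α, hα, h1⟩ := f2 α' hα'
      have h2 := h α hα
      rwa [key α α' h1 z] at h2
    · intro h α hα
      obtain ⟨α', hα', h1⟩ := f1 α hα
      rw [key α α' h1 z]
      exact h α' hα'
  have hcop : IsCoprime (sp y) m := by
    obtain ⟨i, hi, j, hj, hij⟩ := Ideal.isCoprime_iff_exists.1 hx
    obtain ⟨c, rfl⟩ := Ideal.mem_span_singleton'.1 hi
    refine Ideal.isCoprime_iff_exists.2 ⟨c * y, Ideal.mem_span_singleton'.2 ⟨c, rfl⟩,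
      j + c * (x - y), add_mem hj (m.mul_mem_left c hxy), ?_⟩
    linear_combination hij
  refine ⟨hact.kapE, ha', hq, fun z hz => ?_⟩
  have ht : mu * (emb x / emb y * z - z) ∈ L'.lattice := by
    rw [hact.isq.2]
    intro α hα
    obtain ⟨α', hα', h1⟩ := f1 α hα
    refine tor_coprime hc hcop (L := L) ?_ ?_
    · rw [tor_span hc hcm]
      have e : emb y * (emb α * (emb x / emb y * z - z)) = emb α * (emb (x - y) * z) := by
        rw [emb_sub hc]
        field_simp
      rw [e]
      exact hcm α _ (hz _ hxy)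
    · have e : emb α * (emb x / emb y * z - z) = emb α' * z + -(emb α * z) := by
        rw [mul_sub, key α α' h1 z]
        ring
      rw [e]
      exact (Tor.mul_emb hc hz α').add (Tor.mul_emb hc hz α).neg
  have e : mu * emb x / emb y * z = mu * z + mu * (emb x / emb y * z - z) := by ring
  rw [e]
  exact CHG.pm_add (hact.act z hz) ht

end

end Pool.Agent.MEC
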