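import Pool.Agent.ME.StCE
import Pool.Agent.MUX.XCAll

/-!
# ME, block CE (port of `MUX/C_X.lean`): module CMM, the field `comm` of `TorXE`
-/

set_option autoImplicit false

open Polynomial NumberField IsDedekindDomain

namespace Pool.Agent.MEC

open Pool.Agent.ME
open Pool.Agent.MUXC (Sc_CLF Sc_COP Sc_TRO Sc_GEN Sc_ENO Sc_INV Sc_QCR Sc_QEX Sc_QNE Sc_ISL Sc_FEX
  Sc_RP1 Sc_RP2 Sc_RP3 Sc_REP Sc_DNX Sc_NMC)
open _root_.MU3 Pool.Agent.MU3A Pool.Agent.MU3B Pool.Agent.MUX Pool.Agent.MUXU Pool.Agent.RI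

noncomputable section

namespace CMM

variable {A B : ℤ}

theorem fin (h : CQ A B) : FiniteDimensional ℚ (kk A B) := by
  have h1 : IsIntegral ℚ (wC A B) := by
    refine ⟨X ^ 2 - C (B : ℚ) * X - C (A : ℚ), ?_, ?_⟩
    · monicity!
    · simp only [eval₂_sub, eval₂_mul, eval₂_pow, eval₂_X, eval₂_C]
      rw [pow_two, Pool.Agent.MUX.wC_sq h]
      simp
  exact IntermediateField.adjoin.finiteDimensional h1

/-- automorphisms of `F / k` extend to `ℂ` -/
theorem ext (hAUE : Su_AUE) (h : CQ A B) (F : IntermediateField (kk A B) ℂ)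
    [FiniteDimensional (kk A B) F] (σ : F ≃ₐ[kk A B] F) :
    ∃ s : ℂ ≃+* ℂ, FixK A B s ∧ ∀ x : F, s (x : ℂ) = ((σ x : F) : ℂ) := by
  have h2 : FiniteDimensional ℚ (kk A B) := fin h
  have h3 : FiniteDimensional ℚ F := FiniteDimensional.trans ℚ (kk A B) F
  have h4 : FiniteDimensional ℚ (F.restrictScalars ℚ) := h3
  have hF : Algebra.IsAlgebraic ℚ (F.restrictScalars ℚ) := Algebra.IsAlgebraic.of_finite ℚ _
  obtain ⟨s, hs⟩ := hAUE (F.restrictScalars ℚ) hF
    { toFun := fun x => ((σ ⟨x.1, x.2⟩ : F) : ℂ)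
      map_one' := by
        change ((σ (1 : F) : F) : ℂ) = 1
        rw [map_one]; rfl
      map_mul' := fun x y => by
        change ((σ ((⟨x.1, x.2⟩ : F) * ⟨y.1, y.2⟩) : F) : ℂ) = _
        rw [map_mul]; rfl
      map_zero' := by
        change ((σ (0 : F) : F) : ℂ) = 0
        rw [map_zero]; rfl
      map_add' := fun x y => by
        change ((σ ((⟨x.1, x.2⟩ : F) + ⟨y.1, y.2⟩) : F) : ℂ) = _
        rw [map_add]; rfl }
  have hs' : ∀ x : F, s (x : ℂ) = ((σ x : F) : ℂ) := fun x => hs ⟨x.1, x.2⟩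
  refine ⟨s, ?_, hs'⟩
  have hw : wC A B ∈ kk A B := IntermediateField.mem_adjoin_simple_self ℚ (wC A B)
  have h5 := hs' (algebraMap (kk A B) F ⟨wC A B, hw⟩)
  rw [AlgEquiv.commutes] at h5
  exact h5


/-- the target lattice may be replaced by any other normalised lattice -/
theorem ActE.change (h4 : Sc_SGQ) {m a : Ideal (OO A B)} {σ : ℂ ≃+* ℂ} {L L' L'' : PeriodPair}
    {mu : ℂ} (h : ActE σ m a L L' mu) (h' : NrmE A B L') (h'' : NrmE A B L'') :
    ActE σ m a L L'' mu := by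
  obtain ⟨e1, e2, e3⟩ := h4 A B L' L'' h' h''
  refine ⟨?_, h.cop, ⟨h.isq.1, fun z => ?_⟩, fun z hz => ?_⟩
  · rw [← e2]
    exact h.kapE
  · rw [← e1]
    exact h.isq.2 z
  · rcases h.act z hz with f | ⟨f1, f2, f3, f4⟩
    · exact Or.inl ⟨f.1, (e1 _).1 f.2⟩
    · refine Or.inr ⟨f1, fun h => f2 ((e1 _).2 h), ?_, ?_⟩
      · rw [f3, (e3 _).1]
      · rw [f4, (e3 _).2]

end CMM

open CMM in
theorem tc_CMM (h1 : Sc_FGL) (h2 : Sc_ACT) (h3 : Sc_CMP) (h4 : Sc_SGQ) (h5 : Su_AUE) :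
    Sc_CMM := by
  intro A B hC m hm σ τ
  have : FiniteDimensional (kk A B) (RFE m) := (h1 A B hC m hm).1
  obtain ⟨s, hs, hsσ⟩ := ext h5 hC (RFE m) σ
  obtain ⟨t, ht, htτ⟩ := ext h5 hC (RFE m) τ
  obtain ⟨a, -, ha⟩ := h2 A B hC m hm s hs
  obtain ⟨b, -, hb⟩ := h2 A B hC m hm t ht
  -- the two orders agree on the generators
  have key : ∀ x ∈ genS (A := A) (B := B) m, s (t x) = t (s x) := by
    rintro x ⟨c, L, om, hL, hx⟩
    obtain ⟨c1, L1, om1, n1, hL1, k1⟩ := hb c L om hL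
    obtain ⟨c2, L2, om2, n2, hL2, k2⟩ := ha c L om hL
    have k1' := ActE.change h4 k1 hL1.nrm hL.nrm
    have k2' := ActE.change h4 k2 hL2.nrm hL.nrm
    have e1 := h3 A B hC m b a t s L L L n1 n2 k1' k2'
    have e2 := h3 A B hC m a b s t L L L n2 n1 k2' k1'
    rcases hx with rfl | ⟨z, hz, hzL, rfl⟩
    · have f1 := e1.kapE
      have f2 := e2.kapE
      rw [RingEquiv.trans_apply] at f1 f2
      rw [← f1, ← f2]
    · rcases e1.act z hz with f1 | f1
      · exact absurd f1.1 hzL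
      rcases e2.act z hz with f2 | f2
      · exact absurd f2.1 hzL
      have g1 := f1.2.2.1
      have g2 := f2.2.2.1
      rw [RingEquiv.trans_apply] at g1 g2
      rw [g1, g2, mul_comm n1 n2]
  have hH : (σ * τ).toAlgHom = (τ * σ).toAlgHom := by
    refine IntermediateField.algHom_ext_of_eq_adjoin (kk A B) (S := RFE m)
      (s := genS (A := A) (B := B) m) rfl ?_
    intro x hx
    apply Subtype.ext
    have hx' : x ∈ (RFE m : IntermediateField (kk A B) ℂ) := IntermediateField.subset_adjoin _ _ hx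
    change ((σ (τ ⟨x, hx'⟩) : RFE m) : ℂ) = ((τ (σ ⟨x, hx'⟩) : RFE m) : ℂ)
    rw [← hsσ, ← htτ, ← htτ, ← hsσ]
    exact key x hx
  ext1 x
  exact congrArg (fun φ : RFE m →ₐ[kk A B] RFE m => φ x) hH

end

end Pool.Agent.MEC
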