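import Pool.Agent.ME.StCE
import Pool.Agent.MUX.XCAll

/-!
# ME, block CE (port of `MUX/C_X.lean`), module EXT: the fields `mono`, `ext` of `TorXE`
-/

set_option autoImplicit false

open Polynomial NumberField IsDedekindDomain

namespace Pool.Agent.MEC

open Pool.Agent.ME
open Pool.Agent.MUXC (Sc_CLF Sc_COP Sc_TRO Sc_GEN Sc_ENO Sc_INV Sc_QCR Sc_QEX Sc_QNE Sc_ISL Sc_FEX
  Sc_RP1 Sc_RP2 Sc_RP3 Sc_REP Sc_DNX Sc_NMC)
open _root_.MU3 Pool.Agent.MU3A Pool.Agent.MU3B Pool.Agent.MUX Pool.Agent.MUXU Pool.Agent.RI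

noncomputable section

namespace EXT

/-- `k` is finite over `ℚ` -/
theorem fin_kk {A B : ℤ} (h : CQ A B) : FiniteDimensional ℚ (kk A B) := by
  have h1 : (0 : ℝ) ≤ (absD A B : ℝ) := by
    have := h.neg
    have h0 : 0 ≤ absD A B := by
      unfold absD
      omega
    exact_mod_cast h0
  have h2 : ((Real.sqrt (absD A B) : ℝ) : ℂ) ^ 2 = (absD A B : ℂ) := by
    rw [← Complex.ofReal_pow, Real.sq_sqrt h1]
    norm_num
  have h3 : Complex.I ^ 2 = -1 := Complex.I_sq
  have h4 : (absD A B : ℂ) = -((B : ℂ) ^ 2 + 4 * A) := by simp [absD]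
  have h5 : _root_.MU3.wC A B * _root_.MU3.wC A B = A + B * _root_.MU3.wC A B := by
    unfold _root_.MU3.wC
    linear_combination (Complex.I ^ 2 / 4) * h2 + ((absD A B : ℂ) / 4) * h3 - (1 / 4) * h4
  have h6 : IsIntegral ℤ (_root_.MU3.wC A B) := by
    refine ⟨Polynomial.X ^ 2 - Polynomial.C B * Polynomial.X - Polynomial.C A, ?_, ?_⟩
    · monicity!
    · simp only [Polynomial.eval₂_sub, Polynomial.eval₂_mul, Polynomial.eval₂_pow,
        Polynomial.eval₂_X, Polynomial.eval₂_C]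
      simp only [algebraMap_int_eq, eq_intCast]
      linear_combination h5
  exact IntermediateField.adjoin.finiteDimensional h6.tower_top

end EXT

open EXT in
/-- the fields `mono`, `ext` of `TorXE` -/
theorem tc_EXT (hF : Sc_FGL) (hA : Su_AUE) : Sc_EXT := by
  intro A B hc
  refine ⟨?_, ?_⟩
  · intro m m' hle
    refine IntermediateField.adjoin.mono _ _ _ ?_
    rintro c ⟨b, L, om, hL, hc'⟩
    refine ⟨b, L, om, hL, ?_⟩
    rcases hc' with h | ⟨z, hz, h⟩
    · exact Or.inl h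
    · exact Or.inr ⟨z, fun x hx => hz x (hle hx), h⟩
  · intro m hm D h hD
    let akD : Algebra (kk A B) D := algC h
    intro τ
    have hfk := fin_kk hc
    have hfd := (hF A B hc m hm).1
    have halg : Algebra.IsAlgebraic ℚ D := by
      constructor
      intro y
      have h1 : IsIntegral (kk A B) (⟨(y : ℂ), hD y y.2⟩ : (RFE m : IntermediateField (kk A B) ℂ)) :=
        Algebra.IsIntegral.isIntegral _
      have h2 : IsIntegral (kk A B) (y : ℂ) := h1.map (RFE m : IntermediateField (kk A B) ℂ).val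
      have h3 : IsIntegral ℚ (y : ℂ) := isIntegral_trans (y : ℂ) h2
      have h4 : IsIntegral ℚ y := (isIntegral_algHom_iff D.val Subtype.val_injective).1 h3
      exact h4.isAlgebraic
    obtain ⟨σ, hσ⟩ := hA D halg ((algebraMap D ℂ).comp (τ : D ≃+* D).toRingHom)
    have hσ' : ∀ y : D, σ (y : ℂ) = (τ y : ℂ) := fun y => hσ y
    refine ⟨σ, ?_, hσ'⟩
    have e1 : τ (algebraMap (kk A B) D ⟨wC A B, wC_mem A B⟩) =
        algebraMap (kk A B) D ⟨wC A B, wC_mem A B⟩ := τ.commutes _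
    have e2 := hσ' (algebraMap (kk A B) D ⟨wC A B, wC_mem A B⟩)
    rw [e1] at e2
    exact e2

end

end Pool.Agent.MEC
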