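import Pool.Agent.ME.StCE
import Pool.Agent.MUX.XCAll
import Pool.Agent.MU3.A_SCP

/-!
# ME, block CE (port of `MUX/C_X.lean`), module FNG (helper48): the ray class fields have finitely many generators
-/

set_option autoImplicit false

open Polynomial NumberField IsDedekindDomain

namespace Pool.Agent.MEC

open _root_.MU3 Pool.Agent.MU3A Pool.Agent.MU3B Pool.Agent.MUX Pool.Agent.MUXU Pool.Agent.RI
open Pool.Agent.ME
open Pool.Agent.MUXE (NL Sxe_RNG)
open Pool.Agent.MUXC (Sc_CLF Sc_COP Sc_TRO Sc_GEN Sc_ENO Sc_INV Sc_QCR Sc_QEX Sc_QNE Sc_ISL Sc_FEX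
  Sc_RP1 Sc_RP2 Sc_RP3 Sc_REP Sc_DNX Sc_NMC)

noncomputable section

namespace FNG

variable {A B : ℤ}

/-- the generators which come from one lattice -/
def G (m : Ideal (OO A B)) (L : PeriodPair) : Set ℂ :=
  {c | c = kapE L ∨ ∃ z, Tor m L z ∧ z ∉ L.lattice ∧ c = xnE L z}

lemma xn_per (L : PeriodPair) {z w : ℂ} (h : z - w ∈ L.lattice) : xnE L z = xnE L w := by
  have h1 := L.weierstrassP_add_coe w ⟨z - w, h⟩
  have h2 : w + ((⟨z - w, h⟩ : L.lattice) : ℂ) = z := by
    simp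
  rw [h2] at h1
  unfold xnE
  rw [h1]

lemma G_fin (hG : Sc_GEN) (h : CQ A B) {b : Ideal (OO A B)} {L : PeriodPair} {om : ℂ}
    (hL : IsLI b L om) {m : Ideal (OO A B)} (hm : m ≠ ⊥) : (G m L).Finite := by
  obtain ⟨u, -, hu2, hu3⟩ := hG A B h b m L om hL hm
  have hfin : Finite (OO A B ⧸ m) := finite_quot h hm
  have hsub : G m L ⊆ {kapE L} ∪
      Set.range (fun q : OO A B ⧸ m => xnE L (emb (Quotient.out q) * u)) := by
    rintro c (rfl | ⟨z, hz, -, rfl⟩)
    · exact Or.inl rfl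
    · right
      obtain ⟨x, hx⟩ := hu3 z hz
      refine ⟨Ideal.Quotient.mk m x, ?_⟩
      show xnE L (emb (Quotient.out (Ideal.Quotient.mk m x)) * u) = xnE L z
      apply Eq.symm
      apply xn_per
      have h1 : x - Quotient.out (Ideal.Quotient.mk m x) ∈ m := by
        rw [← Ideal.Quotient.eq]
        exact (Quotient.out_eq _).symm
      have h2 := (hu2 _).2 h1
      rw [emb_sub h] at h2
      have h3 := L.lattice.add_mem hx h2
      have h4 : z - emb x * u + (emb x - emb (Quotient.out (Ideal.Quotient.mk m x))) * u =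
          z - emb (Quotient.out (Ideal.Quotient.mk m x)) * u := by ring
      rwa [h4] at h3
  exact ((Set.finite_singleton _).union (Set.finite_range _)).subset hsub

end FNG

open FNG in
theorem tc_FNG (h2 : Sc_GEN) (h3 : Sc_SGQ) : Sc_FNG := by
  classical
  intro A B hc m hm
  by_cases hex : ∃ (b : Ideal (OO A B)) (L : PeriodPair) (om : ℂ), IsNE b L om
  · obtain ⟨b₁, L₁, om₁, hL₁⟩ := hex
    refine (G_fin h2 hc hL₁.toIsLI hm).subset ?_
    rintro c ⟨b, L, om, hL, hcG⟩
    obtain ⟨e1, e2, e3⟩ := h3 A B L L₁ hL.nrm hL₁.nrm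
    rcases hcG with rfl | ⟨z, hz, hzL, rfl⟩
    · exact Or.inl e2
    · right
      exact ⟨z, fun x hx => (e1 _).1 (hz x hx), fun h => hzL ((e1 _).2 h), (e3 z).1⟩
  · have : genS m = ∅ := by
      rw [Set.eq_empty_iff_forall_notMem]
      rintro c ⟨b, L, om, hL, -⟩
      exact hex ⟨b, L, om, hL⟩
    rw [this]
    exact Set.finite_empty

end

end Pool.Agent.MEC
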