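import Pool.Agent.ME.C_FRX
import Pool.Agent.MUX.XCAll

/-!
# ME, block CE (port of `MUX/C_X.lean`): (FRO) the Frobenius of a prime of degree one
-/

set_option autoImplicit false

namespace Pool.Agent.MEC

open Pool.Agent.ME
open Pool.Agent.MUXC (Sc_CLF Sc_COP Sc_TRO Sc_GEN Sc_ENO Sc_INV Sc_QCR Sc_QEX Sc_QNE Sc_ISL Sc_FEX
  Sc_RP1 Sc_RP2 Sc_RP3 Sc_REP Sc_DNX Sc_NMC)
open _root_.MU3 Pool.Agent.MU3A Pool.Agent.MU3B Pool.Agent.MUX Pool.Agent.MUXU Pool.Agent.RI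
open Pool.Agent.MUXV (Sq_FRX Sq_VQI InK)

namespace FRO

variable {A B : ℤ}

lemma ne_bot_of_prime (Q : Ideal (OO A B)) {q : ℕ} (hq : q.Prime) (hQ : nI Q = q) : Q ≠ ⊥ := by
  rintro rfl
  have h1 : Nat.card (OO A B ⧸ (⊥ : Ideal (OO A B))) = Nat.card (OO A B) :=
    Nat.card_congr (RingEquiv.quotientBot (OO A B)).toEquiv
  have hinf : Infinite (OO A B) :=
    Infinite.of_injective (fun n : ℕ => (n : OO A B)) Nat.cast_injective
  have h2 : Nat.card (OO A B) = 0 := Nat.card_eq_zero_of_infinite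
  have h3 : nI (⊥ : Ideal (OO A B)) = 0 := h1.trans h2
  rw [h3] at hQ
  exact hq.ne_zero hQ.symm

lemma isQ_neg {a : Ideal (OO A B)} {L M : PeriodPair} {mu : ℂ} (h : IsQ a L M mu) :
    IsQ a L M (-mu) := by
  refine ⟨neg_ne_zero.2 h.1, fun z => ?_⟩
  rw [← h.2 z, neg_mul]
  exact neg_mem_iff

lemma map_xn {s : ℂ ≃+* ℂ} {L M : PeriodPair} {Φ : ℂ → ℂ} (hΦ : IsPhi s L M Φ) {u : ℂ}
    (hu : u ∉ L.lattice) : xnE M (Φ u) = s (xnE L u) := by
  unfold xnE
  rw [hΦ.P u hu]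

end FRO

open FRO in
theorem tc_FRO (hBAD : Sc_BAD) (hCJN : Sc_CJN) (hNEX : Sc_NEX) (hEXA : Sc_EXA)
    (hPMF : Sc_PMF) (hPHM : Sc_PHM) (hGEN : Sc_GEN) (hQCR : Sc_QCR) (hQNE : Sc_QNE)
    (hFRX : Sc_FRX) (hVQI : Sq_VQI) (hPHI : Su_PHI) : Sc_FRO := by
  intro A B hE
  have hc : CQ A B := hE.toCQ
  refine ⟨12, by norm_num, ?_⟩
  intro m hm Q q hq hQ hqn hqm V hV s hs hfr b L om hL
  have hQ0 : Q ≠ ⊥ := ne_bot_of_prime Q hq hQ
  have hovr : ∀ x ∈ Q, V.valuation (emb x) < 1 := fun x hx =>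
    (ValuationSubring.mem_nonunits_iff V).1 ((hV x).2 hx)
  obtain ⟨hvq, hvs, hvx⟩ := (hVQI A B hc.toF V).2 Q q hq hQ hovr
  have hvn : ∀ n : ℕ, ¬ q ∣ n → V.valuation (n : ℂ) = 1 := fun n hn => by
    have := hvs (n : ℤ) (fun h => hn (by exact_mod_cast h))
    rwa [Int.cast_natCast] at this
  have hq2 : q ≠ 2 := by
    rintro rfl
    exact hqn (by norm_num)
  have hq3 : q ≠ 3 := by
    rintro rfl
    exact hqn (by norm_num)
  have hv2 : V.valuation (2 : ℂ) = 1 := by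
    have := hvn 2 (fun h => hq2 ((Nat.prime_dvd_prime_iff_eq hq Nat.prime_two).1 h))
    exact_mod_cast this
  have hv3 : V.valuation (3 : ℂ) = 1 := by
    have := hvn 3 (fun h => hq3 ((Nat.prime_dvd_prime_iff_eq hq Nat.prime_three).1 h))
    exact_mod_cast this
  -- the lattice `M`
  have hb1 : cjI Q * b ≠ ⊥ := mul_ne_bot hc (cjI_ne_bot hc hQ0) hL.b_ne
  obtain ⟨M, om₁, hM⟩ := hNEX A B hE (cjI Q * b) hb1
  have hisQ' := hQCR A B hc Q b (cjI Q * b) L M om om₁ hL.toIsLI hM.toIsLI hQ0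
    ((q : ℕ) : OO A B) 1 (natCast_ne_zero' hc hq.ne_zero)
    (by
      intro h1
      have := congrArg emb h1
      rw [Pool.Agent.MUX.emb_one hc, Pool.Agent.MUX.emb_zero hc] at this
      exact one_ne_zero this)
    (by
      have e1 : sp (1 : OO A B) = ⊤ := Ideal.span_singleton_one
      rw [e1, Ideal.top_mul, ← mul_assoc, mul_cjI hc hQ0, hQ])
  obtain ⟨mu, hisQ, hfx⟩ := hFRX A B hE Q q hq hq2 hq3 hQ b (cjI Q * b) L M om om₁ _ hL hM hisQ'
    V hV
  have hcmL : HasCM A B L := hL.toIsLI.hasCM hc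
  obtain ⟨-, hisg, hcmM⟩ := hQNE A B hc Q L M mu hcmL hisQ
  -- invariants
  have hgL := hBAD A B hE V hv2 hv3 L hL.nrm
  have hgM := hBAD A B hE V hv2 hv3 M hM.nrm
  obtain ⟨hCJ1, hCJ2, hCJ3⟩ := hCJN A B hc
  have hkM : kapE M = s (kapE L) := by
    rw [CJN.sig_kap s hL.nrm]
    exact CJN.kap_same hM.nrm hL.nrm
  have hcj : IsCj s L M := hCJ2 s L M hL.nrm hM.nrm hkM
  obtain ⟨Φ, hΦ⟩ := hPHI s L M hcj
  obtain ⟨hP1, hP2, hP3, hP4⟩ := hPHM A B hc s hs b L M om hL.toIsLI hcj Φ hΦ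
  obtain ⟨a₀, mu₀, hact⟩ := hEXA A B hc s hs m b (cjI Q * b) L M om om₁ hm hL hM hkM
  obtain ⟨u, hu, hux, hgen⟩ := hGEN A B hc b m L om hL.toIsLI hm
  -- torsion killed by `N = nI m`
  have hNm : ((nI m : ℕ) : OO A B) ∈ m := nI_mem hc hm
  have hNv : V.valuation ((nI m : ℕ) : ℂ) = 1 := hvn _ hqm
  have htorM : ∀ z : ℂ, Tor m M z → InK V M (xnE M) z →
      z ∈ M.lattice := by
    intro z hz hK
    obtain ⟨W, ξ, G⟩ := hgM
    apply Pool.Agent.MUXV.mem_of_nat_mul G hK hNv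
    have := hz _ hNm
    rwa [emb_natCast hc] at this
  have htorL : ∀ z : ℂ, Tor m L z → InK V L (xnE L) z →
      z ∈ L.lattice := by
    intro z hz hK
    obtain ⟨W, ξ, G⟩ := hgL
    apply Pool.Agent.MUXV.mem_of_nat_mul G hK hNv
    have := hz _ hNm
    rwa [emb_natCast hc] at this
  have htmu : ∀ z : ℂ, Tor m L z → Tor m M (mu * z) := by
    intro z hz x hx
    have e : emb x * (mu * z) = mu * (emb x * z) := by ring
    rw [e]
    exact hisg _ (hz x hx)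
  -- the sign
  have hsign : ∃ ε : ℂ, (ε = 1 ∨ ε = -1) ∧ Φ u - ε * mu * u ∈ M.lattice := by
    by_cases huL : u ∈ L.lattice
    · refine ⟨1, Or.inl rfl, sub_mem ((hΦ.mem u).2 huL) ?_⟩
      rw [one_mul]
      exact hisg u huL
    · have huK : ¬ InK V L (xnE L) u := fun h =>
        huL (htorL u hu h)
      have hxV : xnE L u ∈ V := by
        by_contra h
        exact huK (Or.inr h)
      have hxmem : xnE L u ∈ (RFE m : IntermediateField (kk A B) ℂ) :=
        IntermediateField.subset_adjoin _ _ ⟨b, L, om, hL, Or.inr ⟨u, hu, huL, rfl⟩⟩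
      obtain ⟨hmK, hmx⟩ := hfx u huK
      have hsx := hfr (xnE L u) hxmem hxV
      rw [← map_xn hΦ huL] at hsx
      have hdiff : V.valuation (xnE M (Φ u) - xnE M (mu * u)) < 1 := by
        have e : xnE M (Φ u) - xnE M (mu * u) =
            (xnE M (Φ u) - xnE L u ^ q) - (xnE M (mu * u) - xnE L u ^ q) := by ring
        rw [e]
        exact lt_of_le_of_lt (Valuation.map_sub _ _ _) (max_lt hsx hmx)
      have hTΦ : Tor m M (Φ u) := (hP2 m u).2 hu
      have hTmu : Tor m M (mu * u) := htmu u hu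
      have hΦK : ¬ InK V M (xnE M) (Φ u) := fun h =>
        huL ((hΦ.mem u).1 (htorM _ hTΦ h))
      by_contra hcon
      push Not at hcon
      have hA := hcon 1 (Or.inl rfl)
      have hB := hcon (-1) (Or.inr rfl)
      have hsub : ¬ InK V M (xnE M) (Φ u - mu * u) := fun h =>
        hA (by
          rw [one_mul]
          apply htorM _ _ h
          have := hTΦ.add hTmu.neg
          rwa [← sub_eq_add_neg] at this)
      have hadd : ¬ InK V M (xnE M) (Φ u + mu * u) := fun h =>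
        hB (by
          have e : Φ u - -1 * mu * u = Φ u + mu * u := by ring
          rw [e]
          exact htorM _ (hTΦ.add hTmu) h)
      obtain ⟨W, ξ, G⟩ := hgM
      have := Pool.Agent.MUXV.v_X_sub G hΦK hmK hadd hsub
      exact absurd this hdiff.ne
  obtain ⟨ε, hε, hΦu⟩ := hsign
  have hεM : ∀ z ∈ L.lattice, ε * mu * z ∈ M.lattice := by
    intro z hz
    have h1 := hisg z hz
    rcases hε with rfl | rfl
    · rwa [one_mul]
    · have e : -1 * mu * z = -(mu * z) := by ring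
      rw [e]
      exact neg_mem h1
  have hall : ∀ z : ℂ, Tor m L z → Φ z - ε * mu * z ∈ M.lattice := by
    intro z hz
    obtain ⟨x, hx⟩ := hgen z hz
    have t1 := (hP3 z (emb x * u)).2 hx
    have t2 := hP1 x u
    have t3 := hcmM x _ hΦu
    have t4 := hεM _ hx
    have e : Φ z - ε * mu * z = (Φ z - Φ (emb x * u)) + (Φ (emb x * u) - emb x * Φ u) +
        emb x * (Φ u - ε * mu * u) - ε * mu * (z - emb x * u) := by ring
    rw [e]
    exact sub_mem (add_mem (add_mem t1 t2) t3) t4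
  refine ⟨cjI Q * b, M, om₁, ε * mu, hM, ⟨hkM, ?_, ?_, ?_⟩⟩
  · rw [Ideal.isCoprime_iff_exists]
    have h1 : IsCoprime (q : ℤ) ((nI m : ℕ) : ℤ) :=
      Nat.isCoprime_iff_coprime.2 ((Nat.Prime.coprime_iff_not_dvd hq).2 hqm)
    obtain ⟨x, y, hxy⟩ := h1
    have hqQ : ((q : ℕ) : OO A B) ∈ Q := by
      have := nI_mem hc hQ0
      rwa [hQ] at this
    refine ⟨(x : OO A B) * ((q : ℕ) : OO A B), Q.mul_mem_left _ hqQ,
      (y : OO A B) * ((nI m : ℕ) : OO A B), m.mul_mem_left _ hNm, ?_⟩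
    have := congrArg (fun n : ℤ => (n : OO A B)) hxy
    push_cast at this
    exact this
  · rcases hε with rfl | rfl
    · rw [one_mul]
      exact hisQ
    · rw [neg_one_mul]
      exact isQ_neg hisQ
  · intro z hz
    exact (hPMF s L M Φ hΦ z (ε * mu * z)).2 (hall z hz)

end Pool.Agent.MEC
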