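import Pool.Agent.ME.StCE
import Pool.Agent.MUX.XCAll

/-!
# ME, block CE (port of `MUX/C_X.lean`): the ideal does not depend on the lattice (IND)
-/

set_option autoImplicit false

open Polynomial NumberField IsDedekindDomain

namespace Pool.Agent.MEC

open _root_.MU3 Pool.Agent.MU3A Pool.Agent.MU3B Pool.Agent.MUX Pool.Agent.MUXU Pool.Agent.RI
open Pool.Agent.ME
open Pool.Agent.MUXE (NL Sxe_RNG)
open Pool.Agent.MUXC (Sc_CLF Sc_COP Sc_TRO Sc_GEN Sc_ENO Sc_INV Sc_QCR Sc_QEX Sc_QNE Sc_ISL Sc_FEX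
  Sc_RP1 Sc_RP2 Sc_RP3 Sc_REP Sc_DNX Sc_NMC)

theorem tc_IND (h1 : Sc_QEX) (h2 : Sc_QNE) (h3 : Sc_CJN) (h4 : Sc_PMF) (h5 : Su_PHI)
    (h6 : Su_FUN) (h7 : Pool.Agent.MUXY.Sy_MUC) : Sc_IND := by
  intro A B hCQ σ hσ m a b b' c c' L L' M M' om om' omm omm' mu hm hL hL' hM hM' hact hkap
  obtain ⟨q, ν, -, hqm, hν⟩ := h1 A B hCQ b c m L M om omm hL.toIsLI hM.toIsLI hm
  have cmL : HasCM A B L := hL.toIsLI.hasCM hCQ
  have cmM : HasCM A B M := hM.toIsLI.hasCM hCQ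
  obtain ⟨-, isgLM, -⟩ := h2 A B hCQ q L M ν cmL hν
  obtain ⟨-, cj2, -⟩ := h3 A B hCQ
  have hcjL : IsCj σ L L' := cj2 σ L L' hL.nrm hL'.nrm hact.kapE
  have hcjM : IsCj σ M M' := cj2 σ M M' hM.nrm hM'.nrm hkap
  have hQ' : IsQ q L' M' (σ ν) := h7 A B hCQ σ hσ q b L M L' M' om ν hL.toIsLI hcjL hcjM hν
  obtain ⟨Φ, hΦ⟩ := h5 σ L L' hcjL
  obtain ⟨Ψ, hΨ⟩ := h5 σ M M' hcjM
  obtain ⟨isg', hfun⟩ := h6 σ L M L' M' ν Φ Ψ hν.1 isgLM hcjL hcjM hΦ hΨ
  have hν0 : ν ≠ 0 := hν.1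
  have hσν : σ ν ≠ 0 := hQ'.1
  have hmu : mu ≠ 0 := hact.isq.1
  have eM : ∀ (x : OO A B) (z : ℂ), emb x * z = ν * (emb x * (z / ν)) := by
    intro x z
    field_simp
  have hQn : IsQ a M M' (mu * σ ν / ν) := by
    refine ⟨div_ne_zero (mul_ne_zero hmu hσν) hν0, fun z => ?_⟩
    have e1 : mu * σ ν / ν * z = σ ν * (mu * (z / ν)) := by
      field_simp
    rw [e1, hQ'.2]
    constructor
    · intro hz x hx
      rw [eM, hν.2]
      intro y hy
      have h8 := hz y hy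
      rw [show emb y * (mu * (z / ν)) = mu * (emb y * (z / ν)) by ring, hact.isq.2] at h8
      have h9 := h8 x hx
      rwa [show emb x * (emb y * (z / ν)) = emb y * (emb x * (z / ν)) by ring] at h9
    · intro hz y hy
      rw [show emb y * (mu * (z / ν)) = mu * (emb y * (z / ν)) by ring, hact.isq.2]
      intro x hx
      have h8 := hz x hx
      rw [eM, hν.2] at h8
      have h9 := h8 y hy
      rwa [show emb y * (emb x * (z / ν)) = emb x * (emb y * (z / ν)) by ring] at h9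
  refine ⟨mu * σ ν / ν, hkap, hact.cop, hQn, fun z hz => ?_⟩
  rw [h4 σ M M' Ψ hΨ]
  obtain ⟨γ, hγ, β, hβ, hγβ⟩ := Ideal.isCoprime_iff_exists.1 hqm
  have hone : emb γ + emb β = 1 := by
    rw [← emb_add hCQ, hγβ, emb_one hCQ]
  -- the point `w`
  have hw : Tor m L (emb γ * (z / ν)) := by
    intro x hx
    have h8 := hz x hx
    rw [eM, hν.2] at h8
    have h9 := h8 γ hγ
    rwa [show emb γ * (emb x * (z / ν)) = emb x * (emb γ * (z / ν)) by ring] at h9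
  have e2 : ν * (emb γ * (z / ν)) = emb γ * z := by
    field_simp
  have hd : z - emb γ * z ∈ M.lattice := by
    have h8 := hz β hβ
    have e3 : z - emb γ * z = emb β * z := by linear_combination z * (-hone)
    rw [e3]
    exact h8
  have k1 := hfun (emb γ * (z / ν))
  rw [e2] at k1
  have k2 : Φ (emb γ * (z / ν)) - mu * (emb γ * (z / ν)) ∈ L'.lattice :=
    (h4 σ L L' Φ hΦ _ _).1 (hact.act _ hw)
  have k3 := isg' _ k2
  have k4 := hΨ.add (z - emb γ * z) (emb γ * z)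
  rw [sub_add_cancel] at k4
  have k5 := (hΨ.mem (z - emb γ * z)).2 hd
  have k6 : mu * σ ν / ν * (z - emb γ * z) ∈ M'.lattice :=
    (hQn.2 _).2 fun x _ => cmM x _ hd
  have k7 := sub_mem (add_mem (add_mem (add_mem k4 k5) k1) k3) k6
  refine (congrArg (fun t => t ∈ M'.lattice) ?_).mpr k7
  field_simp
  ring

end Pool.Agent.MEC
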