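import Pool.Agent.ME.CLib
import Pool.Agent.MUX.XCAll

/-!
# ME, block CE (port of `MUX/C_X.lean`), module NRL: the conjugate lattice is normalised
-/

set_option autoImplicit false

open Polynomial NumberField IsDedekindDomain

namespace Pool.Agent.MEC

open _root_.MU3 Pool.Agent.MU3A Pool.Agent.MU3B Pool.Agent.MUX Pool.Agent.MUXU Pool.Agent.RI
open Pool.Agent.ME
open Pool.Agent.MUXE (NL Sxe_RNG)
open Pool.Agent.MUXC (Sc_CLF Sc_COP Sc_TRO Sc_GEN Sc_ENO Sc_INV Sc_QCR Sc_QEX Sc_QNE Sc_ISL Sc_FEX
  Sc_RP1 Sc_RP2 Sc_RP3 Sc_REP Sc_DNX Sc_NMC)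

noncomputable section

theorem tc_NRL (h1 : Sc_GEN) : Sc_NRL := by
  intro A B hE m a σ b L L' om mu hm hmt hσ hL hA
  have hQ : CQ A B := hE.toCQ
  have hCM : HasCM A B L := hL.toIsLI.hasCM hQ
  obtain ⟨u, hu, hum, -⟩ := h1 A B hQ b m L om hL.toIsLI hm
  have huL : u ∉ L.lattice := by
    intro hc
    apply hmt
    rw [Ideal.eq_top_iff_one, ← hum 1]
    have e : emb (1 : OO A B) = 1 := Pool.Agent.MUX.emb_one hQ
    rw [e, one_mul]
    exact hc
  have hkap : L'.g₂ + L'.g₃ = g2E A B + g3E A B := by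
    have h3 := hA.kapE
    rw [CJN.sig_kap σ hL.nrm, CJN.kap_eq hL.nrm] at h3
    exact h3
  -- one point
  have one : ∀ z, Tor m L z → z ∉ L.lattice →
      (L'.g₂ - g2E A B) * (σ (L.weierstrassP z) - 1) = 0 := by
    intro z hz hzL
    rcases hA.act z hz with ⟨h2, -⟩ | ⟨-, huL', hx, hy⟩
    · exact absurd h2 hzL
    have hP : L'.weierstrassP (mu * z) = σ (L.weierstrassP z) := hx.symm
    have hP' : L'.derivWeierstrassP (mu * z) = σ (L.derivWeierstrassP z) := by
      unfold yy at hy
      rw [map_div₀, map_ofNat] at hy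
      linear_combination -2 * hy
    have e1 := L.derivWeierstrassP_sq z hzL
    have e2 := L'.derivWeierstrassP_sq (mu * z) huL'
    have e3 := congrArg σ e1
    rw [hL.nrm.g2, hL.nrm.g3] at e3
    rw [hP, hP'] at e2
    simp only [map_pow, map_sub, map_mul, map_ofNat, CJN.sig_g2, CJN.sig_g3] at e3
    linear_combination e2 - e3 - hkap
  have hg2 : L'.g₂ = g2E A B := by
    rcases mul_eq_zero.1 (one u hu huL) with h2 | h2
    · exact sub_eq_zero.1 h2
    · -- the point `w u`
      have hwu : Tor m L (wC A B * u) := by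
        have h3 := Tor.mul_emb hQ hu (⟨0, 1⟩ : OO A B)
        rwa [Pool.Agent.MUX.emb_w] at h3
      have hwL : wC A B * u ∉ L.lattice := fun h3 => huL ((w_iff hE hCM u).2 h3)
      have hσw : σ (wC A B) = wC A B := hσ
      rcases mul_eq_zero.1 (one _ hwu hwL) with h3 | h3
      · exact sub_eq_zero.1 h3
      · exfalso
        rw [(w_scal hE hCM).1 u, map_div₀, map_pow, hσw, sub_eq_zero.1 h2] at h3
        have hw0 := w_ne hE
        have hw := w_sq hE
        have h4 : wC A B ^ 2 = 1 := by
          field_simp at h3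
          linear_combination -h3
        rcases hE.hB with rfl | rfl
        · push_cast at hw
          rw [h4] at hw
          norm_num at hw
        · push_cast at hw
          have h5 : wC A 1 = 2 := by linear_combination h4 - hw
          rw [h5] at h4
          norm_num at h4
  have hn : NrmE A B L' := ⟨hg2, by linear_combination hkap - hg2⟩
  exact ⟨hn, CJN.isCj hL.nrm hn⟩

end

end Pool.Agent.MEC
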