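import Pool.Agent.ME.StCE
import Pool.Agent.MUX.XCAll

/-!
# ME, block CE (port of `MUX/C_X.lean`), module SUR: the field `surj` of `TorXE`
-/

set_option autoImplicit false

open Polynomial NumberField IsDedekindDomain

namespace Pool.Agent.MEC

open Pool.Agent.ME
open Pool.Agent.MUXC (Sc_CLF Sc_COP Sc_TRO Sc_GEN Sc_ENO Sc_INV Sc_QCR Sc_QEX Sc_QNE Sc_ISL Sc_FEX
  Sc_RP1 Sc_RP2 Sc_RP3 Sc_REP Sc_DNX Sc_NMC)
open _root_.MU3 Pool.Agent.MU3A Pool.Agent.MU3B Pool.Agent.MUX Pool.Agent.MUXU Pool.Agent.RI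

noncomputable section

namespace SUR

variable {A B : ℤ}

lemma fix_refl : FixK A B (RingEquiv.refl ℂ) := rfl

lemma fix_trans {σ τ : ℂ ≃+* ℂ} (h : FixK A B σ) (h' : FixK A B τ) : FixK A B (σ.trans τ) := by
  change τ (σ (wC A B)) = wC A B
  rw [show σ (wC A B) = wC A B from h]
  exact h'

lemma hasCM (h : CQ A B) {b : Ideal (OO A B)} {L : PeriodPair} {om : ℂ} (hL : IsLI b L om) :
    HasCM A B L := by
  intro x z hz
  obtain ⟨y, hy, rfl⟩ := (hL.mem z).1 hz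
  refine (hL.mem _).2 ⟨x * y, b.mul_mem_left x hy, ?_⟩
  rw [Pool.Agent.MUX.emb_mul h]
  ring

/-- the identity acts as the unit ideal -/
lemma act_refl (h : CQ A B) (m : Ideal (OO A B)) {b : Ideal (OO A B)} {L : PeriodPair} {om : ℂ}
    (hL : IsNE b L om) : ActE (RingEquiv.refl ℂ) m (1 : Ideal (OO A B)) L L 1 := by
  have hcm : HasCM A B L := hasCM h hL.toIsLI
  refine ⟨rfl, isCoprime_one_left, ⟨one_ne_zero, fun z => ?_⟩, fun z _ => ?_⟩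
  · rw [one_mul]
    constructor
    · intro hz x _
      exact hcm x z hz
    · intro h'
      have h1 := h' 1 (by rw [Ideal.one_eq_top]; exact Submodule.mem_top)
      rwa [Pool.Agent.MUX.emb_one h, one_mul] at h1
  · rw [one_mul]
    by_cases hz : z ∈ L.lattice
    · exact Or.inl ⟨hz, hz⟩
    · exact Or.inr ⟨hz, hz, rfl, rfl⟩

lemma int_wC (h : CQ A B) : IsIntegral ℚ (wC A B) := by
  refine ⟨X ^ 2 - C (B : ℚ) * X - C (A : ℚ), ?_, ?_⟩
  · monicity!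
  · simp only [eval₂_sub, eval₂_pow, eval₂_X, eval₂_mul, eval₂_C]
    simp only [eq_ratCast, Rat.cast_intCast]
    rw [sq, Pool.Agent.MUX.wC_sq h]
    ring

/-- extension of an automorphism of `RFE m` -/
lemma extend (hAUE : Su_AUE) (h : CQ A B) (F : IntermediateField (kk A B) ℂ)
    [FiniteDimensional (kk A B) F] (φ : F ≃ₐ[kk A B] F) :
    ∃ s : ℂ ≃+* ℂ, FixK A B s ∧ ∀ x : F, s x = (φ x : ℂ) := by
  have hk : Algebra.IsAlgebraic ℚ (kk A B) := by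
    refine IntermediateField.isAlgebraic_adjoin ?_
    intro x hx
    rw [Set.mem_singleton_iff] at hx
    rw [hx]
    exact int_wC h
  let F' : IntermediateField ℚ ℂ := IntermediateField.restrictScalars ℚ F
  have hF : Algebra.IsAlgebraic (kk A B) F := inferInstance
  have hF' : Algebra.IsAlgebraic ℚ F' := by
    have : Algebra.IsAlgebraic ℚ F := Algebra.IsAlgebraic.trans ℚ (kk A B) F
    exact this
  let τ : F' →+* ℂ := (algebraMap F ℂ).comp (φ : F →+* F)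
  obtain ⟨s, hs⟩ := hAUE F' hF' τ
  refine ⟨s, ?_, fun x => hs x⟩
  have hw : wC A B ∈ kk A B := Pool.Agent.MU3A.wC_mem A B
  have h1 := hs ⟨wC A B, F.algebraMap_mem ⟨wC A B, hw⟩⟩
  have h2 : φ (algebraMap (kk A B) F ⟨wC A B, hw⟩) = algebraMap (kk A B) F ⟨wC A B, hw⟩ :=
    φ.commutes _
  change s (wC A B) = ((φ (algebraMap (kk A B) F ⟨wC A B, hw⟩) : F) : ℂ) at h1
  rw [h2] at h1
  exact h1

end SUR

open SUR in
theorem tc_SUR (hFRO : Sc_FRO) (hREP : Sc_REP) (hFEX : Sc_FEX) (hFGL : Sc_FGL) (hCMP : Sc_CMP)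
    (hCHG : Sc_CHG) (hAUE : Su_AUE) : Sc_SUR := by
  intro A B hE m hm a ha ham
  have hC : CQ A B := hE.toCQ
  obtain ⟨n₀, hn₀, hfro⟩ := hFRO A B hE
  obtain ⟨hfin, hgal, _⟩ := hFGL A B hC m hm
  obtain ⟨ls, x, y, hls, hx, hy, hx0, hy0, hxy, hprod⟩ := hREP A B hC m a n₀ hm hn₀ ha ham
  -- one prime
  have hone : ∀ Q : Ideal (OO A B), (Q.IsPrime ∧ ∃ q : ℕ, q.Prime ∧ nI Q = q ∧ ¬ q ∣ n₀ ∧ ¬ q ∣ nI m) →
      ∃ s : ℂ ≃+* ℂ, FixK A B s ∧ ∀ (b : Ideal (OO A B)) (L : PeriodPair) (om : ℂ),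
        IsNE b L om → ∃ (b' : Ideal (OO A B)) (L' : PeriodPair) (om' mu : ℂ), IsNE b' L' om' ∧
          ActE s m Q L L' mu := by
    rintro Q ⟨hQ, q, hq, hnq, hq1, hq2⟩
    obtain ⟨V, φ, hV, hφ⟩ := hFEX A B hC (RFE m) Q q hq hQ hnq
    obtain ⟨s, hs, hsφ⟩ := extend hAUE hC (RFE m) φ
    refine ⟨s, hs, hfro m hm Q q hq hnq hq1 hq2 V hV s hs fun z hz hzV => ?_⟩
    have h1 := hφ ⟨z, hz⟩ hzV
    have h2 := hsφ ⟨z, hz⟩
    change s z = _ at h2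
    rw [h2]
    exact h1
  -- products
  have hmany : ∀ l : List (Ideal (OO A B)), (∀ Q ∈ l, Q.IsPrime ∧ ∃ q : ℕ, q.Prime ∧
      nI Q = q ∧ ¬ q ∣ n₀ ∧ ¬ q ∣ nI m) → ∃ s : ℂ ≃+* ℂ, FixK A B s ∧
      ∀ (b : Ideal (OO A B)) (L : PeriodPair) (om : ℂ), IsNE b L om →
        ∃ (b' : Ideal (OO A B)) (L' : PeriodPair) (om' mu : ℂ), IsNE b' L' om' ∧
          ActE s m l.prod L L' mu := by
    intro l
    induction l with
    | nil =>
      intro _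
      refine ⟨RingEquiv.refl ℂ, fix_refl, fun b L om hL => ⟨b, L, om, 1, hL, ?_⟩⟩
      rw [List.prod_nil]
      exact act_refl hC m hL
    | cons Q l ih =>
      intro hl
      obtain ⟨s, hs, hs'⟩ := hone Q (hl Q List.mem_cons_self)
      obtain ⟨t, ht, ht'⟩ := ih fun Q' hQ' => hl Q' (List.mem_cons_of_mem _ hQ')
      refine ⟨s.trans t, fix_trans hs ht, fun b L om hL => ?_⟩
      obtain ⟨b₁, L₁, om₁, mu₁, hL₁, h1⟩ := hs' b L om hL
      obtain ⟨b₂, L₂, om₂, mu₂, hL₂, h2⟩ := ht' b₁ L₁ om₁ hL₁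
      refine ⟨b₂, L₂, om₂, mu₂ * mu₁, hL₂, ?_⟩
      rw [List.prod_cons]
      exact hCMP A B hC m Q l.prod s t L L₁ L₂ mu₁ mu₂ h1 h2
  obtain ⟨s, hs, hs'⟩ := hmany ls hls
  refine ⟨s, hs, fun b L om hL => ?_⟩
  obtain ⟨b', L', om', mu, hL', h1⟩ := hs' b L om hL
  exact ⟨b', L', om', mu * emb x / emb y, hL',
    hCHG A B hC m ls.prod a s L L' mu x y hm ham hx hx0 hy0 hxy hprod ⟨b, om, hL⟩ h1⟩

end

end Pool.Agent.MEC
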