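import Pool.Agent.ME.StCE
import Pool.Agent.MUX.XCAll

/-!
# ME, block CE (port of `MUX/C_X.lean`): the contract `TorXE`
-/

set_option autoImplicit false

namespace Pool.Agent.MEC

open Pool.Agent.ME
open Pool.Agent.MUXC (Sc_CLF Sc_COP Sc_TRO Sc_GEN Sc_ENO Sc_INV Sc_QCR Sc_QEX Sc_QNE Sc_ISL Sc_FEX
  Sc_RP1 Sc_RP2 Sc_RP3 Sc_REP Sc_DNX Sc_NMC)
open _root_.MU3 Pool.Agent.MU3A Pool.Agent.MU3B Pool.Agent.MUX Pool.Agent.MUXU Pool.Agent.RI

theorem tc_TOR (h1 : Sc_FGL) (h2 : Sc_CMM) (h3 : Sc_EXT) (h4 : Sc_ACT) (h5 : Sc_SUR)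
    (h6 : Sc_CMP) (h7 : Sc_CHG) (h8 : Sc_UNQ) (h9 : Sc_TRV) (h10 : Sc_ZET) : Sc_TOR :=
  fun A B hE =>
    have hAB : CQ A B := hE.toCQ
    { fin := fun m hm => (h1 A B hAB m hm).1
      gal := fun m hm => (h1 A B hAB m hm).2.1
      comm := fun m hm => h2 A B hAB m hm
      mono := fun m m' h => (h3 A B hAB).1 m m' h
      ext := fun m hm D h hD τ => (h3 A B hAB).2 m hm D h hD τ
      act := fun m hm σ hσ => h4 A B hAB m hm σ hσ
      surj := fun m hm a ha hc => h5 A B hE m hm a ha hc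
      comp := fun m a b σ τ L L' L'' mu nu => h6 A B hAB m a b σ τ L L' L'' mu nu
      chg := fun m a a' σ L L' mu x y => h7 A B hAB m a a' σ L L' mu x y
      uniq := fun m a a' σ L L' mu mu' => h8 A B hAB m a a' σ L L' mu mu'
      triv := fun m a σ b L L' om mu hm hm2 hσ hL hact hL' =>
        have h := h9 A B hE m a σ b L L' om mu hm hσ hL hact hL'
        ⟨h.2.1, h.2.2 hm2⟩
      two := fun m a σ b L L' om mu hm hm2 hσ hL hact hL' => by
        obtain ⟨⟨c, h1, h2, h3⟩, -⟩ := h9 A B hE m a σ b L L' om mu hm hσ hL hact hL'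
        exact ⟨c, h1, h2, h3 hm2⟩
      zeta := fun M m a σ b L L' om mu => h10 A B hE M m a σ b L L' om mu }

end Pool.Agent.MEC
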