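import Pool.Agent.ME.StCE
import Pool.Agent.MUX.XCAll

/-!
# ME, block CE (port of `MUX/C_X.lean`), module UNQ (helper96): uniqueness of the class of the ideal
-/

set_option autoImplicit false

namespace Pool.Agent.MEC

open Pool.Agent.ME
open Pool.Agent.MUXC (Sc_CLF Sc_COP Sc_TRO Sc_GEN Sc_ENO Sc_INV Sc_QCR Sc_QEX Sc_QNE Sc_ISL Sc_FEX
  Sc_RP1 Sc_RP2 Sc_RP3 Sc_REP Sc_DNX Sc_NMC)
open _root_.MU3 Pool.Agent.MU3A Pool.Agent.MU3B Pool.Agent.MUX Pool.Agent.MUXU Pool.Agent.RI

noncomputable section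

namespace UNQ

variable {A B : ℤ}

/-- the multiplier `mu' / mu` maps `a` into `a'` -/
theorem step (h : CQ A B) (hE : Sc_ENO) (hI : Sc_INV) {b : Ideal (OO A B)} {L : PeriodPair}
    {om : ℂ} (hL : IsLI b L om) {L' : PeriodPair} {a a' : Ideal (OO A B)} {mu mu' : ℂ}
    (hq : IsQ a L L' mu) (hq' : IsQ a' L L' mu') (hg : Isg L L' mu') (ha' : a' ≠ ⊥) :
    ∀ α ∈ a, ∃ α₁ ∈ a', mu' * emb α = mu * emb α₁ := by
  intro α hα
  have hmu := hq.1
  have e0 : ∀ z : ℂ, mu * (mu' / mu * z) = mu' * z := by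
    intro z
    field_simp
  have h1 : ∀ z : ℂ, mu' * z ∈ L'.lattice → mu' / mu * emb α * z ∈ L.lattice := by
    intro z hz
    rw [← e0] at hz
    have := (hq.2 _).1 hz α hα
    have e : mu' / mu * emb α * z = emb α * (mu' / mu * z) := by ring
    rw [e]
    exact this
  obtain ⟨α₁, hα₁⟩ := hE A B h b L om hL (mu' / mu * emb α) (fun z hz => h1 z (hg z hz))
  refine ⟨α₁, hI A B h b L om hL a' ha' α₁ ?_, ?_⟩
  · intro z hz
    rw [← hα₁]
    exact h1 z ((hq'.2 z).2 hz)
  · rw [← hα₁]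
    field_simp

end UNQ

open UNQ in
/-- (UNQ) uniqueness of the class of the ideal. -/
theorem tc_UNQ (hQ : Sc_QNE) (hE : Sc_ENO) (hI : Sc_INV) (hG : Sc_GEN) (hP : Su_EQP) :
    Sc_UNQ := by
  intro A B h m a a' σ L L' mu mu' hm hn hA hA'
  obtain ⟨b, om, hNL⟩ := hn
  have hL := hNL.toIsLI
  have hcm := IsLI.hasCM h hL
  obtain ⟨ha, hg, -⟩ := hQ A B h a L L' mu hcm hA.isq
  obtain ⟨ha', hg', -⟩ := hQ A B h a' L L' mu' hcm hA'.isq
  have hmu := hA.isq.1
  have hmu' := hA'.isq.1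
  have s1 := step h hE hI hL hA.isq hA'.isq hg' ha'
  have s2 := step h hE hI hL hA'.isq hA.isq hg ha
  have hy : ∃ y ∈ a, y ≠ 0 ∧ 1 - y ∈ m := by
    obtain ⟨y, hy, β, hβ, hyβ⟩ := Ideal.isCoprime_iff_exists.1 hA.cop
    by_cases hy0 : y = 0
    · rw [hy0, zero_add] at hyβ
      rw [hyβ] at hβ
      have hmt : m = ⊤ := (Ideal.eq_top_iff_one m).2 hβ
      obtain ⟨y', hy', hy0'⟩ := Submodule.exists_mem_ne_zero_of_ne_bot ha
      exact ⟨y', hy', hy0', by rw [hmt]; trivial⟩
    · refine ⟨y, hy, hy0, ?_⟩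
      have : 1 - y = β := by rw [← hyβ]; ring
      rw [this]
      exact hβ
  obtain ⟨y, hya, hy0, hym⟩ := hy
  obtain ⟨x, hxa, hx⟩ := s1 y hya
  have hey : emb y ≠ 0 := emb_ne_zero h hy0
  have hx0 : x ≠ 0 := by
    rintro rfl
    rw [emb_zero h, mul_zero] at hx
    exact mul_ne_zero hmu' hey hx
  -- the difference
  have hxy : x - y ∈ m := by
    obtain ⟨u, hu, hu2, -⟩ := hG A B h b m L om hL hm
    have p1 := hA.act u hu
    have p2 := hA'.act u hu
    have hd : mu * u - mu' * u ∈ L'.lattice := by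
      rcases p1 with ⟨q1, q2⟩ | ⟨q1, q2, q3, q4⟩
      · rcases p2 with ⟨-, r2⟩ | ⟨r1, -⟩
        · exact sub_mem q2 r2
        · exact absurd q1 r1
      · rcases p2 with ⟨r1, -⟩ | ⟨-, r2, r3, r4⟩
        · exact absurd r1 q1
        · refine hP L' _ _ q2 r2 ?_ ?_
          · have := q3.symm.trans r3
            unfold xnE at this
            linear_combination this
          · have := q4.symm.trans r4
            unfold yy at this
            linear_combination 2 * this
    have e1 : mu * u - mu' * u = mu * (u - mu' / mu * u) := by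
      field_simp
    rw [e1] at hd
    have h3 := (hA.isq.2 _).1 hd y hya
    have e2 : emb y * (u - mu' / mu * u) = emb (y - x) * u := by
      rw [emb_sub h]
      have e3 : mu' / mu * emb y = emb x := by
        rw [div_mul_eq_mul_div, hx]
        field_simp
      linear_combination -u * e3
    rw [e2] at h3
    have h4 := (hu2 _).1 h3
    have e5 : x - y = -(y - x) := by ring
    rw [e5]
    exact neg_mem h4
  refine ⟨x, y, ?_, hx0, hy0, hxy, ?_, ?_⟩
  · rw [Ideal.isCoprime_iff_exists]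
    refine ⟨x, Ideal.mem_span_singleton_self x, 1 - x, ?_, by ring⟩
    have e : 1 - x = (1 - y) - (x - y) := by ring
    rw [e]
    exact sub_mem hym hxy
  · apply le_antisymm
    · rw [Ideal.span_singleton_mul_le_iff]
      intro α hα
      obtain ⟨α₁, hα₁, e⟩ := s1 α hα
      rw [Ideal.mem_span_singleton_mul]
      refine ⟨α₁, hα₁, ?_⟩
      apply emb_inj h
      rw [emb_mul h, emb_mul h]
      apply mul_left_cancel₀ hmu
      linear_combination emb α * hx - emb y * e
    · rw [Ideal.span_singleton_mul_le_iff]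
      intro α hα
      obtain ⟨α₁, hα₁, e⟩ := s2 α hα
      rw [Ideal.mem_span_singleton_mul]
      refine ⟨α₁, hα₁, ?_⟩
      apply emb_inj h
      rw [emb_mul h, emb_mul h]
      apply mul_left_cancel₀ hmu
      linear_combination (-emb α₁) * hx - emb y * e
  · rw [← hx]
    field_simp

end

end Pool.Agent.MEC
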