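import Pool.Agent.ME.StCE
import Pool.Agent.MUX.XCAll
import Pool.Agent.MU3.A_CYC

/-!
# ME, block CE (port of `MUX/C_X.lean`), module ZET: roots of unity
-/

set_option autoImplicit false

open Polynomial NumberField IsDedekindDomain

namespace Pool.Agent.MEC

open _root_.MU3 Pool.Agent.MU3A Pool.Agent.MU3B Pool.Agent.MUX Pool.Agent.MUXU Pool.Agent.RI
open Pool.Agent.ME
open Pool.Agent.MUXE (NL Sxe_RNG)
open Pool.Agent.MUXC (Sc_CLF Sc_COP Sc_TRO Sc_GEN Sc_ENO Sc_INV Sc_QCR Sc_QEX Sc_QNE Sc_ISL Sc_FEX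
  Sc_RP1 Sc_RP2 Sc_RP3 Sc_REP Sc_DNX Sc_NMC)

noncomputable section

namespace ZET

variable {A B : ℤ}

/-! ### Fields -/

lemma kk_fin (h : CQ A B) : FiniteDimensional ℚ (kk A B) := by
  apply IntermediateField.adjoin.finiteDimensional
  refine ⟨X ^ 2 - (C (B : ℚ) * X + C (A : ℚ)), ?_, ?_⟩
  · apply monic_X_pow_sub
    refine (degree_linear_le (a := (B : ℚ)) (b := (A : ℚ))).trans_lt ?_
    norm_num
  · have h1 := MUX.wC_sq h
    simp only [eval₂_sub, eval₂_pow, eval₂_X, eval₂_add, eval₂_mul, eval₂_C]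
    rw [map_intCast, map_intCast]
    linear_combination h1

/-- extension of embeddings -/
lemma ext_aut (hU : Su_AUE) (h : CQ A B) (F : IntermediateField (kk A B) ℂ)
    [FiniteDimensional (kk A B) F] (τ : F →+* ℂ) : ∃ σ : ℂ ≃+* ℂ, ∀ x : F, σ x = τ x := by
  have := kk_fin h
  have : FiniteDimensional ℚ F := FiniteDimensional.trans ℚ (kk A B) F
  have h1 : Algebra.IsAlgebraic ℚ F := inferInstance
  have h2 : Algebra.IsAlgebraic ℚ (F.restrictScalars ℚ) := h1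
  exact hU (F.restrictScalars ℚ) h2 τ

lemma fix_kk {s : ℂ ≃+* ℂ} (hs : FixK A B s) (x : ℂ) (hx : x ∈ kk A B) : s x = x := by
  induction hx using IntermediateField.adjoin_induction with
  | mem x hx =>
    rw [Set.mem_singleton_iff] at hx
    rw [hx]
    exact hs
  | algebraMap x => exact map_ratCast s x
  | add x y _ _ hx hy => rw [map_add, hx, hy]
  | inv x _ hx => rw [map_inv₀, hx]
  | mul x y _ _ hx hy => rw [map_mul, hx, hy]

/-- an automorphism which fixes `k` as an automorphism over `k` -/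
def toAlg {s : ℂ ≃+* ℂ} (hs : FixK A B s) : ℂ ≃ₐ[kk A B] ℂ :=
  AlgEquiv.ofRingEquiv (f := s) fun x => fix_kk hs x x.2

lemma wC_mem_kk : wC A B ∈ kk A B := IntermediateField.mem_adjoin_simple_self ℚ _

lemma wC_mem (F : IntermediateField (kk A B) ℂ) : wC A B ∈ F :=
  F.algebraMap_mem (⟨wC A B, wC_mem_kk⟩ : kk A B)

/-! ### Valuations -/

lemma v_nat {V : ValuationSubring ℂ} {q : ℕ} (hq : q.Prime) (hqV : V.valuation (q : ℂ) < 1)
    {M : ℕ} (hqM : ¬ q ∣ M) : ¬ V.valuation (M : ℂ) < 1 := by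
  intro hMV
  have hint : ∀ n : ℤ, V.valuation (n : ℂ) ≤ 1 := fun n =>
    (V.valuation_le_one_iff _).2 (intCast_mem V n)
  have hcop : Nat.Coprime q M := (hq.coprime_iff_not_dvd).2 hqM
  have h5 := Nat.gcd_eq_gcd_ab q M
  rw [hcop.gcd_eq_one] at h5
  have h6 : (1 : ℂ) = (q : ℂ) * ((Nat.gcdA q M : ℤ) : ℂ) + (M : ℂ) * ((Nat.gcdB q M : ℤ) : ℂ) := by
    have := congrArg (fun t : ℤ => (t : ℂ)) h5
    simpa using this
  have h7 : V.valuation (1 : ℂ) < 1 := by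
    rw [h6]
    refine Valuation.map_add_lt _ ?_ ?_
    · rw [map_mul]
      exact mul_lt_one_of_lt_of_le hqV (hint _)
    · rw [map_mul]
      exact mul_lt_one_of_lt_of_le hMV (hint _)
  rw [map_one] at h7
  exact lt_irrefl _ h7

lemma v_root {V : ValuationSubring ℂ} {M : ℕ} (hM : M ≠ 0) {z : ℂ} (hz : z ^ M = 1) :
    V.valuation z = 1 := by
  have h1 : (V.valuation z) ^ M = 1 := by rw [← map_pow, hz, map_one]
  exact (pow_eq_one_iff.1 h1).resolve_right hM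

lemma root_one {V : ValuationSubring ℂ} {M : ℕ} (hM : M ≠ 0) {t : ℂ} (ht : t ^ M = 1)
    (hv : V.valuation (t - 1) < 1) (hMV : ¬ V.valuation (M : ℂ) < 1) : t = 1 := by
  by_contra hne
  have h1 : (∑ i ∈ Finset.range M, t ^ i) * (t - 1) = 0 := by
    rw [geom_sum_mul, ht, sub_self]
  have h2 : ∑ i ∈ Finset.range M, t ^ i = 0 :=
    (mul_eq_zero.1 h1).resolve_right (sub_ne_zero.2 hne)
  apply hMV
  have h3 : (M : ℂ) = - ∑ i ∈ Finset.range M, (t ^ i - 1) := by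
    rw [Finset.sum_sub_distrib, h2]
    simp
  have h4 : V.valuation t = 1 := v_root hM ht
  rw [h3, Valuation.map_neg]
  have h5 : ∀ i ∈ Finset.range M, V.valuation (t ^ i - 1) < 1 := by
    intro i _
    have h6 : t ^ i - 1 = (t - 1) * ∑ j ∈ Finset.range i, t ^ j := (mul_geom_sum t i).symm
    rw [h6, map_mul]
    refine mul_lt_one_of_lt_of_le hv ?_
    refine Valuation.map_sum_le _ fun j _ => ?_
    rw [map_pow, h4, one_pow]
  exact Valuation.map_sum_lt _ one_ne_zero h5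

lemma frob_root {V : ValuationSubring ℂ} {q M : ℕ} (hq : q.Prime)
    (hqV : V.valuation (q : ℂ) < 1) (hM : M ≠ 0) (hqM : ¬ q ∣ M) {z z' : ℂ} (hz : z ^ M = 1)
    (hz' : z' ^ M = 1) (hv : V.valuation (z' - z ^ q) < 1) : z' = z ^ q := by
  have hz0 : z ≠ 0 := by
    rintro rfl
    rw [zero_pow hM] at hz
    exact zero_ne_one hz
  have hzq : z ^ q ≠ 0 := pow_ne_zero _ hz0
  have h1 : (z' / z ^ q) ^ M = 1 := by
    rw [div_pow, hz', ← pow_mul, mul_comm, pow_mul, hz, one_pow, div_one]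
  have h2 : V.valuation (z' / z ^ q - 1) < 1 := by
    have h3 : z' / z ^ q - 1 = (z' - z ^ q) / z ^ q := by
      rw [sub_div, div_self hzq]
    rw [h3, map_div₀, map_pow, v_root hM hz, one_pow, div_one]
    exact hv
  have h3 := root_one hM h1 h2 (v_nat hq hqV hqM)
  exact (div_eq_one_iff_eq hzq).1 h3

/-! ### Norms -/

lemma nI_sp_cong (h : CQ A B) {M : ℕ} {m : Ideal (OO A B)} (hmM : m ≤ idl M) {c : OO A B}
    (hc : c - 1 ∈ m) (hc0 : c ≠ 0) {z : ℂ} (hz : z ^ M = 1) : z ^ nI (sp c) = z := by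
  have h1 : (M : OO A B) ∣ c - 1 := Ideal.mem_span_singleton.1 (hmM hc)
  have h2 := CYC.nm_cong M h1
  have h3 : nm (1 : OO A B) = 1 := CYC.nm_one
  have h4 : nI (sp c) ≡ 1 [MOD M] := by
    rw [← Int.natCast_modEq_iff, MUX.nI_sp h hc0, Int.natCast_natAbs,
      abs_of_nonneg (MUX.nm_nonneg h c)]
    refine (Int.modEq_iff_dvd.2 ?_).symm
    rw [h3] at h2
    exact_mod_cast h2
  rw [pow_eq_pow_of_modEq h4 hz, pow_one]

lemma ne_top (h : CQ A B) {M : ℕ} {m : Ideal (OO A B)} (hmM : m ≤ idl M) (hM : M ≠ 1) :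
    m ≠ ⊤ := by
  intro h1
  rw [h1, top_le_iff, Ideal.span_singleton_eq_top] at hmM
  obtain ⟨u, hu⟩ := isUnit_iff_exists_inv.1 hmM
  have h2 := congrArg nm hu
  have h3 : nm ((M : ℕ) : OO A B) = (M : ℤ) ^ 2 := by
    have := nm_intCast (A := A) (B := B) (M : ℤ)
    rwa [Int.cast_natCast] at this
  rw [MUX.nm_mul h, h3, CYC.nm_one] at h2
  have h4 : (M : ℤ) ∣ 1 := ⟨M * nm u, by rw [← h2]; ring⟩
  have h5 : M ∣ 1 := by exact_mod_cast h4
  exact hM (Nat.dvd_one.1 h5)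

/-! ### The action on all normalised lattices -/

/-- `s` acts on the points of level `m` as the ideal `a` -/
def Good (m : Ideal (OO A B)) (s : ℂ ≃+* ℂ) (a : Ideal (OO A B)) : Prop :=
  ∀ (b : Ideal (OO A B)) (L : PeriodPair) (om : ℂ), IsNE b L om →
    ∃ (b' : Ideal (OO A B)) (L' : PeriodPair) (om' mu : ℂ), IsNE b' L' om' ∧
      ActE s m a L L' mu

/-- the claim for `s` -/
def PP (m : Ideal (OO A B)) (z : ℂ) (s : ℂ ≃+* ℂ) : Prop :=
  ∃ a : Ideal (OO A B), Good m s a ∧ s z = z ^ nI a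

lemma ActE.ne_bot (hQNE : Sc_QNE) (hQ : CQ A B) {m a b : Ideal (OO A B)} {s : ℂ ≃+* ℂ}
    {L L' : PeriodPair} {om mu : ℂ} (hL : IsNE b L om) (h : ActE s m a L L' mu) : a ≠ ⊥ :=
  (hQNE A B hQ a L L' mu (hL.toIsLI.hasCM hQ) h.isq).1

lemma Good.ne_bot (hQNE : Sc_QNE) (hQ : CQ A B) {m a b : Ideal (OO A B)} {s : ℂ ≃+* ℂ}
    {L : PeriodPair} {om : ℂ} (hL : IsNE b L om) (h : Good m s a) : a ≠ ⊥ := by
  obtain ⟨b', L', om', mu, -, h2⟩ := h b L om hL
  exact ActE.ne_bot hQNE hQ hL h2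

lemma Good.mul (hCMP : Sc_CMP) (hQ : CQ A B) {m a b : Ideal (OO A B)} {s t : ℂ ≃+* ℂ}
    (h1 : Good m s a) (h2 : Good m t b) : Good m (s.trans t) (a * b) := by
  intro c L om hL
  obtain ⟨c₁, L₁, om₁, mu, hL₁, h3⟩ := h1 c L om hL
  obtain ⟨c₂, L₂, om₂, nu, hL₂, h4⟩ := h2 c₁ L₁ om₁ hL₁
  exact ⟨c₂, L₂, om₂, nu * mu, hL₂, hCMP A B hQ m a b s t L L₁ L₂ mu nu h3 h4⟩

lemma PP.mul (hCMP : Sc_CMP) (hQNE : Sc_QNE) (hQ : CQ A B) {m b : Ideal (OO A B)}
    {L : PeriodPair} {om : ℂ} (hL : IsNE b L om) {z : ℂ} {s t : ℂ ≃+* ℂ} (h1 : PP m z s)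
    (h2 : PP m z t) : PP m z (s.trans t) := by
  obtain ⟨a, ha, ha'⟩ := h1
  obtain ⟨c, hc, hc'⟩ := h2
  refine ⟨a * c, ha.mul hCMP hQ hc, ?_⟩
  rw [RingEquiv.trans_apply, ha', map_pow, hc', ← pow_mul,
    MUX.nI_mul hQ (ha.ne_bot hQNE hQ hL) (hc.ne_bot hQNE hQ hL), mul_comm]

/-- an automorphism which is trivial on `RFE m` and fixes `z` -/
lemma PP.of_triv (hACT : Sc_ACT) (hTRV : Sc_TRV) (hQNE : Sc_QNE) (hE : CaseE A B) {M : ℕ}
    {m b : Ideal (OO A B)} (hm : m ≠ ⊥) (hmM : m ≤ idl M)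
    {L : PeriodPair} {om : ℂ} (hL : IsNE b L om) {z : ℂ} (hz : z ^ M = 1) {s : ℂ ≃+* ℂ}
    (hs : ∀ y ∈ (RFE m : IntermediateField (kk A B) ℂ), s y = y) (hsz : s z = z) : PP m z s := by
  have hQ : CQ A B := hE.toCQ
  have hfix : FixK A B s := hs _ (wC_mem _)
  obtain ⟨a, ha, hg⟩ := hACT A B hQ m hm s hfix
  obtain ⟨b', L', om', mu, hL', hact⟩ := hg b L om hL
  obtain ⟨c, hc, hac⟩ := (hTRV A B hE m a s b L L' om mu hm hfix hL hact hL'.nrm).2.1 hs
  have ha0 : a ≠ ⊥ := ActE.ne_bot hQNE hQ hL hact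
  have hc0 : c ≠ 0 := by
    rintro rfl
    apply ha0
    rw [hac]
    exact Ideal.span_singleton_eq_bot.2 rfl
  refine ⟨a, hg, ?_⟩
  rw [hac, nI_sp_cong hQ hmM hc hc0 hz, hsz]

/-- independence of the ideal -/
lemma indep (hUNQ : Sc_UNQ) (hNMC : Sc_NMC) (hNRL : Sc_NRL) (hQNE : Sc_QNE) (hCJN : Sc_CJN)
    (hE : CaseE A B) {M : ℕ} {m a b : Ideal (OO A B)} (hm : m ≠ ⊥) (hmt : m ≠ ⊤) (hM : M ≠ 0)
    (hmM : m ≤ idl M) {L L' : PeriodPair} {om mu : ℂ} (hL : IsNE b L om) {z : ℂ}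
    (hz : z ^ M = 1) {s : ℂ ≃+* ℂ} (hfix : FixK A B s) (h : PP m z s)
    (hact : ActE s m a L L' mu) : s z = z ^ nI a := by
  have hQ : CQ A B := hE.toCQ
  obtain ⟨a₀, hg, ha₀⟩ := h
  obtain ⟨b₁, L₁, om₁, mu₁, hL₁, hact₁⟩ := hg b L om hL
  have hn := (hNRL A B hE m a s b L L' om mu hm hmt hfix hL hact).1
  obtain ⟨hlat, hxy⟩ := (hCJN A B hQ).2.2 L' L₁ hn hL₁.nrm (by rw [hact.kapE, hact₁.kapE])
  have hact2 : ActE s m a L L₁ mu := by
    refine ⟨hact₁.kapE, hact.cop, ⟨hact.isq.1, fun y => ?_⟩, fun y hy => ?_⟩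
    · rw [← hlat]
      exact hact.isq.2 y
    · rcases hact.act y hy with ⟨h1, h2⟩ | ⟨h1, h2, h3, h4⟩
      · exact Or.inl ⟨h1, (hlat _).1 h2⟩
      · refine Or.inr ⟨h1, fun h5 => h2 ((hlat _).2 h5), ?_, ?_⟩
        · rw [h3, (hxy _).1]
        · rw [h4, (hxy _).2]
  obtain ⟨x, y, hxm, hx0, hy0, hxym, hxy2, -⟩ :=
    hUNQ A B hQ m a₀ a s L L₁ mu₁ mu hm ⟨b, om, hL⟩ hact₁ hact2
  have h5 := hNMC A B hQ M m a₀ a x y hM hmM (ActE.ne_bot hQNE hQ hL hact₁)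
    (ActE.ne_bot hQNE hQ hL hact2) hxm hx0 hy0 hxym hxy2
  rw [ha₀, pow_eq_pow_of_modEq h5 hz]

/-- the main step -/
lemma key (hFRO : Sc_FRO) (hDNX : Sc_DNX) (hFGL : Sc_FGL) (hACT : Sc_ACT) (hCMP : Sc_CMP)
    (hTRV : Sc_TRV) (hQNE : Sc_QNE) (hAUE : Su_AUE) (hE : CaseE A B) {M : ℕ}
    {m b : Ideal (OO A B)} (hm : m ≠ ⊥) (hM : M ≠ 0) (hmM : m ≤ idl M)
    {L : PeriodPair} {om : ℂ} (hL : IsNE b L om) {z : ℂ} (hz : z ^ M = 1) (s : ℂ ≃+* ℂ)
    (hs : FixK A B s) : PP m z s := by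
  have hQ : CQ A B := hE.toCQ
  obtain ⟨hf, hg, -⟩ := hFGL A B hQ m hm
  obtain ⟨hf', hn'⟩ := CYC.adj_gal (A := A) (B := B) hM hz
  set F := (RFE m ⊔ IntermediateField.adjoin (kk A B) {z} :
      IntermediateField (kk A B) ℂ) with hFdef
  have hF : (RFE m : IntermediateField (kk A B) ℂ) ≤ F := le_sup_left
  have hzF : z ∈ F := (le_sup_right : _ ≤ F) (IntermediateField.mem_adjoin_simple_self _ z)
  have : FiniteDimensional (kk A B) F := IntermediateField.finiteDimensional_sup _ _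
  have : Normal (kk A B) F := IntermediateField.normal_sup (kk A B) ℂ _ _
  have : IsGalois (kk A B) F := ⟨⟩
  obtain ⟨n₀, hn₀, hfro⟩ := hFRO A B hE
  let S : Submonoid (F ≃ₐ[kk A B] F) :=
    { carrier := {φ | ∀ s : ℂ ≃+* ℂ, (∀ x : F, s (x : ℂ) = (φ x : ℂ)) → PP m z s}
      one_mem' := by
        intro s hs
        refine PP.of_triv hACT hTRV hQNE hE hm hmM hL hz (fun y hy => ?_) ?_
        · exact hs ⟨y, hF hy⟩
        · exact hs ⟨z, hzF⟩
      mul_mem' := by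
        intro φ ψ hφ hψ s hs
        obtain ⟨t, ht⟩ := ext_aut hAUE hQ F ((algebraMap F ℂ).comp (ψ : F →+* F))
        have ht' : ∀ x : F, t (x : ℂ) = (ψ x : ℂ) := ht
        have h1 : PP m z t := hψ t ht'
        have h2 : PP m z (t.symm.trans s) := by
          apply hφ
          intro x
          have h3 : t.symm (x : ℂ) = ((ψ.symm x : F) : ℂ) := by
            rw [RingEquiv.symm_apply_eq, ht', AlgEquiv.apply_symm_apply]
          rw [RingEquiv.trans_apply, h3, hs, AlgEquiv.mul_apply, AlgEquiv.apply_symm_apply]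
        have h3 := h1.mul hCMP hQNE hQ hL h2
        have h4 : t.trans (t.symm.trans s) = s := by
          ext x
          simp
        rwa [h4] at h3 }
  let H : Subgroup (F ≃ₐ[kk A B] F) :=
    { S with
      inv_mem' := by
        intro s hs
        have hcard : s ^ (Nat.card (F ≃ₐ[kk A B] F)) = 1 := pow_card_eq_one'
        have hpos : 0 < Nat.card (F ≃ₐ[kk A B] F) := Nat.card_pos
        have h5 : s⁻¹ = s ^ (Nat.card (F ≃ₐ[kk A B] F) - 1) := by
          apply inv_eq_of_mul_eq_one_left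
          rw [← pow_succ, Nat.sub_add_cancel hpos, hcard]
        rw [h5]
        exact S.pow_mem hs _ }
  have hH : H = ⊤ := by
    apply hDNX A B hQ F H (n₀ * M * nI m)
      (mul_ne_zero (mul_ne_zero hn₀ hM) (MUX.nI_ne_zero hQ hm))
    intro Q q hq hQp hQq hqn V hV σ hσ
    change ∀ s : ℂ ≃+* ℂ, (∀ x : F, s (x : ℂ) = (σ x : ℂ)) → PP m z s
    intro s hs
    have h1 : ¬ q ∣ n₀ := fun h => hqn ((h.mul_right M).mul_right _)
    have h2 : ¬ q ∣ M := fun h => hqn ((h.mul_left n₀).mul_right _)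
    have h3 : ¬ q ∣ nI m := fun h => hqn (h.mul_left _)
    have hfix : FixK A B s := by
      have h4 := hs ⟨wC A B, wC_mem F⟩
      have h5 : σ ⟨wC A B, wC_mem F⟩ = ⟨wC A B, wC_mem F⟩ :=
        σ.commutes (⟨wC A B, wC_mem_kk⟩ : kk A B)
      rw [h5] at h4
      exact h4
    refine ⟨Q, ?_, ?_⟩
    · refine hfro m hm Q q hq hQq h1 h3 V hV s hfix ?_
      intro x hx hxV
      have h4 := hσ ⟨x, hF hx⟩ hxV
      rw [← hs] at h4
      exact h4
    · rw [hQq]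
      have hqV : V.valuation (q : ℂ) < 1 := by
        have hQ0 : Q ≠ ⊥ := by
          rintro rfl
          have h4 : nI (⊥ : Ideal (OO A B)) = 0 := by
            unfold nI
            have : Infinite (OO A B ⧸ (⊥ : Ideal (OO A B))) := by
              have h5 : Function.Injective
                  (fun n : ℕ => Ideal.Quotient.mk (⊥ : Ideal (OO A B)) ((n : ℕ) : OO A B)) := by
                intro x y hxy
                rw [Ideal.Quotient.eq, Ideal.mem_bot, sub_eq_zero] at hxy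
                have h6 := congrArg emb hxy
                rw [MUX.emb_natCast hQ, MUX.emb_natCast hQ] at h6
                exact_mod_cast h6
              exact Infinite.of_injective _ h5
            exact Nat.card_eq_zero_of_infinite
          rw [h4] at hQq
          exact hq.ne_zero hQq.symm
        have h4 : ((nI Q : ℕ) : OO A B) ∈ Q := MUX.nI_mem hQ hQ0
        rw [hQq] at h4
        have h5 := (hV _).2 h4
        rw [MUX.emb_natCast hQ, ValuationSubring.mem_nonunits_iff] at h5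
        exact h5
      have hzV : z ∈ V := by
        rw [← V.valuation_le_one_iff, v_root hM hz]
      have h4 := hσ ⟨z, hzF⟩ hzV
      rw [← hs] at h4
      refine frob_root hq hqV hM h2 hz ?_ h4
      rw [← map_pow, hz, map_one]
  have h1 : (toAlg hs).restrictNormal F ∈ H := by
    rw [hH]
    trivial
  refine h1 s ?_
  intro x
  exact (AlgEquiv.restrictNormal_commutes (toAlg hs) F x).symm

end ZET

open ZET in
theorem tc_ZET (hFRO : Sc_FRO) (hDNX : Sc_DNX) (hFGL : Sc_FGL) (hACT : Sc_ACT) (hCMP : Sc_CMP)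
    (hUNQ : Sc_UNQ) (hNMC : Sc_NMC) (hNRL : Sc_NRL) (hQNE : Sc_QNE) (hTRV : Sc_TRV)
    (hCJN : Sc_CJN) (hAUE : Su_AUE) (hAUF : Su_AUF) : Sc_ZET := by
  intro A B hE M m a σ b L L' om mu hm hσ hM hmM hL hact z hz
  have hQ : CQ A B := hE.toCQ
  rcases eq_or_ne M 1 with h1 | h1
  · subst h1
    rw [pow_one] at hz
    subst hz
    exact ⟨one_mem _, by rw [map_one, one_pow]⟩
  have hmt : m ≠ ⊤ := ne_top hQ hmM h1
  have hkey := fun s hs => key hFRO hDNX hFGL hACT hCMP hTRV hQNE hAUE hE hm hM hmM hL hz s hs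
  refine ⟨?_, indep hUNQ hNMC hNRL hQNE hCJN hE hm hmt hM hmM hL hz hσ (hkey σ hσ) hact⟩
  obtain ⟨hf, -, -⟩ := hFGL A B hQ m hm
  have := kk_fin hQ
  have : FiniteDimensional ℚ (RFE m : IntermediateField (kk A B) ℂ) :=
    FiniteDimensional.trans ℚ (kk A B) _
  have h2 : Algebra.IsAlgebraic ℚ (RFE m : IntermediateField (kk A B) ℂ) := inferInstance
  refine hAUF ((RFE m : IntermediateField (kk A B) ℂ).restrictScalars ℚ) h2 z ?_
  intro s hs
  have hs' : ∀ y ∈ (RFE m : IntermediateField (kk A B) ℂ), s y = y := hs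
  have hfix : FixK A B s := hs' _ (wC_mem _)
  obtain ⟨a₀, ha₀, hg⟩ := hACT A B hQ m hm s hfix
  obtain ⟨b₁, L₁, om₁, mu₁, hL₁, hact₁⟩ := hg b L om hL
  obtain ⟨c, hc, hac⟩ := (hTRV A B hE m a₀ s b L L₁ om mu₁ hm hfix hL hact₁ hL₁.nrm).2.1 hs'
  have ha0 : a₀ ≠ ⊥ := ZET.ActE.ne_bot hQNE hQ hL hact₁
  have hc0 : c ≠ 0 := by
    rintro rfl
    apply ha0
    rw [hac]
    exact Ideal.span_singleton_eq_bot.2 rfl
  rw [indep hUNQ hNMC hNRL hQNE hCJN hE hm hmt hM hmM hL hz hfix (hkey s hfix) hact₁, hac,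
    nI_sp_cong hQ hmM hc hc0 hz]

end

end Pool.Agent.MEC
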