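import Pool.Agent.ME.C_ACT
import Pool.Agent.ME.C_CHG
import Pool.Agent.ME.C_CMM
import Pool.Agent.ME.C_CMP
import Pool.Agent.ME.C_EXA
import Pool.Agent.ME.C_EXT
import Pool.Agent.ME.C_FGL
import Pool.Agent.ME.C_FNG
import Pool.Agent.ME.C_FRO
import Pool.Agent.ME.C_IND
import Pool.Agent.ME.C_NRL
import Pool.Agent.ME.C_PHM
import Pool.Agent.ME.C_PMF
import Pool.Agent.ME.C_SUR
import Pool.Agent.ME.C_TOR
import Pool.Agent.ME.C_TRV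
import Pool.Agent.ME.C_UNQ
import Pool.Agent.ME.C_ZET

/-!
# ME, block CE (helper58): the main theorem of complex multiplication `TorXE A B` for the exceptional fields, without hypotheses
-/

set_option autoImplicit false

namespace Pool.Agent.MEC

open _root_.MU3 Pool.Agent.MU3A Pool.Agent.MU3B Pool.Agent.MUX Pool.Agent.MUXU Pool.Agent.RI
open Pool.Agent.ME Pool.Agent.MUXV
open Pool.Agent.MUXC (c_CLF c_GEN c_ENO c_INV c_QCR c_QEX c_QNE c_ISL c_FEX c_REP c_DNX c_NMC c_MUC)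

theorem c_CJN : Sc_CJN := tc_CJN u_CJE u_PHI u_CMC u_DET c_ISL
theorem c_SGQ : Sc_SGQ := tc_SGQ u_DET
theorem c_PMF : Sc_PMF := tc_PMF u_EQP
theorem c_PHM : Sc_PHM := tc_PHM
theorem c_IND : Sc_IND := tc_IND c_QEX c_QNE c_CJN c_PMF u_PHI u_FUN c_MUC
theorem c_EXA : Sc_EXA := tc_EXA c_QEX c_GEN c_CJN c_PMF c_PHM u_PHI
theorem c_ACT : Sc_ACT := tc_ACT c_CJN c_EXA c_IND
theorem c_CMP : Sc_CMP := tc_CMP
theorem c_CHG : Sc_CHG := tc_CHG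
theorem c_UNQ : Sc_UNQ := tc_UNQ c_QNE c_ENO c_INV c_GEN u_EQP
theorem c_TRV : Sc_TRV := tc_TRV c_CJN c_SGQ c_QNE c_ENO c_INV c_GEN c_IND
theorem c_NRL : Sc_NRL := tc_NRL c_GEN
theorem c_FNG : Sc_FNG := tc_FNG c_GEN c_SGQ
theorem c_FGL : Sc_FGL := tc_FGL c_FNG c_ACT u_AUT u_AUE
theorem c_CMM : Sc_CMM := tc_CMM c_FGL c_ACT c_CMP c_SGQ u_AUE
theorem c_EXT : Sc_EXT := tc_EXT c_FGL u_AUE
theorem c_NEX : Sc_NEX := tc_NEX
theorem c_BAD : Sc_BAD := tc_BAD x_XIC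
theorem c_FRX : Sc_FRX := tc_FRX q_ISQ q_VQI x_R5 c_BAD
theorem c_FRO : Sc_FRO :=
  tc_FRO c_BAD c_CJN c_NEX c_EXA c_PMF c_PHM c_GEN c_QCR c_QNE c_FRX q_VQI u_PHI
theorem c_SUR : Sc_SUR := tc_SUR c_FRO c_REP c_FEX c_FGL c_CMP c_CHG u_AUE
theorem c_ZET : Sc_ZET :=
  tc_ZET c_FRO c_DNX c_FGL c_ACT c_CMP c_UNQ c_NMC c_NRL c_QNE c_TRV c_CJN u_AUE u_AUF

/-- the main theorem of complex multiplication for the exceptional fields -/
theorem c_TORE : ∀ A B : ℤ, CaseE A B → TorXE A B :=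
  tc_TOR c_FGL c_CMM c_EXT c_ACT c_SUR c_CMP c_CHG c_UNQ c_TRV c_ZET

/-- every nonzero ideal has a normalised lattice -/
theorem exists_isNE {A B : ℤ} (h : CaseE A B) (b : Ideal (OO A B)) (hb : b ≠ ⊥) :
    ∃ (L : PeriodPair) (om : ℂ), IsNE b L om :=
  c_NEX A B h b hb

end Pool.Agent.MEC
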