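import Pool.Agent.ME.C_SGQ
import Pool.Agent.MUX.XCAll

/-!
# ME, block CE (helper58): library on the exceptional fields: the unit `w`, the points of order two, existence of normalised lattices
-/

set_option autoImplicit false

open Polynomial NumberField IsDedekindDomain

namespace Pool.Agent.MEC

open _root_.MU3 Pool.Agent.MU3A Pool.Agent.MU3B Pool.Agent.MUX Pool.Agent.MUXU Pool.Agent.RI
open Pool.Agent.ME
open Pool.Agent.MUXE (NL Sxe_RNG)
open Pool.Agent.MUXC (Sc_CLF Sc_COP Sc_TRO Sc_GEN Sc_ENO Sc_INV Sc_QCR Sc_QEX Sc_QNE Sc_ISL Sc_FEX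
  Sc_RP1 Sc_RP2 Sc_RP3 Sc_REP Sc_DNX Sc_NMC)

noncomputable section

variable {A B : ℤ} {L : PeriodPair}

lemma w_sq (h : CaseE A B) : wC A B ^ 2 = -1 + B * wC A B := by
  have h1 := Pool.Agent.MUX.wC_sq h.toCQ
  rw [h.hA] at h1 ⊢
  push_cast at h1
  rw [sq, h1]

lemma w_ne (h : CaseE A B) : wC A B ≠ 0 := wC_ne_zero h.toCQ

lemma w_inv (h : CaseE A B) : ((B : ℂ) - wC A B) * wC A B = 1 := by
  linear_combination -w_sq h

/-- `w` preserves the lattices with multiplication by `O` -/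
lemma w_iff (h : CaseE A B) (hL : HasCM A B L) (z : ℂ) :
    z ∈ L.lattice ↔ wC A B * z ∈ L.lattice := by
  constructor
  · intro hz
    have h1 := hL ⟨0, 1⟩ z hz
    rwa [Pool.Agent.MUX.emb_w] at h1
  · intro hz
    have h1 := hL ⟨B, -1⟩ _ hz
    have h2 : emb (⟨B, -1⟩ : OO A B) = (B : ℂ) - wC A B := by
      simp [emb]
      ring
    rw [h2, ← mul_assoc, w_inv h, one_mul] at h1
    exact h1

lemma w_scal (h : CaseE A B) (hL : HasCM A B L) :
    (∀ z, L.weierstrassP (wC A B * z) = L.weierstrassP z / wC A B ^ 2) ∧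
    (∀ z, L.derivWeierstrassP (wC A B * z) = L.derivWeierstrassP z / wC A B ^ 3) ∧
    L.g₂ = L.g₂ / wC A B ^ 4 ∧ L.g₃ = L.g₃ / wC A B ^ 6 :=
  ta_SCP L L (wC A B) (w_ne h) (w_iff h hL)

/-- `g₃ = 0` for `D = -4`, `g₂ = 0` for `D = -3` -/
lemma g_zero (h : CaseE A B) (hL : HasCM A B L) :
    (B = 0 → L.g₃ = 0) ∧ (B = 1 → L.g₂ = 0) := by
  obtain ⟨-, -, g2, g3⟩ := w_scal h hL
  have hw := w_sq h
  have h0 := w_ne h
  constructor
  · rintro rfl
    have e : wC A 0 ^ 6 = -1 := by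
      push_cast at hw
      rw [zero_mul, add_zero] at hw
      calc wC A 0 ^ 6 = (wC A 0 ^ 2) ^ 3 := by ring
        _ = -1 := by rw [hw]; ring
    rw [e] at g3
    linear_combination (1 / 2) * g3
  · rintro rfl
    have hw' : wC A 1 ^ 2 = wC A 1 - 1 := by
      push_cast at hw
      linear_combination hw
    have e : wC A 1 ^ 4 = -wC A 1 := by
      linear_combination (wC A 1 ^ 2 + wC A 1) * hw'
    rw [e, eq_div_iff (neg_ne_zero.2 h0)] at g2
    have h1 : L.g₂ * (wC A 1 + 1) = 0 := by linear_combination -g2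
    rcases mul_eq_zero.1 h1 with h2 | h2
    · exact h2
    · exfalso
      have h3 : wC A 1 = -1 := by linear_combination h2
      rw [h3] at hw'
      norm_num at hw'

/-- existence -/
theorem nex (h : CaseE A B) (b : Ideal (OO A B)) (hb : b ≠ ⊥) :
    ∃ (L : PeriodPair) (om : ℂ), IsNE b L om := by
  have hC := h.toCQ
  obtain ⟨L₁, h1⟩ := Pool.Agent.MUX.exists_isLI hC hb (one_ne_zero (α := ℂ))
  have hcm := Pool.Agent.MUX.IsLI.hasCM hC h1
  obtain ⟨g0, g1⟩ := g_zero h hcm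
  have hd := (b_DSC L₁).1
  have scale : ∀ (om : ℂ) (L₂ : PeriodPair), IsLI b L₂ om → om ≠ 0 →
      ∀ u : ℂ, u ∈ L₁.lattice ↔ om * u ∈ L₂.lattice := by
    intro om L₂ h2 hom u
    rw [h1.mem, h2.mem]
    constructor
    · rintro ⟨x, hx, rfl⟩
      exact ⟨x, hx, by ring⟩
    · rintro ⟨x, hx, h⟩
      exact ⟨x, hx, by rw [one_mul]; exact mul_left_cancel₀ hom h⟩
  rcases h.hB with hB | hB
  · have hg3 := g0 hB
    have hg2 : L₁.g₂ ≠ 0 := by
      intro hz
      exact hd (by rw [hz, hg3]; ring)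
    obtain ⟨om, hom⟩ := IsAlgClosed.exists_pow_nat_eq (L₁.g₂ / 4) (n := 4) (by norm_num)
    have hom0 : om ≠ 0 := by
      rintro rfl
      rw [zero_pow (by norm_num)] at hom
      exact div_ne_zero hg2 (by norm_num) hom.symm
    obtain ⟨L, hL⟩ := Pool.Agent.MUX.exists_isLI hC hb hom0
    obtain ⟨-, -, g2, g3⟩ := ta_SCP L₁ L om hom0 (scale om L hL hom0)
    refine ⟨L, om, ⟨hL, ⟨?_, ?_⟩⟩⟩
    · rw [g2, hom]
      unfold g2E
      rw [if_pos hB]
      field_simp
    · rw [g3, hg3, zero_div]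
      unfold g3E
      rw [if_pos hB]
  · have hg2 := g1 hB
    have hg3 : L₁.g₃ ≠ 0 := by
      intro hz
      exact hd (by rw [hz, hg2]; ring)
    obtain ⟨om, hom⟩ := IsAlgClosed.exists_pow_nat_eq (-L₁.g₃ / 4) (n := 6) (by norm_num)
    have hom0 : om ≠ 0 := by
      rintro rfl
      rw [zero_pow (by norm_num)] at hom
      exact div_ne_zero (neg_ne_zero.2 hg3) (by norm_num) hom.symm
    have hB0 : B ≠ 0 := by omega
    obtain ⟨L, hL⟩ := Pool.Agent.MUX.exists_isLI hC hb hom0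
    obtain ⟨-, -, g2, g3⟩ := ta_SCP L₁ L om hom0 (scale om L hL hom0)
    refine ⟨L, om, ⟨hL, ⟨?_, ?_⟩⟩⟩
    · rw [g2, hg2, zero_div]
      unfold g2E
      rw [if_neg hB0]
    · rw [g3, hom]
      unfold g3E
      rw [if_neg hB0]
      field_simp

theorem tc_NEX : Sc_NEX := fun _ _ h b hb => nex h b hb

/-- the coordinates of the points of order two are in `k` -/
lemma tor2 (h : CaseE A B) (hL : NrmE A B L) {σ : ℂ ≃+* ℂ} (hσ : FixK A B σ) {z : ℂ}
    (h2 : 2 * z ∈ L.lattice) (hz : z ∉ L.lattice) : σ (xnE L z) = xnE L z := by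
  have h0 := (b_ZER L z hz).2 h2
  have h1 := L.derivWeierstrassP_sq z hz
  rw [h0, hL.g2, hL.g3] at h1
  have hw := w_sq h
  have hσw : σ (wC A B) = wC A B := hσ
  unfold xnE
  rcases h.hB with hB | hB
  · unfold g2E g3E at h1
    rw [if_pos hB, if_pos hB] at h1
    have h3 : L.weierstrassP z * (L.weierstrassP z - 1) * (L.weierstrassP z + 1) = 0 := by
      linear_combination -(1 / 4) * h1
    rcases mul_eq_zero.1 h3 with h4 | h4
    · rcases mul_eq_zero.1 h4 with h5 | h5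
      · rw [h5, map_zero]
      · rw [sub_eq_zero.1 h5, map_one]
    · rw [eq_neg_of_add_eq_zero_left h4, map_neg, map_one]
  · have hB0 : B ≠ 0 := by omega
    unfold g2E g3E at h1
    rw [if_neg hB0, if_neg hB0] at h1
    rw [hB] at hw hσw
    push_cast at hw
    have h3 : (L.weierstrassP z + 1) * (L.weierstrassP z - wC A 1) *
        (L.weierstrassP z - (1 - wC A 1)) = 0 := by
      linear_combination -(1 / 4) * h1 - (L.weierstrassP z + 1) * hw
    rcases mul_eq_zero.1 h3 with h4 | h4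
    · rcases mul_eq_zero.1 h4 with h5 | h5
      · rw [eq_neg_of_add_eq_zero_left h5, map_neg, map_one]
      · rw [sub_eq_zero.1 h5, hσw]
    · rw [sub_eq_zero.1 h4, map_sub, map_one, hσw]

lemma int_key {A B r s y z : ℤ} (hB : B = 0 ∨ B = 1) (hA : A = -1) (e1 : r = 1 + 2 * y)
    (e2 : s = 2 * z) (hn : 1 = r ^ 2 + B * r * s - A * s ^ 2) : s = 0 ∧ (r = 1 ∨ r = -1) := by
  subst hA
  have h3 : s = 0 := by
    by_contra hne
    have hz : z ≠ 0 := by
      rintro rfl
      exact hne (by rw [e2, mul_zero])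
    have h5 : 0 < z ^ 2 := by have := pow_pos (abs_pos.2 hz) 2; rwa [sq_abs] at this
    have h6 : s ^ 2 = 4 * z ^ 2 := by rw [e2]; ring
    rcases hB with rfl | rfl
    · nlinarith [sq_nonneg r]
    · nlinarith [sq_nonneg (2 * r + s)]
  refine ⟨h3, ?_⟩
  rw [h3] at hn
  have h4 : (r - 1) * (r + 1) = 0 := by linarith
  rcases mul_eq_zero.1 h4 with h5 | h5
  · left; linarith
  · right; linarith

/-- the units which are `1` modulo `2` -/
lemma unit_two (h : CaseE A B) {x : OO A B} (hx : IsUnit x) (h2 : x - 1 ∈ idl (A := A) (B := B) 2) :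
    x = 1 ∨ x = -1 := by
  have hC := h.toCQ
  have hn : nm x = 1 := by
    obtain ⟨y, hy⟩ := hx.exists_right_inv
    have e := nm_mul hC x y
    have e1 : nm (1 : OO A B) = 1 := by
      have := nm_intCast (A := A) (B := B) 1
      simpa using this
    rw [hy, e1] at e
    exact Int.eq_one_of_mul_eq_one_right (nm_nonneg hC x) e.symm
  obtain ⟨y, hy⟩ := Ideal.mem_span_singleton'.1 h2
  have hy' : x = 1 + (y + y) := by
    have : y * ((2 : ℕ) : OO A B) = y + y := by push_cast; ring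
    rw [← this, hy]
    ring
  have e1 : x.re = 1 + 2 * y.re := by
    rw [hy']
    change (1 : ℤ) + (y.re + y.re) = _
    ring
  have e2 : x.im = 2 * y.im := by
    rw [hy']
    change (0 : ℤ) + (y.im + y.im) = _
    ring
  have hnm : nm x = x.re ^ 2 + B * x.re * x.im - A * x.im ^ 2 := by
    simp [nm]
  rw [hn] at hnm
  obtain ⟨h3, h4 | h4⟩ := int_key h.hB h.hA e1 e2 hnm
  · left
    exact QuadraticAlgebra.ext h4 h3
  · right
    refine QuadraticAlgebra.ext h4 ?_
    rw [h3]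
    rfl

/-- `IsQ a L L mu` for a lattice with multiplication by `O`: `a = (c)`, `mu = c` -/
lemma isq_gen (hENO : Sc_ENO) (hINV : Sc_INV) (hQNE : Sc_QNE) (h : CQ A B)
    {a b : Ideal (OO A B)} {om mu : ℂ} (hL : IsLI b L om) (hq : IsQ a L L mu) :
    ∃ c : OO A B, mu = emb c ∧ a = sp c := by
  have hCM : HasCM A B L := hL.hasCM h
  obtain ⟨hane, hisg, -⟩ := hQNE A B h a L L mu hCM hq
  have hmu := hq.1
  obtain ⟨c, hc⟩ := hENO A B h b L om hL mu fun z hz => hisg z hz
  refine ⟨c, hc, ?_⟩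
  apply le_antisymm
  · intro y hy
    obtain ⟨t, ht⟩ := hENO A B h b L om hL (emb y / mu) (by
      intro l hl
      have h1 := (hq.2 (l / mu)).1 (by rwa [mul_div_cancel₀ _ hmu]) y hy
      have e : emb y / mu * l = emb y * (l / mu) := by ring
      rw [e]
      exact h1)
    have h2 : y = t * c := by
      apply emb_inj h
      rw [emb_mul h, ← ht, ← hc, div_mul_cancel₀ _ hmu]
    rw [h2]
    exact Ideal.mem_span_singleton'.2 ⟨t, rfl⟩
  · rw [Ideal.span_singleton_le_iff_mem]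
    refine hINV A B h b L om hL a hane c fun z hz => ?_
    rw [← hc]
    exact (hq.2 z).2 hz

end

end Pool.Agent.MEC
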