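import Pool.Agent.ME.StCE
import Pool.Agent.MUX.XCAll

/-!
# ME, block CE (port of `MUX/C_X.lean`): module ACT, the field `act` of `TorXE`
-/

set_option autoImplicit false

open Polynomial NumberField IsDedekindDomain

namespace Pool.Agent.MEC

open Pool.Agent.ME
open Pool.Agent.MUXC (Sc_CLF Sc_COP Sc_TRO Sc_GEN Sc_ENO Sc_INV Sc_QCR Sc_QEX Sc_QNE Sc_ISL Sc_FEX
  Sc_RP1 Sc_RP2 Sc_RP3 Sc_REP Sc_DNX Sc_NMC)
open _root_.MU3 Pool.Agent.MU3A Pool.Agent.MU3B Pool.Agent.MUX Pool.Agent.MUXU Pool.Agent.RI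

theorem tc_ACT (h1 : Sc_CJN) (h2 : Sc_EXA) (h3 : Sc_IND) : Sc_ACT := by
  intro A B hC m hm σ hσ
  by_cases hne : ∃ (b : Ideal (OO A B)) (L : PeriodPair) (om : ℂ), IsNE b L om
  · obtain ⟨b, L, om, hL⟩ := hne
    obtain ⟨-, b', L', om', hL', -, hk⟩ := (h1 A B hC).1 σ hσ b L om hL
    obtain ⟨a, mu, ha⟩ := h2 A B hC σ hσ m b b' L L' om om' hm hL hL' hk
    refine ⟨a, ha.cop, fun c M omm hM => ?_⟩
    obtain ⟨-, c', M', omm', hM', -, hk'⟩ := (h1 A B hC).1 σ hσ c M omm hM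
    obtain ⟨nu, hnu⟩ := h3 A B hC σ hσ m a b b' c c' L L' M M' om om' omm omm' mu hm hL hL'
      hM hM' ha hk'
    exact ⟨c', M', omm', nu, hM', hnu⟩
  · refine ⟨⊤, ?_, fun b L om hL => absurd ⟨b, L, om, hL⟩ hne⟩
    rw [← Ideal.one_eq_top]
    exact isCoprime_one_left

end Pool.Agent.MEC
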