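import Pool.Agent.ME.StCE
import Pool.Agent.MUX.XCAll
import Pool.Agent.MU3.A_SCP

/-!
# ME, block CE (port of `MUX/C_X.lean`), module CJN: conjugates of normalised lattices
-/

set_option autoImplicit false

open Polynomial NumberField IsDedekindDomain

namespace Pool.Agent.MEC

open _root_.MU3 Pool.Agent.MU3A Pool.Agent.MU3B Pool.Agent.MUX Pool.Agent.MUXU Pool.Agent.RI
open Pool.Agent.ME
open Pool.Agent.MUXE (NL Sxe_RNG)
open Pool.Agent.MUXC (Sc_CLF Sc_COP Sc_TRO Sc_GEN Sc_ENO Sc_INV Sc_QCR Sc_QEX Sc_QNE Sc_ISL Sc_FEX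
  Sc_RP1 Sc_RP2 Sc_RP3 Sc_REP Sc_DNX Sc_NMC)

noncomputable section

namespace CJN

lemma emb_fix {A B : ℤ} {σ : ℂ ≃+* ℂ} (hσ : FixK A B σ) (x : OO A B) : σ (emb x) = emb x := by
  have h : σ (wC A B) = wC A B := hσ
  unfold emb
  rw [map_add, map_mul, map_intCast, map_intCast, h]

lemma sig_g2 (A B : ℤ) (σ : ℂ ≃+* ℂ) : σ (g2E A B) = g2E A B := by
  unfold g2E
  split_ifs
  · exact map_ofNat σ 4
  · exact map_zero σ

lemma sig_g3 (A B : ℤ) (σ : ℂ ≃+* ℂ) : σ (g3E A B) = g3E A B := by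
  unfold g3E
  split_ifs
  · exact map_zero σ
  · rw [map_neg, map_ofNat]

lemma kap_eq {A B : ℤ} {L : PeriodPair} (h : NrmE A B L) : kapE L = g2E A B + g3E A B := by
  unfold kapE
  rw [h.g2, h.g3]

lemma sig_kap {A B : ℤ} (σ : ℂ ≃+* ℂ) {L : PeriodPair} (h : NrmE A B L) :
    σ (kapE L) = kapE L := by
  rw [kap_eq h, map_add, sig_g2, sig_g3]

lemma kap_same {A B : ℤ} {L L' : PeriodPair} (h : NrmE A B L) (h' : NrmE A B L') :
    kapE L = kapE L' := by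
  rw [kap_eq h, kap_eq h']

lemma isCj {A B : ℤ} {σ : ℂ ≃+* ℂ} {L L' : PeriodPair} (h : NrmE A B L) (h' : NrmE A B L') :
    IsCj σ L L' := by
  refine ⟨?_, ?_⟩
  · rw [h.g2, h'.g2, sig_g2]
  · rw [h.g3, h'.g3, sig_g3]

lemma nrm_map {A B : ℤ} {σ : ℂ ≃+* ℂ} {L L' : PeriodPair} (h : NrmE A B L) (hc : IsCj σ L L') :
    NrmE A B L' := by
  refine ⟨?_, ?_⟩
  · rw [hc.1, h.g2, sig_g2]
  · rw [hc.2, h.g3, sig_g3]

end CJN

open CJN in
theorem tc_CJN (h1 : Su_CJE) (h2 : Su_PHI) (h3 : Su_CMC) (h4 : Su_DET) (h5 : Sc_ISL) :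
    Sc_CJN := by
  intro A B hQ
  refine ⟨?_, ?_, ?_⟩
  · intro σ hσ b L om hL
    refine ⟨emb_fix hσ, ?_⟩
    obtain ⟨L', hc⟩ := h1 σ L
    obtain ⟨Φ, hΦ⟩ := h2 σ L L' hc
    have hcm : HasCM A B L := hL.toIsLI.hasCM hQ
    have hcm' : HasCM A B L' := by
      intro x
      exact (h3 σ L L' Φ (emb x) (fun w hw => hcm x w hw) (emb_fix hσ x) hc hΦ).1
    obtain ⟨b', om', hL'⟩ := h5 A B hQ L' hcm'
    refine ⟨b', L', om', ⟨hL', nrm_map hL.nrm hc⟩, hc, ?_⟩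
    rw [sig_kap σ hL.nrm]
    exact kap_same (nrm_map hL.nrm hc) hL.nrm
  · intro σ L L' h h' hk
    exact isCj h h'
  · intro L L' h h' hk
    have hc : IsCj (RingEquiv.refl ℂ) L L' := isCj h h'
    have e := h4 L L' hc.1.symm hc.2.symm
    have e1 : ∀ z, z ∈ L.lattice ↔ z ∈ L'.lattice := fun z => by rw [e]
    obtain ⟨p1, p2, -, -⟩ := ta_SCP L L' 1 one_ne_zero (fun u => by rw [one_mul]; exact e1 u)
    refine ⟨e1, fun z => ?_⟩
    have q1 := p1 z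
    have q2 := p2 z
    rw [one_mul, one_pow, div_one] at q1 q2
    unfold xnE yy
    rw [q1, q2]
    exact ⟨rfl, rfl⟩

end

end Pool.Agent.MEC
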