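import Pool.Agent.ME.CLib

/-!
# ME, block CE, modules BAD and FRX (helper58): good reduction, and the Frobenius congruence for a prime ideal of degree one
-/

set_option autoImplicit false

open Polynomial NumberField IsDedekindDomain WeierstrassCurve

namespace Pool.Agent.MEC

open _root_.MU3 Pool.Agent.MU3A Pool.Agent.MU3B Pool.Agent.MUX Pool.Agent.MUXU Pool.Agent.RI
open Pool.Agent.ME
open Pool.Agent.MUXV (GR InK tX Sx_XIC WS Sq_ISQ Sq_VQI Sx_R5)

noncomputable section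

variable {A B : ℤ} {L : PeriodPair}

lemma wpow (h : CaseE A B) (hL : HasCM A B L) (j : ℕ) :
    (∀ z, z ∈ L.lattice ↔ wC A B ^ j * z ∈ L.lattice) ∧
    ∀ z, L.weierstrassP (wC A B ^ j * z) * wC A B ^ (2 * j) = L.weierstrassP z := by
  induction j with
  | zero => simp
  | succ j ih =>
    obtain ⟨i1, i2⟩ := ih
    have h0 := w_ne h
    constructor
    · intro z
      rw [i1 z, w_iff h hL, pow_succ']
      ring_nf
    · intro z
      have e : wC A B ^ (j + 1) * z = wC A B * (wC A B ^ j * z) := by ring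
      rw [e, (w_scal h hL).1, ← i2 z]
      have e2 : wC A B ^ (2 * (j + 1)) = wC A B ^ (2 * j) * wC A B ^ 2 := by ring
      rw [e2]
      field_simp

theorem tc_BAD (hX : Sx_XIC) : Sc_BAD := by
  intro A B h V v2 v3 L hL
  obtain ⟨ξ, x1, -, x3⟩ := hX L 0
  have e1 : (fun z => L.weierstrassP z - 0) = xnE L := by
    funext z
    rw [sub_zero]
    rfl
  have v4 : V.valuation (4 : ℂ) = 1 := by
    have e : (4 : ℂ) = 2 ^ 2 := by norm_num
    rw [e, map_pow, v2, one_pow]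
  have hn : ∀ n : ℤ, V.valuation (n : ℂ) ≤ 1 := fun n => by
    rw [ValuationSubring.valuation_le_one_iff]
    exact intCast_mem V n
  have ha2 : (WS L 0).a₂ = 0 := by
    show 3 * (0 : ℂ) = 0
    ring
  have ha4 : (WS L 0).a₄ = -(L.g₂ / 4) := by
    show 3 * (0 : ℂ) ^ 2 - L.g₂ / 4 = _
    ring
  have ha6 : (WS L 0).a₆ = -(L.g₃ / 4) := by
    show (0 : ℂ) ^ 3 - L.g₂ / 4 * 0 - L.g₃ / 4 = _
    ring
  have hD : (WS L 0).Δ = -16 * (4 * (-(L.g₂ / 4)) ^ 3 + 27 * (-(L.g₃ / 4)) ^ 2) := by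
    unfold WeierstrassCurve.Δ WeierstrassCurve.b₂ WeierstrassCurve.b₄ WeierstrassCurve.b₆
      WeierstrassCurve.b₈
    have e1 : (WS L 0).a₁ = 0 := rfl
    have e3 : (WS L 0).a₃ = 0 := rfl
    rw [ha4, ha6, ha2, e1, e3]
    ring
  refine ⟨WS L 0, ξ, ?_⟩
  have hint : V.valuation (-(L.g₂ / 4)) ≤ 1 ∧ V.valuation (-(L.g₃ / 4)) ≤ 1 ∧
      V.valuation (WS L 0).Δ = 1 := by
    rw [hD, hL.g2, hL.g3]
    unfold g2E g3E
    rcases h.hB with hB | hB
    · rw [if_pos hB, if_pos hB]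
      refine ⟨?_, ?_, ?_⟩
      · have e : (-(4 / 4) : ℂ) = ((-1 : ℤ) : ℂ) := by push_cast; ring
        rw [e]
        exact hn _
      · have e : (-(0 / 4) : ℂ) = ((0 : ℤ) : ℂ) := by push_cast; ring
        rw [e]
        exact hn _
      · have e : (-16 * (4 * (-(4 / 4)) ^ 3 + 27 * (-(0 / 4)) ^ 2) : ℂ) = 2 ^ 6 := by norm_num
        rw [e, map_pow, v2, one_pow]
    · have hB0 : B ≠ 0 := by omega
      rw [if_neg hB0, if_neg hB0]
      refine ⟨?_, ?_, ?_⟩
      · have e : (-(0 / 4) : ℂ) = ((0 : ℤ) : ℂ) := by push_cast; ring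
        rw [e]
        exact hn _
      · have e : (-(-4 / 4) : ℂ) = ((1 : ℤ) : ℂ) := by push_cast; ring
        rw [e]
        exact hn _
      · have e : (-16 * (4 * (-(0 / 4)) ^ 3 + 27 * (-(-4 / 4)) ^ 2) : ℂ) = -(2 ^ 4 * 3 ^ 3) := by
          norm_num
        rw [e, Valuation.map_neg, map_mul, map_pow, map_pow, v2, v3, one_pow, one_pow, one_mul]
  obtain ⟨i1, i2, i3⟩ := hint
  refine ⟨⟨rfl, rfl, ?_, ?_, ?_⟩, v2, i3, fun z hz => ?_, fun z hz => (x1 z).2 hz⟩
  · rw [ha2, map_zero]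
    exact zero_le
  · rw [ha4]
    exact i1
  · rw [ha6]
    exact i2
  · obtain ⟨hh, e⟩ := x3 z hz
    refine ⟨?_, ?_⟩
    · have := hh
      rw [sub_zero] at this
      exact this
    · rw [e]
      congr 1
      exact sub_zero _

/-- `κ ≡ w^(-2j)` for some `j` -/
lemma kap_root (h : CaseE A B) {V : ValuationSubring ℂ} {κ : ℂ} {q : ℕ} (hq : Odd q)
    (h2 : V.valuation ((g2E A B / 4) ^ q - κ ^ 2 * (g2E A B / 4)) < 1)
    (h3 : V.valuation ((g3E A B / 4) ^ q - κ ^ 3 * (g3E A B / 4)) < 1) :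
    ∃ j : ℕ, V.valuation (κ * wC A B ^ (2 * j) - 1) < 1 := by
  have hws := w_sq h
  unfold g2E at h2
  unfold g3E at h3
  rcases h.hB with hB | hB
  · rw [if_pos hB] at h2
    rw [hB] at hws ⊢
    push_cast at hws
    have e : ((4 : ℂ) / 4) ^ q - κ ^ 2 * (4 / 4) = -((κ * wC A 0 ^ (2 * 0) - 1) *
        -(κ * wC A 0 ^ (2 * 1) - 1)) := by
      have e1 : ((4 : ℂ) / 4) = 1 := by norm_num
      rw [e1, one_pow, mul_zero, pow_zero, mul_one (2 : ℕ)]
      linear_combination (κ * (κ - 1)) * -hws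
    rw [e, Valuation.map_neg, map_mul, Valuation.map_neg] at h2
    by_contra hcon
    push Not at hcon
    have := mul_le_mul' (hcon 0) (hcon 1)
    rw [one_mul] at this
    exact absurd h2 (not_lt.2 this)
  · have hB0 : B ≠ 0 := by omega
    rw [if_neg hB0] at h3
    rw [hB] at hws ⊢
    push_cast at hws
    have hw3 : wC A 1 ^ 3 = -1 := by linear_combination (wC A 1 + 1) * hws
    have e : ((-4 : ℂ) / 4) ^ q - κ ^ 3 * (-4 / 4) = (κ * wC A 1 ^ (2 * 0) - 1) *
        ((κ * wC A 1 ^ (2 * 1) - 1) * (κ * wC A 1 ^ (2 * 2) - 1)) := by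
      have e1 : ((-4 : ℂ) / 4) = -1 := by norm_num
      rw [e1, hq.neg_one_pow]
      linear_combination -(κ - 1) * (κ ^ 2 * (wC A 1 ^ 3 - 1) * (wC A 1 + 1) -
        κ * (wC A 1 ^ 2 + wC A 1 + 1)) * hws
    rw [e, map_mul, map_mul] at h3
    by_contra hcon
    push Not at hcon
    have := mul_le_mul' (hcon 0) (mul_le_mul' (hcon 1) (hcon 2))
    rw [one_mul, one_mul] at this
    exact absurd h3 (not_lt.2 this)

theorem tc_FRX (hISQ : Sq_ISQ) (hVQI : Sq_VQI) (hR5 : Sx_R5) (hBAD : Sc_BAD) : Sc_FRX := by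
  intro A B h Q q hq hq2 hq3 hQ b b' L M om om' mu hL hM hisQ V hV
  have hC := h.toCQ
  have hovr : ∀ x ∈ Q, V.valuation (emb x) < 1 := fun x hx =>
    (ValuationSubring.mem_nonunits_iff V).1 ((hV x).2 hx)
  obtain ⟨hemb, hvi⟩ := hVQI A B hC.toF V
  obtain ⟨hvq, hvs, hvx⟩ := hvi Q q hq hQ hovr
  have hvn : ∀ n : ℕ, ¬ q ∣ n → V.valuation (n : ℂ) = 1 := fun n hn => by
    have := hvs (n : ℤ) (fun h => hn (by exact_mod_cast h))
    rwa [Int.cast_natCast] at this
  have v2 : V.valuation (2 : ℂ) = 1 := by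
    have := hvn 2 (fun h => hq2 ((Nat.prime_dvd_prime_iff_eq hq Nat.prime_two).1 h))
    exact_mod_cast this
  have v3 : V.valuation (3 : ℂ) = 1 := by
    have := hvn 3 (fun h => hq3 ((Nat.prime_dvd_prime_iff_eq hq Nat.prime_three).1 h))
    exact_mod_cast this
  have hqD : ¬ (q : ℤ) ∣ B ^ 2 + 4 * A := by
    intro hd
    have hA := h.hA
    rcases h.hB with hB | hB
    · have e : B ^ 2 + 4 * A = -(4 : ℕ) := by rw [hA, hB]; norm_num
      rw [e, dvd_neg, Int.natCast_dvd_natCast] at hd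
      have : q ∣ 2 ^ 2 := by simpa using hd
      exact hq2 ((Nat.prime_dvd_prime_iff_eq hq Nat.prime_two).1 (hq.dvd_of_dvd_pow this))
    · have e : B ^ 2 + 4 * A = -(3 : ℕ) := by rw [hA, hB]; norm_num
      rw [e, dvd_neg, Int.natCast_dvd_natCast] at hd
      exact hq3 ((Nat.prime_dvd_prime_iff_eq hq Nat.prime_three).1 hd)
  have hcmL : HasCM A B L := hL.toIsLI.hasCM hC
  have hcmM : HasCM A B M := hM.toIsLI.hasCM hC
  have e0 : ∀ N : PeriodPair, (fun z => N.weierstrassP z - 0) = xnE N := by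
    intro N
    funext z
    rw [sub_zero]
    rfl
  have hGR : ∀ N : PeriodPair, NrmE A B N → ∃ (W : WeierstrassCurve.Affine ℂ) (ξ : ℂ →+ W.Point),
      GR V W N (fun z => N.weierstrassP z - 0) (fun z => N.derivWeierstrassP z / 2) ξ := by
    intro N hN
    rw [e0 N]
    exact hBAD A B h V v2 v3 N hN
  obtain ⟨⟨H, hI⟩, hmu, -⟩ := hISQ A B hC.toF Q q hq hq2 hqD hQ L M 0 0 mu hcmL hisQ V
    (hGR L hL.nrm) (hGR M hM.nrm)
  obtain ⟨κ, -, k2, k3, k4⟩ := hR5 V L M 0 0 mu q H hI v3 (zero_mem V) (zero_mem V) hvq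
    (hmu hovr)
  rw [hL.nrm.g2, hM.nrm.g2] at k2
  rw [hL.nrm.g3, hM.nrm.g3] at k3
  have hw : V.valuation (wC A B) = 1 := by
    have h1 : V.valuation (wC A B) ≤ 1 := by
      have := hemb (⟨0, 1⟩ : OO A B)
      rwa [Pool.Agent.MUX.emb_w] at this
    have h2 : V.valuation ((B : ℂ) - wC A B) ≤ 1 := by
      have := hemb (⟨B, -1⟩ : OO A B)
      have e : emb (⟨B, -1⟩ : OO A B) = (B : ℂ) - wC A B := by
        simp [emb]
        ring
      rwa [e] at this
    have h3 := congrArg V.valuation (w_inv h)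
    rw [map_mul, map_one] at h3
    refine le_antisymm h1 ?_
    rw [← h3]
    exact mul_le_of_le_one_left' h2
  obtain ⟨j, hj⟩ := kap_root h (hq.odd_of_ne_two hq2) k2 k3
  obtain ⟨w1, w2⟩ := wpow h hcmM j
  have hw0 := w_ne h
  have hwj : wC A B ^ j ≠ 0 := pow_ne_zero _ hw0
  have hvj : V.valuation (wC A B ^ (2 * j)) = 1 := by rw [map_pow, hw, one_pow]
  refine ⟨wC A B ^ j * mu, ⟨mul_ne_zero hwj hisQ.1, fun z => ?_⟩, fun z hz => ?_⟩
  · rw [← hisQ.2 z, mul_assoc, ← w1]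
  · have hz' : ¬ InK V L (fun z => L.weierstrassP z - 0) z := by rwa [e0 L]
    obtain ⟨k5, k6⟩ := k4 z hz'
    rw [e0 M] at k5
    obtain ⟨i1, i2⟩ := Pool.Agent.MUXV.int_X k5
    have i3 := (Pool.Agent.MUXV.int_X hz).2
    have e1 := w2 (mu * z)
    rw [← mul_assoc] at e1
    have e2 : xnE M (wC A B ^ j * mu * z) * wC A B ^ (2 * j) = xnE M (mu * z) := e1
    have i4 : V.valuation (xnE M (wC A B ^ j * mu * z)) ≤ 1 := by
      have := congrArg V.valuation e2
      rw [map_mul, hvj, mul_one] at this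
      rw [this]
      exact i2
    refine ⟨?_, ?_⟩
    · rintro (h5 | h5)
      · apply i1
        rw [w1, ← mul_assoc]
        exact h5
      · exact h5 ((ValuationSubring.valuation_le_one_iff _ _).1 i4)
    · have e3 : xnE M (wC A B ^ j * mu * z) - xnE L z ^ q =
          (κ * M.weierstrassP (mu * z) - L.weierstrassP z ^ q) -
            (κ * wC A B ^ (2 * j) - 1) * xnE M (wC A B ^ j * mu * z) := by
        have e4 : M.weierstrassP (mu * z) =
            xnE M (wC A B ^ j * mu * z) * wC A B ^ (2 * j) := e2.symm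
        rw [e4]
        unfold xnE
        ring
      rw [e3]
      refine Valuation.map_sub_lt _ k6 ?_
      rw [map_mul]
      exact lt_of_le_of_lt (mul_le_of_le_one_right' i4) hj

end

end Pool.Agent.MEC
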