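import Pool.Agent.ME.C_CJN

/-!
# ME, block CE, module SGQ: all normalised lattices have the same points and coordinates (helper58)
-/

set_option autoImplicit false

namespace Pool.Agent.MEC

open _root_.MU3 Pool.Agent.MU3A Pool.Agent.MU3B Pool.Agent.MUX Pool.Agent.MUXU Pool.Agent.RI
open Pool.Agent.ME

theorem tc_SGQ (h : Su_DET) : Sc_SGQ := by
  intro A B L L' hL hL'
  have e := h L L' (by rw [hL.g2, hL'.g2]) (by rw [hL.g3, hL'.g3])
  have e1 : ∀ z, z ∈ L.lattice ↔ z ∈ L'.lattice := fun z => by rw [e]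
  obtain ⟨p1, p2, -, -⟩ := ta_SCP L L' 1 one_ne_zero (fun u => by rw [one_mul]; exact e1 u)
  refine ⟨e1, CJN.kap_same hL hL', fun z => ?_⟩
  have q1 := p1 z
  have q2 := p2 z
  rw [one_mul, one_pow, div_one] at q1 q2
  unfold xnE yy
  rw [q1, q2]
  exact ⟨rfl, rfl⟩

end Pool.Agent.MEC
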