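import Pool.Agent.ME.CLib
import Pool.Agent.MUX.XCAll
import Pool.Agent.MU3.BAll

/-!
# ME, block CE (port of `MUX/C_X.lean`), module TRV: the field `triv` of `TorXE` (helper76)
-/

set_option autoImplicit false

open Polynomial NumberField IsDedekindDomain

namespace Pool.Agent.MEC

open _root_.MU3 Pool.Agent.MU3A Pool.Agent.MU3B Pool.Agent.MUX Pool.Agent.MUXU Pool.Agent.RI
open Pool.Agent.ME
open Pool.Agent.MUXE (NL Sxe_RNG)
open Pool.Agent.MUXC (Sc_CLF Sc_COP Sc_TRO Sc_GEN Sc_ENO Sc_INV Sc_QCR Sc_QEX Sc_QNE Sc_ISL Sc_FEX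
  Sc_RP1 Sc_RP2 Sc_RP3 Sc_REP Sc_DNX Sc_NMC)

noncomputable section

namespace TRV

/-- automorphisms of `ℂ` with `FixK` are trivial on `k` -/
lemma fix {A B : ℤ} {σ : ℂ ≃+* ℂ} (hσ : FixK A B σ) : ∀ y ∈ kk A B, σ y = y := by
  intro y hy
  induction hy using IntermediateField.adjoin_induction with
  | mem x hx => rw [Set.mem_singleton_iff] at hx; rw [hx]; exact hσ
  | algebraMap x => simp
  | add x y _ _ hx hy => rw [map_add, hx, hy]
  | inv x _ hx => rw [map_inv₀, hx]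
  | mul x y _ _ hx hy => rw [map_mul, hx, hy]

end TRV

theorem tc_TRV (hCJN : Sc_CJN) (hSGQ : Sc_SGQ) (hQNE : Sc_QNE) (hENO : Sc_ENO) (hINV : Sc_INV)
    (hGEN : Sc_GEN) (hIND : Sc_IND) : Sc_TRV := by
  intro A B hE m a σ b L L' om mu hm hσ hL hact hnrm
  have h : CQ A B := hE.toCQ
  have hCM : HasCM A B L := hL.toIsLI.hasCM h
  obtain ⟨hane, -, -⟩ := hQNE A B h a L L' mu hCM hact.isq
  obtain ⟨cj1, -, -⟩ := hCJN A B h
  -- the action on any normalised lattice
  have step : ∀ (a : Ideal (OO A B)) (c₀ : Ideal (OO A B)) (M : PeriodPair) (omm : ℂ),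
      IsNE c₀ M omm → ∀ (M' : PeriodPair) (nu : ℂ), NrmE A B M' → ActE σ m a M M' nu →
      (∃ c : OO A B, nu = emb c ∧ a = sp c ∧ (m ≤ idl 2 → c - 1 ∈ idl (A := A) (B := B) 2)) ∧
      ∀ z, Tor m M z → z ∉ M.lattice → nu * z ∉ M.lattice ∧ σ (xnE M z) = xnE M (nu * z) := by
    intro a c₀ M omm hM M' nu hM' hnu
    obtain ⟨hlat, -, hco⟩ := hSGQ A B M M' hM.nrm hM'
    have hCMM : HasCM A B M := hM.toIsLI.hasCM h
    have hq : IsQ a M M nu := ⟨hnu.isq.1, fun z => (hlat _).trans (hnu.isq.2 z)⟩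
    obtain ⟨c, hc, hac⟩ := isq_gen hENO hINV hQNE h hM.toIsLI hq
    have hz : ∀ z, Tor m M z → z ∉ M.lattice → nu * z ∉ M.lattice ∧
        σ (xnE M z) = xnE M (nu * z) := by
      intro z hz hzM
      rcases hnu.act z hz with ⟨h1, -⟩ | ⟨-, h2, h3, -⟩
      · exact absurd h1 hzM
      · exact ⟨fun h4 => h2 ((hlat _).1 h4), by rw [h3, (hco _).1]⟩
    refine ⟨⟨c, hc, hac, fun hm2 => ?_⟩, hz⟩
    have hne : (idl (A := A) (B := B) 2) ≠ ⊥ := by
      intro h0
      exact hm (le_bot_iff.1 (h0 ▸ hm2))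
    refine hINV A B h c₀ M omm hM.toIsLI _ hne _ fun z hz2 => ?_
    by_cases hzM : z ∈ M.lattice
    · exact hCMM _ z hzM
    have h2z : 2 * z ∈ M.lattice := by
      have h5 := hz2 ((2 : ℕ) : OO A B) (Ideal.mem_span_singleton_self _)
      rw [Pool.Agent.MUX.emb_natCast h] at h5
      exact_mod_cast h5
    obtain ⟨h6, h7⟩ := hz z (Tor.mono hm2 hz2) hzM
    rw [tor2 hE hM.nrm hσ h2z hzM] at h7
    have h8 : M.weierstrassP (nu * z) = M.weierstrassP z := h7.symm
    rw [Pool.Agent.MUX.emb_sub h, Pool.Agent.MUX.emb_one h, ← hc, sub_mul, one_mul]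
    rcases b_NEQ M z (nu * z) hzM h6 h8 with h9 | h9
    · exact h9
    · have e : nu * z - z = (nu * z + z) - 2 * z := by ring
      rw [e]
      exact sub_mem h9 h2z
  refine ⟨(step a b L om hL L' mu hnrm hact).1, ?_, ?_⟩
  · intro hfix
    obtain ⟨⟨c, hc, hasp, -⟩, hz⟩ := step a b L om hL L' mu hnrm hact
    obtain ⟨u, hu, huL, -⟩ := hGEN A B h b m L om hL.toIsLI hm
    by_cases hu0 : u ∈ L.lattice
    · have h1 : (1 : OO A B) ∈ m := (huL 1).1 (by rwa [Pool.Agent.MUX.emb_one h, one_mul])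
      exact ⟨c, by rw [(Ideal.eq_top_iff_one m).2 h1]; trivial, hasp⟩
    · obtain ⟨h7, h3⟩ := hz u hu hu0
      have h4 : σ (xnE L u) = xnE L u :=
        hfix _ (IntermediateField.subset_adjoin _ _ ⟨b, L, om, hL, Or.inr ⟨u, hu, hu0, rfl⟩⟩)
      have h6 : L.weierstrassP (mu * u) = L.weierstrassP u := (h4.symm.trans h3).symm
      rcases b_NEQ L u (mu * u) hu0 h7 h6 with h8 | h8
      · refine ⟨c, (huL _).1 ?_, hasp⟩
        rw [Pool.Agent.MUX.emb_sub h, Pool.Agent.MUX.emb_one h, ← hc, sub_mul, one_mul]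
        exact h8
      · refine ⟨-c, ?_, ?_⟩
        · have h9 : c + 1 ∈ m := by
            refine (huL _).1 ?_
            rw [Pool.Agent.MUX.emb_add h, Pool.Agent.MUX.emb_one h, ← hc, add_mul, one_mul]
            exact h8
          have e : -c - 1 = -(c + 1) := by ring
          rw [e]
          exact neg_mem h9
        · rw [hasp]
          exact (Ideal.span_singleton_neg c).symm
  · rintro hm2 ⟨c, hcm, rfl⟩
    have hdom : IsDomain (OO A B) := isDomain h
    have hc0 : c ≠ 0 := by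
      rintro rfl
      exact hane (Ideal.span_singleton_eq_bot.2 rfl)
    obtain ⟨-, b₁, L₁, om₁, hL₁, -, hkap₁⟩ := cj1 σ hσ b L om hL
    have hL' : IsNE b₁ L' om₁ := by
      obtain ⟨hlat, -⟩ := hSGQ A B L' L₁ hnrm hL₁.nrm
      exact ⟨⟨hL₁.b_ne, hL₁.om_ne, fun z => (hlat z).trans (hL₁.mem z)⟩, hnrm⟩
    have key : ∀ (c₀ : Ideal (OO A B)) (M : PeriodPair) (omm : ℂ), IsNE c₀ M omm →
        σ (kapE M) = kapE M ∧ ∀ z, Tor m M z → z ∉ M.lattice → σ (xnE M z) = xnE M z := by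
      intro c₀ M omm hM
      refine ⟨CJN.sig_kap σ hM.nrm, fun z hz hzM => ?_⟩
      have hCMM : HasCM A B M := hM.toIsLI.hasCM h
      obtain ⟨-, c₁, M', omm', hM', -, hkapM⟩ := cj1 σ hσ c₀ M omm hM
      obtain ⟨nu, hnu⟩ := hIND A B h σ hσ m (sp c) b b₁ c₀ c₁ L L' M M' om om₁ omm omm' mu hm hL
        hL' hM hM' hact hkapM
      obtain ⟨⟨c', hc', hcc, h2c⟩, h3⟩ := step (sp c) c₀ M omm hM M' nu hM'.nrm hnu
      rcases hm2 with hm2 | hm2
      · have h4 := h2c hm2
        obtain ⟨x, hx⟩ := Ideal.span_singleton_eq_span_singleton.1 hcc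
        have h5 : ((x : OO A B)) - 1 ∈ idl (A := A) (B := B) 2 := by
          have h6 : (x : OO A B) * (c - 1) ∈ idl (A := A) (B := B) 2 :=
            Ideal.mul_mem_left _ _ (hm2 hcm)
          have h7 : (x : OO A B) - 1 = (c' - 1) - (x : OO A B) * (c - 1) := by
            rw [← hx]
            ring
          rw [h7]
          exact sub_mem h4 h6
        obtain ⟨-, h9⟩ := h3 z hz hzM
        have hcz : emb (c - 1) * z ∈ M.lattice := hz _ hcm
        have h10 : emb c * z = z + emb (c - 1) * z := by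
          rw [Pool.Agent.MUX.emb_sub h, Pool.Agent.MUX.emb_one h]
          ring
        have h11 : M.weierstrassP (z + emb (c - 1) * z) = M.weierstrassP z :=
          M.weierstrassP_add_coe z ⟨_, hcz⟩
        rw [h9, hc', ← hx]
        rcases unit_two hE x.isUnit h5 with h8 | h8
        · rw [h8, mul_one, h10, xnE, xnE, h11]
        · have e : c * (-1 : OO A B) = -c := by ring
          rw [h8, e, Pool.Agent.MUX.emb_neg h, neg_mul, h10, xnE, xnE, M.weierstrassP_neg, h11]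
      · exfalso
        rw [hm2] at hz
        exact hzM ((tor_top h hCMM).1 hz)
    intro y hy
    induction hy using IntermediateField.adjoin_induction with
    | mem x hx =>
      obtain ⟨c₀, M, omm, hM, rfl | ⟨z, hz, hzM, rfl⟩⟩ := hx
      · exact (key c₀ M omm hM).1
      · exact (key c₀ M omm hM).2 z hz hzM
    | algebraMap x => exact TRV.fix hσ _ x.2
    | add x y _ _ hx hy => rw [map_add, hx, hy]
    | inv x _ hx => rw [map_inv₀, hx]
    | mul x y _ _ hx hy => rw [map_mul, hx, hy]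

end

end Pool.Agent.MEC
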