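import Pool.Agent.NS.DefsR

/-!
# ME: the exceptional fields `ℚ(i)` and `ℚ(√-3)` for `p = 3`: common definitions (helper21, frame: helper58)

`(A, B) = (-1, 0)`: `w = i`, `D = -4`, `3` inert; `(A, B) = (-1, 1)`: `w = exp(2 π i/6)`, `D = -3`, `3 = P²` (`CaseE`). This file is the twin of
`MUX/DefsX.lean`, `MUX/DefsX2.lean`, `NS/DefsN.lean`, `NS/DefsR.lean`: the same definitions with another normalisation of the lattices, the names have the
suffix `E`. A lattice `L` with complex multiplication by `O` is normalised (`IsNE b L om`) if `(g₂, g₃) = (4, 0)` (`D = -4`, `y² = x³ - x`) resp. `(0, -4)` (`D = -3`,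
`y² = x³ + 1`), `x = ℘`, `y = ℘'/2`. There is exactly one normalised lattice `L = Om O`. `kapE L = g₂ + g₃` is a constant.

All points of order 2 are rational over `k`. So an automorphism `σ` of `ℂ / k` acts on `E[m]` as multiplication by some `μ ≡ 1` modulo `2` (for `2 ∣ m`), and a unit `≡ 1` modulo `2` is
`± 1`: for even `m` the field `RFE m = k(x(E[m]))` is the ray class field modulo `m`, its group is `{μ mod m, μ ≡ 1 mod 2}/± 1 = (O/m)^*/O^*`. All levels are even. `TorXE` is `TorX` with `triv` only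
for `m ≤ (2)` and `m = ⊤`. The pairs `(i, x)` of `XXE` have `x ≡ 1` modulo `2`, and every such `x` prime to `m` occurs once. For a function `e` with `e (ζ x) = ζ e x` for all units `ζ`
the sum of `e x * ee (x Om/m)` over the `x ≡ 1` modulo `2` is `1/r` times the sum over all `x` modulo `m`, `r = rE A B = |O^*|/2`.
-/

set_option autoImplicit false

namespace Pool.Agent.ME

open _root_.MU3 Pool.Agent.MU3A Pool.Agent.MU3B Pool.Agent.RI Pool.Agent.MUX Pool.Agent.NS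
  Pool.Agent.NSRD Polynomial OnePoint

noncomputable section

/-- the exceptional fields -/
structure CaseE (A B : ℤ) : Prop extends CQ A B where
  hA : A = -1

/-- half the number of units -/
def rE (_ B : ℤ) : ℕ := if B = 0 then 2 else 3

/-- the invariants of the normalised lattices -/
def g2E (_ B : ℤ) : ℂ := if B = 0 then 4 else 0

/-- the invariants of the normalised lattices -/
def g3E (_ B : ℤ) : ℂ := if B = 0 then 0 else -4

/-- the lattice `L` has the normalised invariants -/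
structure NrmE (A B : ℤ) (L : PeriodPair) : Prop where
  g2 : L.g₂ = g2E A B
  g3 : L.g₃ = g3E A B

/-- normalised lattices with complex multiplication by `O` -/
structure IsNE {A B : ℤ} (b : Ideal (OO A B)) (L : PeriodPair) (om : ℂ) : Prop
    extends IsLI b L om where
  nrm : NrmE A B L

/-- a constant, for normalised lattices -/
def kapE (L : PeriodPair) : ℂ := L.g₂ + L.g₃

/-- `x = ℘` -/
def xnE (L : PeriodPair) (z : ℂ) : ℂ := L.weierstrassP z

/-- the local parameter `-x/y` -/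
def tnE (L : PeriodPair) (z : ℂ) : ℂ := -(xnE L z / yy L z)

/-- `z` is zero or in the kernel of reduction at `V` (if the normalised equation has good reduction at `V`) -/
def InEnE (V : ValuationSubring ℂ) (L : PeriodPair) (z : ℂ) : Prop :=
  z ∈ L.lattice ∨ xnE L z ∉ V

/-- `σ` maps the point `z` of `ℂ / L` to the point `z'` of `ℂ / L'` (for `kapE L' = σ (kapE L)`) -/
def PME (σ : ℂ ≃+* ℂ) (L L' : PeriodPair) (z z' : ℂ) : Prop :=
  (z ∈ L.lattice ∧ z' ∈ L'.lattice) ∨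
    (z ∉ L.lattice ∧ z' ∉ L'.lattice ∧ σ (xnE L z) = xnE L' z' ∧ σ (yy L z) = yy L' z')

/-- `σ` acts on the points of level `m` of `ℂ / L` as the ideal `a`, with multiplier `μ`:
`L' = L^σ = μ a⁻¹ L` and `σ` maps `z` to `μ z` for `z ∈ E[m]` -/
structure ActE {A B : ℤ} (σ : ℂ ≃+* ℂ) (m a : Ideal (OO A B)) (L L' : PeriodPair) (mu : ℂ) :
    Prop where
  kapE : kapE L' = σ (kapE L)
  cop : IsCoprime a m
  isq : IsQ a L L' mu
  act : ∀ z, Tor m L z → PME σ L L' z (mu * z)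

/-- the field `k(x(E[m]))`; for `m` divisible by `2` it is the ray class field modulo `m` -/
def RFE {A B : ℤ} (m : Ideal (OO A B)) : IntermediateField (kk A B) ℂ :=
  IntermediateField.adjoin (kk A B) {c | ∃ (b : Ideal (OO A B)) (L : PeriodPair) (om : ℂ),
    IsNE b L om ∧ (c = kapE L ∨ ∃ z, Tor m L z ∧ z ∉ L.lattice ∧ c = xnE L z)}

/-- representatives `b i` of the ideal classes (`ι` has one element), of norm prime to `n`, with
normalised lattices `L i = om i * emb (b i)`; `b i0 = O` -/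
structure RepsE (A B : ℤ) (n : ℕ) (ι : Type) where
  b : ι → Ideal (OO A B)
  L : ι → PeriodPair
  om : ι → ℂ
  i0 : ι
  nl : ∀ i, IsNE (b i) (L i) (om i)
  cop : ∀ i, (nI (b i)).Coprime n
  b0 : b i0 = ⊤
  surj : ∀ c : Ideal (OO A B), c ≠ ⊥ → ∃ (i : ι) (x y : OO A B), x ≠ 0 ∧ y ≠ 0 ∧
    sp x * c = sp y * b i
  inj : ∀ (i j : ι) (x y : OO A B), x ≠ 0 → y ≠ 0 → sp x * b i = sp y * b j → i = j

/-- the point `(i, x)` of level `m`: `om_i N(b_i) x / m` on `ℂ / L_i` -/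
def ptE {A B : ℤ} {n : ℕ} {ι : Type} (R : RepsE A B n ι) (m : ℕ) (i : ι) (x : OO A B) : ℂ :=
  R.om i * nI (R.b i) * emb x / m

/-- `σ` maps the base point `(i0, 1)` of level `m` to the point `± (i, x)` -/
def HitsE {A B : ℤ} {n : ℕ} {ι : Type} (R : RepsE A B n ι) (m : ℕ) (σ : ℂ ≃+* ℂ) (i : ι)
    (x : OO A B) : Prop :=
  kapE (R.L i) = σ (kapE (R.L R.i0)) ∧
    σ (xnE (R.L R.i0) (ptE R m R.i0 1)) = xnE (R.L i) (ptE R m i x) ∧ ptE R m i x ∉ (R.L i).lattice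

section
variable {A B : ℤ} {n : ℕ} {ι : Type}

/-- the pairs `(i, x)` of level `m`, `x` prime to `m`, which are hit by an extension of `τ` -/
def XXE (R : RepsE A B n ι) (m : ℕ) {D : IntermediateField ℚ ℂ} (h : kk A B ≤ D)
    (τ : letI := algC h; D ≃ₐ[kk A B] D) : Set (ι × (OO A B ⧸ idl (A := A) (B := B) m)) :=
  {q | IsCoprime (Quotient.out q.2 : OO A B) ((m : ℕ) : OO A B) ∧
    ∃ σ : ℂ ≃+* ℂ, FixK A B σ ∧ ExtC h τ σ ∧ HitsE R m σ q.1 (Quotient.out q.2)}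

/-- `∏ Θ_a(ptE R m i x; L_i)`, `(i, x) ∈ XXE R m h τ`; `H i` a half system for `a` on `L_i` -/
def cXE (R : RepsE A B n ι) (m : ℕ) (H : ι → Finset ℂ) {D : IntermediateField ℚ ℂ}
    (h : kk A B ≤ D) (τ : letI := algC h; D ≃ₐ[kk A B] D) : ℂ :=
  ∏ᶠ q ∈ XXE R m h τ, ThetaH (R.L q.1) (H q.1) (ptE R m q.1 (Quotient.out q.2))

/-- the multiplier `mu_i` of `L_(i0) → L_i = mu_i (cjI b_i)⁻¹ L_(i0)` -/
def muXE (R : RepsE A B n ι) (i : ι) : ℂ := R.om i * nI (R.b i) / R.om R.i0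

/-- `T(τ)` with the weights `w` -/
def TTNE (R : RepsE A B n ι) (w : OO A B → ℂ) (m a : ℕ) {D : IntermediateField ℚ ℂ}
    (h : kk A B ≤ D) (τ : letI := algC h; D ≃ₐ[kk A B] D) : ℂ :=
  ∑ᶠ q ∈ XXE R m h τ, w (Quotient.out q.2) * muXE R q.1 *
    dlX (R.L q.1) a (ptE R m q.1 (Quotient.out q.2))

/-- `T(τ)` with the weights `emb x` -/
def TTEE (R : RepsE A B n ι) (m a : ℕ) {D : IntermediateField ℚ ℂ}
    (h : kk A B ≤ D) (τ : letI := algC h; D ≃ₐ[kk A B] D) : ℂ :=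
  ∑ᶠ q ∈ XXE R m h τ, emb (Quotient.out q.2 : OO A B) * muXE R q.1 *
    dlX (R.L q.1) a (ptE R m q.1 (Quotient.out q.2))

/-- `mu_i Σ e(x) ee(ptE R m i x; L_i)`, over the `x` modulo `m` with `N x N b_i ≡ c` modulo `M` -/
def SnXE (R : RepsE A B n ι) (m M : ℕ) (e : OO A B → ℂ) (i : ι) (c : ℤ) : ℂ :=
  muXE R i * sumMod ((m : ℕ) : OO A B) fun x =>
    if (M : ℤ) ∣ nm x * nI (R.b i) - c then e x * ee (R.L i) (ptE R m i x) else 0

/-- `Σ_i kk_i (a SnXE i (a² c) - a² SnXE i c)` -/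
def STXE [Fintype ι] (R : RepsE A B n ι) (m M a : ℕ) (e : OO A B → ℂ) (kk : ι → ℂ) (c : ℤ) : ℂ :=
  ∑ i, kk i * ((a : ℂ) * SnXE R m M e i ((a : ℤ) ^ 2 * c) - (a : ℂ) ^ 2 * SnXE R m M e i c)

end

/-- the combination `Σ_i kk_i Phi_i` of symbols -/
def PhiKE {A B : ℤ} {n : ℕ} {ι : Type} [Fintype ι] (R : RepsE A B n ι) (e : OO A B → ℂ)
    (kk : ι → ℂ) (x y : OnePoint ℚ) : ℂ :=
  ∑ i, kk i * PhiI (R.b i) e x y

/-- the main theorem of complex multiplication; `TorX` with `triv` only for `m ≤ (2)` and `m = ⊤` -/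
structure TorXE (A B : ℤ) : Prop where
  fin : ∀ m : Ideal (OO A B), m ≠ ⊥ → FiniteDimensional (kk A B) (RFE m)
  gal : ∀ m : Ideal (OO A B), m ≠ ⊥ → IsGalois (kk A B) (RFE m)
  comm : ∀ m : Ideal (OO A B), m ≠ ⊥ → ∀ σ τ : RFE m ≃ₐ[kk A B] RFE m, σ * τ = τ * σ
  mono : ∀ m m' : Ideal (OO A B), m' ≤ m → RFE m ≤ RFE m'
  /-- automorphisms of subfields of `RFE m` extend to `ℂ` -/
  ext : ∀ (m : Ideal (OO A B)), m ≠ ⊥ → ∀ (D : IntermediateField ℚ ℂ) (h : kk A B ≤ D),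
    (∀ y ∈ D, y ∈ RFE m) → letI := algC h
    ∀ τ : D ≃ₐ[kk A B] D, ∃ σ : ℂ ≃+* ℂ, FixK A B σ ∧ ExtC h τ σ
  /-- existence of the ideal, and independence of the lattice: one ideal for all lattices -/
  act : ∀ m : Ideal (OO A B), m ≠ ⊥ → ∀ σ : ℂ ≃+* ℂ, FixK A B σ → ∃ a : Ideal (OO A B),
    IsCoprime a m ∧ ∀ (b : Ideal (OO A B)) (L : PeriodPair) (om : ℂ), IsNE b L om →
      ∃ (b' : Ideal (OO A B)) (L' : PeriodPair) (om' mu : ℂ), IsNE b' L' om' ∧ ActE σ m a L L' mu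
  /-- every nonzero ideal prime to `m` is the ideal of an automorphism -/
  surj : ∀ m : Ideal (OO A B), m ≠ ⊥ → ∀ a : Ideal (OO A B), a ≠ ⊥ → IsCoprime a m →
    ∃ σ : ℂ ≃+* ℂ, FixK A B σ ∧ ∀ (b : Ideal (OO A B)) (L : PeriodPair) (om : ℂ), IsNE b L om →
      ∃ (b' : Ideal (OO A B)) (L' : PeriodPair) (om' mu : ℂ), IsNE b' L' om' ∧ ActE σ m a L L' mu
  /-- composition -/
  comp : ∀ (m a b : Ideal (OO A B)) (σ τ : ℂ ≃+* ℂ) (L L' L'' : PeriodPair) (mu nu : ℂ),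
    ActE σ m a L L' mu → ActE τ m b L' L'' nu → ActE (σ.trans τ) m (a * b) L L'' (nu * mu)
  /-- change of the ideal in its class -/
  chg : ∀ (m a a' : Ideal (OO A B)) (σ : ℂ ≃+* ℂ) (L L' : PeriodPair) (mu : ℂ) (x y : OO A B),
    m ≠ ⊥ → IsCoprime a' m → IsCoprime (sp x) m → x ≠ 0 → y ≠ 0 → x - y ∈ m →
    sp x * a = sp y * a' → (∃ (b : Ideal (OO A B)) (om : ℂ), IsNE b L om) → ActE σ m a L L' mu →
    ActE σ m a' L L' (mu * emb x / emb y)
  /-- uniqueness of the class -/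
  uniq : ∀ (m a a' : Ideal (OO A B)) (σ : ℂ ≃+* ℂ) (L L' : PeriodPair) (mu mu' : ℂ),
    m ≠ ⊥ → (∃ (b : Ideal (OO A B)) (om : ℂ), IsNE b L om) → ActE σ m a L L' mu →
    ActE σ m a' L L' mu' →
    ∃ x y : OO A B, IsCoprime (sp x) m ∧ x ≠ 0 ∧ y ≠ 0 ∧ x - y ∈ m ∧ sp x * a = sp y * a' ∧
      mu' = mu * emb x / emb y
  /-- the automorphisms which are trivial on `RFE m`, for even `m` and for `m = ⊤` -/
  triv : ∀ (m a : Ideal (OO A B)) (σ : ℂ ≃+* ℂ) (b : Ideal (OO A B)) (L L' : PeriodPair)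
    (om mu : ℂ), m ≠ ⊥ → (m ≤ idl 2 ∨ m = ⊤) → FixK A B σ → IsNE b L om → ActE σ m a L L' mu →
    NrmE A B L' →
    ((∀ y ∈ RFE m, σ y = y) ↔ ∃ c : OO A B, c - 1 ∈ m ∧ a = sp c)
  /-- the points of order two are rational: `μ ≡ ± 1`, in fact `1`, modulo `2` for a suitable generator of `a` -/
  two : ∀ (m a : Ideal (OO A B)) (σ : ℂ ≃+* ℂ) (b : Ideal (OO A B)) (L L' : PeriodPair)
    (om mu : ℂ), m ≠ ⊥ → m ≤ idl 2 → FixK A B σ → IsNE b L om → ActE σ m a L L' mu →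
    NrmE A B L' → ∃ c : OO A B, mu = emb c ∧ a = sp c ∧ c - 1 ∈ idl (A := A) (B := B) 2
  /-- roots of unity -/
  zeta : ∀ (M : ℕ) (m a : Ideal (OO A B)) (σ : ℂ ≃+* ℂ) (b : Ideal (OO A B))
    (L L' : PeriodPair) (om mu : ℂ), m ≠ ⊥ → FixK A B σ → M ≠ 0 → m ≤ idl M →
    IsNE b L om → ActE σ m a L L' mu → ∀ z : ℂ, z ^ M = 1 → z ∈ RFE m ∧ σ z = z ^ nI a

/-! ## The standing hypotheses at `3` -/

/-- `D = -4`: `3` is inert -/
structure SetE4 (A B : ℤ) (V : ValuationSubring ℂ) (f : ℕ) : Prop where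
  case : CaseE A B
  hB : B = 0
  hV : OverI V (idl (A := A) (B := B) 3)
  f0 : f ≠ 0
  fp : ¬ 3 ∣ f
  fD : 2 * absD A B ∣ (f : ℤ)

/-- `D = -3`: `3` is ramified -/
structure SetE3 (A B : ℤ) (P : Ideal (OO A B)) (V : ValuationSubring ℂ) (f : ℕ) : Prop where
  case : CaseE A B
  hB : B = 1
  hP : IsPN 3 P
  hV : OverI V P
  f0 : f ≠ 0
  fp : ¬ 3 ∣ f
  fD : 2 * absD A B ∣ 3 * (f : ℤ)

/-- `D = -3`: the character `w` of `(O/3)^*` with values in the sixth roots of unity, `w x ≡ emb x` modulo `3`, extended by `0` -/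
structure IsTei6 {A B : ℤ} (P : Ideal (OO A B)) (V : ValuationSubring ℂ) (w : OO A B → ℂ) :
    Prop where
  one : w 1 = 1
  mul : ∀ x y, w (x * y) = w x * w y
  per : ∀ x y, x - y ∈ idl (A := A) (B := B) 3 → w x = w y
  zero : ∀ x ∈ P, w x = 0
  pow : ∀ x ∉ P, w x ^ 6 = 1
  cong : ∀ x ∉ P, V.valuation (w x - emb x) ≤ V.valuation (3 : ℂ)
  unit : ∀ z : OO A B, IsUnit z → w z = emb z

/-- the characters used: `e (ζ x) = ζ e x` for all units `ζ` -/
structure IsEIE {A B : ℤ} (g : Ideal (OO A B)) (e : OO A B → ℂ) : Prop extends IsEI g e where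
  unit : ∀ z : OO A B, IsUnit z → e z = emb z

end

end Pool.Agent.ME
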