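import Pool.Agent.ME.DefsE

/-!
# ME: the exceptional fields for `p = 3`: final statements of the blocks (helper21)

The twins of the final statements of `NS/DefsN.lean`, `NS/DefsR.lean`; names with the suffix `_E`, in the namespaces of the originals.
`D = -4` (`CaseE4`, `SetE4`): `3` is inert; the characters satisfy `e (i x) = i e x` (`IsEIE`). `D = -3` (`CaseE3`, `SetE3`): `3 = P²`; the weights are
`w : (O/3)^* → μ_6` (`IsTei6`), `e = e0 w`; the sums over `XXE` are one third of the sums over all `x`.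
-/

set_option autoImplicit false

namespace Pool.Agent.ME

open _root_.MU3 Pool.Agent.MU3A Pool.Agent.MU3B Pool.Agent.RI Pool.Agent.MUX Pool.Agent.NS
  Pool.Agent.NSRD OnePoint

noncomputable section

/-- `D = -4` -/
structure CaseE4 (A B : ℤ) : Prop extends CaseE A B where
  eB : B = 0

/-- `D = -3` -/
structure CaseE3 (A B : ℤ) : Prop extends CaseE A B where
  eB : B = 1

lemma SetE4.c4 {A B : ℤ} {V : ValuationSubring ℂ} {f : ℕ} (h : SetE4 A B V f) : CaseE4 A B :=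
  ⟨h.case, h.hB⟩

lemma SetE3.c3 {A B : ℤ} {P : Ideal (OO A B)} {V : ValuationSubring ℂ} {f : ℕ}
    (h : SetE3 A B P V f) : CaseE3 A B :=
  ⟨h.case, h.hB⟩

lemma SetE4.f2 {A B : ℤ} {V : ValuationSubring ℂ} {f : ℕ} (h : SetE4 A B V f) : 2 ∣ f := by
  have h1 : (2 : ℤ) ∣ (f : ℤ) := (Dvd.intro _ rfl).trans h.fD
  exact_mod_cast h1

lemma SetE3.f2 {A B : ℤ} {P : Ideal (OO A B)} {V : ValuationSubring ℂ} {f : ℕ}
    (h : SetE3 A B P V f) : 2 ∣ f := by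
  have h1 : (2 : ℤ) ∣ 3 * (f : ℤ) := (Dvd.intro _ rfl).trans h.fD
  have h2 : (2 : ℤ) ∣ (f : ℤ) := by omega
  exact_mod_cast h2

end

end Pool.Agent.ME

namespace Pool.Agent.NS

open _root_.MU3 Pool.Agent.MU3A Pool.Agent.MU3B Pool.Agent.RI Pool.Agent.MUX Pool.Agent.ME OnePoint

noncomputable section

/-- (RFIN) `D = -4`: the normalised lattices have the good model `u = 1`, `e = 0`, `lam = -1` (`y² = x³ - x`), and an automorphism in the inertia group of `RFE (idl f)`,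
`f` even and prime to `3`, is trivial on it. -/
def Sn_RFIN_E : Prop :=
  ∀ (A B : ℤ) (V : ValuationSubring ℂ), CaseE4 A B → OverI V (idl (A := A) (B := B) 3) →
    TorXE A B →
    (∀ (b : Ideal (OO A B)) (L : PeriodPair) (om : ℂ), IsNE b L om →
      ∃ u e lam : ℂ, GoodN V L u e lam ∧ u ^ 2 ∈ RFE (idl (A := A) (B := B) 2) ∧
        e ∈ RFE (idl (A := A) (B := B) 2) ∧ lam ∈ RFE (idl (A := A) (B := B) 2)) ∧
    ∀ f : ℕ, f ≠ 0 → ¬ 3 ∣ f → 2 ∣ f → ∀ σ : ℂ ≃+* ℂ, FixK A B σ →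
      (∀ y ∈ RFE (idl (A := A) (B := B) f), y ∈ V → σ y - y ∈ V.nonunits) →
      ∀ y ∈ RFE (idl (A := A) (B := B) f), σ y = y

/-- (EFIN) `D = -4`: cubes have a logarithmic derivative divisible by `3`. -/
def Sn_EFIN_E : Prop :=
  ∀ (A B : ℤ) (V : ValuationSubring ℂ) (f : ℕ), SetE4 A B V f → TorXE A B →
    ∀ (ι : Type) [Fintype ι] (R : RepsE A B (3 * f) ι) (u e lam : ℂ),
    GoodN V (R.L R.i0) u e lam → ∀ w : OO A B → ℂ, IsTei V w →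
    ∀ n : ℕ, 1 ≤ n →
    ∀ (H : ι → Finset ℂ), (∀ i, IsHalf (R.L i) (aX 3 f : ℂ) (H i)) →
    ∀ (D : IntermediateField ℚ ℂ) (h : kk A B ≤ D),
      (∀ y ∈ D, y ∈ RFE (idl (A := A) (B := B) (lvX 3 f n))) →
    letI := algC h
    (∀ τ : D ≃ₐ[kk A B] D, ∃ y : D, (y : ℂ) = cXE R (lvX 3 f n) H h 1 ∧
      ((τ y : D) : ℂ) = cXE R (lvX 3 f n) H h τ) →
    ∀ g : (D ≃ₐ[kk A B] D) → ℤ,
      (∃ y ∈ D, y ^ 3 = ∏ᶠ τ : D ≃ₐ[kk A B] D, cXE R (lvX 3 f n) H h τ ^ g τ) →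
      ∀ τ' : D ≃ₐ[kk A B] D,
        V.valuation ((∑ᶠ τ : D ≃ₐ[kk A B] D, (g τ : ℂ) *
          TTNE R w (lvX 3 f n) (aX 3 f) h (τ * τ')) / u) ≤ V.valuation (3 : ℂ)

/-- (HFIN) `D = -4`: the character sums (over all `x` modulo `m`). -/
def Sn_HFIN_E : Prop :=
  ∀ (A B : ℤ) (V : ValuationSubring ℂ) (f : ℕ), SetE4 A B V f → TorXE A B →
    ∀ (ι : Type) [Fintype ι] (R : RepsE A B (3 * f) ι) (u el lam : ℂ),
    GoodN V (R.L R.i0) u el lam → ∀ w : OO A B → ℂ, IsTei V w →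
    ∀ e : OO A B → ℂ, IsEIE (idl (A := A) (B := B) (3 * f)) e → ∀ r : ℕ, ¬ 3 ∣ r →
    (∀ x, e x ≠ 0 → e x ^ r = 1) → ∀ i : ℕ, 4 ≤ i → i ≤ 7 →
    (∀ x, x - 1 ∈ idl (A := A) (B := B) f → x ∉ idl (A := A) (B := B) 3 → e x = w x ^ i) →
    ∀ s : ℤ, s = 1 ∨ s = -1 → ∀ kk : ι → ℂ, (∀ i, kk i ^ r = 1) →
    ∀ n₀ : ℕ, ∃ n, n₀ ≤ n ∧
      V.valuation (3 : ℂ) < V.valuation ((∑ j ∈ Finset.range 2, (-1) ^ (1 - j) *
        (STXE R (lvX 3 f n) (3 ^ (n + 1)) (aX 3 f) e kk (4 ^ j) +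
          s * STXE R (lvX 3 f n) (3 ^ (n + 1)) (aX 3 f) e kk (-(4 ^ j)))) / u)

end

end Pool.Agent.NS

namespace Pool.Agent.NSRD

open _root_.MU3 Pool.Agent.MU3A Pool.Agent.MU3B Pool.Agent.RI Pool.Agent.MUX Pool.Agent.NS
  Pool.Agent.ME OnePoint

noncomputable section

/-- (RFIN) `D = -3`: the normalised lattices have a good model with `u² = 1 + ω` up to a sixth root of unity (`v(u)^4 = v 3`), and an automorphism in the inertia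
group of `RFE (idl f)`, `f` even and prime to `3`, is trivial on it. -/
def Sq_RFIN_E : Prop :=
  ∀ (A B : ℤ) (P : Ideal (OO A B)) (V : ValuationSubring ℂ), CaseE3 A B → IsPN 3 P →
    OverI V P → TorXE A B →
    (∀ (b : Ideal (OO A B)) (L : PeriodPair) (om : ℂ), IsNE b L om →
      ∃ u e lam : ℂ, GoodR V L u e lam ∧ V.valuation u ^ 4 = V.valuation (3 : ℂ) ∧
        u ^ 2 ∈ kk A B ∧ e ∈ kk A B ∧ lam ∈ kk A B) ∧
    ∀ f : ℕ, f ≠ 0 → ¬ 3 ∣ f → 2 ∣ f → ∀ σ : ℂ ≃+* ℂ, FixK A B σ →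
      (∀ y ∈ RFE (idl (A := A) (B := B) f), y ∈ V → σ y - y ∈ V.nonunits) →
      ∀ y ∈ RFE (idl (A := A) (B := B) f), σ y = y

/-- (EFIN) `D = -3`: cubes, additive valuation at least `3/2`, weights `w : (O/3)^* → μ_6`. -/
def Sq_EFIN_E : Prop :=
  ∀ (A B : ℤ) (P : Ideal (OO A B)) (V : ValuationSubring ℂ) (f : ℕ), SetE3 A B P V f →
    TorXE A B → ∀ (ι : Type) [Fintype ι] (R : RepsE A B (3 * f) ι) (u e lam : ℂ),
    GoodR V (R.L R.i0) u e lam → ∀ w : OO A B → ℂ, IsTei6 P V w → ∀ n : ℕ, 1 ≤ n →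
    ∀ (H : ι → Finset ℂ), (∀ i, IsHalf (R.L i) (aX 3 f : ℂ) (H i)) →
    ∀ (D : IntermediateField ℚ ℂ) (h : kk A B ≤ D), (∀ y ∈ D, y ∈ RFE (lvR P f n)) →
    letI := algC h
    (∀ τ : D ≃ₐ[kk A B] D, ∃ y : D, (y : ℂ) = cXE R (lvX 3 f n) H h 1 ∧
      ((τ y : D) : ℂ) = cXE R (lvX 3 f n) H h τ) →
    ∀ g : (D ≃ₐ[kk A B] D) → ℤ,
      (∃ y ∈ D, y ^ 3 = ∏ᶠ τ : D ≃ₐ[kk A B] D, cXE R (lvX 3 f n) H h τ ^ g τ) →
      ∀ τ' : D ≃ₐ[kk A B] D,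
        V.valuation ((∑ᶠ τ : D ≃ₐ[kk A B] D, (g τ : ℂ) *
          TTNE R w (lvX 3 f n) (aX 3 f) h (τ * τ')) / u) ^ 2 ≤ V.valuation (3 : ℂ) ^ 3

/-- (TYF) `D = -3`: the type. `e = e0 w`; `i = 0`: `e = w`, `i = 1`: `e = w^4` on the `x ≡ 1` modulo `f`. The symbol is divided by `3`. -/
def Sq_TYF_E : Prop :=
  ∀ (A B : ℤ) (P : Ideal (OO A B)) (V : ValuationSubring ℂ) (f : ℕ), SetE3 A B P V f → 4 ∣ f →
    TorXE A B → ∀ (ι : Type) [Fintype ι] (R : RepsE A B (3 * f) ι) (u el lam : ℂ),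
    GoodR V (R.L R.i0) u el lam → ∀ w : OO A B → ℂ, IsTei6 P V w →
    ∀ e e0 : OO A B → ℂ, IsEIE (idl (A := A) (B := B) (3 * f)) e → (∀ x, e x = e0 x * w x) →
    ∀ r : ℕ, ¬ 3 ∣ r → (∀ x, e0 x ≠ 0 → e0 x ^ r = 1) → ∀ i : ℕ, i ≤ 1 →
    (∀ x, x - 1 ∈ idl (A := A) (B := B) f → x ∉ P → e x = w x ^ (3 * i + 1)) →
    ∀ kk : ι → ℂ, (∀ j, kk j ^ r = 1) →
    ∃ (pi : ℂ) (KI : Subfield ℂ),
      (∀ x y : OnePoint ℚ, ∃ z ∈ KI, PhiKE R e kk x y / (3 * u * R.om R.i0) = pi * z) ∧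
      (∀ z ∈ KI, V.valuation z < 1 → V.valuation z ^ 2 ≤ V.valuation (3 : ℂ)) ∧
      V.valuation pi ^ 4 * V.valuation (3 : ℂ) ^ (1 - i) = 1

/-- (HFIN) `D = -3`: the character sums over all `x` modulo `m`: additive valuation at most `9/4 - 1/3^n`. -/
def Sq_HFIN_E : Prop :=
  ∀ (A B : ℤ) (P : Ideal (OO A B)) (V : ValuationSubring ℂ) (f : ℕ), SetE3 A B P V f → 4 ∣ f →
    TorXE A B → ∀ (ι : Type) [Fintype ι] (R : RepsE A B (3 * f) ι) (u el lam : ℂ),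
    GoodR V (R.L R.i0) u el lam → ∀ w : OO A B → ℂ, IsTei6 P V w →
    ∀ e e0 : OO A B → ℂ, IsEIE (idl (A := A) (B := B) (3 * f)) e → (∀ x, e x = e0 x * w x) →
    ∀ r : ℕ, ¬ 3 ∣ r → (∀ x, e0 x ≠ 0 → e0 x ^ r = 1) → ∀ kk : ι → ℂ, (∀ i, kk i ^ r = 1) →
    ∀ n₀ : ℕ, ∃ n, n₀ ≤ n ∧ 1 ≤ n ∧
      V.valuation (3 : ℂ) ^ 5 < V.valuation ((∑ j ∈ Finset.range 2, (-1) ^ (1 - j) *
        (STXE R (lvX 3 f n) (3 ^ (n + 1)) (aX 3 f) e kk (4 ^ j) +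
          STXE R (lvX 3 f n) (3 ^ (n + 1)) (aX 3 f) e kk (-(4 ^ j)))) / u) ^ 2

end

end Pool.Agent.NSRD
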