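import Pool.Agent.ME.StXEE

/-!
# MUX, block E, module FAC: formal properties of the fields `RFE m`
-/

set_option autoImplicit false

open WeierstrassCurve Polynomial NumberField IsDedekindDomain

namespace Pool.Agent.MEE

open _root_.MU3 Pool.Agent.MU3A Pool.Agent.MU3B Pool.Agent.MUX Pool.Agent.MUXU Pool.Agent.RI
open Pool.Agent.ME hiding ActE
open Pool.Agent.MUXE (RingE)

noncomputable section

namespace FAC

variable {A B : ℤ}

lemma kap_mem (m : Ideal (OO A B)) (L : PeriodPair) (hL : NLE A B L) : kapE L ∈ RFE m := by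
  obtain ⟨b, om, hb⟩ := hL
  exact IntermediateField.subset_adjoin _ _ ⟨b, L, om, hb, Or.inl rfl⟩

lemma x_mem (m : Ideal (OO A B)) (L : PeriodPair) (hL : NLE A B L) (z : ℂ) (hz : Tor m L z)
    (hz' : z ∉ L.lattice) : xnE L z ∈ RFE m := by
  obtain ⟨b, om, hb⟩ := hL
  exact IntermediateField.subset_adjoin _ _ ⟨b, L, om, hb, Or.inr ⟨z, hz, hz', rfl⟩⟩

lemma tor_mono {m m' : Ideal (OO A B)} (h : m ≤ m') {L : PeriodPair} {z : ℂ}
    (hz : Tor m' L z) : Tor m L z := fun x hx => hz x (h hx)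

lemma mono {m m' : Ideal (OO A B)} (h : m ≤ m') : RFE m' ≤ RFE m := by
  refine IntermediateField.adjoin.mono _ _ _ ?_
  rintro c ⟨b, L, om, hb, hc | ⟨z, hz, hz', hc⟩⟩
  · exact ⟨b, L, om, hb, Or.inl hc⟩
  · exact ⟨b, L, om, hb, Or.inr ⟨z, tor_mono h hz, hz', hc⟩⟩

/-- Two embeddings which agree on the generators are equal. -/
lemma ext (m : Ideal (OO A B)) (σ τ : RFE m →ₐ[kk A B] ℂ)
    (h1 : ∀ L (hL : NLE A B L), σ ⟨kapE L, kap_mem m L hL⟩ = τ ⟨kapE L, kap_mem m L hL⟩)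
    (h2 : ∀ L (hL : NLE A B L) (z : ℂ) (hz : Tor m L z) (hz' : z ∉ L.lattice),
      σ ⟨xnE L z, x_mem m L hL z hz hz'⟩ = τ ⟨xnE L z, x_mem m L hL z hz hz'⟩) : σ = τ := by
  refine IntermediateField.algHom_ext_of_eq_adjoin (kk A B) (S := RFE m) rfl ?_
  rintro x ⟨b, L, om, hb, hc | ⟨z, hz, hz', hc⟩⟩
  · subst hc
    exact h1 L ⟨b, om, hb⟩
  · subst hc
    exact h2 L ⟨b, om, hb⟩ z hz hz'

end FAC

/-- FAC. -/
theorem tm_FAC (h1 : Sme_TRA) : Sme_FAC := by
  intro A B hR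
  obtain ⟨φ, hφ⟩ := hR.hom
  have esub : ∀ x y : OO A B, emb (x - y) = emb x - emb y := by
    intro x y
    rw [← hφ, ← hφ, ← hφ, map_sub]
  have eadd : ∀ x y : OO A B, emb (x + y) = emb x + emb y := by
    intro x y
    rw [← hφ, ← hφ, ← hφ, map_add]
  have eone : emb (1 : OO A B) = 1 := by rw [← hφ, map_one]
  refine ⟨fun m m' h => FAC.mono h, fun m L hL => ⟨FAC.kap_mem m L hL, fun z hz hz' =>
    FAC.x_mem m L hL z hz hz'⟩, ?_, ?_, ?_⟩
  · intro m σ τ α hσ hτ
    refine FAC.ext m σ τ (fun L hL => ?_) (fun L hL z hz hz' => ?_)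
    · rw [(hσ.2 L hL).1, (hτ.2 L hL).1]
    · rw [((hσ.2 L hL).2 z hz hz').2, ((hτ.2 L hL).2 z hz hz').2]
  · intro m m' hmm σ α hσ hα y hy hy'
    have h2 : σ.comp (IntermediateField.inclusion (FAC.mono hmm)) = (RFE m').val := by
      refine FAC.ext m' _ _ (fun L hL => ?_) (fun L hL z hz hz' => ?_)
      · exact (hσ.2 L hL).1 _
      · have h3 := ((hσ.2 L hL).2 z (FAC.tor_mono hmm hz) hz').2
          (FAC.x_mem m L hL z (FAC.tor_mono hmm hz) hz')
        obtain ⟨-, -, -, -, -, -, -, -, t9⟩ := h1 A B hR L hL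
        have h4 : z - emb α * z ∈ L.lattice := by
          have h5 := hz _ hα
          rw [esub, eone, sub_mul, one_mul] at h5
          have h6 := neg_mem h5
          rwa [neg_sub] at h6
        have h7 := ((t9 z (emb α * z) h4).2 hz').1
        exact h3.trans h7.symm
    exact DFunLike.congr_fun h2 ⟨y, hy'⟩
  · intro m F σ α β hαβ hσ
    have hcop : IsCoprime (sp β) m := by
      obtain ⟨x, hx, y, hy, hxy⟩ := Ideal.isCoprime_iff_exists.1 hσ.1
      obtain ⟨c, rfl⟩ := Ideal.mem_span_singleton'.1 hx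
      rcases hαβ with h | h
      · refine Ideal.isCoprime_iff_exists.2 ⟨c * β, Ideal.mem_span_singleton'.2 ⟨c, rfl⟩,
          c * (α - β) + y, add_mem (m.mul_mem_left c h) hy, ?_⟩
        rw [← hxy]
        ring
      · refine Ideal.isCoprime_iff_exists.2 ⟨-c * β, Ideal.mem_span_singleton'.2 ⟨-c, rfl⟩,
          c * (α + β) + y, add_mem (m.mul_mem_left c h) hy, ?_⟩
        rw [← hxy]
        ring
    refine ⟨hcop, fun L hL => ⟨(hσ.2 L hL).1, fun z hz hz' => ?_⟩⟩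
    obtain ⟨h2, h3⟩ := (hσ.2 L hL).2 z hz hz'
    obtain ⟨-, -, -, -, -, -, -, -, t9⟩ := h1 A B hR L hL
    rcases hαβ with h | h
    · have h4 : emb α * z - emb β * z ∈ L.lattice := by
        have h5 := hz _ h
        rwa [esub, sub_mul] at h5
      obtain ⟨h6, h7⟩ := t9 _ _ h4
      exact ⟨fun h8 => h2 (h6.2 h8), fun hx => by rw [h3 hx, (h7 h2).1]⟩
    · have h4 : emb α * z - -(emb β * z) ∈ L.lattice := by
        have h5 := hz _ h
        rw [eadd, add_mul] at h5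
        rwa [sub_neg_eq_add]
      obtain ⟨h6, h7⟩ := t9 _ _ h4
      have h8 : emb β * z ∉ L.lattice := by
        intro h9
        exact h2 (h6.2 (neg_mem h9))
      refine ⟨h8, fun hx => ?_⟩
      rw [h3 hx, (h7 h2).1]
      exact ((t9 (emb β * z) (emb β * z) (by rw [sub_self]; exact zero_mem _)).2 h8).2.2

end

end Pool.Agent.MEE
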