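import Pool.Agent.ME.StXEE
import Pool.Agent.MUX.E_GAL

/-!
# ME, block E, module GAL (helper86): from the main theorem of complex multiplication to `GalEE`
-/

set_option autoImplicit false

open WeierstrassCurve Polynomial NumberField IsDedekindDomain

namespace Pool.Agent.MEE

open _root_.MU3 Pool.Agent.MU3A Pool.Agent.MU3B Pool.Agent.MUX Pool.Agent.MUXU Pool.Agent.RI
open Pool.Agent.ME hiding ActE
open Pool.Agent.MUXE (RingE)
open Pool.Agent.MUXE.GalX (fix embm emb1)
open scoped QuadraticAlgebra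

noncomputable section

namespace GalX

variable {A B : ℤ}

lemma nmm (x y : OO A B) : nm (x * y) = nm x * nm y := by
  simp only [nm, QuadraticAlgebra.re_mul, QuadraticAlgebra.im_mul]
  ring

lemma nmE (hC : CaseE A B) (z : OO A B) :
    nm z = z.re ^ 2 + z.im ^ 2 ∨ nm z = z.re ^ 2 + z.re * z.im + z.im ^ 2 := by
  have hA := hC.hA
  have h0 : nm z = z.re ^ 2 + B * z.re * z.im - A * z.im ^ 2 := rfl
  rcases hC.hB with h | h
  · left
    linear_combination h0 + z.re * z.im * h - z.im ^ 2 * hA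
  · right
    linear_combination h0 + z.re * z.im * h - z.im ^ 2 * hA

/-- units congruent to one modulo two -/
lemma unit2 (hC : CaseE A B) {z : OO A B} (hz : IsUnit z)
    (h2 : z - 1 ∈ idl (A := A) (B := B) 2) : z = 1 ∨ z = -1 := by
  obtain ⟨y, hy⟩ := hz.exists_right_inv
  have h3 : nm z * nm y = 1 := by
    rw [← nmm, hy]
    simp [nm]
  obtain ⟨t, ht⟩ := Ideal.mem_span_singleton'.1 h2
  have him := congrArg QuadraticAlgebra.im ht
  have h2re : ((2 : ℕ) : OO A B).re = 2 := QuadraticAlgebra.re_natCast 2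
  have h2im : ((2 : ℕ) : OO A B).im = 0 := QuadraticAlgebra.im_natCast 2
  simp only [QuadraticAlgebra.im_mul,
    QuadraticAlgebra.im_sub, QuadraticAlgebra.im_one, h2re, h2im]
    at him
  have h6 : z.im = 2 * t.im := by linarith
  have hnn : 0 ≤ nm z := by
    rcases nmE hC z with h | h
    · rw [h]
      nlinarith [sq_nonneg z.re, sq_nonneg z.im]
    · rw [h]
      nlinarith [sq_nonneg (2 * z.re + z.im), sq_nonneg z.im]
  have h4 : nm z = 1 := by
    rcases Int.isUnit_iff.1 (IsUnit.of_mul_eq_one _ h3) with h | h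
    · exact h
    · omega
  have him0 : z.im = 0 := by
    by_contra h5
    have h7 : t.im ≠ 0 := by
      intro h8
      rw [h8] at h6
      exact h5 (by simpa using h6)
    have h8 : 1 ≤ t.im ^ 2 := by
      have := sq_pos_of_ne_zero h7
      omega
    have h9 : 4 ≤ z.im ^ 2 := by
      rw [h6]
      nlinarith
    rcases nmE hC z with h | h
    · rw [h] at h4
      nlinarith [sq_nonneg z.re]
    · rw [h] at h4
      nlinarith [sq_nonneg (2 * z.re + z.im)]
  have h5 : z.re ^ 2 = 1 := by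
    rcases nmE hC z with h | h
    · rw [h, him0] at h4
      linarith
    · rw [h, him0] at h4
      linarith
  rcases (sq_eq_one_iff.1 h5) with h | h
  · left
    ext
    · simpa using h
    · simpa using him0
  · right
    ext
    · simpa using h
    · simpa using him0

/-- two generators congruent to one modulo two -/
lemma gens (hC : CaseE A B) (hR : RingE A B) {c c' : OO A B} (h : sp c = sp c')
    (hc : c - 1 ∈ idl (A := A) (B := B) 2) (hc' : c' - 1 ∈ idl (A := A) (B := B) 2) :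
    c' = c ∨ c' = -c := by
  haveI := hR.ded
  obtain ⟨u, hu⟩ := (Ideal.span_singleton_eq_span_singleton.1 h)
  have h1 : (u : OO A B) - 1 ∈ idl (A := A) (B := B) 2 := by
    have h2 : (u : OO A B) - 1 = (c' - 1) - (c - 1) * u := by
      rw [← hu]
      ring
    rw [h2]
    exact sub_mem hc' (Ideal.mul_mem_right _ _ hc)
  rcases unit2 hC u.isUnit h1 with h2 | h2
  · left
    rw [← hu, h2, mul_one]
  · right
    rw [← hu, h2]
    ring

/-- lattices of normalised curves are stable under `O` -/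
lemma stab (hR : RingE A B) {b : Ideal (OO A B)} {L : PeriodPair} {om : ℂ}
    (hL : IsNE b L om) (x : OO A B) {z : ℂ} (hz : z ∈ L.lattice) : emb x * z ∈ L.lattice := by
  obtain ⟨y, hy, rfl⟩ := (hL.mem z).1 hz
  refine (hL.mem _).2 ⟨x * y, b.mul_mem_left x hy, ?_⟩
  rw [embm hR]
  ring

/-- the core: an isogeny of degree one between normalised lattices -/
lemma core (hR : RingE A B) {b : Ideal (OO A B)} {L L' : PeriodPair}
    {om mu : ℂ} {c : OO A B} (hL : IsNE b L om)
    (hq : IsQ (sp c) L L' mu) (hmc : mu = emb c ∨ mu = -emb c) :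
    kapE L' = kapE L ∧ (∀ z, z ∈ L.lattice ↔ z ∈ L'.lattice) ∧
      ∀ z, L'.weierstrassP z = L.weierstrassP z := by
  obtain ⟨hmu, hq⟩ := hq
  have hq' : ∀ z : ℂ, mu * z ∈ L'.lattice ↔ emb c * z ∈ L.lattice := by
    intro z
    rw [hq z]
    constructor
    · intro h
      exact h c (Ideal.mem_span_singleton_self c)
    · intro h x hx
      obtain ⟨y, rfl⟩ := Ideal.mem_span_singleton'.1 hx
      rw [embm hR, mul_assoc]
      exact stab hR hL y h
  have hc : emb c ≠ 0 := by
    rcases hmc with h | h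
    · rw [← h]
      exact hmu
    · intro h0
      rw [h0, neg_zero] at h
      exact hmu h
  have hlat : ∀ z, z ∈ L.lattice ↔ z ∈ L'.lattice := by
    intro z
    have h1 := hq' (z / emb c)
    rw [mul_div_cancel₀ _ hc] at h1
    rw [← h1]
    rcases hmc with h | h
    · rw [h, mul_div_cancel₀ _ hc]
    · rw [h, neg_mul, mul_div_cancel₀ _ hc, neg_mem_iff]
  obtain ⟨k1, -, k3, k4⟩ := ta_SCP L L' 1 one_ne_zero (fun z => by rw [one_mul]; exact hlat z)
  refine ⟨?_, hlat, fun z => ?_⟩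
  · unfold kapE
    rw [k3, k4]
    ring
  · have := k1 z
    rwa [one_mul, one_pow, div_one] at this

/-- from `ActE` for all lattices to `ActEE` -/
lemma mk (hC : CaseE A B) (hR : RingE A B) (T : TorXE A B) {m : Ideal (OO A B)} {c : OO A B}
    {F : IntermediateField (kk A B) ℂ} (σ : F →ₐ[kk A B] ℂ) (s : ℂ ≃+* ℂ) (hs : FixK A B s)
    (hσ : ∀ y : F, σ y = s y) (hm : m ≠ ⊥) (hm2 : m ≤ idl (A := A) (B := B) 2)
    (hc1 : c - 1 ∈ idl (A := A) (B := B) 2) (hc : IsCoprime (sp c) m)
    (h : ∀ (b : Ideal (OO A B)) (L : PeriodPair) (om : ℂ), IsNE b L om →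
      ∃ (b' : Ideal (OO A B)) (L' : PeriodPair) (om' mu : ℂ), IsNE b' L' om' ∧
        ME.ActE s m (sp c) L L' mu) : ActEE σ m c := by
  refine ⟨hc, fun L hN => ?_⟩
  obtain ⟨b, om, hL⟩ := hN
  obtain ⟨b', L', om', mu, hL', hA⟩ := h b L om hL
  obtain ⟨c', hmu, hcc, hc'⟩ := T.two m (sp c) s b L L' om mu hm hm2 hs hL hA hL'.nrm
  have h2 : mu = emb c ∨ mu = -emb c := by
    rcases gens hC hR hcc hc1 hc' with h | h
    · left
      rw [hmu, h]
    · right
      rw [hmu, h]
      obtain ⟨φ, hφ⟩ := hR.hom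
      rw [← hφ, map_neg, hφ]
  obtain ⟨h1, h3, h4⟩ := core hR hL hA.isq h2
  refine ⟨fun hk => ?_, fun z hz hz' => ?_⟩
  · rw [hσ]
    show s (kapE L) = kapE L
    rw [← hA.kapE, h1]
  · rcases hA.act z hz with ⟨h5, -⟩ | ⟨-, h6, h7, -⟩
    · exact absurd h5 hz'
    · rw [← h3] at h6
      have h8 : emb c * z ∉ L.lattice := by
        rcases h2 with h | h
        · rw [← h]; exact h6
        · intro h9
          apply h6
          rw [h, neg_mul]
          exact neg_mem h9
      refine ⟨h8, fun hx => ?_⟩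
      rw [hσ]
      show s (xnE L z) = _
      rw [h7]
      unfold xnE
      rw [h4]
      rcases h2 with h | h
      · rw [h]
      · rw [h, neg_mul, L.weierstrassP_neg]

/-- an embedding of `RFE m` extends to an automorphism of `ℂ` -/
lemma extd (T : TorXE A B) {m : Ideal (OO A B)} (hm : m ≠ ⊥)
    (σ : RFE m →ₐ[kk A B] ℂ) : ∃ s : ℂ ≃+* ℂ, FixK A B s ∧ ∀ y : RFE m, σ y = s y := by
  haveI := T.fin m hm
  haveI := T.gal m hm
  let e : RFE m ≃ₐ[kk A B] RFE m := Normal.algHomEquivAut (kk A B) ℂ (RFE m) σ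
  have he : ∀ y : RFE m, σ y = ((e y : RFE m) : ℂ) := by
    intro y
    have h1 := (Normal.algHomEquivAut (kk A B) ℂ (RFE m)).symm_apply_apply σ
    have h2 := congrArg (fun g : RFE m →ₐ[kk A B] ℂ => g y) h1
    exact h2.symm
  let D : IntermediateField ℚ ℂ :=
    (RFE m : IntermediateField (kk A B) ℂ).restrictScalars ℚ
  have hle : kk A B ≤ D := fun x hx =>
    (RFE m : IntermediateField (kk A B) ℂ).algebraMap_mem ⟨x, hx⟩
  have hDy : ∀ y ∈ D, y ∈ (RFE m : IntermediateField (kk A B) ℂ) := fun y hy => hy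
  letI := algC hle
  let τ : D ≃ₐ[kk A B] D := AlgEquiv.ofRingEquiv (f := (e.toRingEquiv : D ≃+* D))
    (fun r => e.commutes r)
  obtain ⟨s, hs, hs1⟩ := T.ext m hm D hle hDy τ
  refine ⟨s, hs, fun y => ?_⟩
  rw [he y]
  exact (hs1 y).symm

end GalX

open GalX in
theorem tm_GAL : Sme_GAL := by
  intro A B hC hR T
  refine ⟨T.fin, T.gal, ?_, ?_⟩
  · intro m m' hm hmm hm2 σ hσ
    have hm' : m' ≠ ⊥ := by
      intro h0
      exact hm (le_bot_iff.1 (h0 ▸ hmm))
    by_cases hex : ∃ (b : Ideal (OO A B)) (L : PeriodPair) (om : ℂ), IsNE b L om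
    · obtain ⟨b₀, L₀, om₀, hL₀⟩ := hex
      obtain ⟨s, hs, hs1⟩ := extd T hm σ
      obtain ⟨a, ha, ha'⟩ := T.act m hm s hs
      obtain ⟨b', L', om', mu, hL', hA⟩ := ha' b₀ L₀ om₀ hL₀
      have hA' : ME.ActE s m' a L₀ L' mu := by
        refine ⟨hA.kapE, ?_, hA.isq, fun z hz => hA.act z fun x hx => hz x (hmm hx)⟩
        rw [Ideal.isCoprime_iff_sup_eq] at ha ⊢
        rw [eq_top_iff, ← ha]
        exact sup_le_sup_left hmm a
      have htr : ∀ y ∈ (RFE m' : IntermediateField (kk A B) ℂ), s y = y := by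
        intro y hy
        have hy' := T.mono m' m hmm hy
        rw [← hs1 ⟨y, hy'⟩]
        exact hσ y hy' hy
      obtain ⟨c, hc1, hc⟩ := (T.triv m' a s b₀ L₀ L' om₀ mu hm' (Or.inl hm2) hs hL₀ hA'
        hL'.nrm).1 htr
      subst hc
      exact ⟨c, hc1, mk hC hR T σ s hs hs1 hm (hmm.trans hm2) (hm2 hc1) ha ha'⟩
    · push Not at hex
      refine ⟨1, by rw [sub_self]; exact m'.zero_mem, ?_, fun L hN => ?_⟩
      · rw [Ideal.isCoprime_iff_sup_eq]
        have h1 : (sp (1 : OO A B)) = ⊤ := Ideal.span_singleton_one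
        rw [h1, top_sup_eq]
      · obtain ⟨b, om, hL⟩ := hN
        exact absurd hL (hex b L om)
  · intro m hm hm2 α hα hα1
    by_cases hα0 : α = 0
    · exfalso
      subst hα0
      have h0 : (sp (0 : OO A B)) = ⊥ := Ideal.span_singleton_eq_bot.2 rfl
      rw [h0, Ideal.isCoprime_iff_sup_eq, bot_sup_eq] at hα
      have h1 : (1 : OO A B) ∈ idl (A := A) (B := B) 2 := hm2 (hα ▸ Submodule.mem_top)
      obtain ⟨t, ht⟩ := Ideal.mem_span_singleton'.1 h1
      have hre := congrArg QuadraticAlgebra.re ht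
      have h2re : ((2 : ℕ) : OO A B).re = 2 := QuadraticAlgebra.re_natCast 2
      have h2im : ((2 : ℕ) : OO A B).im = 0 := QuadraticAlgebra.im_natCast 2
      simp only [QuadraticAlgebra.re_mul, QuadraticAlgebra.re_one, h2re, h2im] at hre
      omega
    obtain ⟨s, hs, hs1⟩ := T.surj m hm (sp α)
      (fun h => hα0 (Ideal.span_singleton_eq_bot.1 h)) hα
    haveI := T.fin m hm
    haveI := T.gal m hm
    let s' : ℂ ≃ₐ[kk A B] ℂ := AlgEquiv.ofRingEquiv (f := s) (fun r => fix hs _ r.2)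
    refine ⟨s'.restrictNormal (RFE m), mk hC hR T _ s hs ?_ hm hm2 hα1 hα hs1⟩
    intro y
    exact AlgEquiv.restrictNormal_commutes s' (RFE m) y

end

end Pool.Agent.MEE
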