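import Pool.Agent.ME.StXEE

/-!
# MUX, block E, module TRA: torsion points, formal facts
-/

set_option autoImplicit false

open WeierstrassCurve Polynomial NumberField IsDedekindDomain

namespace Pool.Agent.MEE

open _root_.MU3 Pool.Agent.MU3A Pool.Agent.MU3B Pool.Agent.MUX Pool.Agent.MUXU Pool.Agent.RI
open Pool.Agent.ME hiding ActE
open Pool.Agent.MUXE (RingE)

noncomputable section

/-- TRA. -/
theorem tm_TRA : Sme_TRA := by
  intro A B hR L hL
  obtain ⟨φ, hφ⟩ := hR.hom
  obtain ⟨b, om, hb⟩ := hL
  have hmul : ∀ x y : OO A B, emb (x * y) = emb x * emb y := by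
    intro x y
    rw [← hφ, ← hφ, ← hφ, map_mul]
  have hadd : ∀ x y : OO A B, emb (x + y) = emb x + emb y := by
    intro x y
    rw [← hφ, ← hφ, ← hφ, map_add]
  have hone : emb (1 : OO A B) = 1 := by rw [← hφ, map_one]
  have hzero : emb (0 : OO A B) = 0 := by rw [← hφ, map_zero]
  have h1 : ∀ (x : OO A B) (z : ℂ), z ∈ L.lattice → emb x * z ∈ L.lattice := by
    intro x z hz
    obtain ⟨c, hc, rfl⟩ := (hb.mem z).1 hz
    exact (hb.mem _).2 ⟨x * c, b.mul_mem_left x hc, by rw [hmul]; ring⟩
  refine ⟨h1, ?_, ?_, ?_, ?_, ?_, ?_, ?_, ?_⟩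
  · intro m z w hz hw x hx
    rw [mul_add]
    exact add_mem (hz x hx) (hw x hx)
  · intro m x z hz y hy
    rw [mul_left_comm]
    exact h1 x _ (hz y hy)
  · intro m m' z hmm hz hz'
    obtain ⟨x, hx, y, hy, hxy⟩ := Ideal.isCoprime_iff_exists.1 hmm
    have h2 : z = emb x * z + emb y * z := by
      rw [← add_mul, ← hadd, hxy, hone, one_mul]
    rw [h2]
    exact add_mem (hz x hx) (hz' y hy)
  · intro x z
    constructor
    · intro h
      exact h x (Ideal.mem_span_singleton_self x)
    · intro h y hy
      obtain ⟨c, rfl⟩ := Ideal.mem_span_singleton'.1 hy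
      rw [hmul, mul_assoc]
      exact h1 c _ h
  · intro m m' x z hx hz y hy
    have h2 := hz (x * y) (Ideal.mul_mem_mul hx hy)
    rw [hmul] at h2
    rw [← mul_assoc, mul_comm (emb y)]
    exact h2
  · intro m m' z h y hy
    refine Submodule.mul_induction_on hy ?_ ?_
    · intro x hx y' hy'
      have h2 := h x hx y' hy'
      rw [hmul, mul_comm (emb x), mul_assoc]
      exact h2
    · intro x y' hx hy'
      rw [hadd, add_mul]
      exact add_mem hx hy'
  · intro m z w hzw
    have key : ∀ x : OO A B, emb x * z ∈ L.lattice ↔ emb x * w ∈ L.lattice := by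
      intro x
      have h2 := h1 x _ hzw
      rw [mul_sub] at h2
      constructor
      · intro h3
        have h4 := sub_mem h3 h2
        rwa [sub_sub_cancel] at h4
      · intro h3
        have h4 := add_mem h2 h3
        rwa [sub_add_cancel] at h4
    exact ⟨fun h x hx => (key x).1 (h x hx), fun h x hx => (key x).2 (h x hx)⟩
  · intro z w hzw
    refine ⟨⟨fun h3 => ?_, fun h3 => ?_⟩, fun _ => ?_⟩
    · have h4 := sub_mem h3 hzw
      rwa [sub_sub_cancel] at h4
    · have h4 := add_mem hzw h3
      rwa [sub_add_cancel] at h4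
    · have hP : L.weierstrassP z = L.weierstrassP w := by
        have h4 := L.weierstrassP_add_coe w ⟨z - w, hzw⟩
        simpa using h4
      have hP' : L.derivWeierstrassP z = L.derivWeierstrassP w := by
        have h4 := L.derivWeierstrassP_add_coe w ⟨z - w, hzw⟩
        simpa using h4
      refine ⟨?_, ?_, ?_⟩
      · unfold xnE
        rw [hP]
      · unfold yy
        rw [hP']
      · unfold xnE
        rw [L.weierstrassP_neg]

end

end Pool.Agent.MEE
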