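import Pool.Agent.ME.StE3
import Pool.Agent.ME.X_TRA
import Pool.Agent.ME.X_TRB
import Pool.Agent.ME.X_FAC
import Pool.Agent.ME.X_GTH
import Pool.Agent.ME.X_PT
import Pool.Agent.ME.X_GAL

/-!
# MUX-NS, block ER: (BPW) the powers of `b` (helper39)
-/

set_option autoImplicit false

namespace Pool.Agent.ME3

open _root_.MU3 Pool.Agent.MU3A Pool.Agent.MU3B Pool.Agent.MUX Pool.Agent.MUXU Pool.Agent.MUXE
open Pool.Agent.RI Pool.Agent.NS Pool.Agent.NSRD
open Pool.Agent.ME hiding ActE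
open Pool.Agent.MEE
open Pool.Agent.NSER (PtsR Ex Sf_ALG Sf_PRO Sf_PUL Sf_COE Sf_GRN Sf_LEG Sf_TW3 Sf_PTS Sf_TNC Sf_UNT Sf_RAT Sf_ISO Sf_ADD Sf_THN Sf_NE1 Sf_ORB)

namespace BPW

lemma cancel {R : Type} [CommRing R] {P : Ideal R} (hP : P.IsMaximal) {y t : R} (hy : y ∈ P)
    (ht : t ∉ P) (h : y * t ∈ P * P) : y ∈ P * P := by
  obtain ⟨t', p, hp, h1⟩ := hP.exists_inv ht
  have h2 : y = y * t * t' + y * p := by
    calc y = y * 1 := by ring
      _ = y * (t' * t + p) := by rw [h1]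
      _ = _ := by ring
  rw [h2]
  exact (P * P).add_mem ((P * P).mul_mem_right _ h) (Ideal.mul_mem_mul hy hp)

lemma one_add_pow {R : Type} [CommRing R] (X : R) (l : ℕ) :
    ∃ s : R, (1 + X) ^ l = 1 + X * (l + X * s) := by
  induction l with
  | zero => exact ⟨0, by simp⟩
  | succ l ih =>
    obtain ⟨s, hs⟩ := ih
    refine ⟨s + l + X * s, ?_⟩
    rw [pow_succ, hs]
    push_cast
    ring

lemma nm_add_mul {A B : ℤ} (x t : OO A B) (m : ℕ) :
    ∃ r : ℤ, nm (x + (m : OO A B) * t) = nm x + m * r := by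
  refine ⟨2 * x.re * t.re + m * t.re ^ 2 + B * (x.re * t.im + t.re * x.im + m * t.re * t.im) -
    A * (2 * x.im * t.im + m * t.im ^ 2), ?_⟩
  simp only [nm, QuadraticAlgebra.re_add, QuadraticAlgebra.im_add, QuadraticAlgebra.re_mul,
    QuadraticAlgebra.im_mul, QuadraticAlgebra.re_natCast, QuadraticAlgebra.im_natCast]
  ring

lemma nm_mul1 {A B : ℤ} (x y : OO A B) : nm (x * y) = nm x * nm y := by
  simp only [nm, QuadraticAlgebra.re_mul, QuadraticAlgebra.im_mul]
  ring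

end BPW

theorem t3_BPW (h : S3_IDL) : S3_BPW := by
  intro A B P V hc f n b hf hb
  obtain ⟨h3P, -, -, hnP, hI⟩ := h A B P V hc
  have hmax := hc.max
  have hsq := hc.sq
  have hlv : lvX 3 f n = 3 ^ (n + 1) * f := by simp [lvX, q0]; ring
  unfold IsB at hb
  rw [hlv] at hb ⊢
  set δ : OO A B := dD A B with hδ
  set m : OO A B := ((3 ^ (n + 1) * f : ℕ) : OO A B) with hm
  set cb : OO A B := 1 - ((3 * f : ℕ) : OO A B) * δ with hcb
  -- `c̄` is prime to `m`
  have hco0 : IsCoprime cb ((3 * f : ℕ) : OO A B) := ⟨1, δ, by rw [hcb]; ring⟩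
  have hdv : m ∣ ((3 * f : ℕ) : OO A B) ^ (n + 1) := by
    refine ⟨((f ^ n : ℕ) : OO A B), ?_⟩
    rw [hm]
    push_cast
    ring
  have hco : IsCoprime cb m := (hco0.pow_right).of_isCoprime_of_dvd_right hdv
  obtain ⟨c', t', hct⟩ := hco
  rw [Ideal.mem_span_singleton] at hb
  obtain ⟨s, hs⟩ := hb
  have hmP : m ∈ P := by
    have : m = ((3 ^ n * f : ℕ) : OO A B) * 3 := by rw [hm]; push_cast; ring
    rw [this]
    exact P.mul_mem_left _ h3P
  have h1P : (1 : OO A B) ∉ P := fun h1 => hmax.ne_top ((Ideal.eq_top_iff_one P).2 h1)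
  -- `b - 1`
  have hb1 : b - 1 = ((3 * f : ℕ) : OO A B) * (δ * (2 * c')) + m * (c' * s + (b - 1) * t') := by
    have e1 : (b - 1) * cb = 2 * (((3 * f : ℕ) : OO A B) * δ) + m * s := by
      have : b * cb = 1 + ((3 * f : ℕ) : OO A B) * δ + m * s := by
        linear_combination hs
      rw [sub_mul, this, hcb]; ring
    calc b - 1 = (b - 1) * (c' * cb + t' * m) := by rw [hct, mul_one]
      _ = c' * ((b - 1) * cb) + (b - 1) * (t' * m) := by ring
      _ = _ := by rw [e1]; ring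
  have hc'P : c' ∉ P := by
    intro h1
    apply h1P
    rw [← hct]
    exact P.add_mem (P.mul_mem_right _ h1) (P.mul_mem_left _ hmP)
  have h2P : (2 : OO A B) ∉ P := by
    intro h1
    apply h1P
    have : (1 : OO A B) = 3 - 2 := by norm_num
    rw [this]
    exact P.sub_mem h3P h1
  have h2c : (2 * c' : OO A B) ∉ P := by
    intro h1
    rcases hmax.isPrime.mem_or_mem h1 with h2 | h2
    · exact h2P h2
    · exact hc'P h2
  have hδPP : δ ∉ P * P := by
    rw [hsq, Ideal.mem_span_singleton]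
    rintro ⟨z, hz⟩
    have h1 := congrArg QuadraticAlgebra.im hz
    rw [hδ] at h1
    simp only [dD, QuadraticAlgebra.im_mul, QuadraticAlgebra.re_natCast,
      QuadraticAlgebra.im_natCast] at h1
    push_cast at h1
    omega
  have hδP : δ ∈ P := hc.dP
  have hy1 : δ * (2 * c') ∈ P := P.mul_mem_right _ hδP
  have hy1' : δ * (2 * c') ∉ P * P := fun h1 => hδPP (BPW.cancel hmax hδP h2c h1)
  -- the powers `b ^ (3 ^ j)`
  have hpw : ∀ j : ℕ, ∃ y ∈ P, y ∉ P * P ∧
      ∃ r, b ^ (3 ^ j) = 1 + ((3 ^ (j + 1) * f : ℕ) : OO A B) * y + m * r := by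
    intro j
    induction j with
    | zero =>
      refine ⟨δ * (2 * c'), hy1, hy1', c' * s + (b - 1) * t', ?_⟩
      have : b = 1 + (b - 1) := by ring
      rw [pow_zero, pow_one, zero_add, pow_one]
      linear_combination hb1
    | succ j ih =>
      obtain ⟨y, hy, hy', r, hr⟩ := ih
      set X : OO A B := ((3 ^ (j + 1) * f : ℕ) : OO A B) * y with hX
      have hXP : X ∈ P := P.mul_mem_left _ hy
      have ht : (1 + (X + ((3 ^ j * f : ℕ) : OO A B) * y * X) : OO A B) ∉ P := by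
        intro h1
        apply h1P
        have := P.sub_mem h1 (P.add_mem hXP (P.mul_mem_left (((3 ^ j * f : ℕ) : OO A B) * y) hXP))
        simpa using this
      refine ⟨y * (1 + (X + ((3 ^ j * f : ℕ) : OO A B) * y * X)), P.mul_mem_right _ hy,
        fun h1 => hy' (BPW.cancel hmax hy ht h1),
        3 * (1 + X) ^ 2 * r + 3 * (1 + X) * m * r ^ 2 + m ^ 2 * r ^ 3, ?_⟩
      have e1 : b ^ (3 ^ (j + 1)) = (b ^ (3 ^ j)) ^ 3 := by rw [← pow_mul, pow_succ]
      rw [e1, hr, hX]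
      push_cast
      ring
  have hcong : ∀ u v : OO A B, (∃ r, u = v + m * r) → ∀ l : ℕ, ∃ r, u ^ l = v ^ l + m * r := by
    rintro u v ⟨r, rfl⟩ l
    obtain ⟨w, hw⟩ := sub_dvd_pow_sub_pow (v + m * r) v l
    refine ⟨r * w, ?_⟩
    linear_combination hw
  refine ⟨?_, ?_, ?_, ?_, ?_⟩
  · -- (1)
    have h1 : IsCoprime (1 + ((3 * f : ℕ) : OO A B) * δ) m :=
      (IsCoprime.pow_right (n := n + 1) (⟨1, -δ, by ring⟩ :
        IsCoprime (1 + ((3 * f : ℕ) : OO A B) * δ) ((3 * f : ℕ) : OO A B))).of_isCoprime_of_dvd_right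
        hdv
    have h2 : b * cb = 1 + ((3 * f : ℕ) : OO A B) * δ + m * s := by linear_combination hs
    have h3 : IsCoprime (b * cb) m := by
      rw [h2]
      exact h1.add_mul_left_left s
    exact h3.of_mul_left_left
  · -- (2)
    intro l j hl hl' _
    obtain ⟨k, rfl⟩ := hl
    have hk : ¬ 3 ∣ k := by
      rintro ⟨k', rfl⟩
      exact hl' ⟨k', by ring⟩
    obtain ⟨y, hy, hy', r, hr⟩ := hpw j
    obtain ⟨r', hr'⟩ := hcong _ _ ⟨r, hr⟩ k
    set X : OO A B := ((3 ^ (j + 1) * f : ℕ) : OO A B) * y with hX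
    have hXP : X ∈ P := P.mul_mem_left _ hy
    obtain ⟨w, hw⟩ := BPW.one_add_pow X k
    have ht : (k + X * w : OO A B) ∉ P := by
      intro h1
      have h2 := P.sub_mem h1 (P.mul_mem_right w hXP)
      rw [add_sub_cancel_right] at h2
      exact hk ((hnP k).1 h2)
    refine ⟨y * (k + X * w), P.mul_mem_right _ hy, fun h1 => hy' (BPW.cancel hmax hy ht h1), ?_⟩
    rw [Ideal.mem_span_singleton]
    refine ⟨r', ?_⟩
    rw [pow_mul, hr', hw, hX]
    ring
  · -- (3)
    obtain ⟨y, -, -, r, hr⟩ := hpw n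
    rw [Ideal.mem_span_singleton]
    refine ⟨y + r, ?_⟩
    rw [hr]
    ring
  · -- (4)
    have h2 : b * cb = 1 + ((3 * f : ℕ) : OO A B) * δ + m * s := by linear_combination hs
    obtain ⟨r, hr⟩ := BPW.nm_add_mul (1 + ((3 * f : ℕ) : OO A B) * δ) s (3 ^ (n + 1) * f)
    have h3 : nm (b * cb) = nm (1 + ((3 * f : ℕ) : OO A B) * δ) + (3 ^ (n + 1) * f : ℕ) * r := by
      rw [h2, hm]; exact hr
    rw [BPW.nm_mul1] at h3
    have e1 : nm (1 + ((3 * f : ℕ) : OO A B) * δ) = 1 - 9 * (f : ℤ) ^ 2 * (B ^ 2 + 4 * A) := by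
      simp only [hδ, dD, nm, QuadraticAlgebra.re_add, QuadraticAlgebra.im_add,
        QuadraticAlgebra.re_mul, QuadraticAlgebra.im_mul, QuadraticAlgebra.re_natCast,
        QuadraticAlgebra.im_natCast, QuadraticAlgebra.re_one, QuadraticAlgebra.im_one]
      push_cast
      ring
    have e2 : nm cb = 1 - 9 * (f : ℤ) ^ 2 * (B ^ 2 + 4 * A) := by
      simp only [hcb, hδ, dD, nm, QuadraticAlgebra.re_sub, QuadraticAlgebra.im_sub,
        QuadraticAlgebra.re_mul, QuadraticAlgebra.im_mul, QuadraticAlgebra.re_natCast,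
        QuadraticAlgebra.im_natCast, QuadraticAlgebra.re_one, QuadraticAlgebra.im_one]
      push_cast
      ring
    rw [e1, e2] at h3
    set q : ℤ := 1 - 9 * (f : ℤ) ^ 2 * (B ^ 2 + 4 * A) with hq
    have h4 : q * (nm b - 1) = 3 ^ (n + 1) * (f * r) := by
      push_cast at h3
      linear_combination h3
    have h5 : IsCoprime ((3 : ℤ) ^ (n + 1)) q := by
      apply IsCoprime.pow_left
      exact ⟨3 * (f : ℤ) ^ 2 * (B ^ 2 + 4 * A), 1, by rw [hq]; ring⟩
    exact h5.dvd_of_dvd_mul_left ⟨f * r, h4⟩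
  · -- (5)
    intro hn l
    have h6 : b - 1 ∈ lvR P f 1 := by
      rw [(hI f 1 hf).1]
      refine ⟨δ * (2 * c') + 3 ^ n * (c' * s + (b - 1) * t'), P.add_mem hy1 ?_, ?_⟩
      · obtain ⟨k, rfl⟩ : ∃ k, n = k + 1 := ⟨n - 1, by omega⟩
        rw [pow_succ, mul_assoc]
        exact P.mul_mem_left _ (P.mul_mem_right _ h3P)
      · have := hb1
        rw [hm] at this
        push_cast at this ⊢
        linear_combination this
    obtain ⟨w, hw⟩ := sub_dvd_pow_sub_pow b 1 l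
    rw [one_pow] at hw
    rw [hw]
    exact Ideal.mul_mem_right _ _ h6

end Pool.Agent.ME3
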