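import Pool.Agent.ME.StE3
import Pool.Agent.ME.X_TRA
import Pool.Agent.ME.X_TRB
import Pool.Agent.ME.X_FAC
import Pool.Agent.ME.X_GTH
import Pool.Agent.ME.X_PT
import Pool.Agent.ME.X_GAL

/-!
# MUX-NS, block ER, module CTX: from the standing hypotheses to `CtxR3`
-/

set_option autoImplicit false

open Polynomial

namespace Pool.Agent.ME3

open _root_.MU3 Pool.Agent.MU3A Pool.Agent.MU3B Pool.Agent.MUX Pool.Agent.MUXU Pool.Agent.MUXE
open Pool.Agent.RI Pool.Agent.NS Pool.Agent.NSRD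
open Pool.Agent.ME hiding ActE
open Pool.Agent.MEE
open Pool.Agent.NSER (PtsR Ex Sf_ALG Sf_PRO Sf_PUL Sf_COE Sf_GRN Sf_LEG Sf_TW3 Sf_PTS Sf_TNC Sf_UNT Sf_RAT Sf_ISO Sf_ADD Sf_THN Sf_NE1 Sf_ORB)
open Pool.Agent.MUXV (GR InK tX)
open Pool.Agent.NSE (E3 su ru WL IntP Rep)

noncomputable section

namespace CtxRaux

variable {A B : ℤ} {P : Ideal (OO A B)}

/-- the trace -/
def tr (x : OO A B) : ℤ := 2 * x.re + B * x.im

lemma two_mul_eq (x : OO A B) :
    2 * x = ((tr x : ℤ) : OO A B) + ((x.im : ℤ) : OO A B) * dD A B := by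
  apply QuadraticAlgebra.ext
  · simp only [QuadraticAlgebra.re_mul, QuadraticAlgebra.re_add, QuadraticAlgebra.re_intCast,
      QuadraticAlgebra.im_intCast, QuadraticAlgebra.re_ofNat, QuadraticAlgebra.im_ofNat, tr, dD,
      Int.cast_id]
    ring
  · simp only [QuadraticAlgebra.im_mul, QuadraticAlgebra.im_add, QuadraticAlgebra.re_intCast,
      QuadraticAlgebra.im_intCast, QuadraticAlgebra.re_ofNat, QuadraticAlgebra.im_ofNat, tr, dD,
      Int.cast_id]
    ring

lemma dD_sq : dD A B * dD A B = ((B ^ 2 + 4 * A : ℤ) : OO A B) := by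
  apply QuadraticAlgebra.ext
  · simp only [QuadraticAlgebra.re_mul, QuadraticAlgebra.re_intCast, dD, Int.cast_id]
    ring
  · simp only [QuadraticAlgebra.im_mul, QuadraticAlgebra.im_intCast, dD]
    ring

lemma int_mem (h1 : (1 : OO A B) ∉ P) (h3 : (3 : OO A B) ∈ P) (n : ℤ) :
    ((n : ℤ) : OO A B) ∈ P ↔ (3 : ℤ) ∣ n := by
  constructor
  · intro hn
    by_contra hnd
    obtain ⟨a, b, hab⟩ := (Int.prime_three.coprime_iff_not_dvd).2 hnd
    apply h1
    have h4 := congrArg (Int.cast : ℤ → OO A B) hab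
    push_cast at h4
    rw [← h4]
    exact P.add_mem (P.mul_mem_left _ h3) (P.mul_mem_left _ hn)
  · rintro ⟨k, rfl⟩
    push_cast
    exact P.mul_mem_right _ h3

lemma mem_iff (h1 : (1 : OO A B) ∉ P) (h3 : (3 : OO A B) ∈ P) (hd : dD A B ∈ P) (x : OO A B) :
    x ∈ P ↔ (3 : ℤ) ∣ tr x := by
  rw [← int_mem h1 h3]
  have h2 := two_mul_eq x
  constructor
  · intro hx
    have h4 : ((tr x : ℤ) : OO A B) = 2 * x - ((x.im : ℤ) : OO A B) * dD A B := by
      rw [h2]
      ring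
    rw [h4]
    exact P.sub_mem (P.mul_mem_left _ hx) (P.mul_mem_left _ hd)
  · intro hx
    have h4 : x = 3 * x - (((tr x : ℤ) : OO A B) + ((x.im : ℤ) : OO A B) * dD A B) := by
      rw [← h2]
      ring
    rw [h4]
    exact P.sub_mem (P.mul_mem_right _ h3) (P.add_mem hx (P.mul_mem_left _ hd))

lemma disc (h : CQ A B) (h3 : (3 : ℤ) ∣ B ^ 2 + 4 * A) :
    ∃ D : ℤ, B ^ 2 + 4 * A = 3 * D ∧ ¬ (3 : ℤ) ∣ D := by
  obtain ⟨D, hD⟩ := h3
  refine ⟨D, hD, ?_⟩
  rintro ⟨c, hc⟩
  have hu : ¬ IsUnit (3 : ℤ) := by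
    rw [Int.isUnit_iff]
    norm_num
  rcases h.hB with hB | hB
  · subst hB
    have h5 : (9 : ℤ) ∣ A := by omega
    obtain ⟨k, hk⟩ := h5
    exact hu ((h.fund0 rfl).1 3 ⟨k, by rw [hk]; ring⟩)
  · subst hB
    exact hu (h.fund1 rfl 3 ⟨c, by linarith⟩)

lemma three_ne_zero' : (3 : OO A B) ≠ 0 := by
  intro h
  have h1 := congrArg QuadraticAlgebra.re h
  simp only [QuadraticAlgebra.re_ofNat, QuadraticAlgebra.re_zero] at h1
  norm_num at h1

lemma sq_le (h3 : ∀ x ∈ P, (3 : ℤ) ∣ tr x) {D : ℤ} (hD : B ^ 2 + 4 * A = 3 * D) {x y : OO A B}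
    (hx : x ∈ P) (hy : y ∈ P) : x * y ∈ idl (A := A) (B := B) 3 := by
  obtain ⟨a, ha⟩ := h3 x hx
  obtain ⟨b, hb⟩ := h3 y hy
  have h1 := two_mul_eq x
  have h2 := two_mul_eq y
  have h4 : dD A B * dD A B = 3 * ((D : ℤ) : OO A B) := by
    rw [dD_sq, hD]
    push_cast
    rfl
  rw [ha] at h1
  rw [hb] at h2
  push_cast at h1 h2
  rw [Ideal.mem_span_singleton]
  refine ⟨3 * (a : OO A B) * b + (x.im : OO A B) * (y.im : OO A B) * (D : OO A B) +
    ((a : OO A B) * (y.im : OO A B) + (b : OO A B) * (x.im : OO A B)) * dD A B - x * y, ?_⟩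
  push_cast
  linear_combination (2 * y) * h1 + (3 * (a : OO A B) + (x.im : OO A B) * dD A B) * h2 +
    (x.im : OO A B) * (y.im : OO A B) * h4

end CtxRaux

open CtxRaux Pool.Agent.NSR.ALRaux in
/-- (CTX) from the standing hypotheses to `CtxR3` -/
theorem t3_CTX : S3_CTX := by
  intro A B P V hC hB hP hV hT hF
  obtain ⟨hF1, hF2⟩ := hF A B P V hC hB hP hV hT
  have hthree : (3 : ℤ) ∣ B ^ 2 + 4 * A := by
    rw [hC.hA, hB]
    norm_num
  have h := hC.toCQ
  have h3P : (3 : OO A B) ∈ P := by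
    have := hP.mem
    rwa [Nat.cast_ofNat] at this
  have h1P : (1 : OO A B) ∉ P := fun h1 => hP.prime.ne_top ((Ideal.eq_top_iff_one P).2 h1)
  have hv3 : V.valuation (3 : ℂ) < 1 := by
    have h1 := (hV ((3 : ℕ) : OO A B)).2 hP.mem
    rw [ValuationSubring.mem_nonunits_iff, MUX.emb_natCast h] at h1
    simpa using h1
  obtain ⟨D, hD, hD3⟩ := disc h hthree
  have hdP : dD A B ∈ P := by
    have h1 : dD A B * dD A B ∈ P := by
      rw [dD_sq, int_mem h1P h3P]
      exact hthree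
    rcases hP.prime.mem_or_mem h1 with h2 | h2 <;> exact h2
  have hmem := mem_iff (P := P) h1P h3P hdP
  have hunit : ∀ x : OO A B, x ∉ P → V.valuation (emb x) = 1 := fun x hx =>
    le_antisymm (v_emb h V x) (not_lt.1 fun h1 =>
      hx ((hV x).1 ((ValuationSubring.mem_nonunits_iff V).2 h1)))
  have hpm : ∀ x : OO A B, x ∉ P → x - 1 ∈ P ∨ x + 1 ∈ P := by
    intro x hx
    rw [hmem] at hx ⊢
    rw [hmem]
    have e1 : tr (x - 1) = tr x - 2 := by
      unfold tr
      rw [QuadraticAlgebra.re_sub, QuadraticAlgebra.im_sub, QuadraticAlgebra.re_one,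
        QuadraticAlgebra.im_one]
      ring
    have e2 : tr (x + 1) = tr x + 2 := by
      unfold tr
      rw [QuadraticAlgebra.re_add, QuadraticAlgebra.im_add, QuadraticAlgebra.re_one,
        QuadraticAlgebra.im_one]
      ring
    rw [e1, e2]
    omega
  have hsub : ∀ x ∈ P, ∀ y ∈ P, x * y ∈ idl (A := A) (B := B) 3 := fun x hx y hy =>
    sq_le (fun x hx => (hmem x).1 hx) hD hx hy
  have hsq : P * P = idl (A := A) (B := B) 3 := by
    refine le_antisymm (Ideal.mul_le.2 hsub) ?_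
    rw [Ideal.span_singleton_le_iff_mem, Nat.cast_ofNat]
    have h9 : (3 : OO A B) * 3 ∈ P * P := Ideal.mul_mem_mul h3P h3P
    have hdd : dD A B * dD A B ∈ P * P := Ideal.mul_mem_mul hdP hdP
    obtain ⟨a, b, hab⟩ := (Int.prime_three.coprime_iff_not_dvd).2 hD3
    have h4 := congrArg (Int.cast : ℤ → OO A B) hab
    have h5 : dD A B * dD A B = 3 * ((D : ℤ) : OO A B) := by
      rw [dD_sq, hD]
      push_cast
      rfl
    push_cast at h4
    have h6 : (3 : OO A B) = (a : OO A B) * (3 * 3) + (b : OO A B) * (dD A B * dD A B) := by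
      linear_combination (-3 : OO A B) * h4 - (b : OO A B) * h5
    rw [h6]
    exact Ideal.add_mem _ (Ideal.mul_mem_left _ _ h9) (Ideal.mul_mem_left _ _ hdd)
  have hmul : ∀ x y : OO A B, V.valuation (emb (x * y)) =
      V.valuation (emb x) * V.valuation (emb y) := fun x y => by
    rw [MUX.emb_mul h, map_mul]
  have hidl : ∀ x ∈ idl (A := A) (B := B) 3, V.valuation (emb x) ≤ V.valuation (3 : ℂ) := by
    intro x hx
    obtain ⟨y, rfl⟩ := Ideal.mem_span_singleton.1 hx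
    rw [hmul, MUX.emb_natCast h, Nat.cast_ofNat]
    exact mul_le_of_le_one_right' (v_emb h V y)
  refine
    { case := hC
      ring := te_RNG A B h
      cq := h
      v3 := hv3
      int := v_emb h V
      unit := hunit
      vP := ?_
      nat := ?_
      max := ?_
      nP := hP.norm
      sq := hsq
      nrm := ?_
      pm := hpm
      dP := hdP
      vd := ?_
      good := ?_
      iner := hF2
      exq := ?_ }
  · intro x hx
    rw [sq, ← hmul]
    exact hidl _ (hsub x hx x hx)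
  · intro n hn
    have := v_int_unit (V := V) hv3 (n := (n : ℤ)) (by omega)
    simpa using this
  · rw [Ideal.isMaximal_iff]
    refine ⟨h1P, ?_⟩
    intro J x hJ hx hxJ
    rcases hpm x hx with h2 | h2
    · have h4 : (1 : OO A B) = x - (x - 1) := by ring
      rw [h4]
      exact J.sub_mem hxJ (hJ h2)
    · have h4 : (1 : OO A B) = (x + 1) - x := by ring
      rw [h4]
      exact J.sub_mem (hJ h2) hxJ
  · intro x hx h1
    apply hx
    rw [hmem]
    have h2 := RNGaux.four_nm x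
    have h4 : tr x ^ 2 = 4 * nm x + 3 * (D * x.im ^ 2) := by
      unfold tr
      rw [h2]
      unfold absD
      rw [← mul_assoc, ← hD]
      ring
    exact Int.prime_three.dvd_of_dvd_pow (n := 2) (by
      rw [h4]
      exact dvd_add (h1.mul_left _) (dvd_mul_right _ _))
  · rw [sq, ← hmul, dD_sq, MUX.emb_intCast h, hD]
    push_cast
    rw [map_mul, v_int_unit hv3 hD3, mul_one]
  · rintro L ⟨b, om, hL⟩
    obtain ⟨u, e, lam, h1, -⟩ := hF1 b L om hL
    exact ⟨u, e, lam, h1⟩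
  · rintro L ⟨b, om, hL⟩
    have hPb : P ≠ ⊥ := by
      rintro rfl
      exact three_ne_zero' (Ideal.mem_bot.1 h3P)
    obtain ⟨σ, -, hσ⟩ := hT.surj ⊤ (by
      intro h0
      have h4 : (3 : OO A B) ∈ (⊤ : Ideal (OO A B)) := Submodule.mem_top
      rw [h0] at h4
      exact three_ne_zero' (Ideal.mem_bot.1 h4)) P hPb (Ideal.isCoprime_iff_sup_eq.2 (sup_top_eq _))
    obtain ⟨b', L', om', mu, hL', hact⟩ := hσ b L om hL
    exact ⟨L', mu, ⟨b', om', hL'⟩, hact.isq⟩

end

end Pool.Agent.ME3
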