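import Pool.Agent.ME.StE3
import Pool.Agent.ME.X_TRA
import Pool.Agent.ME.X_TRB
import Pool.Agent.ME.X_FAC
import Pool.Agent.ME.X_GTH
import Pool.Agent.ME.X_PT
import Pool.Agent.ME.X_GAL

/-!
# MUX-NS, block ER: module DIS, the distribution relation for `L → N = ν P⁻¹ L` (helper84)
-/

set_option autoImplicit false

namespace Pool.Agent.ME3

open _root_.MU3 Pool.Agent.MU3A Pool.Agent.MU3B Pool.Agent.MUX Pool.Agent.MUXU Pool.Agent.MUXE
open Pool.Agent.RI Pool.Agent.NS Pool.Agent.NSRD
open Pool.Agent.ME hiding ActE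
open Pool.Agent.MEE
open Pool.Agent.NSER (PtsR Ex Sf_ALG Sf_PRO Sf_PUL Sf_COE Sf_GRN Sf_LEG Sf_TW3 Sf_PTS Sf_TNC Sf_UNT Sf_RAT Sf_ISO Sf_ADD Sf_THN Sf_NE1 Sf_ORB)

noncomputable section

namespace DIS84

/-- the facts on `L`, `N`, `ν` which are used -/
structure Fa (L N : PeriodPair) (nu : ℂ) : Prop where
  ne : nu ≠ 0
  isg : ∀ w ∈ L.lattice, nu * w ∈ N.lattice
  three : ∀ w, nu * w ∈ N.lattice → 3 * w ∈ L.lattice

theorem nat_mul {M : PeriodPair} (k : ℕ) {w : ℂ} (h : w ∈ M.lattice) :
    (k : ℂ) * w ∈ M.lattice := by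
  have := nsmul_mem h k
  rwa [nsmul_eq_mul] at this

theorem int_mul {M : PeriodPair} (k : ℤ) {w : ℂ} (h : w ∈ M.lattice) :
    (k : ℂ) * w ∈ M.lattice := by
  have := zsmul_mem h k
  rwa [zsmul_eq_mul] at this

theorem cop_mem {M : PeriodPair} {a : ℕ} (ha : ¬ 3 ∣ a) {w : ℂ} (h3 : 3 * w ∈ M.lattice)
    (h : (a : ℂ) * w ∈ M.lattice) : w ∈ M.lattice := by
  have h1 : Nat.Coprime 3 a := (Nat.Prime.coprime_iff_not_dvd (by norm_num)).2 ha
  obtain ⟨u, v, huv⟩ := Nat.isCoprime_iff_coprime.2 h1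
  have h2 : w = (u : ℂ) * (3 * w) + (v : ℂ) * ((a : ℂ) * w) := by
    have h4 : (u : ℂ) * 3 + v * a = 1 := by exact_mod_cast huv
    linear_combination (-w) * h4
  rw [h2]
  exact add_mem (int_mul u h3) (int_mul v h)

/-- the half system `ν H` -/
theorem half {L N : PeriodPair} {nu : ℂ} (hF : Fa L N nu) {a : ℕ} (ha : ¬ 3 ∣ a) {H : Finset ℂ}
    (hH : IsHalf L (a : ℂ) H) : IsHalf N (a : ℂ) (H.image fun h => nu * h) := by
  have key : ∀ w, (a : ℂ) * w ∈ L.lattice → nu * w ∈ N.lattice → w ∈ L.lattice := by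
    intro w hw hn
    exact cop_mem ha (hF.three w hn) hw
  refine ⟨?_, ?_, ?_, ?_, ?_⟩
  · intro q hq
    obtain ⟨h, hh, rfl⟩ := Finset.mem_image.1 hq
    have := hF.isg _ (hH.mem h hh)
    rw [mul_left_comm]
    exact this
  · intro q hq h2
    obtain ⟨h, hh, rfl⟩ := Finset.mem_image.1 hq
    refine hH.ne h hh (key _ ?_ ?_)
    · rw [mul_left_comm]
      have := nat_mul (M := L) 2 (hH.mem h hh)
      exact_mod_cast this
    · rw [mul_left_comm]
      exact h2
  · intro q hq q' hq' h2
    obtain ⟨h, hh, rfl⟩ := Finset.mem_image.1 hq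
    obtain ⟨h', hh', rfl⟩ := Finset.mem_image.1 hq'
    have : h = h' := by
      refine hH.inj h hh h' hh' (key _ ?_ ?_)
      · rw [mul_sub]; exact sub_mem (hH.mem h hh) (hH.mem h' hh')
      · rw [mul_sub]; exact h2
    rw [this]
  · intro q hq q' hq' h2
    obtain ⟨h, hh, rfl⟩ := Finset.mem_image.1 hq
    obtain ⟨h', hh', rfl⟩ := Finset.mem_image.1 hq'
    refine hH.neg h hh h' hh' (key _ ?_ ?_)
    · rw [mul_add]; exact add_mem (hH.mem h hh) (hH.mem h' hh')
    · rw [mul_add]; exact h2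
  · intro z hz hzN
    have h1 : Nat.Coprime 3 a := (Nat.Prime.coprime_iff_not_dvd (by norm_num)).2 ha
    obtain ⟨u, v, huv⟩ := Nat.isCoprime_iff_coprime.2 h1
    have h4 : (u : ℂ) * 3 + v * a = 1 := by exact_mod_cast huv
    have hne := hF.ne
    set w : ℂ := z / nu with hw
    have hzw : z = nu * w := by rw [hw]; field_simp
    have h5 : 3 * ((a : ℂ) * w) ∈ L.lattice := by
      refine hF.three _ ?_
      rw [mul_left_comm, ← hzw]
      exact hz
    have h6 : (a : ℂ) * ((u : ℂ) * (3 * w)) ∈ L.lattice := by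
      have := int_mul (M := L) u h5
      have e : (a : ℂ) * ((u : ℂ) * (3 * w)) = (u : ℂ) * (3 * ((a : ℂ) * w)) := by ring
      rw [e]; exact this
    have h7 : (v : ℂ) * ((a : ℂ) * (nu * w)) ∈ N.lattice := by
      rw [← hzw]; exact int_mul v hz
    have h8 : (u : ℂ) * (3 * w) ∉ L.lattice := by
      intro h
      refine hzN ?_
      have e : z = nu * ((u : ℂ) * (3 * w)) + (v : ℂ) * ((a : ℂ) * (nu * w)) := by
        rw [hzw]; linear_combination (-(nu * w)) * h4
      rw [e]
      exact add_mem (hF.isg _ h) h7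
    obtain ⟨h, hh, h9⟩ := hH.surj _ h6 h8
    refine ⟨nu * h, Finset.mem_image_of_mem _ hh, ?_⟩
    rcases h9 with h9 | h9
    · left
      have e : z - nu * h = nu * ((u : ℂ) * (3 * w) - h) + (v : ℂ) * ((a : ℂ) * (nu * w)) := by
        rw [hzw]; linear_combination (-(nu * w)) * h4
      rw [e]
      exact add_mem (hF.isg _ h9) h7
    · right
      have e : z + nu * h = nu * ((u : ℂ) * (3 * w) + h) + (v : ℂ) * ((a : ℂ) * (nu * w)) := by
        rw [hzw]; linear_combination (-(nu * w)) * h4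
      rw [e]
      exact add_mem (hF.isg _ h9) h7

/-- `℘` is periodic -/
theorem per {L : PeriodPair} {x y : ℂ} (h : x - y ∈ L.lattice) :
    L.weierstrassP x = L.weierstrassP y := by
  have h1 := L.weierstrassP_add_coe y ⟨x - y, h⟩
  simp only [add_sub_cancel] at h1
  exact h1

/-- the product relation -/
theorem prod_rel (hPFI : Su_PFI) {L N : PeriodPair} {nu : ℂ} (hF : Fa L N nu) {a : ℕ}
    (ha : ¬ 3 ∣ a) {H : Finset ℂ} (hH : IsHalf L (a : ℂ) H) {q : ℂ} (hq3 : 3 * q ∈ L.lattice)
    (hR : IsRpM L N nu {q, -q}) (hqq : q ≠ -q) {z : ℂ} (hz : nu * z ∉ N.lattice) :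
    (∏ l ∈ Finset.range 3, ThetaH L H (z + l * q)) =
      (∏ h ∈ H, nu ^ 2 * ((L.weierstrassP h - L.weierstrassP q) *
        (L.weierstrassP h - L.weierstrassP (-q)))) *
      ∏ h ∈ H, (N.weierstrassP (nu * z) - N.weierstrassP (nu * h)) := by
  have hhN : ∀ h ∈ H, nu * h ∉ N.lattice := by
    intro h hh hn
    refine hH.ne h hh ?_
    have h1 := cop_mem ha (hF.three h hn) (hH.mem h hh)
    have := nat_mul (M := L) 2 h1
    exact_mod_cast this
  have e2 : L.weierstrassP (z + (2 : ℕ) * q) = L.weierstrassP (z + -q) := by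
    refine per ?_
    have e : z + ((2 : ℕ) : ℂ) * q - (z + -q) = 3 * q := by push_cast; ring
    rw [e]; exact hq3
  simp only [ThetaH, Finset.prod_range_succ, Finset.prod_range_zero, one_mul]
  rw [← Finset.prod_mul_distrib, ← Finset.prod_mul_distrib, ← Finset.prod_mul_distrib]
  refine Finset.prod_congr rfl fun h hh => ?_
  have h1 := hPFI L N nu {q, -q} hF.ne hF.isg hR z hz h (hhN h hh)
  rw [Finset.prod_pair hqq, Finset.prod_pair hqq] at h1
  rw [e2]
  simp only [Nat.cast_zero, zero_mul, add_zero, Nat.cast_one, one_mul]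
  linear_combination h1

end DIS84

open DIS84 in
theorem t3_DIS (hPFI : Su_PFI) : S3_DIS := by
  intro A B P V hC L N nu hL hN hQ a H H' ha0 ha hH hH' q hTq hq
  obtain ⟨φ, hφ⟩ := hC.ring.hom
  have h3P : ((3 : ℕ) : OO A B) ∈ P := by
    have h1 : ((3 : ℕ) : OO A B) ∈ P * P := by
      rw [hC.sq]
      exact Ideal.mem_span_singleton_self _
    exact Ideal.mul_le_left h1
  have he3 : emb ((3 : ℕ) : OO A B) = 3 := by
    rw [← hφ, map_natCast]; norm_num
  have hPb : P ≠ ⊥ := by
    rintro rfl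
    have h1 : ((3 : ℕ) : OO A B) = 0 := (Submodule.mem_bot _).1 h3P
    rw [h1] at he3
    have h2 : emb (0 : OO A B) = 0 := by rw [← hφ, map_zero]
    rw [h2] at he3
    norm_num at he3
  have hOL : ∀ (x : OO A B), ∀ w ∈ L.lattice, emb x * w ∈ L.lattice := by
    obtain ⟨b, om, hb⟩ := hL
    intro x w hw
    obtain ⟨y, hy, rfl⟩ := (hb.mem w).1 hw
    refine (hb.mem _).2 ⟨x * y, b.mul_mem_left x hy, ?_⟩
    rw [← hφ (x * y), map_mul, hφ, hφ]; ring
  have hF : Fa L N nu := by
    refine ⟨hQ.1, ?_, ?_⟩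
    · intro w hw
      exact (hQ.2 w).2 fun x _ => hOL x w hw
    · intro w hw
      have := (hQ.2 w).1 hw _ h3P
      rwa [he3] at this
  have hqN : nu * q ∈ N.lattice := (hQ.2 q).2 hTq
  have hq3 : 3 * q ∈ L.lattice := hF.three q hqN
  have h2q : 2 * q ∉ L.lattice := by
    intro h
    refine hq ?_
    have e : q = 3 * q - 2 * q := by ring
    rw [e]; exact sub_mem hq3 h
  have hqq : q ≠ -q := by
    intro h
    refine h2q ?_
    have e : 2 * q = 0 := by linear_combination h
    rw [e]; exact zero_mem _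
  have hR : IsRpM L N nu {q, -q} := by
    refine ⟨?_, ?_, ?_, ?_⟩
    · intro r hr
      rcases Finset.mem_insert.1 hr with rfl | hr
      · exact hqN
      · rw [Finset.mem_singleton.1 hr, mul_neg]
        exact neg_mem hqN
    · intro r hr
      rcases Finset.mem_insert.1 hr with rfl | hr
      · exact hq
      · rw [Finset.mem_singleton.1 hr]
        intro h
        exact hq (neg_mem_iff.1 h)
    · intro r hr r' hr' h
      rcases Finset.mem_insert.1 hr with rfl | hr
      · rcases Finset.mem_insert.1 hr' with rfl | hr'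
        · rfl
        · rw [Finset.mem_singleton.1 hr'] at h
          exfalso; refine h2q ?_
          have e : 2 * r = r - -r := by ring
          rw [e]; exact h
      · rw [Finset.mem_singleton.1 hr] at h ⊢
        rcases Finset.mem_insert.1 hr' with rfl | hr'
        · exfalso; refine h2q ?_
          have e : 2 * r' = -(-r' - r') := by ring
          rw [e]; exact neg_mem h
        · rw [Finset.mem_singleton.1 hr']
    · intro z hz hzL
      have hTz : Tor P L z := (hQ.2 z).1 hz
      obtain ⟨x, hx⟩ := (Pool.Agent.MEE.tm_TRB A B hC.ring L hL).2 P hPb hC.max q z hTq hTz hq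
      have hxP : x ∉ P := by
        intro h
        refine hzL ?_
        have e : z = z - emb x * q + emb x * q := by ring
        rw [e]; exact add_mem hx (hTq x h)
      rcases hC.pm x hxP with h | h
      · refine ⟨q, by simp, ?_⟩
        have h1 := hTq _ h
        have e1 : emb (x - 1) = emb x - 1 := by
          rw [← hφ, map_sub, map_one, hφ]
        rw [e1] at h1
        have e : z - q = z - emb x * q + (emb x - 1) * q := by ring
        rw [e]; exact add_mem hx h1
      · refine ⟨-q, by simp, ?_⟩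
        have h1 := hTq _ h
        have e1 : emb (x + 1) = emb x + 1 := by
          rw [← hφ, map_add, map_one, hφ]
        rw [e1] at h1
        have e : z - -q = z - emb x * q + (emb x + 1) * q := by ring
        rw [e]; exact add_mem hx h1
  have hH'' := half hF ha hH
  set C : ℂ := ∏ h ∈ H, nu ^ 2 * ((L.weierstrassP h - L.weierstrassP q) *
        (L.weierstrassP h - L.weierstrassP (-q))) with hCdef
  have hhN : ∀ h ∈ H, nu * h ∉ N.lattice := by
    intro h hh hn
    refine hH.ne h hh ?_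
    have h1 := cop_mem ha (hF.three h hn) (hH.mem h hh)
    have := nat_mul (M := L) 2 h1
    exact_mod_cast this
  have hC0 : C ≠ 0 := by
    rw [hCdef, Finset.prod_ne_zero_iff]
    intro h hh
    have hhL : h ∉ L.lattice := fun h1 => hhN h hh (hF.isg h h1)
    have key : ∀ r : ℂ, r ∉ L.lattice → nu * r ∈ N.lattice →
        L.weierstrassP h - L.weierstrassP r ≠ 0 := by
      intro r hr hrN h0
      rcases b_NEQ L r h hr hhL (sub_eq_zero.1 h0) with h1 | h1
      · refine hhN h hh ?_
        have e : nu * h = nu * (h - r) + nu * r := by ring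
        rw [e]; exact add_mem (hF.isg _ h1) hrN
      · refine hhN h hh ?_
        have e : nu * h = nu * (h + r) - nu * r := by ring
        rw [e]; exact sub_mem (hF.isg _ h1) hrN
    refine mul_ne_zero (pow_ne_zero 2 hF.ne) (mul_ne_zero (key q hq hqN) (key (-q) ?_ ?_))
    · intro h; exact hq (neg_mem_iff.1 h)
    · rw [mul_neg]; exact neg_mem hqN
  have hprod : ∀ z : ℂ, (a : ℂ) * (nu * z) ∉ N.lattice →
      (∏ l ∈ Finset.range 3, ThetaH L H (z + l * q)) = C * ThetaH N H' (nu * z) := by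
    intro z hz
    have hz1 : nu * z ∉ N.lattice := fun h => hz (nat_mul a h)
    rw [prod_rel hPFI hF ha hH hq3 hR hqq hz1, ← hCdef,
      ← (b_TIN N a _ _ hH'' hH').1 (nu * z)]
    congr 1
    rw [ThetaH, Finset.prod_image fun x _ y _ h => mul_left_cancel₀ hF.ne h]
  refine ⟨C, hC0, fun z hz => ⟨hprod z hz, ?_⟩⟩
  have ha0' : (a : ℂ) ≠ 0 := by exact_mod_cast ha0
  have hna : ((‖(a : ℂ)‖ ^ 2 : ℝ) : ℂ) = (a : ℂ) ^ 2 := by
    rw [Complex.norm_natCast]; push_cast; ring
  -- derivatives of the left side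
  have hzl : ∀ l : ℕ, (a : ℂ) * (z + l * q) ∉ L.lattice := by
    intro l h
    refine hz ?_
    have h1 := hF.isg _ h
    have h2 : (a : ℂ) * (l * (nu * q)) ∈ N.lattice := nat_mul a (nat_mul l hqN)
    have e : (a : ℂ) * (nu * z) = nu * (a * (z + l * q)) - a * (l * (nu * q)) := by ring
    rw [e]; exact sub_mem h1 h2
  have d1 : ∀ l : ℕ, HasDerivAt (fun x => ThetaH L H (x + l * q))
      (dlX L a (z + l * q) * ThetaH L H (z + l * q)) z := by
    intro l
    have h1 := (b_TDL L a H ha0' (fun w hw => nat_mul a hw) hH (z + l * q) (hzl l)).2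
    rw [hna] at h1
    exact h1.comp_add_const z _
  have d2 : HasDerivAt (fun x => ThetaH N H' (nu * x))
      (nu * dlX N a (nu * z) * ThetaH N H' (nu * z)) z := by
    have h1 := (b_TDL N a H' ha0' (fun w hw => nat_mul a hw) hH' (nu * z) hz).2
    rw [hna] at h1
    have h2 : HasDerivAt (fun x : ℂ => nu * x) nu z := by
      simpa using (hasDerivAt_id z).const_mul nu
    refine (HasDerivAt.comp z h1 h2).congr_deriv ?_
    unfold dlX; ring
  have d3 : HasDerivAt (fun x => ∏ l ∈ Finset.range 3, ThetaH L H (x + l * q))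
      ((∑ l ∈ Finset.range 3, dlX L a (z + l * q)) *
        ∏ l ∈ Finset.range 3, ThetaH L H (z + l * q)) z := by
    have h1 := ((d1 0).mul (d1 1)).mul (d1 2)
    simp only [Finset.prod_range_succ, Finset.sum_range_succ, Finset.prod_range_zero,
      Finset.sum_range_zero, one_mul, zero_add]
    refine h1.congr_deriv ?_
    simp only [Pi.mul_apply]
    ring
  have hopen : IsOpen {x : ℂ | (a : ℂ) * (nu * x) ∉ N.lattice} := by
    have h1 : IsClosed {x : ℂ | (a : ℂ) * (nu * x) ∈ N.lattice} :=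
      N.isClosed_lattice.preimage (by fun_prop : Continuous fun x : ℂ => (a : ℂ) * (nu * x))
    exact h1.isOpen_compl
  have hev : (fun x => ∏ l ∈ Finset.range 3, ThetaH L H (x + l * q)) =ᶠ[nhds z]
      fun x => C * ThetaH N H' (nu * x) := by
    filter_upwards [hopen.mem_nhds hz] with x hx
    exact hprod x hx
  have d4 := (d2.const_mul C).congr_of_eventuallyEq hev
  have h5 := d3.unique d4
  rw [hprod z hz] at h5
  have hz1 : nu * z ∉ N.lattice := fun h => hz (nat_mul a h)
  have h6 : ThetaH N H' (nu * z) ≠ 0 := by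
    intro h0
    exact hz ((b_TNZ N a H' (fun w hw => nat_mul a hw) hH' (nu * z) hz1).1 h0)
  have h7 : C * ThetaH N H' (nu * z) ≠ 0 := mul_ne_zero hC0 h6
  refine mul_right_cancel₀ h7 ?_
  rw [h5]; ring

end

end Pool.Agent.ME3
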