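import Pool.Agent.ME.StE3
import Pool.Agent.ME.X_TRA
import Pool.Agent.ME.X_TRB
import Pool.Agent.ME.X_FAC
import Pool.Agent.ME.X_GTH
import Pool.Agent.ME.X_PT
import Pool.Agent.ME.X_GAL

/-!
# MUX-NS, block ER, module EXO: exact orders of the points of level `m = 3^(n+1) f`
-/

set_option autoImplicit false

namespace Pool.Agent.ME3

open _root_.MU3 Pool.Agent.MU3A Pool.Agent.MU3B Pool.Agent.MUX Pool.Agent.MUXU Pool.Agent.MUXE
open Pool.Agent.RI Pool.Agent.NS Pool.Agent.NSRD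
open Pool.Agent.ME hiding ActE
open Pool.Agent.MEE
open Pool.Agent.NSER (PtsR Ex Sf_ALG Sf_PRO Sf_PUL Sf_COE Sf_GRN Sf_LEG Sf_TW3 Sf_PTS Sf_TNC Sf_UNT Sf_RAT Sf_ISO Sf_ADD Sf_THN Sf_NE1 Sf_ORB)

noncomputable section

private lemma exo_inj {A B : ℤ} (hR : RingE A B) (x y : OO A B) (h : emb x = emb y) : x = y := by
  obtain ⟨φ, hφ⟩ := hR.hom
  have h1 : emb (x - y) = 0 := by
    rw [← hφ, map_sub, hφ, hφ, h, sub_self]
  exact sub_eq_zero.1 (hR.inj0 _ h1)

private lemma exo_nI {A B : ℤ} (hR : RingE A B) (b : Ideal (OO A B)) (hb : b ≠ ⊥) :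
    nI b ≠ 0 ∧ ((nI b : ℕ) : OO A B) ∈ b := by
  have := hR.ded
  refine ⟨?_, ?_⟩
  · change Ideal.absNorm b ≠ 0
    rw [Ne, Ideal.absNorm_eq_zero_iff]
    exact hb
  · change ((Ideal.absNorm b : ℕ) : OO A B) ∈ b
    exact Ideal.absNorm_mem b

private lemma exo_nat {A B : ℤ} (m k : ℕ) (h : ((m : ℕ) : OO A B) ∣ ((k : ℕ) : OO A B)) :
    m ∣ k := by
  obtain ⟨z, hz⟩ := h
  have h5 : (k : ℤ) = (m : ℤ) * z.re := by
    have := congrArg QuadraticAlgebra.re hz
    simpa using this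
  exact Int.natCast_dvd_natCast.1 ⟨z.re, h5⟩

theorem t3_EXO (hI : S3_IDL) : S3_EXO := by
  intro A B P V hC n f ι R hf i x hx
  have hR := hC.ring
  obtain ⟨φ, hφ⟩ := hR.hom
  obtain ⟨h3P, -, -, -, hI2⟩ := hI A B P V hC
  obtain ⟨-, hlv, -⟩ := hI2 f n hf
  set m : ℕ := 3 ^ (n + 1) * f with hm
  have hm0 : m ≠ 0 := by
    rw [hm]
    exact mul_ne_zero (pow_ne_zero _ (by norm_num)) hf
  have hmC : (m : ℂ) ≠ 0 := by exact_mod_cast hm0
  have hnl := R.nl i
  have hnl0 := R.nl R.i0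
  obtain ⟨hN0, hNb⟩ := exo_nI hR (R.b i) hnl.b_ne
  have hNC : ((nI (R.b i) : ℕ) : ℂ) ≠ 0 := by exact_mod_cast hN0
  have hom : R.om i ≠ 0 := hnl.om_ne
  have hom0 : R.om R.i0 ≠ 0 := hnl0.om_ne
  have heN : ∀ k : ℕ, emb ((k : ℕ) : OO A B) = (k : ℂ) := fun k => by rw [← hφ, map_natCast]
  have hem : ∀ x y : OO A B, emb (x * y) = emb x * emb y := fun x y => by
    rw [← hφ, ← hφ, ← hφ, map_mul]
  have hLi := hnl.mem
  have hcop : (nI (R.b i)).Coprime m := by
    have h1 := R.cop i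
    rw [hm]
    exact Nat.Coprime.mul_right (Nat.Coprime.pow_right _ (Nat.Coprime.coprime_mul_right_right h1))
      (Nat.Coprime.coprime_mul_left_right h1)
  obtain ⟨s, t, hst⟩ := Nat.isCoprime_iff_coprime.2 hcop
  have h2 : (s : OO A B) * ((nI (R.b i) : ℕ) : OO A B) + (t : OO A B) * (m : ℕ) = 1 := by
    have := congrArg (fun k : ℤ => (k : OO A B)) hst
    push_cast at this
    exact this
  have hEx : Ex (idl (A := A) (B := B) m) (R.L i) (ptE R m i x) := by
    intro c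
    rw [hLi, Ideal.mem_span_singleton]
    constructor
    · rintro ⟨y, -, hy⟩
      have h1 : ((nI (R.b i) : ℕ) : OO A B) * (c * x) = (m : ℕ) * y := by
        apply exo_inj hR
        rw [hem, hem, hem, heN, heN]
        unfold ptE at hy
        field_simp at hy
        linear_combination hy
      have h3 : ((m : ℕ) : OO A B) ∣ x * c := by
        refine ⟨(s : OO A B) * y + (t : OO A B) * c * x, ?_⟩
        linear_combination (-(x * c)) * h2 + (s : OO A B) * h1
      exact hx.symm.dvd_of_dvd_mul_left h3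
    · rintro ⟨y, rfl⟩
      refine ⟨(nI (R.b i) : ℕ) * (y * x), (R.b i).mul_mem_right _ hNb, ?_⟩
      rw [hem, hem, hem, heN, heN]
      unfold ptE
      field_simp
  refine ⟨hEx, ?_, ?_, ?_⟩
  · rintro N nu ⟨-, hQ⟩ c
    rw [hlv c, ← mul_assoc, mul_comm (emb c) nu, mul_assoc, hQ]
    refine forall₂_congr fun p _ => ?_
    rw [← mul_assoc, ← hem]
    exact hEx (p * c)
  · intro q hq l
    have h3q : (3 : ℂ) * q ∈ (R.L i).lattice := by
      have h1 := hq 3 h3P
      have h4 : emb (3 : OO A B) = (3 : ℂ) := by rw [← hφ, map_ofNat]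
      rwa [h4] at h1
    have hnat : ∀ (k : ℕ) (u : ℂ), u ∈ (R.L i).lattice → (k : ℂ) * u ∈ (R.L i).lattice := by
      intro k u hu
      have := (R.L i).lattice.smul_mem (k : ℤ) hu
      simpa using this
    constructor
    · have h1 : ((m : ℕ) : ℂ) * ptE R m i x ∈ (R.L i).lattice := by
        rw [← heN]
        exact (hEx _).2 (Ideal.mem_span_singleton_self _)
      have h4 := hnat (3 ^ n * f * l) _ h3q
      have h5 : ((m : ℕ) : ℂ) * (ptE R m i x + l * q) =
          ((m : ℕ) : ℂ) * ptE R m i x + ((3 ^ n * f * l : ℕ) : ℂ) * (3 * q) := by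
        rw [hm]
        push_cast
        ring
      rw [h5]
      exact add_mem h1 h4
    · intro c hc
      have h1 : emb (((3 * c : ℕ)) : OO A B) * ptE R m i x ∈ (R.L i).lattice := by
        rw [heN]
        have h4 := hnat 3 _ hc
        have h5 := hnat (c * l) _ h3q
        have h6 : ((3 * c : ℕ) : ℂ) * ptE R m i x =
            ((3 : ℕ) : ℂ) * ((c : ℂ) * (ptE R m i x + l * q)) - ((c * l : ℕ) : ℂ) * (3 * q) := by
          push_cast
          ring
        rw [h6]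
        exact sub_mem h4 h5
      have h4 := exo_nat _ _ (Ideal.mem_span_singleton.1 ((hEx _).1 h1))
      have h5 : 3 * (3 ^ n * f) ∣ 3 * c := by
        have h6 : m = 3 * (3 ^ n * f) := by rw [hm, pow_succ]; ring
        rwa [← h6]
      exact (Dvd.intro_left _ rfl).trans (Nat.dvd_of_mul_dvd_mul_left (by norm_num) h5)
  · intro nu nu0 hnu0
    unfold ptE muXE
    field_simp

end

end Pool.Agent.ME3
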