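import Pool.Agent.ME.StE3
import Pool.Agent.ME.X_TRA
import Pool.Agent.ME.X_TRB
import Pool.Agent.ME.X_FAC
import Pool.Agent.ME.X_GTH
import Pool.Agent.ME.X_PT
import Pool.Agent.ME.X_GAL

/-!
# MUX-NS, block ER, module FIN: the final form (helper86)
-/

set_option autoImplicit false

namespace Pool.Agent.ME3

open _root_.MU3 Pool.Agent.MU3A Pool.Agent.MU3B Pool.Agent.MUX Pool.Agent.MUXU Pool.Agent.MUXE
open Pool.Agent.RI Pool.Agent.NS Pool.Agent.NSRD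
open Pool.Agent.ME hiding ActE
open Pool.Agent.MEE
open Pool.Agent.NSER (PtsR Ex Sf_ALG Sf_PRO Sf_PUL Sf_COE Sf_GRN Sf_LEG Sf_TW3 Sf_PTS Sf_TNC Sf_UNT Sf_RAT Sf_ISO Sf_ADD Sf_THN Sf_NE1 Sf_ORB)

theorem t3_FIN (h1 : S3_CTX) (h2 : S3_RED) : S3_FIN := by
  intro hR A B P V f hS hf3 hT ι _ R u e lam hG w hw n hn H hH D h hD hb
  have hC := h1 A B P V hS.case hS.hB hS.hP hS.hV hT hR
  have hE := Pool.Agent.MEE.tm_GAL A B hS.case hC.ring hT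
  have hf2 : 2 ∣ f := by
    have h3 : (2 : ℤ) ∣ 3 * (f : ℤ) := (Dvd.intro _ rfl : (2 : ℤ) ∣ 2 * absD A B).trans hS.fD
    omega
  exact h2 A B P V hC hT hE n f hn hf3 hf2 hS.fp ι R u e lam hG w hw H hH D h hD hb

end Pool.Agent.ME3
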