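import Pool.Agent.ME.StXEE
import Pool.Agent.MUX.E_MAIN0

/-!
# ME, block E (helper86): the group of a subfield of `RFE m` is commutative
-/

set_option autoImplicit false

open WeierstrassCurve Polynomial NumberField IsDedekindDomain

namespace Pool.Agent.MEE

open _root_.MU3 Pool.Agent.MU3A Pool.Agent.MU3B Pool.Agent.MUX Pool.Agent.MUXU Pool.Agent.RI
open Pool.Agent.ME hiding ActE
open Pool.Agent.MUXE (RingE m0_fix)

noncomputable section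

lemma mx_comm {A B : ℤ} (hT : TorXE A B) (m : Ideal (OO A B)) (hm : m ≠ ⊥)
    (D : IntermediateField ℚ ℂ) (h : kk A B ≤ D) (hD : ∀ y ∈ D, y ∈ RFE m) :
    letI := algC h
    ∀ τ τ' : D ≃ₐ[kk A B] D, τ * τ' = τ' * τ := by
  intro τ τ'
  letI := algC h
  haveI := hT.fin m hm
  haveI := hT.gal m hm
  obtain ⟨σ, hσ, hσ1⟩ := hT.ext m hm D h hD τ
  obtain ⟨σ', hσ', hσ1'⟩ := hT.ext m hm D h hD τ'
  let s : ℂ ≃ₐ[kk A B] ℂ := AlgEquiv.ofRingEquiv (f := σ) (fun r => m0_fix hσ _ r.2)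
  let s' : ℂ ≃ₐ[kk A B] ℂ := AlgEquiv.ofRingEquiv (f := σ') (fun r => m0_fix hσ' _ r.2)
  have e1 : ∀ y : RFE m, ((s.restrictNormal (RFE m) y : RFE m) : ℂ) = σ y := fun y =>
    AlgEquiv.restrictNormal_commutes s (RFE m) y
  have e2 : ∀ y : RFE m, ((s'.restrictNormal (RFE m) y : RFE m) : ℂ) = σ' y := fun y =>
    AlgEquiv.restrictNormal_commutes s' (RFE m) y
  have e3 := hT.comm m hm (s.restrictNormal (RFE m)) (s'.restrictNormal (RFE m))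
  refine AlgEquiv.ext fun z => Subtype.ext ?_
  show ((τ (τ' z) : D) : ℂ) = ((τ' (τ z) : D) : ℂ)
  have a1 : ((τ (τ' z) : D) : ℂ) = σ (σ' z) := by rw [← hσ1 (τ' z), ← hσ1' z]
  have a2 : ((τ' (τ z) : D) : ℂ) = σ' (σ z) := by rw [← hσ1' (τ z), ← hσ1 z]
  rw [a1, a2]
  have e4 : ((s.restrictNormal (RFE m)) ((s'.restrictNormal (RFE m)) ⟨z, hD z z.2⟩) : ℂ) =
      ((s'.restrictNormal (RFE m)) ((s.restrictNormal (RFE m)) ⟨z, hD z z.2⟩) : ℂ) :=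
    congrArg (fun f : RFE m ≃ₐ[kk A B] RFE m => ((f ⟨z, hD z z.2⟩ : RFE m) : ℂ)) e3
  rw [e1, e2, e2, e1] at e4
  exact e4

end

end Pool.Agent.MEE
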