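import Pool.Agent.ME.StE3
import Pool.Agent.ME.X_TRA
import Pool.Agent.ME.X_TRB
import Pool.Agent.ME.X_FAC
import Pool.Agent.ME.X_GTH
import Pool.Agent.ME.X_PT
import Pool.Agent.ME.X_GAL
import Pool.Agent.ME.X_COM
import Pool.Agent.MUX.E_MAIN0

/-!
# MUX-NS, block ER, module MAIN: Lemma E for a conjugate family (helper96)

Apply `τ'` to `w³ = ∏ C τ ^ g τ`: `(τ' w)³ = ∏ C(τ τ') ^ g τ`, because the Galois group of `D / k` is
commutative; then (ONE) with `J = Gal(D/k)` and `X τ = S (τ τ')`.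
-/

set_option autoImplicit false

namespace Pool.Agent.ME3

open _root_.MU3 Pool.Agent.MU3A Pool.Agent.MU3B Pool.Agent.MUX Pool.Agent.MUXU Pool.Agent.MUXE
open Pool.Agent.RI Pool.Agent.NS Pool.Agent.NSRD
open Pool.Agent.ME hiding ActE
open Pool.Agent.MEE
open Pool.Agent.NSER (PtsR Ex Sf_ALG Sf_PRO Sf_PUL Sf_COE Sf_GRN Sf_LEG Sf_TW3 Sf_PTS Sf_TNC Sf_UNT Sf_RAT Sf_ISO Sf_ADD Sf_THN Sf_NE1 Sf_ORB)

noncomputable section

/-- the ideal `f P^(2n+1)` is not zero -/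
lemma fm_ne {A B : ℤ} {P : Ideal (OO A B)} {V : ValuationSubring ℂ} (hc : CtxR3 A B P V)
    {f : ℕ} (hf : f ≠ 0) (n : ℕ) : lvR P f n ≠ ⊥ := by
  intro h
  have h3 : (3 : OO A B) ∈ P := by
    have h0 : ((3 : ℕ) : OO A B) ∈ P * P := by
      rw [hc.sq]
      exact Ideal.mem_span_singleton_self _
    have h1 := Ideal.mul_le_left h0
    exact_mod_cast h1
  have h4 : ((f * 3 ^ (2 * n + 1) : ℕ) : OO A B) ∈ lvR P f n := by
    push_cast
    exact Ideal.mul_mem_mul (Ideal.mem_span_singleton_self _) (Ideal.pow_mem_pow h3 _)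
  have h5 : idl (A := A) (B := B) (f * 3 ^ (2 * n + 1)) = ⊥ := by
    rw [eq_bot_iff, ← h]
    exact (Ideal.span_singleton_le_iff_mem _).2 h4
  exact m0_ne A B hc.ring (mul_ne_zero hf (pow_ne_zero _ (by norm_num))) h5

theorem t3_MAIN (h1 : S3_ONE) : S3_MAIN := by
  classical
  intro A B P V hctx hT hgal n f hn hf3 hf2 hfp ι R u e lam hG H hH D hD hDF
  intro C κ S i x q hC hcop hprod g hcube τ'
  letI := algC hD
  have hf0 : f ≠ 0 := by omega
  have hlv : lvX 3 f n = 3 ^ (n + 1) * f := by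
    simp [lvX, q0]
    ring
  obtain ⟨ha3, hap, haf⟩ := m0_aX (p := 3) (Or.inr rfl) hf0
  have hodd : Odd (aX 3 f) := by
    refine ⟨3 * f, ?_⟩
    simp [aX, q0]
    ring
  have hmb := fm_ne hctx hf0 n
  have := hT.fin _ hmb
  -- D is finite over k
  let φ : D →ₗ[kk A B] RFE (lvR P f n) :=
    { toFun := fun y => ⟨y, hDF y y.2⟩
      map_add' := fun x y => rfl
      map_smul' := fun c x => by
        apply Subtype.ext
        show ((c • x : D) : ℂ) =
          ((c • (⟨x, hDF x x.2⟩ : RFE (lvR P f n)) : RFE (lvR P f n)) : ℂ)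
        rw [Algebra.smul_def, Algebra.smul_def]
        rfl }
  have hφ : Function.Injective φ := by
    intro x y hxy
    apply Subtype.ext
    exact congrArg (fun z : RFE (lvR P f n) => (z : ℂ)) hxy
  have : FiniteDimensional (kk A B) D := FiniteDimensional.of_injective φ hφ
  have : Finite (D ≃ₐ[kk A B] D) := inferInstance
  letI : Fintype (D ≃ₐ[kk A B] D) := Fintype.ofFinite _
  have hcom := mx_comm hT _ hmb D hD hDF
  have key := h1 A B P V hctx hT hgal n f (aX 3 f) hn hf3 hf2 hfp ha3 hodd hap haf ι R u e lam hG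
    H hH (D ≃ₐ[kk A B] D) κ (fun τ => S (τ * τ')) g i x q
  rw [← hlv] at key
  rw [finsum_eq_sum_of_fintype]
  refine key (fun τ k hk => hcop (τ * τ') k hk) ?_
  obtain ⟨w, hw, hwp⟩ := hcube
  rw [finprod_eq_prod_of_fintype] at hwp
  obtain ⟨y, hy1, -⟩ := hC 1
  have hyτ : ∀ τ : D ≃ₐ[kk A B] D, ((τ y : D) : ℂ) = C τ := by
    intro τ
    obtain ⟨y', hy', hy''⟩ := hC τ
    have : y' = y := Subtype.ext (hy'.trans hy1.symm)
    rw [← hy'', this]
  have hw4 : (⟨w, hw⟩ : D) ^ 3 = ∏ τ : D ≃ₐ[kk A B] D, (τ y) ^ g τ := by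
    apply Subtype.ext
    rw [IntermediateField.coe_prod]
    rw [show (((⟨w, hw⟩ : D) ^ 3 : D) : ℂ) = w ^ 3 from rfl, hwp]
    refine Finset.prod_congr rfl (fun τ _ => ?_)
    rw [← hyτ τ, ← m0_zpc (D := D)]
  refine ⟨(τ' ⟨w, hw⟩ : D), hDF _ (τ' ⟨w, hw⟩).2, ?_⟩
  have hw5 := congrArg τ' hw4
  rw [map_pow, map_prod] at hw5
  have hw6 := congrArg (fun y : D => (y : ℂ)) hw5
  push_cast at hw6
  rw [hw6]
  refine Finset.prod_congr rfl (fun τ _ => ?_)
  rw [← hprod (τ * τ'), hcom τ τ', map_zpow₀, ← hyτ (τ' * τ), m0_zpc]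
  rfl

end

end Pool.Agent.ME3
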