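import Pool.Agent.ME.StE3
import Pool.Agent.ME.X_TRA
import Pool.Agent.ME.X_TRB
import Pool.Agent.ME.X_FAC
import Pool.Agent.ME.X_GTH
import Pool.Agent.ME.X_PT
import Pool.Agent.ME.X_GAL
import Pool.Agent.NS.E_ONE

/-!
# MUX-NS, block ER, module ONE: Lemma E for products over finite families of points, ramified case
-/

set_option autoImplicit false

open Polynomial

namespace Pool.Agent.ME3

open _root_.MU3 Pool.Agent.MU3A Pool.Agent.MU3B Pool.Agent.MUX Pool.Agent.MUXU Pool.Agent.MUXE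
open Pool.Agent.RI Pool.Agent.NS Pool.Agent.NSRD
open Pool.Agent.ME hiding ActE
open Pool.Agent.MEE
open Pool.Agent.NSER (PtsR Ex Sf_ALG Sf_PRO Sf_PUL Sf_COE Sf_GRN Sf_LEG Sf_TW3 Sf_PTS Sf_TNC Sf_UNT Sf_RAT Sf_ISO Sf_ADD Sf_THN Sf_NE1 Sf_ORB)
open Pool.Agent.MUXV (GR InK tX)
open Pool.Agent.NSE (E3 su ru WL IntP Rep)

noncomputable section

namespace ONE

variable {A B : ℤ}

lemma emb_kk (x : OO A B) : emb x ∈ kk A B := by
  have h : wC A B ∈ kk A B := IntermediateField.mem_adjoin_simple_self ℚ _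
  exact add_mem (intCast_mem _ _) (mul_mem (intCast_mem _ _) h)

lemma theta_per (L : PeriodPair) (H : Finset ℂ) (z v : ℂ) (hv : v ∈ L.lattice) :
    ThetaH L H (z + v) = ThetaH L H z := by
  have h2 : L.weierstrassP (z + v) = L.weierstrassP z := L.weierstrassP_add_coe z ⟨v, hv⟩
  simp only [ThetaH, h2]

/-- multiplication by a power of an element of `k` -/
lemma conjk {F : IntermediateField (kk A B) ℂ} (σ : F ≃ₐ[kk A B] F) {y0 w0 d : ℂ}
    (hd : d ∈ kk A B) (K : ℤ) (hy0 : y0 ∈ F) (hw0 : w0 ∈ F) (h : y0 = w0 * d ^ K) :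
    (σ ⟨y0, hy0⟩ : ℂ) = σ ⟨w0, hw0⟩ * d ^ K := by
  have h1 : (⟨y0, hy0⟩ : F) = ⟨w0, hw0⟩ * (algebraMap (kk A B) F ⟨d, hd⟩) ^ K := by
    apply F.val.injective
    rw [map_mul, map_zpow₀]
    exact h
  have h2 : em σ ⟨y0, hy0⟩ = em σ ⟨w0, hw0⟩ * d ^ K := by
    rw [h1, map_mul, map_zpow₀, AlgHom.commutes]
    rfl
  exact h2

/-- a product of conjugate elements -/
lemma conj_prod {F : IntermediateField (kk A B) ℂ} (σ : F ≃ₐ[kk A B] F) (t t' : ℕ → ℂ)
    (h : ∀ l, ∃ h : t l ∈ F, (σ ⟨t l, h⟩ : ℂ) = t' l) (s : Finset ℕ) :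
    ∃ h : (∏ l ∈ s, t l) ∈ F, (σ ⟨∏ l ∈ s, t l, h⟩ : ℂ) = ∏ l ∈ s, t' l := by
  choose h1 h2 using h
  have h3 : (∏ l ∈ s, t l) ∈ F := prod_mem fun l _ => h1 l
  refine ⟨h3, ?_⟩
  have h4 : (⟨∏ l ∈ s, t l, h3⟩ : F) = ∏ l ∈ s, ⟨t l, h1 l⟩ := by
    apply F.val.injective
    rw [map_prod]
    rfl
  have h5 : em σ ⟨∏ l ∈ s, t l, h3⟩ = ∏ l ∈ s, em σ ⟨t l, h1 l⟩ := by
    rw [h4, map_prod]
  exact h5.trans (Finset.prod_congr rfl fun l _ => h2 l)

/-- powers of `v(d)³` -/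
def Cb (V : ValuationSubring ℂ) (d x : ℂ) : Prop :=
  ∃ k : ℤ, V.valuation x = V.valuation d ^ (3 * k)

lemma Cb.one (V : ValuationSubring ℂ) (d : ℂ) : Cb V d 1 := ⟨0, by simp⟩

lemma Cb.mul {V : ValuationSubring ℂ} {d x y : ℂ} (hd : d ≠ 0) (hx : Cb V d x) (hy : Cb V d y) :
    Cb V d (x * y) := by
  obtain ⟨k, hk⟩ := hx
  obtain ⟨l, hl⟩ := hy
  refine ⟨k + l, ?_⟩
  rw [map_mul, hk, hl, ← zpow_add₀ ((Valuation.ne_zero_iff _).2 hd)]
  congr 1
  ring

lemma Cb.zpow {V : ValuationSubring ℂ} {d x : ℂ} (hx : Cb V d x) (g : ℤ) : Cb V d (x ^ g) := by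
  obtain ⟨k, hk⟩ := hx
  refine ⟨k * g, ?_⟩
  rw [map_zpow₀, hk, ← zpow_mul]
  congr 1
  ring

/-- the product of the functions `G y` -/
lemma asm (hALG : Sf_ALG) (hPRO : Sf_PRO) {V : ValuationSubring ℂ} {S : Set ℂ} {s r : ℂ → ℂ}
    {a2 a4 : ℂ} (hP : PtsR V S s r a2 a4) {J κ : Type} [Fintype J] (X : J → Finset κ)
    (g : J → ℤ) (G : κ → ℂ → ℂ) (l : κ → ℂ) (hG : ∀ j, ∀ y ∈ X j, Rep V S s r (G y) 1 (l y)) :
    Rep V S s r (fun Y => ∏ j, (∏ y ∈ X j, G y Y) ^ g j) 1 (∑ j, (g j : ℂ) * ∑ y ∈ X j, l y) := by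
  obtain ⟨-, -, -, hcg, -⟩ := hALG V S s r a2 a4 hP
  obtain ⟨-, hpr, -⟩ := hPRO V S s r a2 a4 hP
  have v0 : V.valuation (0 : ℂ) ≤ V.valuation (3 : ℂ) := by rw [map_zero]; exact zero_le
  have h1 : ∀ j, Rep V S s r (fun Y => ∏ y ∈ X j, G y Y) 1 (∑ y ∈ X j, l y) := by
    intro j
    have h2 := (hpr (X j) (fun y => G y.1) (fun _ => 1) (fun y => l y.1) (fun _ => 1)
      (fun y => by rw [one_mul]; exact hG j y.1 y.2) (fun y => map_one _)).2
    refine hcg _ _ _ _ _ _ h2 (fun Y _ => ?_) ?_ ?_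
    · simp only [zpow_one]
      exact (Finset.prod_coe_sort (X j) (fun y => G y Y)).symm
    · simp only [one_zpow, Finset.prod_const_one, sub_self]
      exact v0
    · simp only [one_zpow, Finset.prod_const_one, one_mul, Int.cast_one]
      rw [Finset.sum_coe_sort (X j) (fun y => l y), sub_self]
      exact v0
  have h3 := (hpr J (fun j Y => ∏ y ∈ X j, G y Y) (fun _ => 1) (fun j => ∑ y ∈ X j, l y) g
    (fun j => by rw [one_mul]; exact h1 j) (fun y => map_one _)).2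
  refine hcg _ _ _ _ _ _ h3 (fun Y _ => rfl) ?_ ?_
  · simp only [one_zpow, Finset.prod_const_one, sub_self]
    exact v0
  · simp only [one_zpow, Finset.prod_const_one, one_mul, sub_self]
    exact v0

/-- everything about one point `(i, x)`, on the lattice `N = ν P⁻¹ L_i` -/
lemma point (hTHN : Sf_THN) (hNE1 : Sf_NE1) (hMUL : S3_MUL) (hEXO : S3_EXO) (hIDL : S3_IDL)
    {P : Ideal (OO A B)} {V : ValuationSubring ℂ} (hC : CtxR3 A B P V) {n f a : ℕ}
    (hf3 : 3 ≤ f) (hf : ¬ 3 ∣ f) (ha : a ≠ 0) (hpa : ¬ 3 ∣ a) (hco : a.Coprime f) {ι : Type}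
    (R : RepsE A B (3 * f) ι) {N0 N : PeriodPair} {nu0 nu u e lam u' e' lam' : ℂ}
    (hQ0 : IsQ P (R.L R.i0) N0 nu0) (hg0 : GoodR V N0 u e lam) {i : ι}
    (hQ : IsQ P (R.L i) N nu) (hg : GoodR V N u' e' lam') {H' : Finset ℂ}
    (hH' : IsHalf N (a : ℂ) H') (x : OO A B)
    (hx : IsCoprime x ((3 ^ (n + 1) * f : ℕ) : OO A B)) :
    Isg N0 N (muXE R i * emb x * nu / nu0) ∧
    nu * ptE R (3 ^ (n + 1) * f) i x =
      (muXE R i * emb x * nu / nu0) * (nu0 * (R.om R.i0 / (3 ^ (n + 1) * f : ℕ))) ∧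
    (a : ℂ) * (nu * ptE R (3 ^ (n + 1) * f) i x) ∉ N.lattice ∧
    Rep V (E3 N0) (su N0 u e) (ru N0 u e)
      (fun Y => ThetaH N H' (nu * ptE R (3 ^ (n + 1) * f) i x + muXE R i * emb x * nu / nu0 * Y) /
        ThetaH N H' (nu * ptE R (3 ^ (n + 1) * f) i x)) 1
      (muXE R i * emb x * nu / nu0 * dlX N a (nu * ptE R (3 ^ (n + 1) * f) i x) / u) := by
  have hf0 : f ≠ 0 := by omega
  obtain ⟨h3P, -, -, -, hidl⟩ := hIDL A B P V hC
  obtain ⟨-, -, -, -, -, hnat, -⟩ := hidl f n hf0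
  have hxP : x ∉ P := by
    intro h
    apply hC.max.ne_top
    rw [Ideal.eq_top_iff_one]
    obtain ⟨b1, b2, hb⟩ := hx
    rw [← hb]
    refine add_mem (Ideal.mul_mem_left _ _ h) (Ideal.mul_mem_left _ _ ?_)
    have h5 : ((3 ^ (n + 1) * f : ℕ) : OO A B) = ((3 ^ n * f : ℕ) : OO A B) * 3 := by
      push_cast
      ring
    rw [h5]
    exact Ideal.mul_mem_left _ _ h3P
  obtain ⟨-, hMU⟩ := hMUL A B P V hC (3 * f) ι R (by omega) (dvd_mul_right _ _) i x hxP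
  obtain ⟨hmu, hisg, m, hm3, hm⟩ := hMU N0 N nu0 nu hQ0 hQ
  obtain ⟨-, hEx, -, hlast⟩ := hEXO A B P V hC n f ι R hf0 i x hx
  have hE := hEx N nu hQ
  have enat : ∀ n : ℕ, emb ((n : ℕ) : OO A B) = n := by
    obtain ⟨φ, hφ⟩ := hC.ring.hom
    intro n
    rw [← hφ, map_natCast]
  have hE' : ∀ c : ℕ, (c : ℂ) * (nu * ptE R (3 ^ (n + 1) * f) i x) ∈ N.lattice ↔
      3 ^ (n + 1) * f ∣ c := by
    intro c
    rw [← hnat c, ← hE (c : OO A B), enat]
  obtain ⟨hzK, hza, hzq⟩ := hNE1 V N u' e' lam' hg hC.v3 (n + 1) f a (by omega) hf hpa hco _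
    ((hE' _).2 (dvd_refl _)) (fun c hc => (dvd_mul_left f _).trans ((hE' c).1 hc))
  obtain ⟨-, -, k3⟩ := hTHN V N0 N u e lam u' e' lam' (muXE R i * emb x * nu / nu0) m hg0
    hg hC.v3 hmu hisg hm3 hm a H' ha hH' _ hzK hza (fun q hq =>
      hzq q (hH'.mem q hq) (fun hqL => hH'.ne q hq (by
        rw [two_mul]; exact add_mem hqL hqL)))
  exact ⟨hisg, hlast nu nu0 hQ0.1, hza, k3⟩

end ONE

open ONE in
theorem t3_ONE (hALG : Sf_ALG) (hPRO : Sf_PRO) (hPTS : Sf_PTS) (hTHN : Sf_THN)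
    (hSIG : S3_SIG) (hNE1 : Sf_NE1) (hMUL : S3_MUL) (hEXO : S3_EXO) (hIDL : S3_IDL)
    (hDIS : S3_DIS) (hPIS : S3_PIS) (hINN : S3_INN) : S3_ONE := by
  intro A B P V hC hT hG n f a hn hf3 hf2 hf ha3 hodd hpa hco ι R u e lam hgood H hH J κ _ X g
    i x q hX ⟨y0, hy0, hy3⟩
  have ha0 : a ≠ 0 := by omega
  have hf0 : f ≠ 0 := by omega
  have hv3 := hC.v3
  have hring := hC.ring
  obtain ⟨φ, hφ⟩ := hring.hom
  have emul : ∀ x y : OO A B, emb (x * y) = emb x * emb y := fun x y => by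
    rw [← hφ, map_mul, hφ, hφ]
  have eadd : ∀ x y : OO A B, emb (x + y) = emb x + emb y := fun x y => by
    rw [← hφ, map_add, hφ, hφ]
  have esub : ∀ x y : OO A B, emb (x - y) = emb x - emb y := fun x y => by
    rw [← hφ, map_sub, hφ, hφ]
  have eone : emb (1 : OO A B) = 1 := by rw [← hφ, map_one]
  have enat : ∀ n : ℕ, emb ((n : ℕ) : OO A B) = n := fun n => by rw [← hφ, map_natCast]
  have eint : ∀ n : ℤ, emb ((n : ℤ) : OO A B) = n := fun n => by rw [← hφ, map_intCast]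
  obtain ⟨h3P, hPP, -, -, hidl⟩ := hIDL A B P V hC
  obtain ⟨hlv, -, hmle, -, -, -, -⟩ := hidl f n hf0
  -- the lattices `N_i`
  have hNLR : ∀ j : ι, NLE A B (R.L j) := fun j => ⟨_, _, R.nl j⟩
  choose Nt nt hNt hQt using fun j : ι => hC.exq (R.L j) (hNLR j)
  choose ut et lt hgt using fun j : ι => hC.good (Nt j) (hNt j)
  have hHalf : ∀ j : ι, ∃ H' : Finset ℂ, IsHalf (Nt j) (a : ℂ) H' := by
    intro j
    refine b_HAL (Nt j) (a : ℂ) (by exact_mod_cast ha0) (fun w hw => ?_) (fun z h1 h2 => ?_)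
    · have := nsmul_mem hw a
      rwa [nsmul_eq_mul] at this
    · obtain ⟨t, ht⟩ := hodd
      have h3 := nsmul_mem h2 t
      have h4 : z = (a : ℂ) * z - t • (2 * z) := by
        rw [ht, nsmul_eq_mul]
        push_cast
        ring
      rw [h4]
      exact sub_mem h1 h3
  choose Ht hHt using hHalf
  obtain ⟨N0, hN0⟩ : ∃ N0, N0 = Nt R.i0 := ⟨_, rfl⟩
  obtain ⟨nu0, hnu0⟩ : ∃ nu0, nu0 = nt R.i0 := ⟨_, rfl⟩
  obtain ⟨u0, hu0⟩ : ∃ u0, u0 = ut R.i0 := ⟨_, rfl⟩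
  obtain ⟨e0, he0⟩ : ∃ e0, e0 = et R.i0 := ⟨_, rfl⟩
  obtain ⟨l0, hl0⟩ : ∃ l0, l0 = lt R.i0 := ⟨_, rfl⟩
  have hNN0 : NLE A B N0 := by rw [hN0]; exact hNt _
  have hQ0 : IsQ P (R.L R.i0) N0 nu0 := by rw [hN0, hnu0]; exact hQt _
  have hg0 : GoodR V N0 u0 e0 l0 := by rw [hN0, hu0, he0, hl0]; exact hgt _
  obtain ⟨hPts, hper⟩ := hPTS V N0 u0 e0 l0 hg0 hv3
  have hm0 : ((3 ^ (n + 1) * f : ℕ) : ℂ) ≠ 0 := by
    exact_mod_cast mul_ne_zero (pow_ne_zero _ (by norm_num : (3 : ℕ) ≠ 0)) hf0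
  -- the base point
  obtain ⟨z₁, hz₁⟩ : ∃ z₁ : ℂ, z₁ = nu0 * (R.om R.i0 / (3 ^ (n + 1) * f : ℕ)) := ⟨_, rfl⟩
  have hEz : Ex (lvR P f n) N0 z₁ := by
    obtain ⟨-, hEx, -, -⟩ := hEXO A B P V hC n f ι R hf0 R.i0 1 isCoprime_one_left
    have h1 := hEx N0 nu0 hQ0
    have h2 : ptE R (3 ^ (n + 1) * f) R.i0 (1 : OO A B) = R.om R.i0 / (3 ^ (n + 1) * f : ℕ) := by
      have h3 : nI (R.b R.i0) = 1 := by
        rw [R.b0, nI]
        exact Nat.card_eq_one_iff_unique.2 ⟨Ideal.Quotient.subsingleton_iff.2 rfl, ⟨0⟩⟩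
      rw [ptE, h3, eone, Nat.cast_one, mul_one, mul_one]
    rwa [h2, ← hz₁] at h1
  -- the points
  have hP := fun j k (hk : k ∈ X j) => point (n := n) hTHN hNE1 hMUL hEXO hIDL hC hf3 hf ha0 hpa
    hco R hQ0 hg0 (hQt (i k)) (hgt (i k)) (hHt (i k)) (x k) (hX j k hk).1
  have hDi : ∀ k : κ, Tor P (R.L (i k)) (q k) → q k ∉ (R.L (i k)).lattice →
      ∃ C : ℂ, C ≠ 0 ∧ ∀ z : ℂ, (a : ℂ) * (nt (i k) * z) ∉ (Nt (i k)).lattice →
        (∏ l ∈ Finset.range 3, ThetaH (R.L (i k)) (H (i k)) (z + l * q k)) =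
          C * ThetaH (Nt (i k)) (Ht (i k)) (nt (i k) * z) ∧
        (∑ l ∈ Finset.range 3, dlX (R.L (i k)) a (z + l * q k)) =
          nt (i k) * dlX (Nt (i k)) a (nt (i k) * z) := fun k h1 h2 =>
    hDIS A B P V hC (R.L (i k)) (Nt (i k)) (nt (i k)) (hNLR _) (hNt _) (hQt _) a (H (i k))
      (Ht (i k)) ha0 hpa (hH _) (hHt _) (q k) h1 h2
  -- the element `δ`
  obtain ⟨d, hd⟩ : ∃ d : ℂ, d = emb (dD A B) := ⟨_, rfl⟩
  have hdk : d ∈ kk A B := by rw [hd]; exact emb_kk _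
  have hd0 : d ≠ 0 := by
    intro h
    have h1 := hC.vd
    rw [← hd, h, map_zero, zero_pow (by norm_num)] at h1
    exact (Valuation.ne_zero_iff V.valuation).2 (by norm_num : (3 : ℂ) ≠ 0) h1.symm
  have vd0 : V.valuation d ≠ 0 := (Valuation.ne_zero_iff _).2 hd0
  -- the product and its root
  have hCW : Cb V d (∏ j, (∏ k ∈ X j, ∏ l ∈ Finset.range 3, ThetaH (R.L (i k)) (H (i k))
      (ptE R (3 ^ (n + 1) * f) (i k) (x k) + l * q k)) ^ g j) := by
    refine Finset.prod_induction _ (Cb V d) (fun _ _ => Cb.mul hd0) (Cb.one V d)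
      fun j _ => Cb.zpow ?_ _
    refine Finset.prod_induction _ (Cb V d) (fun _ _ => Cb.mul hd0) (Cb.one V d) fun k hk => ?_
    refine Finset.prod_induction _ (Cb V d) (fun _ _ => Cb.mul hd0) (Cb.one V d) fun l _ => ?_
    obtain ⟨hxk, hqk, -⟩ := hX j k hk
    rw [hd]
    exact ((hINN A B P V hC hT hG n f a hf3 hf2 hf ha3 hodd hpa hco ι R u e lam hgood H hH (i k)
      (x k) hxk (q k) hqk).1 l).1
  obtain ⟨K, hK⟩ := hCW
  rw [← hy3, map_pow, mul_comm, zpow_mul] at hK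
  have hK' : V.valuation y0 ^ 3 = (V.valuation d ^ K) ^ 3 := by exact_mod_cast hK
  have vy0 : V.valuation y0 = V.valuation d ^ K :=
    (pow_left_inj₀ zero_le zero_le (by norm_num)).1 hK'
  obtain ⟨w0, hw0⟩ : ∃ w0 : ℂ, w0 = y0 / d ^ K := ⟨_, rfl⟩
  have hdK : d ^ K ≠ 0 := zpow_ne_zero _ hd0
  have hyw : y0 = w0 * d ^ K := by rw [hw0, div_mul_cancel₀ _ hdK]
  have vw0 : V.valuation w0 = 1 := by
    rw [hw0, map_div₀, map_zpow₀, vy0, div_self (zpow_ne_zero _ vd0)]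
  have hw00 : w0 ≠ 0 := by
    intro h
    rw [h, map_zero] at vw0
    exact zero_ne_one vw0
  have hdF : ∀ F : IntermediateField (kk A B) ℂ, d ^ K ∈ F := fun F =>
    zpow_mem (F.algebraMap_mem ⟨d, hdk⟩) K
  -- the fields
  have hle1 : lvR P (f * a) n ≤ lvR P f n := by
    refine Ideal.mul_mono_left ?_
    rw [Ideal.span_singleton_le_span_singleton]
    exact ⟨(a : OO A B), by push_cast; ring⟩
  have hle2 : idl (A := A) (B := B) (3 ^ (n + 1) * f * a) ≤ lvR P f n := by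
    refine le_trans ?_ hmle
    rw [Ideal.span_singleton_le_span_singleton]
    exact ⟨(a : OO A B), by push_cast; ring⟩
  have hFAC := (tm_FAC tm_TRA A B hring).1
  have hw0S : w0 ∈ RFE (lvR P (f * a) n) := by
    rw [hw0]
    exact div_mem (hFAC _ _ hle1 hy0) (hdF _)
  have hy0M : y0 ∈ RFE (idl (A := A) (B := B) (3 ^ (n + 1) * f * a)) := hFAC _ _ hle2 hy0
  have hw0M : w0 ∈ RFE (idl (A := A) (B := B) (3 ^ (n + 1) * f * a)) := by
    rw [hw0]
    exact div_mem hy0M (hdF _)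
  obtain ⟨F, β, vβ, hF, hσF⟩ := hSIG A B P V hC hT hG N0 u0 e0 l0 hNN0 hg0 n f a hf3 hf2 hf ha0
    hpa z₁ hEz w0 hw0S vw0.le
  obtain ⟨n', hn'⟩ : ∃ n', n = n' + 1 := ⟨n - 1, by omega⟩
  -- the identity at the points `Y`
  have key : ∀ p ∈ P,
      ∏ j, (∏ k ∈ X j, ThetaH (Nt (i k)) (Ht (i k)) (nt (i k) * ptE R (3 ^ (n + 1) * f) (i k) (x k) +
        muXE R (i k) * emb (x k) * nt (i k) / nu0 *
          (emb (((3 ^ n' * f * a : ℕ) : OO A B) * p) * z₁)) /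
        ThetaH (Nt (i k)) (Ht (i k)) (nt (i k) * ptE R (3 ^ (n + 1) * f) (i k) (x k))) ^ g j =
      (F (emb (((3 ^ n' * f * a : ℕ) : OO A B) * p) * z₁) * w0⁻¹) ^ 3 := by
    intro p hp
    have hne : idl (A := A) (B := B) (3 ^ (n + 1) * f * a) ≠ ⊥ := by
      intro h
      rw [Ideal.span_singleton_eq_bot] at h
      have h2 := congrArg emb h
      rw [enat, ← hφ 0, map_zero] at h2
      push_cast at h2 hm0
      exact mul_ne_zero hm0 (by exact_mod_cast ha0) h2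
    obtain ⟨c, hc⟩ : ∃ c : OO A B, c = 1 + ((3 ^ n' * f * a : ℕ) : OO A B) * p := ⟨_, rfl⟩
    have hc1 : c - 1 = ((3 ^ n' * f * a : ℕ) : OO A B) * p := by rw [hc]; ring
    have hcP : c - 1 ∈ P := by rw [hc1]; exact Ideal.mul_mem_left _ _ hp
    have hcop3 : IsCoprime c ((3 : ℕ) : OO A B) := by
      have h1 : (c - 1) * (c - 1) ∈ idl (A := A) (B := B) 3 := by
        rw [← hC.sq]
        exact Ideal.mul_mem_mul hcP hcP
      obtain ⟨t, ht⟩ := Ideal.mem_span_singleton.1 h1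
      exact ⟨2 - c, t, by linear_combination -ht⟩
    have hcop1 : IsCoprime c ((3 ^ n' * f * a : ℕ) : OO A B) := ⟨1, -p, by rw [hc]; ring⟩
    have hcopm : IsCoprime c ((3 ^ (n + 1) * f * a : ℕ) : OO A B) := by
      have h3 : ((3 ^ (n + 1) * f * a : ℕ) : OO A B) =
          ((3 : ℕ) : OO A B) * (((3 : ℕ) : OO A B) * ((3 ^ n' * f * a : ℕ) : OO A B)) := by
        rw [hn']
        push_cast
        ring
      rw [h3]
      exact hcop3.mul_right (hcop3.mul_right hcop1)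
    have hcopf : IsCoprime c ((3 ^ (n + 1) * f : ℕ) : OO A B) := by
      refine hcopm.of_isCoprime_of_dvd_right ⟨(a : OO A B), by push_cast; ring⟩
    have hcop : IsCoprime (sp c) (idl (A := A) (B := B) (3 ^ (n + 1) * f * a)) := by
      rw [Ideal.isCoprime_span_singleton_iff]
      exact hcopm
    obtain ⟨f', hf'⟩ := hf2
    have hne2 : idl (A := A) (B := B) (3 ^ (n + 1) * f * a) ≤ idl (A := A) (B := B) 2 := by
      rw [Ideal.span_singleton_le_span_singleton]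
      exact ⟨((3 ^ (n + 1) * f' * a : ℕ) : OO A B), by rw [hf']; push_cast; ring⟩
    have hc2 : c - 1 ∈ idl (A := A) (B := B) 2 := by
      rw [hc1]
      refine Ideal.mem_span_singleton.2 ⟨((3 ^ n' * f' * a : ℕ) : OO A B) * p, ?_⟩
      rw [hf']; push_cast; ring
    obtain ⟨σ, hσ⟩ := hG.sur _ hne hne2 _ hcop hc2
    have k1 := NSE.ONE.conj σ X g
      (fun k => ∏ l ∈ Finset.range 3, ThetaH (R.L (i k)) (H (i k))
        (ptE R (3 ^ (n + 1) * f) (i k) (x k) + l * q k))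
      (fun k => ∏ l ∈ Finset.range 3, ThetaH (R.L (i k)) (H (i k))
        (emb c * ptE R (3 ^ (n + 1) * f) (i k) (x k) + l * q k)) (fun j k hk => by
          obtain ⟨hxk, hqk, hqL⟩ := hX j k hk
          refine conj_prod σ (fun l => ThetaH (R.L (i k)) (H (i k))
            (ptE R (3 ^ (n + 1) * f) (i k) (x k) + l * q k)) (fun l => ThetaH (R.L (i k)) (H (i k))
            (emb c * ptE R (3 ^ (n + 1) * f) (i k) (x k) + l * q k)) (fun l => ?_) _
          obtain ⟨-, -, hEx3, -⟩ := hEXO A B P V hC n f ι R hf0 (i k) (x k) hxk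
          obtain ⟨hzm, hzf⟩ := hEx3 (q k) hqk l
          have hzL : ptE R (3 ^ (n + 1) * f) (i k) (x k) + l * q k ∉ (R.L (i k)).lattice := by
            intro h
            have h1 := hzf 1 (by rwa [Nat.cast_one, one_mul])
            have h2 := Nat.le_of_dvd (by norm_num) h1
            omega
          have hzT : Tor (idl (A := A) (B := B) (3 ^ (n + 1) * f * a)) (R.L (i k))
              (ptE R (3 ^ (n + 1) * f) (i k) (x k) + l * q k) := by
            refine ((tm_TRA A B hring _ (hNLR _)).2.2.2.2.1 _ _).2 ?_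
            rw [enat]
            have h1 := nsmul_mem hzm a
            rw [nsmul_eq_mul] at h1
            have h2 : ((3 ^ (n + 1) * f * a : ℕ) : ℂ) *
                (ptE R (3 ^ (n + 1) * f) (i k) (x k) + l * q k) =
                (a : ℂ) * (((3 ^ (n + 1) * f : ℕ) : ℂ) *
                  (ptE R (3 ^ (n + 1) * f) (i k) (x k) + l * q k)) := by
              push_cast
              ring
            rw [h2]
            exact h1
          obtain ⟨hmem, hθ⟩ := tm_GTH tm_TRA A B hring _ (hNLR (i k)) a (H (i k)) (hH (i k))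
            (idl (A := A) (B := B) (3 ^ (n + 1) * f * a)) (by
              rw [Ideal.span_singleton_le_span_singleton]
              exact ⟨((3 ^ (n + 1) * f : ℕ) : OO A B), by push_cast; ring⟩) σ _ hσ (by
              rw [hc1, Ideal.mem_span_singleton]
              exact ⟨((3 ^ n' * f : ℕ) : OO A B) * p, by push_cast; ring⟩) _ hzT hzL
          refine ⟨hmem, hθ.trans ?_⟩
          have h4 : emb c * (ptE R (3 ^ (n + 1) * f) (i k) (x k) + l * q k) =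
              (emb c * ptE R (3 ^ (n + 1) * f) (i k) (x k) + l * q k) +
                l * (emb (c - 1) * q k) := by
            rw [esub, eone]
            ring
          have h5 : (l : ℂ) * (emb (c - 1) * q k) ∈ (R.L (i k)).lattice := by
            have := nsmul_mem (hqk _ hcP) l
            rwa [nsmul_eq_mul] at this
          rw [h4, theta_per _ _ _ _ h5]) hy0M hy3
    have k2 := conjk σ hdk K hy0M hw0M hyw
    have hσc := hσF c (by
      rw [hc1, Ideal.mem_span_singleton]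
      exact ⟨((3 ^ n' : ℕ) : OO A B) * p, by push_cast; ring⟩) σ hσ hw0M
    rw [hσc, hc1] at k2
    have k3 : ∀ j, ∀ k ∈ X j, ThetaH (Nt (i k)) (Ht (i k))
        (nt (i k) * ptE R (3 ^ (n + 1) * f) (i k) (x k) +
        muXE R (i k) * emb (x k) * nt (i k) / nu0 *
          (emb (((3 ^ n' * f * a : ℕ) : OO A B) * p) * z₁)) /
        ThetaH (Nt (i k)) (Ht (i k)) (nt (i k) * ptE R (3 ^ (n + 1) * f) (i k) (x k)) =
        (∏ l ∈ Finset.range 3, ThetaH (R.L (i k)) (H (i k))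
          (emb c * ptE R (3 ^ (n + 1) * f) (i k) (x k) + l * q k)) /
        (∏ l ∈ Finset.range 3, ThetaH (R.L (i k)) (H (i k))
          (ptE R (3 ^ (n + 1) * f) (i k) (x k) + l * q k)) := by
      intro j k hk
      obtain ⟨hxk, hqk, hqL⟩ := hX j k hk
      obtain ⟨C, hC0, hCz⟩ := hDi k hqk hqL
      obtain ⟨-, hz, hza, -⟩ := hP j k hk
      obtain ⟨-, -, hzc, -⟩ := point (n := n) hTHN hNE1 hMUL hEXO hIDL hC hf3 hf ha0 hpa
        hco R hQ0 hg0 (hQt (i k)) (hgt (i k)) (hHt (i k)) (c * x k) (hcopf.mul_left hxk)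
      have h5 : ptE R (3 ^ (n + 1) * f) (i k) (c * x k) =
          emb c * ptE R (3 ^ (n + 1) * f) (i k) (x k) := by
        rw [ptE, ptE, emul]
        ring
      rw [h5] at hzc
      rw [(hCz _ hza).1, (hCz _ hzc).1, mul_div_mul_left _ _ hC0]
      congr 2
      rw [← hc1, esub, eone, hz₁]
      linear_combination (1 - emb c) * hz
    have k4 : ∏ j, (∏ k ∈ X j, ThetaH (Nt (i k)) (Ht (i k))
        (nt (i k) * ptE R (3 ^ (n + 1) * f) (i k) (x k) +
        muXE R (i k) * emb (x k) * nt (i k) / nu0 *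
          (emb (((3 ^ n' * f * a : ℕ) : OO A B) * p) * z₁)) /
        ThetaH (Nt (i k)) (Ht (i k)) (nt (i k) * ptE R (3 ^ (n + 1) * f) (i k) (x k))) ^ g j =
        ∏ j, (∏ k ∈ X j, (∏ l ∈ Finset.range 3, ThetaH (R.L (i k)) (H (i k))
          (emb c * ptE R (3 ^ (n + 1) * f) (i k) (x k) + l * q k)) /
        (∏ l ∈ Finset.range 3, ThetaH (R.L (i k)) (H (i k))
          (ptE R (3 ^ (n + 1) * f) (i k) (x k) + l * q k))) ^ g j := by
      refine Finset.prod_congr rfl fun j _ => ?_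
      congr 1
      exact Finset.prod_congr rfl fun k hk => k3 j k hk
    rw [k4]
    simp only [Finset.prod_div_distrib, div_zpow] at k1 ⊢
    rw [← k1, ← hy3, k2, hyw]
    field_simp
  -- the identity on `E3`
  have key2 : ∀ Y ∈ E3 N0,
      ∏ j, (∏ k ∈ X j, ThetaH (Nt (i k)) (Ht (i k)) (nt (i k) * ptE R (3 ^ (n + 1) * f) (i k) (x k) +
        muXE R (i k) * emb (x k) * nt (i k) / nu0 * Y) /
        ThetaH (Nt (i k)) (Ht (i k)) (nt (i k) * ptE R (3 ^ (n + 1) * f) (i k) (x k))) ^ g j =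
      (F Y * w0⁻¹) ^ 3 := by
    rintro Y ⟨hY3, hYL⟩
    have hnl0 : IsNE (⊤ : Ideal (OO A B)) (R.L R.i0) (R.om R.i0) := by
      have := R.nl R.i0
      rwa [R.b0] at this
    have hom0 : R.om R.i0 ≠ 0 := hnl0.om_ne
    have hnu00 : nu0 ≠ 0 := hQ0.1
    have hY3' : nu0 * (3 * Y / nu0) ∈ N0.lattice := by
      rwa [mul_div_cancel₀ _ hnu00]
    have hYp := (hQ0.2 (3 * Y / nu0)).1 hY3'
    obtain ⟨s, -, hs⟩ := (hnl0.mem _).1 (hYp _ h3P)
    have e3 : emb (3 : OO A B) = 3 := by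
      have := enat 3
      exact_mod_cast this
    have hsP : s ∈ P := by
      refine hPP s fun p hp => ?_
      obtain ⟨y, -, hy⟩ := (hnl0.mem _).1 (hYp p hp)
      rw [hC.sq, Ideal.mem_span_singleton]
      refine ⟨y, ?_⟩
      have h1 : R.om R.i0 * emb (p * s - ((3 : ℕ) : OO A B) * y) = 0 := by
        rw [esub, emul, emul, enat]
        rw [e3] at hs
        push_cast
        linear_combination 3 * hy - emb p * hs
      have h2 := (mul_eq_zero.1 h1).resolve_left hom0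
      exact sub_eq_zero.1 (hring.inj0 _ h2)
    have hYz : Y = emb (((3 ^ n' * f : ℕ) : OO A B) * s) * z₁ := by
      rw [e3] at hs
      have h1 : ((3 ^ (n + 1) * f : ℕ) : ℂ) = 9 * ((3 ^ n' * f : ℕ) : ℂ) := by
        rw [hn']
        push_cast
        ring
      have h2 : ((3 ^ n' * f : ℕ) : ℂ) ≠ 0 := by
        intro h
        rw [h1, h, mul_zero] at hm0
        exact hm0 rfl
      rw [hz₁, h1, emul, enat]
      field_simp at hs ⊢
      linear_combination hs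
    obtain ⟨a', t, hat⟩ : ∃ a' t : ℤ, (a : ℤ) * a' = 1 + 3 * t := by
      have h4 : a % 3 = 1 ∨ a % 3 = 2 := by omega
      rcases h4 with h4 | h4
      · exact ⟨1, (a : ℤ) / 3, by omega⟩
      · exact ⟨2, (2 * (a : ℤ) - 1) / 3, by omega⟩
    have h2 := key ((a' : OO A B) * s) (Ideal.mul_mem_left _ _ hsP)
    obtain ⟨b, hb⟩ : ∃ b : ℂ, b = emb (((3 ^ n * f : ℕ) : OO A B) * ((t : OO A B) * s)) * z₁ :=
      ⟨_, rfl⟩
    have hbN : b ∈ N0.lattice := by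
      rw [hb]
      exact (hEz _).2 ((hlv _).2 ⟨_, Ideal.mul_mem_left _ _ hsP, rfl⟩)
    have hYb : emb (((3 ^ n' * f * a : ℕ) : OO A B) * ((a' : OO A B) * s)) * z₁ = Y + b := by
      have h1 : (a : ℂ) * a' = 1 + 3 * t := by exact_mod_cast hat
      rw [hYz, hb, hn']
      simp only [emul, enat, eint]
      push_cast
      linear_combination (3 ^ n' * f * emb s * z₁) * h1
    rw [hYb] at h2
    obtain ⟨hYb3, hs', hr'⟩ := hper Y ⟨hY3, hYL⟩ _ hbN
    have hFY : F (Y + b) = F Y := by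
      obtain ⟨P', Q', -, -, hPQ, -⟩ := hF
      rw [hPQ _ hYb3, hPQ _ ⟨hY3, hYL⟩, hs', hr']
    rw [hFY] at h2
    rw [← h2]
    refine Finset.prod_congr rfl fun j _ => ?_
    congr 1
    refine Finset.prod_congr rfl fun k hk => ?_
    congr 1
    have h3 : nt (i k) * ptE R (3 ^ (n + 1) * f) (i k) (x k) +
        muXE R (i k) * emb (x k) * nt (i k) / nu0 * (Y + b) =
        (nt (i k) * ptE R (3 ^ (n + 1) * f) (i k) (x k) +
        muXE R (i k) * emb (x k) * nt (i k) / nu0 * Y) +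
        muXE R (i k) * emb (x k) * nt (i k) / nu0 * b := by ring
    rw [h3, theta_per _ _ _ _ ((hP j k hk).1 _ hbN)]
  -- the comparison
  have hS := asm hALG hPRO hPts X g
    (fun k Y => ThetaH (Nt (i k)) (Ht (i k)) (nt (i k) * ptE R (3 ^ (n + 1) * f) (i k) (x k) +
        muXE R (i k) * emb (x k) * nt (i k) / nu0 * Y) /
        ThetaH (Nt (i k)) (Ht (i k)) (nt (i k) * ptE R (3 ^ (n + 1) * f) (i k) (x k)))
    (fun k => muXE R (i k) * emb (x k) * nt (i k) / nu0 *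
      dlX (Nt (i k)) a (nt (i k) * ptE R (3 ^ (n + 1) * f) (i k) (x k)) / u0)
    (fun j k hk => (hP j k hk).2.2.2)
  obtain ⟨hcst, -, -, -, -, hmul, -⟩ := hALG _ _ _ _ _ _ hPts
  have hG' : Rep V (E3 N0) (su N0 u0 e0) (ru N0 u0 e0)
      (fun Y => F Y * w0⁻¹) (w0 * w0⁻¹) (w0 * 0 + w0⁻¹ * β) :=
    hmul _ _ _ _ _ _ hF (hcst w0⁻¹ (by rw [map_inv₀, vw0, inv_one]))
  have hS' := (hPRO _ _ _ _ _ _ hPts).2.2 _ _ _ _ _ _ hG' key2 hS
  have hu00 : u0 ≠ 0 := hg0.u0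
  have huu : u ≠ 0 := hgood.u0
  have hnu00 : nu0 ≠ 0 := hQ0.1
  have hfin : (∑ j, (g j : ℂ) * ∑ k ∈ X j, emb (x k) * muXE R (i k) *
        ∑ l ∈ Finset.range 3, dlX (R.L (i k)) a
          (ptE R (3 ^ (n + 1) * f) (i k) (x k) + l * q k)) / u =
      (∑ j, (g j : ℂ) * ∑ k ∈ X j, muXE R (i k) * emb (x k) * nt (i k) / nu0 *
      dlX (Nt (i k)) a (nt (i k) * ptE R (3 ^ (n + 1) * f) (i k) (x k)) / u0) *
        (nu0 * u0 / u) := by
    rw [Finset.sum_div, Finset.sum_mul]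
    refine Finset.sum_congr rfl fun j _ => ?_
    rw [mul_div_assoc, mul_assoc, Finset.sum_div, Finset.sum_mul]
    congr 1
    refine Finset.sum_congr rfl fun k hk => ?_
    obtain ⟨hxk, hqk, hqL⟩ := hX j k hk
    obtain ⟨C, hC0, hCz⟩ := hDi k hqk hqL
    obtain ⟨-, hz, hza, -⟩ := hP j k hk
    rw [(hCz _ hza).2]
    field_simp
  have hpis := hPIS A B P V hC hT hG (R.L R.i0) N0 nu0 u e lam u0 e0 l0 (hNLR _) hNN0 hQ0 hgood
    hg0
  rw [hfin, map_mul, mul_pow, hpis, pow_succ]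
  exact mul_le_mul' (pow_le_pow_left' hS' 2) le_rfl

end

end Pool.Agent.ME3
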