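import Pool.Agent.ME.StE3
import Pool.Agent.ME.X_TRA
import Pool.Agent.ME.X_TRB
import Pool.Agent.ME.X_FAC
import Pool.Agent.ME.X_GTH
import Pool.Agent.ME.X_PT
import Pool.Agent.ME.X_GAL
import Pool.Agent.MUX.E_TRA
import Pool.Agent.MUX.E_TRB

/-!
# MUX-NS, block ER: the multiplier of `L → ν P⁻¹ L` (PIS), `3` ramified (helper61)

The product formula (PFI) for `w = ω₁ / 5`, `z = ω₁ / 7`; the preparations are those of helper1's `F_TPR.lean`.
-/

set_option autoImplicit false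

open Polynomial

namespace Pool.Agent.ME3

open _root_.MU3 Pool.Agent.MU3A Pool.Agent.MU3B Pool.Agent.MUX Pool.Agent.MUXU Pool.Agent.MUXE
open Pool.Agent.RI Pool.Agent.NS Pool.Agent.NSRD
open Pool.Agent.ME hiding ActE
open Pool.Agent.MEE
open Pool.Agent.NSER (PtsR Ex Sf_ALG Sf_PRO Sf_PUL Sf_COE Sf_GRN Sf_LEG Sf_TW3 Sf_PTS Sf_TNC Sf_UNT Sf_RAT Sf_ISO Sf_ADD Sf_THN Sf_NE1 Sf_ORB)
open Pool.Agent.MUXV (GR InK tX)
open Pool.Agent.NSE (E3 su ru WL IntP Rep)

noncomputable section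

namespace PIS

theorem inv_pow_eq {Γ : Type*} [LinearOrderedCommGroupWithZero Γ] {T π : Γ} {m : ℕ}
    (hT : T ≠ 0) (h : T⁻¹ ^ m = π) : T ^ m * π = 1 := by
  rw [← h, inv_pow]
  exact mul_inv_cancel₀ (pow_ne_zero _ hT)

theorem one_lt_of {Γ : Type*} [LinearOrderedCommGroupWithZero Γ] {T π : Γ} {m : ℕ}
    (h : T ^ m * π = 1) (hπ : π < 1) : 1 < T := by
  by_contra hc
  have hc' : T ≤ 1 := not_lt.1 hc
  have h1 : T ^ m ≤ 1 := pow_le_one' hc' m
  have h2 : T ^ m * π ≤ 1 * π := mul_le_mul_left h1 π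
  rw [h, one_mul] at h2
  exact absurd hπ (not_lt.2 h2)

/-- rational multiples of the period `ω₁` -/
theorem rat_mul (L : PeriodPair) (x : ℚ) (hx : x.den ≠ 1) : ((x : ℚ) : ℂ) * L.ω₁ ∉ L.lattice := by
  intro hm
  have e : ((x : ℚ) : ℂ) * L.ω₁ = ((x : ℚ) : ℂ) * L.ω₁ + ((0 : ℚ) : ℂ) * L.ω₂ := by
    push_cast
    ring
  rw [e, PeriodPair.mul_ω₁_add_mul_ω₂_mem_lattice] at hm
  exact hx hm.1

end PIS

open PIS in
theorem t3_PIS (h2 : Sf_GRN) (h3 : Sf_TNC) (h4 : S3_RPV) (h6 : Su_BAC) (h7 : Su_PFI) :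
    S3_PIS := by
  intro A B P V h hT hG L N ν u e lam u' e' lam' hL hN hQ hg hg'
  obtain ⟨φ, hφ⟩ := h.ring.hom
  have embn : ∀ n : ℕ, emb ((n : ℕ) : OO A B) = n := fun n => by rw [← hφ, map_natCast]
  have hv3 := h.v3
  have mem3 : ((3 : ℕ) : OO A B) ∈ P := by
    have h8 : ((3 : ℕ) : OO A B) ∈ idl (A := A) (B := B) 3 :=
      Ideal.subset_span (Set.mem_singleton _)
    rw [← h.sq] at h8
    exact Ideal.mul_le_left h8
  have hPbot : P ≠ ⊥ := by
    intro h0
    rw [h0, Ideal.mem_bot] at mem3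
    have h9 := embn 3
    rw [mem3, ← hφ, map_zero] at h9
    norm_num at h9
  have hπ0 : V.valuation (3 : ℂ) ≠ 0 := (Valuation.ne_zero_iff _).2 (by norm_num)
  obtain ⟨tra1, tra2, tra3, tra4, tra5, tra6, tra7, tra8, tra9⟩ := tm_TRA A B h.ring L hL
  have hν : ν ≠ 0 := hQ.1
  have hTor : ∀ z, ν * z ∈ N.lattice ↔ Tor P L z := hQ.2
  have hIsg : Isg L N ν := fun w hw => (hTor w).2 (fun x _ => tra1 x w hw)
  obtain ⟨⟨R, hR⟩, -⟩ := h6.2 L N ν hν hIsg
  obtain ⟨ξ, G⟩ := h2 V L u e lam hg hv3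
  obtain ⟨ξ', G'⟩ := h2 V N u' e' lam' hg' hv3
  have hu := hg.u0
  have hu' := hg'.u0
  -- the points of orders 5, 7, 35
  have hω : ∀ k : ℤ, (k : ℂ) * L.ω₁ ∈ L.lattice := by
    intro k
    have := L.lattice.smul_mem k L.ω₁_mem_lattice
    rwa [zsmul_eq_mul] at this
  -- a rational point of order prime to three
  have good : ∀ (x : ℚ) (n : ℕ) (k : ℤ), ¬ 3 ∣ n → (n : ℂ) * ((x : ℚ) : ℂ) = (k : ℂ) →
      x.den ≠ 1 →
      ¬ InK V L (xu L u e) (((x : ℚ) : ℂ) * L.ω₁) ∧ ν * (((x : ℚ) : ℂ) * L.ω₁) ∉ N.lattice ∧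
      ¬ InK V N (xu N u' e') (ν * (((x : ℚ) : ℂ) * L.ω₁)) := by
    intro x n k hn hk hx
    have hnL : (n : ℂ) * (((x : ℚ) : ℂ) * L.ω₁) ∈ L.lattice := by
      rw [← mul_assoc, hk]
      exact hω k
    have hxL := rat_mul L x hx
    have m1 : ν * (((x : ℚ) : ℂ) * L.ω₁) ∉ N.lattice := by
      intro h8
      have h9 := (hTor _).1 h8 _ mem3
      rw [embn] at h9
      apply hxL
      have hcop : Int.gcd 3 n = 1 := by
        have : Nat.Coprime 3 n := (Nat.Prime.coprime_iff_not_dvd Nat.prime_three).2 hn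
        simpa [Int.gcd] using this
      have hb := Int.gcd_eq_gcd_ab 3 n
      rw [hcop] at hb
      have h10 := add_mem (L.lattice.smul_mem (Int.gcdA 3 n) h9) (L.lattice.smul_mem (Int.gcdB 3 n) hnL)
      rw [zsmul_eq_mul, zsmul_eq_mul] at h10
      have hb' : (1 : ℂ) = 3 * (Int.gcdA 3 n : ℂ) + n * (Int.gcdB 3 n : ℂ) := by exact_mod_cast hb
      convert h10 using 1
      push_cast
      linear_combination (((x : ℚ) : ℂ) * L.ω₁) * hb'
    refine ⟨fun hin => hxL ((h3 V L u e lam hg hv3 n hn).2 _ hnL hin), m1, fun hin => ?_⟩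
    refine m1 ((h3 V N u' e' lam' hg' hv3 n hn).2 _ ?_ hin)
    have h8 := hIsg _ hnL
    rwa [show ν * ((n : ℂ) * (((x : ℚ) : ℂ) * L.ω₁)) = (n : ℂ) * (ν * (((x : ℚ) : ℂ) * L.ω₁)) by ring] at h8
  obtain ⟨w1, w2, w3⟩ := good (1 / 5) 5 1 (by norm_num) (by push_cast; norm_num) (by norm_num)
  obtain ⟨z1, z2, z3⟩ := good (1 / 7) 7 1 (by norm_num) (by push_cast; norm_num) (by norm_num)
  obtain ⟨p1, p2, p3⟩ := good (12 / 35) 35 12 (by norm_num) (by push_cast; norm_num) (by norm_num)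
  obtain ⟨s1, s2, s3⟩ := good (-2 / 35) 35 (-2) (by norm_num) (by push_cast; norm_num) (by norm_num)
  have ep : (((12 / 35 : ℚ) : ℚ) : ℂ) * L.ω₁ =
      (((1 / 7 : ℚ) : ℚ) : ℂ) * L.ω₁ + (((1 / 5 : ℚ) : ℚ) : ℂ) * L.ω₁ := by
    push_cast
    ring
  have es : (((-2 / 35 : ℚ) : ℚ) : ℂ) * L.ω₁ =
      (((1 / 7 : ℚ) : ℚ) : ℂ) * L.ω₁ - (((1 / 5 : ℚ) : ℚ) : ℂ) * L.ω₁ := by
    push_cast
    ring
  rw [ep] at p1 p2 p3
  rw [es] at s1 s2 s3
  generalize (((1 / 7 : ℚ) : ℚ) : ℂ) * L.ω₁ = z at z1 z2 z3 p1 p2 p3 s1 s2 s3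
  generalize (((1 / 5 : ℚ) : ℚ) : ℂ) * L.ω₁ = w at w1 w2 w3 p1 p2 p3 s1 s2 s3
  -- the representatives
  have torR : ∀ q ∈ R, Tor P L q := fun q hq => (hTor q).1 (hR.mem q hq)
  have hRk : ∀ q ∈ R, InK V L (xu L u e) q ∧ xu L u e q ≠ 0 ∧
      V.valuation (xu L u e q) ^ 2 * V.valuation (3 : ℂ) = 1 := by
    intro q hq
    obtain ⟨k1, k2, k3⟩ := h4 A B P V h hT hG L u e lam hL hg q (torR q hq) (hR.ne q hq)
    refine ⟨k1, k2, ?_⟩
    unfold su at k3
    rw [map_inv₀] at k3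
    exact inv_pow_eq ((Valuation.ne_zero_iff _).2 k2) k3
  -- congruence of the points of `E[P]`
  have cong : ∀ q q', Tor P L q → Tor P L q' → q ∉ L.lattice → q' ∉ L.lattice →
      q' - q ∈ L.lattice ∨ q' + q ∈ L.lattice := by
    intro q q' hq hq' hqL hqL'
    obtain ⟨x, hx⟩ := (tm_TRB A B h.ring L hL).2 P hPbot h.max q q' hq hq' hqL
    by_cases hxP : x ∈ P
    · exfalso
      apply hqL'
      have := add_mem hx (hq x hxP)
      rwa [sub_add_cancel] at this
    · rcases h.pm x hxP with h8 | h8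
      · left
        have h9 := add_mem hx (hq _ h8)
        rw [← hφ (x - 1), map_sub, map_one, hφ] at h9
        convert h9 using 1
        ring
      · right
        have h9 := add_mem hx (hq _ h8)
        rw [← hφ (x + 1), map_add, map_one, hφ] at h9
        convert h9 using 1
        ring
  obtain ⟨q0', hq0', hq0L'⟩ : ∃ q, Tor P L q ∧ q ∉ L.lattice := by
    obtain ⟨q, k1, k2⟩ := (tm_TRB A B h.ring L hL).1 ⊤ P hPbot h.max.ne_top.lt_top
    exact ⟨q, k1, fun h8 => k2 fun x _ => tra1 x q h8⟩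
  obtain ⟨q0, hq0R, -⟩ := hR.surj q0' ((hTor q0').2 hq0') hq0L'
  have hq0L := hR.ne q0 hq0R
  have hq0T := torR q0 hq0R
  have hpq : (3 : ℂ) * q0 ∈ L.lattice := by
    have := hq0T _ mem3
    rw [embn] at this
    exact_mod_cast this
  have hcard : R.card = 3 - 1 := by
    have hnT : Tor P L (-q0) := fun x hx => by
      rw [mul_neg]
      exact neg_mem (hq0T x hx)
    have hnL : -q0 ∉ L.lattice := fun h8 => hq0L (by simpa using neg_mem h8)
    obtain ⟨q1, hq1R, hq1⟩ := hR.surj (-q0) ((hTor _).2 hnT) hnL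
    have hne : q0 ≠ q1 := by
      rintro rfl
      apply hq0L
      have h8 := add_mem hq1 hpq
      convert h8 using 1
      ring
    have : R = {q0, q1} := by
      ext q
      rw [Finset.mem_insert, Finset.mem_singleton]
      constructor
      · intro hq
        rcases cong q0 q hq0T (torR q hq) hq0L (hR.ne q hq) with h8 | h8
        · exact Or.inl (hR.inj q hq q0 hq0R h8)
        · right
          apply hR.inj q hq q1 hq1R
          have h9 := add_mem h8 hq1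
          convert h9 using 1
          ring
      · rintro (rfl | rfl)
        · exact hq0R
        · exact hq1R
    rw [this, Finset.card_pair hne]
  have hRT : ∀ q ∈ R, V.valuation (xu L u e q) = V.valuation (xu L u e q0) := by
    intro q hq
    have h8 : V.valuation (xu L u e q) ^ 2 * V.valuation (3 : ℂ) =
        V.valuation (xu L u e q0) ^ 2 * V.valuation (3 : ℂ) := by
      rw [(hRk q hq).2.2, (hRk q0 hq0R).2.2]
    exact (pow_left_inj₀ zero_le zero_le two_ne_zero).1 (mul_right_cancel₀ hπ0 h8)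
  -- the product formula
  have pf := h7 L N ν R hν hIsg hR w w2 z z2
  have xd : ∀ a b : ℂ, L.weierstrassP a - L.weierstrassP b =
      u ^ 2 * (xu L u e a - xu L u e b) := by
    intro a b
    unfold xu
    field_simp
    ring
  have xd' : ∀ a b : ℂ, N.weierstrassP a - N.weierstrassP b =
      u' ^ 2 * (xu N u' e' a - xu N u' e' b) := by
    intro a b
    unfold xu
    field_simp
    ring
  have pf' : (ν * u' / u) ^ 2 * (xu N u' e' (ν * z) - xu N u' e' (ν * w)) *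
      ∏ q ∈ R, (xu L u e z - xu L u e q) =
      (xu L u e z - xu L u e w) * ∏ q ∈ R, (xu L u e z - xu L u e (w + q)) := by
    simp only [xd, xd', Finset.prod_mul_distrib, Finset.prod_const] at pf
    have hu2 : u ^ 2 * (u ^ 2) ^ R.card ≠ 0 := by positivity
    apply mul_left_cancel₀ hu2
    have e1 : u ^ 2 * (ν * u' / u) ^ 2 = ν ^ 2 * u' ^ 2 := by
      field_simp
    linear_combination pf + ((u ^ 2) ^ R.card *
      (xu N u' e' (ν * z) - xu N u' e' (ν * w)) * ∏ q ∈ R, (xu L u e z - xu L u e q)) * e1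
  have hT1 : 1 < V.valuation (xu L u e q0) := one_lt_of (hRk q0 hq0R).2.2 hv3
  have v1 : V.valuation (xu N u' e' (ν * z) - xu N u' e' (ν * w)) = 1 :=
    Pool.Agent.MUXV.v_X_sub G' z3 w3 (by rw [← mul_add]; exact p3) (by rw [← mul_sub]; exact s3)
  have v2 : V.valuation (xu L u e z - xu L u e w) = 1 :=
    Pool.Agent.MUXV.v_X_sub G z1 w1 p1 s1
  have v3 : ∀ q ∈ R, V.valuation (xu L u e z - xu L u e (w + q)) = 1 := by
    intro q hqR
    have hq := (hRk q hqR).1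
    refine Pool.Agent.MUXV.v_X_sub G z1 (fun hin => w1 ?_) (fun hin => p1 ?_) (fun hin => s1 ?_)
    · have := Pool.Agent.MUXV.inK_sub G hin hq
      rwa [add_sub_cancel_right] at this
    · have := Pool.Agent.MUXV.inK_sub G hin hq
      rwa [show z + (w + q) - q = z + w by ring] at this
    · have := Pool.Agent.MUXV.inK_add G hin hq
      rwa [show z - (w + q) + q = z - w by ring] at this
  have hzint : V.valuation (xu L u e z) ≤ 1 := (Pool.Agent.MUXV.int_X z1).2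
  have v4 : ∀ q ∈ R, V.valuation (xu L u e z - xu L u e q) = V.valuation (xu L u e q0) := by
    intro q hqR
    rw [← hRT q hqR]
    apply Valuation.map_sub_eq_of_lt_right
    rw [hRT q hqR]
    exact lt_of_le_of_lt hzint hT1
  have key := congrArg V.valuation pf'
  rw [map_mul, map_mul, map_mul, map_prod, map_prod, v1, v2, Finset.prod_congr rfl v3,
    Finset.prod_congr rfl v4, Finset.prod_const, Finset.prod_const_one, hcard, map_pow,
    mul_one, mul_one] at key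
  have hq0' : V.valuation (xu L u e q0) ^ 2 ≠ 0 :=
    pow_ne_zero _ ((Valuation.ne_zero_iff _).2 (hRk q0 hq0R).2.1)
  apply mul_right_cancel₀ hq0'
  rw [mul_comm (V.valuation (3 : ℂ)), (hRk q0 hq0R).2.2]
  exact key

end

end Pool.Agent.ME3
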