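import Pool.Agent.ME.StE3
import Pool.Agent.ME.X_TRA
import Pool.Agent.ME.X_TRB
import Pool.Agent.ME.X_FAC
import Pool.Agent.ME.X_GTH
import Pool.Agent.ME.X_PT
import Pool.Agent.ME.X_GAL

/-!
# MUX-NS, block ER, module RP1: the coordinates of the points of `E[P]` are in `RFE (2)`
-/

set_option autoImplicit false

open Polynomial

namespace Pool.Agent.ME3

open _root_.MU3 Pool.Agent.MU3A Pool.Agent.MU3B Pool.Agent.MUX Pool.Agent.MUXU Pool.Agent.MUXE
open Pool.Agent.RI Pool.Agent.NS Pool.Agent.NSRD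
open Pool.Agent.ME hiding ActE
open Pool.Agent.MEE
open Pool.Agent.NSER (PtsR Ex Sf_ALG Sf_PRO Sf_PUL Sf_COE Sf_GRN Sf_LEG Sf_TW3 Sf_PTS Sf_TNC Sf_UNT Sf_RAT Sf_ISO Sf_ADD Sf_THN Sf_NE1 Sf_ORB)
open Pool.Agent.MUXV (GR InK tX)
open Pool.Agent.NSE (E3 su ru WL IntP Rep)

noncomputable section

theorem t3_RP1 (h1 : Sf_LEG) : S3_RP1 := by
  classical
  intro A B P V hC hG L u e lam hL hg
  have hR := hC.ring
  have hded := hR.ded
  obtain ⟨φ, hφ⟩ := hR.hom
  obtain ⟨f1, hx, -, -, -⟩ := Pool.Agent.MEE.tm_FAC Pool.Agent.MEE.tm_TRA A B hR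
  obtain ⟨-, -, -, -, hsp, -, -, -, hper⟩ := Pool.Agent.MEE.tm_TRA A B hR L hL
  -- the points of order two
  obtain ⟨w₁, w₂, a1, a1', a2, a2', he, hu, -⟩ := h1 V L u e lam hg hC.v3
  have e2 : emb ((2 : ℕ) : OO A B) = 2 := by rw [← hφ, map_natCast]; norm_num
  have m1 : xnE L w₁ ∈ RFE (idl (A := A) (B := B) 2) :=
    (hx _ L hL).2 w₁ ((hsp _ _).2 (by rw [e2]; exact a1)) a1'
  have m2 : xnE L w₂ ∈ RFE (idl (A := A) (B := B) 2) :=
    (hx _ L hL).2 w₂ ((hsp _ _).2 (by rw [e2]; exact a2)) a2'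
  have e3 : u ^ 2 = xnE L w₂ - xnE L w₁ := by
    rw [← hu, xnE, xnE]
  have hq : (0 : ℂ) ∈ RFE (idl (A := A) (B := B) 2) := by
    exact zero_mem _
  have hu2 : u ^ 2 ∈ RFE (idl (A := A) (B := B) 2) := by
    rw [e3]
    exact sub_mem m2 m1
  have e4 : e = xnE L w₁ + 0 := by
    rw [← he, xnE]
    ring
  have he2 : e ∈ RFE (idl (A := A) (B := B) 2) := by
    rw [e4]
    exact add_mem m1 hq
  refine ⟨hu2, he2, ?_⟩
  intro z hz hzL
  -- the fields
  set m' : Ideal (OO A B) := idl (A := A) (B := B) 2 with hm'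
  set m : Ideal (OO A B) := m' * P with hm
  have hmm' : m ≤ m' := Ideal.mul_le_left
  have hmP : m ≤ P := Ideal.mul_le_right
  have hm2 : m' ≤ idl (A := A) (B := B) 2 := le_of_eq hm'
  have hn0 : ∀ n : ℕ, n ≠ 0 → idl (A := A) (B := B) n ≠ ⊥ := by
    intro n hn h0
    have h4 : ((n : ℕ) : OO A B) ∈ idl (A := A) (B := B) n := Ideal.mem_span_singleton_self _
    rw [h0, Ideal.mem_bot] at h4
    have h5 : φ ((n : ℕ) : OO A B) = ((n : ℕ) : ℂ) := map_natCast φ _
    rw [h4, map_zero] at h5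
    exact hn (by exact_mod_cast h5.symm)
  have hP0 : P ≠ ⊥ := by
    intro h0
    apply hn0 3 (by norm_num)
    rw [← hC.sq, h0]
    simp
  have hm0 : m ≠ ⊥ := mul_ne_zero (hn0 2 (by norm_num)) hP0
  have hF : RFE m' ≤ RFE m := f1 m m' hmm'
  have hfin := hG.fin m hm0
  have hgal := hG.gal m hm0
  have hzm : Tor m L z := fun x hxm => hz x (hmP hxm)
  have hxz : xnE L z ∈ RFE m := (hx m L hL).2 z hzm hzL
  set E : IntermediateField (kk A B) (RFE m) := IntermediateField.restrict hF with hE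
  have key : (⟨xnE L z, hxz⟩ : RFE m) ∈ E := by
    rw [← IsGalois.fixedField_fixingSubgroup E, IntermediateField.mem_fixedField_iff]
    intro σ hσ
    obtain ⟨α, hα1, hα2⟩ := hG.ker m m' hm0 hmm' hm2 (em σ) (by
      intro y hy hy'
      have h4 : (⟨y, hy⟩ : RFE m) ∈ E := (IntermediateField.mem_restrict hF _).2 hy'
      have h5 := (IntermediateField.mem_fixingSubgroup_iff E _).1 hσ ⟨y, hy⟩ h4
      exact congrArg Subtype.val h5)
    have hαP : α ∉ P := by
      intro hα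
      have h5 : sp α ≤ P := (Ideal.span_singleton_le_iff_mem P).2 hα
      have h7 : sp α ⊔ m = ⊤ := Ideal.isCoprime_iff_sup_eq.1 hα2.1
      have h8 : (⊤ : Ideal (OO A B)) ≤ P := h7 ▸ sup_le h5 hmP
      exact hC.max.ne_top (top_le_iff.1 h8)
    obtain ⟨b1, b2⟩ := (hα2.2 L hL).2 z hzm hzL
    have b3 : em σ ⟨xnE L z, hxz⟩ = xnE L (emb α * z) := b2 hxz
    have b4 : xnE L (emb α * z) = xnE L z := by
      rcases hC.pm α hαP with h | h
      · have h5 := hz _ h
        have h6 : emb (α - 1) * z = emb α * z - z := by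
          rw [← hφ, map_sub, map_one, hφ]; ring
        rw [h6] at h5
        exact ((hper _ _ h5).2 b1).1
      · have h5 := hz _ h
        have h6 : emb (α + 1) * z = emb α * z - (-z) := by
          rw [← hφ, map_add, map_one, hφ]; ring
        rw [h6] at h5
        rw [((hper _ _ h5).2 b1).1]
        exact ((hper z z (by simp)).2 hzL).2.2
    apply Subtype.ext
    show em σ ⟨xnE L z, hxz⟩ = xnE L z
    rw [b3, b4]
  have hx2 : xnE L z ∈ RFE m' := (IntermediateField.mem_restrict hF _).1 key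
  refine ⟨hx2, ?_⟩
  have e5 : xu L u e z = (xnE L z + 0 - e) / u ^ 2 := by
    rw [xu, xnE]
    ring
  rw [e5]
  exact div_mem (sub_mem (add_mem hx2 hq) he2) hu2

end

end Pool.Agent.ME3
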