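import Pool.Agent.ME.StE3
import Pool.Agent.ME.X_TRA
import Pool.Agent.ME.X_PT
import Pool.Agent.ME.C_CMM
import Pool.Agent.ME.C_SGQ
import Pool.Agent.ME.CLib
import Pool.Agent.MUX.UAll
import Pool.Agent.MUX.I_XXF
import Pool.Agent.MUX.XLib

/-!
# ME, block E for `D = -3`, module STB: the sets `XXE` are stable under multiplication by `b`
(helper86). A direct proof: `b ≡ 1` modulo `lvR P f n`, `ρ` acts as `± b`, `σ` as `μ`, and `μ z₀ ≡ ± pt i x`.
-/

set_option autoImplicit false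

open Polynomial

namespace Pool.Agent.ME3

open _root_.MU3 Pool.Agent.MU3A Pool.Agent.MU3B Pool.Agent.MUX Pool.Agent.MUXU Pool.Agent.MUXE
open Pool.Agent.RI Pool.Agent.NS Pool.Agent.NSRD
open Pool.Agent.ME hiding ActE
open Pool.Agent.MEE

noncomputable section

/-- lowering the level -/
lemma act_low {A B : ℤ} {σ : ℂ ≃+* ℂ} {m m' a : Ideal (OO A B)} {L L' : PeriodPair} {mu : ℂ}
    (hle : m ≤ m') (h : Pool.Agent.ME.ActE σ m a L L' mu) :
    Pool.Agent.ME.ActE σ m' a L L' mu :=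
  ⟨h.kapE, Ideal.isCoprime_iff_sup_eq.2 (top_le_iff.1 (by
    rw [← Ideal.isCoprime_iff_sup_eq.1 h.cop]; exact sup_le_sup_left hle a)), h.isq,
    fun z hz => h.act z fun x hx => hz x (hle hx)⟩

theorem t3_STB (hIDL : S3_IDL) : S3_STB := by
  intro A B P V hR T n f hn hf hf2 hf3 ι R D h hD
  let := algC h
  intro τ b hbc hbl q hq
  have hC : MUX.CQ A B := hR.cq
  have hml : lvX 3 f n = 3 ^ (n + 1) * f := by
    unfold lvX q0
    rw [if_neg (by norm_num)]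
    ring
  have h3n : 3 ≤ 3 ^ (n + 1) := by
    calc 3 = 3 ^ 1 := by norm_num
      _ ≤ 3 ^ (n + 1) := Nat.pow_le_pow_right (by norm_num) (by omega)
  have hm2 : 2 ≤ lvX 3 f n := by
    rw [hml]
    have := Nat.mul_le_mul h3n (Nat.one_le_iff_ne_zero.2 hf)
    omega
  have hmne : lvX 3 f n ≠ 0 := by omega
  have hm0 := Pool.Agent.MUXI.XXF.idl_ne (A := A) (B := B) hm2
  obtain ⟨-, -, -, -, hidl⟩ := hIDL A B P V hR
  obtain ⟨-, -, hle, -, hlv0, -, -⟩ := hidl f n hf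
  rw [← hml] at hle
  have hle2 : idl (A := A) (B := B) (lvX 3 f n) ≤ idl 2 := by
    obtain ⟨f', rfl⟩ := hf2
    rw [Ideal.span_singleton_le_span_singleton, hml]
    exact ⟨((3 ^ (n + 1) * f' : ℕ) : OO A B), by push_cast; ring⟩
  have hlv2 : lvR P f n ≤ idl (A := A) (B := B) 2 := by
    obtain ⟨f', rfl⟩ := hf2
    refine Ideal.mul_le_left.trans ?_
    rw [Ideal.span_singleton_le_span_singleton]
    exact ⟨(f' : OO A B), by push_cast; ring⟩
  have hb0 : b ≠ 0 := Pool.Agent.MUXI.XXF.not_coprime_zero hm2 hbc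
  obtain ⟨hq1, σ, hσ, hτ, hh⟩ := hq
  have hb2 : b - 1 ∈ idl (A := A) (B := B) 2 := hlv2 hbl
  -- the action of `σ`
  have hSGQ := Pool.Agent.MEC.tc_SGQ u_DET
  obtain ⟨a, hac, hact⟩ := T.act _ hm0 σ hσ
  obtain ⟨b', L', om', mu, hL', hA⟩ := hact _ _ _ (R.nl R.i0)
  have hA1 := Pool.Agent.MEC.CMM.ActE.change hSGQ hA hL'.nrm (R.nl q.1).nrm
  -- the automorphism `ρ`
  obtain ⟨ρ, hρ, hρa⟩ := T.surj _ hm0 (sp b) (by rw [Ne, Ideal.span_singleton_eq_bot]; exact hb0)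
    ((Ideal.isCoprime_span_singleton_iff _ _).2 hbc)
  obtain ⟨b'', L'', om'', nu, hL'', hB⟩ := hρa _ _ _ (R.nl R.i0)
  have hB1 := Pool.Agent.MEC.CMM.ActE.change hSGQ hB hL''.nrm (R.nl R.i0).nrm
  obtain ⟨c, hnu, hcb, hc2⟩ := T.two _ (sp b) ρ _ _ _ _ _ hm0 hle2 hρ (R.nl R.i0) hB1
    (R.nl R.i0).nrm
  have hcpm : c = b ∨ c = -b := by
    have := hR.ring.ded
    obtain ⟨ε, hε⟩ := Ideal.span_singleton_eq_span_singleton.1 hcb
    have h1 : (ε : OO A B) - 1 ∈ idl (A := A) (B := B) 2 := by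
      have h2 : (ε : OO A B) - 1 = (c - 1) - (b - 1) - (b - 1) * (ε - 1) := by
        rw [← hε]; ring
      rw [h2]
      exact sub_mem (sub_mem hc2 hb2) (Ideal.mul_mem_right _ _ hb2)
    rcases Pool.Agent.MEC.unit_two hR.case ε.isUnit h1 with h2 | h2
    · left; rw [← hε, h2, mul_one]
    · right; rw [← hε, h2, mul_neg, mul_one]
  -- `ρ` is trivial on `D`
  have hρD : ∀ y ∈ D, ρ y = y := fun y hy =>
    (T.triv _ (sp b) ρ _ _ _ _ _ hlv0 (Or.inl hlv2) hρ (R.nl R.i0) (act_low hle hB1)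
        (R.nl R.i0).nrm).2 ⟨b, hbl, rfl⟩ y (hD y hy)
  have hτ2 : ExtC h τ (ρ.trans σ) := by
    intro y
    rw [RingEquiv.trans_apply, hρD y y.2]
    exact hτ y
  -- the new element
  set x' : OO A B := Quotient.out (q.2 * Ideal.Quotient.mk (idl (A := A) (B := B) (lvX 3 f n)) b)
    with hx'
  have e1 : Ideal.Quotient.mk (idl (A := A) (B := B) (lvX 3 f n)) x' =
      q.2 * Ideal.Quotient.mk (idl (A := A) (B := B) (lvX 3 f n)) b := Quotient.out_eq _
  have e2 : q.2 = Ideal.Quotient.mk (idl (A := A) (B := B) (lvX 3 f n)) (Quotient.out q.2) :=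
    (Quotient.out_eq _).symm
  have e3 : x' - Quotient.out q.2 * b ∈ idl (A := A) (B := B) (lvX 3 f n) := by
    apply Ideal.Quotient.eq.1
    rw [e1, map_mul, ← e2]
  have e4 : IsCoprime (Quotient.out q.2 * b : OO A B) ((lvX 3 f n : ℕ) : OO A B) :=
    IsCoprime.mul_left hq1 hbc
  obtain ⟨y, hy⟩ := Ideal.mem_span_singleton'.1 e3
  have e6 : x' = Quotient.out q.2 * b + y * ((lvX 3 f n : ℕ) : OO A B) := by rw [hy]; ring
  have e5 : IsCoprime x' ((lvX 3 f n : ℕ) : OO A B) := by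
    rw [e6]
    exact e4.add_mul_right_left y
  -- points
  have hring := hR.ring
  obtain ⟨φ, hφ⟩ := hring.hom
  have emul : ∀ x y : OO A B, emb (x * y) = emb x * emb y := fun x y => by
    rw [← hφ, map_mul, hφ, hφ]
  have eadd : ∀ x y : OO A B, emb (x + y) = emb x + emb y := fun x y => by
    rw [← hφ, map_add, hφ, hφ]
  have eneg : ∀ x : OO A B, emb (-x) = -emb x := fun x => by rw [← hφ, map_neg, hφ]
  have eone : emb (1 : OO A B) = 1 := by rw [← hφ, map_one]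
  have enat : ∀ n : ℕ, emb ((n : ℕ) : OO A B) = n := fun n => by rw [← hφ, map_natCast]
  obtain ⟨m1, m2, m3, m4⟩ := tm_PT tm_TRA A B hring (3 * f) ι R (by omega) q.1
  have hpf : (lvX 3 f n).primeFactors ⊆ (3 * f).primeFactors := by
    rw [hml]
    intro p hp
    rw [Nat.mem_primeFactors] at hp ⊢
    refine ⟨hp.1, ?_, by omega⟩
    rcases (Nat.Prime.dvd_mul hp.1).1 hp.2.1 with h1 | h1
    · exact (hp.1.dvd_of_dvd_pow h1).mul_right _
    · exact h1.mul_left _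
  have m4x := m4 _ hmne hpf
  obtain ⟨-, -, -, m40⟩ := tm_PT tm_TRA A B hring (3 * f) ι R (by omega) R.i0
  obtain ⟨p1, p2, p3, p4⟩ := m40 _ hmne hpf 1
  have hNL0 : NLE A B (R.L R.i0) := ⟨_, _, R.nl R.i0⟩
  have hNLi : NLE A B (R.L q.1) := ⟨_, _, R.nl q.1⟩
  obtain ⟨r1, r2, r3, r4, r5, r6, r7, r8, r9⟩ := tm_TRA A B hring _ hNL0
  obtain ⟨s1, s2, s3, s4, s5, s6, s7, s8, s9⟩ := tm_TRA A B hring _ hNLi
  obtain ⟨z0, hz0⟩ : ∃ z, z = ptE R (lvX 3 f n) R.i0 (1 : OO A B) := ⟨_, rfl⟩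
  rw [← hz0] at p2 p3
  have hz0T : Tor (idl (A := A) (B := B) (lvX 3 f n)) (R.L R.i0) z0 := by
    refine (r5 _ _).2 ?_
    rw [enat]
    exact p2
  have hz0L : z0 ∉ (R.L R.i0).lattice := by
    intro h1
    have h2 := p3 isCoprime_one_left 1 (by rwa [Nat.cast_one, one_mul])
    have h3 := Nat.le_of_dvd (by norm_num) h2
    omega
  have hbzT : Tor (idl (A := A) (B := B) (lvX 3 f n)) (R.L R.i0) (emb b * z0) := r3 _ b _ hz0T
  have hbzL : emb b * z0 ∉ (R.L R.i0).lattice := by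
    intro h1
    exact hz0L (r4 _ _ _ ((Ideal.isCoprime_span_singleton_iff b
      ((lvX 3 f n : ℕ) : OO A B)).2 hbc) ((r5 _ _).2 h1) hz0T)
  -- `μ z₀ ≡ ± pt i x`
  obtain ⟨zi, hzi⟩ : ∃ z, z = ptE R (lvX 3 f n) q.1 (Quotient.out q.2 : OO A B) := ⟨_, rfl⟩
  obtain ⟨hk, hxx, hpt⟩ := hh
  rw [← hz0, ← hzi] at hxx
  rw [← hzi] at hpt
  have hpm : mu * z0 - zi ∈ (R.L q.1).lattice ∨ mu * z0 + zi ∈ (R.L q.1).lattice := by
    rcases hA1.act z0 hz0T with h1 | ⟨-, h2, h3, -⟩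
    · exact absurd h1.1 hz0L
    · exact b_NEQ _ zi (mu * z0) hpt h2 (by
        have h4 := h3.symm.trans hxx
        exact h4)
  -- the image of `b z₀`
  have hbzi : xnE (R.L q.1) (mu * (emb b * z0)) = xnE (R.L q.1) (emb b * zi) ∧
      emb b * zi ∉ (R.L q.1).lattice := by
    rcases hA1.act _ hbzT with h1 | ⟨-, h2, -, -⟩
    · exact absurd h1.1 hbzL
    rcases hpm with h3 | h3
    · have h4 : mu * (emb b * z0) - emb b * zi ∈ (R.L q.1).lattice := by
        have h5 := s1 b _ h3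
        have h6 : mu * (emb b * z0) - emb b * zi = emb b * (mu * z0 - zi) := by ring
        rw [h6]; exact h5
      obtain ⟨h5, h6⟩ := s9 _ _ h4
      exact ⟨(h6 h2).1, fun h7 => h2 (h5.2 h7)⟩
    · have h4 : mu * (emb b * z0) - -(emb b * zi) ∈ (R.L q.1).lattice := by
        have h5 := s1 b _ h3
        have h6 : mu * (emb b * z0) - -(emb b * zi) = emb b * (mu * z0 + zi) := by ring
        rw [h6]; exact h5
      obtain ⟨h5, h6⟩ := s9 _ _ h4
      have h7 : emb b * zi ∉ (R.L q.1).lattice := fun h8 => h2 (h5.2 (neg_mem h8))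
      refine ⟨?_, h7⟩
      rw [(h6 h2).1]
      exact (s9 (emb b * zi) (emb b * zi) (by rw [sub_self]; exact zero_mem _)).2 h7 |>.2.2
  have hptx : ptE R (lvX 3 f n) q.1 x' - emb b * zi ∈ (R.L q.1).lattice := by
    have h1 := (m4x x').1
    have h2 := (m4x (Quotient.out q.2 : OO A B)).1
    have h3 : ptE R (lvX 3 f n) q.1 x' - emb b * zi = muXE R q.1 * (emb y * R.om R.i0) := by
      rw [hzi, h1, h2, e6, eadd, emul, emul, enat]
      have h4 : ((lvX 3 f n : ℕ) : ℂ) ≠ 0 := by exact_mod_cast hmne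
      field_simp
      ring
    rw [h3]
    refine m2 _ ((r1 y _) ?_)
    have h5 := (p4 ((lvX 3 f n : ℕ) : OO A B)).2 (dvd_refl _)
    have h6 : emb ((lvX 3 f n : ℕ) : OO A B) * (R.om R.i0 / ((lvX 3 f n : ℕ) : ℂ)) =
        R.om R.i0 := by
      rw [enat]
      have h4 : ((lvX 3 f n : ℕ) : ℂ) ≠ 0 := by exact_mod_cast hmne
      field_simp
    rwa [h6] at h5
  obtain ⟨t1, t2⟩ := s9 _ _ hptx
  have hptL : ptE R (lvX 3 f n) q.1 x' ∉ (R.L q.1).lattice := fun h1 => hbzi.2 (t1.1 h1)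
  have hfix : FixK A B (ρ.trans σ) := by
    change σ (ρ (wC A B)) = wC A B
    rw [show ρ (wC A B) = wC A B from hρ]
    exact hσ
  refine ⟨e5, ρ.trans σ, hfix, hτ2, ?_, ?_, hptL⟩
  · have h1 := hB1.kapE
    rw [hk, RingEquiv.trans_apply, ← h1]
  · rw [← hz0, RingEquiv.trans_apply, (t2 hptL).1, ← hbzi.1]
    have h1 : ρ (xnE (R.L R.i0) z0) = xnE (R.L R.i0) (emb b * z0) := by
      rcases hB1.act z0 hz0T with h1 | ⟨-, h2, h3, -⟩
      · exact absurd h1.1 hz0L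
      · rw [h3, hnu]
        rcases hcpm with rfl | rfl
        · rfl
        · rw [eneg, neg_mul]
          exact ((r9 (emb b * z0) (emb b * z0) (by rw [sub_self]; exact zero_mem _)).2
            hbzL).2.2
    rw [h1]
    rcases hA1.act _ hbzT with h1 | ⟨-, h2, h3, -⟩
    · exact absurd h1.1 hbzL
    · exact h3

end

end Pool.Agent.ME3
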