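import Pool.Agent.ME.StE3
import Pool.Agent.ME.X_TRA
import Pool.Agent.ME.X_TRB
import Pool.Agent.ME.X_FAC
import Pool.Agent.ME.X_GTH
import Pool.Agent.ME.X_PT
import Pool.Agent.ME.X_GAL
import Pool.Agent.MUX.E_TRA
import Pool.Agent.MUX.E_TRB
import Pool.Agent.MUX.E_TP

/-!
# MUX-NS, block ER: the points of exact order `P^(j+1)` (TPR), `3` ramified (helper1)
-/

set_option autoImplicit false

open Polynomial

namespace Pool.Agent.ME3

open _root_.MU3 Pool.Agent.MU3A Pool.Agent.MU3B Pool.Agent.MUX Pool.Agent.MUXU Pool.Agent.MUXE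
open Pool.Agent.RI Pool.Agent.NS Pool.Agent.NSRD
open Pool.Agent.ME hiding ActE
open Pool.Agent.MEE
open Pool.Agent.NSER (PtsR Ex Sf_ALG Sf_PRO Sf_PUL Sf_COE Sf_GRN Sf_LEG Sf_TW3 Sf_PTS Sf_TNC Sf_UNT Sf_RAT Sf_ISO Sf_ADD Sf_THN Sf_NE1 Sf_ORB)
open Pool.Agent.MUXV (GR InK tX)
open Pool.Agent.NSE (E3 su ru WL IntP Rep)

noncomputable section

namespace TPR

theorem one_lt_of {Γ : Type*} [LinearOrderedCommGroupWithZero Γ] {T π : Γ} {m : ℕ}
    (h : T ^ m * π = 1) (hπ : π < 1) : 1 < T := by
  by_contra hc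
  have hc' : T ≤ 1 := not_lt.1 hc
  have h1 : T ^ m ≤ 1 := pow_le_one' hc' m
  have h2 : T ^ m * π ≤ 1 * π := mul_le_mul_left h1 π
  rw [h, one_mul] at h2
  exact absurd hπ (not_lt.2 h2)

theorem inv_pow_eq {Γ : Type*} [LinearOrderedCommGroupWithZero Γ] {T π : Γ} {m : ℕ}
    (hT : T ≠ 0) (h : T⁻¹ ^ m = π) : T ^ m * π = 1 := by
  rw [← h, inv_pow]
  exact mul_inv_cancel₀ (pow_ne_zero _ hT)

theorem lt_one_of_sq {Γ : Type*} [LinearOrderedCommGroupWithZero Γ] {a b : Γ}
    (h : a ^ 2 = b) (hb : b < 1) : a < 1 := by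
  by_contra hc
  have hc' : 1 ≤ a := not_lt.1 hc
  have h1 : 1 ≤ a ^ 2 := one_le_pow₀ hc'
  rw [h] at h1
  exact absurd hb (not_lt.2 h1)

end TPR

open TPR in
theorem t3_TPR (h2 : Sf_GRN) (h3 : Sf_TNC) (h4 : S3_RPV) (h5 : S3_PIS) (h6 : Su_BAC)
    (h7 : Su_PFI) : S3_TPR := by
  intro A B P V h hT hG j
  obtain ⟨φ, hφ⟩ := h.ring.hom
  have embn : ∀ n : ℕ, emb ((n : ℕ) : OO A B) = n := fun n => by rw [← hφ, map_natCast]
  have hv3 := h.v3
  have mem3 : ((3 : ℕ) : OO A B) ∈ P := by
    have h8 : ((3 : ℕ) : OO A B) ∈ idl (A := A) (B := B) 3 :=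
      Ideal.subset_span (Set.mem_singleton _)
    rw [← h.sq] at h8
    exact Ideal.mul_le_left h8
  have hPbot : P ≠ ⊥ := by
    intro h0
    rw [h0, Ideal.mem_bot] at mem3
    have h9 := embn 3
    rw [mem3, ← hφ, map_zero] at h9
    norm_num at h9
  have hπ0 : V.valuation (3 : ℂ) ≠ 0 := (Valuation.ne_zero_iff _).2 (by norm_num)
  induction j with
  | zero =>
    intro L u e lam hL hg z hz hz0
    obtain ⟨tra1, -⟩ := tm_TRA A B h.ring L hL
    have hzL : z ∉ L.lattice := fun h8 => hz0 fun x _ => tra1 x z h8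
    rw [zero_add, pow_one] at hz
    obtain ⟨k1, k2, k3⟩ := h4 A B P V h hT hG L u e lam hL hg z hz hzL
    exact ⟨k1, k2, by simpa using k3⟩
  | succ j ih =>
    intro L u e lam hL hg z hz hz0
    obtain ⟨tra1, tra2, tra3, tra4, tra5, tra6, tra7, tra8, tra9⟩ := tm_TRA A B h.ring L hL
    obtain ⟨N, ν, hN, hQ⟩ := h.exq L hL
    obtain ⟨u', e', lam', hg'⟩ := h.good N hN
    have hν : ν ≠ 0 := hQ.1
    have hTor : ∀ z, ν * z ∈ N.lattice ↔ Tor P L z := hQ.2
    have hIsg : Isg L N ν := fun w hw => (hTor w).2 (fun x _ => tra1 x w hw)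
    obtain ⟨⟨R, hR⟩, -⟩ := h6.2 L N ν hν hIsg
    obtain ⟨ξ, G⟩ := h2 V L u e lam hg hv3
    have hmu := h5 A B P V h hT hG L N ν u e lam u' e' lam' hL hN hQ hg hg'
    have hu := hg.u0
    have hu' := hg'.u0
    -- the point of order 5
    have hw5 : ((5 : ℕ) : ℂ) * (L.ω₁ / 5) ∈ L.lattice := by
      convert L.ω₁_mem_lattice using 1; push_cast; ring
    have n1 := TP.fifth L
    set w : ℂ := L.ω₁ / 5 with hw
    have i1 : ¬ InK V L (xu L u e) w := fun hin =>
      n1 ((h3 V L u e lam hg hv3 5 (by norm_num)).2 w hw5 hin)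
    have m1 : ν * w ∉ N.lattice := by
      intro h8
      have h9 := (hTor w).1 h8 _ mem3
      rw [embn] at h9
      apply n1
      have h10 := sub_mem (add_mem h9 h9) hw5
      convert h10 using 1
      push_cast
      ring
    have i1' : ¬ InK V N (xu N u' e') (ν * w) := by
      intro hin
      refine m1 ((h3 V N u' e' lam' hg' hv3 5 (by norm_num)).2 _ ?_ hin)
      have h8 := hIsg _ hw5
      rwa [show ν * (((5 : ℕ) : ℂ) * w) = ((5 : ℕ) : ℂ) * (ν * w) by ring] at h8
    -- the point `z' = ν z`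
    have hz1 : Tor (P ^ (j + 1)) N (ν * z) := by
      intro x hx
      have h8 : Tor P L (emb x * z) := by
        apply tra6 (P ^ (j + 1)) P x z hx
        rw [← pow_succ]
        exact hz
      have h9 := (hTor _).2 h8
      rwa [show ν * (emb x * z) = emb x * (ν * z) by ring] at h9
    have hz2 : ¬ Tor (P ^ j) N (ν * z) := by
      intro h8
      apply hz0
      rw [pow_succ]
      apply tra7
      intro x hx
      have h9 := h8 x hx
      rw [show emb x * (ν * z) = ν * (emb x * z) by ring] at h9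
      exact (hTor _).1 h9
    obtain ⟨y1, y2, y3⟩ := ih N u' e' lam' hN hg' (ν * z) hz1 hz2
    have hzN : ν * z ∉ N.lattice := by
      intro h8
      apply hz2
      obtain ⟨trb1, -⟩ := tm_TRA A B h.ring N hN
      exact fun x _ => trb1 x _ h8
    -- the representatives
    have torR : ∀ q ∈ R, Tor P L q := fun q hq => (hTor q).1 (hR.mem q hq)
    have hRk : ∀ q ∈ R, InK V L (xu L u e) q ∧ xu L u e q ≠ 0 ∧
        V.valuation (xu L u e q) ^ 2 * V.valuation (3 : ℂ) = 1 := by
      intro q hq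
      obtain ⟨k1, k2, k3⟩ := h4 A B P V h hT hG L u e lam hL hg q (torR q hq) (hR.ne q hq)
      refine ⟨k1, k2, ?_⟩
      unfold su at k3
      rw [map_inv₀] at k3
      exact inv_pow_eq ((Valuation.ne_zero_iff _).2 k2) k3
    -- congruence of the points of `E[P]`
    have cong : ∀ q q', Tor P L q → Tor P L q' → q ∉ L.lattice → q' ∉ L.lattice →
        q' - q ∈ L.lattice ∨ q' + q ∈ L.lattice := by
      intro q q' hq hq' hqL hqL'
      obtain ⟨x, hx⟩ := (tm_TRB A B h.ring L hL).2 P hPbot h.max q q' hq hq' hqL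
      by_cases hxP : x ∈ P
      · exfalso
        apply hqL'
        have := add_mem hx (hq x hxP)
        rwa [sub_add_cancel] at this
      · rcases h.pm x hxP with h8 | h8
        · left
          have h9 := add_mem hx (hq _ h8)
          rw [← hφ (x - 1), map_sub, map_one, hφ] at h9
          convert h9 using 1
          ring
        · right
          have h9 := add_mem hx (hq _ h8)
          rw [← hφ (x + 1), map_add, map_one, hφ] at h9
          convert h9 using 1
          ring
    obtain ⟨q0', hq0', hq0L'⟩ : ∃ q, Tor P L q ∧ q ∉ L.lattice := by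
      obtain ⟨q, k1, k2⟩ := (tm_TRB A B h.ring L hL).1 ⊤ P hPbot h.max.ne_top.lt_top
      exact ⟨q, k1, fun h8 => k2 fun x _ => tra1 x q h8⟩
    obtain ⟨q0, hq0R, -⟩ := hR.surj q0' ((hTor q0').2 hq0') hq0L'
    have hq0L := hR.ne q0 hq0R
    have hq0T := torR q0 hq0R
    have hpq : (3 : ℂ) * q0 ∈ L.lattice := by
      have := hq0T _ mem3
      rw [embn] at this
      exact_mod_cast this
    have hcard : R.card = 3 - 1 := by
      have hnT : Tor P L (-q0) := fun x hx => by
        rw [mul_neg]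
        exact neg_mem (hq0T x hx)
      have hnL : -q0 ∉ L.lattice := fun h8 => hq0L (by simpa using neg_mem h8)
      obtain ⟨q1, hq1R, hq1⟩ := hR.surj (-q0) ((hTor _).2 hnT) hnL
      have hne : q0 ≠ q1 := by
        rintro rfl
        apply hq0L
        have h8 := add_mem hq1 hpq
        convert h8 using 1
        ring
      have : R = {q0, q1} := by
        ext q
        rw [Finset.mem_insert, Finset.mem_singleton]
        constructor
        · intro hq
          rcases cong q0 q hq0T (torR q hq) hq0L (hR.ne q hq) with h8 | h8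
          · exact Or.inl (hR.inj q hq q0 hq0R h8)
          · right
            apply hR.inj q hq q1 hq1R
            have h9 := add_mem h8 hq1
            convert h9 using 1
            ring
        · rintro (rfl | rfl)
          · exact hq0R
          · exact hq1R
      rw [this, Finset.card_pair hne]
    have hRT : ∀ q ∈ R, V.valuation (xu L u e q) = V.valuation (xu L u e q0) := by
      intro q hq
      have h8 : V.valuation (xu L u e q) ^ 2 * V.valuation (3 : ℂ) =
          V.valuation (xu L u e q0) ^ 2 * V.valuation (3 : ℂ) := by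
        rw [(hRk q hq).2.2, (hRk q0 hq0R).2.2]
      exact (pow_left_inj₀ zero_le zero_le two_ne_zero).1 (mul_right_cancel₀ hπ0 h8)
    -- the product formula
    have pf := h7 L N ν R hν hIsg hR w m1 z hzN
    have xd : ∀ a b : ℂ, L.weierstrassP a - L.weierstrassP b =
        u ^ 2 * (xu L u e a - xu L u e b) := by
      intro a b
      unfold xu
      field_simp
      ring
    have xd' : ∀ a b : ℂ, N.weierstrassP a - N.weierstrassP b =
        u' ^ 2 * (xu N u' e' a - xu N u' e' b) := by
      intro a b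
      unfold xu
      field_simp
      ring
    have pf' : (ν * u' / u) ^ 2 * (xu N u' e' (ν * z) - xu N u' e' (ν * w)) *
        ∏ q ∈ R, (xu L u e z - xu L u e q) =
        (xu L u e z - xu L u e w) * ∏ q ∈ R, (xu L u e z - xu L u e (w + q)) := by
      simp only [xd, xd', Finset.prod_mul_distrib, Finset.prod_const] at pf
      have hu2 : u ^ 2 * (u ^ 2) ^ R.card ≠ 0 := by positivity
      apply mul_left_cancel₀ hu2
      have e1 : u ^ 2 * (ν * u' / u) ^ 2 = ν ^ 2 * u' ^ 2 := by
        field_simp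
      linear_combination pf + ((u ^ 2) ^ R.card *
        (xu N u' e' (ν * z) - xu N u' e' (ν * w)) * ∏ q ∈ R, (xu L u e z - xu L u e q)) * e1
    have hm0 : V.valuation (ν * u' / u) ≠ 0 :=
      (Valuation.ne_zero_iff _).2 (div_ne_zero (mul_ne_zero hν hu') hu)
    have hm1 : V.valuation (ν * u' / u) < 1 := lt_one_of_sq hmu hv3
    have hy0 : V.valuation (xu N u' e' (ν * z)) ≠ 0 := (Valuation.ne_zero_iff _).2 y2
    have hyk : V.valuation (xu N u' e' (ν * z)) ^ (2 * 3 ^ j) * V.valuation (3 : ℂ) = 1 := by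
      unfold su at y3
      rw [map_inv₀] at y3
      exact inv_pow_eq hy0 y3
    obtain ⟨X1, X2⟩ := TP.num V.valuation 3 (3 ^ j) (by norm_num) (by positivity) R hcard
      (ν * u' / u) (xu N u' e' (ν * z)) (xu N u' e' (ν * w)) (xu L u e z) (xu L u e w)
      (fun q => xu L u e q) (fun q => xu L u e (w + q)) (V.valuation (xu L u e q0))
      (V.valuation (ν * u' / u)) hm0 hm1 rfl
      (by rw [hmu, mul_comm]; exact (hRk q0 hq0R).2.2)
      (one_lt_of (hRk q0 hq0R).2.2 hv3) hRT
      (fun q hqR => (Pool.Agent.MUXV.int_X (fun hin => i1 (by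
        have := Pool.Agent.MUXV.inK_sub G hin (hRk q hqR).1
        rwa [add_sub_cancel_right] at this))).2)
      (Pool.Agent.MUXV.int_X i1).2 (Pool.Agent.MUXV.int_X i1').2
      (one_lt_of hyk hv3) (by rw [hmu, mul_comm]; exact hyk) pf'
    have hx0 : xu L u e z ≠ 0 := by
      intro h0
      rw [h0, map_zero] at X1
      exact absurd X1 (not_lt.2 zero_le)
    refine ⟨Or.inr fun hin => ?_, hx0, ?_⟩
    · exact absurd X1 (not_lt.2 ((V.valuation_le_one_iff _).2 hin))
    · calc V.valuation (su L u e z) ^ (2 * 3 ^ (j + 1))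
          = (V.valuation (su L u e z) ^ 3) ^ (2 * 3 ^ j) := by
            rw [← pow_mul]
            congr 1
            ring
        _ = V.valuation (su N u' e' (ν * z)) ^ (2 * 3 ^ j) := by
            unfold su
            rw [map_inv₀, map_inv₀, inv_pow, X2]
        _ = V.valuation (3 : ℂ) := y3

end

end Pool.Agent.ME3
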