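import Pool.Agent.ME.StE3
import Pool.Agent.ME.X_TRA
import Pool.Agent.ME.X_TRB
import Pool.Agent.ME.X_FAC
import Pool.Agent.ME.X_GTH
import Pool.Agent.ME.X_PT
import Pool.Agent.ME.X_GAL
import Pool.Agent.NS.E_UNR
import Pool.Agent.ME.E4_UNR

/-!
# MUX-NS, block ER, module UNR: `RFE (f)` is unramified at `V` if `f` is prime to `3`
-/

set_option autoImplicit false

open Polynomial

namespace Pool.Agent.ME3

open _root_.MU3 Pool.Agent.MU3A Pool.Agent.MU3B Pool.Agent.MUX Pool.Agent.MUXU Pool.Agent.MUXE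
open Pool.Agent.RI Pool.Agent.NS Pool.Agent.NSRD
open Pool.Agent.ME hiding ActE
open Pool.Agent.MEE
open Pool.Agent.NSER (PtsR Ex Sf_ALG Sf_PRO Sf_PUL Sf_COE Sf_GRN Sf_LEG Sf_TW3 Sf_PTS Sf_TNC Sf_UNT Sf_RAT Sf_ISO Sf_ADD Sf_THN Sf_NE1 Sf_ORB)
open Pool.Agent.MUXV (GR InK tX)
open Pool.Agent.NSE (E3 su ru WL IntP Rep)

noncomputable section

namespace UNR

/-- `V` is above `P`. -/
lemma above {A B : ℤ} {P : Ideal (OO A B)} {V : ValuationSubring ℂ} (hC : CtxR3 A B P V) :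
    OverI V P := by
  intro x
  rw [ValuationSubring.mem_nonunits_iff (A := V)]
  constructor
  · intro h
    by_contra hx
    exact absurd (hC.unit x hx) h.ne
  · intro hx
    by_contra h2
    exact absurd (lt_of_le_of_lt (hC.vP x hx) hC.v3) (not_lt.2 (one_le_pow₀ (not_lt.1 h2)))

/-- `dD` is not in `P²`. -/
lemma dD_not {A B : ℤ} {P : Ideal (OO A B)} {V : ValuationSubring ℂ} (hC : CtxR3 A B P V) :
    dD A B ∉ P ^ 2 := by
  rw [pow_two, hC.sq]
  intro h
  obtain ⟨c, hc⟩ := Ideal.mem_span_singleton'.1 h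
  have h1 := congrArg QuadraticAlgebra.im hc
  rw [mul_comm] at h1
  rw [QuadraticAlgebra.im_mul, QuadraticAlgebra.re_natCast, QuadraticAlgebra.im_natCast] at h1
  have h2 : (dD A B).im = 2 := rfl
  rw [h2] at h1
  push_cast at h1
  simp only [zero_mul, mul_zero, add_zero] at h1
  omega

end UNR

/-- UNR. -/
theorem t3_UNR : S3_UNR := by
  intro A B P V hC hT f hf hf2 hf3
  have hm : idl (A := A) (B := B) f ≠ ⊥ := Pool.Agent.NSE.UNR.idl_ne hf
  have := hT.fin _ hm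
  have := hT.gal _ hm
  have hd2 := UNR.dD_not hC
  have hP0 : P ≠ ⊥ := by
    rintro rfl
    have h1 : dD A B = 0 := hC.dP
    exact hd2 (by rw [h1]; exact Ideal.zero_mem _)
  refine Pool.Agent.NSR.tr_RAM A B V P (dD A B) hC.cq hC.max.isPrime hP0 (UNR.above hC) hC.dP hd2
    (RFE (idl (A := A) (B := B) f)) ?_
  intro σ hσ
  obtain ⟨s, hs, hsv⟩ := Pool.Agent.ME4.UNR.extn hT hm σ
  have h1 : ∀ y ∈ (RFE (idl (A := A) (B := B) f) : IntermediateField (kk A B) ℂ), y ∈ V →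
      s y - y ∈ V.nonunits := by
    intro y hy hyV
    have h2 := hσ ⟨y, hy⟩ ((V.valuation_le_one_iff y).2 hyV)
    rw [ValuationSubring.mem_nonunits_iff, hsv ⟨y, hy⟩]
    exact h2
  have h2 := hC.iner f hf hf2 hf3 s hs h1
  apply AlgEquiv.ext
  intro y
  apply Subtype.ext
  rw [← hsv]
  exact h2 y y.2

end

end Pool.Agent.ME3
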