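import Pool.Agent.ME.StXEE
import Pool.Agent.NS.StER

/-!
# ME, block E for `D = -3` (`3 = P²`): cubes and logarithmic derivatives (helper86)

The statements of `Pool/Agent/NS/StER.lean` which see the frame, for the frame of `DefsE.lean`; all levels are even. The other statements of block ER (`Pool.Agent.NSER.Sf_ALG, PRO, PUL, COE, GRN, LEG,
TW3, PTS, TNC, ADD, UNT, RAT, ISO, THN, NE1, ORB`) are used as they are: they are statements on lattices with `GoodR`. `S3_RFIN` (helper58) is the twin of `Sq_RFIN`, `S3_EFIN` is the result: the weights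
are `w x` in the sixth roots of unity, `w x ≡ emb x` modulo `3` (`IsTei6`). No partial sums over the small group are needed.
-/

set_option autoImplicit false

open Polynomial

namespace Pool.Agent.ME3

open _root_.MU3 Pool.Agent.MU3A Pool.Agent.MU3B Pool.Agent.MUX Pool.Agent.MUXU Pool.Agent.RI
open Pool.Agent.NS Pool.Agent.NSRD
open Pool.Agent.ME hiding ActE
open Pool.Agent.MEE
open Pool.Agent.MUXE (RingE)
open Pool.Agent.MUXV (GR InK tX)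
open Pool.Agent.NSE (E3 su ru WL IntP Rep)
open Pool.Agent.NSER (PtsR Ex)

noncomputable section

/-- (RFIN) the reduction of the normalised lattices at `V | 3`, `D = -3`. -/
def S3_RFIN : Prop :=
  ∀ (A B : ℤ) (P : Ideal (OO A B)) (V : ValuationSubring ℂ), CaseE A B → B = 1 → IsPN 3 P →
    OverI V P → TorXE A B →
    (∀ (b : Ideal (OO A B)) (L : PeriodPair) (om : ℂ), IsNE b L om →
      ∃ u e lam : ℂ, GoodR V L u e lam ∧ u ^ 2 ∈ RFE (idl (A := A) (B := B) 2) ∧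
        e ∈ RFE (idl (A := A) (B := B) 2) ∧ lam ∈ RFE (idl (A := A) (B := B) 2)) ∧
    ∀ f : ℕ, f ≠ 0 → 2 ∣ f → ¬ 3 ∣ f → ∀ σ : ℂ ≃+* ℂ, FixK A B σ →
      (∀ y ∈ RFE (idl (A := A) (B := B) f), y ∈ V → σ y - y ∈ V.nonunits) →
      ∀ y ∈ RFE (idl (A := A) (B := B) f), σ y = y

/-- (EFIN) the result: additive valuation at least `3/2` for cubes, with the weights `w`; `f ≥ 3` (`SetE3` allows also `f = 2`). `S3_EFI2` is the same without the condition on `D`. -/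
def S3_EFIN : Prop :=
  ∀ (A B : ℤ) (P : Ideal (OO A B)) (V : ValuationSubring ℂ) (f : ℕ), SetE3 A B P V f → 3 ≤ f →
    TorXE A B → ∀ (ι : Type) [Fintype ι] (R : RepsE A B (3 * f) ι) (u e lam : ℂ),
    GoodR V (R.L R.i0) u e lam → ∀ w : OO A B → ℂ, IsTei6 P V w → ∀ n : ℕ, 1 ≤ n →
    ∀ (H : ι → Finset ℂ), (∀ i, IsHalf (R.L i) (aX 3 f : ℂ) (H i)) →
    ∀ (D : IntermediateField ℚ ℂ) (h : kk A B ≤ D), (∀ y ∈ D, y ∈ RFE (lvR P f n)) →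
    (∀ σ : ℂ ≃+* ℂ, FixK A B σ → (∀ y ∈ RFE (idl (A := A) (B := B) (3 * f)), σ y = y) →
      (∀ z : ℂ, z ^ 3 ^ (n + 1) = 1 → σ z = z) → ∀ y ∈ D, σ y = y) →
    letI := algC h
    (∀ τ : D ≃ₐ[kk A B] D, ∃ y : D, (y : ℂ) = cXE R (lvX 3 f n) H h 1 ∧
      ((τ y : D) : ℂ) = cXE R (lvX 3 f n) H h τ) →
    ∀ g : (D ≃ₐ[kk A B] D) → ℤ,
      (∃ y ∈ D, y ^ 3 = ∏ᶠ τ : D ≃ₐ[kk A B] D, cXE R (lvX 3 f n) H h τ ^ g τ) →
      ∀ τ' : D ≃ₐ[kk A B] D,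
        V.valuation ((∑ᶠ τ : D ≃ₐ[kk A B] D, (g τ : ℂ) *
          TTNE R w (lvX 3 f n) (aX 3 f) h (τ * τ')) / u) ^ 2 ≤ V.valuation (3 : ℂ) ^ 3

/-- (EFIN), the stronger form: the result: additive valuation at least `3/2` for cubes, with the weights `w`; `f ≥ 3` (`SetE3` allows also `f = 2`). This is `Sq_EFIN_E` with `3 ≤ f`. -/
def S3_EFI2 : Prop :=
  ∀ (A B : ℤ) (P : Ideal (OO A B)) (V : ValuationSubring ℂ) (f : ℕ), SetE3 A B P V f → 3 ≤ f →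
    TorXE A B → ∀ (ι : Type) [Fintype ι] (R : RepsE A B (3 * f) ι) (u e lam : ℂ),
    GoodR V (R.L R.i0) u e lam → ∀ w : OO A B → ℂ, IsTei6 P V w → ∀ n : ℕ, 1 ≤ n →
    ∀ (H : ι → Finset ℂ), (∀ i, IsHalf (R.L i) (aX 3 f : ℂ) (H i)) →
    ∀ (D : IntermediateField ℚ ℂ) (h : kk A B ≤ D), (∀ y ∈ D, y ∈ RFE (lvR P f n)) →
    letI := algC h
    (∀ τ : D ≃ₐ[kk A B] D, ∃ y : D, (y : ℂ) = cXE R (lvX 3 f n) H h 1 ∧
      ((τ y : D) : ℂ) = cXE R (lvX 3 f n) H h τ) →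
    ∀ g : (D ≃ₐ[kk A B] D) → ℤ,
      (∃ y ∈ D, y ^ 3 = ∏ᶠ τ : D ≃ₐ[kk A B] D, cXE R (lvX 3 f n) H h τ ^ g τ) →
      ∀ τ' : D ≃ₐ[kk A B] D,
        V.valuation ((∑ᶠ τ : D ≃ₐ[kk A B] D, (g τ : ℂ) *
          TTNE R w (lvX 3 f n) (aX 3 f) h (τ * τ')) / u) ^ 2 ≤ V.valuation (3 : ℂ) ^ 3

/-- everything on `O`, `k`, `P`, `V` and the reduction which is used -/
structure CtxR3 (A B : ℤ) (P : Ideal (OO A B)) (V : ValuationSubring ℂ) : Prop where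
  case : CaseE A B
  ring : RingE A B
  cq : CQ A B
  v3 : V.valuation (3 : ℂ) < 1
  int : ∀ x : OO A B, V.valuation (emb x) ≤ 1
  unit : ∀ x : OO A B, x ∉ P → V.valuation (emb x) = 1
  vP : ∀ x ∈ P, V.valuation (emb x) ^ 2 ≤ V.valuation (3 : ℂ)
  nat : ∀ n : ℕ, ¬ 3 ∣ n → V.valuation (n : ℂ) = 1
  max : P.IsMaximal
  nP : nI P = 3
  sq : P * P = idl (A := A) (B := B) 3
  nrm : ∀ x : OO A B, x ∉ P → ¬ (3 : ℤ) ∣ nm x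
  pm : ∀ x : OO A B, x ∉ P → x - 1 ∈ P ∨ x + 1 ∈ P
  dP : dD A B ∈ P
  vd : V.valuation (emb (dD A B)) ^ 2 = V.valuation (3 : ℂ)
  good : ∀ L, NLE A B L → ∃ u e lam : ℂ, GoodR V L u e lam
  iner : ∀ f : ℕ, f ≠ 0 → 2 ∣ f → ¬ 3 ∣ f → ∀ σ : ℂ ≃+* ℂ, FixK A B σ →
    (∀ y ∈ RFE (idl (A := A) (B := B) f), y ∈ V → σ y - y ∈ V.nonunits) →
    ∀ y ∈ RFE (idl (A := A) (B := B) f), σ y = y
  exq : ∀ L, NLE A B L → ∃ (N : PeriodPair) (nu : ℂ), NLE A B N ∧ IsQ P L N nu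

/-- (CTX) from the standing hypotheses to `CtxR3`.

PROOF. Model: `E_CTX.lean` (`Se_CTX`). `δ = dD A B = 2 w - B`, `δ² = B² + 4A = D`, `3 ∣ D`, `9 ∤ D` (`B = 1`: squarefree; `B = 0`: `D = 4A`, `A` squarefree). `P` prime (`IsPN`), `(3 : O) ∈ P`, so `δ² ∈ P`, `δ ∈ P`. `v 3 < 1` (`OverI`). `v(δ)² = v(D) = v 3 · v(D/3)`, and `v(D/3) = 1` (integers prime to `3`: `nat`).
`nP`: `IsPN`. `max`: a nonzero prime of a Dedekind domain (`te_RNG`), or `O/P` is a finite domain. `pm`: `O/P` has three elements. `int`, `unit`: as in the inert case (`emb x` is integral over `ℤ`; `OverI`). `sq`: `3 ∈ P * P`: `δ² = D = 3 D'`, `D' = 3 t ± 1`, so `3 = ±(δ² - 9 t)`, `9 = 3 · 3 ∈ P * P`. Conversely `P * P ⊆ (3)`: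
norms (`O/(3)` has `9` elements, `O/P²` has `9`), or: `P = (3, δ)` (an element `x = r + s w` of `P`: `2 x = (2 r + s B) + s δ`, so `2 r + s B ∈ P ∩ ℤ = 3 ℤ`, `x = -(x + ..)`: `x ≡ -2 x` modulo `3 P`... precisely `x = 3 x - 2 x`, `3 x ∈ (3)`, `2 x ∈ (3, δ)`), and the products `9, 3 δ, δ²` are in `(3)`. `vP`: `x ∈ P`: `x² ∈ (3)`, `v(x)² ≤ v 3`.
`nrm`: `nm x = x star x`; `star P = P` (`P = (3, δ)`, `star δ = -δ`); if `3 ∣ nm x` then `x star x ∈ P`, so `x ∈ P`. `good`, `iner`: `S3_RFIN`. `exq`: `TorXE.surj` for `m = ⊤`, `a = P` (coprime to `⊤`): `ActE.isq`. -/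
def S3_CTX : Prop :=
  ∀ (A B : ℤ) (P : Ideal (OO A B)) (V : ValuationSubring ℂ), CaseE A B → B = 1 → IsPN 3 P →
    OverI V P → TorXE A B → S3_RFIN → CtxR3 A B P V

/-- (IDL) the ideals `lvR P f n = f P^(2n+1) = 3^n f P`.

PROOF. `P² = (3)` (`sq`), so `P^(2n) = (3^n)`, `P^(2n+1) = 3^n P` (`Ideal.span_singleton_pow`, `Ideal.mem_span_singleton_mul`). If `x P ⊆ (3) = P P` then `x ∈ P` (cancel `P`: `O` is a Dedekind domain; or `x δ ∈ (3)` gives `x δ² ∈ 3 P`... `D x = 3 D' x`, `D' x ∈ P`, `D'` a unit modulo `P`). Prime: `max`. `x ∈ 3^n f P` iff `p x ∈ (3^(n+1) f)` for all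
`p ∈ P`: `→`: `p p' ∈ (3)`; `←`: `3 x ∈ P P x`, precisely with `p = δ`: `δ x = 3^(n+1) f y`, `D x = 3^(n+1) f δ y`, `D' x = 3^n f (δ y)`, and `D' c = 1 + 3 t` with integers, `x = D' c x - 3 t x`, `3 x = 3^(n+1) f y'` (`3 ∈ P`). Natural numbers: `k = 3^n f p` with `p ∈ P`: compare coordinates (`re`, `im`): `p` is an integer in `P`, divisible by `3`. -/
def S3_IDL : Prop :=
  ∀ (A B : ℤ) (P : Ideal (OO A B)) (V : ValuationSubring ℂ), CtxR3 A B P V →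
    (3 : OO A B) ∈ P ∧ (∀ x : OO A B, (∀ p ∈ P, p * x ∈ P * P) → x ∈ P) ∧
    (∀ n : ℕ, P ^ (2 * n) = idl (A := A) (B := B) (3 ^ n)) ∧
    (∀ k : ℕ, (k : OO A B) ∈ P ↔ 3 ∣ k) ∧
    ∀ f n : ℕ, f ≠ 0 →
      (∀ x : OO A B, x ∈ lvR P f n ↔ ∃ p ∈ P, x = ((3 ^ n * f : ℕ) : OO A B) * p) ∧
      (∀ x : OO A B, x ∈ lvR P f n ↔ ∀ p ∈ P, p * x ∈ idl (A := A) (B := B) (3 ^ (n + 1) * f)) ∧
      idl (A := A) (B := B) (3 ^ (n + 1) * f) ≤ lvR P f n ∧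
      lvR P f n ≤ idl (A := A) (B := B) (3 ^ n * f) ∧ lvR P f n ≠ ⊥ ∧
      (∀ k : ℕ, (k : OO A B) ∈ lvR P f n ↔ 3 ^ (n + 1) * f ∣ k) ∧
      (∀ c : OO A B, IsCoprime c ((3 * f : ℕ) : OO A B) → IsCoprime (sp c) (lvR P f n) ∧
        IsCoprime c ((3 ^ (n + 1) * f : ℕ) : OO A B))

/-- (UNR) `RFE (f)` is unramified over `k` at `V` if `f` is prime to `3`.

PROOF. `Pool.Agent.NSR.tr_RAM` (`Sr_RAM`) with `ϖ = dD A B`: `dD ∈ P` (`dP`), `dD ∉ P² = (3)` (`sq`; the coordinate `im` of `dD` is `2`), `OverI V P`: from `unit` and `vP`. `F = RFE (idl f)` (finite, Galois: `TorXE`; `idl f ≠ ⊥`). `σ ∈ Gal(F/k)` in the inertia group: extend it to `s ∈ Aut(ℂ)`, `FixK` (`TorXE.ext` for `F` as a field over `ℚ`; see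
`Pool/Agent/NS/E_UNR.lean`, `te_UNR`); `CtxR3.iner`: `s y = y` for all `y ∈ F`, so `σ = 1`. -/
def S3_UNR : Prop :=
  ∀ (A B : ℤ) (P : Ideal (OO A B)) (V : ValuationSubring ℂ), CtxR3 A B P V → TorXE A B →
    ∀ f : ℕ, f ≠ 0 → 2 ∣ f → ¬ 3 ∣ f → ∀ y ∈ RFE (idl (A := A) (B := B) f), y ≠ 0 →
      ∃ k : ℤ, V.valuation y = V.valuation (emb (dD A B)) ^ k

/-- (DEG) the degree of `RFE (f P^(2n+1))` over `RFE (f)`.

Uses S3_IDL. PROOF. As `E_DEG.lean` (`te_DEG`). `σ ∈ Gal(RFE (lvR P f n)/k)` trivial on `RFE (f)` acts as some `α` with `α - 1 ∈ (f)` (`GalEE.ker`), `α ∉ P`; `σ` is determined by the class of `α` modulo `P^(2n+1)` (if `α ≡ α'` modulo `P^(2n+1)` and modulo `(f)`, then modulo `lvR P f n = (f) P^(2n+1)`, as `(f)` and `P` are coprime; `Pool.Agent.MEE.tm_FAC`). The number of classes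
modulo `P^(2n+1)` of elements outside `P` is `3^(2n+1) - 3^(2n) = 2 · 9^n`: `O/P^(2n+1)` has `3^(2n+1)` elements (`nP`; `Ideal.absNorm` or `Submodule.cardQuot` is multiplicative) and is mapped onto `O/P` with `3` elements, all fibres have the same number `9^n`. (Or: `x = r + s w`; `P = {x : 3 ∣ 2 r + s B}`; `3^n P` has the representatives
`r, s` modulo `3^n` times ...) -/
def S3_DEG : Prop :=
  ∀ (A B : ℤ) (P : Ideal (OO A B)) (V : ValuationSubring ℂ), CtxR3 A B P V → GalEE A B →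
    ∀ (n f : ℕ), f ≠ 0 → 2 ∣ f → ¬ 3 ∣ f →
      Module.finrank (kk A B) (RFE (lvR P f n)) ≤
        (2 * 9 ^ n) * Module.finrank (kk A B) (RFE (idl (A := A) (B := B) f))

/-- (RP1) the coordinates of the points of `E[P]` are in `RFE (2)`.

Uses Sf_LEG, S3_IDL. PROOF. `u² = xnE w₂ - xnE w₁`, `e = xnE w₁ + 1/12` with `w₁, w₂` of order two (LEG; see `ONE.usq` in `E_ONE.lean`). `M = RFE (idl 2 * P) ≥ M₀ = RFE (idl 2)`, finite and Galois over `k` (`GalEE`), `xnE L z ∈ M` (`Pool.Agent.MEE.tm_FAC` (2); `Tor P` implies `Tor (idl 2 * P)`). Let `σ ∈ Gal(M/k)` be trivial on `M₀`: `GalEE.ker` (`m = idl 2 * P ≤ m' = idl 2`):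
`ActEE (em σ) m α`, `α` prime to `P`, so `α ≡ ± 1` modulo `P` (`pm`), `emb α z ≡ ± z` modulo `L` and `σ (xnE L z) = xnE L (emb α z) = xnE L z`. So `xnE L z` is fixed by all `σ ∈ Gal(M/k)` which are trivial on `M₀`: it is in `M₀` (Galois theory: `M₀` as an intermediate field of `M/k` is the fixed field of its fixing subgroup). -/
def S3_RP1 : Prop :=
  ∀ (A B : ℤ) (P : Ideal (OO A B)) (V : ValuationSubring ℂ), CtxR3 A B P V → GalEE A B →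
    ∀ (L : PeriodPair) (u e lam : ℂ), NLE A B L → GoodR V L u e lam →
      u ^ 2 ∈ RFE (idl (A := A) (B := B) 2) ∧ e ∈ RFE (idl (A := A) (B := B) 2) ∧
      ∀ z, Tor P L z → z ∉ L.lattice → xnE L z ∈ RFE (idl (A := A) (B := B) 2) ∧
        xu L u e z ∈ RFE (idl (A := A) (B := B) 2)

/-- (RPV) the values of the points of `E[P]`.

Uses Sf_COE, Sf_TW3, S3_UNR, S3_RP1. PROOF. `3 ∈ P` so `z ∈ E3 L`. TW3: `v(s) < 1`, `lam² s⁴ = 3 - 4 (1 + lam) s + 6 lam s²`. `ρ = v(dD)`, `ρ² = v 3`, `ρ < 1`. `x ∈ RFE (2)` (RP1), so `v(s) = ρ^k` (UNR with `f = 2`), `k ≥ 1`. If `k ≥ 2`: `v(4 (1 + lam) s) ≤ ρ ρ^k < ρ²` (`v(1 + lam)² ≤ v 3`, so `v(1 + lam) ≤ ρ`), `v(6 lam s²) ≤ ρ² ρ^(2k) < ρ²`, so the right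
side has valuation `ρ²` and the left side `ρ^(4k)`, `4 k = 2`: impossible. So `k = 1`. -/
def S3_RPV : Prop :=
  ∀ (A B : ℤ) (P : Ideal (OO A B)) (V : ValuationSubring ℂ), CtxR3 A B P V → TorXE A B →
    GalEE A B → ∀ (L : PeriodPair) (u e lam : ℂ), NLE A B L → GoodR V L u e lam →
      ∀ z, Tor P L z → z ∉ L.lattice → InK V L (xu L u e) z ∧ xu L u e z ≠ 0 ∧
        V.valuation (su L u e z) ^ 2 = V.valuation (3 : ℂ)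

/-- (PIS) the multiplier of `L → ν P⁻¹ L`.

Uses Sf_GRN, Sf_TNC, S3_RPV, Su_BAC, Su_PFI. PROOF. `μ = ν`: `Isg L N ν`, and `ν z ∈ N` iff `Tor P L z` (`IsQ`). `R` representatives of the nonzero classes of `E[P]/L` (BAC, `IsRpM`). `|R| = 2`: by `Pool.Agent.MEE.tm_TRB` (2) (`P` maximal) and `pm`, with `q ∈ R` every point of `E[P]` is `≡ 0, q, -q`, and `q ≢ -q`. Choose two different primes `l, l' > 3` with
`w = ω₁/l`, `z = ω₁/l'` (`ω₁` a period of `L`): `w, z, z ± w ∉ InK V L` (TNC), `w + q ∉ InK` (`q ∈ InK` by RPV, so `w` would be in `InK`), `z ± (w + q)` the same; `ν w, ν z, ν (z ± w) ∉ N` (they are killed by `l l'`, and `3` kills `E[P]/L`), not in `InK V N`. (PFI) in the coordinates (`℘ = u² x + e`):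
`(ν u'/u)² (x'(ν z) - x'(ν w)) ∏_(q ∈ R) (x z - x q) = (x z - x w) ∏_(q ∈ R) (x z - x(w + q))`; the differences `x' - x'`, `x z - x w`, `x z - x(w + q)` are units (`MUXV.v_X_sub`), and `v(x z - x q) = v(x q) > 1 ≥ v(x z)`, `v(x q)² v 3 = 1` (RPV). So `v(ν u'/u)² v(x q) v(x q') = 1`, `v(ν u'/u)² = v 3`. -/
def S3_PIS : Prop :=
  ∀ (A B : ℤ) (P : Ideal (OO A B)) (V : ValuationSubring ℂ), CtxR3 A B P V → TorXE A B →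
    GalEE A B → ∀ (L N : PeriodPair) (nu u e lam u' e' lam' : ℂ), NLE A B L → NLE A B N →
      IsQ P L N nu → GoodR V L u e lam → GoodR V N u' e' lam' →
      V.valuation (nu * u' / u) ^ 2 = V.valuation (3 : ℂ)

/-- (TPR) the values of the points of exact order `P^(j+1)`.

Uses Sf_COE, Sf_GRN, Sf_TNC, S3_RPV, S3_PIS, Su_BAC, Su_PFI. PROOF. Induction on `j`, for all lattices; `j = 0` is (RPV) (`Tor (P^0) L z` iff `z ∈ L`). Step: `Tor (P^(j+2)) L z`, not `Tor (P^(j+1)) L z`. `N`, `ν` (`exq`), `u', e', lam'` (`good`), `z' = ν z`: `Tor (P^(j+1)) N z'`, not `Tor (P^j) N z'` (`IsQ`), so by induction `v(x' z') = Y > 1`,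
`Y^(2·3^j) v 3 = 1`. `R` as in (PIS), `|R| = 2`, `v(x q) = T`, `T² v 3 = 1`, `T > 1`, `Y ≤ T` (`Y^(2·3^j) = T²`). `w = ω₁/5`: `w, w + q ∉ InK V L`, `ν w ∉ InK V N`. (PFI): `(ν u'/u)² (x'(z') - x'(ν w)) ∏ (x z - x q) = (x z - x w) ∏ (x z - x(w + q))`, `v(ν u'/u)² = v 3` (PIS). If `x z ∈ V`: the left side has valuation `v(3) Y T² = Y > 1`, the right side
`≤ 1`. So `X = v(x z) > 1`, the right side has valuation `X³`. If `X > T`: `v(3) Y X² = X³`, `X = v(3) Y < Y ≤ T`. If `X = T`: `T³ ≤ v(3) Y T² = Y ≤ T`, but `T³ > T`. So `X < T`, `X³ = v(3) Y T² = Y`. (`x z ≠ 0`, `su = 1/x`.) -/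
def S3_TPR : Prop :=
  ∀ (A B : ℤ) (P : Ideal (OO A B)) (V : ValuationSubring ℂ), CtxR3 A B P V → TorXE A B →
    GalEE A B → ∀ (j : ℕ) (L : PeriodPair) (u e lam : ℂ), NLE A B L → GoodR V L u e lam →
      ∀ z, Tor (P ^ (j + 1)) L z → ¬ Tor (P ^ j) L z → InK V L (xu L u e) z ∧
        xu L u e z ≠ 0 ∧ V.valuation (su L u e z) ^ (2 * 3 ^ j) = V.valuation (3 : ℂ)

/-- (EXO) exact orders of the points of level `m = 3^(n+1) f`.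

Uses S3_IDL. PROOF. `Pool.Agent.MEE.tm_PT Pool.Agent.MEE.tm_TRA`: `ptE R m i x = μ_i (emb x (om_0/m))`. `emb c * pt = μ_i (emb (c x) (om_0/m))`; by part (3) of PT with `r = m` it is in `L_i` iff `emb (c x) (om_0/m) ∈ L_0` iff `m ∣ c x` iff `m ∣ c` (`x` prime to `m`). On `N`: `emb c (ν z) ∈ N` iff `emb p (emb c z) ∈ L` for all `p ∈ P` (`IsQ`) iff `p c ∈ (m)` for all `p ∈ P` iff
`c ∈ lvR P f n` (IDL). Third part: `q ∈ E[P] ∖ L` and `3^(n+1) f (z + l q) ∈ L`; `c (z + l q) ∈ L` implies `3 c z ∈ L`, `3^(n+1) f ∣ 3 c`. Last part: `N_i = ν_i P⁻¹ L_i`, `ν_i pt = (μ_i emb x ν_i/ν_0) (ν_0 om_0/m)`. -/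
def S3_EXO : Prop :=
  ∀ (A B : ℤ) (P : Ideal (OO A B)) (V : ValuationSubring ℂ), CtxR3 A B P V →
    ∀ (n f : ℕ) (ι : Type) (R : RepsE A B (3 * f) ι), f ≠ 0 → ∀ (i : ι) (x : OO A B),
    IsCoprime x ((3 ^ (n + 1) * f : ℕ) : OO A B) →
      Ex (idl (A := A) (B := B) (3 ^ (n + 1) * f)) (R.L i) (ptE R (3 ^ (n + 1) * f) i x) ∧
      (∀ (N : PeriodPair) (nu : ℂ), IsQ P (R.L i) N nu →
        Ex (lvR P f n) N (nu * ptE R (3 ^ (n + 1) * f) i x)) ∧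
      (∀ q : ℂ, Tor P (R.L i) q → ∀ l : ℕ,
        ((3 ^ (n + 1) * f : ℕ) : ℂ) * (ptE R (3 ^ (n + 1) * f) i x + l * q) ∈ (R.L i).lattice ∧
        ∀ c : ℕ, (c : ℂ) * (ptE R (3 ^ (n + 1) * f) i x + l * q) ∈ (R.L i).lattice → f ∣ c) ∧
      ∀ nu nu0 : ℂ, nu0 ≠ 0 → nu * ptE R (3 ^ (n + 1) * f) i x =
        (muXE R i * emb x * nu / nu0) * (nu0 * (R.om R.i0 / (3 ^ (n + 1) * f : ℕ)))

/-- (MUL) the isogenies `μ_i x : L_(i0) → L_i` and `μ_i x ν/ν_0 : N_0 → N` have degree prime to `3`.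

PROOF. First part: as `te_MUL` (`E_MUL.lean`). Second: `z ∈ N_0`, `w = z/ν_0`: `emb p w ∈ L_0` for all `p ∈ P` (`IsQ`), so `emb p (μ w) ∈ L_i` (`μ = μ_i emb x`), `ν (μ w) ∈ N`. Kernel: `ν μ w ∈ N`: `μ (emb p w) ∈ L_i` for all `p`, `n (emb p w) ∈ L_0`, `ν_0 (n w) ∈ N_0`. -/
def S3_MUL : Prop :=
  ∀ (A B : ℤ) (P : Ideal (OO A B)) (V : ValuationSubring ℂ), CtxR3 A B P V →
    ∀ (n : ℕ) (ι : Type) (R : RepsE A B n ι),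
    n ≠ 0 → 3 ∣ n → ∀ (i : ι) (x : OO A B), x ∉ P →
      (muXE R i * emb x ≠ 0 ∧ Isg (R.L R.i0) (R.L i) (muXE R i * emb x) ∧
      ∃ N : ℕ, ¬ 3 ∣ N ∧ ∀ z, muXE R i * emb x * z ∈ (R.L i).lattice →
        (N : ℂ) * z ∈ (R.L R.i0).lattice) ∧
      ∀ (N0 N : PeriodPair) (nu0 nu : ℂ), IsQ P (R.L R.i0) N0 nu0 → IsQ P (R.L i) N nu →
        muXE R i * emb x * nu / nu0 ≠ 0 ∧ Isg N0 N (muXE R i * emb x * nu / nu0) ∧
        ∃ m : ℕ, ¬ 3 ∣ m ∧ ∀ z, muXE R i * emb x * nu / nu0 * z ∈ N.lattice →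
          (m : ℂ) * z ∈ N0.lattice

/-- (UNI) a uniformiser of `RFE (f a P^(2n+1))` over `RFE (f a)`.

Uses Sf_GRN, Sf_LEG, Sf_TNC, S3_TPR, S3_UNR, S3_DEG, S3_RP1, S3_IDL, `Pool.Agent.NSE.te_BAS`. PROOF. As `E_SIG.lean`, first half. Integers `α 3^(n+1) + β f = 1`; `P₀ = α 3^(n+1) z₁`, `P₁ = β f z₁`, `z₁ = P₀ + P₁`. `f P₀ ∈ N` (`3^(n+1) f ∈ lvR`), `2 P₀ ∉ N` (otherwise `3^(n+1) f ∣ 2 α 3^(n+1)` (IDL), `f ∣ 2`, `f` is prime to `α`), so `P₀, 2 P₀ ∉ InK` (TNC).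
`Tor (P^(2n+1)) N P₁`, not `Tor (P^(2n)) N P₁` (`P^(2n) = (3^n)`; `3^n β f ∉ lvR P f n` because `3 ∤ β f`): `v(s P₁)^(2·9^n) = v 3` (TPR with `j = 2n`). `z₁ ∉ InK`. `π = x(z₁) - x(P₀)`: `v π = v(t P₁)` (`Pool.Agent.MUXV.tq_YUN`, see `E_SIG.lean`), `v(t P₁)² = v(s P₁)`, so `(v(π)^(2·9^n))² = v 3 = v(dD)²`. `xu = (xnE + 1/12 - e)/u²`. (BAS) with `p = emb (dD A B)`,
`N = 2·9^n` (DEG and UNR for `f a`; `RFE (idl (f a)) ≤ RFE (lvR P (f a) n)`). -/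
def S3_UNI : Prop :=
  ∀ (A B : ℤ) (P : Ideal (OO A B)) (V : ValuationSubring ℂ), CtxR3 A B P V → TorXE A B →
    GalEE A B → ∀ (N : PeriodPair) (u e lam : ℂ), NLE A B N → GoodR V N u e lam →
    ∀ n f a : ℕ, 3 ≤ f → 2 ∣ f → ¬ 3 ∣ f → a ≠ 0 → ¬ 3 ∣ a → ∀ z₁ : ℂ, Ex (lvR P f n) N z₁ →
    ∃ (P₀ : ℂ) (k : ℤ), P₀ = k * z₁ ∧ (f : ℂ) * P₀ ∈ N.lattice ∧ P₀ ∉ N.lattice ∧
      2 * P₀ ∉ N.lattice ∧ z₁ - P₀ ∉ N.lattice ∧ z₁ + P₀ ∉ N.lattice ∧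
      ¬ InK V N (xu N u e) P₀ ∧ ¬ InK V N (xu N u e) (2 * P₀) ∧
      ¬ InK V N (xu N u e) z₁ ∧ ¬ InK V N (xu N u e) (2 * z₁) ∧
      xu N u e P₀ ∈ RFE (idl (A := A) (B := B) (f * a)) ∧
      xu N u e z₁ - xu N u e P₀ ∈ RFE (lvR P (f * a) n) ∧
      V.valuation (xu N u e z₁ - xu N u e P₀) ^ (2 * 9 ^ n) = V.valuation (emb (dD A B)) ∧
      ∀ w ∈ RFE (lvR P (f * a) n), V.valuation w ≤ 1 →
        ∃ c : Fin (2 * 9 ^ n) → RFE (idl (A := A) (B := B) (f * a)),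
          (∀ i, V.valuation (c i : ℂ) ≤ 1) ∧
          w = ∑ i, (c i : ℂ) * (xu N u e z₁ - xu N u e P₀) ^ (i : ℕ)

/-- (SIG) `Y ↦ σ_Y(w)` for `w` in the ray class field, `σ_Y(z₁) = z₁ + Y`.

Uses Sf_ALG, Sf_PRO, Sf_LEG, Sf_PTS, Sf_ADD, S3_UNI, S3_RP1, S3_IDL. PROOF. As `E_SIG.lean`, second half. (UNI): `w = Σ c_i π^i`, `F Y = Σ c_i (x(z₁ + Y) - x(P₀))^i`: a polynomial over `V` in `x(z₁ + Y)` (`v(x P₀) ≤ 1`), represented by `(w, β)` (ADD, PRO (1)). `σ` acts trivially on `RFE (f a)` (`Pool.Agent.MEE.tm_FAC`; `c - 1 ∈ (f a)`), so on `c_i`, `e`, `u²`, `x(P₀)`, and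
`σ(xnE z₁) = xnE (emb c z₁) = xnE (z₁ + emb (c - 1) z₁)` (`Tor` for `idl (3^(n+1) f a)`; all in `RFE (idl (3^(n+1) * f * a))` by `Pool.Agent.MEE.tm_FAC` (1), (2)). -/
def S3_SIG : Prop :=
  ∀ (A B : ℤ) (P : Ideal (OO A B)) (V : ValuationSubring ℂ), CtxR3 A B P V → TorXE A B →
    GalEE A B → ∀ (N : PeriodPair) (u e lam : ℂ), NLE A B N → GoodR V N u e lam →
    ∀ n f a : ℕ, 3 ≤ f → 2 ∣ f → ¬ 3 ∣ f → a ≠ 0 → ¬ 3 ∣ a → ∀ z₁ : ℂ, Ex (lvR P f n) N z₁ →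
    ∀ w ∈ RFE (lvR P (f * a) n), V.valuation w ≤ 1 →
    ∃ (F : ℂ → ℂ) (β : ℂ), V.valuation β ≤ 1 ∧ Rep V (E3 N) (su N u e) (ru N u e) F w β ∧
      ∀ (c : OO A B), c - 1 ∈ idl (A := A) (B := B) (f * a) →
      ∀ (σ : RFE (idl (A := A) (B := B) (3 ^ (n + 1) * f * a)) ≃ₐ[kk A B]
        RFE (idl (A := A) (B := B) (3 ^ (n + 1) * f * a))),
      ActEE (em σ) (idl (A := A) (B := B) (3 ^ (n + 1) * f * a)) c →
      ∀ hw : w ∈ RFE (idl (A := A) (B := B) (3 ^ (n + 1) * f * a)),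
        (σ ⟨w, hw⟩ : ℂ) = F (emb (c - 1) * z₁)

/-- (DIS) the distribution relation for `L → N = ν P⁻¹ L`.

Uses Su_BAC, Su_PFI. PROOF. `R = {q, -q}` are representatives of the nonzero classes of `{z : ν z ∈ N} = E[P]` modulo `L` (`Pool.Agent.MEE.tm_TRB` (2), `pm`; `2 q ∉ L` as `3 q ∈ L`). (PFI) with `w = h ∈ H` (`ν h ∉ N`: otherwise `3 h ∈ L`, `a h ∈ L`, `h ∈ L`): `ν² (℘_N(ν z) - ℘_N(ν h)) (℘ z - ℘ q)² = (℘ z - ℘ h)(℘ z - ℘(h + q))(℘ z - ℘(h - q))`. Identity (*)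
`(℘(z + q) - ℘ h)(℘(z - q) - ℘ h)(℘ z - ℘ q)² = (℘ z - ℘(h + q))(℘ z - ℘(h - q))(℘ h - ℘ q)²`: by `b_ADD` (for `q` and `-q`) `S = ℘(z+q) + ℘(z-q)`, `Π = ℘(z+q) ℘(z-q)` satisfy `S (X - Q)² = (X + Q)(2 X Q - g₂/2) - g₃`, `Π (X - Q)² = (X Q + g₂/4)² + g₃ (X + Q)` (`X = ℘ z`, `Q = ℘ q`), and both sides of (*) are the same symmetric polynomial
`X²Y² + Y²Q² + X²Q² - 2 X Y Q (X + Y + Q) + (g₂/2)(X Y + Y Q + X Q) + g₃ (X + Y + Q) + g₂²/16`, `Y = ℘ h`. Multiply over `h ∈ H`: `∏_l Θ(z + l q) = ν^(2|H|) ∏_h (℘ h - ℘ q)² ∏_h (℘_N(ν z) - ℘_N(ν h))` (`l q`, `l = 0, 1, 2`, is `0, q, -q` modulo `L`), and `ν H` is a half system of `N` for `a` (`3 ∤ a`), so the last product is `Θ_N(ν z)`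
(`b_TIN`). `C ≠ 0` (`b_NEQ`). Derivatives: both sides have logarithmic derivatives (`b_TDL`, `dlX`, `‖a‖² = a²`), the relation holds on an open set. -/
def S3_DIS : Prop :=
  ∀ (A B : ℤ) (P : Ideal (OO A B)) (V : ValuationSubring ℂ), CtxR3 A B P V →
    ∀ (L N : PeriodPair) (nu : ℂ), NLE A B L → NLE A B N → IsQ P L N nu →
    ∀ (a : ℕ) (H H' : Finset ℂ), a ≠ 0 → ¬ 3 ∣ a → IsHalf L (a : ℂ) H → IsHalf N (a : ℂ) H' →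
    ∀ q : ℂ, Tor P L q → q ∉ L.lattice → ∃ C : ℂ, C ≠ 0 ∧
      ∀ z : ℂ, (a : ℂ) * (nu * z) ∉ N.lattice →
        (∏ l ∈ Finset.range 3, ThetaH L H (z + l * q)) = C * ThetaH N H' (nu * z) ∧
        (∑ l ∈ Finset.range 3, dlX L a (z + l * q)) = nu * dlX N a (nu * z)

/-- (INN) integrality, and the sums over `E[P]`.

Uses Sf_THN, Sf_NE1, S3_EXO, S3_MUL, S3_PIS, S3_DIS, `Pool.Agent.MUX` (HAL: half systems exist for odd `a`). PROOF. `m = 3^(n+1) f`, `z = ptE R m i x`, `z' = z + l q`: `m z' ∈ L_i`, `c z' ∈ L_i` implies `f ∣ c` (EXO), so (NE1) and (THN) (`μ = μ_i emb x : L_0 → L_i`, `v(emb x) = 1`) apply to `z'`: the first two claims (`3 ∣ |H|`: `ONE.card3` in `E_ONE.lean`; `a ≡ 1` or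
`2` modulo 3). Third: `N_i = ν_i P⁻¹ L_i`, `N_0 = ν_0 P⁻¹ L_0` (`exq`, `good`), `H'` a half system for `a` on `N_i` (`b_HAL`; `a` odd); `ν_i z` has the exact order `lvR P f n` on `N_i` (EXO), so `m ν_i z ∈ N_i`, `c ν_i z ∈ N_i` implies `f ∣ c` (IDL), (NE1), (THN) for `μ' = μ_i emb x ν_i/ν_0 : N_0 → N_i`: `v(μ' dl_(N_i)(ν_i z)/u_(N_0)) ≤ 1`, and by (DIS)
`μ_i emb x Σ_l dl_(L_i)(z + l q)/u = (μ' dl_(N_i)(ν_i z)/u_(N_0)) (ν_0 u_(N_0)/u)`, `v(ν_0 u_(N_0)/u)² = v 3` (PIS). -/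
def S3_INN : Prop :=
  ∀ (A B : ℤ) (P : Ideal (OO A B)) (V : ValuationSubring ℂ), CtxR3 A B P V → TorXE A B →
    GalEE A B → ∀ (n f a : ℕ), 3 ≤ f → 2 ∣ f → ¬ 3 ∣ f → 3 ≤ a → Odd a → ¬ 3 ∣ a → a.Coprime f →
    ∀ (ι : Type) (R : RepsE A B (3 * f) ι) (u e lam : ℂ), GoodR V (R.L R.i0) u e lam →
    ∀ (H : ι → Finset ℂ), (∀ i, IsHalf (R.L i) (a : ℂ) (H i)) →
    ∀ (i : ι) (x : OO A B), IsCoprime x ((3 ^ (n + 1) * f : ℕ) : OO A B) →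
    ∀ q : ℂ, Tor P (R.L i) q →
      (∀ l : ℕ, (∃ k : ℤ, V.valuation (ThetaH (R.L i) (H i) (ptE R (3 ^ (n + 1) * f) i x + l * q)) =
          V.valuation (emb (dD A B)) ^ (3 * k)) ∧
        V.valuation (muXE R i * dlX (R.L i) a (ptE R (3 ^ (n + 1) * f) i x + l * q) / u) ≤ 1) ∧
      (q ∉ (R.L i).lattice → V.valuation (muXE R i * (∑ l ∈ Finset.range 3,
        dlX (R.L i) a (ptE R (3 ^ (n + 1) * f) i x + l * q)) / u) ^ 2 ≤ V.valuation (3 : ℂ))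

/-- (ONE) Lemma E for products over finite families of points.

Uses Sf_ALG, Sf_PRO, Sf_PTS, Sf_THN, S3_SIG, Sf_NE1, S3_MUL, S3_EXO, S3_IDL, S3_DIS, S3_PIS, S3_INN. PROOF. As `E_ONE.lean`. `m = 3^(n+1) f`. `N_i, ν_i` (`exq`), models `u_i', e_i', lam_i'` (`good`), half systems `H_i'` of `N_i` (`a` odd, `b_HAL`); `N_0, ν_0` for `i0`, `z₁ = ν_0 om_0/m = ν_0 ptE R m i0 1`, exact order `lvR P f n` (EXO). `W = ∏_j (∏_k ∏_l Θ)^(g_j) = y³`;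
`v(W) = ρ^(3K)`, `ρ = v(dD)` (INN), so `w = y/emb(dD)^K ∈ RFE (lvR P f n) ≤ RFE (lvR P (f a) n)`, `v w = 1`. (SIG) for `N_0`, `z₁`, `w`: `F`, `β`. Let `c - 1 ∈ lvR P (f a) (n - 1)`; `c` is prime to `3^(n+1) f a` (`n ≥ 1`), `c - 1 ∈ P`, `σ` with `ActEE (em σ) (idl (3^(n+1) f a)) c`. (`Pool.Agent.MEE.tm_GTH`) `σ(Θ(z + l q)) = Θ(c z + l c q) = Θ(c z + l q)` (`c q ≡ q`), so by (DIS)
`σ(∏_l Θ(z + l q)) = C Θ_(N_i)(ν_i c z)`, `ν_i c z = ν_i z + μ' Y`, `Y = emb (c - 1) z₁`, `μ' = μ_i emb x ν_i/ν_0` (EXO), `∏_l Θ(z + l q) = C Θ_(N_i)(ν_i z)` with the same `C` (DIS for the chosen `q`), and `σ(emb dD) = emb dD`. So `∏_j (∏_k Θ_(N_i)(ν_i z + μ' Y)/Θ_(N_i)(ν_i z))^(g_j) = (F(Y)/w)³` for `Y = emb (c - 1) z₁`. Every `Y ∈ E3 N_0` is congruent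
modulo `N_0` to such a point: `Y = ν_0 om_0 t`, `3 p t ∈ emb O` for `p ∈ P` (`IsQ`, `b0`); `m t = f 3^n (3 t)`, `3 t P ⊆ O`, so `3 (3 t) ∈ emb P` (`3 ∈ P P`) and `m t = 3^(n-1) f p'`, `p' ∈ P`; with `a a' ≡ 1` modulo 3: `c = 1 + 3^(n-1) f a a' p'`, `(a a' - 1) 3^(n-1) f p' ∈ lvR P f n`. (THN) for `μ' : N_0 → N_i` (MUL, NE1): represented by `(1, μ' dl_(N_i)(ν_i z)/u_0')`. (PRO (2), (3)):
`v(S') ≤ v 3`, `S' = Σ g_j Σ_k μ' dl_(N_i)(ν_i z)/u_0' = (Σ g_j Σ_k emb x μ_i Σ_l dl_(L_i)(z + l q)/u) (u/(ν_0 u_0'))` (DIS), `v(ν_0 u_0'/u)² = v 3` (PIS): `v(Σ)² ≤ v(3)² v 3`. -/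
def S3_ONE : Prop :=
  ∀ (A B : ℤ) (P : Ideal (OO A B)) (V : ValuationSubring ℂ), CtxR3 A B P V → TorXE A B →
    GalEE A B →
    ∀ (n f a : ℕ), 1 ≤ n → 3 ≤ f → 2 ∣ f → ¬ 3 ∣ f → 3 ≤ a → Odd a → ¬ 3 ∣ a → a.Coprime f →
    ∀ (ι : Type) (R : RepsE A B (3 * f) ι) (u e lam : ℂ), GoodR V (R.L R.i0) u e lam →
    ∀ (H : ι → Finset ℂ), (∀ i, IsHalf (R.L i) (a : ℂ) (H i)) →
    ∀ (J κ : Type) [Fintype J] (X : J → Finset κ) (g : J → ℤ) (i : κ → ι) (x : κ → OO A B)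
      (q : κ → ℂ),
      (∀ j, ∀ k ∈ X j, IsCoprime (x k) ((3 ^ (n + 1) * f : ℕ) : OO A B) ∧
        Tor P (R.L (i k)) (q k) ∧ q k ∉ (R.L (i k)).lattice) →
      (∃ y ∈ RFE (lvR P f n), y ^ 3 =
        ∏ j, (∏ k ∈ X j, ∏ l ∈ Finset.range 3, ThetaH (R.L (i k)) (H (i k))
          (ptE R (3 ^ (n + 1) * f) (i k) (x k) + l * q k)) ^ g j) →
      V.valuation ((∑ j, (g j : ℂ) * ∑ k ∈ X j, emb (x k) * muXE R (i k) *
        ∑ l ∈ Finset.range 3, dlX (R.L (i k)) a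
          (ptE R (3 ^ (n + 1) * f) (i k) (x k) + l * q k)) / u) ^ 2 ≤ V.valuation (3 : ℂ) ^ 3

/-- (MAIN) Lemma E for a conjugate family.

Uses S3_ONE. PROOF. As `E_MAIN.lean` or `Pool/Agent/MUX/E_MAIN0.lean` (`Sxe_MAIN0`): apply `τ'` to `y^3 = ∏ C τ ^ g τ`: `(τ' y)³ = ∏ C(τ τ')^(g τ)` (`hC`, `Gal(D/k)` is commutative: `TorXE.comm`, `D ≤ RFE (lvR P f n)`), then (ONE) with `J = Gal(D/k)`, `X τ = S (τ τ')`. `lvX 3 f n = f * 3 * 3^n = 3^(n+1) * f`, `aX 3 f = 1 + 6 f` is odd, prime to `3` and `f`. -/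
def S3_MAIN : Prop :=
  ∀ (A B : ℤ) (P : Ideal (OO A B)) (V : ValuationSubring ℂ), CtxR3 A B P V → TorXE A B →
    GalEE A B →
    ∀ (n f : ℕ), 1 ≤ n → 3 ≤ f → 2 ∣ f → ¬ 3 ∣ f →
    ∀ (ι : Type) (R : RepsE A B (3 * f) ι) (u e lam : ℂ), GoodR V (R.L R.i0) u e lam →
    ∀ (H : ι → Finset ℂ), (∀ i, IsHalf (R.L i) (aX 3 f : ℂ) (H i)) →
    ∀ (D : IntermediateField ℚ ℂ) (h : kk A B ≤ D), (∀ y ∈ D, y ∈ RFE (lvR P f n)) →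
    letI := algC h
    ∀ (C : (D ≃ₐ[kk A B] D) → ℂ) (κ : Type) (S : (D ≃ₐ[kk A B] D) → Finset κ) (i : κ → ι)
      (x : κ → OO A B) (q : κ → ℂ),
    (∀ τ : D ≃ₐ[kk A B] D, ∃ y : D, (y : ℂ) = C 1 ∧ ((τ y : D) : ℂ) = C τ) →
    (∀ τ, ∀ k ∈ S τ, IsCoprime (x k) ((lvX 3 f n : ℕ) : OO A B) ∧
        Tor P (R.L (i k)) (q k) ∧ q k ∉ (R.L (i k)).lattice) →
    (∀ τ, C τ = ∏ k ∈ S τ, ∏ l ∈ Finset.range 3, ThetaH (R.L (i k)) (H (i k))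
      (ptE R (lvX 3 f n) (i k) (x k) + l * q k)) →
    ∀ g : (D ≃ₐ[kk A B] D) → ℤ,
      (∃ y ∈ D, y ^ 3 = ∏ᶠ τ : D ≃ₐ[kk A B] D, C τ ^ g τ) →
      ∀ τ' : D ≃ₐ[kk A B] D,
        V.valuation ((∑ᶠ τ : D ≃ₐ[kk A B] D, (g τ : ℂ) * ∑ k ∈ S (τ * τ'),
          emb (x k) * muXE R (i k) * ∑ l ∈ Finset.range 3, dlX (R.L (i k)) (aX 3 f)
            (ptE R (lvX 3 f n) (i k) (x k) + l * q k)) / u) ^ 2 ≤ V.valuation (3 : ℂ) ^ 3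

/-- (BPW) the powers of `b`, where `b c̄ ≡ c` modulo `m = lvX 3 f n = f 3^(n+1)`, `c = 1 + T`, `c̄ = 1 - T`, `T = 3 f δ`, `δ = dD A B`.

Uses S3_IDL. PROOF. `c c̄ = 1 - T²`, so `c`, `c̄` are prime to `3 f`, to `m`; `c' c̄ ≡ 1` modulo `m`. (1) `b ≡ c c'` is prime to `m`. (2) `b - 1 ≡ (c - c̄) c' = 2 T c' = 3 f y₁`, `y₁ = 2 δ c' ∈ P`, `y₁ ∉ (3) = P P` (`δ ∉ (3)`: its coordinate `im` is 2; multiply by the inverse of `2 c'` modulo `3`). If `b^k ≡ 1 + 3^i f y`, `i ≥ 1`, `y ∈ P ∖ (3)`, then `b^(3k) ≡ 1 + 3^(i+1) f y (1 + 3^i f y + 3^(2i-1) f² y²)`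
and the last factor is `≡ 1` modulo `P`, so the product with `y` is in `P ∖ (3)` (IDL (2), `P` prime: if `y t ∈ P P`, `t ∉ P`, then `y ∈ P P`; with `t t' = 1 + p`, `p ∈ P`: `y = y t t' - y p ∈ P P`). And `(1 + 3^i f y)^l ≡ 1 + 3^i f y (l + p)`, `p ∈ P`, for `3 ∤ l`. Induction on `j`. (3) `b^(3^n) ≡ 1`: the same with `i = n` (`n = 0`: `b - 1 ∈ (3 f)`). (4) `nm b · nm c̄ ≡ nm c`
modulo `3^(n+1)` (norms of congruent elements are congruent), `nm c = nm c̄` is prime to 3. (5) `b ≡ 1` modulo `3 f P`: (2) for `l = 1`, or `b - 1 ≡ 3 f y₁`. -/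
def S3_BPW : Prop :=
  ∀ (A B : ℤ) (P : Ideal (OO A B)) (V : ValuationSubring ℂ), CtxR3 A B P V →
    ∀ (f n : ℕ) (b : OO A B), f ≠ 0 → IsB f n b →
      IsCoprime b ((lvX 3 f n : ℕ) : OO A B) ∧
      (∀ l j : ℕ, 3 ^ j ∣ l → ¬ 3 ^ (j + 1) ∣ l → j + 1 ≤ n → ∃ y ∈ P, y ∉ P * P ∧
        b ^ l - 1 - ((3 ^ (j + 1) * f : ℕ) : OO A B) * y ∈ idl (A := A) (B := B) (lvX 3 f n)) ∧
      b ^ (3 ^ n) - 1 ∈ idl (A := A) (B := B) (lvX 3 f n) ∧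
      (3 ^ (n + 1) : ℤ) ∣ nm b - 1 ∧
      (1 ≤ n → ∀ l : ℕ, b ^ l - 1 ∈ lvR P f 1)

/-- (STB) the sets `XXE` are stable under multiplication by `b`, if `b ≡ 1` modulo `lvR P f n` is prime to `m`.

Uses S3_IDL. PROOF. `m = lvX 3 f n`. `(i, x) ∈ XXE`: `σ` (`FixK`, extending `τ`) with `HitsE R m σ i x`. `ρ` with the ideal `sp b` of level `m` (`TorXE.surj`), multiplier `± b` (`TorXE.two`, `b ≡ 1` modulo `2`); it is trivial on `RFE (lvR P f n)` (`TorXE.triv`), so on `D`. `σ` acts on `E[m]` as `z ↦ μ z` (`TorXE.act`) with `μ z₀ ≡ ± pt i x`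
(`z₀ = pt i0 1`), so `σ ρ` (`ρ` first) extends `τ` and maps the base point to `± pt i (b x)`. -/
def S3_STB : Prop :=
  ∀ (A B : ℤ) (P : Ideal (OO A B)) (V : ValuationSubring ℂ), CtxR3 A B P V → TorXE A B →
    ∀ (n f : ℕ), 1 ≤ n → f ≠ 0 → 2 ∣ f → ¬ 3 ∣ f → ∀ (ι : Type) (R : RepsE A B (3 * f) ι)
    (D : IntermediateField ℚ ℂ) (h : kk A B ≤ D), (∀ y ∈ D, y ∈ RFE (lvR P f n)) →
    letI := algC h
    ∀ (τ : D ≃ₐ[kk A B] D) (b : OO A B), IsCoprime b ((lvX 3 f n : ℕ) : OO A B) →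
      b - 1 ∈ lvR P f n → ∀ q ∈ XXE R (lvX 3 f n) h τ,
        (q.1, q.2 * Ideal.Quotient.mk (idl (A := A) (B := B) (lvX 3 f n)) b) ∈
          XXE R (lvX 3 f n) h τ

/-- (RED) the final form, from CtxR3.

Uses S3_MAIN, S3_INN, Sf_ORB, S3_STB, S3_EXO, S3_IDL. PROOF. As `F_RED.lean` (`Sf_RED`) with the orbits of `b = 1 + t`, `t = 3^n f δ ∈ lvR P f n`, of length `3` (`t² ∈ (m)`, `3 t ∈ (m)`, `δ ∉ P²`), and with other weights: `TTNE(τ) = Σ_((i, x) ∈ T τ) μ_i w(x) Σ_(l < 3) dl(pt x + l q)`, `w (x b^l) = w x` (`b ≡ 1` modulo `3`). The difference with the sums in (MAIN) is a sum of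
`μ_i (emb x - w x) Σ_(l < 3) dl(pt x + l q)`, `emb x - w x ∈ 3 V` (`IsTei6.cong`), and `v(μ_i Σ_l dl/u)² ≤ v 3` (INN): so `v² ≤ v(3)³`. -/
def S3_RED : Prop :=
  ∀ (A B : ℤ) (P : Ideal (OO A B)) (V : ValuationSubring ℂ), CtxR3 A B P V → TorXE A B →
    GalEE A B → ∀ (n f : ℕ), 1 ≤ n → 3 ≤ f → 2 ∣ f → ¬ 3 ∣ f →
    ∀ (ι : Type) [Fintype ι] (R : RepsE A B (3 * f) ι) (u e lam : ℂ),
    GoodR V (R.L R.i0) u e lam → ∀ w : OO A B → ℂ, IsTei6 P V w →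
    ∀ (H : ι → Finset ℂ), (∀ i, IsHalf (R.L i) (aX 3 f : ℂ) (H i)) →
    ∀ (D : IntermediateField ℚ ℂ) (h : kk A B ≤ D), (∀ y ∈ D, y ∈ RFE (lvR P f n)) →
    letI := algC h
    (∀ τ : D ≃ₐ[kk A B] D, ∃ y : D, (y : ℂ) = cXE R (lvX 3 f n) H h 1 ∧
      ((τ y : D) : ℂ) = cXE R (lvX 3 f n) H h τ) →
    ∀ g : (D ≃ₐ[kk A B] D) → ℤ,
      (∃ y ∈ D, y ^ 3 = ∏ᶠ τ : D ≃ₐ[kk A B] D, cXE R (lvX 3 f n) H h τ ^ g τ) →
      ∀ τ' : D ≃ₐ[kk A B] D,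
        V.valuation ((∑ᶠ τ : D ≃ₐ[kk A B] D, (g τ : ℂ) *
          TTNE R w (lvX 3 f n) (aX 3 f) h (τ * τ')) / u) ^ 2 ≤ V.valuation (3 : ℂ) ^ 3

/-- (FIN) the final form.

Uses S3_CTX, S3_RED. -/
def S3_FIN : Prop := S3_RFIN → S3_EFI2

end

end Pool.Agent.ME3
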