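import Pool.Agent.ME.R_RFIN
import Pool.Agent.ME.StE3

/-!
# ME, block R (helper58): `S3_RFIN` (`D = -3`), without hypotheses
-/

set_option autoImplicit false

namespace Pool.Agent.MER

/-- (RFIN) for `D = -3`, the form of `StE3.lean` -/
theorem s3_rfin : Pool.Agent.ME3.S3_RFIN := fun A B P V h hB hP hV T => rfin3 A B P V h hB hP hV T

end Pool.Agent.MER
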