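import Pool.Agent.NS.FAll
import Pool.Agent.ME.R_S3
import Pool.Agent.ME.E3_BPW
import Pool.Agent.ME.E3_CTX
import Pool.Agent.ME.E3_DEG
import Pool.Agent.ME.E3_DIS
import Pool.Agent.ME.E3_EXO
import Pool.Agent.ME.E3_FIN
import Pool.Agent.ME.E3_IDL
import Pool.Agent.ME.E3_INN
import Pool.Agent.ME.E3_MAIN
import Pool.Agent.ME.E3_MUL
import Pool.Agent.ME.E3_ONE
import Pool.Agent.ME.E3_PIS
import Pool.Agent.ME.E3_RED
import Pool.Agent.ME.E3_RP1
import Pool.Agent.ME.E3_RPV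
import Pool.Agent.ME.E3_SIG
import Pool.Agent.ME.E3_STB
import Pool.Agent.ME.E3_TPR
import Pool.Agent.ME.E3_UNI
import Pool.Agent.ME.E3_UNR

/-! # Block E for `D = -3`, assembled (helper86)

`StE3.lean` states Lemma E at `3` for the exceptional field `ℚ(√-3)`; the files `E3_*.lean` prove
the statements. This file puts them together: `e3_X : S3_X`, without hypotheses; the last one,
`efin3`, derives `S3_EFIN` from `S3_RFIN`. -/

set_option autoImplicit false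

namespace Pool.Agent.ME3

open Pool.Agent.NSER Pool.Agent.MUXU

theorem e3_CTX : S3_CTX := t3_CTX
theorem e3_DIS : S3_DIS := t3_DIS u_PFI
theorem e3_IDL : S3_IDL := t3_IDL
theorem e3_MUL : S3_MUL := t3_MUL
theorem e3_RP1 : S3_RP1 := t3_RP1 f_LEG
theorem e3_STB : S3_STB := t3_STB e3_IDL
theorem e3_UNR : S3_UNR := t3_UNR
theorem e3_BPW : S3_BPW := t3_BPW e3_IDL
theorem e3_DEG : S3_DEG := t3_DEG e3_IDL
theorem e3_EXO : S3_EXO := t3_EXO e3_IDL
theorem e3_RPV : S3_RPV := t3_RPV f_COE f_TW3 e3_UNR e3_RP1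
theorem e3_PIS : S3_PIS := t3_PIS f_GRN f_TNC e3_RPV u_BAC u_PFI
theorem e3_TPR : S3_TPR := t3_TPR f_GRN f_TNC e3_RPV e3_PIS u_BAC u_PFI
theorem e3_UNI : S3_UNI := t3_UNI f_GRN f_TNC e3_TPR e3_UNR e3_DEG e3_RP1 e3_IDL
theorem e3_INN : S3_INN := t3_INN f_THN f_NE1 e3_EXO e3_MUL e3_PIS e3_DIS e3_UNR e3_RP1
theorem e3_SIG : S3_SIG := t3_SIG f_ALG f_PRO f_PTS f_ADD e3_UNI e3_RP1 e3_IDL
theorem e3_ONE : S3_ONE :=
  t3_ONE f_ALG f_PRO f_PTS f_THN e3_SIG f_NE1 e3_MUL e3_EXO e3_IDL e3_DIS e3_PIS e3_INN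
theorem e3_MAIN : S3_MAIN := t3_MAIN e3_ONE
theorem e3_RED : S3_RED := t3_RED e3_MAIN e3_INN f_ORB e3_STB e3_EXO e3_IDL
theorem e3_FIN : S3_FIN := t3_FIN e3_CTX e3_RED

/-- the function `E` of the exceptional field `ℚ(√-3)` at `3` -/
theorem efin3 : S3_RFIN → S3_EFIN := fun hR A B P V f hS hf hT ι _ R u e lam hG w hw n hn H hH
  D h hD _ => e3_FIN hR A B P V f hS hf hT ι R u e lam hG w hw n hn H hH D h hD

/-- the stronger form, without hypotheses -/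
theorem efin3' : S3_EFI2 := e3_FIN Pool.Agent.MER.s3_rfin

end Pool.Agent.ME3
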