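import Pool.Agent.ME.StE4
import Pool.Agent.ME.X_TRA
import Pool.Agent.ME.X_TRB
import Pool.Agent.ME.X_FAC
import Pool.Agent.ME.X_GTH
import Pool.Agent.ME.X_PT
import Pool.Agent.ME.X_GAL

/-!
# MUX-NS, block EN, module CTX: from the standing hypotheses to `CtxN4`
-/

set_option autoImplicit false

namespace Pool.Agent.ME4

open _root_.MU3 Pool.Agent.MU3A Pool.Agent.MU3B Pool.Agent.MUX Pool.Agent.MUXU Pool.Agent.MUXE
open Pool.Agent.RI Pool.Agent.NS
open Pool.Agent.ME hiding ActE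
open Pool.Agent.MEE
open Pool.Agent.NSE (E3 su ru WL IntP Pts Rep Se_ALG Se_PRO Se_PUL Se_COE Se_GRN Se_LEG Se_TW3 Se_PTS Se_TPN Se_UNT Se_RAT Se_ISO Se_ADD Se_THN Se_BAS Se_NE1)

noncomputable section

namespace CtxNaux

variable {A B : ℤ}

lemma mem_idl (m : ℕ) (x : OO A B) :
    x ∈ idl (A := A) (B := B) m ↔ (m : ℤ) ∣ x.re ∧ (m : ℤ) ∣ x.im := by
  rw [Ideal.mem_span_singleton]
  constructor
  · rintro ⟨t, rfl⟩
    refine ⟨⟨t.re, ?_⟩, ⟨t.im, ?_⟩⟩
    · rw [QuadraticAlgebra.re_mul]; simp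
    · rw [QuadraticAlgebra.im_mul]; simp
  · rintro ⟨⟨s, hs⟩, ⟨t, ht⟩⟩
    refine ⟨⟨s, t⟩, ?_⟩
    apply QuadraticAlgebra.ext
    · rw [QuadraticAlgebra.re_mul]; simp [hs]
    · rw [QuadraticAlgebra.im_mul]; simp [ht]

lemma emb_nat (h : CQ A B) (n : ℕ) : emb ((n : ℕ) : OO A B) = (n : ℂ) := by
  rw [← RNGaux.eH_apply h, map_natCast]

lemma sq_mod {a b : ℤ} (h : (3 : ℤ) ∣ a ^ 2 + b ^ 2) : (3 : ℤ) ∣ a ∧ (3 : ℤ) ∣ b := by
  have h1 : a % 3 = 0 ∨ a % 3 = 1 ∨ a % 3 = 2 := by omega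
  have h2 : b % 3 = 0 ∨ b % 3 = 1 ∨ b % 3 = 2 := by omega
  have h3 : (a ^ 2 + b ^ 2) % 3 = ((a % 3) ^ 2 + (b % 3) ^ 2) % 3 :=
    ((Int.mod_modEq a 3).symm.pow 2).add ((Int.mod_modEq b 3).symm.pow 2)
  have h4 : (a ^ 2 + b ^ 2) % 3 = 0 := Int.emod_eq_zero_of_dvd h
  rw [h4] at h3
  rcases h1 with h1 | h1 | h1 <;> rcases h2 with h2 | h2 | h2 <;> rw [h1, h2] at h3 <;>
    first
      | exact ⟨Int.dvd_of_emod_eq_zero h1, Int.dvd_of_emod_eq_zero h2⟩
      | (exfalso; revert h3; decide)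

lemma nrm (h : (3 : ℤ) ∣ B ^ 2 + 4 * A + 1) {x : OO A B}
    (hx : x ∉ idl (A := A) (B := B) 3) : ¬ (3 : ℤ) ∣ nm x := by
  intro h1
  apply hx
  have h2 := RNGaux.four_nm x
  have h3 : (3 : ℤ) ∣ (2 * x.re + B * x.im) ^ 2 + x.im ^ 2 := by
    have h4 : (2 * x.re + B * x.im) ^ 2 + x.im ^ 2 =
        4 * nm x + (B ^ 2 + 4 * A + 1) * x.im ^ 2 := by
      rw [h2]
      unfold absD
      ring
    rw [h4]
    exact dvd_add (h1.mul_left _) (h.mul_right _)
  obtain ⟨h4, h5⟩ := sq_mod h3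
  rw [mem_idl]
  refine ⟨?_, by exact_mod_cast h5⟩
  have h6 : (3 : ℤ) ∣ 2 * x.re := (dvd_add_left (h5.mul_left B)).1 h4
  have h7 : (3 : ℤ) ∣ x.re := by omega
  exact_mod_cast h7

lemma maxi (h : (3 : ℤ) ∣ B ^ 2 + 4 * A + 1) : (idl (A := A) (B := B) 3).IsMaximal := by
  rw [Ideal.isMaximal_iff]
  refine ⟨?_, ?_⟩
  · intro h1
    rw [mem_idl] at h1
    have h2 := h1.1
    rw [QuadraticAlgebra.re_one] at h2
    norm_num at h2
  · intro J x hJ hx hxJ
    have h1 : IsCoprime (nm x) (3 : ℤ) :=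
      isCoprime_comm.1 ((Int.prime_three.coprime_iff_not_dvd).2 (nrm h hx))
    obtain ⟨u, v, huv⟩ := h1
    have h2 : ((nm x : ℤ) : OO A B) ∈ J := by
      rw [← RNGaux.mul_star']
      exact J.mul_mem_right _ hxJ
    have h3 : ((3 : ℕ) : OO A B) ∈ J := hJ (Ideal.mem_span_singleton_self _)
    have h4 := congrArg (Int.cast : ℤ → OO A B) huv
    push_cast at h4
    rw [← h4]
    refine J.add_mem (J.mul_mem_left _ h2) (J.mul_mem_left _ ?_)
    simpa using h3

lemma val_le (h : CQ A B) (V : ValuationSubring ℂ) (x : OO A B) : V.valuation (emb x) ≤ 1 := by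
  rw [ValuationSubring.valuation_le_one_iff]
  have h1 : IsIntegral V (emb x) := (RNGaux.emb_int h x).tower_top
  obtain ⟨y, hy⟩ := IsIntegrallyClosed.isIntegral_iff.1 h1
  rw [← hy]
  exact y.2

lemma val_unit (h : CQ A B) {V : ValuationSubring ℂ} (hV : OverI V (idl (A := A) (B := B) 3))
    {x : OO A B} (hx : x ∉ idl (A := A) (B := B) 3) : V.valuation (emb x) = 1 := by
  refine le_antisymm (val_le h V x) (not_lt.1 fun h1 => hx ((hV x).1 ?_))
  exact (ValuationSubring.mem_nonunits_iff V).2 h1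

lemma val_emb (h : CQ A B) {V : ValuationSubring ℂ} (hV : OverI V (idl (A := A) (B := B) 3)) :
    ∀ (n : ℕ) (x : OO A B), x ≠ 0 → (nm x).toNat ≤ n →
      ∃ j : ℕ, V.valuation (emb x) = V.valuation (3 : ℂ) ^ j := by
  intro n
  induction n with
  | zero =>
    intro x hx hn
    have := RNGaux.nm_pos h hx
    omega
  | succ n ih =>
    intro x hx hn
    by_cases h3 : x ∈ idl (A := A) (B := B) 3
    · obtain ⟨y, hy⟩ := Ideal.mem_span_singleton.1 h3
      have hy0 : y ≠ 0 := by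
        rintro rfl
        rw [mul_zero] at hy
        exact hx hy
      have hnm : nm x = 9 * nm y := by
        have h4 : ((3 : ℕ) : OO A B).re = 3 := QuadraticAlgebra.re_natCast 3
        have h5 : ((3 : ℕ) : OO A B).im = 0 := QuadraticAlgebra.im_natCast 3
        rw [hy]
        unfold nm
        rw [QuadraticAlgebra.re_mul, QuadraticAlgebra.im_mul, h4, h5]
        ring
      have hpos := RNGaux.nm_pos h hy0
      obtain ⟨j, hj⟩ := ih y hy0 (by omega)
      refine ⟨j + 1, ?_⟩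
      rw [hy, ← RNGaux.eH_apply h, map_mul, RNGaux.eH_apply h, RNGaux.eH_apply h, emb_nat h,
        map_mul, hj, pow_succ, mul_comm]
      norm_num
    · exact ⟨0, by rw [pow_zero, val_unit h hV h3]⟩

lemma alg_kk (h : CQ A B) (y : ℂ) (hy : y ∈ kk A B) : IsAlgebraic ℤ y := by
  have h1 : Algebra.IsAlgebraic ℚ (kk A B) :=
    IntermediateField.isAlgebraic_adjoin_simple (RNGaux.w_intQ h)
  have h2 : IsAlgebraic ℚ y := by
    have h3 := h1.isAlgebraic ⟨y, hy⟩
    exact h3.algebraMap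
  exact (IsFractionRing.isAlgebraic_iff ℤ ℚ ℂ).2 h2

end CtxNaux

open CtxNaux in
/-- (CTX) from the standing hypotheses to `CtxN4` -/
theorem t4_CTX : S4_CTX := by
  intro A B V hC hB hV hT hF
  obtain ⟨hF1, hF2⟩ := hF A B V hC hB hV hT
  have hthree : (3 : ℤ) ∣ B ^ 2 + 4 * A + 1 := by
    rw [hC.hA, hB]
    norm_num
  have h := hC.toCQ
  have hv3 : V.valuation (3 : ℂ) < 1 := by
    have h1 := (hV ((3 : ℕ) : OO A B)).2 (Ideal.mem_span_singleton_self _)
    rw [ValuationSubring.mem_nonunits_iff, emb_nat h] at h1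
    exact_mod_cast h1
  have hv0 : V.valuation (3 : ℂ) ≠ 0 := by
    rw [Valuation.ne_zero_iff]
    norm_num
  have hR : RingE A B := te_RNG A B h
  refine
    { case := hC
      ring := hR
      cq := h
      v3 := hv3
      int := val_le h V
      unit := fun x hx => val_unit h hV hx
      nat := ?_
      max := maxi hthree
      nrm := fun x hx => nrm hthree hx
      kval := ?_
      good := ?_
      iner := hF2 }
  · intro n hn
    rw [← emb_nat h]
    refine val_unit h hV fun h1 => hn ?_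
    rw [mem_idl] at h1
    have h2 := h1.1
    rw [QuadraticAlgebra.re_natCast] at h2
    exact_mod_cast h2
  · intro y hy hy0
    obtain ⟨n, hn, hint⟩ := (alg_kk h y hy).exists_integral_multiple
    have hnk : n • y ∈ kk A B := zsmul_mem hy n
    obtain ⟨x, hx⟩ := (hR.int _ hnk).1 hint
    have hnC : (n : ℂ) ≠ 0 := by exact_mod_cast hn
    have hxe : (n : ℂ) * y = emb x := by
      rw [← hx, zsmul_eq_mul]
    have hx0 : x ≠ 0 := by
      rintro rfl
      rw [← RNGaux.eH_apply h, map_zero] at hxe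
      exact mul_ne_zero hnC hy0 hxe
    have hne : emb ((n : ℤ) : OO A B) = (n : ℂ) := by
      rw [← RNGaux.eH_apply h, map_intCast]
    have hn0 : ((n : ℤ) : OO A B) ≠ 0 := by
      intro h0
      rw [h0, ← RNGaux.eH_apply h, map_zero] at hne
      exact hnC hne.symm
    obtain ⟨j, hj⟩ := val_emb h hV _ x hx0 le_rfl
    obtain ⟨i, hi⟩ := val_emb h hV _ ((n : ℤ) : OO A B) hn0 le_rfl
    rw [hne] at hi
    have h2 := congrArg V.valuation hxe
    rw [map_mul, hi, hj] at h2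
    refine ⟨(j : ℤ) - i, ?_⟩
    rw [zpow_sub₀ hv0, zpow_natCast, zpow_natCast, ← h2]
    field_simp
  · rintro L ⟨b, om, hL⟩
    obtain ⟨u, e, lam, h1, -⟩ := hF1 b L om hL
    exact ⟨u, e, lam, h1⟩

end

end Pool.Agent.ME4
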