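import Pool.Agent.ME.StE4
import Pool.Agent.ME.X_TRA
import Pool.Agent.ME.X_TRB
import Pool.Agent.ME.X_FAC
import Pool.Agent.ME.X_GTH
import Pool.Agent.ME.X_PT
import Pool.Agent.ME.X_GAL
import Pool.Agent.ME.X_COM
import Pool.Agent.MUX.E_MAIN0

/-!
# MUX-NS, block EN, module MAIN: Lemma E for arbitrary families of pairs
-/

set_option autoImplicit false

namespace Pool.Agent.ME4

open _root_.MU3 Pool.Agent.MU3A Pool.Agent.MU3B Pool.Agent.MUX Pool.Agent.MUXU Pool.Agent.MUXE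
open Pool.Agent.RI Pool.Agent.NS
open Pool.Agent.ME hiding ActE
open Pool.Agent.MEE
open Pool.Agent.NSE (E3 su ru WL IntP Pts Rep Se_ALG Se_PRO Se_PUL Se_COE Se_GRN Se_LEG Se_TW3 Se_PTS Se_TPN Se_UNT Se_RAT Se_ISO Se_ADD Se_THN Se_BAS Se_NE1)

noncomputable section

lemma mn_f {A B : ℤ} {V : ValuationSubring ℂ} {f : ℕ} (h : SetE4 A B V f) :
    3 ≤ f ∧ 2 ∣ f := by
  have h0 := h.f0
  have h1 := h.fD
  have h2 := h.case.neg
  have h4 : 2 * absD A B ≤ (f : ℤ) := Int.le_of_dvd (by positivity) h1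
  have h5 : 2 ≤ absD A B := by
    unfold absD
    rcases h.case.hB with rfl | rfl
    · simp at h2 ⊢
      omega
    · simp at h2 ⊢
      omega
  refine ⟨by omega, ?_⟩
  have h6 : (2 : ℤ) ∣ (f : ℤ) := (dvd_mul_right 2 (absD A B)).trans h1
  exact_mod_cast h6

theorem t4_MAIN (h1 : S4_ONE) (h2 : S4_CTX) : S4_MAIN := by
  classical
  intro A B V f hS hT hRF ι _ R u e lam hG w hw n hn H hH D hD hDF
  intro C S hC hcop hprod g hcube τ'
  letI := algC hD
  have hctx := h2 A B V hS.case hS.hB hS.hV hT hRF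
  have hr := hctx.ring
  have hgal := Pool.Agent.MEE.tm_GAL A B hS.case hr hT
  have hlv : lvX 3 f n = 3 ^ (n + 1) * f := by
    simp [lvX, q0]
    ring
  obtain ⟨ha3, hap, haf⟩ := m0_aX (p := 3) (Or.inr rfl) hS.f0
  obtain ⟨hf3, hf2⟩ := mn_f hS
  have hm0 : lvX 3 f n ≠ 0 := by
    rw [hlv]
    exact mul_ne_zero (pow_ne_zero _ (by norm_num)) hS.f0
  have hmb := m0_ne A B hr hm0
  have := hT.fin _ hmb
  -- D is finite over k
  let φ : D →ₗ[kk A B] RFE (idl (A := A) (B := B) (lvX 3 f n)) :=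
    { toFun := fun y => ⟨y, hDF y y.2⟩
      map_add' := fun x y => rfl
      map_smul' := fun c x => by
        apply Subtype.ext
        show ((c • x : D) : ℂ) =
          ((c • (⟨x, hDF x x.2⟩ : RFE (idl (A := A) (B := B) (lvX 3 f n))) :
            RFE (idl (A := A) (B := B) (lvX 3 f n))) : ℂ)
        rw [Algebra.smul_def, Algebra.smul_def]
        rfl }
  have hφ : Function.Injective φ := by
    intro x y hxy
    apply Subtype.ext
    exact congrArg (fun z : RFE (idl (A := A) (B := B) (lvX 3 f n)) => (z : ℂ)) hxy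
  have : FiniteDimensional (kk A B) D := FiniteDimensional.of_injective φ hφ
  have : Finite (D ≃ₐ[kk A B] D) := inferInstance
  letI : Fintype (D ≃ₐ[kk A B] D) := Fintype.ofFinite _
  have hcom := mx_comm hT _ hmb D hD hDF
  have hout : Function.Injective
      (fun q : ι × (OO A B ⧸ idl (A := A) (B := B) (lvX 3 f n)) =>
        ((q.1, Quotient.out q.2) : ι × OO A B)) := by
    intro q q' hq
    have hq0 : ((q.1, Quotient.out q.2) : ι × OO A B) = (q'.1, Quotient.out q'.2) := hq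
    have h4 : q.1 = q'.1 := (Prod.mk.inj hq0).1
    have h5 : (Quotient.out q.2 : OO A B) = Quotient.out q'.2 := (Prod.mk.inj hq0).2
    have h6 : Ideal.Quotient.mk (idl (A := A) (B := B) (lvX 3 f n)) (Quotient.out q.2) =
        Ideal.Quotient.mk (idl (A := A) (B := B) (lvX 3 f n)) (Quotient.out q'.2) :=
      congrArg _ h5
    rw [Ideal.Quotient.mk_out, Ideal.Quotient.mk_out] at h6
    exact Prod.ext h4 h6
  set X : (D ≃ₐ[kk A B] D) → Finset (ι × OO A B) := fun τ =>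
    (S (τ * τ')).image (fun q => (q.1, Quotient.out q.2)) with hX
  have hcopX : ∀ τ : D ≃ₐ[kk A B] D, ∀ y ∈ X τ,
      IsCoprime y.2 ((3 ^ (n + 1) * f : ℕ) : OO A B) := by
    intro τ y hy
    rw [hX] at hy
    obtain ⟨q, hq, rfl⟩ := Finset.mem_image.1 hy
    have := hcop (τ * τ') q hq
    rw [← hlv]
    exact this
  have key := h1 A B V hctx hT hgal n f (aX 3 f) hn hf3 hf2 hS.fp ha3 hap haf ι R u e lam hG H
    hH w hw (D ≃ₐ[kk A B] D) X g hcopX
  rw [← hlv] at key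
  have hprodX : ∀ τ : D ≃ₐ[kk A B] D,
      ∏ y ∈ X τ, ThetaH (R.L y.1) (H y.1) (ptE R (lvX 3 f n) y.1 y.2) = C (τ * τ') := by
    intro τ
    rw [hX, Finset.prod_image (fun x _ y _ hxy => hout hxy), hprod (τ * τ')]
  have hsumX : ∀ τ : D ≃ₐ[kk A B] D,
      ∑ y ∈ X τ, w y.2 * muXE R y.1 * dlX (R.L y.1) (aX 3 f) (ptE R (lvX 3 f n) y.1 y.2) =
      ∑ q ∈ S (τ * τ'), w (Quotient.out q.2) * muXE R q.1 *
        dlX (R.L q.1) (aX 3 f) (ptE R (lvX 3 f n) q.1 (Quotient.out q.2)) := by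
    intro τ
    rw [hX, Finset.sum_image (fun x _ y _ hxy => hout hxy)]
  rw [finsum_eq_sum_of_fintype]
  have e1 : (∑ τ : D ≃ₐ[kk A B] D, (g τ : ℂ) * ∑ q ∈ S (τ * τ'),
      w (Quotient.out q.2) * muXE R q.1 *
        dlX (R.L q.1) (aX 3 f) (ptE R (lvX 3 f n) q.1 (Quotient.out q.2))) =
      ∑ j : D ≃ₐ[kk A B] D, (g j : ℂ) * ∑ y ∈ X j, w y.2 * muXE R y.1 *
      dlX (R.L y.1) (aX 3 f) (ptE R (lvX 3 f n) y.1 y.2) :=
    Finset.sum_congr rfl (fun τ _ => by rw [hsumX])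
  rw [e1]
  apply key
  obtain ⟨v, hv, hvp⟩ := hcube
  rw [finprod_eq_prod_of_fintype] at hvp
  obtain ⟨y, hy1, -⟩ := hC 1
  have hyτ : ∀ τ : D ≃ₐ[kk A B] D, ((τ y : D) : ℂ) = C τ := by
    intro τ
    obtain ⟨y', hy', hy''⟩ := hC τ
    have : y' = y := Subtype.ext (hy'.trans hy1.symm)
    rw [← hy'', this]
  have hw4 : (⟨v, hv⟩ : D) ^ 3 = ∏ τ : D ≃ₐ[kk A B] D, (τ y) ^ g τ := by
    apply Subtype.ext
    rw [IntermediateField.coe_prod]
    rw [show (((⟨v, hv⟩ : D) ^ 3 : D) : ℂ) = v ^ 3 from rfl, hvp]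
    refine Finset.prod_congr rfl (fun τ _ => ?_)
    rw [← hyτ τ, ← m0_zpc (D := D)]
  refine ⟨(τ' ⟨v, hv⟩ : D), hDF _ (τ' ⟨v, hv⟩).2, ?_⟩
  have hw5 := congrArg τ' hw4
  rw [map_pow, map_prod] at hw5
  have hw6 := congrArg (fun y : D => (y : ℂ)) hw5
  push_cast at hw6
  rw [hw6]
  refine Finset.prod_congr rfl (fun τ _ => ?_)
  rw [hprodX, hcom τ τ', map_zpow₀, ← hyτ (τ' * τ), m0_zpc]
  rfl

end

end Pool.Agent.ME4
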