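import Pool.Agent.ME.StE4
import Pool.Agent.ME.X_TRA
import Pool.Agent.ME.X_TRB
import Pool.Agent.ME.X_FAC
import Pool.Agent.ME.X_GTH
import Pool.Agent.ME.X_PT
import Pool.Agent.ME.X_GAL

/-!
# MUX-NS, block EN, module ONE: Lemma E for products over finite families of points (helper76)
-/

set_option autoImplicit false

open Polynomial

namespace Pool.Agent.ME4

open _root_.MU3 Pool.Agent.MU3A Pool.Agent.MU3B Pool.Agent.MUX Pool.Agent.MUXU Pool.Agent.MUXE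
open Pool.Agent.RI Pool.Agent.NS
open Pool.Agent.ME hiding ActE
open Pool.Agent.MEE
open Pool.Agent.NSE (E3 su ru WL IntP Pts Rep Se_ALG Se_PRO Se_PUL Se_COE Se_GRN Se_LEG Se_TW3 Se_PTS Se_TPN Se_UNT Se_RAT Se_ISO Se_ADD Se_THN Se_BAS Se_NE1)
open Pool.Agent.MUXV (GR InK tX)

noncomputable section

namespace ONE

/-- `|H|` is divisible by `3` -/
lemma card3 {L : PeriodPair} {a : ℕ} {H : Finset ℂ} (ha : a ≠ 0) (h3 : ¬ 3 ∣ a)
    (hH : IsHalf L (a : ℂ) H) : 3 ∣ H.card := by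
  obtain ⟨-, -, h⟩ := b_HRE L a H (by exact_mod_cast ha) (fun w hw => by
    have := nsmul_mem hw a
    rwa [nsmul_eq_mul] at this) hH
  have h1 : 2 * H.card + 1 = a ^ 2 := by
    rw [Complex.norm_natCast] at h
    exact_mod_cast h
  have h2 : a ^ 2 % 3 = 1 := by
    rw [Nat.pow_mod]
    have h4 : a % 3 = 1 ∨ a % 3 = 2 := by omega
    rcases h4 with h4 | h4 <;> rw [h4]
  omega

lemma usq (h5 : Se_LEG) (h7 : S4_UNR) {A B : ℤ} {V : ValuationSubring ℂ} (hC : CtxN4 A B V)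
    (hT : TorXE A B) {L : PeriodPair} {u e lam : ℂ} (hL : NLE A B L) (hg : GoodN V L u e lam) :
    ∃ k : ℤ, V.valuation (u ^ 2) = V.valuation (3 : ℂ) ^ k := by
  obtain ⟨w₁, w₂, h1, h1', h2, h2', he, hu, -⟩ := h5 V L u e lam hg hC.v3
  have hring := hC.ring
  obtain ⟨φ, hφ⟩ := hring.hom
  have e2 : emb ((2 : ℕ) : OO A B) = 2 := by rw [← hφ, map_natCast]; norm_num
  obtain ⟨-, hx, -⟩ := tm_FAC tm_TRA A B hring
  have hsp := (tm_TRA A B hring L hL).2.2.2.2.1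
  have m1 : xnE L w₁ ∈ RFE (idl (A := A) (B := B) 2) :=
    (hx _ L hL).2 w₁ ((hsp _ _).2 (by rw [e2]; exact h1)) h1'
  have m2 : xnE L w₂ ∈ RFE (idl (A := A) (B := B) 2) :=
    (hx _ L hL).2 w₂ ((hsp _ _).2 (by rw [e2]; exact h2)) h2'
  have e3 : u ^ 2 = xnE L w₂ - xnE L w₁ := by
    rw [← hu, xnE, xnE]
  refine h7 A B V hC hT 2 (by norm_num) (by norm_num) (by norm_num) _ ?_ (pow_ne_zero 2 hg.u0)
  rw [e3]
  exact sub_mem m2 m1

lemma theta_per (L : PeriodPair) (H : Finset ℂ) (z v : ℂ) (hv : v ∈ L.lattice) :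
    ThetaH L H (z + v) = ThetaH L H z := by
  have h2 : L.weierstrassP (z + v) = L.weierstrassP z := L.weierstrassP_add_coe z ⟨v, hv⟩
  simp only [ThetaH, h2]

/-- everything about one point `(i, x)` -/
lemma point (hLEG : Se_LEG) (hTHN : Se_THN) (hUNR : S4_UNR) (hNE1 : Se_NE1) (hMUL : S4_MUL)
    {A B : ℤ} {V : ValuationSubring ℂ} (hC : CtxN4 A B V) (hT : TorXE A B) {n f a : ℕ}
    (hf3 : 3 ≤ f) (hf : ¬ 3 ∣ f) (ha : a ≠ 0) (hpa : ¬ 3 ∣ a) (hco : a.Coprime f) {ι : Type}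
    (R : RepsE A B (3 * f) ι) {u e lam : ℂ} (hgood : GoodN V (R.L R.i0) u e lam)
    {H : ι → Finset ℂ} (hH : ∀ i, IsHalf (R.L i) (a : ℂ) (H i)) (i : ι) (x : OO A B)
    (hx : IsCoprime x ((3 ^ (n + 1) * f : ℕ) : OO A B)) :
    x ∉ idl (A := A) (B := B) 3 ∧ Isg (R.L R.i0) (R.L i) (muXE R i * emb x) ∧
    ptE R (3 ^ (n + 1) * f) i x = muXE R i * (emb x * (R.om R.i0 / (3 ^ (n + 1) * f : ℕ))) ∧
    ((3 ^ (n + 1) * f : ℕ) : ℂ) * ptE R (3 ^ (n + 1) * f) i x ∈ (R.L i).lattice ∧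
    ptE R (3 ^ (n + 1) * f) i x ∉ (R.L i).lattice ∧
    (∃ k : ℤ, V.valuation (ThetaH (R.L i) (H i) (ptE R (3 ^ (n + 1) * f) i x)) =
      V.valuation (3 : ℂ) ^ (3 * k)) ∧
    V.valuation (muXE R i * emb x * dlX (R.L i) a (ptE R (3 ^ (n + 1) * f) i x) / u) ≤ 1 ∧
    Rep V (E3 (R.L R.i0)) (su (R.L R.i0) u e) (ru (R.L R.i0) u e)
      (fun Y => ThetaH (R.L i) (H i) (ptE R (3 ^ (n + 1) * f) i x + muXE R i * emb x * Y) /
        ThetaH (R.L i) (H i) (ptE R (3 ^ (n + 1) * f) i x)) 1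
      (muXE R i * emb x * dlX (R.L i) a (ptE R (3 ^ (n + 1) * f) i x) / u) := by
  have hring := hC.ring
  have hx3 : x ∉ idl (A := A) (B := B) 3 := by
    intro h
    apply hC.max.ne_top
    rw [Ideal.eq_top_iff_one]
    obtain ⟨b1, b2, hb⟩ := hx
    rw [← hb]
    refine add_mem (Ideal.mul_mem_left _ _ h) (Ideal.mul_mem_left _ _ ?_)
    exact Ideal.mem_span_singleton.2 ⟨((3 ^ n * f : ℕ) : OO A B), by push_cast; ring⟩
  obtain ⟨hmu, hisg, N, hN3, hN⟩ := hMUL A B V hC (3 * f) ι R (by omega) (dvd_mul_right _ _) i x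
    hx3
  have hm0 : 3 ^ (n + 1) * f ≠ 0 := mul_ne_zero (by positivity) (by omega)
  have hmf : (3 ^ (n + 1) * f).primeFactors ⊆ (3 * f).primeFactors := by
    rw [Nat.primeFactors_mul (by positivity) (by omega), Nat.primeFactors_pow _ (by omega),
      Nat.primeFactors_mul (by norm_num) (by omega)]
  obtain ⟨-, -, -, hpt⟩ := tm_PT tm_TRA A B hring (3 * f) ι R (by omega) i
  obtain ⟨hz, hzm, hzo, -⟩ := hpt (3 ^ (n + 1) * f) hm0 hmf x
  obtain ⟨u', e', lam', hg'⟩ := hC.good (R.L i) ⟨_, _, R.nl i⟩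
  obtain ⟨hzK, hza, hzq⟩ := hNE1 V (R.L i) u' e' lam' hg' hC.v3 (n + 1) f a (by omega) hf hpa
    hco _ hzm (hzo hx)
  obtain ⟨k1, k2, k3⟩ := hTHN V (R.L R.i0) (R.L i) u e lam u' e' lam' (muXE R i * emb x) N hgood
    hg' hC.v3 hmu hisg hN3 hN a (H i) ha (hH i) _ hzK hza (fun q hq =>
      hzq q ((hH i).mem q hq) (fun hqL => (hH i).ne q hq (by
        rw [two_mul]; exact add_mem hqL hqL)))
  obtain ⟨k, hk⟩ := usq hLEG hUNR hC hT ⟨_, _, R.nl i⟩ hg'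
  obtain ⟨t, ht⟩ := card3 ha hpa (hH i)
  refine ⟨hx3, hisg, hz, hzm, fun h => hzK (Or.inl h), ⟨k * t, ?_⟩, k2, k3⟩
  rw [k1, hk, ht, ← zpow_natCast, ← zpow_mul]
  congr 1
  push_cast
  ring

/-- the product of the functions `G y` -/
lemma asm (hALG : Se_ALG) (hPRO : Se_PRO) {V : ValuationSubring ℂ} {S : Set ℂ} {s r : ℂ → ℂ}
    {a2 a4 : ℂ} (hP : Pts V S s r a2 a4) {J κ : Type} [Fintype J] (X : J → Finset κ) (g : J → ℤ)
    (G : κ → ℂ → ℂ) (l : κ → ℂ) (hG : ∀ j, ∀ y ∈ X j, Rep V S s r (G y) 1 (l y)) :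
    Rep V S s r (fun Y => ∏ j, (∏ y ∈ X j, G y Y) ^ g j) 1 (∑ j, (g j : ℂ) * ∑ y ∈ X j, l y) := by
  obtain ⟨-, -, -, hcg, -⟩ := hALG V S s r a2 a4 hP
  obtain ⟨-, hpr, -⟩ := hPRO V S s r a2 a4 hP
  have v0 : V.valuation (0 : ℂ) ≤ V.valuation (3 : ℂ) := by rw [map_zero]; exact zero_le
  have h1 : ∀ j, Rep V S s r (fun Y => ∏ y ∈ X j, G y Y) 1 (∑ y ∈ X j, l y) := by
    intro j
    have h2 := (hpr (X j) (fun y => G y.1) (fun _ => 1) (fun y => l y.1) (fun _ => 1)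
      (fun y => by rw [one_mul]; exact hG j y.1 y.2) (fun y => map_one _)).2
    refine hcg _ _ _ _ _ _ h2 (fun Y _ => ?_) ?_ ?_
    · simp only [zpow_one]
      exact (Finset.prod_coe_sort (X j) (fun y => G y Y)).symm
    · simp only [one_zpow, Finset.prod_const_one, sub_self]
      exact v0
    · simp only [one_zpow, Finset.prod_const_one, one_mul, Int.cast_one]
      rw [Finset.sum_coe_sort (X j) (fun y => l y), sub_self]
      exact v0
  have h3 := (hpr J (fun j Y => ∏ y ∈ X j, G y Y) (fun _ => 1) (fun j => ∑ y ∈ X j, l y) g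
    (fun j => by rw [one_mul]; exact h1 j) (fun y => map_one _)).2
  refine hcg _ _ _ _ _ _ h3 (fun Y _ => rfl) ?_ ?_
  · simp only [one_zpow, Finset.prod_const_one, sub_self]
    exact v0
  · simp only [one_zpow, Finset.prod_const_one, one_mul, sub_self]
    exact v0

/-- an automorphism applied to the root -/
lemma conj {A B : ℤ} {F : IntermediateField (kk A B) ℂ} (σ : F ≃ₐ[kk A B] F) {J κ : Type}
    [Fintype J] (X : J → Finset κ) (g : J → ℤ) (T T' : κ → ℂ)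
    (hT : ∀ j, ∀ y ∈ X j, ∃ h : T y ∈ F, (σ ⟨T y, h⟩ : ℂ) = T' y) {y0 : ℂ} (hy0 : y0 ∈ F)
    (h : y0 ^ 3 = ∏ j, (∏ y ∈ X j, T y) ^ g j) :
    (σ ⟨y0, hy0⟩ : ℂ) ^ 3 = ∏ j, (∏ y ∈ X j, T' y) ^ g j := by
  have h1 : ∀ y, ∃ th : F, ∀ j, y ∈ X j → (th : ℂ) = T y ∧ (σ th : ℂ) = T' y := by
    intro y
    by_cases hy : ∃ j, y ∈ X j
    · obtain ⟨j, hj⟩ := hy
      obtain ⟨h2, h3⟩ := hT j y hj
      exact ⟨⟨T y, h2⟩, fun _ _ => ⟨rfl, h3⟩⟩
    · exact ⟨1, fun j hj => absurd ⟨j, hj⟩ hy⟩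
  choose θ hθ using h1
  have h2 : (⟨y0, hy0⟩ : F) ^ 3 = ∏ j, (∏ y ∈ X j, θ y) ^ g j := by
    apply F.val.injective
    rw [map_pow, map_prod]
    simp only [map_zpow₀, map_prod]
    change y0 ^ 3 = _
    rw [h]
    refine Finset.prod_congr rfl fun j _ => ?_
    congr 1
    exact Finset.prod_congr rfl fun y hy => ((hθ y j hy).1).symm
  have h3 : (em σ ⟨y0, hy0⟩) ^ 3 = ∏ j, (∏ y ∈ X j, em σ (θ y)) ^ g j := by
    rw [← map_pow, h2, map_prod]
    simp only [map_zpow₀, map_prod]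
  refine h3.trans (Finset.prod_congr rfl fun j _ => ?_)
  congr 1
  exact Finset.prod_congr rfl fun y hy => (hθ y j hy).2

/-- multiplication by a power of `3` -/
lemma conj3 {A B : ℤ} {F : IntermediateField (kk A B) ℂ} (σ : F ≃ₐ[kk A B] F) {y0 w0 : ℂ}
    (K : ℤ) (hy0 : y0 ∈ F) (hw0 : w0 ∈ F) (h : y0 = w0 * 3 ^ K) :
    (σ ⟨y0, hy0⟩ : ℂ) = σ ⟨w0, hw0⟩ * 3 ^ K := by
  have h1 : (⟨y0, hy0⟩ : F) = ⟨w0, hw0⟩ * 3 ^ K := by
    apply F.val.injective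
    rw [map_mul, map_zpow₀, map_ofNat]
    exact h
  have h2 : em σ ⟨y0, hy0⟩ = em σ ⟨w0, hw0⟩ * 3 ^ K := by
    rw [h1, map_mul, map_zpow₀, map_ofNat]
  exact h2

/-- powers of `v(3)³` -/
def Cb (V : ValuationSubring ℂ) (x : ℂ) : Prop :=
  ∃ k : ℤ, V.valuation x = V.valuation (3 : ℂ) ^ (3 * k)

lemma Cb.one (V : ValuationSubring ℂ) : Cb V 1 := ⟨0, by simp⟩

lemma v3_ne (V : ValuationSubring ℂ) : V.valuation (3 : ℂ) ≠ 0 :=
  (Valuation.ne_zero_iff _).2 (by norm_num)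

lemma Cb.mul {V : ValuationSubring ℂ} {x y : ℂ} (hx : Cb V x) (hy : Cb V y) : Cb V (x * y) := by
  obtain ⟨k, hk⟩ := hx
  obtain ⟨l, hl⟩ := hy
  refine ⟨k + l, ?_⟩
  rw [map_mul, hk, hl, ← zpow_add₀ (v3_ne V)]
  congr 1
  ring

lemma Cb.zpow {V : ValuationSubring ℂ} {x : ℂ} (hx : Cb V x) (g : ℤ) : Cb V (x ^ g) := by
  obtain ⟨k, hk⟩ := hx
  refine ⟨k * g, ?_⟩
  rw [map_zpow₀, hk, ← zpow_mul]
  congr 1
  ring

lemma Cb.ne {V : ValuationSubring ℂ} {x : ℂ} (hx : Cb V x) : x ≠ 0 := by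
  rintro rfl
  obtain ⟨k, hk⟩ := hx
  rw [map_zero] at hk
  exact zpow_ne_zero _ (v3_ne V) hk.symm

end ONE

open ONE in
theorem t4_ONE (hALG : Se_ALG) (hPRO : Se_PRO) (hLEG : Se_LEG) (hPTS : Se_PTS) (hTHN : Se_THN)
    (hUNR : S4_UNR) (hSIG : S4_SIG) (hNE1 : Se_NE1) (hMUL : S4_MUL) : S4_ONE := by
  intro A B V hC hT hG n f a hn hf3 hf2 hf ha3 hpa hco ι R u e lam hgood H hH w hw J _ X g hX
    ⟨y0, hy0, hy3⟩
  have ha0 : a ≠ 0 := by omega
  have hv3 := hC.v3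
  have hring := hC.ring
  obtain ⟨φ, hφ⟩ := hring.hom
  have emul : ∀ x y : OO A B, emb (x * y) = emb x * emb y := fun x y => by
    rw [← hφ, map_mul, hφ, hφ]
  have eadd : ∀ x y : OO A B, emb (x + y) = emb x + emb y := fun x y => by
    rw [← hφ, map_add, hφ, hφ]
  have eone : emb (1 : OO A B) = 1 := by rw [← hφ, map_one]
  have enat : ∀ n : ℕ, emb ((n : ℕ) : OO A B) = n := fun n => by rw [← hφ, map_natCast]
  have hP := fun j y hy => point (n := n) hLEG hTHN hUNR hNE1 hMUL hC hT hf3 hf ha0 hpa hco R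
    hgood hH y.1 y.2 (hX j y hy)
  obtain ⟨hPts, hper⟩ := hPTS V (R.L R.i0) u e lam hgood hv3
  -- the product and its root
  have hCW : Cb V (∏ j, (∏ y ∈ X j, ThetaH (R.L y.1) (H y.1)
      (ptE R (3 ^ (n + 1) * f) y.1 y.2)) ^ g j) := by
    refine Finset.prod_induction _ (Cb V) (fun _ _ => Cb.mul) (Cb.one V) fun j _ => Cb.zpow ?_ _
    exact Finset.prod_induction _ (Cb V) (fun _ _ => Cb.mul) (Cb.one V) fun y hy =>
      (hP j y hy).2.2.2.2.2.1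
  obtain ⟨K, hK⟩ := hCW
  rw [← hy3, map_pow, mul_comm, zpow_mul] at hK
  have hK' : V.valuation y0 ^ 3 = (V.valuation (3 : ℂ) ^ K) ^ 3 := by exact_mod_cast hK
  have vy0 : V.valuation y0 = V.valuation (3 : ℂ) ^ K :=
    (pow_left_inj₀ zero_le zero_le (by norm_num)).1 hK'
  obtain ⟨w0, hw0⟩ : ∃ w0 : ℂ, w0 = y0 / 3 ^ K := ⟨_, rfl⟩
  have h3K : (3 : ℂ) ^ K ≠ 0 := zpow_ne_zero _ (by norm_num)
  have hyw : y0 = w0 * 3 ^ K := by rw [hw0, div_mul_cancel₀ _ h3K]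
  have vw0 : V.valuation w0 = 1 := by
    rw [hw0, map_div₀, map_zpow₀, vy0, div_self (zpow_ne_zero _ (v3_ne V))]
  have hw00 : w0 ≠ 0 := by
    intro h
    rw [h, map_zero] at vw0
    exact zero_ne_one vw0
  have hy00 : y0 ≠ 0 := by rw [hyw]; exact mul_ne_zero hw00 h3K
  -- the big field
  have hy0M : y0 ∈ RFE (idl (A := A) (B := B) (3 ^ (n + 1) * f * a)) := by
    refine (tm_FAC tm_TRA A B hring).1 _ _ ?_ hy0
    rw [Ideal.span_singleton_le_span_singleton]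
    exact ⟨(a : OO A B), by push_cast; ring⟩
  have hw0M : w0 ∈ RFE (idl (A := A) (B := B) (3 ^ (n + 1) * f * a)) := by
    rw [hw0]
    exact div_mem hy0M (zpow_mem (ofNat_mem _ 3) K)
  have hNL0 : IsNE (⊤ : Ideal (OO A B)) (R.L R.i0) (R.om R.i0) := by
    have := R.nl R.i0
    rwa [R.b0] at this
  obtain ⟨F, β, vβ, hF, hσF⟩ := hSIG A B V hC hT hG (R.L R.i0) (R.om R.i0) u e lam hNL0 hgood
    n f a hn hf3 hf2 hf ha0 hpa w0 hw0M vw0.le
  have hm0 : ((3 ^ (n + 1) * f : ℕ) : ℂ) ≠ 0 := by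
    exact_mod_cast mul_ne_zero (pow_ne_zero _ (by norm_num : (3 : ℕ) ≠ 0)) (by omega : f ≠ 0)
  have h3n : ∀ mu ex eb : ℂ, ((3 ^ n * f * a : ℕ) : ℂ) * eb *
      (mu * (ex * (R.om R.i0 / (3 ^ (n + 1) * f : ℕ)))) = mu * ex * (eb * (a * R.om R.i0 / 3)) := by
    intro mu ex eb
    have h5 : ((3 ^ (n + 1) * f : ℕ) : ℂ) = 3 * ((3 ^ n * f : ℕ) : ℂ) := by
      push_cast
      ring
    have h6 : ((3 ^ n * f * a : ℕ) : ℂ) = ((3 ^ n * f : ℕ) : ℂ) * a := by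
      push_cast
      ring
    have h7 : ((3 ^ n * f : ℕ) : ℂ) ≠ 0 := by
      intro h
      rw [h5, h, mul_zero] at hm0
      exact hm0 rfl
    rw [h5, h6]
    field_simp
  -- the identity at the points `Y_b`
  have key : ∀ b : OO A B, b ∉ idl (A := A) (B := B) 3 →
      ∏ j, (∏ y ∈ X j, ThetaH (R.L y.1) (H y.1) (ptE R (3 ^ (n + 1) * f) y.1 y.2 +
        muXE R y.1 * emb y.2 * (emb b * (a * R.om R.i0 / 3))) /
        ThetaH (R.L y.1) (H y.1) (ptE R (3 ^ (n + 1) * f) y.1 y.2)) ^ g j =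
      (F (emb b * (a * R.om R.i0 / 3)) * w0⁻¹) ^ 3 := by
    intro b hb
    have hne : idl (A := A) (B := B) (3 ^ (n + 1) * f * a) ≠ ⊥ := by
      intro h
      rw [Ideal.span_singleton_eq_bot] at h
      have h2 := congrArg emb h
      rw [enat, ← hφ 0, map_zero] at h2
      push_cast at h2 hm0
      exact mul_ne_zero hm0 (by exact_mod_cast ha0) h2
    have hcop : IsCoprime (sp (1 + ((3 ^ n * f * a : ℕ) : OO A B) * b))
        (idl (A := A) (B := B) (3 ^ (n + 1) * f * a)) := by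
      rw [Ideal.isCoprime_span_singleton_iff]
      have h1 : IsCoprime (1 + ((3 ^ n * f * a : ℕ) : OO A B) * b)
          ((3 ^ n * f * a : ℕ) : OO A B) := ⟨1, -b, by ring⟩
      have h2 : IsCoprime (1 + ((3 ^ n * f * a : ℕ) : OO A B) * b) ((3 : ℕ) : OO A B) := by
        refine h1.of_isCoprime_of_dvd_right ?_
        obtain ⟨n', rfl⟩ : ∃ n', n = n' + 1 := ⟨n - 1, by omega⟩
        exact ⟨((3 ^ n' * f * a : ℕ) : OO A B), by push_cast; ring⟩
      have h3 : ((3 ^ (n + 1) * f * a : ℕ) : OO A B) =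
          ((3 : ℕ) : OO A B) * ((3 ^ n * f * a : ℕ) : OO A B) := by
        push_cast
        ring
      rw [h3]
      exact h2.mul_right h1
    obtain ⟨f', hf'⟩ := hf2
    have hne2 : idl (A := A) (B := B) (3 ^ (n + 1) * f * a) ≤ idl (A := A) (B := B) 2 := by
      refine Ideal.span_singleton_le_span_singleton.2 ⟨((3 ^ (n + 1) * f' * a : ℕ) : OO A B), ?_⟩
      rw [hf']
      push_cast
      ring
    have hc2 : (1 + ((3 ^ n * f * a : ℕ) : OO A B) * b) - 1 ∈ idl (A := A) (B := B) 2 := by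
      refine Ideal.mem_span_singleton'.2 ⟨((3 ^ n * f' * a : ℕ) : OO A B) * b, ?_⟩
      rw [hf']
      push_cast
      ring
    obtain ⟨σ, hσ⟩ := hG.sur _ hne hne2 _ hcop hc2
    have k1 := conj σ X g
      (fun y => ThetaH (R.L y.1) (H y.1) (ptE R (3 ^ (n + 1) * f) y.1 y.2))
      (fun y => ThetaH (R.L y.1) (H y.1) (ptE R (3 ^ (n + 1) * f) y.1 y.2 +
        muXE R y.1 * emb y.2 * (emb b * (a * R.om R.i0 / 3)))) (fun j y hy => by
          obtain ⟨-, -, hz, hzm, hzL, -⟩ := hP j y hy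
          have hNLi : NLE A B (R.L y.1) := ⟨_, _, R.nl y.1⟩
          have hzT : Tor (idl (A := A) (B := B) (3 ^ (n + 1) * f * a)) (R.L y.1)
              (ptE R (3 ^ (n + 1) * f) y.1 y.2) := by
            refine ((tm_TRA A B hring _ hNLi).2.2.2.2.1 _ _).2 ?_
            rw [enat]
            have h1 := nsmul_mem hzm a
            rw [nsmul_eq_mul] at h1
            have h2 : ((3 ^ (n + 1) * f * a : ℕ) : ℂ) * ptE R (3 ^ (n + 1) * f) y.1 y.2 =
                (a : ℂ) * (((3 ^ (n + 1) * f : ℕ) : ℂ) * ptE R (3 ^ (n + 1) * f) y.1 y.2) := by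
              push_cast
              ring
            rw [h2]
            exact h1
          obtain ⟨hmem, hθ⟩ := tm_GTH tm_TRA A B hring _ hNLi a (H y.1) (hH y.1)
            (idl (A := A) (B := B) (3 ^ (n + 1) * f * a)) (by
              rw [Ideal.span_singleton_le_span_singleton]
              exact ⟨((3 ^ (n + 1) * f : ℕ) : OO A B), by push_cast; ring⟩) σ _ hσ (by
              rw [add_sub_cancel_left, Ideal.mem_span_singleton]
              exact ⟨((3 ^ n * f : ℕ) : OO A B) * b, by push_cast; ring⟩) _ hzT hzL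
          refine ⟨hmem, hθ.trans ?_⟩
          congr 1
          rw [eadd, eone, emul, enat, add_mul, one_mul]
          congr 1
          rw [hz]
          exact h3n _ _ _) hy0M hy3
    have k2 := conj3 σ K hy0M hw0M hyw
    rw [hσF b hb σ hσ hw0M] at k2
    simp only [Finset.prod_div_distrib, div_zpow]
    rw [← k1, ← hy3, k2, hyw]
    field_simp
  -- the identity on `E3`
  have hom0 : R.om R.i0 ≠ 0 := hNL0.om_ne
  have key2 : ∀ Y ∈ E3 (R.L R.i0),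
      ∏ j, (∏ y ∈ X j, ThetaH (R.L y.1) (H y.1) (ptE R (3 ^ (n + 1) * f) y.1 y.2 +
        muXE R y.1 * emb y.2 * Y) /
        ThetaH (R.L y.1) (H y.1) (ptE R (3 ^ (n + 1) * f) y.1 y.2)) ^ g j =
      (F Y * w0⁻¹) ^ 3 := by
    rintro Y ⟨hY3, hYL⟩
    obtain ⟨b', -, hb'⟩ := (hNL0.mem _).1 hY3
    obtain ⟨a', t, hat⟩ : ∃ a' t : ℤ, (a : ℤ) * a' = 1 + 3 * t := by
      have h4 : a % 3 = 1 ∨ a % 3 = 2 := by omega
      rcases h4 with h4 | h4
      · exact ⟨1, (a : ℤ) / 3, by omega⟩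
      · exact ⟨2, (2 * (a : ℤ) - 1) / 3, by omega⟩
    obtain ⟨b, hbd⟩ : ∃ b : OO A B, b = (a' : OO A B) * b' := ⟨_, rfl⟩
    have eint : ∀ n : ℤ, emb ((n : ℤ) : OO A B) = n := fun n => by rw [← hφ, map_intCast]
    have hYb : emb b * (a * R.om R.i0 / 3) = Y + R.om R.i0 * emb ((t : OO A B) * b') := by
      have h1 : (a : ℂ) * a' = 1 + 3 * t := by exact_mod_cast hat
      rw [hbd, emul, emul, eint, eint]
      linear_combination (emb b' * R.om R.i0 / 3) * h1 - (1 / 3) * hb'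
    have hl : R.om R.i0 * emb ((t : OO A B) * b') ∈ (R.L R.i0).lattice :=
      (hNL0.mem _).2 ⟨_, trivial, rfl⟩
    have hb3 : b ∉ idl (A := A) (B := B) 3 := by
      intro h
      obtain ⟨b'', hb''⟩ := Ideal.mem_span_singleton.1 h
      apply hYL
      have h1 : Y = R.om R.i0 * emb ((a : OO A B) * b'' - (t : OO A B) * b') := by
        have esub : ∀ x y : OO A B, emb (x - y) = emb x - emb y := fun x y => by
          rw [← hφ, map_sub, hφ, hφ]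
        rw [hb'', emul, enat] at hYb
        rw [esub, emul, enat]
        push_cast at hYb
        linear_combination -hYb
      rw [h1]
      exact (hNL0.mem _).2 ⟨_, trivial, rfl⟩
    have h2 := key b hb3
    rw [hYb] at h2
    obtain ⟨-, hs, hr⟩ := hper Y ⟨hY3, hYL⟩ _ hl
    have hFY : F (Y + R.om R.i0 * emb ((t : OO A B) * b')) = F Y := by
      obtain ⟨P, Q, -, -, hPQ, -⟩ := hF
      rw [hPQ _ (hper Y ⟨hY3, hYL⟩ _ hl).1, hPQ _ ⟨hY3, hYL⟩, hs, hr]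
    rw [hFY] at h2
    rw [← h2]
    refine Finset.prod_congr rfl fun j _ => ?_
    congr 1
    refine Finset.prod_congr rfl fun y hy => ?_
    congr 1
    have h3 : ptE R (3 ^ (n + 1) * f) y.1 y.2 +
        muXE R y.1 * emb y.2 * (Y + R.om R.i0 * emb ((t : OO A B) * b')) =
        (ptE R (3 ^ (n + 1) * f) y.1 y.2 + muXE R y.1 * emb y.2 * Y) +
        muXE R y.1 * emb y.2 * (R.om R.i0 * emb ((t : OO A B) * b')) := by ring
    rw [h3, theta_per _ _ _ _ ((hP j y hy).2.1 _ hl)]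
  -- the comparison
  have hS := asm hALG hPRO hPts X g
    (fun y Y => ThetaH (R.L y.1) (H y.1) (ptE R (3 ^ (n + 1) * f) y.1 y.2 +
      muXE R y.1 * emb y.2 * Y) / ThetaH (R.L y.1) (H y.1) (ptE R (3 ^ (n + 1) * f) y.1 y.2))
    (fun y => muXE R y.1 * emb y.2 * dlX (R.L y.1) a (ptE R (3 ^ (n + 1) * f) y.1 y.2) / u)
    (fun j y hy => (hP j y hy).2.2.2.2.2.2.2)
  obtain ⟨hcst, -, -, -, -, hmul, -⟩ := hALG _ _ _ _ _ _ hPts
  have hG' : Rep V (E3 (R.L R.i0)) (su (R.L R.i0) u e) (ru (R.L R.i0) u e)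
      (fun Y => F Y * w0⁻¹) (w0 * w0⁻¹) (w0 * 0 + w0⁻¹ * β) :=
    hmul _ _ _ _ _ _ hF (hcst w0⁻¹ (by rw [map_inv₀, vw0, inv_one]))
  have hS' := (hPRO _ _ _ _ _ _ hPts).2.2 _ _ _ _ _ _ hG' key2 hS
  -- replace `emb x` by `w x`
  have hdiff : (∑ j, (g j : ℂ) * ∑ y ∈ X j, w y.2 * muXE R y.1 *
      dlX (R.L y.1) a (ptE R (3 ^ (n + 1) * f) y.1 y.2)) / u =
      (∑ j, (g j : ℂ) * ∑ y ∈ X j, muXE R y.1 * emb y.2 *
        dlX (R.L y.1) a (ptE R (3 ^ (n + 1) * f) y.1 y.2) / u) +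
      ∑ j, (g j : ℂ) * ∑ y ∈ X j, (w y.2 - emb y.2) * (muXE R y.1 *
        dlX (R.L y.1) a (ptE R (3 ^ (n + 1) * f) y.1 y.2) / u) := by
    rw [← Finset.sum_add_distrib, Finset.sum_div]
    refine Finset.sum_congr rfl fun j _ => ?_
    rw [← mul_add, ← Finset.sum_add_distrib, mul_div_assoc, Finset.sum_div]
    congr 1
    refine Finset.sum_congr rfl fun y _ => ?_
    ring
  rw [hdiff]
  refine (V.valuation.map_add _ _).trans (max_le hS' ?_)
  refine V.valuation.map_sum_le fun j _ => ?_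
  rw [map_mul]
  have vg : V.valuation ((g j : ℤ) : ℂ) ≤ 1 := (V.valuation_le_one_iff _).2 (intCast_mem V (g j))
  refine (mul_le_mul' vg (V.valuation.map_sum_le (g := V.valuation (3 : ℂ)) fun y hy => ?_)).trans
    (one_mul _).le
  rw [map_mul]
  have h1 : V.valuation (muXE R y.1 * dlX (R.L y.1) a (ptE R (3 ^ (n + 1) * f) y.1 y.2) / u) ≤ 1 := by
    have h2 := (hP j y hy).2.2.2.2.2.2.1
    have h3 : muXE R y.1 * emb y.2 * dlX (R.L y.1) a (ptE R (3 ^ (n + 1) * f) y.1 y.2) / u =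
        emb y.2 * (muXE R y.1 * dlX (R.L y.1) a (ptE R (3 ^ (n + 1) * f) y.1 y.2) / u) := by ring
    rwa [h3, map_mul, hC.unit _ (hP j y hy).1, one_mul] at h2
  exact (mul_le_mul' (hw.cong y.2) h1).trans (mul_one _).le

end

end Pool.Agent.ME4
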