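import Pool.Agent.ME.StE4
import Pool.Agent.ME.X_TRA
import Pool.Agent.ME.X_TRB
import Pool.Agent.ME.X_FAC
import Pool.Agent.ME.X_GTH
import Pool.Agent.ME.X_PT
import Pool.Agent.ME.X_GAL
import Pool.Agent.MUX.Q_YUN

/-!
# MUX-NS, block EN, module SIG: `Y ↦ σ_Y(w)` for `w` in the ray class field
-/

set_option autoImplicit false

open Polynomial

namespace Pool.Agent.ME4

open _root_.MU3 Pool.Agent.MU3A Pool.Agent.MU3B Pool.Agent.MUX Pool.Agent.MUXU Pool.Agent.MUXE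
open Pool.Agent.RI Pool.Agent.NS
open Pool.Agent.ME hiding ActE
open Pool.Agent.MEE
open Pool.Agent.NSE (E3 su ru WL IntP Pts Rep Se_ALG Se_PRO Se_PUL Se_COE Se_GRN Se_LEG Se_TW3 Se_PTS Se_TPN Se_UNT Se_RAT Se_ISO Se_ADD Se_THN Se_BAS Se_NE1)
open Pool.Agent.MUXV (GR InK tX)

noncomputable section

namespace SIG

variable {A B : ℤ}

/-- rational multiples of `om` in the lattice `om O` -/
theorem rat_mem (hR : RingE A B) {L : PeriodPair} {om : ℂ} (hL : IsNE (⊤ : Ideal (OO A B)) L om)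
    (a : ℤ) {b : ℕ} (hb : b ≠ 0) : (a : ℂ) / b * om ∈ L.lattice ↔ (b : ℤ) ∣ a := by
  obtain ⟨φ, hφ⟩ := hR.hom
  have hb0 : (b : ℂ) ≠ 0 := by exact_mod_cast hb
  rw [hL.mem]
  constructor
  · rintro ⟨x, -, hx⟩
    have h1 : (a : ℂ) = b * emb x := by
      have h2 : (a : ℂ) / b = emb x := by
        apply mul_right_cancel₀ hL.om_ne
        rw [hx, mul_comm]
      rw [← h2]
      field_simp
    have h3 : emb ((b : OO A B) * x - (a : OO A B)) = 0 := by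
      rw [← hφ, map_sub, map_mul, map_natCast, map_intCast, hφ, h1, sub_self]
    have h4 := hR.inj0 _ h3
    have h5 := congrArg QuadraticAlgebra.re h4
    have re_nat : ∀ n : ℕ, ((n : ℕ) : OO A B).re = n := fun n => rfl
    have im_nat : ∀ n : ℕ, ((n : ℕ) : OO A B).im = 0 := fun n => rfl
    have re_int : ∀ n : ℤ, ((n : ℤ) : OO A B).re = n := fun n => rfl
    rw [QuadraticAlgebra.re_sub, QuadraticAlgebra.re_mul, re_nat, im_nat, re_int] at h5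
    refine ⟨x.re, ?_⟩
    have h6 : (b : ℤ) * x.re + A * 0 * x.im - a = 0 := h5
    linarith
  · rintro ⟨c, rfl⟩
    refine ⟨(c : OO A B), Submodule.mem_top, ?_⟩
    rw [← hφ, map_intCast]
    push_cast
    field_simp

/-- polynomials over `V` -/
theorem intP_iff {V : ValuationSubring ℂ} {P : ℂ[X]} :
    IntP V P ↔ P ∈ Polynomial.liftsRing (algebraMap V ℂ) := by
  rw [← Polynomial.lifts_iff_liftsRing, Polynomial.lifts_iff_coeff_lifts]
  refine forall_congr' fun i => ?_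
  rw [ValuationSubring.valuation_le_one_iff]
  constructor
  · intro h
    exact ⟨⟨_, h⟩, rfl⟩
  · rintro ⟨c, hc⟩
    rw [← hc]
    exact c.2

theorem intP_sum {V : ValuationSubring ℂ} {N : ℕ} (a : Fin N → ℂ) (c : ℂ)
    (ha : ∀ i, V.valuation (a i) ≤ 1) (hc : V.valuation c ≤ 1) :
    IntP V (∑ i, C (a i) * (X - C c) ^ (i : ℕ)) := by
  have hC : ∀ b : ℂ, V.valuation b ≤ 1 → C b ∈ Polynomial.liftsRing (algebraMap V ℂ) := by
    intro b hb
    rw [← intP_iff]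
    intro i
    rw [coeff_C]
    split_ifs
    · exact hb
    · rw [map_zero]; exact zero_le
  rw [intP_iff]
  refine sum_mem fun i _ => mul_mem (hC _ (ha i)) (pow_mem (sub_mem ?_ (hC _ hc)) _)
  rw [← intP_iff]
  intro i
  rw [coeff_X]
  split_ifs
  · rw [map_one]
  · rw [map_zero]; exact zero_le

end SIG

open SIG in
theorem t4_SIG (h1 : Se_ALG) (h2 : Se_PRO) (h3 : Se_GRN) (h4 : Se_LEG) (h5 : Se_PTS)
    (h6 : Se_TPN) (h7 : Se_ADD) (h8 : S4_UNR) (h9 : S4_DEG) (h10 : Se_BAS) : S4_SIG := by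
  intro A B V hC hT hG L om u e lam hL hgood n f a hn hf h2f h3f ha h3a w hw hvw
  have h2fa : 2 ∣ f * a := h2f.mul_right a
  have hR := hC.ring
  obtain ⟨φ, hφ⟩ := hR.hom
  have hmul : ∀ x y : OO A B, emb (x * y) = emb x * emb y := fun x y => by
    rw [← hφ, map_mul, hφ, hφ]
  have hadd : ∀ x y : OO A B, emb (x + y) = emb x + emb y := fun x y => by
    rw [← hφ, map_add, hφ, hφ]
  have hone : emb (1 : OO A B) = 1 := by rw [← hφ, map_one]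
  have hnat : ∀ k : ℕ, emb ((k : ℕ) : OO A B) = k := fun k => by rw [← hφ, map_natCast]
  have hLn : NLE A B L := ⟨⊤, om, hL⟩
  have hom0 := hL.om_ne
  have hv3 := hC.v3
  have hf0 : f ≠ 0 := by omega
  have hfa0 : f * a ≠ 0 := Nat.mul_ne_zero hf0 ha
  have h3fa : ¬ 3 ∣ f * a := fun h => by
    rcases (Nat.Prime.dvd_mul (by norm_num)).1 h with h | h
    · exact h3f h
    · exact h3a h
  have hm0' : 3 ^ (n + 1) * f * a ≠ 0 := by positivity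
  have hne : ∀ k : ℕ, k ≠ 0 → idl (A := A) (B := B) k ≠ ⊥ := by
    intro k hk h
    rw [Ideal.span_singleton_eq_bot] at h
    apply hk
    have h' := hnat k
    rw [h, ← hφ, map_zero] at h'
    exact_mod_cast h'.symm
  -- the fields
  have hmm : idl (A := A) (B := B) (3 ^ (n + 1) * f * a) ≤ idl (f * a) := by
    rw [Ideal.span_singleton_le_span_singleton]
    refine ⟨((3 ^ (n + 1) : ℕ) : OO A B), ?_⟩
    push_cast; ring
  obtain ⟨c1, c2, c3, c4, c5⟩ := Pool.Agent.MEE.tm_FAC Pool.Agent.MEE.tm_TRA A B hR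
  have hle := c1 _ _ hmm
  obtain ⟨ξ, G⟩ := h3 V L u e lam hgood hv3
  obtain ⟨hP, -⟩ := h5 V L u e lam hgood hv3
  obtain ⟨t1, t2⟩ := h6 V L u e lam hgood hv3
  obtain ⟨w₁, w₂, hw₁, hw₁L, hw₂, hw₂L, he, hu2, hxw⟩ := h4 V L u e lam hgood hv3
  -- torsion points
  have hTor : ∀ (k : ℕ) (z : ℂ), (k : ℂ) * z ∈ L.lattice → Tor (idl (A := A) (B := B) k) L z := by
    intro k z hz x hx
    obtain ⟨y, rfl⟩ := Ideal.mem_span_singleton'.1 hx
    rw [hmul, hnat, mul_assoc]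
    obtain ⟨c, -, hc⟩ := (hL.mem _).1 hz
    exact (hL.mem _).2 ⟨y * c, Submodule.mem_top, by rw [hc, hmul]; ring⟩
  have hint : ∀ (k : ℤ) (z : ℂ), z ∈ L.lattice → (k : ℂ) * z ∈ L.lattice := by
    intro k z hz
    simpa [zsmul_eq_mul] using L.lattice.smul_mem k hz
  obtain ⟨f', hf'⟩ := h2f
  have htwo : ∀ z : ℂ, 2 * z ∈ L.lattice → Tor (idl (A := A) (B := B) (f * a)) L z := by
    intro z hz
    apply hTor
    have h11 := hint ((f' * a : ℕ) : ℤ) _ hz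
    have h12 : ((f * a : ℕ) : ℂ) * z = (((f' * a : ℕ) : ℤ) : ℂ) * (2 * z) := by
      rw [hf']; push_cast; ring
    rw [h12]; exact h11
  have hx1 : xnE L w₁ ∈ RFE (idl (A := A) (B := B) (f * a)) := (c2 _ L hLn).2 _ (htwo _ hw₁) hw₁L
  have hx2 : xnE L w₂ ∈ RFE (idl (A := A) (B := B) (f * a)) := (c2 _ L hLn).2 _ (htwo _ hw₂) hw₂L
  have heM : e ∈ RFE (idl (A := A) (B := B) (f * a)) := by
    have h11 : e = xnE L w₁ + ((0 : ℚ) : ℂ) := by rw [← he]; unfold xnE; push_cast; ring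
    rw [h11]
    refine add_mem hx1 ?_
    exact SubfieldClass.ratCast_mem _ _
  have huM : u ^ 2 ∈ RFE (idl (A := A) (B := B) (f * a)) := by
    have h11 : u ^ 2 = xnE L w₂ - xnE L w₁ := by rw [← hu2]; unfold xnE; ring
    rw [h11]
    exact sub_mem hx2 hx1
  -- the points
  have hcop : IsCoprime ((3 ^ (n + 1) : ℕ) : ℤ) (f : ℤ) := by
    rw [Nat.isCoprime_iff_coprime]
    exact Nat.Coprime.pow_left _ ((Nat.Prime.coprime_iff_not_dvd (by norm_num)).2 h3f)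
  obtain ⟨α, β, hαβ⟩ := hcop
  push_cast at hαβ
  obtain ⟨P₀, hP₀⟩ : ∃ z, z = (α : ℂ) / (f : ℕ) * om := ⟨_, rfl⟩
  obtain ⟨P₁, hP₁⟩ : ∃ z, z = (β : ℂ) / ((3 ^ (n + 1) : ℕ) : ℂ) * om := ⟨_, rfl⟩
  obtain ⟨Pt, hPt⟩ : ∃ z, z = om / ((3 ^ (n + 1) * f : ℕ) : ℂ) := ⟨_, rfl⟩
  have hfc : (f : ℂ) ≠ 0 := by exact_mod_cast hf0
  have h3c : (3 : ℂ) ^ (n + 1) ≠ 0 := pow_ne_zero _ (by norm_num)
  have hsum : P₀ + P₁ = Pt := by
    have h11 : (α : ℂ) * 3 ^ (n + 1) + β * f = 1 := by exact_mod_cast hαβ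
    rw [hP₀, hP₁, hPt]
    push_cast
    field_simp
    linear_combination h11
  have hfP₀ : (f : ℂ) * P₀ ∈ L.lattice := by
    have h11 : (f : ℂ) * P₀ = (((f : ℤ) * α : ℤ) : ℂ) / ((f : ℕ) : ℂ) * om := by
      rw [hP₀]; push_cast; ring
    rw [h11, rat_mem hR hL _ hf0]
    exact dvd_mul_right _ _
  have h2P₀ : 2 * P₀ ∉ L.lattice := by
    have h11 : 2 * P₀ = ((2 * α : ℤ) : ℂ) / ((f : ℕ) : ℂ) * om := by
      rw [hP₀]; push_cast; ring
    rw [h11, rat_mem hR hL _ hf0]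
    intro h12
    have h13 : IsCoprime (f : ℤ) α := ⟨β, 3 ^ (n + 1), by linear_combination hαβ⟩
    have h14 := h13.dvd_of_dvd_mul_right h12
    have h15 := Int.le_of_dvd (by norm_num) h14
    omega
  have hP₀L : P₀ ∉ L.lattice := fun h => h2P₀ (by rw [two_mul]; exact add_mem h h)
  have hP₀E : ¬ InK V L (xu L u e) P₀ := fun h => hP₀L ((t1 f h3f).2 P₀ hfP₀ h)
  have h2P₀E : ¬ InK V L (xu L u e) (2 * P₀) := fun h => h2P₀ ((t1 f h3f).2 _ (by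
    have h11 : (f : ℂ) * (2 * P₀) = f * P₀ + f * P₀ := by ring
    rw [h11]; exact add_mem hfP₀ hfP₀) h)
  have h3P₁ : (3 : ℂ) ^ (n + 1) * P₁ ∈ L.lattice := by
    have h11 : (3 : ℂ) ^ (n + 1) * P₁ =
        ((((3 ^ (n + 1) : ℕ) : ℤ) * β : ℤ) : ℂ) / ((3 ^ (n + 1) : ℕ) : ℂ) * om := by
      rw [hP₁]; push_cast; ring
    rw [h11, rat_mem hR hL _ (by positivity)]
    exact dvd_mul_right _ _
  have h3P₁' : (3 : ℂ) ^ n * P₁ ∉ L.lattice := by
    have h11 : (3 : ℂ) ^ n * P₁ = (β : ℂ) / ((3 : ℕ) : ℂ) * om := by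
      rw [hP₁]; push_cast; field_simp; ring
    rw [h11, rat_mem hR hL _ (by norm_num)]
    intro h12
    have h13 : (3 : ℤ) ∣ 1 := by
      rw [← hαβ]
      refine dvd_add (Dvd.dvd.mul_left (dvd_pow_self 3 (Nat.succ_ne_zero n)) _)
        (Dvd.dvd.mul_right ?_ _)
      exact_mod_cast h12
    omega
  obtain ⟨hP₁E, hxP₁, hP₁v⟩ := t2 n P₁ h3P₁ h3P₁'
  have hP₁L : P₁ ∉ L.lattice := fun h => h3P₁' (by
    have := hint (3 ^ n) _ h
    push_cast at this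
    exact this)
  obtain ⟨hPE, -⟩ := Pool.Agent.MUXV.near G hP₀E hP₁E hP₁L
  rw [hsum] at hPE
  have hPL : Pt ∉ L.lattice := fun h => hPE (Or.inl h)
  -- the uniformiser
  obtain ⟨π, hπ⟩ : ∃ z, z = xu L u e Pt - xu L u e P₀ := ⟨_, rfl⟩
  have hvπ : V.valuation π ^ (8 * 9 ^ n) = V.valuation (3 : ℂ) := by
    have h11 := (Pool.Agent.MUXV.tq_YUN V (WL lam) L (xu L u e) (yu L u) ξ G P₀ hP₀E h2P₀E).2 P₁
      hP₁E hP₁L
    rw [hsum, ← hπ] at h11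
    obtain ⟨-, h12, h13⟩ := Pool.Agent.MUXV.v_tX_lt G hP₁E hP₁L
    have h14 : V.valuation (su L u e P₁) = V.valuation (tX (xu L u e) (yu L u) P₁) ^ 2 := by
      unfold su
      rw [map_inv₀]
      exact inv_eq_of_mul_eq_one_right h13
    rw [h14, ← pow_mul] at hP₁v
    rw [h11, ← hP₁v]
    congr 1
    ring
  have hPM : xnE L Pt ∈ RFE (idl (A := A) (B := B) (3 ^ (n + 1) * f * a)) := by
    refine (c2 _ L hLn).2 _ (hTor _ _ ?_) hPL
    have h11 : ((3 ^ (n + 1) * f * a : ℕ) : ℂ) * Pt = ((a : ℤ) : ℂ) / ((1 : ℕ) : ℂ) * om := by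
      rw [hPt]; push_cast; field_simp
    rw [h11, rat_mem hR hL _ one_ne_zero]
    exact ⟨a, by simp⟩
  have hP₀M : xnE L P₀ ∈ RFE (idl (A := A) (B := B) (f * a)) := by
    refine (c2 _ L hLn).2 _ (hTor _ _ ?_) hP₀L
    have h11 : ((f * a : ℕ) : ℂ) * P₀ = ((a : ℤ) : ℂ) * (f * P₀) := by push_cast; ring
    rw [h11]
    exact hint _ _ hfP₀
  have hxx : ∀ z : ℂ, xu L u e z = (xnE L z + ((0 : ℚ) : ℂ) - e) / u ^ 2 := by
    intro z; unfold xu xnE; push_cast; ring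
  have hx0M : xu L u e P₀ ∈ RFE (idl (A := A) (B := B) (f * a)) := by
    rw [hxx]
    exact div_mem (sub_mem (add_mem hP₀M (SubfieldClass.ratCast_mem _ _)) heM) huM
  have hxPM : xu L u e Pt ∈ RFE (idl (A := A) (B := B) (3 ^ (n + 1) * f * a)) := by
    rw [hxx]
    exact div_mem (sub_mem (add_mem hPM (SubfieldClass.ratCast_mem _ _)) (hle heM)) (hle huM)
  have hπM : π ∈ RFE (idl (A := A) (B := B) (3 ^ (n + 1) * f * a)) := by
    rw [hπ]; exact sub_mem hxPM (hle hx0M)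
  have := hG.fin _ (hne _ hfa0)
  have := hG.fin _ (hne _ hm0')
  have hdeg := h9 A B V hC hG n (f * a) hfa0 h2fa h3fa
  rw [← mul_assoc] at hdeg
  obtain ⟨c, hc1, hc2⟩ := h10 (kk A B) ℂ V.ValueGroup V.valuation
    (RFE (idl (A := A) (B := B) (f * a))) (RFE (idl (A := A) (B := B) (3 ^ (n + 1) * f * a)))
    (8 * 9 ^ n) 3 π hle (by positivity) hdeg (by norm_num) hv3
    (h8 A B V hC hT (f * a) hfa0 h2fa h3fa) hπM hvπ w hw hvw
  -- the function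
  have hvx0 : V.valuation (xu L u e P₀) ≤ 1 := (Pool.Agent.MUXV.int_X hP₀E).2
  obtain ⟨Pol, hPol⟩ : ∃ Q : ℂ[X], Q = ∑ i : Fin (8 * 9 ^ n),
    C ((c i : ℂ)) * (X - C (xu L u e P₀)) ^ (i : ℕ) := ⟨_, rfl⟩
  have hPolI : IntP V Pol := by
    rw [hPol]; exact intP_sum _ _ hc1 hvx0
  have hPolE : ∀ t : ℂ, Pol.eval t =
      ∑ i : Fin (8 * 9 ^ n), (c i : ℂ) * (t - xu L u e P₀) ^ (i : ℕ) := by
    intro t
    rw [hPol, eval_finsetSum]
    refine Finset.sum_congr rfl fun i _ => ?_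
    simp
  have hPolw : Pol.eval (xu L u e Pt) = w := by rw [hPolE, ← hπ, ← hc2]
  have hRep := (h2 V (E3 L) (su L u e) (ru L u e) _ _ hP).1 _ _ _ Pol
    (h7 V L u e lam hgood hv3 Pt hPE) hPolI
  have hβ := ((h1 V (E3 L) (su L u e) (ru L u e) _ _ hP).2.2.2.2.2.2.2.1 _ _ _ hRep).2.1
  rw [hPolw] at hRep
  refine ⟨_, _, hβ, hRep, ?_⟩
  intro y _ σ hσ hw'
  have hc4 : ∀ (t : ℂ) (ht : t ∈ RFE (idl (A := A) (B := B) (3 ^ (n + 1) * f * a))),
      t ∈ RFE (idl (A := A) (B := B) (f * a)) → (σ ⟨t, ht⟩ : ℂ) = t := by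
    intro t ht ht'
    refine c4 _ _ hmm (em σ) _ hσ ?_ t ht ht'
    rw [Ideal.mem_span_singleton']
    refine ⟨((3 ^ n : ℕ) : OO A B) * y, ?_⟩
    push_cast; ring
  have hemb3 : emb (1 + ((3 ^ n * f * a : ℕ) : OO A B) * y) * Pt = Pt + emb y * (a * om / 3) := by
    rw [hadd, hone, hmul, hnat, hPt]
    push_cast
    field_simp
    ring
  have hTorPt : Tor (idl (A := A) (B := B) (3 ^ (n + 1) * f * a)) L Pt := by
    refine hTor _ _ ?_
    have h11 : ((3 ^ (n + 1) * f * a : ℕ) : ℂ) * Pt = ((a : ℤ) : ℂ) / ((1 : ℕ) : ℂ) * om := by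
      rw [hPt]; push_cast; field_simp
    rw [h11, rat_mem hR hL _ one_ne_zero]
    exact ⟨a, by simp⟩
  have hσx : (σ ⟨xnE L Pt, hPM⟩ : ℂ) = xnE L (Pt + emb y * (a * om / 3)) := by
    rw [← hemb3]
    exact ((hσ.2 L hLn).2 Pt hTorPt hPL).2 hPM
  have hrat : ∀ q : ℚ, ((q : RFE (idl (A := A) (B := B) (3 ^ (n + 1) * f * a))) : ℂ) = (q : ℂ) := by
    intro q; rfl
  have hσπ : (σ ⟨π, hπM⟩ : ℂ) = xu L u e (Pt + emb y * (a * om / 3)) - xu L u e P₀ := by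
    have h11 : (⟨π, hπM⟩ : RFE (idl (A := A) (B := B) (3 ^ (n + 1) * f * a))) =
        (⟨xnE L Pt, hPM⟩ + (((0 : ℚ)) : RFE (idl (A := A) (B := B) (3 ^ (n + 1) * f * a))) -
          ⟨e, hle heM⟩) / ⟨u ^ 2, hle huM⟩ - ⟨xu L u e P₀, hle hx0M⟩ := by
      apply Subtype.ext
      show π = _
      rw [hπ, hxx Pt]
      rfl
    rw [h11, map_sub, map_div₀, map_sub, map_add, map_ratCast]
    show ((σ ⟨xnE L Pt, hPM⟩ : ℂ) + ((0 : ℚ) : ℂ) - (σ ⟨e, hle heM⟩ : ℂ)) /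
      (σ ⟨u ^ 2, hle huM⟩ : ℂ) - (σ ⟨xu L u e P₀, hle hx0M⟩ : ℂ) = _
    rw [hσx, hc4 _ _ heM, hc4 _ _ huM, hc4 _ _ hx0M, ← hxx]
  have hww : (⟨w, hw'⟩ : RFE (idl (A := A) (B := B) (3 ^ (n + 1) * f * a))) =
      ∑ i : Fin (8 * 9 ^ n), ⟨(c i : ℂ), hle (c i).2⟩ * ⟨π, hπM⟩ ^ (i : ℕ) := by
    apply Subtype.ext
    rw [IntermediateField.coe_sum]
    show w = _
    rw [hc2]
    rfl
  rw [hww, map_sum]
  show _ = Pol.eval (xu L u e (Pt + emb y * (a * om / 3)))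
  rw [hPolE, IntermediateField.coe_sum]
  refine Finset.sum_congr rfl fun i _ => ?_
  rw [map_mul, map_pow]
  show (σ ⟨(c i : ℂ), hle (c i).2⟩ : ℂ) * (σ ⟨π, hπM⟩ : ℂ) ^ (i : ℕ) = _
  rw [hc4 _ _ (c i).2, hσπ]

end

end Pool.Agent.ME4
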