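import Pool.Agent.NS.EAll
import Pool.Agent.ME.E4_CTX
import Pool.Agent.ME.E4_RAM
import Pool.Agent.ME.E4_UNR
import Pool.Agent.ME.E4_DEG
import Pool.Agent.ME.E4_SIG
import Pool.Agent.ME.E4_MUL
import Pool.Agent.ME.E4_ONE
import Pool.Agent.ME.E4_MAIN
import Pool.Agent.ME.E4_FIN

/-! # ME, block E for `D = -4`, assembled (helper86): `efin4 : S4_RFIN → S4_EFIN` -/

namespace Pool.Agent.ME4

open Pool.Agent.NSE

theorem e4_CTX : S4_CTX := t4_CTX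
theorem e4_UNR : S4_UNR := t4_UNR t4_RAM
theorem e4_DEG : S4_DEG := t4_DEG
theorem e4_SIG : S4_SIG := t4_SIG e_ALG e_PRO e_GRN e_LEG e_PTS e_TPN e_ADD e4_UNR e4_DEG e_BAS
theorem e4_MUL : S4_MUL := t4_MUL
theorem e4_ONE : S4_ONE := t4_ONE e_ALG e_PRO e_LEG e_PTS e_THN e4_UNR e4_SIG e_NE1 e4_MUL
theorem e4_MAIN : S4_MAIN := t4_MAIN e4_ONE e4_CTX
theorem efin4 : S4_RFIN → S4_EFIN := t4_FIN e4_MAIN

end Pool.Agent.ME4
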