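import Pool.Agent.ME.DefsE2
import Pool.Agent.MUX.StHR

/-!
# ME, blocks G/H for `p = 3` (helper58): Theorem G in the form used by block H

`Sn_GPT_E` (`D = -4`) is the twin of `NSG.Sn_GPT` (`NS/G_Gpt.lean`), `Sq_GPT_E` (`D = -3`) the twin of `NSGR.Sv_GPR` (`NS/StGR.lean`), with the symbol divided by `3`.
-/

set_option autoImplicit false

namespace Pool.Agent.MEH

open _root_.MU3 Pool.Agent.MU3A Pool.Agent.MU3B Pool.Agent.RI Pool.Agent.MUX Pool.Agent.NS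
  Pool.Agent.NSRD Pool.Agent.ME Pool.Agent.MuSym OnePoint

noncomputable section

/-- (GPT, `D = -4`) Theorem G for `PT (PhiKE R e kk/(u om_(i0)))` -/
def Sn_GPT_E : Prop :=
  ∀ (A B : ℤ) (V : ValuationSubring ℂ) (f : ℕ), SetE4 A B V f → TorXE A B →
    ∀ (ι : Type) [Fintype ι] (R : RepsE A B (3 * f) ι) (u el lam : ℂ),
    GoodN V (R.L R.i0) u el lam → ∀ e : OO A B → ℂ, IsEIE (idl (A := A) (B := B) (3 * f)) e →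
    ∀ r : ℕ, r ≠ 0 → (∀ x, e x ≠ 0 → e x ^ r = 1) → ∀ kk : ι → ℂ, V.valuation (kk R.i0) = 1 →
    ∀ N' : ℕ, N' ≠ 0 → absD A B * ((3 * f : ℕ) : ℤ) ^ 2 ∣ (N' : ℤ) →
    ∃ a b c d : ℤ, a * d - b * c = 1 ∧ (N' : ℤ) ∣ c ∧ (N' : ℤ) ∣ d - 1 ∧
      V.valuation (3 : ℂ) ≤ V.valuation (MUXHN.PT (fun x y => PhiKE R e kk x y / (u * R.om R.i0)) ∞
        (mob a b c d ∞)) ^ 18

/-- (GPT, `D = -3`) Theorem G+ for `PT (PhiKE R e kk/(3 u om_(i0)))` -/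
def Sq_GPT_E : Prop :=
  ∀ (A B : ℤ) (P : Ideal (OO A B)) (V : ValuationSubring ℂ) (f : ℕ), SetE3 A B P V f →
    TorXE A B → ∀ (ι : Type) [Fintype ι] (R : RepsE A B (3 * f) ι) (u el lam : ℂ),
    GoodR V (R.L R.i0) u el lam → ∀ e : OO A B → ℂ, IsEIE (idl (A := A) (B := B) (3 * f)) e →
    ∀ r : ℕ, r ≠ 0 → (∀ x, e x ≠ 0 → e x ^ r = 1) → ∀ kk : ι → ℂ, V.valuation (kk R.i0) = 1 →
    ∀ N' : ℕ, N' ≠ 0 → absD A B * ((3 * f : ℕ) : ℤ) ^ 2 ∣ (N' : ℤ) →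
    ∃ a b c d : ℤ, a * d - b * c = 1 ∧ (N' : ℤ) ∣ c ∧ (N' : ℤ) ∣ d - 1 ∧
      1 < V.valuation (MUXHN.PT (fun x y => PhiKE R e kk x y / (3 * u * R.om R.i0)) ∞
        (mob a b c d ∞))

/-- (TYF, `D = -4`) the type: twin of `NST.Sn_TYF` -/
def Sn_TYF_E : Prop :=
  ∀ (A B : ℤ) (V : ValuationSubring ℂ) (f : ℕ), SetE4 A B V f → TorXE A B →
    ∀ (ι : Type) [Fintype ι] (R : RepsE A B (3 * f) ι) (u el lam : ℂ),
    GoodN V (R.L R.i0) u el lam → ∀ w : OO A B → ℂ, IsTei V w →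
    ∀ e : OO A B → ℂ, IsEIE (idl (A := A) (B := B) (3 * f)) e → ∀ r : ℕ, ¬ 3 ∣ r →
    (∀ x, e x ≠ 0 → e x ^ r = 1) → ∀ i : ℕ,
    (∀ x, x - 1 ∈ idl (A := A) (B := B) f → x ∉ idl (A := A) (B := B) 3 → e x = w x ^ i) →
    ∀ kk : ι → ℂ, (∀ j, kk j ^ r = 1) →
    ∃ (pi : ℂ) (KI : Subfield ℂ),
      (∀ x y : OnePoint ℚ, ∃ w ∈ KI, PhiKE R e kk x y / (u * R.om R.i0) = pi * w) ∧
      (∀ w ∈ KI, V.valuation w < 1 → V.valuation w ≤ V.valuation (3 : ℂ)) ∧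
      V.valuation pi ^ 8 * V.valuation (3 : ℂ) ^ i = 1

end

end Pool.Agent.MEH
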