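import Pool.Agent.ME2.G_GPT3
import Pool.Agent.ME.StHE
import Pool.Agent.NS.G_Bin
import Pool.Agent.NS.GRAll

/-!
# ME, block G for `p = 3` (helper6): Theorem G for the exceptional fields, `Sn_GPT_E` (`D = -4`, `3` inert) and `Sq_GPT_E` (`D = -3`, `3` ramified)
-/

set_option autoImplicit false

namespace Pool.Agent.MEG

open _root_.MU3 Pool.Agent.MU3A Pool.Agent.MU3B Pool.Agent.MU3Q Pool.Agent.MUX Pool.Agent.MuSym
  Pool.Agent.MUXN Pool.Agent.NS Pool.Agent.NSG Pool.Agent.N2 OnePoint UpperHalfPlane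
open Pool.Agent.ME hiding ActE
open Pool.Agent.MUXU
open Pool.Agent.MUXF (qb)

noncomputable section

variable {A B : ℤ} {n : ℕ} {ι : Type}

/-- the equation of the lattice in Legendre form -/
def LegQ (L : PeriodPair) (u e lam : ℂ) : Prop :=
  ∀ z ∉ L.lattice, (L.derivWeierstrassP z / (2 * u ^ 3)) ^ 2 =
    ((L.weierstrassP z - e) / u ^ 2) * ((L.weierstrassP z - e) / u ^ 2 - 1) *
      ((L.weierstrassP z - e) / u ^ 2 - lam)

/-- the cubic of a lattice in Legendre form -/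
theorem cubE {L : PeriodPair} {u e lam : ℂ} (hu : u ≠ 0) (h : LegQ L u e lam)
    (X : ℂ) : 4 * X ^ 3 - L.g₂ * X - L.g₃ = 4 * (X - e) * (X - e - u ^ 2) * (X - e - lam * u ^ 2) := by
  obtain ⟨y, hy⟩ := IsAlgClosed.exists_pow_nat_eq (4 * X ^ 3 - L.g₂ * X - L.g₃) (n := 2) (by norm_num)
  obtain ⟨z, hz, hX, hY⟩ := (b_DSC L).2 X y hy
  have h1 := h z hz
  rw [hX, hY] at h1
  have hu2 : u ^ 6 ≠ 0 := pow_ne_zero _ hu
  have h2 : y ^ 2 = 4 * (X - e) * (X - e - u ^ 2) * (X - e - lam * u ^ 2) := by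
    field_simp at h1
    linear_combination h1
  rw [← h2, hy]

/-- algebraicity of the coefficients of the Legendre form -/
theorem leg_algE {L : PeriodPair} (hL : NrmE A B L) {u e lam : ℂ} (hu : u ≠ 0)
    (h : LegQ L u e lam) : IsAlgebraic ℚ u ∧ IsAlgebraic ℚ e ∧ IsAlgebraic ℚ lam := by
  obtain ⟨h2, h3⟩ := g_algE hL
  have k1 : IsAlgebraic ℚ e := root_alg h2 h3 (by rw [cubE hu h e]; ring)
  have k2 : IsAlgebraic ℚ (e + u ^ 2) := root_alg h2 h3 (by rw [cubE hu h (e + u ^ 2)]; ring)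
  have k3 : IsAlgebraic ℚ (e + lam * u ^ 2) :=
    root_alg h2 h3 (by rw [cubE hu h (e + lam * u ^ 2)]; ring)
  have k4 : IsAlgebraic ℚ (u ^ 2) := by
    have : u ^ 2 = (e + u ^ 2) - e := by ring
    rw [this]
    exact k2.sub k1
  have k5 : IsAlgebraic ℚ u := IsAlgebraic.of_pow (by norm_num) k4
  refine ⟨k5, k1, ?_⟩
  have hu2 : u ^ 2 ≠ 0 := pow_ne_zero _ hu
  have : lam = ((e + lam * u ^ 2) - e) * (u ^ 2)⁻¹ := by
    rw [add_sub_cancel_left, mul_assoc, mul_inv_cancel₀ hu2, mul_one]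
  rw [this]
  exact (k3.sub k1).mul k4.inv

/-- `LegN` for the lattice `u L` -/
theorem legNE {n : ℕ} (R : RepsE A B n ι) {V : ValuationSubring ℂ}
    (h3 : V.valuation (3 : ℂ) < 1) {u e lam : ℂ} (hu : u ≠ 0) (h : LegQ (R.L R.i0) u e lam)
    (hl1 : V.valuation (1 + lam) < 1) :
    ∃ (L' : PeriodPair), LegN A B V L' (u * R.om R.i0) (e / u ^ 2) lam := by
  obtain ⟨L', hL'⟩ := u_SCX (R.L R.i0) u hu
  obtain ⟨s1, s2, -, -⟩ := ta_SCP (R.L R.i0) L' u hu hL'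
  have hlat := latE R hu hL'
  have hv2 : V.valuation (2 : ℂ) = 1 := by
    have := NSG.vN V h3 2 (by norm_num)
    exact_mod_cast this
  refine ⟨L', hlat.1, hlat.2, ?_, (leg_algE (R.nl R.i0).nrm hu h).2.2, ?_, ?_⟩
  · intro z hz
    have e1 : z = u * (u⁻¹ * z) := by rw [mul_inv_cancel_left₀ hu]
    have hz' : u⁻¹ * z ∉ (R.L R.i0).lattice := by
      intro h4
      apply hz
      rw [e1]
      exact (hL' _).1 h4
    have h5 := h _ hz'
    rw [e1, s1, s2]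
    rw [show (R.L R.i0).weierstrassP (u⁻¹ * z) / u ^ 2 - e / u ^ 2 =
      ((R.L R.i0).weierstrassP (u⁻¹ * z) - e) / u ^ 2 by ring, ← h5]
    field_simp
    ring
  · have e1 : lam = -1 + (1 + lam) := by ring
    have e2 : V.valuation (-1 : ℂ) = 1 := by rw [Valuation.map_neg, map_one]
    rw [e1, Valuation.map_add_eq_of_lt_left _ (by rw [e2]; exact hl1), e2]
  · have e1 : 1 - lam = 2 - (1 + lam) := by ring
    rw [e1, Valuation.map_sub_eq_of_lt_left _ (by rw [hv2]; exact hl1), hv2]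

/-- the integrality property of a lattice in Legendre form at `3` -/
theorem binLeg {V : ValuationSubring ℂ} (h3 : V.valuation (3 : ℂ) < 1) {L' : PeriodPair}
    {om e lam : ℂ} (hL : LegN A B V L' om e lam) : BinP V L' {lam} := by
  have hv2 : V.valuation (2 : ℂ) = 1 := by
    have := NSG.vN V h3 2 (by norm_num)
    exact_mod_cast this
  refine ⟨fun x hx => ?_, ?_⟩
  · rw [Finset.mem_singleton.1 hx]
    exact hL.alg
  intro K _ hS N hN hζ Z z hQS hzK hz0 hden hcusp hper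
  exact bin_leg Pool.Agent.MU3Q.wq (tg_GP tg_GV tg_GD) tg_DV K V 3 Nat.prime_three (by
    rw [ValuationSubring.mem_nonunits_iff]
    exact_mod_cast h3) hv2 N hN hζ L' e lam hL.eq (hS lam (Finset.mem_singleton_self _)) hL.v1
    hL.v2 Z z hQS hzK hz0 hden hcusp hper

theorem zq27 : zq 27 = z27 := by
  unfold zq z27
  norm_num

/-- (GPT) `p = 3`, `D = -4` -/
theorem g_GPT4 : Pool.Agent.MEH.Sn_GPT_E := by
  classical
  intro A B V f hSN hT ι _ R u el lam hg e he r hr her kk hkk N' hN' hNd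
  have hE : CaseE A B := hSN.case
  have hc : CQ A B := hE.toCQ
  have hv3 : V.valuation (3 : ℂ) < 1 := NSG.v3 hSN.hV
  have hleg : LegQ (R.L R.i0) u el lam := hg.eq
  obtain ⟨L', hL'⟩ := legNE R hv3 hg.u0 hleg (lt_of_le_of_lt hg.lam1 hv3)
  have hn : 2 ≤ 3 * f := by
    have := Nat.pos_of_ne_zero hSN.f0
    omega
  have hrE : V.valuation (rE A B : ℂ) = 1 := by
    have h3 : rE A B = 2 := by
      unfold rE
      rw [hSN.hB]
      rfl
    rw [h3]
    exact NSG.vN V hv3 2 (by norm_num)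
  obtain ⟨cc, hcc⟩ : ∃ cc : Fin 27 → ℂ, cc = fun t => (if t = 0 then 1 else 0) -
      (if t = 1 then 1 else 0) := ⟨_, rfl⟩
  have hF : ∀ F : Fin 27 → ℂ, ∑ t, cc t * F t = F 0 - F 1 := by
    intro F
    rw [hcc]
    simp only [sub_mul, ite_mul, one_mul, zero_mul, Finset.sum_sub_distrib, Finset.sum_ite_eq',
      Finset.mem_univ, if_true]
  have hs : ∑ t, cc t * zq 27 ^ (t : ℕ) = 1 - z27 := by
    rw [hF (fun t => zq 27 ^ (t : ℕ)), zq27]
    norm_num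
  have hz27 : (1 : ℂ) - z27 ≠ 0 := by
    intro h0
    exact z27_prim.ne_one (by norm_num) (by linear_combination -h0)
  obtain ⟨a, b, c, d, m1, m2, m3, m4⟩ := gptQE hE hT (loc_I A B hc V hSN.hV) hn R hg.u0
    (leg_algE (R.nl R.i0).nrm hg.u0 hleg).1 (binLeg hv3 hL') ⟨hL'.om0, hL'.mem⟩ he hr her hkk
    hN' hNd (q := 27) (by norm_num) cc (by rw [hs]; exact hz27)
  refine ⟨a, b, c, d, m1, m2, m3, ?_⟩
  rw [hrE, one_mul, hs, hF (fun t => PhiKE R e kk (mob (27 : ℕ) (t : ℕ) 0 (27 : ℕ) ∞)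
      (mob (27 : ℕ) (t : ℕ) 0 (27 : ℕ) (mob a b c d ∞)) / (u * R.om R.i0))] at m4
  have h27 : V.valuation (z27 - 1) ^ 18 = V.valuation (3 : ℂ) := by
    have := MUXH.Hz.val_p 3 Nat.prime_three V 2 z27 (by
      have : (3 : ℕ) ^ (2 + 1) = 27 := by norm_num
      rw [this]
      exact z27_prim)
    norm_num at this
    exact this
  have hz2 : V.valuation (1 - z27) = V.valuation (z27 - 1) := by
    rw [← neg_sub, Valuation.map_neg]
  rw [← h27, ← hz2]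
  refine pow_le_pow_left₀ zero_le ?_ 18
  unfold MUXHN.PT
  dsimp only
  have e0 : (((0 : Fin 27) : ℕ) : ℤ) = 0 := rfl
  have e1 : (((1 : Fin 27) : ℕ) : ℤ) = 1 := rfl
  rw [e0, e1] at m4
  rw [TrQ.mob_zero _ (by norm_num), TrQ.mob_zero _ (by norm_num)] at m4
  exact m4

/-- the primitives are depleted -/
theorem depE {f : ℕ} (hE : CaseE A B) (hB : B = 1) (hf : f ≠ 0) (R : RepsE A B (3 * f) ι)
    {e : OO A B → ℂ} (he : IsEIE (idl (A := A) (B := B) (3 * f)) e) (j : ECK e × Fin 27) (τ : ℂ)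
    (hτ : 0 < τ.im) :
    ThE 27 R e j τ + ThE 27 R e j (τ + 1 / 3) + ThE 27 R e j (τ + 2 / 3) = 0 := by
  obtain ⟨⟨e', he'⟩, s⟩ := j
  have heI : IsEI (idl (A := A) (B := B) (3 * f)) e' := by
    obtain ⟨σ, -, rfl⟩ := he'
    exact Gdt.ei_conj he.toIsEI σ
  have hf3 : 3 * f ≠ 0 := by omega
  have hg : idl (A := A) (B := B) (3 * f) ≠ ⊥ := by
    intro h
    have hpf : ((3 * f : ℕ) : OO A B) ∈ idl (A := A) (B := B) (3 * f) :=
      Ideal.mem_span_singleton_self _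
    rw [h, Ideal.mem_bot] at hpf
    exact Gdt.nat_ne _ hf3 hpf
  have hb : R.b R.i0 ≠ ⊥ := (R.nl R.i0).b_ne
  have hn1 : MUX.nI (R.b R.i0) = 1 := by
    rw [R.b0]
    unfold MUX.nI
    exact Nat.card_unique
  have hD : (3 : ℤ) ∣ B ^ 2 + 4 * A := by
    rw [hE.hA, hB]
    norm_num
  have hc := MUXY.cqF hE.toCQ
  have hq3 : ∀ x ∈ R.b R.i0, e' x ≠ 0 → (3 : ℤ) ∣ qb (R.b R.i0) x - 1 := by
    intro x hx hex
    obtain ⟨halg, -, -, -, -⟩ := MUXF.xf_ALG A B hc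
    obtain ⟨hq, -, -⟩ := MUXF.xf_QB A B hc (R.b R.i0) hb
    obtain ⟨hqx, -⟩ := hq x hx
    have h1 := (heI.supp x).1 hex
    rw [Ideal.isCoprime_span_singleton_iff] at h1
    obtain ⟨a, c, hac⟩ := h1
    have h2 : a * x = 1 - (3 : ℤ) • (c * ((f : ℕ) : OO A B)) := by
      have e1 : c * (((3 * f : ℕ)) : OO A B) = (3 : ℤ) • (c * ((f : ℕ) : OO A B)) := by
        rw [zsmul_eq_mul]
        push_cast
        ring
      rw [← e1, ← hac]
      ring
    have h3 : nm a * nm x = 1 - 3 * (2 * (c * ((f : ℕ) : OO A B)).re +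
        B * (c * ((f : ℕ) : OO A B)).im - 3 * nm (c * ((f : ℕ) : OO A B))) := by
      rw [← NSGR.QB3.nm_one_sub, ← h2]
      exact ((halg a x).2.2).symm
    have h4 : ¬ (3 : ℤ) ∣ nm x := by
      rintro ⟨k, hk⟩
      rw [hk] at h3
      have e1 : nm a * (3 * k) = 3 * (nm a * k) := by ring
      rw [e1] at h3
      omega
    have h5 := (NSGR.QB3.inv_mod hqx (NSGR.QB3.nm_mod hD x h4)).1
    have h6 : ((MUXF.nI (R.b R.i0) : ℕ) : ℤ) = 1 := by
      have : MUXF.nI (R.b R.i0) = 1 := hn1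
      rw [this]
      rfl
    rw [h6] at h5
    exact h5
  have hS := (NSGR.v_SH3 A B hE.toCQ (R.b R.i0) (idl (A := A) (B := B) (3 * f)) e' hb hg heI
    1 hq3).2
  have him : 0 < (τ + (((s : ℕ) : ℤ) : ℂ) / (27 : ℕ)).im := by
    have : ((((s : ℕ) : ℤ) : ℂ) / (27 : ℕ)).im = 0 := by
      have : ((((s : ℕ) : ℤ) : ℂ) / (27 : ℕ)) = (((s : ℕ) / 27 : ℝ) : ℂ) := by push_cast; ring
      rw [this]
      exact Complex.ofReal_im _
    rw [Complex.add_im, this, add_zero]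
    exact hτ
  have k1 := hS _ him 1
  have k2 := hS _ him 2
  have e1 : τ + 1 / 3 + (((s : ℕ) : ℤ) : ℂ) / (27 : ℕ) =
      τ + (((s : ℕ) : ℤ) : ℂ) / (27 : ℕ) + ((1 : ℤ) : ℂ) / 3 := by
    push_cast
    ring
  have e2 : τ + 2 / 3 + (((s : ℕ) : ℤ) : ℂ) / (27 : ℕ) =
      τ + (((s : ℕ) : ℤ) : ℂ) / (27 : ℕ) + ((2 : ℤ) : ℂ) / 3 := by
    push_cast
    ring
  show thetaIntI (R.b R.i0) e' (τ + (((s : ℕ) : ℤ) : ℂ) / (27 : ℕ)) +
    thetaIntI (R.b R.i0) e' (τ + 1 / 3 + (((s : ℕ) : ℤ) : ℂ) / (27 : ℕ)) +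
    thetaIntI (R.b R.i0) e' (τ + 2 / 3 + (((s : ℕ) : ℤ) : ℂ) / (27 : ℕ)) = 0
  rw [e1, e2, k1, k2]
  have h5 := NSGR.GPR.exp3 1 (by norm_num)
  linear_combination (thetaIntI (R.b R.i0) e' (τ + (((s : ℕ) : ℤ) : ℂ) / (27 : ℕ))) * h5

/-- (GPT) `p = 3`, `D = -3` -/
theorem g_GPTR : Pool.Agent.MEH.Sq_GPT_E := by
  classical
  intro A B P V f hSR hT ι _ R u el lam hg e he r hr her kk hkk N' hN' hNd
  have hE : CaseE A B := hSR.case
  have hc : CQ A B := hE.toCQ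
  have hv3 : V.valuation (3 : ℂ) < 1 := NSGR.GPR.v3 hSR.hP hSR.hV
  have hleg : LegQ (R.L R.i0) u el lam := hg.eq
  obtain ⟨L', hL'⟩ := legNE R hv3 hg.u0 hleg (NSGR.LGR.lam_lt hv3 hg)
  have hn : 2 ≤ 3 * f := by
    have := Nat.pos_of_ne_zero hSR.f0
    omega
  have hrE : (rE A B : ℂ) = 3 := by
    have h3 : rE A B = 3 := by
      unfold rE
      rw [hSR.hB]
      rfl
    rw [h3]
    rfl
  have hD := gdatQE hE hT (q := 27) (by norm_num) hn R e he r hr her u hg.u0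
    (leg_algE (R.nl R.i0).nrm hg.u0 hleg).1 N' hN' hNd
  have hfE : Finite (ECK e) := eck_fin hr her
  have hFt : Fintype (ECK e) := Fintype.ofFinite _
  have heE : e ∈ ECK e := ⟨RingEquiv.refl ℂ, rfl, rfl⟩
  set w : ECK e × Fin 27 → ℂ := fun j => if j.1 = ⟨e, heE⟩ then
    (if j.2 = 0 then kk R.i0 / 3 else if j.2 = 1 then -(kk R.i0 / 3) else 0) else 0 with hw
  have hsum : ∀ F : ECK e × Fin 27 → ℂ, ∑ j, w j * F j =
      kk R.i0 / 3 * F (⟨e, heE⟩, 0) + -(kk R.i0 / 3) * F (⟨e, heE⟩, 1) := by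
    intro F
    rw [Fintype.sum_prod_type, Finset.sum_eq_single (⟨e, heE⟩ : ECK e)]
    · refine Eq.trans ?_ (sumF (kk R.i0 / 3) (-(kk R.i0 / 3)) (fun t => F (⟨e, heE⟩, t)))
      refine Finset.sum_congr rfl fun t _ => ?_
      rw [hw]
      beta_reduce
      rw [if_pos rfl]
    · intro e' _ he'
      refine Finset.sum_eq_zero fun t _ => ?_
      rw [hw]
      beta_reduce
      rw [if_neg he', zero_mul]
    · intro h
      exact absurd (Finset.mem_univ _) h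
  have hα : ∑ j, w j * a1E A B 27 e j = kk R.i0 * (1 - z27) := by
    rw [hsum]
    unfold a1E
    rw [hrE, zq27]
    have e0 : ((0 : Fin 27) : ℕ) = 0 := rfl
    have e1 : ((1 : Fin 27) : ℕ) = 1 := rfl
    dsimp only
    rw [e0, e1]
    ring
  have h27 : V.valuation (z27 - 1) ^ 18 = V.valuation (3 : ℂ) := by
    have := MUXH.Hz.val_p 3 Nat.prime_three V 2 z27 (by
      have : (3 : ℕ) ^ (2 + 1) = 27 := by norm_num
      rw [this]
      exact z27_prim)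
    norm_num at this
    exact this
  have hz2 : V.valuation (1 - z27) = V.valuation (z27 - 1) := by
    rw [← neg_sub, Valuation.map_neg]
  have hv30 : V.valuation (3 : ℂ) ≠ 0 := (Valuation.ne_zero_iff _).2 (by norm_num)
  have hz0 : V.valuation (z27 - 1) ≠ 0 := by
    intro h0
    rw [h0, zero_pow (by norm_num)] at h27
    exact hv30 h27.symm
  have hz1 : V.valuation (z27 - 1) < 1 := by
    by_contra h0
    rw [not_lt] at h0
    have := one_le_pow₀ h0 (n := 18)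
    rw [h27] at this
    exact absurd this (not_le.2 hv3)
  have hkey : V.valuation (3 : ℂ) < V.valuation (∑ j, w j * a1E A B 27 e j) ^ 12 := by
    rw [hα, map_mul, hkk, one_mul, hz2, ← h27]
    exact pow_lt_pow_right_of_lt_one₀ (zero_lt_iff.2 hz0) hz1 (by norm_num)
  obtain ⟨a, b, c, d, k1, k2, k3, k4⟩ := NSGR.v_GTP A B hc (ECK e × Fin 27) (PsE 27 R e)
    (ThE 27 R e) (a1E A B 27 e) (u * R.om R.i0) (27 ^ 2 * N') hD
    (fun j τ hτ => depE hE hSR.hB hSR.f0 R he j τ hτ) V hv3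
    (NSGR.v_LCR A B hc P hSR.hP V hSR.hV) L' (el / u ^ 2) lam hL' hg.lam1 w hkey
  have hcast : ((27 ^ 2 * N' : ℕ) : ℤ) = 27 ^ 2 * (N' : ℤ) := by push_cast; ring
  rw [hcast] at k2 k3
  refine ⟨a, b, c, d, k1, dvd_trans (Dvd.intro_left _ rfl) k2, dvd_trans (Dvd.intro_left _ rfl) k3,
    ?_⟩
  rw [hsum] at k4
  have e2 : (kk R.i0 / 3 * PsE 27 R e (⟨e, heE⟩, 0) ∞ (mob a b c d ∞) +
      -(kk R.i0 / 3) * PsE 27 R e (⟨e, heE⟩, 1) ∞ (mob a b c d ∞)) / (u * R.om R.i0) =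
      MUXHN.PT (fun x y => PhiKE R e kk x y / (3 * u * R.om R.i0)) ∞ (mob a b c d ∞) := by
    unfold MUXHN.PT
    dsimp only
    rw [phiKE_eq hE, phiKE_eq hE]
    have e0 : PsE 27 R e (⟨e, heE⟩, 0) ∞ (mob a b c d ∞) =
        PhiI (R.b R.i0) e ∞ (mob a b c d ∞) := by
      have f1 : (((0 : Fin 27) : ℕ) : ℤ) = 0 := rfl
      unfold PsE
      dsimp only
      rw [f1, TrQ.mob_zero _ (by norm_num), TrQ.mob_zero _ (by norm_num)]
    have e1 : PsE 27 R e (⟨e, heE⟩, 1) ∞ (mob a b c d ∞) =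
        PhiI (R.b R.i0) e (mob 27 1 0 27 ∞) (mob 27 1 0 27 (mob a b c d ∞)) := by
      have f1 : (((1 : Fin 27) : ℕ) : ℤ) = 1 := rfl
      unfold PsE
      dsimp only
      rw [f1]
      rfl
    rw [e0, e1]
    have hu := hg.u0
    have ho : R.om R.i0 ≠ 0 := (R.nl R.i0).om_ne
    field_simp
    ring
  rw [e2] at k4
  exact k4

end

end Pool.Agent.MEG
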