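import Pool.Agent.N2.GS_Gde
import Pool.Agent.ME2.T_Lib

/-!
# ME, block G of the exceptional fields (helper6): the data for Theorem G in the frame of `ME/DefsE.lean`
-/

set_option autoImplicit false

namespace Pool.Agent.MEG

open _root_.MU3 Pool.Agent.MU3A Pool.Agent.MU3B Pool.Agent.MU3Q Pool.Agent.MUX Pool.Agent.MuSym
  Pool.Agent.MUXN Pool.Agent.NS Pool.Agent.NSG Pool.Agent.N2 OnePoint UpperHalfPlane
open Pool.Agent.ME hiding ActE
open Pool.Agent.MUXF (Sx_ALG Sx_IDL Sx_QB Sx_BDD Sx_TSM qb)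
open Pool.Agent.MUXY (cqF eiF)
open scoped ComplexConjugate

noncomputable section

open N_QXP in
/-- the units in the upper half -/
theorem unitsE {A B : ℤ} (hE : CaseE A B) :
    ∃ U : Finset (OO A B), U.card = rE A B ∧ ∀ y, y ∈ U ↔ nm y = 1 ∧ PH y := by
  classical
  have hA := hE.hA
  subst hA
  rcases hE.hB with hB | hB
  · subst hB
    refine ⟨{⟨1, 0⟩, ⟨0, 1⟩}, ?_, fun y => ?_⟩
    · rw [Finset.card_pair]
      · rfl
      · intro h
        have := congrArg QuadraticAlgebra.re h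
        exact one_ne_zero this
    · rw [Finset.mem_insert, Finset.mem_singleton]
      obtain ⟨a, b⟩ := y
      unfold nm PH
      simp only [QuadraticAlgebra.mk.injEq]
      constructor
      · rintro (⟨rfl, rfl⟩ | ⟨rfl, rfl⟩) <;> norm_num
      · rintro ⟨h1, h2⟩
        have ha : a ^ 2 ≤ 1 := by nlinarith [sq_nonneg b]
        have hb : b ^ 2 ≤ 1 := by nlinarith [sq_nonneg a]
        have ha1 : -1 ≤ a ∧ a ≤ 1 := abs_le.1 (abs_le_one_iff_mul_self_le_one.2 (by nlinarith))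
        have hb1 : -1 ≤ b ∧ b ≤ 1 := abs_le.1 (abs_le_one_iff_mul_self_le_one.2 (by nlinarith))
        obtain ⟨a1, a2⟩ := ha1
        obtain ⟨b1, b2⟩ := hb1
        interval_cases a <;> interval_cases b <;> simp_all
  · subst hB
    refine ⟨{⟨1, 0⟩, ⟨0, 1⟩, ⟨-1, 1⟩}, ?_, fun y => ?_⟩
    · rw [Finset.card_insert_of_notMem, Finset.card_pair]
      · rfl
      · intro h
        have := congrArg QuadraticAlgebra.re h
        norm_num at this
      · rw [Finset.mem_insert, Finset.mem_singleton]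
        rintro (h | h)
        · have := congrArg QuadraticAlgebra.re h
          norm_num at this
        · have := congrArg QuadraticAlgebra.re h
          norm_num at this
    · rw [Finset.mem_insert, Finset.mem_insert, Finset.mem_singleton]
      obtain ⟨a, b⟩ := y
      unfold nm PH
      simp only [QuadraticAlgebra.mk.injEq]
      constructor
      · rintro (⟨rfl, rfl⟩ | ⟨rfl, rfl⟩ | ⟨rfl, rfl⟩) <;> norm_num
      · rintro ⟨h1, h2⟩
        have ha : a ^ 2 ≤ 1 := by nlinarith [sq_nonneg (2 * b + a)]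
        have hb : b ^ 2 ≤ 1 := by nlinarith [sq_nonneg (2 * a + b)]
        have ha1 : -1 ≤ a ∧ a ≤ 1 := abs_le.1 (abs_le_one_iff_mul_self_le_one.2 (by nlinarith))
        have hb1 : -1 ≤ b ∧ b ≤ 1 := abs_le.1 (abs_le_one_iff_mul_self_le_one.2 (by nlinarith))
        obtain ⟨a1, a2⟩ := ha1
        obtain ⟨b1, b2⟩ := hb1
        interval_cases a <;> interval_cases b <;> simp_all

open N_QXP in
/-- the `q`-expansion of `thetaIntI ⊤ e'` -/
theorem qxE {A B : ℤ} (hE : CaseE A B) (b : Ideal (OO A B)) (hbt : b = ⊤)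
    (g : Ideal (OO A B)) (hg : g ≠ ⊥) (e : OO A B → ℂ) (he' : IsEIE g e) (r : ℕ) (hr : r ≠ 0)
    (her : ∀ x, e x ≠ 0 → e x ^ r = 1) :
    ∃ α : ℕ → ℂ, (∀ n, IsIntegral ℤ (α n)) ∧
      (∃ K : Subfield ℂ, NumberField K ∧ ∀ n, α n ∈ K) ∧ α 1 = (rE A B : ℂ) ∧
      (∀ τ : ℂ, 0 < τ.im → HasSum (fun n : ℕ => α n / n *
        Complex.exp (2 * Real.pi * Complex.I * τ) ^ n) (thetaIntI b e τ)) ∧
      ∀ m : ℕ, (∀ x : OO A B, nm x = m → e x = 0) → α m = 0 := by
  classical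
  have hc : MUX.CQ A B := hE.toCQ
  have he : IsEI g e := he'.toIsEI
  have hQB : Sx_QB := Pool.Agent.MUXF.xf_QB
  have hb : b ≠ ⊥ := by
    rw [hbt]
    intro h0
    have h3 : (1 : OO A B) ∈ (⊥ : Ideal (OO A B)) := h0 ▸ trivial
    rw [Ideal.mem_bot] at h3
    have h4 : (1 : ℤ) = 0 := congrArg QuadraticAlgebra.re h3
    exact one_ne_zero h4
  obtain ⟨a1, a2, a3, a4, -⟩ := Pool.Agent.MUXF.xf_ALG A B (cqF hc)
  obtain ⟨q1, -, -⟩ := hQB A B (cqF hc) b hb
  have hn1 : MUX.nI b = 1 := by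
    rw [hbt]
    unfold MUX.nI
    exact Nat.card_unique
  have hnb : MUX.nI b ≠ 0 := by rw [hn1]; exact one_ne_zero
  have hnbC : ((MUX.nI b : ℕ) : ℂ) ≠ 0 := by exact_mod_cast hnb
  obtain ⟨hfin, C, hC0, hC⟩ := Pool.Agent.MUXF.xf_BDD A B (cqF hc) g e hg (eiF he)
  set S : ℕ → Finset b := fun m => (fin_fib hc hQB b hb m).toFinset with hSdef
  have hS : ∀ (m : ℕ) (x : b), x ∈ S m ↔ (qb b (x : OO A B)).toNat = m := by
    intro m x
    rw [hSdef]
    simp
  set t : b → ℂ := fun x => e x * conj (emb (x : OO A B)) with htdef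
  have hconj : ∀ x : OO A B, conj (emb x) = emb (star x) := fun x => ((a2 x).2.2.2.2.2.1).symm
  have hnmneg : ∀ x : OO A B, nm (-x) = nm x := by
    intro x
    unfold nm
    have h1 : (-x).im = -x.im := rfl
    have h2 : (-x).re = -x.re := rfl
    rw [h1, h2]
    ring
  have hembneg : ∀ x : OO A B, emb (-x) = -emb x := by
    intro x
    rw [← N_GJ.eHom_apply hc, ← N_GJ.eHom_apply hc, map_neg]
  have heneg : ∀ x : OO A B, e (-x) = -e x := by
    intro x
    have h1 := he.mul (-1) x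
    rw [neg_one_mul, he.neg, neg_one_mul] at h1
    exact h1
  have htneg : ∀ x : b, t (-x) = t x := by
    intro x
    show e (-(x : OO A B)) * conj (emb (-(x : OO A B))) = e x * conj (emb (x : OO A B))
    rw [heneg, hembneg, map_neg, neg_mul_neg]
  have hqbneg : ∀ x : OO A B, qb b (-x) = qb b x := by
    intro x
    unfold qb
    rw [hnmneg]
  have hSneg : ∀ m, ∀ x ∈ S m, -x ∈ S m := by
    intro m x hx
    rw [hS] at hx ⊢
    show (qb b (-(x : OO A B))).toNat = m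
    rw [hqbneg, hx]
  have hqb0 : qb b (0 : OO A B) = 0 := by
    unfold qb nm
    simp
  have hS0 : ∀ m, m ≠ 0 → (0 : b) ∉ S m := by
    intro m hm h
    rw [hS] at h
    apply hm
    rw [← h]
    show (qb b (0 : OO A B)).toNat = 0
    rw [hqb0]
    rfl
  have hnmS : ∀ (m : ℕ) (x : b), x ∈ S m → nm (x : OO A B) = MUX.nI b * m := by
    intro m x hx
    rw [hS] at hx
    obtain ⟨h2, h3⟩ := q1 x x.2
    have h4 : qb b (x : OO A B) = m := by omega
    rw [h2, h4]
    rfl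
  have hS00 : ∀ x ∈ S 0, t x = 0 := by
    intro x hx
    have h1 := hnmS 0 x hx
    have h2 : (x : OO A B) = 0 := (a2 x).2.1.1 (by rw [h1]; simp)
    rw [htdef]
    beta_reduce
    rw [h2, (a2 0).1.2 rfl]
    simp
  set α : ℕ → ℂ := fun m => (1 / 2) * ∑ x ∈ S m, t x with hαdef
  have hα0 : α 0 = 0 := by
    rw [hαdef]
    beta_reduce
    rw [Finset.sum_eq_zero hS00, mul_zero]
  have hαn : ∀ m, m ≠ 0 → α m = ∑ x ∈ (S m).filter (fun x : b => PH (x : OO A B)), t x := by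
    intro m hm
    rw [hαdef]
    beta_reduce
    rw [half_sum (S m) (hSneg m) (hS0 m hm) t htneg]
    ring
  have htint : ∀ x : b, IsIntegral ℤ (t x) := by
    intro x
    show IsIntegral ℤ (e x * conj (emb (x : OO A B)))
    rw [hconj]
    refine IsIntegral.mul ?_ (emb_int hc _)
    by_cases h : e x = 0
    · rw [h]
      exact isIntegral_zero
    · exact IsIntegral.of_pow (n := r) (Nat.pos_of_ne_zero hr)
        (by rw [her x h]; exact isIntegral_one)
  refine ⟨α, ?_, ?_, ?_, ?_, ?_⟩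
  rotate_right
  · intro m hm
    show (1 / 2) * ∑ x ∈ S m, t x = 0
    rw [Finset.sum_eq_zero fun x hx => ?_, mul_zero]
    show e x * conj (emb (x : OO A B)) = 0
    rw [hm x (by rw [hnmS m x hx, hn1]; push_cast; ring), zero_mul]
  · intro m
    by_cases hm : m = 0
    · rw [hm, hα0]
      exact isIntegral_zero
    · rw [hαn m hm]
      exact IsIntegral.sum _ fun x _ => htint x
  · have hfin2 : (Set.range e ∪ {wC A B}).Finite := hfin.union (Set.finite_singleton _)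
    have hfin3 : Finite ↑(Set.range e ∪ {wC A B}) := hfin2
    set K : IntermediateField ℚ ℂ := IntermediateField.adjoin ℚ (Set.range e ∪ {wC A B}) with hK
    have hKfd : FiniteDimensional ℚ K := by
      apply IntermediateField.finiteDimensional_adjoin
      rintro x (⟨y, rfl⟩ | hx)
      · by_cases h : e y = 0
        · rw [h]
          exact isIntegral_zero
        · exact IsIntegral.of_pow (n := r) (Nat.pos_of_ne_zero hr)
            (by rw [her y h]; exact isIntegral_one)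
      · rw [Set.mem_singleton_iff] at hx
        rw [hx]
        exact (N_GJ.wC_int hc).tower_top
    have hKe : ∀ x, e x ∈ K := fun x =>
      IntermediateField.subset_adjoin ℚ _ (Or.inl ⟨x, rfl⟩)
    have hKw : wC A B ∈ K := IntermediateField.subset_adjoin ℚ _ (Or.inr rfl)
    have hKemb : ∀ x : OO A B, emb x ∈ K := fun x =>
      add_mem (intCast_mem _ _) (mul_mem (intCast_mem _ _) hKw)
    refine ⟨K.toSubfield, ?_, ?_⟩
    · have h4 : NumberField K := ⟨⟩
      exact h4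
    · intro m
      show α m ∈ K
      refine mul_mem (div_mem (one_mem _) (ofNat_mem K 2)) (sum_mem fun x _ => ?_)
      show e x * conj (emb (x : OO A B)) ∈ K
      rw [hconj]
      exact mul_mem (hKe _) (hKemb _)
  · rw [hαn 1 one_ne_zero]
    -- every term is one
    have ht1 : ∀ x ∈ (S 1).filter (fun x : b => PH (x : OO A B)), t x = 1 := by
      intro x hx
      have h1 := hnmS 1 x (Finset.mem_filter.1 hx).1
      rw [hn1] at h1
      have h2 : nm (x : OO A B) = 1 := by rw [h1]; norm_num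
      have hu1 : (x : OO A B) * star (x : OO A B) = 1 := by
        rw [(a2 (x : OO A B)).2.2.2.2.1, h2, Int.cast_one]
      have hu : IsUnit (x : OO A B) := IsUnit.of_mul_eq_one _ hu1
      show e x * conj (emb (x : OO A B)) = 1
      rw [he'.unit _ hu, hconj, ← (a1 _ _).1, hu1]
      have h5 := (a3 1).1
      rw [Int.cast_one, Int.cast_one] at h5
      exact h5
    rw [Finset.sum_congr rfl ht1, Finset.sum_const, nsmul_eq_mul, mul_one]
    congr 1
    obtain ⟨U, hU1, hU2⟩ := unitsE hE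
    rw [← hU1, ← Finset.card_image_of_injective _ (Subtype.val_injective (p := fun x => x ∈ b))]
    congr 1
    ext y
    rw [hU2, Finset.mem_image]
    constructor
    · rintro ⟨x, hx, rfl⟩
      obtain ⟨hx1, hx2⟩ := Finset.mem_filter.1 hx
      refine ⟨?_, hx2⟩
      rw [hnmS 1 x hx1, hn1]
      norm_num
    · rintro ⟨h1, h2⟩
      have hyb : y ∈ b := by rw [hbt]; trivial
      refine ⟨⟨y, hyb⟩, Finset.mem_filter.2 ⟨?_, h2⟩, rfl⟩
      rw [hS]
      show (qb b y).toNat = 1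
      have h6 := (q1 y hyb).1
      have h7 : nm y = (MUX.nI b : ℤ) * qb b y := h6
      rw [h1, hn1] at h7
      omega
  · intro τ hτ
    have hsum := Pool.Agent.MUXF.xf_TSM A B (cqF hc) b hb e C hC τ hτ
    have hq : ∀ x : b, ((nm (x : OO A B) : ℤ) : ℂ) / ((MUX.nI b : ℕ) : ℂ) =
        ((qb b (x : OO A B) : ℤ) : ℂ) := by
      intro x
      have h1 : nm (x : OO A B) = (MUX.nI b : ℤ) * qb b (x : OO A B) := (q1 x x.2).1
      rw [h1]
      push_cast
      field_simp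
    set f : b → ℂ := fun x => e x * conj (emb (x : OO A B)) /
      (((nm (x : OO A B) : ℤ) : ℂ) / ((MUX.nI b : ℕ) : ℂ)) *
        Complex.exp (2 * Real.pi * Complex.I *
          (((nm (x : OO A B) : ℤ) : ℂ) / ((MUX.nI b : ℕ) : ℂ)) * τ) with hf
    have hfs : Summable f := by
      refine Summable.of_norm_bounded hsum.norm fun x => ?_
      rw [hf]
      beta_reduce
      show _ ≤ ‖e x * conj (emb (x : OO A B)) * Complex.exp (2 * Real.pi * Complex.I *
          (((nm (x : OO A B) : ℤ) : ℂ) / ((MUX.nI b : ℕ) : ℂ)) * τ)‖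
      rw [hq x, norm_mul, norm_mul (e x * conj (emb (x : OO A B))), norm_div]
      refine mul_le_mul_of_nonneg_right ?_ (norm_nonneg _)
      by_cases h0 : qb b (x : OO A B) = 0
      · rw [h0, Int.cast_zero, norm_zero, div_zero]
        exact norm_nonneg _
      · have h1 : 1 ≤ qb b (x : OO A B) := by
          have := (q1 x x.2).2
          omega
        have h2 : (1 : ℝ) ≤ ‖((qb b (x : OO A B) : ℤ) : ℂ)‖ := by
          rw [Complex.norm_intCast]
          have h3 : (1 : ℝ) ≤ ((qb b (x : OO A B) : ℤ) : ℝ) := by exact_mod_cast h1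
          exact h3.trans (le_abs_self _)
        exact div_le_self (norm_nonneg _) h2
    have hfib := hfs.hasSum.tsum_fiberwise (fun x : b => (qb b (x : OO A B)).toNat)
    have hfib2 := hfib.mul_left (1 / 2 : ℂ)
    have e1 : (fun m : ℕ => α m / m * Complex.exp (2 * Real.pi * Complex.I * τ) ^ m) =
        fun m : ℕ => (1 / 2 : ℂ) * ∑' x : (fun x : b => (qb b (x : OO A B)).toNat) ⁻¹' {m},
          f x := by
      funext m
      have h1 : (fun x : b => (qb b (x : OO A B)).toNat) ⁻¹' {m} = ((S m : Finset b) : Set b) := by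
        ext x
        rw [Finset.mem_coe, hS]
        rfl
      rw [h1, Finset.tsum_subtype' (S m) f, hαdef]
      beta_reduce
      rw [mul_div_assoc, mul_assoc]
      congr 1
      rw [div_mul_eq_mul_div, Finset.sum_mul, Finset.sum_div]
      refine Finset.sum_congr rfl fun x hx => ?_
      have h2 : ((qb b (x : OO A B) : ℤ) : ℂ) = (m : ℂ) := by
        rw [hS] at hx
        have h3 := (q1 x x.2).2
        have h4 : qb b (x : OO A B) = m := by omega
        rw [h4]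
        simp
      rw [hf, htdef]
      beta_reduce
      rw [hq x, h2, ← Complex.exp_nat_mul]
      rw [show 2 * (Real.pi : ℂ) * Complex.I * (m : ℂ) * τ =
        (m : ℂ) * (2 * Real.pi * Complex.I * τ) by ring]
      ring
    rw [e1]
    exact hfib2

/-! ### Conjugation of the symbols -/

/-- two pairs of cusps -/
theorem con2 {A B : ℤ} (h : CaseE A B) (T : TorXE A B) {b : Ideal (OO A B)} {L : PeriodPair}
    {om : ℂ} (hL : IsNE b L om) {g : Ideal (OO A B)} {e : OO A B → ℂ} (he : IsEI g e) (hg : g ≠ ⊤)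
    {n : ℕ} (hn : n ≠ 0) (hng : ((n : ℕ) : OO A B) ∈ g)
    (hcop : IsCoprime (sp ((nI b : ℕ) : OO A B)) g) {σ : ℂ ≃+* ℂ} (hσ : FixK A B σ)
    (x y x' y' : OnePoint ℚ) :
    ∃ C : ℂ, C ≠ 0 ∧ σ (PhiI b e x y / om) = C * (PhiI b (fun x => σ (e x)) x y / om) ∧
      σ (PhiI b e x' y' / om) = C * (PhiI b (fun x => σ (e x)) x' y' / om) := by
  obtain ⟨m, hm⟩ : ∃ m, m = 2 * n * ((Pool.Agent.N2T.dc x * Pool.Agent.N2T.dc y) *
    (Pool.Agent.N2T.dc x' * Pool.Agent.N2T.dc y')) := ⟨_, rfl⟩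
  have hm0 : m ≠ 0 := by
    rw [hm]
    exact mul_ne_zero (mul_ne_zero two_ne_zero hn)
      (mul_ne_zero (mul_ne_zero (Pool.Agent.N2T.dc_pos x) (Pool.Agent.N2T.dc_pos y))
        (mul_ne_zero (Pool.Agent.N2T.dc_pos x') (Pool.Agent.N2T.dc_pos y')))
  have hx : MUXY.Dn m x := Pool.Agent.N2T.dn_of (by
    rw [hm]
    exact ((dvd_mul_right _ _).trans (dvd_mul_right _ _)).trans (dvd_mul_left _ _))
  have hy : MUXY.Dn m y := Pool.Agent.N2T.dn_of (by
    rw [hm]
    exact ((dvd_mul_left _ _).trans (dvd_mul_right _ _)).trans (dvd_mul_left _ _))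
  have hx' : MUXY.Dn m x' := Pool.Agent.N2T.dn_of (by
    rw [hm]
    exact ((dvd_mul_right _ _).trans (dvd_mul_left _ _)).trans (dvd_mul_left _ _))
  have hy' : MUXY.Dn m y' := Pool.Agent.N2T.dn_of (by
    rw [hm]
    exact ((dvd_mul_left _ _).trans (dvd_mul_left _ _)).trans (dvd_mul_left _ _))
  have hmg : ((m : ℕ) : OO A B) ∈ g := by
    rw [hm, Nat.cast_mul, Nat.cast_mul]
    exact g.mul_mem_right _ (g.mul_mem_left _ hng)
  obtain ⟨c, -, -, hA, hz⟩ := ME2.actE h T hm0 (by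
    rw [hm, mul_assoc]
    exact dvd_mul_right _ _) hσ
  obtain ⟨C, hC0, -, hS⟩ := MUXY.y_RAT A B (cqF h.toCQ) σ m (sp c) b b L L om om
    (emb c) (MUXY.liF hL.toIsLI) (MUXY.liF hL.toIsLI) (hA b L om hL) hz g e (eiF he) hg hm0
    hmg hcop hcop
  exact ⟨C, hC0, hS x y hx hy, hS x' y' hx' hy'⟩

/-- conjugation of the symbols, for all pairs of cusps at once -/
theorem conE {A B : ℤ} (h : CaseE A B) (T : TorXE A B) {b : Ideal (OO A B)} {L : PeriodPair}
    {om : ℂ} (hL : IsNE b L om) {g : Ideal (OO A B)} {e : OO A B → ℂ} (he : IsEI g e) (hg : g ≠ ⊤)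
    {n : ℕ} (hn : n ≠ 0) (hng : ((n : ℕ) : OO A B) ∈ g)
    (hcop : IsCoprime (sp ((nI b : ℕ) : OO A B)) g) {σ : ℂ ≃+* ℂ} (hσ : FixK A B σ) :
    ∃ C : ℂ, C ≠ 0 ∧ ∀ x y : OnePoint ℚ,
      σ (PhiI b e x y / om) = C * (PhiI b (fun x => σ (e x)) x y / om) := by
  by_cases h0 : ∃ q : OnePoint ℚ × OnePoint ℚ, PhiI b (fun x => σ (e x)) q.1 q.2 / om ≠ 0
  · obtain ⟨q0, hq0⟩ := h0
    obtain ⟨C, hC, h1, -⟩ := con2 h T hL he hg hn hng hcop hσ q0.1 q0.2 q0.1 q0.2
    refine ⟨C, hC, fun x y => ?_⟩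
    obtain ⟨C', hC', h5, h6⟩ := con2 h T hL he hg hn hng hcop hσ q0.1 q0.2 x y
    have h8 : C = C' := mul_right_cancel₀ hq0 (h1.symm.trans h5)
    rw [h8]
    exact h6
  · push Not at h0
    refine ⟨1, one_ne_zero, fun x y => ?_⟩
    obtain ⟨C, hC, h1, -⟩ := con2 h T hL he hg hn hng hcop hσ x y x y
    rw [h1, h0 (x, y), mul_zero, mul_zero]

/-! ### The data -/

/-- the conjugates of `e` over `k` -/
abbrev ECK {A B : ℤ} (e : OO A B → ℂ) : Set (OO A B → ℂ) :=
  {e' | ∃ σ : ℂ ≃+* ℂ, FixK A B σ ∧ e' = fun x => σ (e x)}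

theorem eck_fin {A B : ℤ} {e : OO A B → ℂ} {r : ℕ} (hr : r ≠ 0)
    (her : ∀ x, e x ≠ 0 → e x ^ r = 1) : (ECK e).Finite :=
  (MUXY.y_FEC A B e r hr her).1.subset (by rintro e' ⟨σ, -, rfl⟩; exact ⟨σ, rfl⟩)

theorem fixK_emb {A B : ℤ} {σ : ℂ ≃+* ℂ} (hσ : FixK A B σ) (x : OO A B) : σ (emb x) = emb x := by
  unfold emb
  rw [map_add, map_mul, map_intCast, map_intCast]
  congr 2

theorem eie_conj {A B : ℤ} {g : Ideal (OO A B)} {e : OO A B → ℂ} (he : IsEIE g e)
    {σ : ℂ ≃+* ℂ} (hσ : FixK A B σ) : IsEIE g (fun x => σ (e x)) where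
  toIsEI := Gdt.ei_conj he.toIsEI σ
  unit := fun z hz => by rw [he.unit z hz, fixK_emb hσ]

variable {A B : ℤ} {n : ℕ} {ι : Type}

/-- the symbols -/
def PsE (q : ℕ) (R : RepsE A B n ι) (e : OO A B → ℂ) (j : ECK e × Fin q) (x y : OnePoint ℚ) : ℂ :=
  PhiI (R.b R.i0) j.1 (mob q (j.2 : ℕ) 0 q x) (mob q (j.2 : ℕ) 0 q y)

/-- their primitives -/
def ThE (q : ℕ) (R : RepsE A B n ι) (e : OO A B → ℂ) (j : ECK e × Fin q) (τ : ℂ) : ℂ :=
  thetaIntI (R.b R.i0) j.1 (τ + ((j.2 : ℕ) : ℤ) / q)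

/-- the first coefficients -/
def a1E (A B : ℤ) (q : ℕ) (e : OO A B → ℂ) (j : ECK e × Fin q) : ℂ :=
  rE A B * zq q ^ (j.2 : ℕ)

/-- the `q`-expansions -/
theorem qexpE (hE : CaseE A B) (q : ℕ) (hq : 0 < q) (R : RepsE A B n ι) (hn0 : n ≠ 0)
    (e : OO A B → ℂ) (he : IsEIE (idl n) e) (r : ℕ) (hr : r ≠ 0)
    (her : ∀ x, e x ≠ 0 → e x ^ r = 1) (j : ECK e × Fin q) :
    ∃ α : ℕ → ℂ, (∀ n, IsIntegral ℤ (α n)) ∧
    (∃ K : Subfield ℂ, NumberField K ∧ ∀ n, α n ∈ K) ∧ α 1 = a1E A B q e j ∧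
    (∀ τ : ℂ, 0 < τ.im → HasSum (fun n : ℕ => α n / n *
      Complex.exp (2 * Real.pi * Complex.I * τ) ^ n) (ThE q R e j τ)) ∧
    ∀ m : ℕ, (∀ x : OO A B, nm x = m → e x = 0) → α m = 0 := by
  have hpf : ((n : ℕ) : OO A B) ∈ idl (A := A) (B := B) n := Ideal.mem_span_singleton_self _
  have hgb : idl (A := A) (B := B) n ≠ ⊥ := by
    intro h
    rw [h, Ideal.mem_bot] at hpf
    exact Gdt.nat_ne _ hn0 hpf
  obtain ⟨⟨e', σ₀, hσ₀, he'⟩, t⟩ := j
  subst he'
  obtain ⟨α, hα1, ⟨K, hK1, hK2⟩, hα3, hα5, hα6⟩ :=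
    qxE hE (R.b R.i0) R.b0 (idl n) hgb (fun x => σ₀ (e x)) (eie_conj he hσ₀) r hr (by
      intro x hx
      have hx' : e x ≠ 0 := by
        intro h0
        apply hx
        rw [h0, map_zero]
      rw [← map_pow, her x hx', map_one])
  refine ⟨fun m => α m * zq q ^ ((t : ℕ) * m), ?_, ?_, ?_, ?_, ?_⟩
  · intro m
    exact (hα1 m).mul ((zq_int hq.ne').pow _)
  · set K1 : IntermediateField ℚ ℂ := K.toIntermediateField fun x => by
      have : (algebraMap ℚ ℂ x) = (x : ℂ) := rfl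
      rw [this]
      exact SubfieldClass.ratCast_mem K x
    set K2 : IntermediateField ℚ ℂ := IntermediateField.adjoin ℚ {zq q}
    have hf1 : FiniteDimensional ℚ K1 := hK1.to_finiteDimensional
    have hf2 : FiniteDimensional ℚ K2 :=
      IntermediateField.adjoin.finiteDimensional (zq_int hq.ne').tower_top
    have hf3 : FiniteDimensional ℚ ↥(K1 ⊔ K2) := IntermediateField.finiteDimensional_sup K1 K2
    refine ⟨(K1 ⊔ K2).toSubfield, ?_, fun m => ?_⟩
    · have h4 : NumberField ↥(K1 ⊔ K2) := ⟨⟩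
      exact h4
    · show α m * zq q ^ ((t : ℕ) * m) ∈ K1 ⊔ K2
      have m1 : α m ∈ K1 ⊔ K2 := (le_sup_left : K1 ≤ K1 ⊔ K2) (hK2 m)
      have m2 : zq q ∈ K1 ⊔ K2 := (le_sup_right : K2 ≤ K1 ⊔ K2)
        (IntermediateField.mem_adjoin_simple_self ℚ (zq q))
      exact mul_mem m1 (pow_mem m2 _)
  · show α 1 * zq q ^ ((t : ℕ) * 1) = rE A B * zq q ^ (t : ℕ)
    rw [mul_one, hα3]
  · intro τ hτ
    have him : 0 < (τ + (((t : ℕ) : ℤ) : ℂ) / q).im := by
      have : ((((t : ℕ) : ℤ) : ℂ) / q).im = 0 := by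
        have : ((((t : ℕ) : ℤ) : ℂ) / q) = (((t : ℕ) / q : ℝ) : ℂ) := by push_cast; ring
        rw [this]
        exact Complex.ofReal_im _
      rw [Complex.add_im, this, add_zero]
      exact hτ
    have h9 := hα5 _ him
    show HasSum _ (thetaIntI (R.b R.i0) (fun x => σ₀ (e x)) (τ + (((t : ℕ) : ℤ) : ℂ) / q))
    have e1 : (fun m : ℕ => α m / m * Complex.exp (2 * Real.pi * Complex.I *
        (τ + (((t : ℕ) : ℤ) : ℂ) / q)) ^ m) = fun m : ℕ => α m * zq q ^ ((t : ℕ) * m) / m *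
        Complex.exp (2 * Real.pi * Complex.I * τ) ^ m := by
      funext m
      have e2 : Complex.exp (2 * Real.pi * Complex.I * (τ + (((t : ℕ) : ℤ) : ℂ) / q)) =
          zq q ^ (t : ℕ) * Complex.exp (2 * Real.pi * Complex.I * τ) := by
        unfold zq
        rw [← Complex.exp_nat_mul, ← Complex.exp_add]
        congr 1
        push_cast
        ring
      rw [e2, mul_pow, ← pow_mul]
      ring
    rw [e1] at h9
    exact h9
  · intro m hm
    have h9 : α m = 0 := by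
      apply hα6
      intro x hx
      rw [hm x hx, map_zero]
    show α m * zq q ^ ((t : ℕ) * m) = 0
    rw [h9, zero_mul]

/-- the data for Theorem G, for `g = (n)` -/
theorem gdatQE (hE : CaseE A B) (hT : TorXE A B) {q : ℕ} (hq : 0 < q) (hn : 2 ≤ n)
    (R : RepsE A B n ι) (e : OO A B → ℂ) (he : IsEIE (idl n) e) (r : ℕ) (hr : r ≠ 0)
    (her : ∀ x, e x ≠ 0 → e x ^ r = 1) (u : ℂ) (hu : u ≠ 0) (hua : IsAlgebraic ℚ u) (N' : ℕ)
    (hN : N' ≠ 0) (hNd : absD A B * (n : ℤ) ^ 2 ∣ (N' : ℤ)) :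
    GDatN A B (ECK e × Fin q) (PsE q R e) (ThE q R e) (a1E A B q e) (u * R.om R.i0)
      (q ^ 2 * N') := by
  classical
  have hQ : MUX.CQ A B := hE.toCQ
  have hn0 : n ≠ 0 := by omega
  set g : Ideal (OO A B) := idl n with hg
  have hpf : ((n : ℕ) : OO A B) ∈ g := Ideal.mem_span_singleton_self _
  have hgb : g ≠ ⊥ := by
    intro h
    rw [h, Ideal.mem_bot] at hpf
    exact Gdt.nat_ne _ hn0 hpf
  have hgt : g ≠ ⊤ := by
    intro h
    rw [Ideal.eq_top_iff_one, hg, Ideal.mem_span_singleton] at h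
    obtain ⟨y, hy⟩ := h
    have h1 := congrArg QuadraticAlgebra.re hy
    rw [QuadraticAlgebra.re_one, QuadraticAlgebra.re_mul, QuadraticAlgebra.re_natCast,
      QuadraticAlgebra.im_natCast, mul_zero, zero_mul, add_zero] at h1
    have h9 : (n : ℤ) ∣ 1 := ⟨y.re, h1⟩
    have h10 : (n : ℤ) ≤ 1 := Int.le_of_dvd one_pos h9
    omega
  have hn1 : MUX.nI (R.b R.i0) = 1 := by
    rw [R.b0]
    unfold MUX.nI
    exact Nat.card_unique
  have hcop : IsCoprime (MUX.sp ((MUX.nI (R.b R.i0) : ℕ) : OO A B)) g := by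
    rw [hn1, Nat.cast_one, MUX.sp, Ideal.span_singleton_one, ← Ideal.one_eq_top]
    exact isCoprime_one_left
  have hEI : ∀ e' ∈ ECK e, IsEI g e' := by
    rintro e' ⟨σ, -, rfl⟩
    exact Gdt.ei_conj he.toIsEI σ
  have hEr : ∀ e' ∈ ECK e, ∀ x, e' x ≠ 0 → e' x ^ r = 1 := by
    rintro e' ⟨σ, -, rfl⟩ x hx
    show σ (e x) ^ r = 1
    have hx' : e x ≠ 0 := by
      intro h0
      apply hx
      show σ (e x) = 0
      rw [h0, map_zero]
    rw [← map_pow, her x hx', map_one]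
  have hEG : ∀ e' ∈ ECK e, ∀ x y : OO A B, ((n : ℕ) : OO A B) ∣ x - y → e' x = e' y := by
    rintro e' he' x y ⟨z, hz⟩
    apply (hEI e' he').per
    rw [hz]
    exact Ideal.mul_mem_right _ _ hpf
  have hb : R.b R.i0 ≠ ⊥ := (R.nl R.i0).b_ne
  have hNd' : -(B ^ 2 + 4 * A) * ((n : ℕ) : ℤ) ^ 2 ∣ (N' : ℤ) := by
    have : -(B ^ 2 + 4 * A) * ((n : ℕ) : ℤ) ^ 2 = absD A B * n ^ 2 := by
      unfold absD
      push_cast
      ring
    rw [this]
    exact hNd
  have hF : ∀ e' ∈ ECK e, _ := fun e' he' =>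
    (Pool.Agent.MUXT.main_FTI A B hQ.hB hQ.neg (R.b R.i0) hb e' n (Nat.pos_of_ne_zero hn0)
      (hEI e' he').mul (hEG e' he') (hEI e' he').neg).2 N' hN hNd'
  have hDN : absD A B ∣ (N' : ℤ) := dvd_trans (Dvd.intro _ rfl) hNd
  have hGN : ((n : ℕ) : ℤ) ∣ (N' : ℤ) := by
    refine dvd_trans ?_ hNd
    exact ⟨absD A B * n, by push_cast; ring⟩
  have hnu : ∀ e' ∈ ECK e, ∀ d : ℤ, (N' : ℤ) ∣ d - 1 →
      (MUXT.chiQ A B d : ℂ) * e' (d : OO A B) = 1 := by
    intro e' he' d hd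
    have h10 : MUXF.chiQ A B d = 1 := by
      have := (Pool.Agent.MUXF.xf_CHI A B (cqF hQ) 1 isCoprime_one_left).2.2 d (by
        rw [← dvd_neg, neg_sub]
        exact dvd_trans hDN hd)
      rw [this, Gdt.chiQ_one]
    have h11 : e' (d : OO A B) = 1 := by
      rw [← (hEI e' he').one]
      apply (hEI e' he').per
      obtain ⟨t, ht⟩ := dvd_trans hGN hd
      have h12 : (d : OO A B) - 1 = ((n : ℕ) : OO A B) * (t : OO A B) := by
        have := congrArg (fun z : ℤ => (z : OO A B)) ht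
        push_cast at this
        push_cast
        exact this
      rw [h12]
      exact Ideal.mul_mem_right _ _ hpf
    have h13 : MUXT.chiQ A B d = 1 := h10
    rw [h13, h11]
    norm_num
  have hS : ∀ (e' : OO A B → ℂ), e' ∈ ECK e →
      SymN N' (PhiI (R.b R.i0) e') (thetaIntI (R.b R.i0) e') := by
    intro e' he'
    refine
      { pos := Nat.pos_of_ne_zero hN
        add := ?_
        inv := ?_
        per := ?_
        cusp := ?_ }
    · intro x y z
      unfold PhiI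
      ring
    · intro a b c d hdet hc hd x y
      have := (hF e' he').1.equiv a b c d hdet hc x y
      rw [hnu e' he' d hd, one_mul] at this
      exact this
    · intro a b c d hdet hc hd τ hτ
      have := ((hF e' he').2.1 a b c d hdet hc τ hτ).2
      rw [hnu e' he' d hd, one_mul] at this
      exact this
    · intro a b c d hdet
      obtain ⟨w, hw⟩ := (hF e' he').2.2 a b c d hdet
      exact ⟨_, w, hw⟩
  have hST : ∀ j : ECK e × Fin q, SymN (q ^ 2 * N') (PsE q R e j) (ThE q R e j) := fun j =>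
    TrQ.tr (hS j.1 j.1.2) q hq ((j.2 : ℕ) : ℤ)
  have ho : R.om R.i0 ≠ 0 := (R.nl R.i0).om_ne
  refine
    { pos := Nat.mul_pos (by positivity) (Nat.pos_of_ne_zero hN)
      add := fun j => (hST j).add
      inv := fun j => (hST j).inv
      per := fun j => (hST j).per
      cusp := fun j => (hST j).cusp
      qexp := ?_
      rat := ?_
      alg := ?_ }
  · intro j
    obtain ⟨α, k1, k2, k3, k4, -⟩ := qexpE hE q hq R hn0 e he r hr her j
    exact ⟨α, k1, k2, k3, k4⟩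
  · intro σ hσ
    rintro ⟨⟨e', he'⟩, t⟩
    obtain ⟨C, hC0, hC⟩ := conE hE hT (R.nl R.i0) (hEI e' he') hgt hn0 hpf hcop hσ
    obtain ⟨τ, hτ1, hτ⟩ := he'
    subst hτ
    refine ⟨⟨⟨fun x => σ (τ (e x)), ⟨τ.trans σ, ?_, rfl⟩⟩, t⟩, C * u / σ u, fun x y => ?_⟩
    · show σ (τ _) = _
      rw [hτ1, hσ]
    have hσu : σ u ≠ 0 := (map_ne_zero σ).2 hu
    have e1 : PsE q R e (⟨fun x => τ (e x), ⟨τ, hτ1, rfl⟩⟩, t) x y / (u * R.om R.i0) =
        PhiI (R.b R.i0) (fun x => τ (e x)) (mob q (t : ℕ) 0 q x) (mob q (t : ℕ) 0 q y) /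
          R.om R.i0 / u := by
      unfold PsE
      rw [div_div, mul_comm u]
    rw [e1, map_div₀, hC]
    unfold PsE
    field_simp
  · rintro ⟨⟨e', he'⟩, t⟩ x y
    have h9 := ME2.algE hE hT (R.nl R.i0) (hEI e' he') hgt hn0 hpf hcop hr (hEr e' he')
      (mob q (t : ℕ) 0 q x) (mob q (t : ℕ) 0 q y)
    have e1 : PsE q R e (⟨e', he'⟩, t) x y / (u * R.om R.i0) =
        PhiI (R.b R.i0) e' (mob q (t : ℕ) 0 q x) (mob q (t : ℕ) 0 q y) / R.om R.i0 * u⁻¹ := by
      unfold PsE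
      field_simp
    rw [e1]
    exact h9.mul hua.inv

/-- the data for Theorem G+ at `p = 2`, for `g = (n)`, `n` even -/
theorem gdatEE (hE : CaseE A B) (hT : TorXE A B) {q : ℕ} (hq : 0 < q) (hn : 2 ≤ n) (hn2 : 2 ∣ n)
    (R : RepsE A B n ι) (e : OO A B → ℂ) (he : IsEIE (idl n) e) (r : ℕ) (hr : r ≠ 0)
    (her : ∀ x, e x ≠ 0 → e x ^ r = 1) (u : ℂ) (hu : u ≠ 0) (hua : IsAlgebraic ℚ u) (N' : ℕ)
    (hN : N' ≠ 0) (hNd : absD A B * (n : ℤ) ^ 2 ∣ (N' : ℤ)) :
    GDatE A B (ECK e × Fin q) (PsE q R e) (ThE q R e) (a1E A B q e) (u * R.om R.i0)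
      (q ^ 2 * N') := by
  refine
    { toGDatN := gdatQE hE hT hq hn R e he r hr her u hu hua N' hN hNd
      qe := fun j => ?_ }
  obtain ⟨α, k1, k2, k3, k4, k5⟩ := qexpE hE q hq R (by omega) e he r hr her j
  refine ⟨α, k1, k2, k3, k4, fun m hm => ?_⟩
  apply k5
  intro x hx
  by_contra h10
  refine nm_odd hn2 ((he.supp x).1 h10) ?_
  rw [hx]
  obtain ⟨k, hk⟩ := hm
  exact ⟨(k : ℤ), by rw [hk]; push_cast; ring⟩

end

end Pool.Agent.MEG
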