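import Pool.Agent.ME.R_RFIN
import Pool.Agent.ME.DefsE2

/-!
# ME, block R (helper58): `Sn_RFIN_E` (`D = -4`) and `Sq_RFIN_E` (`D = -3`), without hypotheses
-/

set_option autoImplicit false

open Polynomial NumberField IsDedekindDomain

namespace Pool.Agent.MER

open _root_.MU3 Pool.Agent.MU3A Pool.Agent.MU3B Pool.Agent.MUX Pool.Agent.MUXU Pool.Agent.RI
open Pool.Agent.ME Pool.Agent.MEC
open Pool.Agent.NS (xu yu GoodN)
open Pool.Agent.NSRD (GoodR)
open Pool.Agent.NSR (Leg WL)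
open Pool.Agent.MUXV (GR InK tX)

noncomputable section

/-- (RFIN) for `D = -4` -/
theorem rfinE4 : Pool.Agent.NS.Sn_RFIN_E := by
  intro A B V h hV T
  obtain ⟨h1, h2⟩ := rfin4 A B V h.toCaseE h.eB hV T
  exact ⟨h1, fun f hf h3 h22 σ hσ hin => h2 f hf h22 h3 σ hσ hin⟩

/-- (RFIN) for `D = -3` -/
theorem rfinE3 : Pool.Agent.NSRD.Sq_RFIN_E := by
  intro A B P V h4 hP hV T
  have h := h4.toCaseE
  have hB := h4.eB
  have hC := h.toCQ
  refine ⟨?_, fun f hf h3 h22 σ hσ hin =>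
    (rfin3 A B P V h hB hP hV T).2 f hf h22 h3 σ hσ hin⟩
  have hemb := (Pool.Agent.MUXV.q_VQI A B hC.toF V).1
  have hw := w_sq h
  have v1w : V.valuation (1 - wC A B) ≤ 1 := by
    have h1 := hemb (1 - (⟨0, 1⟩ : OO A B))
    rwa [Pool.Agent.MUX.emb_sub hC, Pool.Agent.MUX.emb_one hC, Pool.Agent.MUX.emb_w] at h1
  have vw : V.valuation (wC A B) ≤ 1 := by
    have h1 := hemb (⟨0, 1⟩ : OO A B)
    rwa [Pool.Agent.MUX.emb_w] at h1
  have vw1 : V.valuation (wC A B) = 1 := by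
    have e : (1 - wC A B) * wC A B = 1 := by
      have := w_inv h
      rw [hB] at this ⊢
      exact_mod_cast this
    have h3 := congrArg V.valuation e
    rw [map_mul, map_one] at h3
    refine le_antisymm vw ?_
    rw [← h3]
    exact mul_le_of_le_one_left' v1w
  have hl2 : V.valuation (1 + (1 - wC A B)) ^ 2 ≤ V.valuation (3 : ℂ) := by
    have e1 : (1 + (1 - wC A B)) ^ 2 = 3 * (1 - wC A B) := by
      rw [hB] at hw ⊢
      push_cast at hw
      linear_combination hw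
    rw [← map_pow, e1, map_mul]
    exact mul_le_of_le_one_right' v1w
  have hwk : wC A B ∈ kk A B := wC_mem A B
  obtain ⟨u, hu⟩ := IsAlgClosed.exists_pow_nat_eq (1 + wC A B) (n := 2) (by norm_num)
  have e4 : u ^ 4 = 3 * wC A B := by
    have : u ^ 4 = (u ^ 2) ^ 2 := by ring
    rw [this, hu]
    rw [hB] at hw ⊢
    push_cast at hw
    linear_combination hw
  have hu0 : u ≠ 0 := by
    rintro rfl
    rw [zero_pow (by norm_num)] at e4
    exact mul_ne_zero (by norm_num) (w_ne h) e4.symm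
  intro b L om hL
  refine ⟨u, -1, 1 - wC A B, ⟨hu0, (leg3 h hB hL.nrm hu hu0).eq, hl2⟩, ?_, ?_,
      neg_mem (one_mem _), sub_mem (one_mem _) hwk⟩
  · rw [← map_pow, e4, map_mul, vw1, mul_one]
  · rw [hu]
    exact add_mem (one_mem _) hwk

end

end Pool.Agent.MER
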