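import Pool.Agent.ME.StTE
import Pool.Agent.ME.E4All
import Pool.Agent.ME.R_ALL
import Pool.Agent.ME2.T_TYF3
import Pool.Agent.N2.T3_UNF

/-!
# ME, block T, `D = -4`, `p = 3` (helper4): the result `Sn_TYF_E`

`σ` in the inertia group at `V` of a large Galois extension `F / k` is trivial on `RFE (m')`, `m'` even and prime to `3` (`rfinE4`), so it acts on the points of level `m = 3^(j+1) m'` of
`L_0` as `d c`, `d = ± 1`, `c ≡ 1` modulo `m'` (`actE`, `cong_pm`). `σ u = d u` (`sgu`), `σ tau = w(c) tau`, `v(tau)^8 = v 3` (`tauE`), `e(d c) σ(P/om) = P/om` (`valE`), so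
`e(c) σ(P/(u om)) = P/(u om)` and `tau^i P/(u om)` is fixed by the inertia group.
-/

set_option autoImplicit false

namespace Pool.Agent.MET

open _root_.MU3 Pool.Agent.MU3A Pool.Agent.MU3B Pool.Agent.RI Pool.Agent.MUX Pool.Agent.MUXU
open OnePoint Pool.Agent.NS Pool.Agent.ME2
open Pool.Agent.ME hiding ActE
open Pool.Agent.ME4 (CtxN4)
open Pool.Agent.MUXV (GR InK)
open Pool.Agent.NSE (E3 su ru)
open Pool.Agent.MUXY (ActN Dn)
open Pool.Agent.NST (KIn nt_GLC)
open Pool.Agent.NST.TYF (dn_mono idl_ne_bot)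

noncomputable section

variable {A B : ℤ} {L : PeriodPair} {om : ℂ} {b : Ideal (OO A B)} {V : ValuationSubring ℂ}

/-! ### Algebraic numbers -/

/-- `u²`, `e`, `lam` are in `RFE (2)` -/
theorem ueE (hC : CQ A B) (hL : IsNE b L om) {u e lam : ℂ} (hG : GoodN V L u e lam)
    (h3 : V.valuation (3 : ℂ) < 1) :
    u ^ 2 ∈ RFE (idl (A := A) (B := B) 2) ∧ e ∈ RFE (idl (A := A) (B := B) 2) := by
  obtain ⟨w₁, w₂, hw1', hw1, hw2', hw2, he, hu, -⟩ := NSE.e_LEG V L u e lam hG h3
  have m1 := wp_mem (n := 2) hC hL hw1 (by push_cast; exact hw1')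
  have m2 := wp_mem (n := 2) hC hL hw2 (by push_cast; exact hw2')
  refine ⟨?_, ?_⟩
  · rw [← hu]; exact sub_mem m2 m1
  · rw [← he]; exact m1

/-- the coordinates of torsion points are algebraic -/
theorem coordE (hC : CQ A B) (T : TorXE A B) (hL : IsNE b L om) {u e : ℂ}
    (hua : IsAlgebraic ℚ (u ^ 2)) (hea : IsAlgebraic ℚ e) :
    ∀ N : ℕ, N ≠ 0 → ∀ z, z ∉ L.lattice → (N : ℂ) * z ∈ L.lattice →
      IsAlgebraic ℚ (xu L u e z) ∧ IsAlgebraic ℚ (yu L u z) ∧ IsAlgebraic ℚ (ru L u e z) := by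
  intro N hN z hz hz'
  have hu1 : IsAlgebraic ℚ u := IsAlgebraic.of_pow two_pos hua
  have hP : IsAlgebraic ℚ (L.weierstrassP z) := alg_RFE hC T hN (wp_mem hC hL hz hz')
  have h4 : IsAlgebraic ℚ (4 : ℂ) := by simpa using NST.ALT.alg_num 4
  have h0 : IsAlgebraic ℚ (0 : ℂ) := isAlgebraic_zero
  have hg2 : IsAlgebraic ℚ L.g₂ := by
    rw [hL.nrm.g2]
    unfold g2E
    split_ifs
    · exact h4
    · exact h0
  have hg3 : IsAlgebraic ℚ L.g₃ := by
    rw [hL.nrm.g3]
    unfold g3E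
    split_ifs
    · exact h0
    · exact h4.neg
  have hD : IsAlgebraic ℚ (L.derivWeierstrassP z) := by
    apply IsAlgebraic.of_pow two_pos
    rw [L.derivWeierstrassP_sq z hz]
    exact ((h4.mul (hP.pow 3)).sub (hg2.mul hP)).sub hg3
  have hx : IsAlgebraic ℚ (xu L u e z) := by
    unfold xu
    rw [div_eq_mul_inv]
    exact (hP.sub hea).mul hua.inv
  have hy : IsAlgebraic ℚ (yu L u z) := by
    unfold yu
    rw [div_eq_mul_inv]
    have h2 : IsAlgebraic ℚ (2 : ℂ) := by simpa using NST.ALT.alg_num 2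
    exact hD.mul (h2.mul (hu1.pow 3)).inv
  refine ⟨hx, hy, ?_⟩
  unfold ru
  rw [div_eq_mul_inv]
  exact hy.neg.mul (hx.pow 2).inv

/-! ### The action of an automorphism -/

/-- conjugation of the coordinates -/
theorem tcj {m : ℕ} {a : Ideal (OO A B)} {σ : ℂ ≃+* ℂ} {c : OO A B} {d : ℤ}
    (hd : d = 1 ∨ d = -1) (hA : ActN σ m a L L (d * emb c)) {u e : ℂ}
    (hu : σ u = d * u) (he : σ e = e) {z : ℂ} (hmz : (m : ℂ) * z ∈ L.lattice)
    (hz : z ∉ L.lattice) :
    emb c * z ∉ L.lattice ∧ σ (xu L u e z) = xu L u e (emb c * z) ∧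
      σ (yu L u z) = yu L u (emb c * z) ∧ σ (ru L u e z) = ru L u e (emb c * z) := by
  obtain ⟨h1, h2, h3⟩ := hA.act z hmz hz
  have key : emb c * z ∉ L.lattice ∧ L.weierstrassP (emb c * z) = σ (L.weierstrassP z) ∧
      L.derivWeierstrassP (emb c * z) = d * σ (L.derivWeierstrassP z) := by
    rcases hd with hd | hd
    · rw [hd] at h1 h2 h3 ⊢
      rw [Int.cast_one, one_mul] at h1 h2 h3
      refine ⟨h1, h2, ?_⟩
      rw [h3, Int.cast_one, one_mul]
    · rw [hd] at h1 h2 h3 ⊢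
      have e1 : (((-1 : ℤ) : ℂ) * emb c) * z = -(emb c * z) := by push_cast; ring
      rw [e1] at h1 h2 h3
      rw [L.weierstrassP_neg] at h2
      rw [L.derivWeierstrassP_neg] at h3
      refine ⟨fun h => h1 (neg_mem h), h2, ?_⟩
      rw [← h3]
      push_cast
      ring
  obtain ⟨k1, k2, k3⟩ := key
  have hdd : ((d : ℤ) : ℂ) ^ 2 = 1 := by
    rcases hd with hd | hd <;> rw [hd] <;> norm_num
  have hd0 : ((d : ℤ) : ℂ) ≠ 0 := by
    intro h
    rw [h] at hdd
    norm_num at hdd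
  have hx : σ (xu L u e z) = xu L u e (emb c * z) := by
    unfold xu
    rw [k2, map_div₀, map_sub, map_pow, hu, he, mul_pow, hdd, one_mul]
  have hy : σ (yu L u z) = yu L u (emb c * z) := by
    unfold yu
    rw [k3, map_div₀, map_mul, map_pow, hu, map_ofNat]
    have e2 : 2 * ((d : ℂ) * u) ^ 3 = (d : ℂ) ^ 2 * (d * (2 * u ^ 3)) := by ring
    have e3 : (d : ℂ) * σ (L.derivWeierstrassP z) / (2 * u ^ 3) =
        (d : ℂ) ^ 2 * σ (L.derivWeierstrassP z) / (d * (2 * u ^ 3)) := by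
      field_simp
    rw [e2, e3, hdd, one_mul, one_mul]
  refine ⟨k1, hx, hy, ?_⟩
  unfold ru
  rw [map_div₀, map_neg, map_pow, hx, hy]

/-- the sign `d` -/
theorem sgu (hC : CQ A B) (h3 : V.valuation (3 : ℂ) < 1)
    (hL : IsLI (⊤ : Ideal (OO A B)) L om) {u e lam : ℂ} (hGd : GoodN V L u e lam) {m m' : ℕ}
    (hm3' : 3 ≤ m') (hm3 : ¬ 3 ∣ m') (hmm : m' ∣ m) {a : Ideal (OO A B)} {σ : ℂ ≃+* ℂ}
    {c : OO A B} {d : ℤ} (hcm : c - 1 ∈ idl (A := A) (B := B) m') (hd : d = 1 ∨ d = -1)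
    (hAct : ActN σ m a L L (d * emb c)) (hσu : σ (u ^ 2) = u ^ 2)
    (hlast : V.valuation (yu L u (om / m')) ≤ 1 →
      V.valuation (σ (yu L u (om / m')) - yu L u (om / m')) < 1) : σ u = d * u := by
  have hmem : ∀ z : ℂ, z ∈ L.lattice ↔ ∃ x : OO A B, z = om * emb x := by
    intro z
    rw [hL.mem]
    exact ⟨fun ⟨x, _, hx⟩ => ⟨x, hx⟩, fun ⟨x, hx⟩ => ⟨x, trivial, hx⟩⟩
  have hm0 : m' ≠ 0 := by omega
  have hom0 : om ≠ 0 := hL.om_ne
  have hmC : (m' : ℂ) ≠ 0 := Nat.cast_ne_zero.2 hm0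
  obtain ⟨ξ, G⟩ := NSE.e_GRN V L u e lam hGd h3
  obtain ⟨hT1, -⟩ := NSE.e_TPN V L u e lam hGd h3
  obtain ⟨-, hT2⟩ := hT1 m' hm3
  set z : ℂ := om / m' with hz
  have hmz : (m' : ℂ) * z = om := by rw [hz]; field_simp
  have homL : om ∈ L.lattice := (hmem om).2 ⟨1, by rw [Pool.Agent.MUX.emb_one hC, mul_one]⟩
  have hzz : z + z ∉ L.lattice := by
    intro h
    obtain ⟨x, hx⟩ := (hmem _).1 h
    have h1 : (m' : ℂ) * emb x = 2 := by
      have h2 : om * ((m' : ℂ) * emb x) = om * 2 := by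
        linear_combination (-(m' : ℂ)) * hx + 2 * hmz
      exact mul_left_cancel₀ hom0 h2
    have h2 : ((m' : ℕ) : OO A B) * x = ((2 : ℕ) : OO A B) := by
      apply Pool.Agent.MUX.emb_inj hC
      rw [Pool.Agent.MUX.emb_mul hC, Pool.Agent.MUX.emb_natCast hC,
        Pool.Agent.MUX.emb_natCast hC, h1]
      norm_num
    have h4 := congrArg nm h2
    rw [Pool.Agent.MUX.nm_mul hC] at h4
    have h5 := Pool.Agent.MUX.nm_intCast (A := A) (B := B) (m' : ℤ)
    have h6 := Pool.Agent.MUX.nm_intCast (A := A) (B := B) (2 : ℤ)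
    rw [Int.cast_natCast] at h5
    have h7 : ((2 : ℤ) : OO A B) = ((2 : ℕ) : OO A B) := by push_cast; rfl
    rw [h7] at h6
    rw [h5, h6] at h4
    have h8 : ((m' : ℤ) ^ 2) ∣ 2 ^ 2 := ⟨_, h4.symm⟩
    have h9 := Int.le_of_dvd (by norm_num) h8
    have h10 : (3 : ℤ) ≤ m' := by exact_mod_cast hm3'
    nlinarith
  have hzL : z ∉ L.lattice := fun h => hzz (add_mem h h)
  have hzK : ¬ InK V L (xu L u e) z := fun h => hzL (hT2 z (by rw [hmz]; exact homL) h)
  have hzzK : ¬ InK V L (xu L u e) (z + z) := fun h => hzz (hT2 (z + z) (by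
    rw [mul_add, hmz]
    exact add_mem homL homL) h)
  -- `v (yu z) = 1`
  have hy1 : V.valuation (yu L u z) = 1 := by
    obtain ⟨hns, hxi⟩ := G.some z hzL
    have e1 := (Pool.Agent.MUXV.inE_iff G z).not.2 hzK
    have e2 := (Pool.Agent.MUXV.inE_iff G (z + z)).not.2 hzzK
    rw [map_add, hxi] at e2
    rw [hxi] at e1
    exact Pool.Agent.MU3.Val.v_y_unit G.int G.two G.disc hns e1 e2
  -- the action
  have hmzL : (m : ℂ) * z ∈ L.lattice := by
    obtain ⟨k, rfl⟩ := hmm
    have h1 : ((m' * k : ℕ) : ℂ) * z = (k : ℕ) * om := by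
      rw [← hmz]; push_cast; ring
    rw [h1, ← nsmul_eq_mul]
    exact nsmul_mem homL _
  obtain ⟨-, -, hP'⟩ := hAct.act z hmzL hzL
  have hcz : emb c * z - z ∈ L.lattice := by
    obtain ⟨y, hy⟩ := Ideal.mem_span_singleton'.1 hcm
    refine (hmem _).2 ⟨y, ?_⟩
    have h1 : emb c - 1 = emb y * m' := by
      have h2 := congrArg emb hy
      rw [Pool.Agent.MUX.emb_mul hC, Pool.Agent.MUX.emb_natCast hC, Pool.Agent.MUX.emb_sub hC,
        Pool.Agent.MUX.emb_one hC] at h2
      exact h2.symm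
    have h2 : emb c * z - z = (emb c - 1) * z := by ring
    rw [h2, h1, mul_assoc, hmz, mul_comm]
  have hder : σ (L.derivWeierstrassP z) = d * L.derivWeierstrassP z := by
    rw [← hP']
    rcases hd with hd | hd
    · rw [hd]
      push_cast
      rw [one_mul, one_mul]
      exact NST.SGU.der_congr L hcz
    · rw [hd]
      push_cast
      have h1 : -1 * emb c * z = -(emb c * z) := by ring
      rw [h1, L.derivWeierstrassP_neg, NST.SGU.der_congr L hcz]
      ring
  have hu0 := hGd.u0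
  have hd2 : (d : ℂ) * d = 1 := by
    rcases hd with hd | hd <;> rw [hd] <;> norm_num
  have hs : σ u = d * u ∨ σ u = -(d * u) := by
    have h1 : (σ u) ^ 2 = (d * u) ^ 2 := by
      rw [← map_pow, hσu]
      linear_combination (-(u ^ 2)) * hd2
    exact sq_eq_sq_iff_eq_or_eq_neg.1 h1
  rcases hs with hs | hs
  · exact hs
  · exfalso
    have hσy : σ (yu L u z) = -yu L u z := by
      unfold yu
      rw [map_div₀, map_mul, map_pow, hs, hder, map_ofNat]
      have hd0 : (d : ℂ) ≠ 0 := fun h0 => by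
        rw [h0, zero_mul] at hd2
        exact zero_ne_one hd2
      rw [div_eq_iff (by
        refine mul_ne_zero two_ne_zero (pow_ne_zero _ ?_)
        exact neg_ne_zero.2 (mul_ne_zero hd0 hu0))]
      have h5 : (d : ℂ) ^ 3 = d := by linear_combination (d : ℂ) * hd2
      have h6 : (2 : ℂ) * (-(d * u)) ^ 3 = -(d * (2 * u ^ 3)) := by
        linear_combination (-2 * u ^ 3) * h5
      rw [h6]
      field_simp
    have h1 := hlast hy1.le
    rw [hσy] at h1
    have h2 : -yu L u z - yu L u z = -(2 * yu L u z) := by ring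
    rw [h2, Valuation.map_neg, map_mul, hy1, G.two, one_mul] at h1
    exact lt_irrefl _ h1

/-! ### The number `tau` -/

open Pool.Agent.NST.TRC in
theorem trc (hC : CtxN4 A B V) (hL : IsLI b L om) {u e lam : ℂ} (hG : GoodN V L u e lam) :
    (∀ Y ∈ E3 L, V.valuation (ru L u e Y) ^ 8 = V.valuation (3 : ℂ)) ∧
    ∀ x : OO A B, x ∉ idl (A := A) (B := B) 3 → ∀ Y ∈ E3 L,
      emb x * Y ∈ E3 L ∧
      V.valuation (ru L u e (emb x * Y) - emb x * ru L u e Y) < V.valuation (ru L u e Y) := by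
  have hcq := hC.cq
  obtain ⟨hpts, -⟩ := NSE.e_PTS V L u e lam hG hC.v3
  refine ⟨fun Y hY => ?_, fun x hx => ?_⟩
  · have h1 := (pts_val hpts hY).2.2
    calc V.valuation (ru L u e Y) ^ 8 = (V.valuation (ru L u e Y) ^ 2) ^ 4 := by rw [← pow_mul]
      _ = V.valuation (3 : ℂ) := by rw [h1, hpts.vs Y hY]
  · have hx0 : x ≠ 0 := by
      rintro rfl
      exact hx (Ideal.zero_mem _)
    have hcm := IsLI.hasCM hcq hL
    have hN : ¬ 3 ∣ (nm x).natAbs := by
      intro h3
      exact hC.nrm x hx (Int.natCast_dvd.2 h3)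
    have hmem : ∀ z, emb x * z ∈ L.lattice → (((nm x).natAbs : ℕ) : ℂ) * z ∈ L.lattice := by
      intro z hz
      have h1 := hcm (star x) _ hz
      have h2 : emb (star x) * (emb x * z) = ((nm x : ℤ) : ℂ) * z := by
        rw [emb_star, emb_nm hcq]
        ring
      have h3 : (((nm x).natAbs : ℕ) : ℂ) = ((nm x : ℤ) : ℂ) := by
        have h4 : (((nm x).natAbs : ℕ) : ℤ) = nm x := Int.natAbs_of_nonneg (nm_nonneg hcq x)
        calc (((nm x).natAbs : ℕ) : ℂ) = ((((nm x).natAbs : ℕ) : ℤ) : ℂ) := (Int.cast_natCast _).symm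
          _ = ((nm x : ℤ) : ℂ) := by rw [h4]
      rw [h2] at h1
      rw [h3]
      exact h1
    obtain ⟨hE, -, P, Q, hPi, hQi, hF, hP0, hQ0⟩ := NSE.e_ISO V L L u e lam u e lam (emb x) _ hG hG
      hC.v3 (emb_ne_zero hcq hx0) (fun w hw => hcm x w hw) hN hmem
    have hu : emb x * u / u = emb x := mul_div_cancel_right₀ _ hG.u0
    rw [hu] at hQ0
    rw [sub_zero] at hP0
    intro Y hY
    refine ⟨hE Y hY, ?_⟩
    obtain ⟨hs, h3, hr⟩ := pts_val hpts hY
    have hr1 : V.valuation (ru L u e Y) < 1 := by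
      by_contra hc
      have h5 : 1 ≤ V.valuation (ru L u e Y) ^ 2 := one_le_pow_of_one_le' (not_lt.1 hc) 2
      rw [hr] at h5
      exact absurd hs (not_lt.2 h5)
    have hr0 : V.valuation (ru L u e Y) ≠ 0 := by
      intro h0
      rw [h0, zero_pow two_ne_zero] at hr
      rw [← hr] at h3
      have h6 : V.valuation (3 : ℂ) = 0 := le_antisymm h3 zero_le
      exact (by norm_num : (3 : ℂ) ≠ 0) ((map_eq_zero V.valuation).1 h6)
    have hpos : 0 < V.valuation (ru L u e Y) := zero_lt_iff.2 hr0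
    have hFY : ru L u e (emb x * Y) = P.eval (su L u e Y) + ru L u e Y * Q.eval (su L u e Y) :=
      hF Y hY
    rw [hFY]
    have he : P.eval (su L u e Y) + ru L u e Y * Q.eval (su L u e Y) - emb x * ru L u e Y =
        P.eval (su L u e Y) + ru L u e Y * (Q.eval (su L u e Y) - emb x) := by ring
    rw [he]
    refine Valuation.map_add_lt _ ?_ ?_
    · have h5 : V.valuation (P.eval (su L u e Y)) ≤ V.valuation (su L u e Y) := by
        have h6 : P.eval (su L u e Y) = (P.eval (su L u e Y) - P.coeff 0) + P.coeff 0 := by ring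
        rw [h6]
        exact Valuation.map_add_le _ (eval_sub_le hPi hs.le) (hP0.trans h3)
      refine lt_of_le_of_lt h5 ?_
      rw [← hr, pow_two]
      exact mul_lt_of_lt_one_right hpos hr1
    · have h5 : V.valuation (Q.eval (su L u e Y) - emb x) ≤ V.valuation (su L u e Y) := by
        have h6 : Q.eval (su L u e Y) - emb x =
          (Q.eval (su L u e Y) - Q.coeff 0) + (Q.coeff 0 - emb x) := by ring
        rw [h6]
        exact Valuation.map_add_le _ (eval_sub_le hQi hs.le) (hQ0.trans h3)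
      rw [map_mul]
      exact mul_lt_of_lt_one_right hpos (lt_of_le_of_lt h5 hs)

open Pool.Agent.NST.TAU in
theorem tauE (hctx : CtxN4 A B V) (hTor : TorXE A B) (hNL : IsNE (⊤ : Ideal (OO A B)) L om)
    {u e lam : ℂ} (hg : GoodN V L u e lam) {w : OO A B → ℂ} (hw : IsTei V w) :
    ∃ tau : ℂ, V.valuation tau ^ 8 = V.valuation (3 : ℂ) ∧ IsAlgebraic ℚ tau ∧
      ∀ (m : ℕ), 3 ∣ m → ∀ (a : Ideal (OO A B)) (σ : ℂ ≃+* ℂ) (c : OO A B) (d : ℤ),
        (d = 1 ∨ d = -1) → ActN σ m a L L (d * emb c) →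
        c ∉ idl (A := A) (B := B) 3 → σ u = d * u → σ e = e → (∀ x, σ (w x) = w x) →
        σ tau = w c * tau := by
  classical
  have hcq := hctx.cq
  have hli : IsLI (⊤ : Ideal (OO A B)) L om := hNL.toIsLI
  have hmem : ∀ z : ℂ, z ∈ L.lattice ↔ ∃ x : OO A B, z = om * emb x := by
    intro z
    rw [hli.mem z]
    simp
  have hom0 : om ≠ 0 := hli.om_ne
  -- facts on the points of order three
  obtain ⟨hr8, hrx⟩ := trc hctx hli hg
  obtain ⟨-, hper⟩ := NSE.e_PTS V L u e lam hg hctx.v3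
  have hone : (1 : OO A B) ∉ idl (A := A) (B := B) 3 := fun h =>
    hctx.max.ne_top ((Ideal.eq_top_iff_one _).2 h)
  have hY0 : om / 3 ∈ E3 L := by
    refine ⟨?_, ?_⟩
    · rw [hmem]
      exact ⟨1, by rw [emb_one hcq]; field_simp⟩
    · intro hc
      obtain ⟨x, hx⟩ := (hmem _).1 hc
      apply hone
      rw [cast3]
      refine ⟨x, ?_⟩
      apply emb_inj hcq
      have e3 : emb (3 : OO A B) = 3 := by
        have := emb_natCast hcq 3
        simpa using this
      rw [emb_one hcq, emb_mul hcq, e3]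
      have h5 : om * (3 * emb x) = om * 1 := by
        linear_combination (-3) * hx
      exact (mul_left_cancel₀ hom0 h5).symm
  set Y := om / 3 with hY
  set ρ := ru L u e Y with hρ
  have hv3 : V.valuation (3 : ℂ) ≠ 0 := by
    rw [Ne, map_eq_zero]
    norm_num
  have hρ8 : V.valuation ρ ^ 8 = V.valuation (3 : ℂ) := hr8 Y hY0
  have hρ0 : V.valuation ρ ≠ 0 := by
    intro h0
    rw [h0, zero_pow (by norm_num)] at hρ8
    exact hv3 hρ8.symm
  have hρpos : 0 < V.valuation ρ := zero_lt_iff.2 hρ0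
  have hw0 : ∀ x, x ∉ idl (A := A) (B := B) 3 → w x ≠ 0 := by
    intro x hx h0
    have h5 := hw.pow x hx
    rw [h0, zero_pow (by norm_num)] at h5
    exact zero_ne_one h5
  have hwv : ∀ x, x ∉ idl (A := A) (B := B) 3 → V.valuation (w x) = 1 := by
    intro x hx
    have h5 := congrArg V.valuation (hw.pow x hx)
    rw [map_pow, map_one] at h5
    exact (pow_eq_one_iff.1 h5).resolve_right (by norm_num)
  -- the terms are periodic
  have hTper : ∀ x y : OO A B, x - y ∈ idl (A := A) (B := B) 3 →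
      NST.TAU.T w L u e Y x = NST.TAU.T w L u e Y y := by
    intro x y hxy
    have hwxy := hw.per x y hxy
    by_cases hx : x ∈ idl (A := A) (B := B) 3
    · unfold NST.TAU.T
      rw [← hwxy, hw.zero x hx]
      simp
    · unfold NST.TAU.T
      rw [hwxy]
      congr 1
      have hy : y ∉ idl (A := A) (B := B) 3 := by
        intro hy
        apply hx
        have := Ideal.add_mem _ hxy hy
        rwa [sub_add_cancel] at this
      obtain ⟨t, ht⟩ := (cast3 _).1 hxy
      have e3 : emb (3 : OO A B) = 3 := by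
        have := emb_natCast hcq 3
        simpa using this
      have h5 : emb x * Y = emb y * Y + om * emb t := by
        have h6 : emb x - emb y = 3 * emb t := by
          rw [← emb_sub hcq, ht, emb_mul hcq, e3]
        rw [hY]
        linear_combination (om / 3) * h6
      rw [h5]
      exact (hper _ (hrx y hy Y hY0).1 _ ((hmem _).2 ⟨t, rfl⟩)).2.2
  -- the quotient
  have hne : idl (A := A) (B := B) 3 ≠ ⊥ := by
    intro h0
    rw [Ideal.span_singleton_eq_bot] at h0
    exact natCast_ne_zero' hcq (by norm_num) h0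
  have hfin : Finite (OO A B ⧸ idl (A := A) (B := B) 3) := finite_quot hcq hne
  have hfq : Fintype (OO A B ⧸ idl (A := A) (B := B) 3) := Fintype.ofFinite _
  have hcard : Fintype.card (OO A B ⧸ idl (A := A) (B := B) 3) = 9 := by
    rw [← Nat.card_eq_fintype_card]
    exact card9 hcq
  have hout : ∀ q : OO A B ⧸ idl (A := A) (B := B) 3,
      Ideal.Quotient.mk (idl (A := A) (B := B) 3) (Quotient.out q) = q := fun q =>
    Ideal.Quotient.mk_out q
  have hq0 : ∀ q : OO A B ⧸ idl (A := A) (B := B) 3, q ≠ 0 →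
      (Quotient.out q : OO A B) ∉ idl (A := A) (B := B) 3 := by
    intro q hq h0
    apply hq
    rw [← hout q]
    exact Ideal.Quotient.eq_zero_iff_mem.2 h0
  have hT0 : NST.TAU.T w L u e Y (Quotient.out (0 : OO A B ⧸ idl (A := A) (B := B) 3)) = 0 := by
    have h0 : (Quotient.out (0 : OO A B ⧸ idl (A := A) (B := B) 3) : OO A B) ∈
        idl (A := A) (B := B) 3 := by
      rw [← Ideal.Quotient.eq_zero_iff_mem, hout]
    unfold NST.TAU.T
    rw [hw.zero _ h0]
    simp
  refine ⟨∑ q : OO A B ⧸ idl (A := A) (B := B) 3, NST.TAU.T w L u e Y (Quotient.out q), ?_, ?_, ?_⟩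
  · -- the valuation
    have h8 : V.valuation ((8 : ℕ) : ℂ) = 1 := hctx.nat 8 (by norm_num)
    have hsum : ∑ q : OO A B ⧸ idl (A := A) (B := B) 3, NST.TAU.T w L u e Y (Quotient.out q) =
        ((8 : ℕ) : ℂ) * ρ + ∑ q ∈ Finset.univ.erase (0 : OO A B ⧸ idl (A := A) (B := B) 3),
          (NST.TAU.T w L u e Y (Quotient.out q) - ρ) := by
      rw [Finset.sum_sub_distrib, Finset.sum_const, Finset.card_erase_of_mem (Finset.mem_univ _),
        Finset.card_univ, hcard, ← Finset.add_sum_erase _ _ (Finset.mem_univ 0), hT0, nsmul_eq_mul]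
      push_cast
      ring
    have hlt : V.valuation (∑ q ∈ Finset.univ.erase (0 : OO A B ⧸ idl (A := A) (B := B) 3),
        (NST.TAU.T w L u e Y (Quotient.out q) - ρ)) < V.valuation ρ := by
      apply Valuation.map_sum_lt _ hρ0
      intro q hq
      have hq' : (Quotient.out q : OO A B) ∉ idl (A := A) (B := B) 3 :=
        hq0 q (Finset.ne_of_mem_erase hq)
      generalize (Quotient.out q : OO A B) = x at hq'
      have h5 : NST.TAU.T w L u e Y x - ρ = (w x)⁻¹ * (ru L u e (emb x * Y) - emb x * ρ) +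
          (w x)⁻¹ * (-(w x - emb x)) * ρ := by
        unfold NST.TAU.T
        have := hw0 x hq'
        field_simp
        ring
      rw [h5]
      apply Valuation.map_add_lt
      · rw [map_mul, map_inv₀, hwv x hq', inv_one, one_mul]
        exact (hrx x hq' Y hY0).2
      · rw [map_mul, map_mul, map_inv₀, hwv x hq', inv_one, one_mul, Valuation.map_neg]
        calc V.valuation (w x - emb x) * V.valuation ρ
            ≤ V.valuation (3 : ℂ) * V.valuation ρ := by
              gcongr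
              exact hw.cong x
          _ < 1 * V.valuation ρ := by
              exact mul_lt_mul_of_pos_right hctx.v3 hρpos
          _ = V.valuation ρ := one_mul _
    have h9 : V.valuation (((8 : ℕ) : ℂ) * ρ) = V.valuation ρ := by
      rw [map_mul, h8, one_mul]
    rw [hsum, Valuation.map_add_eq_of_lt_left _ (by rw [h9]; exact hlt), h9, hρ8]
  · -- algebraic
    obtain ⟨hua, hea⟩ := ueE hcq hNL hg hctx.v3
    have halg := coordE hcq hTor hNL (u := u) (e := e) (alg_RFE hcq hTor two_ne_zero hua)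
      (alg_RFE hcq hTor two_ne_zero hea)
    rw [isAlgebraic_iff_isIntegral]
    apply IsIntegral.sum
    intro q _
    rw [← isAlgebraic_iff_isIntegral]
    by_cases hq : q = 0
    · rw [hq, hT0]
      exact isAlgebraic_zero
    · have hx := hq0 q hq
      generalize (Quotient.out q : OO A B) = x at hx
      unfold NST.TAU.T
      have hE := (hrx x hx Y hY0).1
      apply IsAlgebraic.mul
      · apply IsAlgebraic.inv
        rw [isAlgebraic_iff_isIntegral]
        apply IsIntegral.of_pow (n := 8) (by norm_num)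
        rw [hw.pow x hx]
        exact isIntegral_one
      · exact (halg 3 (by norm_num) _ hE.2 (by
          push_cast
          exact hE.1)).2.2
  · -- conjugation
    intro m hm a σ c d hd hact hc hσu hσe hσw
    obtain ⟨k, rfl⟩ := hm
    have hc0 := hw0 c hc
    have hterm : ∀ x : OO A B, σ (NST.TAU.T w L u e Y x) = w c * NST.TAU.T w L u e Y (c * x) := by
      intro x
      by_cases hx : x ∈ idl (A := A) (B := B) 3
      · unfold NST.TAU.T
        rw [hw.zero x hx, hw.zero (c * x) (Ideal.mul_mem_left _ c hx)]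
        simp
      · have hE := (hrx x hx Y hY0).1
        have h5 := (tcj hd hact hσu hσe (z := emb x * Y) (by
          have h6 : ((3 * k : ℕ) : ℂ) * (emb x * Y) = (k : ℕ) • (3 * (emb x * Y)) := by
            rw [nsmul_eq_mul]
            push_cast
            ring
          rw [h6]
          exact nsmul_mem hE.1 k) hE.2).2.2.2
        unfold NST.TAU.T
        rw [map_mul, map_inv₀, hσw, h5, hw.mul, emb_mul hcq]
        have := hw0 x hx
        have e6 : emb c * (emb x * Y) = emb c * emb x * Y := by ring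
        rw [e6]
        field_simp
    rw [map_sum]
    simp_rw [hterm]
    rw [← Finset.mul_sum]
    congr 1
    have hprime : (idl (A := A) (B := B) 3).IsPrime := hctx.max.isPrime
    have hdom : IsDomain (OO A B ⧸ idl (A := A) (B := B) 3) := Ideal.Quotient.isDomain _
    set cb := Ideal.Quotient.mk (idl (A := A) (B := B) 3) c with hcb
    have hcb0 : cb ≠ 0 := fun h => hc (Ideal.Quotient.eq_zero_iff_mem.1 h)
    have hbij : Function.Bijective (fun q : OO A B ⧸ idl (A := A) (B := B) 3 => cb * q) := by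
      rw [← Finite.injective_iff_bijective]
      intro a b hab
      exact mul_left_cancel₀ hcb0 hab
    rw [← Function.Bijective.sum_comp hbij (fun q => NST.TAU.T w L u e Y (Quotient.out q))]
    apply Finset.sum_congr rfl
    intro q _
    apply hTper
    rw [← Ideal.Quotient.eq, map_mul, hout, hout]

/-! ### The result -/

theorem tyf4 : Sn_TYF_E := by
  intro A B V f hS hT ι _ R u el lam hG w hw e he r hr her i hi ka hka
  have hE := hS.case
  have hQ : CQ A B := hE.toCQ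
  have hR4 : Pool.Agent.ME4.S4_RFIN := fun A B V hc hB hV hT => by
    obtain ⟨h1, h2⟩ := Pool.Agent.MER.rfinE4 A B V ⟨hc, hB⟩ hV hT
    exact ⟨h1, fun f hf h2f h3f σ hσ hin => h2 f hf h3f h2f σ hσ hin⟩
  have hC : CtxN4 A B V := Pool.Agent.ME4.e4_CTX A B V hE hS.hB hS.hV hT hR4
  have hu0 : u ≠ 0 := hG.u0
  have hr0 : r ≠ 0 := by
    rintro rfl
    exact hr (dvd_zero 3)
  have hD := NST.TYF.absD_ge hQ
  have hf2 : 2 ∣ f := hS.f2
  have hf3 : 3 ≤ f := by
    have h1 := Int.le_of_dvd (by exact_mod_cast Nat.pos_of_ne_zero hS.f0) hS.fD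
    omega
  have h3f : 3 * f ≠ 0 := mul_ne_zero (by norm_num) hS.f0
  have hL := R.nl R.i0
  have hL0 : IsNE (⊤ : Ideal (OO A B)) (R.L R.i0) (R.om R.i0) := by
    have h1 := hL
    rw [R.b0] at h1
    exact h1
  have hom0 : R.om R.i0 ≠ 0 := hL.om_ne
  have hgt : idl (A := A) (B := B) (3 * f) ≠ ⊤ := NST.VAL.idl_ne_top (by omega)
  have hgb : idl (A := A) (B := B) (3 * f) ≠ ⊥ := idl_ne_bot hQ h3f
  have hcopb : IsCoprime (sp ((nI (R.b R.i0) : ℕ) : OO A B))
      (idl (A := A) (B := B) (3 * f)) := NST.VAL.coprime_idl (R.cop R.i0)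
  obtain ⟨hu2, hel⟩ := ueE hQ hL hG hC.v3
  have hua2 := alg_RFE hQ hT two_ne_zero hu2
  have hua : IsAlgebraic ℚ u := IsAlgebraic.of_pow two_pos hua2
  have hea := alg_RFE hQ hT two_ne_zero hel
  -- the values
  obtain ⟨Q, hQdef⟩ : ∃ Q : OnePoint ℚ × OnePoint ℚ → ℂ,
    Q = fun q => PhiI (R.b R.i0) e q.1 q.2 / (u * R.om R.i0) := ⟨_, rfl⟩
  obtain ⟨S, N00, hN00, hSD0, hgen⟩ := fgE hQ hL.b_ne hgb he.toIsEI (u * R.om R.i0)
  have hgen' : ∀ x y, Q (x, y) ∈ AddSubgroup.closure
      (Q '' (S : Set (OnePoint ℚ × OnePoint ℚ))) := by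
    rw [hQdef]
    exact hgen
  obtain ⟨j, N, hN3, hjN⟩ := Nat.exists_eq_pow_mul_and_not_dvd hN00 3 (by norm_num)
  rw [hjN] at hSD0
  have hN0 : N ≠ 0 := by
    rintro rfl
    exact hN3 (dvd_zero 3)
  obtain ⟨tau, htau8, htaua, htau⟩ := tauE hC hT hL0 hG hw
  obtain ⟨m', hm'⟩ : ∃ m', m' = f * N := ⟨_, rfl⟩
  have hm'0 : m' ≠ 0 := by rw [hm']; exact mul_ne_zero hS.f0 hN0
  have hm'3 : ¬ 3 ∣ m' := by
    intro h
    rw [hm'] at h
    rcases (Nat.Prime.dvd_mul Nat.prime_three).1 h with h | h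
    · exact hS.fp h
    · exact hN3 h
  have hm'C : (m' : ℂ) ≠ 0 := by exact_mod_cast hm'0
  have hfm : f ∣ m' := by rw [hm']; exact Dvd.intro _ rfl
  have h3m' : 3 ≤ m' := hf3.trans (Nat.le_of_dvd (Nat.pos_of_ne_zero hm'0) hfm)
  obtain ⟨m, hm⟩ : ∃ m, m = 3 ^ (j + 1) * m' := ⟨_, rfl⟩
  have hm0 : m ≠ 0 := by rw [hm]; exact mul_ne_zero (by positivity) hm'0
  have h3m : 3 ∣ m := by
    rw [hm]
    exact (dvd_pow_self 3 (Nat.succ_ne_zero j)).mul_right _
  have hmm : m' ∣ m := by rw [hm]; exact dvd_mul_left _ _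
  have hpm : 3 * f ∣ m := by
    rw [hm, pow_succ, mul_assoc]
    exact (mul_dvd_mul_left 3 hfm).mul_left _
  have hdvd : 3 ^ j * N ∣ m := by
    rw [hm, hm']
    exact mul_dvd_mul (pow_dvd_pow 3 (Nat.le_succ j)) (Dvd.intro_left _ rfl)
  -- the point of level `m'`
  have hm'1 : m' ≠ 1 := by omega
  have hz1 : R.om R.i0 / m' ∉ (R.L R.i0).lattice := by
    intro h
    obtain ⟨x, -, hx⟩ := (hL.mem _).1 h
    apply NST.TYF.nat_mul_ne_one hQ hm'1 x
    apply MUX.emb_inj hQ
    rw [MUX.emb_mul hQ, MUX.emb_natCast hQ, MUX.emb_one hQ]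
    field_simp at hx
    rw [← hx]
  have hz2 : (m' : ℂ) * (R.om R.i0 / m') ∈ (R.L R.i0).lattice := by
    rw [mul_div_cancel₀ _ hm'C]
    exact (hL0.mem _).2 ⟨1, trivial, by rw [MUX.emb_one hQ, mul_one]⟩
  have hYa := (coordE hQ hT hL hua2 hea m' hm'0 _ hz1 hz2).2.1
  have hQalg : ∀ q, IsAlgebraic ℚ (Q q) := by
    intro q
    have h1 := algE hE hT hL he.toIsEI hgt h3f (natCast_mem_idl (3 * f)) hcopb hr0 her q.1 q.2
    have h3 : Q q = PhiI (R.b R.i0) e q.1 q.2 / R.om R.i0 * u⁻¹ := by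
      rw [hQdef]
      field_simp
    rw [h3]
    exact h1.mul hua.inv
  -- the field
  have h8r : 8 * r ≠ 0 := mul_ne_zero (by norm_num) hr0
  set Ts : Set ℂ := (Q '' (S : Set (OnePoint ℚ × OnePoint ℚ))) ∪
    ({tau, yu (R.L R.i0) u (R.om R.i0 / m')} ∪
      ((Polynomial.nthRootsFinset (8 * r) (1 : ℂ) : Finset ℂ) : Set ℂ)) with hTs
  have hTfin : Ts.Finite := by
    refine Set.Finite.union ?_ (Set.Finite.union ?_ ?_)
    · exact (Finset.finite_toSet S).image _
    · exact Set.toFinite _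
    · exact Finset.finite_toSet _
  have hTalg : ∀ t ∈ Ts, IsAlgebraic ℚ t := by
    rintro t (⟨q, -, rfl⟩ | (ht | ht))
    · exact hQalg q
    · rcases ht with rfl | ht
      · exact htaua
      · rw [Set.mem_singleton_iff] at ht
        rw [ht]
        exact hYa
    · rw [Finset.mem_coe, Polynomial.mem_nthRootsFinset (Nat.pos_of_ne_zero h8r)] at ht
      refine ⟨Polynomial.X ^ (8 * r) - 1, Polynomial.X_pow_sub_C_ne_zero
        (Nat.pos_of_ne_zero h8r) (1 : ℚ), ?_⟩
      simp [ht]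
  obtain ⟨F, hFf, hFg, hEF, hTF⟩ := nt_GLC A B hQ (RFE (idl (A := A) (B := B) m'))
    (hT.fin _ (idl_ne_bot hQ hm'0)) Ts hTfin hTalg
  have htau0 : tau ≠ 0 := by
    rintro rfl
    rw [map_zero, zero_pow (by norm_num)] at htau8
    exact (V.valuation.ne_zero_iff.2 (by norm_num : (3 : ℂ) ≠ 0)) htau8.symm
  have htauF : tau ∈ F := hTF (Or.inr (Or.inl (Or.inl rfl)))
  have hyF : yu (R.L R.i0) u (R.om R.i0 / m') ∈ F := hTF (Or.inr (Or.inl (Or.inr rfl)))
  have hrF : ∀ z : ℂ, z ^ (8 * r) = 1 → z ∈ F := fun z hz => hTF (Or.inr (Or.inr (by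
    rw [Finset.mem_coe, Polynomial.mem_nthRootsFinset (Nat.pos_of_ne_zero h8r)]
    exact hz)))
  have h38r : ¬ 3 ∣ 8 * r := by
    intro h
    rcases (Nat.Prime.dvd_mul Nat.prime_three).1 h with h | h
    · omega
    · exact hr h
  have hunf : ∀ w' ∈ KIn A B V F, V.valuation w' < 1 → V.valuation w' ≤ V.valuation (3 : ℂ) := by
    intro w' hw' hw1
    have h1 : ((3 : ℕ) : OO A B) ∉ idl (A := A) (B := B) 3 ^ 2 := by
      intro h
      rw [pow_two, Ideal.span_singleton_mul_span_singleton, Ideal.mem_span_singleton] at h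
      obtain ⟨x, hx⟩ := h
      have h30 : ((3 : ℕ) : OO A B) ≠ 0 := natCast_ne_zero' hQ (by norm_num)
      rw [mul_assoc] at hx
      have h2 : ((3 : ℕ) : OO A B) * x = 1 := by
        apply MUX.emb_inj hQ
        have h4 := congrArg emb hx
        rw [MUX.emb_mul hQ] at h4
        have h5 : emb ((3 : ℕ) : OO A B) ≠ 0 := emb_ne_zero hQ h30
        rw [MUX.emb_one hQ]
        apply mul_left_cancel₀ h5
        rw [mul_one]
        exact h4.symm
      exact NST.TYF.nat_mul_ne_one hQ (by norm_num) x h2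
    have h2 := Pool.Agent.N2T.unfP hQ hS.hV (natCast_mem_idl (A := A) (B := B) 3) h1 F w' hw' hw1
    rwa [MUX.emb_natCast hQ, Nat.cast_ofNat] at h2
  -- the key point
  have hkey : ∀ σ : ℂ ≃+* ℂ, InI A B V (F : Set ℂ) σ → ∀ q ∈ S,
      σ (Q q * tau ^ i) = Q q * tau ^ i := by
    intro σ hσ q hq
    have hRF : ∀ y ∈ RFE (idl (A := A) (B := B) m'), σ y = y :=
      (Pool.Agent.MER.rfinE4 A B V hS.c4 hS.hV hT).2 m' hm'0 hm'3 (hf2.trans hfm) σ hσ.fix
        (fun y hy hyV => hσ.iner y (hEF hy) hyV)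
    have hle : (RFE (idl (A := A) (B := B) 2) : IntermediateField (kk A B) ℂ) ≤
        RFE (idl (A := A) (B := B) m') := hT.mono _ _ (idl_mono (hf2.trans hfm))
    have hsu2 : σ (u ^ 2) = u ^ 2 := hRF _ (hle hu2)
    have hsel : σ el = el := hRF _ (hle hel)
    obtain ⟨c0, -, hcop, hact, hz⟩ := actE hE hT hm0 ((hf2.trans hfm).trans hmm) hσ.fix
    have hA := hact _ _ _ hL
    -- the sign
    have hmz : (m : ℂ) * (R.om R.i0 / m') ∈ (R.L R.i0).lattice := by
      have h1 : (m : ℂ) = ((3 ^ (j + 1) : ℕ) : ℂ) * (m' : ℂ) := by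
        rw [hm]
        push_cast
        ring
      rw [h1, mul_assoc, ← nsmul_eq_mul]
      exact nsmul_mem hz2 _
    obtain ⟨h4, h5, -⟩ := hA.act _ hmz hz1
    have hpm1 := cong_pm hQ (by omega : 2 ≤ m') (σ := σ) hL0 (c := c0) h5.symm h4
      (hRF _ (wp_mem hQ hL hz1 hz2))
    obtain ⟨d, c, hd, hc0, hcm⟩ : ∃ (d : ℤ) (c : OO A B), (d = 1 ∨ d = -1) ∧
        c0 = (d : OO A B) * c ∧ c - 1 ∈ idl (A := A) (B := B) m' := by
      rcases hpm1 with h | h
      · exact ⟨1, c0, Or.inl rfl, by rw [Int.cast_one, one_mul], h⟩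
      · refine ⟨-1, -c0, Or.inr rfl, by rw [Int.cast_neg, Int.cast_one]; ring, ?_⟩
        have h6 : -c0 - 1 = -(c0 + 1) := by ring
        rw [h6]
        exact (Submodule.neg_mem_iff _).2 h
    have hembc : emb c0 = (d : ℂ) * emb c := by
      rw [hc0, MUX.emb_mul hQ, MUX.emb_intCast hQ]
    have hec0 : e c0 = (d : ℂ) * e c := by
      rw [hc0, he.mul]
      congr 1
      rcases hd with rfl | rfl
      · rw [Int.cast_one, Int.cast_one, he.one]
      · rw [Int.cast_neg, Int.cast_one, Int.cast_neg, Int.cast_one, he.neg]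
    have hc3 : c ∉ idl (A := A) (B := B) 3 := by
      intro h
      have h6 : c0 ∈ idl (A := A) (B := B) 3 := by
        rw [hc0]
        exact Ideal.mul_mem_left _ _ h
      rw [Ideal.isCoprime_iff_sup_eq] at hcop
      have h7 : (⊤ : Ideal (OO A B)) ≤ idl (A := A) (B := B) 3 := by
        rw [← hcop]
        exact sup_le ((Ideal.span_singleton_le_iff_mem _).2 h6) (idl_mono h3m)
      exact hC.max.ne_top (top_le_iff.1 h7)
    have hA' : ActN σ m (sp c0) (R.L R.i0) (R.L R.i0) ((d : ℂ) * emb c) := by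
      rw [← hembc]
      exact hA
    have hsu : σ u = d * u := by
      refine sgu hQ hC.v3 hL0.toIsLI hG h3m' hm'3 hmm hcm hd hA' hsu2 ?_
      intro h
      have h1 := hσ.iner _ hyF ((V.valuation_le_one_iff _).1 h)
      rwa [ValuationSubring.mem_nonunits_iff] at h1
    have hroot : ∀ z : ℂ, (z = 0 ∨ z ^ (8 * r) = 1) → σ z = z := by
      refine (NST.x_RTU V hC.v3 (8 * r) h38r).2 σ ?_
      intro z hz
      have hz1 : V.valuation z = 1 := by
        have h1 : (V.valuation z) ^ (8 * r) = 1 := by rw [← map_pow, hz, map_one]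
        exact (pow_eq_one_iff.1 h1).resolve_right h8r
      have h1 := hσ.iner z (hrF z hz) ((V.valuation_le_one_iff _).1 hz1.le)
      rwa [ValuationSubring.mem_nonunits_iff] at h1
    have hse : ∀ x, σ (e x) = e x := by
      intro x
      apply hroot
      by_cases hx : e x = 0
      · exact Or.inl hx
      · right
        rw [mul_comm, pow_mul, her x hx, one_pow]
    have hsw : ∀ x, σ (w x) = w x := by
      intro x
      apply hroot
      by_cases hx : x ∈ idl (A := A) (B := B) 3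
      · exact Or.inl (hw.zero x hx)
      · right
        rw [pow_mul, hw.pow x hx, one_pow]
    have h1 := valE hQ hL.toIsLI hm0 hA hz he.toIsEI hgt
      (idl_mono hpm (natCast_mem_idl m)) hcopb hse q.1 q.2
      (dn_mono hdvd (hSD0 q hq).1) (dn_mono hdvd (hSD0 q hq).2)
    have h2 : σ tau = w c * tau := htau m h3m _ σ c d hd hA' hc3 hsu hsel hsw
    have h3 : e c = w c ^ i := hi c (idl_mono hfm hcm) hc3
    have hdd : (d : ℂ) * d = 1 := by
      rcases hd with rfl | rfl <;> norm_num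
    have hd0 : (d : ℂ) ≠ 0 := left_ne_zero_of_mul_eq_one hdd
    have h6 : e c * σ (Q q) = Q q := by
      have h7 : ∀ q, Q q = PhiI (R.b R.i0) e q.1 q.2 / R.om R.i0 / u := by
        intro q
        rw [hQdef]
        field_simp
      rw [h7, map_div₀, hsu]
      nth_rewrite 2 [← h1]
      rw [hec0]
      field_simp
      linear_combination (-(e c * σ (PhiI (R.b R.i0) e q.1 q.2 / R.om R.i0))) * hdd
    rw [map_mul, map_pow, h2, mul_pow, ← h3]
    calc σ (Q q) * (e c * tau ^ i) = (e c * σ (Q q)) * tau ^ i := by ring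
      _ = Q q * tau ^ i := by rw [h6]
  have hi0 : ∀ i, i = R.i0 := one_elt hE R
  have hQU : ∀ x y, PhiKE R e ka x y / (u * R.om R.i0) = ka R.i0 * Q (x, y) := by
    intro x y
    unfold PhiKE
    rw [Finset.sum_eq_single R.i0 (fun i _ hi => absurd (hi0 i) hi)
      (fun h => absurd (Finset.mem_univ _) h), hQdef]
    field_simp
  have hvk : V.valuation (ka R.i0) = 1 := NST.RTU.v_root hr0 (hka R.i0)
  refine ⟨ka R.i0 * (tau ^ i)⁻¹, KIn A B V F, ?_, hunf, ?_⟩
  · have hle : AddSubgroup.closure (Q '' (S : Set (OnePoint ℚ × OnePoint ℚ))) ≤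
        ((KIn A B V F).toAddSubgroup).map (AddMonoidHom.mulLeft ((tau ^ i)⁻¹)) := by
      rw [AddSubgroup.closure_le]
      rintro _ ⟨q, hq, rfl⟩
      refine ⟨Q q * tau ^ i, ⟨?_, fun σ hσ => hkey σ hσ q hq⟩, ?_⟩
      · exact F.mul_mem (hTF (Or.inl ⟨q, hq, rfl⟩)) (F.pow_mem htauF i)
      · rw [AddMonoidHom.coe_mulLeft]
        field_simp
    intro x y
    obtain ⟨w', hw', hw2⟩ := hle (hgen' x y)
    refine ⟨w', hw', ?_⟩
    rw [hQU, ← hw2, AddMonoidHom.coe_mulLeft]
    ring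
  · rw [map_mul, hvk, one_mul, map_inv₀, map_pow, inv_pow, ← pow_mul, mul_comm i 8, pow_mul, htau8]
    exact inv_mul_cancel₀ (pow_ne_zero _ (V.valuation.ne_zero_iff.2 (by norm_num)))

end

end Pool.Agent.MET
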