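import Pool.Agent.ME.R_S3
import Pool.Agent.ME.R_ALL
import Pool.Agent.ME.E3_CTX
import Pool.Agent.ME.E3_UNR
import Pool.Agent.ME.T_TYF4
import Pool.Agent.NS.TR_TYF
import Pool.Agent.NS.RN_ALL

/-!
# ME, block T, `D = -3`, `p = 3` (helper4): the result `Sq_TYF_E`

`y² = x³ + 1`, `L = om O`. `σ` in the inertia group at `V` of a large Galois extension `F / k` is trivial on `RFE (m')`, `m'` even and prime to `3` (`rfinE3`), so it acts on the points of
level `m = 3^(j+1) m'` as `c0 = d c`, `d = ± 1`, `c ≡ 1` modulo `m'`. The points of order `√-3` are `(0, ± 1)`, rational, so `c0 ≡ 1` modulo `P` (`one_P`) and `w(c)³ = d`. `σ u = d u` (`sguR`).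
`κ = ℘(om/3)`: `κ³ = -4` (`kap_cub`), and `(O/3)^*` consists of the classes of the units, `℘(η z) = ℘(z)/η²`, so `σ κ = κ/w(c)² = w(c)⁴ κ`. `e(c) σ(P/(u om)) = P/(u om)`, `e(c) = w(c)^(3i+1)`,
so `tau P/(u om)` is fixed by the inertia group for `tau = u^(1-i) κ`; `v(u)⁴ = v 3` (`legE`), `v κ = 1`.
-/

set_option autoImplicit false

namespace Pool.Agent.MET

open _root_.MU3 Pool.Agent.MU3A Pool.Agent.MU3B Pool.Agent.RI Pool.Agent.MUX Pool.Agent.MUXU
open OnePoint Pool.Agent.NS Pool.Agent.NSRD Pool.Agent.ME2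
open Pool.Agent.ME hiding ActE
open Pool.Agent.ME3 (CtxR3)
open Pool.Agent.MUXV (GR InK)
open Pool.Agent.MUXY (ActN Dn)
open Pool.Agent.NST (KIn nt_GLC)
open Pool.Agent.NST.TYF (dn_mono idl_ne_bot)

noncomputable section

variable {A B : ℤ} {L : PeriodPair} {om : ℂ} {b : Ideal (OO A B)} {V : ValuationSubring ℂ}
  {P : Ideal (OO A B)}

/-! ### The Legendre form of `y² = x³ + 1` -/

/-- the numbers of the Legendre form -/
theorem legE {u e lam : ℂ} (hG : GoodR V L u e lam) (h2 : L.g₂ = 0) (h3 : L.g₃ = -4) :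
    (1 + lam) * u ^ 2 = -3 * e ∧ lam * u ^ 4 = 3 * e ^ 2 ∧ e ^ 3 = -1 := by
  obtain ⟨k1, -, -, k2, k3, -, -⟩ := NSR.tr_LGF L u e lam ⟨hG.u0, hG.eq⟩
  rw [h2] at k2
  rw [h3] at k3
  have hl : lam ^ 2 - lam + 1 = 0 := by
    rcases mul_eq_zero.1 k2.symm with h | h
    · exfalso
      rcases mul_eq_zero.1 h with h | h
      · norm_num at h
      · exact hG.u0 ((pow_eq_zero_iff (by norm_num)).1 h)
    · exact h
  refine ⟨by linear_combination k1, ?_, ?_⟩
  · linear_combination (-1 / 3) * (3 * e - (1 + lam) * u ^ 2) * k1 - (1 / 3) * u ^ 4 * hl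
  · linear_combination (1 / 27) * (9 * e ^ 2 - 3 * e * (1 + lam) * u ^ 2 + (1 + lam) ^ 2 * u ^ 4) *
      k1 - (1 / 27) * u ^ 6 * (lam + 4) * hl - (1 / 4) * k3 -
      (1 / 27) * u ^ 6 * (2 * lam - 1) * hl

/-- `v(u)⁴ = v 3` -/
theorem vu4 {u e lam : ℂ} (hG : GoodR V L u e lam) (h2 : L.g₂ = 0) (h3 : L.g₃ = -4)
    (v3 : V.valuation (3 : ℂ) < 1) : V.valuation u ^ 4 = V.valuation (3 : ℂ) := by
  obtain ⟨-, k2, k3⟩ := legE hG h2 h3
  have hb : V.valuation (1 + lam) < 1 := by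
    by_contra h
    exact absurd ((one_le_pow_of_one_le' (not_lt.1 h) 2).trans hG.lam1) (not_le.2 v3)
  have vlam : V.valuation lam = 1 := by
    have h4 : lam = (1 + lam) - 1 := by ring
    rw [h4, V.valuation.map_sub_eq_of_lt_right (by rwa [map_one]), map_one]
  have ve : V.valuation e = 1 := by
    have h4 : V.valuation e ^ 3 = 1 := by
      rw [← map_pow, k3, Valuation.map_neg, map_one]
    exact (pow_eq_one_iff.1 h4).resolve_right (by norm_num)
  have h5 := congrArg V.valuation k2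
  rw [map_mul, map_mul, map_pow, map_pow, vlam, ve, one_pow, one_mul, mul_one] at h5
  exact h5

/-- points killed by three -/
theorem kap_cub {u e lam : ℂ} (hG : GoodR V L u e lam) (h2 : L.g₂ = 0) (h3 : L.g₃ = -4) {Y : ℂ}
    (hY : Y ∉ L.lattice) (hY3 : 3 * Y ∈ L.lattice) :
    L.weierstrassP Y ^ 4 = -4 * L.weierstrassP Y := by
  obtain ⟨k1, k2, k3⟩ := legE hG h2 h3
  have hu0 := hG.u0
  have h4 := (NSR.rtr3 L u e lam ⟨hG.u0, hG.eq⟩ Y hY).1 hY3
  obtain ⟨p, hp⟩ : ∃ p, p = L.weierstrassP Y := ⟨_, rfl⟩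
  have h5 : xu L u e Y = (p - e) / u ^ 2 := by rw [hp]; rfl
  rw [h5] at h4
  rw [← hp]
  have h6 : 3 * (p - e) ^ 4 - 4 * ((1 + lam) * u ^ 2) * (p - e) ^ 3 +
      6 * (lam * u ^ 4) * (p - e) ^ 2 - (lam * u ^ 4) ^ 2 = 0 := by
    have h7 : 3 * (p - e) ^ 4 - 4 * ((1 + lam) * u ^ 2) * (p - e) ^ 3 +
      6 * (lam * u ^ 4) * (p - e) ^ 2 - (lam * u ^ 4) ^ 2 = u ^ 8 *
        (3 * ((p - e) / u ^ 2) ^ 4 - 4 * (1 + lam) * ((p - e) / u ^ 2) ^ 3 +
      6 * lam * ((p - e) / u ^ 2) ^ 2 - lam ^ 2) := by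
      field_simp
    rw [h7, h4, mul_zero]
  rw [k1, k2] at h6
  linear_combination (1 / 3) * h6 + 4 * p * k3

/-! ### The invariants and units -/

lemma nrm3 (hB : B = 1) (hL : NrmE A B L) : L.g₂ = 0 ∧ L.g₃ = -4 := by
  refine ⟨?_, ?_⟩
  · rw [hL.g2]
    unfold g2E
    rw [if_neg (by rw [hB]; norm_num)]
  · rw [hL.g3]
    unfold g3E
    rw [if_neg (by rw [hB]; norm_num)]

/-- points of the lattice -/
lemma mem_of_lat (hC : CQ A B) (hL : IsLI (⊤ : Ideal (OO A B)) L om) {n : ℕ} (hn : n ≠ 0)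
    {y : OO A B} : emb y * (om / n) ∈ L.lattice ↔ y ∈ idl (A := A) (B := B) n := by
  have hnC : (n : ℂ) ≠ 0 := by exact_mod_cast hn
  have hom : om ≠ 0 := hL.om_ne
  constructor
  · intro hy
    obtain ⟨x, -, hx⟩ := (hL.mem _).1 hy
    have h1 : emb y = emb (x * ((n : ℕ) : OO A B)) := by
      rw [MUX.emb_mul hC, MUX.emb_natCast hC]
      field_simp at hx
      linear_combination hx
    rw [MUX.emb_inj hC h1]
    exact Ideal.mul_mem_left _ _ (natCast_mem_idl n)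
  · intro hy
    obtain ⟨x, rfl⟩ := Ideal.mem_span_singleton'.1 hy
    refine (hL.mem _).2 ⟨x, trivial, ?_⟩
    rw [MUX.emb_mul hC, MUX.emb_natCast hC]
    field_simp

/-- `℘(om/3) ≠ 0` -/
theorem kap_ne (hC : CQ A B) (hA : A = -1) (hB : B = 1) (hL : IsLI (⊤ : Ideal (OO A B)) L om) :
    om / 3 ∉ L.lattice ∧ 3 * (om / 3) ∈ L.lattice ∧ L.weierstrassP (om / 3) ≠ 0 := by
  have key : ∀ y : OO A B, emb y * (om / 3) ∈ L.lattice ↔ (3 : ℤ) ∣ y.re ∧ (3 : ℤ) ∣ y.im := by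
    intro y
    have h1 := mem_of_lat hC hL (n := 3) (by norm_num) (y := y)
    rw [mem_idl_iff] at h1
    exact_mod_cast h1
  have h0 : om / 3 ∉ L.lattice := by
    intro h
    have h1 := (key 1).1 (by rwa [MUX.emb_one hC, one_mul])
    have h2 : (3 : ℤ) ∣ 1 := h1.1
    norm_num at h2
  refine ⟨h0, ?_, ?_⟩
  · refine (hL.mem _).2 ⟨1, trivial, ?_⟩
    rw [MUX.emb_one hC]
    ring
  · intro hP
    subst hA
    subst hB
    have hη : (⟨0, 1⟩ : OO (-1) 1) * ⟨1, -1⟩ = 1 := QuadraticAlgebra.ext rfl rfl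
    obtain ⟨hη0, hiff, hPη, -⟩ := unit_hom hC hL hη
    have h1 : L.weierstrassP (emb (⟨0, 1⟩ : OO (-1) 1) * (om / 3)) =
        L.weierstrassP (om / 3) := by
      rw [hPη, hP, zero_div]
    rcases b_NEQ L (om / 3) _ h0 (fun h => h0 ((hiff _).2 h)) h1 with h2 | h2
    · have h3 := (key (⟨0, 1⟩ - 1)).1 (by
        rw [MUX.emb_sub hC, MUX.emb_one hC, sub_mul, one_mul]
        exact h2)
      have h4 : (3 : ℤ) ∣ 0 - 1 := h3.1
      norm_num at h4
    · have h3 := (key (⟨0, 1⟩ + 1)).1 (by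
        rw [MUX.emb_add hC, MUX.emb_one hC, add_mul, one_mul]
        exact h2)
      have h4 : (3 : ℤ) ∣ 0 + 1 := h3.1
      norm_num at h4

/-- the points of order `√-3` are `(0, ± 1)` -/
theorem pnt_P (hC : CQ A B) (hA : A = -1) (hB : B = 1) (hL : IsLI (⊤ : Ideal (OO A B)) L om)
    (hn : NrmE A B L) :
    emb (dD A B) * (om / 3) ∉ L.lattice ∧
      (L.derivWeierstrassP (emb (dD A B) * (om / 3)) = 2 ∨
        L.derivWeierstrassP (emb (dD A B) * (om / 3)) = -2) := by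
  have key : ∀ y : OO A B, emb y * (om / 3) ∈ L.lattice ↔ (3 : ℤ) ∣ y.re ∧ (3 : ℤ) ∣ y.im := by
    intro y
    have h1 := mem_of_lat hC hL (n := 3) (by norm_num) (y := y)
    rw [mem_idl_iff] at h1
    exact_mod_cast h1
  have h0 : emb (dD A B) * (om / 3) ∉ L.lattice := by
    intro h
    have h1 := ((key _).1 h).2
    have h2 : (3 : ℤ) ∣ 2 := h1
    norm_num at h2
  refine ⟨h0, ?_⟩
  obtain ⟨hg2, hg3⟩ := nrm3 hB hn
  subst hA
  subst hB
  have hη : (⟨-1, 1⟩ : OO (-1) 1) * ⟨0, -1⟩ = 1 := QuadraticAlgebra.ext rfl rfl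
  obtain ⟨hη0, hiff, hPη, -⟩ := unit_hom hC hL hη
  obtain ⟨Z, hZ⟩ : ∃ Z, Z = emb (dD (-1) 1) * (om / 3) := ⟨_, rfl⟩
  rw [← hZ] at h0 ⊢
  have h1 : emb (⟨-1, 1⟩ : OO (-1) 1) * Z - Z ∈ L.lattice := by
    have h2 : emb (⟨-1, 1⟩ : OO (-1) 1) * Z - Z =
        emb ((⟨-1, 1⟩ - 1) * dD (-1) 1 : OO (-1) 1) * (om / 3) := by
      rw [hZ, MUX.emb_mul hC, MUX.emb_sub hC, MUX.emb_one hC]
      ring
    rw [h2, key]
    constructor
    · show (3 : ℤ) ∣ (-1 - 1) * (-1) + (-1) * ((1 - 0) * 2)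
      norm_num
    · show (3 : ℤ) ∣ (-1 - 1) * 2 + (1 - 0) * (-1) + 1 * ((1 - 0) * 2)
      norm_num
  have h3 : L.weierstrassP (emb (⟨-1, 1⟩ : OO (-1) 1) * Z) = L.weierstrassP Z := by
    have h4 := L.weierstrassP_add_coe Z ⟨_, h1⟩
    have h5 : Z + ((⟨emb (⟨-1, 1⟩ : OO (-1) 1) * Z - Z, h1⟩ : L.lattice) : ℂ) =
        emb (⟨-1, 1⟩ : OO (-1) 1) * Z := by
      show Z + (emb (⟨-1, 1⟩ : OO (-1) 1) * Z - Z) = _
      ring
    rw [h5] at h4
    exact h4
  have h6 : L.weierstrassP Z = 0 := by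
    rw [hPη] at h3
    by_contra h7
    have h8 : emb (⟨-1, 1⟩ : OO (-1) 1) ^ 2 = 1 := by
      have h9 : L.weierstrassP Z = L.weierstrassP Z * emb (⟨-1, 1⟩ : OO (-1) 1) ^ 2 := by
        rw [div_eq_iff (pow_ne_zero 2 hη0)] at h3
        exact h3
      apply mul_left_cancel₀ h7
      rw [mul_one, ← h9]
    rw [← MUX.emb_pow hC, ← MUX.emb_one hC] at h8
    have h9 := MUX.emb_inj hC h8
    have h10 := congrArg QuadraticAlgebra.im h9
    rw [pow_two] at h10
    have h11 : (-1 : ℤ) * 1 + 1 * (-1) + 1 * (1 * 1) = 0 := h10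
    norm_num at h11
  have h7 := L.derivWeierstrassP_sq Z h0
  rw [h6, hg2, hg3] at h7
  apply sq_eq_sq_iff_eq_or_eq_neg.1
  linear_combination h7

/-! ### The action of an automorphism -/

/-- `σ` acts as `c ≡ 1` modulo `P` -/
theorem one_P (hC : CtxR3 A B P V) (hA : A = -1) (hB : B = 1)
    (hL : IsLI (⊤ : Ideal (OO A B)) L om) (hn : NrmE A B L) {m : ℕ} (h3m : 3 ∣ m)
    {σ : ℂ ≃+* ℂ} {c : OO A B} (hc : c ∉ P) (hAct : ActN σ m (sp c) L L (emb c)) :
    c - 1 ∈ P := by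
  have hcq := hC.cq
  obtain ⟨h0, hd⟩ := pnt_P hcq hA hB hL hn
  obtain ⟨Z, hZ⟩ : ∃ Z, Z = emb (dD A B) * (om / 3) := ⟨_, rfl⟩
  rw [← hZ] at h0 hd
  have h3Z : 3 * Z ∈ L.lattice := by
    refine (hL.mem _).2 ⟨dD A B, trivial, ?_⟩
    rw [hZ]
    ring
  have hmZ : (m : ℂ) * Z ∈ L.lattice := by
    obtain ⟨k, rfl⟩ := h3m
    have h1 := nsmul_mem h3Z k
    rw [nsmul_eq_mul] at h1
    have e1 : ((3 * k : ℕ) : ℂ) * Z = (k : ℂ) * (3 * Z) := by push_cast; ring
    rw [e1]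
    exact h1
  obtain ⟨-, -, h5⟩ := hAct.act Z hmZ h0
  rcases hC.pm c hc with h | h
  · exact h
  · exfalso
    have h6 : emb c * Z - -Z ∈ L.lattice := by
      have h7 : (c + 1) * dD A B ∈ idl (A := A) (B := B) 3 := by
        rw [← hC.sq]
        exact Ideal.mul_mem_mul h hC.dP
      have h8 := (mem_of_lat hcq hL (n := 3) (by norm_num)).2 h7
      have h9 : emb c * Z - -Z = emb ((c + 1) * dD A B) * (om / (3 : ℕ)) := by
        rw [MUX.emb_mul hcq, MUX.emb_add hcq, MUX.emb_one hcq, hZ]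
        push_cast
        ring
      rw [h9]
      exact h8
    have h7 : L.derivWeierstrassP (emb c * Z) = -L.derivWeierstrassP Z := by
      rw [NST.SGU.der_congr L h6, L.derivWeierstrassP_neg]
    rw [h7] at h5
    rcases hd with hd | hd
    · rw [hd, map_ofNat] at h5
      norm_num at h5
    · rw [hd, map_neg, map_ofNat] at h5
      norm_num at h5

/-- the sign `d` -/
theorem sguR (hC : CQ A B) (h3 : V.valuation (3 : ℂ) < 1) (hv2 : V.valuation (2 : ℂ) = 1)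
    (hL : IsLI (⊤ : Ideal (OO A B)) L om) {u e lam : ℂ} (hGd : GoodR V L u e lam) {m m' : ℕ}
    (hm3' : 3 ≤ m') (hvm : V.valuation (m' : ℂ) = 1) (hmm : m' ∣ m) {a : Ideal (OO A B)}
    {σ : ℂ ≃+* ℂ} {c : OO A B} {d : ℤ} (hcm : c - 1 ∈ idl (A := A) (B := B) m')
    (hd : d = 1 ∨ d = -1) (hAct : ActN σ m a L L (d * emb c)) (hσu : σ (u ^ 2) = u ^ 2)
    (hlast : V.valuation (yu L u (om / m')) ≤ 1 →
      V.valuation (σ (yu L u (om / m')) - yu L u (om / m')) < 1) : σ u = d * u := by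
  have hmem : ∀ z : ℂ, z ∈ L.lattice ↔ ∃ x : OO A B, z = om * emb x := by
    intro z
    rw [hL.mem]
    exact ⟨fun ⟨x, _, hx⟩ => ⟨x, hx⟩, fun ⟨x, hx⟩ => ⟨x, trivial, hx⟩⟩
  have hm0 : m' ≠ 0 := by omega
  have hom0 : om ≠ 0 := hL.om_ne
  have hmC : (m' : ℂ) ≠ 0 := Nat.cast_ne_zero.2 hm0
  -- good reduction
  have hlam : V.valuation (1 + lam) < 1 := by
    by_contra hcon
    have h5 : 1 ≤ V.valuation (1 + lam) ^ 2 := one_le_pow₀ (not_lt.1 hcon)
    exact absurd (h5.trans hGd.lam1) (not_le.2 h3)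
  obtain ⟨ξ, G, -⟩ := NSR.rgrl V L u e lam hv2 hlam ⟨hGd.u0, hGd.eq⟩
  have hT2 : ∀ z : ℂ, (m' : ℂ) * z ∈ L.lattice → InK V L (xu L u e) z → z ∈ L.lattice :=
    fun z hz hK => Pool.Agent.MUXV.mem_of_nat_mul G hK hvm hz
  set z : ℂ := om / m' with hz
  have hmz : (m' : ℂ) * z = om := by rw [hz]; field_simp
  have homL : om ∈ L.lattice := (hmem om).2 ⟨1, by rw [Pool.Agent.MUX.emb_one hC, mul_one]⟩
  have hzz : z + z ∉ L.lattice := by
    intro h
    obtain ⟨x, hx⟩ := (hmem _).1 h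
    have h1 : (m' : ℂ) * emb x = 2 := by
      have h2 : om * ((m' : ℂ) * emb x) = om * 2 := by
        linear_combination (-(m' : ℂ)) * hx + 2 * hmz
      exact mul_left_cancel₀ hom0 h2
    have h2 : ((m' : ℕ) : OO A B) * x = ((2 : ℕ) : OO A B) := by
      apply Pool.Agent.MUX.emb_inj hC
      rw [Pool.Agent.MUX.emb_mul hC, Pool.Agent.MUX.emb_natCast hC,
        Pool.Agent.MUX.emb_natCast hC, h1]
      norm_num
    have h4 := congrArg nm h2
    rw [Pool.Agent.MUX.nm_mul hC] at h4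
    have h5 := Pool.Agent.MUX.nm_intCast (A := A) (B := B) (m' : ℤ)
    have h6 := Pool.Agent.MUX.nm_intCast (A := A) (B := B) (2 : ℤ)
    rw [Int.cast_natCast] at h5
    have h7 : ((2 : ℤ) : OO A B) = ((2 : ℕ) : OO A B) := by push_cast; rfl
    rw [h7] at h6
    rw [h5, h6] at h4
    have h8 : ((m' : ℤ) ^ 2) ∣ 2 ^ 2 := ⟨_, h4.symm⟩
    have h9 := Int.le_of_dvd (by norm_num) h8
    have h10 : (3 : ℤ) ≤ m' := by exact_mod_cast hm3'
    nlinarith
  have hzL : z ∉ L.lattice := fun h => hzz (add_mem h h)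
  have hzK : ¬ InK V L (xu L u e) z := fun h => hzL (hT2 z (by rw [hmz]; exact homL) h)
  have hzzK : ¬ InK V L (xu L u e) (z + z) := fun h => hzz (hT2 (z + z) (by
    rw [mul_add, hmz]
    exact add_mem homL homL) h)
  -- `v (yu z) = 1`
  have hy1 : V.valuation (yu L u z) = 1 := by
    obtain ⟨hns, hxi⟩ := G.some z hzL
    have e1 := (Pool.Agent.MUXV.inE_iff G z).not.2 hzK
    have e2 := (Pool.Agent.MUXV.inE_iff G (z + z)).not.2 hzzK
    rw [map_add, hxi] at e2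
    rw [hxi] at e1
    exact Pool.Agent.MU3.Val.v_y_unit G.int G.two G.disc hns e1 e2
  -- the action
  have hmzL : (m : ℂ) * z ∈ L.lattice := by
    obtain ⟨k, rfl⟩ := hmm
    have h1 : ((m' * k : ℕ) : ℂ) * z = (k : ℕ) * om := by
      rw [← hmz]; push_cast; ring
    rw [h1, ← nsmul_eq_mul]
    exact nsmul_mem homL _
  obtain ⟨-, -, hP'⟩ := hAct.act z hmzL hzL
  have hcz : emb c * z - z ∈ L.lattice := by
    obtain ⟨y, hy⟩ := Ideal.mem_span_singleton'.1 hcm
    refine (hmem _).2 ⟨y, ?_⟩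
    have h1 : emb c - 1 = emb y * m' := by
      have h2 := congrArg emb hy
      rw [Pool.Agent.MUX.emb_mul hC, Pool.Agent.MUX.emb_natCast hC, Pool.Agent.MUX.emb_sub hC,
        Pool.Agent.MUX.emb_one hC] at h2
      exact h2.symm
    have h2 : emb c * z - z = (emb c - 1) * z := by ring
    rw [h2, h1, mul_assoc, hmz, mul_comm]
  have hder : σ (L.derivWeierstrassP z) = d * L.derivWeierstrassP z := by
    rw [← hP']
    rcases hd with hd | hd
    · rw [hd]
      push_cast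
      rw [one_mul, one_mul]
      exact NST.SGU.der_congr L hcz
    · rw [hd]
      push_cast
      have h1 : -1 * emb c * z = -(emb c * z) := by ring
      rw [h1, L.derivWeierstrassP_neg, NST.SGU.der_congr L hcz]
      ring
  have hu0 := hGd.u0
  have hd2 : (d : ℂ) * d = 1 := by
    rcases hd with hd | hd <;> rw [hd] <;> norm_num
  have hs : σ u = d * u ∨ σ u = -(d * u) := by
    have h1 : (σ u) ^ 2 = (d * u) ^ 2 := by
      rw [← map_pow, hσu]
      linear_combination (-(u ^ 2)) * hd2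
    exact sq_eq_sq_iff_eq_or_eq_neg.1 h1
  rcases hs with hs | hs
  · exact hs
  · exfalso
    have hσy : σ (yu L u z) = -yu L u z := by
      unfold yu
      rw [map_div₀, map_mul, map_pow, hs, hder, map_ofNat]
      have hd0 : (d : ℂ) ≠ 0 := fun h0 => by
        rw [h0, zero_mul] at hd2
        exact zero_ne_one hd2
      rw [div_eq_iff (by
        refine mul_ne_zero two_ne_zero (pow_ne_zero _ ?_)
        exact neg_ne_zero.2 (mul_ne_zero hd0 hu0))]
      have h5 : (d : ℂ) ^ 3 = d := by linear_combination (d : ℂ) * hd2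
      have h6 : (2 : ℂ) * (-(d * u)) ^ 3 = -(d * (2 * u ^ 3)) := by
        linear_combination (-2 * u ^ 3) * h5
      rw [h6]
      field_simp
    have h1 := hlast hy1.le
    rw [hσy] at h1
    have h2 : -yu L u z - yu L u z = -(2 * yu L u z) := by ring
    rw [h2, Valuation.map_neg, map_mul, hy1, G.two, one_mul] at h1
    exact lt_irrefl _ h1

/-- `u²`, `e` are in `RFE (2)` -/
theorem ueR (hC : CQ A B) (hL : IsNE b L om) {u e lam : ℂ} (hG : GoodR V L u e lam) :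
    u ^ 2 ∈ RFE (idl (A := A) (B := B) 2) ∧ e ∈ RFE (idl (A := A) (B := B) 2) := by
  have hu2' : u ^ 2 ≠ 0 := pow_ne_zero _ hG.u0
  obtain ⟨e1, -, -, -, -, ⟨w₁, hw1, hw1', he⟩, -⟩ :=
    Pool.Agent.NSR.tr_LGF L u e lam ⟨hG.u0, hG.eq⟩
  obtain ⟨w₂, hw2, hew⟩ := b_SUR L (e + u ^ 2)
  have hw2' : 2 * w₂ ∈ L.lattice := by
    apply (b_ZER L w₂ hw2).1
    have h1 := hG.eq w₂ hw2
    have h4 : (L.weierstrassP w₂ - e) / u ^ 2 = 1 := by
      rw [hew, add_sub_cancel_left, div_self hu2']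
    rw [h4, sub_self, mul_zero, zero_mul] at h1
    have h5 := (pow_eq_zero_iff two_ne_zero).1 h1
    rcases div_eq_zero_iff.1 h5 with h6 | h6
    · exact h6
    · exact absurd h6 (mul_ne_zero two_ne_zero (pow_ne_zero _ hG.u0))
  have hu : L.weierstrassP w₂ - L.weierstrassP w₁ = u ^ 2 := by
    rw [hew, he]
    ring
  have m1 := wp_mem (n := 2) hC hL hw1 (by push_cast; exact hw1')
  have m2 := wp_mem (n := 2) hC hL hw2 (by push_cast; exact hw2')
  refine ⟨?_, ?_⟩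
  · rw [← hu]; exact sub_mem m2 m1
  · rw [← he]; exact m1

/-- the elements outside `P` are congruent to units modulo `3` -/
lemma unitP (hC : CtxR3 A B P V) (hA : A = -1) (hB : B = 1) {c : OO A B} (hc : c ∉ P) :
    ∃ η η' : OO A B, η * η' = 1 ∧ (η ^ 3 = 1 ∨ η ^ 3 = -1) ∧
      c - η ∈ idl (A := A) (B := B) 3 := by
  apply unit3 hC.cq hA hB
  have h1 : IsCoprime (sp c) P := by
    rw [Ideal.isCoprime_iff_sup_eq]
    have h2 := hC.max.out.2 (sp c ⊔ P)
    apply h2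
    refine lt_of_le_of_ne le_sup_right ?_
    intro h
    apply hc
    rw [h]
    exact (le_sup_left : sp c ≤ _) (Ideal.mem_span_singleton_self c)
  rw [← hC.sq]
  exact h1.mul_right h1

/-! ### The result -/

theorem tyf3 : Sq_TYF_E := by
  intro A B P V f hS _ hT ι _ R u el lam hG w hw e e0 he hee r hr her i hi1 hi ka hka
  have hE := hS.case
  have hQ : CQ A B := hE.toCQ
  have hC : CtxR3 A B P V := Pool.Agent.ME3.t3_CTX A B P V hE hS.hB hS.hP hS.hV hT
    Pool.Agent.MER.s3_rfin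
  have hu0 : u ≠ 0 := hG.u0
  have hr0 : r ≠ 0 := by
    rintro rfl
    exact hr (dvd_zero 3)
  have hf2 : 2 ∣ f := hS.f2
  have hf2' : 2 ≤ f := Nat.le_of_dvd (Nat.pos_of_ne_zero hS.f0) hf2
  have h3f : 3 * f ≠ 0 := mul_ne_zero (by norm_num) hS.f0
  have hL := R.nl R.i0
  have hL0 : IsNE (⊤ : Ideal (OO A B)) (R.L R.i0) (R.om R.i0) := by
    have h1 := hL
    rw [R.b0] at h1
    exact h1
  have hom0 : R.om R.i0 ≠ 0 := hL.om_ne
  obtain ⟨hg2, hg3⟩ := nrm3 hS.hB hL.nrm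
  have hgt : idl (A := A) (B := B) (3 * f) ≠ ⊤ := NST.VAL.idl_ne_top (by omega)
  have hgb : idl (A := A) (B := B) (3 * f) ≠ ⊥ := idl_ne_bot hQ h3f
  have hcopb : IsCoprime (sp ((nI (R.b R.i0) : ℕ) : OO A B))
      (idl (A := A) (B := B) (3 * f)) := NST.VAL.coprime_idl (R.cop R.i0)
  obtain ⟨hu2, hel⟩ := ueR hQ hL hG
  have hua2 := alg_RFE hQ hT two_ne_zero hu2
  have hua : IsAlgebraic ℚ u := IsAlgebraic.of_pow two_pos hua2
  have hea := alg_RFE hQ hT two_ne_zero hel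
  have hvu := vu4 hG hg2 hg3 hC.v3
  have hv2 : V.valuation (2 : ℂ) = 1 := by
    have := hC.nat 2 (by norm_num)
    exact_mod_cast this
  -- the number `κ`
  obtain ⟨hY0, hY3, hY1⟩ := kap_ne hQ hE.hA hS.hB hL0.toIsLI
  obtain ⟨κ, hκ⟩ : ∃ κ, κ = (R.L R.i0).weierstrassP (R.om R.i0 / 3) := ⟨_, rfl⟩
  rw [← hκ] at hY1
  have hκ3 : κ ^ 3 = -4 := by
    have h1 := kap_cub hG hg2 hg3 hY0 hY3
    rw [← hκ] at h1
    apply mul_left_cancel₀ hY1
    linear_combination h1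
  have hvκ : V.valuation κ = 1 := by
    have h1 : V.valuation κ ^ 3 = 1 := by
      have h4 : (-4 : ℂ) = -(2 * 2) := by norm_num
      rw [← map_pow, hκ3, h4, Valuation.map_neg, map_mul, hv2, one_mul]
    exact (pow_eq_one_iff.1 h1).resolve_right (by norm_num)
  have hκa : IsAlgebraic ℚ κ := by
    rw [hκ]
    exact alg_RFE hQ hT three_ne_zero (wp_mem hQ hL hY0 (by exact_mod_cast hY3))
  -- `w` on the units
  have hwm1 : w (-1) = -1 := by
    rw [hw.unit (-1) (isUnit_one.neg), MUX.emb_neg hQ, MUX.emb_one hQ]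
  -- the values
  obtain ⟨Q, hQdef⟩ : ∃ Q : OnePoint ℚ × OnePoint ℚ → ℂ,
    Q = fun q => PhiI (R.b R.i0) e q.1 q.2 / (3 * u * R.om R.i0) := ⟨_, rfl⟩
  obtain ⟨S, N00, hN00, hSD0, hgen⟩ := fgE hQ hL.b_ne hgb he.toIsEI (3 * u * R.om R.i0)
  have hgen' : ∀ x y, Q (x, y) ∈ AddSubgroup.closure
      (Q '' (S : Set (OnePoint ℚ × OnePoint ℚ))) := by
    rw [hQdef]
    exact hgen
  obtain ⟨j, N, hN3, hjN⟩ := Nat.exists_eq_pow_mul_and_not_dvd hN00 3 (by norm_num)
  rw [hjN] at hSD0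
  have hN0 : N ≠ 0 := by
    rintro rfl
    exact hN3 (dvd_zero 3)
  obtain ⟨m', hm'⟩ : ∃ m', m' = f * (N * 5) := ⟨_, rfl⟩
  have hm'0 : m' ≠ 0 := by
    rw [hm']; exact mul_ne_zero hS.f0 (mul_ne_zero hN0 (by norm_num))
  have hm'3 : ¬ 3 ∣ m' := by
    intro h
    rw [hm'] at h
    rcases (Nat.Prime.dvd_mul Nat.prime_three).1 h with h | h
    · exact hS.fp h
    · rcases (Nat.Prime.dvd_mul Nat.prime_three).1 h with h | h
      · exact hN3 h
      · omega
  have hm'C : (m' : ℂ) ≠ 0 := by exact_mod_cast hm'0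
  have hfm : f ∣ m' := by rw [hm']; exact Dvd.intro _ rfl
  have h3m' : 3 ≤ m' := by
    have h5 : 5 ∣ m' := by rw [hm']; exact (dvd_mul_left 5 N).mul_left f
    have := Nat.le_of_dvd (Nat.pos_of_ne_zero hm'0) h5
    omega
  obtain ⟨m, hm⟩ : ∃ m, m = 3 ^ (j + 1) * m' := ⟨_, rfl⟩
  have hm0 : m ≠ 0 := by rw [hm]; exact mul_ne_zero (by positivity) hm'0
  have h3m : 3 ∣ m := by
    rw [hm]
    exact (dvd_pow_self 3 (Nat.succ_ne_zero j)).mul_right _
  have hmm : m' ∣ m := by rw [hm]; exact dvd_mul_left _ _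
  have hpm : 3 * f ∣ m := by
    rw [hm, pow_succ, mul_assoc]
    exact (mul_dvd_mul_left 3 hfm).mul_left _
  have hdvd : 3 ^ j * N ∣ m := by
    rw [hm, hm']
    refine mul_dvd_mul (pow_dvd_pow 3 (Nat.le_succ j)) ?_
    exact (Dvd.intro _ rfl : N ∣ N * 5).mul_left f
  -- the point of level `m'`
  have hm'1 : m' ≠ 1 := by omega
  have hz1 : R.om R.i0 / m' ∉ (R.L R.i0).lattice := by
    intro h
    obtain ⟨x, -, hx⟩ := (hL.mem _).1 h
    apply NST.TYF.nat_mul_ne_one hQ hm'1 x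
    apply MUX.emb_inj hQ
    rw [MUX.emb_mul hQ, MUX.emb_natCast hQ, MUX.emb_one hQ]
    field_simp at hx
    rw [← hx]
  have hz2 : (m' : ℂ) * (R.om R.i0 / m') ∈ (R.L R.i0).lattice := by
    rw [mul_div_cancel₀ _ hm'C]
    exact (hL0.mem _).2 ⟨1, trivial, by rw [MUX.emb_one hQ, mul_one]⟩
  have hYa := (coordE hQ hT hL hua2 hea m' hm'0 _ hz1 hz2).2.1
  -- `w` and `e` have values in roots of unity
  have hw6 : ∀ x, w x ≠ 0 → w x ^ 6 = 1 := by
    intro x hx
    apply hw.pow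
    intro h
    exact hx (hw.zero x h)
  have her6 : ∀ x, e x ≠ 0 → e x ^ (6 * r) = 1 := by
    intro x hx
    rw [hee] at hx ⊢
    rw [mul_pow, pow_mul (w x), hw6 x (right_ne_zero_of_mul hx), one_pow, mul_one, mul_comm 6,
      pow_mul, her x (left_ne_zero_of_mul hx), one_pow]
  have h6r0 : 6 * r ≠ 0 := mul_ne_zero (by norm_num) hr0
  have hQalg : ∀ q, IsAlgebraic ℚ (Q q) := by
    intro q
    have h1 := algE hE hT hL he.toIsEI hgt h3f (natCast_mem_idl (3 * f)) hcopb h6r0 her6 q.1 q.2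
    have h3 : Q q = PhiI (R.b R.i0) e q.1 q.2 / R.om R.i0 * (3 * u)⁻¹ := by
      rw [hQdef]
      field_simp
    have h4 : IsAlgebraic ℚ (3 : ℂ) := by simpa using NST.ALT.alg_num 3
    rw [h3]
    exact h1.mul (h4.mul hua).inv
  -- the field
  set Ts : Set ℂ := (Q '' (S : Set (OnePoint ℚ × OnePoint ℚ))) ∪
    ({u, κ, yu (R.L R.i0) u (R.om R.i0 / m')} ∪
      ((Polynomial.nthRootsFinset r (1 : ℂ) : Finset ℂ) : Set ℂ)) with hTs
  have hTfin : Ts.Finite := by
    refine Set.Finite.union ?_ (Set.Finite.union ?_ ?_)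
    · exact (Finset.finite_toSet S).image _
    · exact Set.toFinite _
    · exact Finset.finite_toSet _
  have hTalg : ∀ t ∈ Ts, IsAlgebraic ℚ t := by
    rintro t (⟨q, -, rfl⟩ | (ht | ht))
    · exact hQalg q
    · rcases ht with rfl | ht
      · exact hua
      · rcases ht with rfl | ht
        · exact hκa
        · rw [Set.mem_singleton_iff] at ht
          rw [ht]
          exact hYa
    · rw [Finset.mem_coe, Polynomial.mem_nthRootsFinset (Nat.pos_of_ne_zero hr0)] at ht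
      refine ⟨Polynomial.X ^ r - 1, Polynomial.X_pow_sub_C_ne_zero
        (Nat.pos_of_ne_zero hr0) (1 : ℚ), ?_⟩
      simp [ht]
  obtain ⟨F, hFf, hFg, hEF, hTF⟩ := nt_GLC A B hQ (RFE (idl (A := A) (B := B) m'))
    (hT.fin _ (idl_ne_bot hQ hm'0)) Ts hTfin hTalg
  have huF : u ∈ F := hTF (Or.inr (Or.inl (Or.inl rfl)))
  have hκF : κ ∈ F := hTF (Or.inr (Or.inl (Or.inr (Or.inl rfl))))
  have hyF : yu (R.L R.i0) u (R.om R.i0 / m') ∈ F :=
    hTF (Or.inr (Or.inl (Or.inr (Or.inr rfl))))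
  have hrF : ∀ z : ℂ, z ^ r = 1 → z ∈ F := fun z hz => hTF (Or.inr (Or.inr (by
    rw [Finset.mem_coe, Polynomial.mem_nthRootsFinset (Nat.pos_of_ne_zero hr0)]
    exact hz)))
  have hunf : ∀ z ∈ KIn A B V F, V.valuation z < 1 →
      V.valuation z ^ 2 ≤ V.valuation (3 : ℂ) := by
    intro z hz hz1
    have h2 := Pool.Agent.N2T.unfP hQ hS.hV hC.dP (Pool.Agent.ME3.UNR.dD_not hC) F z hz hz1
    rw [← hC.vd]
    gcongr
  -- the multiplier
  obtain ⟨tau, htau⟩ : ∃ tau, tau = u ^ (1 - i) * κ := ⟨_, rfl⟩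
  have htau0 : tau ≠ 0 := by
    rw [htau]
    exact mul_ne_zero (pow_ne_zero _ hu0) hY1
  have htauF : tau ∈ F := by
    rw [htau]
    exact F.mul_mem (pow_mem huF (1 - i)) hκF
  have hvtau : V.valuation tau ^ 4 = V.valuation (3 : ℂ) ^ (1 - i) := by
    rw [htau, map_mul, hvκ, mul_one, map_pow, ← pow_mul, mul_comm, pow_mul, hvu]
  -- the key point
  have hkey : ∀ σ : ℂ ≃+* ℂ, InI A B V (F : Set ℂ) σ → ∀ q ∈ S,
      σ (Q q * tau) = Q q * tau := by
    intro σ hσ q hq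
    have hRF : ∀ y ∈ RFE (idl (A := A) (B := B) m'), σ y = y :=
      hC.iner m' hm'0 (hf2.trans hfm) hm'3 σ hσ.fix (fun y hy hyV => hσ.iner y (hEF hy) hyV)
    have hle : (RFE (idl (A := A) (B := B) 2) : IntermediateField (kk A B) ℂ) ≤
        RFE (idl (A := A) (B := B) m') := hT.mono _ _ (idl_mono (hf2.trans hfm))
    have hsu2 : σ (u ^ 2) = u ^ 2 := hRF _ (hle hu2)
    obtain ⟨c0, -, hcop, hact, hz⟩ := actE hE hT hm0 ((hf2.trans hfm).trans hmm) hσ.fix
    have hA := hact _ _ _ hL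
    have hc0P : c0 ∉ P := NSTR.TYF.not_mem hS.hP h3m hcop
    -- the sign
    have hmz : (m : ℂ) * (R.om R.i0 / m') ∈ (R.L R.i0).lattice := by
      have h1 : (m : ℂ) = ((3 ^ (j + 1) : ℕ) : ℂ) * (m' : ℂ) := by
        rw [hm]
        push_cast
        ring
      rw [h1, mul_assoc, ← nsmul_eq_mul]
      exact nsmul_mem hz2 _
    obtain ⟨h4, h5, -⟩ := hA.act _ hmz hz1
    have hpm1 := cong_pm hQ (by omega : 2 ≤ m') (σ := σ) hL0 (c := c0) h5.symm h4
      (hRF _ (wp_mem hQ hL hz1 hz2))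
    obtain ⟨d, c, hd, hc0, hcm⟩ : ∃ (d : ℤ) (c : OO A B), (d = 1 ∨ d = -1) ∧
        c0 = (d : OO A B) * c ∧ c - 1 ∈ idl (A := A) (B := B) m' := by
      rcases hpm1 with h | h
      · exact ⟨1, c0, Or.inl rfl, by rw [Int.cast_one, one_mul], h⟩
      · refine ⟨-1, -c0, Or.inr rfl, by rw [Int.cast_neg, Int.cast_one]; ring, ?_⟩
        have h6 : -c0 - 1 = -(c0 + 1) := by ring
        rw [h6]
        exact (Submodule.neg_mem_iff _).2 h
    have hembc : emb c0 = (d : ℂ) * emb c := by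
      rw [hc0, MUX.emb_mul hQ, MUX.emb_intCast hQ]
    have hec0 : e c0 = (d : ℂ) * e c := by
      rw [hc0, he.mul]
      congr 1
      rcases hd with rfl | rfl
      · rw [Int.cast_one, Int.cast_one, he.one]
      · rw [Int.cast_neg, Int.cast_one, Int.cast_neg, Int.cast_one, he.neg]
    have hwc0 : w c0 = (d : ℂ) * w c := by
      rw [hc0, hw.mul]
      congr 1
      rcases hd with rfl | rfl
      · rw [Int.cast_one, Int.cast_one, hw.one]
      · rw [Int.cast_neg, Int.cast_one, Int.cast_neg, Int.cast_one, hwm1]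
    have hcP : c ∉ P := by
      intro h
      apply hc0P
      rw [hc0]
      exact P.mul_mem_left _ h
    have hdd : (d : ℂ) * d = 1 := by
      rcases hd with rfl | rfl <;> norm_num
    have hd0 : (d : ℂ) ≠ 0 := left_ne_zero_of_mul_eq_one hdd
    have hA' : ActN σ m (sp c0) (R.L R.i0) (R.L R.i0) ((d : ℂ) * emb c) := by
      rw [← hembc]
      exact hA
    have hsu : σ u = d * u := by
      refine sguR hQ hC.v3 hv2 hL0.toIsLI hG h3m' (hC.nat m' hm'3) hmm hcm hd hA' hsu2 ?_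
      intro h
      have h1 := hσ.iner _ hyF ((V.valuation_le_one_iff _).1 h)
      rwa [ValuationSubring.mem_nonunits_iff] at h1
    -- `w(c)`
    obtain ⟨η, η', hη, hη3, hcη⟩ := unitP hC hE.hA hS.hB hc0P
    have hwη : w c0 = emb η := by
      rw [hw.per _ _ hcη]
      exact hw.unit η (IsUnit.of_mul_eq_one η' hη)
    have hc1P := one_P hC hE.hA hS.hB hL0.toIsLI hL.nrm h3m hc0P hA
    have hη1 : η ^ 3 = 1 := by
      rcases hη3 with h | h
      · exact h
      · exfalso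
        have h3P : (3 : OO A B) ∈ P := by
          have := hS.hP.mem
          exact_mod_cast this
        have h6 : η - 1 ∈ P := by
          have h7 : c0 - η ∈ P := by
            obtain ⟨t, ht⟩ := Ideal.mem_span_singleton'.1 hcη
            rw [← ht]
            exact P.mul_mem_left _ hS.hP.mem
          have h8 : η - 1 = (c0 - 1) - (c0 - η) := by ring
          rw [h8]
          exact P.sub_mem hc1P h7
        have h7 : η ^ 3 - 1 ∈ P := by
          have h8 : η ^ 3 - 1 = (η ^ 2 + η + 1) * (η - 1) := by ring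
          rw [h8]
          exact P.mul_mem_left _ h6
        rw [h] at h7
        have h8 : (1 : OO A B) ∈ P := by
          have h9 : (1 : OO A B) = 3 + (-1 - 1) := by ring
          rw [h9]
          exact P.add_mem h3P h7
        exact hS.hP.prime.ne_top ((Ideal.eq_top_iff_one _).2 h8)
    have hwc : w c = (d : ℂ) * emb η := by
      have h6 : (d : ℂ) * w c0 = w c := by
        rw [hwc0, ← mul_assoc, hdd, one_mul]
      rw [← h6, hwη]
    have hη3' : emb η ^ 3 = 1 := by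
      rw [← MUX.emb_pow hQ, hη1, MUX.emb_one hQ]
    have hη0 : emb η ≠ 0 := by
      intro h
      rw [h] at hη3'
      norm_num at hη3'
    -- `σ κ`
    have hsκ : σ κ = emb η * κ := by
      have h6 : (m : ℂ) * (R.om R.i0 / 3) ∈ (R.L R.i0).lattice := by
        obtain ⟨k, hk⟩ := h3m
        have h7 := nsmul_mem hY3 k
        rw [nsmul_eq_mul] at h7
        have h8 : (m : ℂ) * (R.om R.i0 / 3) = (k : ℂ) * (3 * (R.om R.i0 / 3)) := by
          rw [hk]
          push_cast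
          ring
        rw [h8]
        exact h7
      obtain ⟨-, h7, -⟩ := hA.act _ h6 hY0
      rw [← hκ] at h7
      rw [← h7, (wp_cong hQ hL.toIsLI hcη (w := R.om R.i0 / 3) (by exact_mod_cast hY3)).1,
        (unit_hom hQ hL.toIsLI hη).2.2.1, ← hκ, div_eq_iff (pow_ne_zero 2 hη0)]
      linear_combination (-κ) * hη3'
    -- the values of `e`
    have hroot : ∀ z : ℂ, (z = 0 ∨ z ^ r = 1) → σ z = z := by
      refine (NST.x_RTU V hC.v3 r hr).2 σ ?_
      intro z hz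
      have hz1 : V.valuation z = 1 := NST.RTU.v_root hr0 hz
      have h1 := hσ.iner z (hrF z hz) ((V.valuation_le_one_iff _).1 hz1.le)
      rwa [ValuationSubring.mem_nonunits_iff] at h1
    have hsw : ∀ x, σ (w x) = w x := by
      intro x
      by_cases hx : x ∈ P
      · rw [hw.zero x hx, map_zero]
      · obtain ⟨ζ, ζ', hζ, -, hxζ⟩ := unitP hC hE.hA hS.hB hx
        rw [hw.per _ _ hxζ, hw.unit ζ (IsUnit.of_mul_eq_one ζ' hζ)]
        exact Pool.Agent.MUXC.FGL.fix hσ.fix _ (Pool.Agent.MU3A.emb_mem ζ)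
    have hse : ∀ x, σ (e x) = e x := by
      intro x
      rw [hee, map_mul, hsw]
      congr 1
      apply hroot
      by_cases hx : e0 x = 0
      · exact Or.inl hx
      · exact Or.inr (her x hx)
    have h1 := valE hQ hL.toIsLI hm0 hA hz he.toIsEI hgt
      (idl_mono hpm (natCast_mem_idl m)) hcopb hse q.1 q.2
      (dn_mono hdvd (hSD0 q hq).1) (dn_mono hdvd (hSD0 q hq).2)
    have h3 : e c = w c ^ (3 * i + 1) := hi c (idl_mono hfm hcm) hcP
    obtain ⟨x, hx⟩ : ∃ x, x = PhiI (R.b R.i0) e q.1 q.2 / R.om R.i0 := ⟨_, rfl⟩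
    rw [← hx] at h1
    have h7 : Q q = x / (3 * u) := by
      rw [hQdef, hx]
      field_simp
    have hec : e c0 = (d : ℂ) * w c ^ (3 * i + 1) := by rw [hec0, h3]
    have hsx : σ x = x / e c0 := by
      have h8 : e c0 ≠ 0 := by
        rw [hec, hwc]
        exact mul_ne_zero hd0 (pow_ne_zero _ (mul_ne_zero hd0 hη0))
      rw [eq_div_iff h8, mul_comm]
      exact h1
    rw [h7, htau, map_mul, map_div₀, map_mul, map_mul, map_pow, map_ofNat, hsu, hsκ, hsx, hec, hwc]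
    have hi01 : i = 0 ∨ i = 1 := by omega
    have hd4 : (d : ℂ) ^ 4 = 1 := by
      have : (d : ℂ) ^ 4 = ((d : ℂ) * d) ^ 2 := by ring
      rw [this, hdd, one_pow]
    rcases hi01 with rfl | rfl
    · field_simp
      norm_num
      linear_combination (-(x * emb η * u * d)) * hdd
    · have h8 : emb η ^ 4 = emb η := by linear_combination emb η * hη3'
      norm_num
      rw [mul_pow, h8, hd4, one_mul]
      field_simp
      linear_combination (-x) * hdd
  have hi0 : ∀ i, i = R.i0 := one_elt hE R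
  have hQU : ∀ x y, PhiKE R e ka x y / (3 * u * R.om R.i0) = ka R.i0 * Q (x, y) := by
    intro x y
    unfold PhiKE
    rw [Finset.sum_eq_single R.i0 (fun i _ hi => absurd (hi0 i) hi)
      (fun h => absurd (Finset.mem_univ _) h), hQdef]
    field_simp
  have hvk : V.valuation (ka R.i0) = 1 := NST.RTU.v_root hr0 (hka R.i0)
  refine ⟨ka R.i0 * tau⁻¹, KIn A B V F, ?_, hunf, ?_⟩
  · have hle : AddSubgroup.closure (Q '' (S : Set (OnePoint ℚ × OnePoint ℚ))) ≤
        ((KIn A B V F).toAddSubgroup).map (AddMonoidHom.mulLeft (tau⁻¹)) := by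
      rw [AddSubgroup.closure_le]
      rintro _ ⟨q, hq, rfl⟩
      refine ⟨Q q * tau, ⟨?_, fun σ hσ => hkey σ hσ q hq⟩, ?_⟩
      · exact F.mul_mem (hTF (Or.inl ⟨q, hq, rfl⟩)) htauF
      · rw [AddMonoidHom.coe_mulLeft]
        field_simp
    intro x y
    obtain ⟨w', hw', hw2⟩ := hle (hgen' x y)
    refine ⟨w', hw', ?_⟩
    rw [hQU, ← hw2, AddMonoidHom.coe_mulLeft]
    ring
  · rw [map_mul, hvk, one_mul, map_inv₀, inv_pow, hvtau]
    exact inv_mul_cancel₀ (pow_ne_zero _ (V.valuation.ne_zero_iff.2 (by norm_num)))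

end

end Pool.Agent.MET
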