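import Pool.Agent.ME.H_Fin3
import Pool.Agent.ME.G_GPN
import Pool.Agent.ME.T_TYFR

/-!
# ME, block H, `D = -3`, `p = 3` without hypotheses (helper58)
-/

set_option autoImplicit false

namespace Pool.Agent.MEH

/-- the character sums for `D = -3` -/
theorem h_HFIN3 : Pool.Agent.NSRD.Sq_HFIN_E :=
  hfin3 Pool.Agent.MEG.g_GPTR Pool.Agent.MET.tyf3

end Pool.Agent.MEH
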