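import Pool.Agent.ME.H_N
import Pool.Agent.ME2.T_Lib
import Pool.Agent.NS.G_Leg
import Pool.Agent.MUX.HNAll
import Pool.Agent.MUX.HY_SYM
import Pool.Agent.MUX.HY_HFX
import Pool.Agent.MUX.HY_BRG

/-!
# ME, block H, `D = -4` (helper58): the character sums (after helper6's `NS/H_Hfin.lean`)
-/

set_option autoImplicit false

namespace Pool.Agent.MEH

open _root_.MU3 Pool.Agent.MU3A Pool.Agent.MU3B Pool.Agent.MU3F Pool.Agent.MUX Pool.Agent.MUXH
  Pool.Agent.MUXHY Pool.Agent.MuSym Pool.Agent.NS Pool.Agent.MUXHN OnePoint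
open Pool.Agent.ME hiding ActE
open scoped ComplexConjugate

noncomputable section

variable {A B : ℤ}

theorem sum_alg {ι : Type} (S : Finset ι) (F : ι → ℂ) (h : ∀ c ∈ S, IsAlgebraic ℚ (F c)) :
    IsAlgebraic ℚ (∑ c ∈ S, F c) := by
  rw [← mem_algebraicClosure_iff]
  exact sum_mem fun c hc => mem_algebraicClosure_iff.2 (h c hc)

/-- the norms of the `b_i` are prime to the conductor -/
theorem copE {n : ℕ} {ι : Type} (R : RepsE A B n ι) {g : Ideal (OO A B)}
    (hg : ((n : ℕ) : OO A B) ∈ g) (i : ι) :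
    IsCoprime (MUX.sp ((MUX.nI (R.b i) : ℕ) : OO A B)) g := by
  obtain ⟨u, w, huw⟩ : IsCoprime ((nI (R.b i) : ℕ) : ℤ) (n : ℤ) :=
    Nat.isCoprime_iff_coprime.mpr (R.cop i)
  rw [Ideal.isCoprime_iff_exists]
  refine ⟨(u : OO A B) * ((nI (R.b i) : ℕ) : OO A B), ?_, (w : OO A B) * ((n : ℕ) : OO A B), ?_, ?_⟩
  · exact Ideal.mul_mem_left _ _ (Ideal.mem_span_singleton_self _)
  · exact Ideal.mul_mem_left _ _ hg
  · have := congrArg (fun z : ℤ => (z : OO A B)) huw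
    push_cast at this
    exact this

lemma e_nIE {n : ℕ} {ι : Type} (R : RepsE A B n ι) {g : Ideal (OO A B)} {e : OO A B → ℂ}
    (he : IsEI g e) (hn : ((n : ℕ) : OO A B) ∈ g) (c : ι) :
    e ((nI (R.b c) : ℕ) : OO A B) ≠ 0 := by
  rw [he.supp]
  exact copE R hn c

/-- the invariants of the normalised lattices are rational -/
theorem nrm_alg {L : PeriodPair} (h : NrmE A B L) : IsAlgebraic ℚ L.g₂ ∧ IsAlgebraic ℚ L.g₃ := by
  rw [h.g2, h.g3]
  unfold g2E g3E
  have h0 : IsAlgebraic ℚ (0 : ℂ) := isAlgebraic_zero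
  have h4 : IsAlgebraic ℚ (4 : ℂ) := by
    have := isAlgebraic_algebraMap (R := ℚ) (A := ℂ) (4 : ℚ)
    simpa using this
  split_ifs
  · exact ⟨h4, h0⟩
  · exact ⟨h0, h4.neg⟩

/-- `u` is algebraic -/
theorem u_alg {g2 g3 u e lam : ℂ} (h2 : IsAlgebraic ℚ g2) (h3 : IsAlgebraic ℚ g3)
    (h : ∀ X : ℂ, 4 * X ^ 3 - g2 * X - g3 = 4 * (X - e) * (X - e - u ^ 2) * (X - e - lam * u ^ 2)) :
    IsAlgebraic ℚ u := by
  have k1 : IsAlgebraic ℚ e := NSG.root_alg h2 h3 (by rw [h e]; ring)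
  have k2 : IsAlgebraic ℚ (e + u ^ 2) := NSG.root_alg h2 h3 (by rw [h (e + u ^ 2)]; ring)
  have k4 : IsAlgebraic ℚ (u ^ 2) := by
    have : u ^ 2 = (e + u ^ 2) - e := by ring
    rw [this]
    exact k2.sub k1
  exact IsAlgebraic.of_pow (by norm_num) k4

/-- the values of the symbol divided by `om_(i0)` are algebraic -/
theorem phi_alg (h : CaseE A B) (T : TorXE A B) {n : ℕ} {ι : Type} (R : RepsE A B n ι)
    {g : Ideal (OO A B)} {e : OO A B → ℂ} (he : IsEI g e) (hg : g ≠ ⊤) (hn : n ≠ 0)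
    (hng : ((n : ℕ) : OO A B) ∈ g) {r : ℕ} (hr : r ≠ 0) (her : ∀ x, e x ≠ 0 → e x ^ r = 1)
    (c : ι) (x y : OnePoint ℚ) : IsAlgebraic ℚ (PhiI (R.b c) e x y / R.om R.i0) := by
  have h1 := Pool.Agent.ME2.algE h T (R.nl c) he hg hn hng (copE R hng c) hr her x y
  rw [Pool.Agent.ME2.one_elt h R c] at h1 ⊢
  exact h1

/-- the hypotheses of the abstract part -/
theorem hyp4 (hG : Sn_GPT_E) (hT' : Sn_TYF_E)
    {V : ValuationSubring ℂ} {f : ℕ}
    (hS : SetE4 A B V f) (hT : TorXE A B) {ι : Type} [Fintype ι] (R : RepsE A B (3 * f) ι)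
    {u el lam : ℂ} (hg : GoodN V (R.L R.i0) u el lam) {w : OO A B → ℂ} (hw : IsTei V w)
    {e : OO A B → ℂ} (he' : IsEIE (idl (A := A) (B := B) (3 * f)) e) {r : ℕ} (hr3 : ¬ 3 ∣ r)
    (her : ∀ x, e x ≠ 0 → e x ^ r = 1) {i : ℕ} (hi4 : 4 ≤ i) (hi7 : i ≤ 7)
    (hty : ∀ x, x - 1 ∈ idl (A := A) (B := B) f → x ∉ idl (A := A) (B := B) 3 → e x = w x ^ i)
    {s : ℤ} (hs : s = 1 ∨ s = -1) {kk : ι → ℂ} (hkk : ∀ i, kk i ^ r = 1) :
    ∃ (pi : ℂ) (KI : Subfield ℂ), HypN V (N0X A B f) 1 i (nuX e)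
      (fun x y => PhiKE R e kk x y / (u * R.om R.i0)) s pi KI := by
  have he : IsEI (idl (A := A) (B := B) (3 * f)) e := he'.toIsEI
  obtain ⟨pi, KI, typ, unr, vpi⟩ := hT' A B V f hS hT ι R u el lam hg w hw e he' r hr3 her i hty kk
    hkk
  obtain ⟨v3, vZ, v1, vr, D0, D3, gD, gb, gt, h3f⟩ := val4 hS
  have hcq : CQ A B := hS.case.toCQ
  have hr0 : r ≠ 0 := by
    rintro rfl
    exact hr3 (dvd_zero 3)
  have hf0 := hS.f0
  obtain ⟨nu1, num, nuper, nuv⟩ := chr4 MUXF.xf_CHI hS he hr0 her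
  have hN0 : ((N0X A B f : ℕ) : ℤ) = absD A B * (f : ℤ) ^ 2 := Brg.N0X_cast f D0
  have hDz : absD A B * ((3 * f : ℕ) : ℤ) ^ 2 = ((3 ^ (1 + 1) * N0X A B f : ℕ) : ℤ) := by
    push_cast
    rw [hN0]
    ring
  have hfz : (f : ℤ) ≠ 0 := by exact_mod_cast hf0
  have hNne : N0X A B f ≠ 0 := by
    have h1 : ((N0X A B f : ℕ) : ℤ) ≠ 0 := by
      rw [hN0]
      exact mul_ne_zero D0.ne' (pow_ne_zero _ hfz)
    exact_mod_cast h1
  refine ⟨pi, KI, ?_⟩
  exact
    { vp := v3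
      N0 := hNne
      cop := by
        rw [Nat.Prime.coprime_iff_not_dvd Nat.prime_three]
        intro h
        have h1 : (3 : ℤ) ∣ ((N0X A B f : ℕ) : ℤ) := by exact_mod_cast h
        rw [hN0] at h1
        rcases Int.prime_three.dvd_or_dvd h1 with h2 | h2
        · exact D3 h2
        · have h4 := Int.prime_three.dvd_of_dvd_pow h2
          exact hS.fp (by exact_mod_cast h4)
      nu1 := nu1
      num := num
      nuper := nuper
      nuv := nuv
      sym := by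
        have h1 : ∀ c, IsSym (3 ^ (1 + 1) * N0X A B f) (nuX e) (PhiI (R.b c) e) := fun c =>
          MUXT.sym_EI (toCQ hcq) (R.b c) (R.nl c).b_ne _ e (toEI he) (3 * f) (by omega) h3f _
            (mul_ne_zero (by norm_num) hNne) (by rw [hDz])
        exact Sym.isSym_lin h1 kk (u * R.om R.i0)
      dep := by
        intro x
        unfold PhiKE
        rw [← Finset.sum_div, Finset.sum_comm]
        have h1 : ∀ c, ∑ j ∈ Finset.range 3, kk c * PhiI (R.b c) e ∞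
            (((x + j) / 3 : ℚ) : OnePoint ℚ) = 0 := by
          intro c
          rw [← Finset.mul_sum, phi_dep4 hS he (R.nl c).b_ne x, mul_zero]
        rw [Finset.sum_eq_zero fun c _ => h1 c, zero_div]
      alg := by
        intro x y
        have hua : IsAlgebraic ℚ u := u_alg (nrm_alg (R.nl R.i0).nrm).1 (nrm_alg (R.nl R.i0).nrm).2 (NSG.cub hg)
        have hka : ∀ c, IsAlgebraic ℚ (kk c) := fun c =>
          IsAlgebraic.of_pow (Nat.pos_of_ne_zero hr0) (by rw [hkk c]; exact isAlgebraic_one)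
        have h1 := fun c => phi_alg hS.case hT R he gt (by omega) h3f hr0 her c x y
        have e1 : PhiKE R e kk x y / (u * R.om R.i0) =
            (∑ c, kk c * (PhiI (R.b c) e x y / R.om R.i0)) * u⁻¹ := by
          unfold PhiKE
          have ho : R.om R.i0 ≠ 0 := (R.nl R.i0).om_ne
          have hu := hg.u0
          rw [mul_comm u, ← div_div, Finset.sum_div, div_eq_mul_inv]
          congr 1
          refine Finset.sum_congr rfl fun c _ => ?_
          ring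
        rw [e1]
        exact (sum_alg _ _ fun c _ => (hka c).mul (h1 c)).mul hua.inv
      fin := by
        classical
        have h1 := fun c => MUXT.fg_EI A B (toCQ hcq) (R.b c) _ e (R.nl c).b_ne gb (toEI he)
        choose S hS' using h1
        set Z : ℂ := u * R.om R.i0 with hZ
        refine ⟨Finset.univ.biUnion fun c => (S c).image fun t => kk c / Z * t, fun x y => ?_⟩
        have e1 : PhiKE R e kk x y / Z = ∑ c, kk c / Z * PhiI (R.b c) e x y := by
          unfold PhiKE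
          rw [Finset.sum_div]
          refine Finset.sum_congr rfl fun c _ => ?_
          ring
        rw [e1]
        refine sum_mem fun c _ => ?_
        have h2 := hS' c x y
        have h3 : AddMonoidHom.mulLeft (kk c / Z) (PhiI (R.b c) e x y) ∈
            (AddSubgroup.closure (S c : Set ℂ)).map (AddMonoidHom.mulLeft (kk c / Z)) :=
          AddSubgroup.mem_map_of_mem _ h2
        rw [AddMonoidHom.map_closure] at h3
        refine AddSubgroup.closure_mono ?_ h3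
        rintro _ ⟨t, ht, rfl⟩
        simp only [Finset.coe_biUnion, Set.mem_iUnion]
        exact ⟨c, by simp, Finset.mem_coe.2 (Finset.mem_image.2 ⟨t, ht, rfl⟩)⟩
      s1 := hs
      typ := typ
      unr := unr
      i4 := hi4
      i7 := hi7
      vpi := vpi
      G := by
        intro N' hN' hd
        refine hG A B V f hS hT ι R u el lam hg e he' r hr0 her kk (vr r _ hr0 (hkk _)) N' hN' ?_
        rw [hDz]
        exact_mod_cast hd
      prj := prj4 MUXF.xf_PHX MUXF.xf_PRJ hS R he kk _ _ }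

/-- the character sums -/
theorem hfin4 (hG : Sn_GPT_E) (hT' : Sn_TYF_E) :
    Sn_HFIN_E := by
  intro A B V f hS hT ι _ R u el lam hg w hw e he' r hr3 her i hi4 hi7 hty s hs kk hkk n₀
  obtain ⟨v3, vZ, v1, vr, D0, D3, gD, gb, gt, h3f⟩ := val4 hS
  have he : IsEI (idl (A := A) (B := B) (3 * f)) e := he'.toIsEI
  have hcq : CQ A B := hS.case.toCQ
  have hr0 : r ≠ 0 := by
    rintro rfl
    exact hr3 (dvd_zero 3)
  have hf0 := hS.f0
  set kk' : ι → ℂ := fun c => kk c / e ((nI (R.b c) : ℕ) : OO A B) with hkk'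
  have heN : ∀ c, e ((nI (R.b c) : ℕ) : OO A B) ≠ 0 := e_nIE R he h3f
  have hk1 : ∀ c, kk' c ^ r = 1 := by
    intro c
    rw [hkk']
    beta_reduce
    rw [div_pow, hkk, her _ (heN c), div_one]
  obtain ⟨pi, KI, hyp⟩ := hyp4 hG hT' hS hT R hg hw he' hr3 her hi4 hi7 hty hs hk1
  have hfz : (0 : ℤ) < f := by exact_mod_cast Nat.pos_of_ne_zero hf0
  have haz : ((aX 3 f : ℕ) : ℤ) - 1 = 3 * (2 * f) := by
    unfold aX q0
    push_cast
    norm_num
    ring
  have ha3 : (3 : ℤ) ∣ ((aX 3 f : ℕ) : ℤ) - 1 := by rw [haz]; exact Dvd.intro _ rfl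
  have ha1 : ((aX 3 f : ℕ) : ℤ) ≠ 1 := by
    intro h
    rw [h] at haz
    omega
  obtain ⟨n, hn, hmain⟩ := xn_HN V (N0X A B f) 1 i (nuX e) _ s pi KI hyp ((aX 3 f : ℕ) : ℤ) 4 ha3 ha1
    (by norm_num) (by norm_num) (n₀ + 1)
  obtain ⟨m, rfl⟩ : ∃ m, n = m + 1 := ⟨n - 1, by omega⟩
  refine ⟨m, by omega, ?_⟩
  have hQS := h_QSX MUXF.xf_F5 MUXF.xf_PRD 3 Nat.prime_three A B hcq f hf0 ι inferInstance R _ e
    he h3f kk s 1 m
  have hM : q0 3 * 3 ^ m = 3 ^ (m + 1) := by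
    unfold q0
    norm_num
    ring
  have hq3 : (q0 3 : ℤ) = 3 := by
    unfold q0
    norm_num
  have hq3' : (q0 3 : ℚ) = 3 := by
    unfold q0
    norm_num
  rw [hM, hq3, hq3'] at hQS
  have e4 : (1 + 3 : ℤ) = 4 := by norm_num
  have e4' : (1 + 3 : ℚ) = 4 := by norm_num
  rw [e4, e4'] at hQS
  have hL : ∑ j ∈ Finset.range 2, (-1 : ℂ) ^ (1 - j) *
        (STXE R (lvX 3 f m) (3 ^ (m + 1)) (aX 3 f) e kk (4 ^ j) +
          s * STXE R (lvX 3 f m) (3 ^ (m + 1)) (aX 3 f) e kk (-(4 ^ j))) =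
      ∑ j ∈ Finset.range (1 + 1), ((-1 : ℂ) ^ (1 - j) * ((1 : ℕ).choose j : ℂ)) *
        (STXE R (lvX 3 f m) (3 ^ (m + 1)) (aX 3 f) e kk (4 ^ j) +
          s * STXE R (lvX 3 f m) (3 ^ (m + 1)) (aX 3 f) e kk (-4 ^ j)) := by
    refine Finset.sum_congr rfl fun j hj => ?_
    have hj2 : j = 0 ∨ j = 1 := by
      have := Finset.mem_range.1 hj
      omega
    rcases hj2 with rfl | rfl <;> simp
  rw [hL, hQS]
  have hprim := Hfx.prim 3 (m + 1) Nat.prime_three (-(4 * ((aX 3 f : ℕ) : ℤ) ^ 2)) (by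
    intro h
    rw [dvd_neg] at h
    rcases Int.prime_three.dvd_or_dvd h with h | h
    · omega
    · have h5 := Int.prime_three.dvd_of_dvd_pow h
      have h6 := dvd_sub h5 ha3
      rw [sub_sub_cancel] at h6
      omega)
  have hζ : ex (-((4 : ℚ) ^ 1 * (aX 3 f : ℚ) ^ 2) / ((3 ^ (m + 1) : ℕ) : ℚ)) =
      ex (((-(4 * ((aX 3 f : ℕ) : ℤ) ^ 2) : ℤ) : ℚ) / (3 : ℕ) ^ (m + 1)) := by
    push_cast
    rw [pow_one]
  rw [hζ]
  set ζ : ℂ := ex (((-(4 * ((aX 3 f : ℕ) : ℤ) ^ 2) : ℤ) : ℚ) / (3 : ℕ) ^ (m + 1)) with hζd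
  have h1 := hmain ζ hprim
  have hu := hg.u0
  have e5 : (2 * (f : ℂ) * ∑ b ∈ Finset.range (3 ^ (m + 1)), ζ ^ b *
      comb ((aX 3 f : ℕ) : ℤ) 4 1 (fun b => sgnPart (s : ℂ) (PPE R e kk) ∞
        ((b / ((3 ^ (m + 1) : ℕ) : ℚ) : ℚ) : OnePoint ℚ)) b) / u =
      2 * f * ∑ b ∈ Finset.range (3 ^ (m + 1)), ζ ^ b *
      comb ((aX 3 f : ℕ) : ℤ) 4 1 (fun b => sgnPart (s : ℂ)
        (fun x y => PhiKE R e kk' x y / (u * R.om R.i0)) ∞
        (((b : ℚ) / 3 ^ (m + 1) : ℚ) : OnePoint ℚ)) b := by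
    rw [mul_div_assoc, Finset.sum_div]
    congr 1
    refine Finset.sum_congr rfl fun b _ => ?_
    rw [mul_div_assoc]
    congr 1
    unfold comb
    rw [Finset.sum_div]
    refine Finset.sum_congr rfl fun j _ => ?_
    rw [mul_div_assoc]
    congr 1
    have e6 : ∀ b : ℤ, sgnPart (s : ℂ) (PPE R e kk) ∞
        ((b / ((3 ^ (m + 1) : ℕ) : ℚ) : ℚ) : OnePoint ℚ) = u * sgnPart (s : ℂ)
        (fun x y => PhiKE R e kk' x y / (u * R.om R.i0)) ∞
        (((b : ℚ) / 3 ^ (m + 1) : ℚ) : OnePoint ℚ) := by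
      intro b
      have e7 : ∀ x y, PPE R e kk x y = u * (PhiKE R e kk' x y / (u * R.om R.i0)) := by
        intro x y
        unfold PPE
        rw [← mul_div_assoc, mul_div_mul_left _ _ hu]
      unfold sgnPart
      rw [e7, e7]
      push_cast
      ring
    beta_reduce
    rw [e6, e6]
    field_simp
  rw [e5, map_mul, map_mul]
  have e8 : V.valuation (2 : ℂ) = 1 := by
    have := v1 2 (by norm_num)
    exact_mod_cast this
  have e9 : V.valuation (f : ℂ) = 1 := by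
    have := v1 f (by
      intro h
      exact hS.fp (by exact_mod_cast h))
    exact_mod_cast this
  rw [e8, e9, one_mul, one_mul]
  exact h1

end

end Pool.Agent.MEH
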