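import Pool.Agent.ME.H_QS
import Pool.Agent.MUX.HY_CHR
import Pool.Agent.MUX.HY_PRX
import Pool.Agent.MUX.XTF7
import Pool.Agent.MUX.XFAll
import Pool.Agent.NS.H_Dep

/-!
# ME, block H, `D = -4` (helper58): the nebentypus, the projector, depletion (after helper6's `NS/H_Chn.lean`, `H_Prn.lean`, `H_Dep.lean`)
-/

set_option autoImplicit false

namespace Pool.Agent.MEH

open _root_.MU3 Pool.Agent.MU3A Pool.Agent.MU3B Pool.Agent.MU3F Pool.Agent.MUX Pool.Agent.MUXH
  Pool.Agent.MUXHY Pool.Agent.MuSym Pool.Agent.NS Pool.Agent.ME OnePoint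
open scoped ComplexConjugate

noncomputable section

variable {A B : ℤ}

lemma three4 {V : ValuationSubring ℂ} {f : ℕ} (h : SetE4 A B V f) :
    (3 : ℤ) ∣ B ^ 2 + 4 * A + 1 := by
  rw [h.hB, h.case.hA]
  norm_num


/-- elementary facts -/
theorem val4 {V : ValuationSubring ℂ} {f : ℕ} (H : SetE4 A B V f) :
    V.valuation (3 : ℂ) < 1 ∧ (∀ n : ℤ, V.valuation (n : ℂ) ≤ 1) ∧
    (∀ n : ℤ, ¬ (3 : ℤ) ∣ n → V.valuation (n : ℂ) = 1) ∧
    (∀ (r : ℕ) (z : ℂ), r ≠ 0 → z ^ r = 1 → V.valuation z = 1) ∧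
    0 < absD A B ∧ ¬ (3 : ℤ) ∣ absD A B ∧
    idl (A := A) (B := B) (3 * f) ≤ sp ((absD A B : ℤ) : OO A B) ∧
    idl (A := A) (B := B) (3 * f) ≠ ⊥ ∧ idl (A := A) (B := B) (3 * f) ≠ ⊤ ∧
    ((3 * f : ℕ) : OO A B) ∈ idl (A := A) (B := B) (3 * f) := by
  have h3 : V.valuation (3 : ℂ) < 1 := by
    have h1 : emb ((3 : ℕ) : OO A B) ∈ V.nonunits :=
      (H.hV _).2 (Ideal.mem_span_singleton_self _)
    have h2 : emb ((3 : ℕ) : OO A B) = 3 := by
      unfold emb
      rw [QuadraticAlgebra.re_natCast, QuadraticAlgebra.im_natCast]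
      norm_num
    rw [h2, ValuationSubring.mem_nonunits_iff] at h1
    exact h1
  have hle : ∀ z : ℤ, V.valuation (z : ℂ) ≤ 1 := fun z =>
    (V.valuation_le_one_iff _).2 (intCast_mem V z)
  have hD0 : 0 < absD A B := by
    have := H.case.neg
    unfold absD
    omega
  have h3f : ((3 * f : ℕ) : OO A B) ∈ idl (A := A) (B := B) (3 * f) :=
    Ideal.mem_span_singleton_self _
  have hf0 := H.f0
  refine ⟨h3, hle, ?_, ?_, hD0, ?_, ?_, ?_, ?_, h3f⟩
  · intro n hn
    have hc : IsCoprime n 3 := by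
      rw [isCoprime_comm]
      exact (Int.prime_three.coprime_iff_not_dvd).2 hn
    obtain ⟨a, b, hab⟩ := hc
    by_contra hne
    have hlt : V.valuation (n : ℂ) < 1 := lt_of_le_of_ne (hle n) hne
    have h1 : V.valuation ((a : ℂ) * n + b * 3) < 1 := by
      refine lt_of_le_of_lt (V.valuation.map_add _ _) (max_lt ?_ ?_)
      · rw [map_mul]
        exact mul_lt_one_of_nonneg_of_lt_one_right (hle a) zero_le hlt
      · rw [map_mul]
        exact mul_lt_one_of_nonneg_of_lt_one_right (hle b) zero_le h3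
    have h2 : (a : ℂ) * n + b * 3 = 1 := by exact_mod_cast hab
    rw [h2, map_one] at h1
    exact lt_irrefl _ h1
  · intro r z hr hz
    have h1 : V.valuation z ^ r = 1 := by rw [← map_pow, hz, map_one]
    exact (pow_eq_one_iff_of_nonneg zero_le hr).1 h1
  · have := three4 H
    unfold absD
    omega
  · rw [Ideal.span_singleton_le_iff_mem, Ideal.mem_span_singleton]
    obtain ⟨t, ht⟩ := H.fD
    refine ⟨(3 * 2 * t : ℤ), ?_⟩
    have h1 : ((3 * f : ℕ) : OO A B) = ((3 * (f : ℤ) : ℤ) : OO A B) := by push_cast; rfl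
    rw [h1, ht]
    push_cast
    ring
  · intro h
    rw [h, Ideal.mem_bot] at h3f
    have h1 := congrArg QuadraticAlgebra.re h3f
    simp only [QuadraticAlgebra.re_natCast, QuadraticAlgebra.re_zero] at h1
    have h2 : (3 * f : ℕ) = 0 := by exact_mod_cast h1
    omega
  · intro h
    rw [Ideal.eq_top_iff_one, Ideal.mem_span_singleton] at h
    obtain ⟨y, hy⟩ := h
    have h1 := congrArg QuadraticAlgebra.re hy
    rw [QuadraticAlgebra.re_one, QuadraticAlgebra.re_mul, QuadraticAlgebra.re_natCast,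
      QuadraticAlgebra.im_natCast, mul_zero, zero_mul, add_zero] at h1
    have h9 : ((3 * f : ℕ) : ℤ) ∣ 1 := ⟨y.re, h1⟩
    have h10 := Int.le_of_dvd one_pos h9
    have : 0 < f := Nat.pos_of_ne_zero hf0
    omega

theorem chr4 (h4 : MUXF.Sx_CHI) {V : ValuationSubring ℂ} {f : ℕ} (H : SetE4 A B V f)
    {e : OO A B → ℂ} (he : IsEI (idl (A := A) (B := B) (3 * f)) e) {r : ℕ} (hr0 : r ≠ 0)
    (hr : ∀ x, e x ≠ 0 → e x ^ r = 1) :
    nuX e 1 = 1 ∧ (∀ d d', nuX e (d * d') = nuX e d * nuX e d') ∧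
    (∀ d d' : ℤ, ((3 * N0X A B f : ℕ) : ℤ) ∣ d - d' → nuX e d = nuX e d') ∧
    (∀ d, V.valuation (nuX e d) ≤ 1) := by
  obtain ⟨-, vZ, -, vru, hDpos, -, hgD, hg0, -, hpf⟩ := val4 H
  have hcq : CQ A B := H.case.toCQ
  have ev : ∀ x, V.valuation (e x) ≤ 1 := by
    intro x
    by_cases hx : e x = 0
    · rw [hx, map_zero]
      exact zero_le_one
    · exact (vru r (e x) hr0 (hr x hx)).le
  have hcopD : ∀ d : ℤ, e (d : OO A B) ≠ 0 → IsCoprime d (absD A B) := by
    intro d hd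
    have h5 := (he.supp _).1 hd
    apply Chr.coprime_int (A := A) (B := B)
    rw [← Ideal.isCoprime_span_singleton_iff]
    rw [Ideal.isCoprime_iff_sup_eq] at h5 ⊢
    exact top_le_iff.1 (h5 ▸ sup_le_sup_left hgD _)
  refine ⟨?_, ?_, ?_, ?_⟩
  · unfold nuX
    have : ((1 : ℤ) : OO A B) = 1 := by push_cast; rfl
    rw [Chr.chiX_one, this, he.one]
    norm_num
  · intro d d'
    unfold nuX
    have : ((d * d' : ℤ) : OO A B) = (d : OO A B) * (d' : OO A B) := by push_cast; rfl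
    rw [Chr.chiX_mul, this, he.mul]
    push_cast
    ring
  · intro d d' hd
    have hDnat : (((absD A B).toNat : ℕ) : ℤ) = absD A B := Int.toNat_of_nonneg hDpos.le
    have hd2 : (3 : ℤ) * (absD A B * (f : ℤ) ^ 2) ∣ d - d' := by
      have h5 : ((3 * N0X A B f : ℕ) : ℤ) = (3 : ℤ) * (absD A B * (f : ℤ) ^ 2) := by
        unfold N0X
        push_cast
        rw [hDnat]
      rwa [h5] at hd
    obtain ⟨t, ht⟩ := hd2
    have hD : absD A B ∣ d - d' := ⟨(3 : ℤ) * (f : ℤ) ^ 2 * t, by rw [ht]; ring⟩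
    unfold nuX
    by_cases hcop : IsCoprime d (absD A B)
    · have h5 : chiX A B d' = chiX A B d := ((h4 A B (toCQ hcq) d hcop).2.2 d' hD)
      have h6 : e (d : OO A B) = e (d' : OO A B) := by
        apply he.per
        have h7 : (d : OO A B) - (d' : OO A B) =
            (((absD A B * f * t : ℤ)) : OO A B) * ((3 * f : ℕ) : OO A B) := by
          have h8 : (d : OO A B) - (d' : OO A B) = ((d - d' : ℤ) : OO A B) := by push_cast; rfl
          rw [h8, ht]
          push_cast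
          ring
        rw [h7]
        exact Ideal.mul_mem_left _ _ hpf
      rw [h5, h6]
    · have h5 : e (d : OO A B) = 0 := by
        by_contra hne
        exact hcop (hcopD d hne)
      have h6 : e (d' : OO A B) = 0 := by
        by_contra hne
        apply hcop
        obtain ⟨s, hs⟩ := hD
        have h7 : d = d' + absD A B * s := by linarith
        rw [h7]
        exact (IsCoprime.add_mul_left_left_iff).2 (hcopD d' hne)
      rw [h5, h6, mul_zero, mul_zero]
  · intro d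
    unfold nuX
    rw [map_mul]
    exact mul_le_one' (vZ _) (ev _)


lemma sgn_PKE {n : ℕ} {ι : Type} [Fintype ι] (R : RepsE A B n ι) (e : OO A B → ℂ) (kk : ι → ℂ)
    (Z s : ℂ) (x y : OnePoint ℚ) :
    sgnPart s (fun x y => PhiKE R e kk x y / Z) x y =
      (∑ c, kk c * sgnPart s (PhiI (R.b c) e) x y) / Z := by
  unfold sgnPart PhiKE
  rw [← mul_div_assoc, ← add_div, Finset.mul_sum, ← Finset.sum_add_distrib]
  congr 1
  refine Finset.sum_congr rfl fun c _ => ?_
  ring

/-- the projector -/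
theorem prj4 (h3 : MUXF.Sx_PHX) (h4 : MUXF.Sx_PRJ) {V : ValuationSubring ℂ} {f : ℕ}
    (hS : SetE4 A B V f) {n : ℕ} {ι : Type} [Fintype ι] (R : RepsE A B n ι) {e : OO A B → ℂ}
    (he : IsEI (idl (A := A) (B := B) (3 * f)) e) (kk : ι → ℂ) (Z s : ℂ) :
    ∃ (q : ℕ) (c : ℕ → ℂ), q ≠ 0 ∧ (∀ t, V.valuation (c t) ≤ 1) ∧ ∀ x y : OnePoint ℚ,
      ∑ t ∈ Finset.range q, c t * sgnPart s (fun x y => PhiKE R e kk x y / Z) (mob q t 0 q x)
        (mob q t 0 q y) = PhiKE R e kk x y / Z := by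
  obtain ⟨-, -, hv1, hr, hD, hD3, hgD, hg, -, -⟩ := val4 hS
  obtain ⟨φ, hφ, hper, hφ2⟩ := h3 A B (toCQ hS.case.toCQ)
  have hqD : (((absD A B).toNat : ℕ) : ℤ) = absD A B := Int.toNat_of_nonneg hD.le
  have hq : (absD A B).toNat ≠ 0 := by omega
  have hv : V.valuation (((absD A B).toNat : ℕ) : ℂ) = 1 := by
    have h5 : (((absD A B).toNat : ℕ) : ℂ) = ((absD A B : ℤ) : ℂ) := by
      rw [← Int.cast_natCast (R := ℂ) (absD A B).toNat, hqD]
    rw [h5]
    exact hv1 _ hD3
  refine ⟨(absD A B).toNat, fun t => (1 / ((absD A B).toNat : ℂ)) *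
    ∑ n ∈ Finset.range (absD A B).toNat, φ n * ex (-(t * n) / (absD A B).toNat), hq,
    fun t => Prx.val_le V hr _ hq hv φ hφ t, fun x y => ?_⟩
  have key : ∀ c, ∑ t ∈ Finset.range (absD A B).toNat, ((1 / ((absD A B).toNat : ℂ)) *
      ∑ n ∈ Finset.range (absD A B).toNat, φ n * ex (-(t * n) / (absD A B).toNat)) *
      sgnPart s (PhiI (R.b c) e) (mob (absD A B).toNat t 0 (absD A B).toNat x)
        (mob (absD A B).toNat t 0 (absD A B).toNat y) = PhiI (R.b c) e x y := by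
    intro c
    exact h4 A B (toCQ hS.case.toCQ) (R.b c) _ e (R.nl c).b_ne hg (toEI he) _ φ hq
      (fun n => by rw [hqD]; exact hper n)
      (hφ2 (R.b c) _ e (R.nl c).b_ne (toEI he) hgD) s x y
  simp only [sgn_PKE]
  simp only [← mul_div_assoc]
  rw [← Finset.sum_div]
  congr 1
  simp only [Finset.mul_sum (s := (Finset.univ : Finset ι))]
  rw [Finset.sum_comm]
  unfold PhiKE
  refine Finset.sum_congr rfl fun c _ => ?_
  rw [← key c, Finset.mul_sum]
  refine Finset.sum_congr rfl fun t _ => ?_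
  ring

/-- for `3` inert, `e x = 0` if `3` divides the exponent -/
theorem e_zero4 (hQB : MUXF.Sx_QB) {V : ValuationSubring ℂ} {f : ℕ} (hS : SetE4 A B V f)
    {e : OO A B → ℂ} (he : IsEI (idl (A := A) (B := B) (3 * f)) e) {b : Ideal (OO A B)}
    (hb : b ≠ ⊥) {x : OO A B} (hx : x ∈ b) (h3 : (3 : ℤ) ∣ MUXF.qb b x) : e x = 0 := by
  obtain ⟨h1, -⟩ := (hQB A B (toCQ hS.case.toCQ) b hb).1 x hx
  have h2 : (3 : ℤ) ∣ nm x := by rw [h1]; exact Dvd.dvd.mul_left h3 _
  have h4 : (3 : ℤ) ∣ x.re ∧ (3 : ℤ) ∣ x.im := by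
    have h5 := three4 hS
    unfold nm at h2
    rcases hS.case.hB with hB | hB
    · subst hB
      obtain ⟨k, hk⟩ := h5
      obtain ⟨l, hl⟩ := h2
      have hA : A = 2 + 3 * (k - A - 1) := by linarith
      have h6 : (3 : ℤ) ∣ x.re ^ 2 + x.im ^ 2 := by
        refine ⟨l + (k - A) * x.im ^ 2, ?_⟩
        linear_combination hl + x.im ^ 2 * hk
      have e1 : x.re % 3 = 0 ∨ x.re % 3 = 1 ∨ x.re % 3 = 2 := by omega
      have e2 : x.im % 3 = 0 ∨ x.im % 3 = 1 ∨ x.im % 3 = 2 := by omega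
      rw [Int.dvd_iff_emod_eq_zero, Int.add_emod, pow_two, pow_two, Int.mul_emod,
        Int.mul_emod x.im] at h6
      rcases e1 with e1 | e1 | e1 <;> rcases e2 with e2 | e2 | e2 <;>
        rw [e1, e2] at h6 <;> omega
    · subst hB
      obtain ⟨k, hk⟩ := h5
      obtain ⟨l, hl⟩ := h2
      have hA : A - 1 = 3 * (k - A - 1) := by linarith
      have h6 : (3 : ℤ) ∣ x.re ^ 2 + x.re * x.im + 2 * x.im ^ 2 := by
        refine ⟨l + (k - A) * x.im ^ 2, ?_⟩
        linear_combination hl + x.im ^ 2 * hA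
      have e1 : x.re % 3 = 0 ∨ x.re % 3 = 1 ∨ x.re % 3 = 2 := by omega
      have e2 : x.im % 3 = 0 ∨ x.im % 3 = 1 ∨ x.im % 3 = 2 := by omega
      rw [Int.dvd_iff_emod_eq_zero, Int.add_emod, Int.add_emod (x.re ^ 2), Int.mul_emod 2, pow_two,
        pow_two, Int.mul_emod, Int.mul_emod x.re x.im, Int.mul_emod x.im x.im] at h6
      rcases e1 with e1 | e1 | e1 <;> rcases e2 with e2 | e2 | e2 <;>
        rw [e1, e2] at h6 <;> omega
  by_contra hne
  have h5 := (he.supp _).1 hne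
  obtain ⟨⟨s, hs⟩, ⟨t, ht⟩⟩ := h4
  have h6 : x = ((3 : ℕ) : OO A B) * ⟨s, t⟩ := by
    ext
    · rw [QuadraticAlgebra.re_mul, QuadraticAlgebra.re_natCast, QuadraticAlgebra.im_natCast, hs]
      push_cast
      ring
    · rw [QuadraticAlgebra.im_mul, QuadraticAlgebra.re_natCast, QuadraticAlgebra.im_natCast, ht]
      push_cast
      ring
  obtain ⟨i, hi, j, hj, hij⟩ := (Ideal.isCoprime_iff_exists).1 h5
  rw [Ideal.mem_span_singleton] at hi hj
  obtain ⟨i', hi'⟩ := hi
  obtain ⟨j', hj'⟩ := hj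
  have h7 : ((3 : ℕ) : OO A B) * (⟨s, t⟩ * i' + ((f : ℕ) : OO A B) * j') = 1 := by
    rw [← hij, hi', hj']
    conv_rhs => rw [h6]
    push_cast
    ring
  have h8 := congrArg QuadraticAlgebra.re h7
  rw [QuadraticAlgebra.re_mul, QuadraticAlgebra.re_natCast, QuadraticAlgebra.im_natCast,
    QuadraticAlgebra.re_one] at h8
  omega


/-- the sum over the translates by thirds of theta is zero -/
theorem theta_dep4 {V : ValuationSubring ℂ} {f : ℕ} (hS : SetE4 A B V f)
    {e : OO A B → ℂ} (he : IsEI (idl (A := A) (B := B) (3 * f)) e) {b : Ideal (OO A B)}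
    (hb : b ≠ ⊥) (z : ℂ) (hz : 0 < z.im) :
    ∑ j ∈ Finset.range 3, thetaI b e (z + (j : ℂ) / 3) = 0 := by
  obtain ⟨-, -, -, -, -, -, -, hg, -, -⟩ := val4 hS
  have hcq := toCQ hS.case.toCQ
  obtain ⟨-, C, hC0, hC⟩ := MUXF.xf_BDD A B hcq _ e hg (toEI he)
  have him : ∀ j : ℕ, 0 < (z + (j : ℂ) / 3).im := by
    intro j
    have : ((j : ℂ) / 3).im = 0 := by
      have : ((j : ℂ) / 3) = (((j : ℝ) / 3 : ℝ) : ℂ) := by push_cast; ring
      rw [this]
      exact Complex.ofReal_im _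
    rw [Complex.add_im, this, add_zero]
    exact hz
  have hsum : ∀ j : ℕ, Summable (fun x : b => e x * (starRingEnd ℂ) (emb (x : OO A B)) *
      Complex.exp (2 * Real.pi * Complex.I * ((nm (x : OO A B) : ℂ) / nI b) *
        (z + (j : ℂ) / 3))) :=
    fun j : ℕ => MUXF.xf_TSM A B hcq b hb e C hC (z + (j : ℂ) / 3) (him j)
  have e1 : ∑ j ∈ Finset.range 3, thetaI b e (z + (j : ℂ) / 3) =
      (1 / 2) * ∑ j ∈ Finset.range 3, ∑' x : b, e x * (starRingEnd ℂ) (emb (x : OO A B)) *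
        Complex.exp (2 * Real.pi * Complex.I * ((nm (x : OO A B) : ℂ) / nI b) *
          (z + (j : ℂ) / 3)) := by
    rw [Finset.mul_sum]
    rfl
  rw [e1, ← Summable.tsum_finsetSum (fun j _ => hsum j)]
  have e2 : ∀ x : b, ∑ j ∈ Finset.range 3, e x * (starRingEnd ℂ) (emb (x : OO A B)) *
      Complex.exp (2 * Real.pi * Complex.I * ((nm (x : OO A B) : ℂ) / nI b) *
        (z + (j : ℂ) / 3)) = 0 := by
    intro x
    obtain ⟨h1, h2⟩ := (MUXF.xf_QB A B hcq b hb).1 x x.2
    have hnI : ((nI b : ℕ) : ℂ) ≠ 0 := by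
      have := (MUXF.xf_IDL A B hcq b hb).1
      exact_mod_cast this
    by_cases h3 : (3 : ℤ) ∣ MUXF.qb b (x : OO A B)
    · rw [e_zero4 MUXF.xf_QB hS he hb x.2 h3]
      simp
    · have h4 : ((nm (x : OO A B) : ℤ) : ℂ) / ((nI b : ℕ) : ℂ) = ((MUXF.qb b (x : OO A B) : ℤ) : ℂ) := by
        have h5 : nm (x : OO A B) = (nI b : ℤ) * MUXF.qb b (x : OO A B) := h1
        rw [h5]
        push_cast
        field_simp
      set N : ℤ := MUXF.qb b (x : OO A B) with hN
      have e3 : ∀ j : ℕ, Complex.exp (2 * Real.pi * Complex.I * ((nm (x : OO A B) : ℂ) / nI b) *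
          (z + (j : ℂ) / 3)) = Complex.exp (2 * Real.pi * Complex.I * N * z) *
            Complex.exp (2 * Real.pi * Complex.I * N / 3) ^ j := by
        intro j
        rw [← Complex.exp_nat_mul, ← Complex.exp_add, h4]
        congr 1
        ring
      simp only [e3]
      set q : ℂ := Complex.exp (2 * Real.pi * Complex.I * N / 3) with hq
      have hq3 : q ^ 3 = 1 := by
        rw [hq, ← Complex.exp_nat_mul, Complex.exp_eq_one_iff]
        exact ⟨N, by push_cast; ring⟩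
      have hq1 : q ≠ 1 := by
        intro h
        rw [hq, Complex.exp_eq_one_iff] at h
        obtain ⟨k, hk⟩ := h
        apply h3
        refine ⟨k, ?_⟩
        have hpi : (2 * Real.pi * Complex.I : ℂ) ≠ 0 := Complex.two_pi_I_ne_zero
        have h6 : (2 * Real.pi * Complex.I : ℂ) * N = (2 * Real.pi * Complex.I) * (3 * k) := by
          linear_combination 3 * hk
        have h7 := mul_left_cancel₀ hpi h6
        exact_mod_cast h7
      have h5 : ∑ j ∈ Finset.range 3, q ^ j = 0 := by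
        have h6 := mul_geom_sum q 3
        rw [hq3, sub_self] at h6
        exact (mul_eq_zero.1 h6).resolve_left (sub_ne_zero.2 hq1)
      have h6 : ∀ j ∈ Finset.range 3, e x * (starRingEnd ℂ) (emb (x : OO A B)) *
          (Complex.exp (2 * Real.pi * Complex.I * N * z) * q ^ j) =
          e x * (starRingEnd ℂ) (emb (x : OO A B)) *
          Complex.exp (2 * Real.pi * Complex.I * N * z) * q ^ j := fun j _ => by ring
      rw [Finset.sum_congr rfl h6, ← Finset.mul_sum, h5, mul_zero]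
  rw [tsum_congr e2, tsum_zero, mul_zero]

/-- depletion -/
theorem phi_dep4 {V : ValuationSubring ℂ} {f : ℕ} (hS : SetE4 A B V f)
    {e : OO A B → ℂ} (he : IsEI (idl (A := A) (B := B) (3 * f)) e) {b : Ideal (OO A B)}
    (hb : b ≠ ⊥) (x : ℚ) :
    ∑ j ∈ Finset.range 3, PhiI b e ∞ (((x + j) / 3 : ℚ) : OnePoint ℚ) = 0 := by
  obtain ⟨-, -, -, -, -, -, -, hg, -, -⟩ := val4 hS
  have hcq := toCQ hS.case.toCQ
  have hI := fun r : ℚ => MUXF.xf_ITG A B hcq b _ e hb hg (toEI he) r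
  have e1 : ∀ j ∈ Finset.range 3, PhiI b e ∞ (((x + j) / 3 : ℚ) : OnePoint ℚ) =
      2 * Real.pi * ∫ t in Set.Ioi (0 : ℝ), thetaI b e (((x / 3 : ℚ) : ℂ) + t * Complex.I +
        (j : ℂ) / 3) := by
    intro j _
    rw [Qsx.PhiI_inf]
    unfold IvI
    rw [neg_mul, neg_neg]
    congr 1
    refine MeasureTheory.integral_congr_ae (Filter.Eventually.of_forall fun t => ?_)
    show thetaI b e _ = thetaI b e _
    congr 1
    push_cast
    ring
  rw [Finset.sum_congr rfl e1, ← Finset.mul_sum, ← MeasureTheory.integral_finsetSum]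
  · have e2 : ∫ t in Set.Ioi (0 : ℝ), ∑ j ∈ Finset.range 3,
        thetaI b e (((x / 3 : ℚ) : ℂ) + t * Complex.I + (j : ℂ) / 3) = 0 := by
      rw [MeasureTheory.setIntegral_congr_fun (g := fun _ => (0 : ℂ)) measurableSet_Ioi]
      · simp
      · intro t ht
        refine theta_dep4 hS he hb _ ?_
        have h1 : (((x / 3 : ℚ) : ℂ)).im = 0 := by
          rw [← Complex.ofReal_ratCast]
          exact Complex.ofReal_im _
        rw [Complex.add_im, h1, zero_add, Complex.mul_im]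
        simpa using ht
    rw [e2, mul_zero]
  · intro j _
    have h1 := hI ((x + j) / 3)
    refine h1.congr_fun ?_ measurableSet_Ioi
    intro t _
    show thetaI b e _ = thetaI b e _
    congr 1
    push_cast
    ring

end

end Pool.Agent.MEH
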