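import Pool.Agent.ME.DefsE2
import Pool.Agent.MUX.XLib
import Pool.Agent.MUX.UAll
import Pool.Agent.MU3.BAll
import Pool.Agent.MU3.A_SCP

/-!
# ME: lemma library for the exceptional fields (helper21)

Units of `O`, normalised lattices (all of them are equal), homogeneity.
-/

set_option autoImplicit false

namespace Pool.Agent.ME

open _root_.MU3 Pool.Agent.MU3A Pool.Agent.MU3B Pool.Agent.RI Pool.Agent.MUX Pool.Agent.NS
  Pool.Agent.NSRD OnePoint

noncomputable section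

variable {A B : ℤ}

instance coeCQ : Coe (CaseE A B) (Pool.Agent.MUX.CQ A B) := ⟨fun h => h.toCQ⟩
instance coeCQ4 : Coe (CaseE4 A B) (Pool.Agent.MUX.CQ A B) := ⟨fun h => h.toCQ⟩
instance coeCQ3 : Coe (CaseE3 A B) (Pool.Agent.MUX.CQ A B) := ⟨fun h => h.toCQ⟩
instance coeE4 : Coe (CaseE4 A B) (CaseE A B) := ⟨fun h => h.toCaseE⟩
instance coeE3 : Coe (CaseE3 A B) (CaseE A B) := ⟨fun h => h.toCaseE⟩

lemma CaseE.or (h : CaseE A B) : (A = -1 ∧ B = 0) ∨ (A = -1 ∧ B = 1) := by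
  rcases h.hB with hb | hb
  · exact Or.inl ⟨h.hA, hb⟩
  · exact Or.inr ⟨h.hA, hb⟩

/-! ### Normalised lattices -/

lemma NrmE.g2_eq {L L' : PeriodPair} (h : NrmE A B L) (h' : NrmE A B L') : L.g₂ = L'.g₂ :=
  h.g2.trans h'.g2.symm

lemma NrmE.g3_eq {L L' : PeriodPair} (h : NrmE A B L) (h' : NrmE A B L') : L.g₃ = L'.g₃ :=
  h.g3.trans h'.g3.symm

lemma NrmE.kap_eq {L L' : PeriodPair} (h : NrmE A B L) (h' : NrmE A B L') : kapE L = kapE L' := by
  unfold kapE
  rw [h.g2_eq h', h.g3_eq h']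

lemma NrmE.lat_eq {L L' : PeriodPair} (h : NrmE A B L) (h' : NrmE A B L') :
    L.lattice = L'.lattice :=
  Pool.Agent.MUXU.u_DET L L' (h.g2_eq h') (h.g3_eq h')

lemma NrmE.lat {L L' : PeriodPair} (h : NrmE A B L) (h' : NrmE A B L') (z : ℂ) :
    z ∈ L.lattice ↔ z ∈ L'.lattice := by rw [h.lat_eq h']

lemma NrmE.fix2 {L : PeriodPair} (h : NrmE A B L) (σ : ℂ ≃+* ℂ) : σ L.g₂ = L.g₂ := by
  rw [h.g2]
  unfold g2E
  split_ifs
  · exact map_ofNat σ 4
  · exact map_zero σ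

lemma NrmE.fix3 {L : PeriodPair} (h : NrmE A B L) (σ : ℂ ≃+* ℂ) : σ L.g₃ = L.g₃ := by
  rw [h.g3]
  unfold g3E
  split_ifs
  · exact map_zero σ
  · rw [map_neg, map_ofNat]

lemma NrmE.fixk {L : PeriodPair} (h : NrmE A B L) (σ : ℂ ≃+* ℂ) : σ (kapE L) = kapE L := by
  unfold kapE
  rw [map_add, h.fix2 σ, h.fix3 σ]

lemma NrmE.kapc {L L' : PeriodPair} (h : NrmE A B L) (h' : NrmE A B L') (σ : ℂ ≃+* ℂ) :
    kapE L' = σ (kapE L) := by rw [h.fixk σ, h'.kap_eq h]

/-! ### Units -/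

lemma wsq (h : CaseE A B) : wC A B * wC A B = -1 + B * wC A B := by
  have h1 := wC_sq h.toCQ
  rw [h.hA] at h1 ⊢
  push_cast at h1
  exact h1

lemma isUnit_nm (h : CaseE A B) (z : OO A B) : IsUnit z ↔ nm z = 1 := by
  constructor
  · intro hz
    obtain ⟨y, hy⟩ := hz.exists_right_inv
    have h1 : nm z * nm y = 1 := by
      rw [← nm_mul h.toCQ, hy]
      simp [nm, QuadraticAlgebra.re_one, QuadraticAlgebra.im_one]
    have h2 := nm_nonneg h.toCQ z
    exact (Int.mul_eq_one_iff_eq_one_or_neg_one.1 h1).elim (fun h => h.1) (fun h => by omega)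
  · intro hz
    refine IsUnit.of_mul_eq_one (star z) ?_
    rw [mul_star, hz, Int.cast_one]

lemma int_sq {a : ℤ} (h : a ^ 2 ≤ 1) : a = 0 ∨ a = 1 ∨ a = -1 := by
  have h1 : a ≤ 1 := by nlinarith
  have h2 : -1 ≤ a := by nlinarith
  omega

/-- the units of `O` -/
lemma unit_list (h : CaseE A B) {z : OO A B} (hz : IsUnit z) :
    z = 1 ∨ z = -1 ∨ z = ⟨0, 1⟩ ∨ z = ⟨0, -1⟩ ∨ (B = 1 ∧ (z = ⟨1, -1⟩ ∨ z = ⟨-1, 1⟩)) := by
  have hn := (isUnit_nm h z).1 hz
  have hA := h.hA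
  obtain ⟨a, b⟩ := z
  simp only [nm] at hn
  rw [hA] at hn
  have e1 : (1 : OO A B) = ⟨1, 0⟩ := rfl
  have e2 : (-1 : OO A B) = ⟨-1, 0⟩ := by
    ext <;> simp [QuadraticAlgebra.re_one, QuadraticAlgebra.im_one]
  rcases h.or with ⟨-, hB⟩ | ⟨-, hB⟩
  · rw [hB] at hn
    have ha : a ^ 2 ≤ 1 := by nlinarith [sq_nonneg b]
    have hb : b ^ 2 ≤ 1 := by nlinarith [sq_nonneg a]
    rcases int_sq ha with rfl | rfl | rfl <;> rcases int_sq hb with rfl | rfl | rfl <;>
      simp_all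
  · rw [hB] at hn
    have ha : a ^ 2 ≤ 1 := by nlinarith [sq_nonneg (a + 2 * b)]
    have hb : b ^ 2 ≤ 1 := by nlinarith [sq_nonneg (2 * a + b)]
    rcases int_sq ha with rfl | rfl | rfl <;> rcases int_sq hb with rfl | rfl | rfl <;>
      simp_all

lemma mem_two {x : OO A B} : x ∈ idl (A := A) (B := B) 2 ↔ 2 ∣ x.re ∧ 2 ∣ x.im := by
  have e2 : ((2 : ℕ) : OO A B) = ⟨2, 0⟩ := rfl
  rw [show idl (A := A) (B := B) 2 = Ideal.span {((2 : ℕ) : OO A B)} from rfl,
    Ideal.mem_span_singleton, e2]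
  constructor
  · rintro ⟨y, rfl⟩
    constructor <;> simp
  · rintro ⟨⟨a, ha⟩, ⟨b, hb⟩⟩
    refine ⟨⟨a, b⟩, ?_⟩
    ext
    · simp [ha]
    · simp [hb]

/-- a unit which is `1` modulo `2` is `± 1` -/
lemma unit_two (h : CaseE A B) {z : OO A B} (hz : IsUnit z)
    (h2 : z - 1 ∈ idl (A := A) (B := B) 2) : z = 1 ∨ z = -1 := by
  rw [mem_two] at h2
  have h3 := h2.2
  rcases unit_list h hz with rfl | rfl | rfl | rfl | ⟨hB, rfl | rfl⟩
  · exact Or.inl rfl
  · exact Or.inr rfl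
  all_goals
    exfalso
    simp [QuadraticAlgebra.im_one] at h3

/-- the generator of `O`, a unit -/
lemma isUnit_w (h : CaseE A B) : IsUnit (⟨0, 1⟩ : OO A B) := by
  rw [isUnit_nm h]
  simp [nm, h.hA]

lemma isUnit_w' (h : CaseE A B) (hB : B = 1) : IsUnit (⟨1, -1⟩ : OO A B) := by
  rw [isUnit_nm h]
  simp [nm, h.hA, hB]

/-- an element prime to `2` is `1` modulo `2` up to a unit -/
lemma unit_ex (h : CaseE A B) {x : OO A B} (hx : IsCoprime x (2 : OO A B)) :
    ∃ z : OO A B, IsUnit z ∧ z * x - 1 ∈ idl (A := A) (B := B) 2 := by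
  have key : ¬ (2 ∣ nm x) := by
    intro h2
    obtain ⟨u, v, huv⟩ := hx
    have h3 : nm (u * x) = nm (1 - v * 2) := by rw [← huv]; ring_nf
    have h4 : nm (1 - v * 2) = 1 + 2 * (-(2 * v.re) - B * v.im + 2 * nm v) := by
      have e2 : (2 : OO A B) = ⟨2, 0⟩ := rfl
      rw [e2]
      simp only [nm, QuadraticAlgebra.re_sub, QuadraticAlgebra.im_sub, QuadraticAlgebra.re_one,
        QuadraticAlgebra.im_one, QuadraticAlgebra.re_mul, QuadraticAlgebra.im_mul]
      ring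
    rw [nm_mul h.toCQ] at h3
    have h5 : (2 : ℤ) ∣ nm u * nm x := h2.mul_left _
    rw [h3, h4] at h5
    omega
  obtain ⟨a, b⟩ := x
  have hA := h.hA
  rcases h.or with ⟨-, hB⟩ | ⟨-, hB⟩
  · subst hA hB
    simp only [nm] at key
    rcases Int.even_or_odd a with ha | ha <;> rcases Int.even_or_odd b with hb | hb
    · exfalso
      obtain ⟨c, hc⟩ := ha
      obtain ⟨d, hd⟩ := hb
      exact key ⟨2 * c ^ 2 + 2 * d ^ 2, by rw [hc, hd]; ring⟩
    · refine ⟨⟨0, 1⟩, isUnit_w h, ?_⟩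
      obtain ⟨c, hc⟩ := ha
      obtain ⟨d, hd⟩ := hb
      rw [mem_two]
      simp only [QuadraticAlgebra.re_sub, QuadraticAlgebra.im_sub, QuadraticAlgebra.re_one,
        QuadraticAlgebra.im_one, QuadraticAlgebra.re_mul, QuadraticAlgebra.im_mul]
      constructor <;> omega
    · refine ⟨1, isUnit_one, ?_⟩
      obtain ⟨c, hc⟩ := ha
      obtain ⟨d, hd⟩ := hb
      rw [one_mul, mem_two]
      simp only [QuadraticAlgebra.re_sub, QuadraticAlgebra.im_sub, QuadraticAlgebra.re_one,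
        QuadraticAlgebra.im_one]
      constructor <;> omega
    · exfalso
      obtain ⟨c, hc⟩ := ha
      obtain ⟨d, hd⟩ := hb
      exact key ⟨2 * c ^ 2 + 2 * c + 2 * d ^ 2 + 2 * d + 1, by rw [hc, hd]; ring⟩
  · subst hA hB
    simp only [nm] at key
    rcases Int.even_or_odd a with ha | ha <;> rcases Int.even_or_odd b with hb | hb
    · exfalso
      obtain ⟨c, hc⟩ := ha
      obtain ⟨d, hd⟩ := hb
      exact key ⟨2 * c ^ 2 + 2 * c * d + 2 * d ^ 2, by rw [hc, hd]; ring⟩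
    · refine ⟨⟨1, -1⟩, isUnit_w' h rfl, ?_⟩
      obtain ⟨c, hc⟩ := ha
      obtain ⟨d, hd⟩ := hb
      rw [mem_two]
      simp only [QuadraticAlgebra.re_sub, QuadraticAlgebra.im_sub, QuadraticAlgebra.re_one,
        QuadraticAlgebra.im_one, QuadraticAlgebra.re_mul, QuadraticAlgebra.im_mul]
      constructor <;> omega
    · refine ⟨1, isUnit_one, ?_⟩
      obtain ⟨c, hc⟩ := ha
      obtain ⟨d, hd⟩ := hb
      rw [one_mul, mem_two]
      simp only [QuadraticAlgebra.re_sub, QuadraticAlgebra.im_sub, QuadraticAlgebra.re_one,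
        QuadraticAlgebra.im_one]
      constructor <;> omega
    · refine ⟨⟨0, 1⟩, isUnit_w h, ?_⟩
      obtain ⟨c, hc⟩ := ha
      obtain ⟨d, hd⟩ := hb
      rw [mem_two]
      simp only [QuadraticAlgebra.re_sub, QuadraticAlgebra.im_sub, QuadraticAlgebra.re_one,
        QuadraticAlgebra.im_one, QuadraticAlgebra.re_mul, QuadraticAlgebra.im_mul]
      constructor <;> omega

/-- a homothety between normalised lattices is a unit of `O` -/
lemma unit_scale (h : CaseE A B) {L L' : PeriodPair} (hL : NrmE A B L) (hL' : NrmE A B L')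
    {s : ℂ} (hs : s ≠ 0) (hm : ∀ z : ℂ, z ∈ L.lattice ↔ s * z ∈ L'.lattice) :
    ∃ z : OO A B, IsUnit z ∧ s = emb z := by
  obtain ⟨-, -, e2, e3⟩ := ta_SCP L L' s hs hm
  have hw := wsq h
  have hA := h.hA
  rcases h.or with ⟨-, hB⟩ | ⟨-, hB⟩
  · rw [hL.g2, hL'.g2] at e2
    simp only [g2E, hB, if_true] at e2
    have h4 : s ^ 4 = 1 := by
      have := pow_ne_zero 4 hs
      field_simp at e2
      linear_combination e2
    rw [hB] at hw
    have h5 : (s - 1) * (s + 1) * ((s - wC A 0) * (s + wC A 0)) = 0 := by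
      have : wC A 0 * wC A 0 = -1 := by rw [hw]; push_cast; ring
      linear_combination h4 - (s ^ 2 - 1) * this
    subst hB
    rcases mul_eq_zero.1 h5 with h6 | h6
    · rcases mul_eq_zero.1 h6 with h7 | h7
      · exact ⟨1, isUnit_one, by rw [emb_one h.toCQ]; linear_combination h7⟩
      · exact ⟨-1, isUnit_one.neg, by rw [emb_neg h.toCQ, emb_one h.toCQ]; linear_combination h7⟩
    · rcases mul_eq_zero.1 h6 with h7 | h7
      · exact ⟨⟨0, 1⟩, isUnit_w h, by rw [Pool.Agent.MUX.emb_w]; linear_combination h7⟩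
      · exact ⟨-⟨0, 1⟩, (isUnit_w h).neg, by rw [emb_neg h.toCQ, Pool.Agent.MUX.emb_w]; linear_combination h7⟩
  · rw [hL.g3, hL'.g3] at e3
    have hb1 : ¬ (B = 0) := by omega
    simp only [g3E, hb1, if_false] at e3
    have h4 : s ^ 6 = 1 := by
      have := pow_ne_zero 6 hs
      field_simp at e3
      linear_combination -e3
    rw [hB] at hw
    have hw1 : wC A 1 * wC A 1 = -1 + wC A 1 := by rw [hw]; push_cast; ring
    have h5 : (s - 1) * (s + 1) * (((s - wC A 1) * (s - (1 - wC A 1))) *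
        ((s + wC A 1) * (s + (1 - wC A 1)))) = 0 := by
      have e5 : (s - wC A 1) * (s - (1 - wC A 1)) = s ^ 2 - s + 1 := by
        linear_combination -hw1
      have e6 : (s + wC A 1) * (s + (1 - wC A 1)) = s ^ 2 + s + 1 := by
        linear_combination -hw1
      rw [e5, e6]
      linear_combination h4
    subst hB
    rcases mul_eq_zero.1 h5 with h6 | h6
    · rcases mul_eq_zero.1 h6 with h7 | h7
      · exact ⟨1, isUnit_one, by rw [emb_one h.toCQ]; linear_combination h7⟩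
      · exact ⟨-1, isUnit_one.neg, by rw [emb_neg h.toCQ, emb_one h.toCQ]; linear_combination h7⟩
    · have e7 : emb (⟨1, -1⟩ : OO A 1) = 1 - wC A 1 := by simp [emb]; ring
      rcases mul_eq_zero.1 h6 with h8 | h8
      · rcases mul_eq_zero.1 h8 with h7 | h7
        · exact ⟨⟨0, 1⟩, isUnit_w h, by rw [Pool.Agent.MUX.emb_w]; linear_combination h7⟩
        · exact ⟨⟨1, -1⟩, isUnit_w' h rfl, by rw [e7]; linear_combination h7⟩
      · rcases mul_eq_zero.1 h8 with h7 | h7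
        · exact ⟨-⟨0, 1⟩, (isUnit_w h).neg, by rw [emb_neg h.toCQ, Pool.Agent.MUX.emb_w]; linear_combination h7⟩
        · exact ⟨-⟨1, -1⟩, (isUnit_w' h rfl).neg, by
            rw [emb_neg h.toCQ, e7]; linear_combination h7⟩

/-- a lattice with complex multiplication is stable under units -/
lemma unit_lat (h : CaseE A B) {b : Ideal (OO A B)} {L : PeriodPair} {om : ℂ} (hL : IsLI b L om)
    {y : OO A B} (hy : IsUnit y) (z : ℂ) : z ∈ L.lattice ↔ emb y * z ∈ L.lattice := by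
  have hcm := hL.hasCM h.toCQ
  refine ⟨fun hz => hcm y z hz, fun hz => ?_⟩
  obtain ⟨y', hy'⟩ := hy.exists_left_inv
  have := hcm y' _ hz
  rwa [← mul_assoc, ← emb_mul h.toCQ, hy', emb_one h.toCQ, one_mul] at this

lemma ee_unit (h : CaseE A B) {b : Ideal (OO A B)} {L : PeriodPair} {om : ℂ} (hL : IsLI b L om)
    {y : OO A B} (hy : IsUnit y) (z : ℂ) : ee L (emb y * z) = ee L z / emb y :=
  b_SCL L L (emb y) (emb_ne_zero h.toCQ fun h0 => not_isUnit_zero (by
    haveI := isDomain h.toCQ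
    exact (h0 ▸ hy : IsUnit (0 : OO A B)))) (unit_lat h hL hy) z

lemma dlX_unit (h : CaseE A B) {b : Ideal (OO A B)} {L : PeriodPair} {om : ℂ} (hL : IsLI b L om)
    {y : OO A B} (hy : IsUnit y) (a : ℕ) (z : ℂ) : dlX L a (emb y * z) = dlX L a z / emb y := by
  unfold dlX
  rw [show (a : ℂ) * (emb y * z) = emb y * (a * z) by ring, ee_unit h hL hy, ee_unit h hL hy]
  ring

end

end Pool.Agent.ME
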