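import Pool.Agent.ME.H_QS
import Pool.Agent.ME.R_S3
import Pool.Agent.ME.E3_CTX
import Pool.Agent.ME.T_TYFR
import Pool.Agent.ME.Lib
import Pool.Agent.MUX.HY_CHR
import Pool.Agent.MUX.XFAll
import Pool.Agent.NS.GR_SH3
import Pool.Agent.NS.HGR_Chr

/-!
# ME, block H, `D = -3` (helper58): elementary facts, the nebentypus, the exponents modulo `3`, the type (after helper87's `NS/HGR_*.lean`)
-/

set_option autoImplicit false

namespace Pool.Agent.MEH

open _root_.MU3 Pool.Agent.MU3A Pool.Agent.MU3B Pool.Agent.MU3F Pool.Agent.MUX Pool.Agent.MUXH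
  Pool.Agent.MUXHY Pool.Agent.MuSym Pool.Agent.NS Pool.Agent.NSRD OnePoint
open Pool.Agent.ME hiding ActE

noncomputable section

variable {A B : ℤ}

lemma absD_posE (h : CQ A B) : 0 < absD A B := by
  have := h.neg
  unfold absD
  omega

lemma absD_3 {P : Ideal (OO A B)} {V : ValuationSubring ℂ} {f : ℕ} (h : SetE3 A B P V f) :
    absD A B = 3 := by
  unfold absD
  rw [h.hB, h.case.hA]
  norm_num

/-- elementary facts -/
theorem val3 {P : Ideal (OO A B)} {V : ValuationSubring ℂ} {f : ℕ} (H : SetE3 A B P V f) :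
    V.valuation (3 : ℂ) < 1 ∧ (∀ n : ℤ, V.valuation (n : ℂ) ≤ 1) ∧
    (∀ n : ℤ, ¬ (3 : ℤ) ∣ n → V.valuation (n : ℂ) = 1) ∧
    (∀ (r : ℕ) (z : ℂ), r ≠ 0 → z ^ r = 1 → V.valuation z = 1) ∧
    0 < absD A B ∧
    idl (A := A) (B := B) (3 * f) ≤ sp ((absD A B : ℤ) : OO A B) ∧
    idl (A := A) (B := B) (3 * f) ≠ ⊥ ∧ idl (A := A) (B := B) (3 * f) ≠ ⊤ ∧
    ((3 * f : ℕ) : OO A B) ∈ idl (A := A) (B := B) (3 * f) := by
  have h3 : V.valuation (3 : ℂ) < 1 := by
    have h1 : emb ((3 : ℕ) : OO A B) ∈ V.nonunits := (H.hV _).2 H.hP.mem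
    have h2 : emb ((3 : ℕ) : OO A B) = 3 := by
      unfold emb
      rw [QuadraticAlgebra.re_natCast, QuadraticAlgebra.im_natCast]
      norm_num
    rw [h2, ValuationSubring.mem_nonunits_iff] at h1
    exact h1
  have hle : ∀ z : ℤ, V.valuation (z : ℂ) ≤ 1 := fun z =>
    (V.valuation_le_one_iff _).2 (intCast_mem V z)
  have hD0 : 0 < absD A B := absD_posE H.case.toCQ
  have h3f : ((3 * f : ℕ) : OO A B) ∈ idl (A := A) (B := B) (3 * f) :=
    Ideal.mem_span_singleton_self _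
  have hf0 := H.f0
  refine ⟨h3, hle, ?_, ?_, hD0, ?_, ?_, ?_, h3f⟩
  · intro n hn
    have hc : IsCoprime n 3 := by
      rw [isCoprime_comm]
      exact (Int.prime_three.coprime_iff_not_dvd).2 hn
    obtain ⟨a, b, hab⟩ := hc
    by_contra hne
    have hlt : V.valuation (n : ℂ) < 1 := lt_of_le_of_ne (hle n) hne
    have h1 : V.valuation ((a : ℂ) * n + b * 3) < 1 := by
      refine lt_of_le_of_lt (V.valuation.map_add _ _) (max_lt ?_ ?_)
      · rw [map_mul]
        exact mul_lt_one_of_nonneg_of_lt_one_right (hle a) zero_le hlt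
      · rw [map_mul]
        exact mul_lt_one_of_nonneg_of_lt_one_right (hle b) zero_le h3
    have h2 : (a : ℂ) * n + b * 3 = 1 := by exact_mod_cast hab
    rw [h2, map_one] at h1
    exact lt_irrefl _ h1
  · intro r z hr hz
    have h1 : V.valuation z ^ r = 1 := by rw [← map_pow, hz, map_one]
    exact (pow_eq_one_iff_of_nonneg zero_le hr).1 h1
  · rw [Ideal.span_singleton_le_iff_mem, Ideal.mem_span_singleton]
    obtain ⟨t, ht⟩ := H.fD
    refine ⟨(2 * t : ℤ), ?_⟩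
    have h1 : ((3 * f : ℕ) : OO A B) = ((3 * (f : ℤ) : ℤ) : OO A B) := by push_cast; rfl
    rw [h1, ht]
    push_cast
    ring
  · intro h
    rw [h, Ideal.mem_bot] at h3f
    have h1 := congrArg QuadraticAlgebra.re h3f
    simp only [QuadraticAlgebra.re_natCast, QuadraticAlgebra.re_zero] at h1
    have h2 : (3 * f : ℕ) = 0 := by exact_mod_cast h1
    omega
  · intro h
    rw [Ideal.eq_top_iff_one, Ideal.mem_span_singleton] at h
    obtain ⟨y, hy⟩ := h
    have h1 := congrArg QuadraticAlgebra.re hy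
    rw [QuadraticAlgebra.re_one, QuadraticAlgebra.re_mul, QuadraticAlgebra.re_natCast,
      QuadraticAlgebra.im_natCast, mul_zero, zero_mul, add_zero] at h1
    have h9 : ((3 * f : ℕ) : ℤ) ∣ 1 := ⟨y.re, h1⟩
    have h10 := Int.le_of_dvd one_pos h9
    have : 0 < f := Nat.pos_of_ne_zero hf0
    omega


theorem chr3 (h4 : MUXF.Sx_CHI) {P : Ideal (OO A B)} {V : ValuationSubring ℂ} {f : ℕ}
    (H : SetE3 A B P V f)
    {e : OO A B → ℂ} (he : IsEI (idl (A := A) (B := B) (3 * f)) e) {r : ℕ} (hr0 : r ≠ 0)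
    (hr : ∀ x, e x ≠ 0 → e x ^ r = 1) :
    nuX e 1 = 1 ∧ (∀ d d', nuX e (d * d') = nuX e d * nuX e d') ∧
    (∀ d d' : ℤ, ((3 * f ^ 2 : ℕ) : ℤ) ∣ d - d' → nuX e d = nuX e d') ∧
    (∀ d, V.valuation (nuX e d) ≤ 1) := by
  obtain ⟨-, vZ, -, vru, hDpos, hgD, hg0, -, hpf⟩ := val3 H
  have hcq : CQ A B := H.case.toCQ
  have hD3 := absD_3 H
  have ev : ∀ x, V.valuation (e x) ≤ 1 := by
    intro x
    by_cases hx : e x = 0
    · rw [hx, map_zero]
      exact zero_le_one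
    · exact (vru r (e x) hr0 (hr x hx)).le
  have hcopD : ∀ d : ℤ, e (d : OO A B) ≠ 0 → IsCoprime d (absD A B) := by
    intro d hd
    have h5 := (he.supp _).1 hd
    apply Chr.coprime_int (A := A) (B := B)
    rw [← Ideal.isCoprime_span_singleton_iff]
    rw [Ideal.isCoprime_iff_sup_eq] at h5 ⊢
    exact top_le_iff.1 (h5 ▸ sup_le_sup_left hgD _)
  refine ⟨?_, ?_, ?_, ?_⟩
  · unfold nuX
    have : ((1 : ℤ) : OO A B) = 1 := by push_cast; rfl
    rw [Chr.chiX_one, this, he.one]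
    norm_num
  · intro d d'
    unfold nuX
    have : ((d * d' : ℤ) : OO A B) = (d : OO A B) * (d' : OO A B) := by push_cast; rfl
    rw [Chr.chiX_mul, this, he.mul]
    push_cast
    ring
  · intro d d' hd
    obtain ⟨t, ht⟩ := hd
    push_cast at ht
    have hD : absD A B ∣ d - d' := ⟨(f : ℤ) ^ 2 * t, by rw [ht, hD3]; ring⟩
    unfold nuX
    by_cases hcop : IsCoprime d (absD A B)
    · have h5 : chiX A B d' = chiX A B d := ((h4 A B (toCQ hcq) d hcop).2.2 d' hD)
      have h6 : e (d : OO A B) = e (d' : OO A B) := by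
        apply he.per
        have h7 : (d : OO A B) - (d' : OO A B) =
            (((f * t : ℤ)) : OO A B) * ((3 * f : ℕ) : OO A B) := by
          have h8 : (d : OO A B) - (d' : OO A B) = ((d - d' : ℤ) : OO A B) := by push_cast; rfl
          rw [h8, ht]
          push_cast
          ring
        rw [h7]
        exact Ideal.mul_mem_left _ _ hpf
      rw [h5, h6]
    · have h5 : e (d : OO A B) = 0 := by
        by_contra hne
        exact hcop (hcopD d hne)
      have h6 : e (d' : OO A B) = 0 := by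
        by_contra hne
        apply hcop
        obtain ⟨s, hs⟩ := hD
        have h7 : d = d' + absD A B * s := by linarith
        rw [h7]
        exact (IsCoprime.add_mul_left_left_iff).2 (hcopD d' hne)
      rw [h5, h6, mul_zero, mul_zero]
  · intro d
    unfold nuX
    rw [map_mul]
    exact mul_le_one' (vZ _) (ev _)

/-- the norm is a square modulo `3` -/
lemma nm_mod (hA : A = -1) (hB : B = 1) (x : OO A B) : (3 : ℤ) ∣ nm x - (x.re - x.im) ^ 2 := by
  refine ⟨x.re * x.im, ?_⟩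
  unfold nm
  linear_combination x.re * x.im * hB - x.im ^ 2 * hA

lemma nm_one_of (hA : A = -1) (hB : B = 1) {x : OO A B} (h : ¬ (3 : ℤ) ∣ nm x) :
    (3 : ℤ) ∣ nm x - 1 := by
  have h1 := nm_mod hA hB x
  have h2 : ¬ (3 : ℤ) ∣ x.re - x.im := by
    intro h3
    apply h
    have h4 : (3 : ℤ) ∣ (x.re - x.im) ^ 2 := dvd_pow h3 two_ne_zero
    have := dvd_add h1 h4
    rwa [sub_add_cancel] at this
  have h3 : (3 : ℤ) ∣ (x.re - x.im) ^ 2 - 1 := by
    have : (x.re - x.im) % 3 = 1 ∨ (x.re - x.im) % 3 = 2 := by omega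
    rw [Int.dvd_iff_emod_eq_zero, Int.sub_emod, pow_two, Int.mul_emod]
    rcases this with h | h <;> rw [h] <;> norm_num
  have h4 := dvd_add h1 h3
  rwa [sub_add_sub_cancel] at h4

/-- `e x ≠ 0` implies `N x ≡ 1` modulo `3` -/
lemma qb3 {P : Ideal (OO A B)} {V : ValuationSubring ℂ} {f : ℕ} (H : SetE3 A B P V f)
    {e : OO A B → ℂ} (he : IsEI (idl (A := A) (B := B) (3 * f)) e) {x : OO A B} (hx : e x ≠ 0) :
    (3 : ℤ) ∣ nm x - 1 := by
  have hcq : CQ A B := H.case.toCQ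
  refine nm_one_of H.case.hA H.hB fun h3 => ?_
  have h5 := (he.supp _).1 hx
  obtain ⟨i, hi, j, hj, hij⟩ := (Ideal.isCoprime_iff_exists).1 h5
  rw [Ideal.mem_span_singleton] at hi hj
  obtain ⟨i', rfl⟩ := hi
  obtain ⟨j', rfl⟩ := hj
  have h6 : nm (x * i') = nm (1 - ((3 * f : ℕ) : OO A B) * j') := by
    rw [← hij]
    ring_nf
  rw [nm_mul hcq] at h6
  have h7 : (3 : ℤ) ∣ nm (1 - ((3 * f : ℕ) : OO A B) * j') - 1 := by
    have e1 : (((3 * f : ℕ) : OO A B) * j').re = 3 * f * j'.re := by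
      rw [QuadraticAlgebra.re_mul, QuadraticAlgebra.re_natCast, QuadraticAlgebra.im_natCast]
      push_cast
      ring
    have e2 : (((3 * f : ℕ) : OO A B) * j').im = 3 * f * j'.im := by
      rw [QuadraticAlgebra.im_mul, QuadraticAlgebra.re_natCast, QuadraticAlgebra.im_natCast]
      push_cast
      ring
    unfold nm
    rw [QuadraticAlgebra.re_sub, QuadraticAlgebra.im_sub, QuadraticAlgebra.re_one,
      QuadraticAlgebra.im_one, e1, e2]
    refine ⟨-2 * f * j'.re + 3 * f ^ 2 * j'.re ^ 2 - B * f * j'.im + 3 * B * f ^ 2 * j'.re * j'.im -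
      3 * A * f ^ 2 * j'.im ^ 2, ?_⟩
    ring
  have h8 : (3 : ℤ) ∣ nm x * nm i' := h3.mul_right _
  rw [h6] at h8
  have h9 := dvd_sub h8 h7
  rw [sub_sub_cancel] at h9
  norm_num at h9

/-- the powers of `w`, `D = -3` -/
lemma unit_pow (h : CaseE A B) (hB : B = 1) {z : OO A B} (hz : IsUnit z) :
    ∃ k : ℕ, z = (⟨0, 1⟩ : OO A B) ^ k := by
  have hA := h.hA
  have hl := unit_list h hz
  subst hA
  subst hB
  have w2 : (⟨0, 1⟩ : OO (-1) 1) ^ 2 = ⟨-1, 1⟩ := by
    rw [pow_two]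
    ext <;> simp
  have w3 : (⟨0, 1⟩ : OO (-1) 1) ^ 3 = -1 := by
    rw [pow_succ, w2]
    ext <;> simp [QuadraticAlgebra.re_one, QuadraticAlgebra.im_one]
  rcases hl with rfl | rfl | rfl | rfl | ⟨-, rfl | rfl⟩
  · exact ⟨0, (pow_zero _).symm⟩
  · exact ⟨3, w3.symm⟩
  · exact ⟨1, (pow_one _).symm⟩
  · refine ⟨4, ?_⟩
    rw [pow_succ, w3]
    ext <;> simp
  · refine ⟨5, ?_⟩
    rw [show (5 : ℕ) = 3 + 2 by norm_num, pow_add, w3, w2]
    ext <;> simp
  · exact ⟨2, w2.symm⟩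

lemma w_six (h : CaseE A B) (hB : B = 1) : (⟨0, 1⟩ : OO A B) ^ 3 = -1 := by
  have hA := h.hA
  subst hA
  subst hB
  rw [pow_succ, pow_two]
  ext <;> simp [QuadraticAlgebra.re_one, QuadraticAlgebra.im_one]

lemma e_pow {g : Ideal (OO A B)} {e : OO A B → ℂ} (he : IsEI g e) (x : OO A B) (k : ℕ) :
    e (x ^ k) = e x ^ k := by
  induction k with
  | zero => rw [pow_zero, pow_zero, he.one]
  | succ k ih => rw [pow_succ, pow_succ, he.mul, ih]

lemma w_pow {P : Ideal (OO A B)} {V : ValuationSubring ℂ} {w : OO A B → ℂ} (hw : IsTei6 P V w)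
    (x : OO A B) (k : ℕ) : w (x ^ k) = w x ^ k := by
  induction k with
  | zero => rw [pow_zero, pow_zero, hw.one]
  | succ k ih => rw [pow_succ, pow_succ, hw.mul, ih]

/-- the type -/
theorem tyi3 {P : Ideal (OO A B)} {V : ValuationSubring ℂ} {f : ℕ} (H : SetE3 A B P V f)
    (T : TorXE A B) {w : OO A B → ℂ} (hw : IsTei6 P V w) {e e0 : OO A B → ℂ}
    (he : IsEI (idl (A := A) (B := B) (3 * f)) e) (hee : ∀ x, e x = e0 x * w x) {r : ℕ}
    (hr : ¬ 3 ∣ r) (her : ∀ x, e0 x ≠ 0 → e0 x ^ r = 1) :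
    ∃ i : ℕ, i ≤ 1 ∧ ∀ x, x - 1 ∈ idl (A := A) (B := B) f → x ∉ P → e x = w x ^ (3 * i + 1) := by
  have hE := H.case
  have hcq : CQ A B := hE.toCQ
  have hB := H.hB
  have hA := hE.hA
  have hC : Pool.Agent.ME3.CtxR3 A B P V := Pool.Agent.ME3.t3_CTX A B P V hE hB H.hP H.hV T
    Pool.Agent.MER.s3_rfin
  -- an integer `s` with `f s ≡ 1` modulo `3`
  obtain ⟨s, t, hst⟩ : IsCoprime (f : ℤ) 3 := by
    rw [isCoprime_comm]
    exact (Int.prime_three.coprime_iff_not_dvd).2 fun h => H.fp (by exact_mod_cast h)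
  set y : OO A B := 1 + ((f * s : ℤ) : OO A B) * (⟨0, 1⟩ - 1) with hy
  have hyf : y - 1 ∈ idl (A := A) (B := B) f := by
    rw [hy, add_sub_cancel_left]
    have : ((f * s : ℤ) : OO A B) = ((f : ℕ) : OO A B) * (s : OO A B) := by push_cast; rfl
    rw [this, mul_assoc]
    exact Ideal.mul_mem_right _ _ (Ideal.mem_span_singleton_self _)
  have hy3 : y - ⟨0, 1⟩ ∈ idl (A := A) (B := B) 3 := by
    have e1 : y - ⟨0, 1⟩ = ((3 : ℕ) : OO A B) * ((-t : ℤ) : OO A B) * (⟨0, 1⟩ - 1) := by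
      have e2 : ((f * s : ℤ) : OO A B) = 1 - ((3 : ℕ) : OO A B) * ((t : ℤ) : OO A B) := by
        have e3 : (f * s : ℤ) = 1 - 3 * t := by linarith
        rw [e3]
        push_cast
        rfl
      rw [hy, e2]
      push_cast
      ring
    rw [e1]
    exact Ideal.mul_mem_right _ _ (Ideal.mul_mem_right _ _ (Ideal.mem_span_singleton_self _))
  -- congruences modulo `3 f`
  have h3f : ∀ z : OO A B, z ∈ idl (A := A) (B := B) f → z ∈ idl (A := A) (B := B) 3 →
      z ∈ idl (A := A) (B := B) (3 * f) := by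
    intro z hz hz3
    obtain ⟨a, rfl⟩ := Ideal.mem_span_singleton'.1 hz
    obtain ⟨b, hb⟩ := Ideal.mem_span_singleton'.1 hz3
    rw [Ideal.mem_span_singleton']
    refine ⟨(s : OO A B) * b + (t : OO A B) * a, ?_⟩
    have h1 : ((f : ℕ) : OO A B) * (s : OO A B) + ((3 : ℕ) : OO A B) * (t : OO A B) = 1 := by
      have h2 := congrArg (fun z : ℤ => (z : OO A B)) hst
      push_cast at h2 ⊢
      linear_combination h2
    have e3 : ((3 * f : ℕ) : OO A B) = ((3 : ℕ) : OO A B) * ((f : ℕ) : OO A B) := by push_cast; rfl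
    rw [e3]
    linear_combination ((f : ℕ) : OO A B) * (s : OO A B) * hb + a * ((f : ℕ) : OO A B) * h1
  have hpw : ∀ k : ℕ, y ^ k - 1 ∈ idl (A := A) (B := B) f ∧
      y ^ k - ⟨0, 1⟩ ^ k ∈ idl (A := A) (B := B) 3 := by
    intro k
    constructor
    · have := sub_dvd_pow_sub_pow y 1 k
      rw [one_pow] at this
      exact Ideal.mem_of_dvd _ this hyf
    · exact Ideal.mem_of_dvd _ (sub_dvd_pow_sub_pow y ⟨0, 1⟩ k) hy3
  have hkey : ∀ x, x - 1 ∈ idl (A := A) (B := B) f → x ∉ P → ∃ k : ℕ, e x = e y ^ k ∧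
      w x = w y ^ k := by
    intro x hx hxP
    obtain ⟨η, η', h1, -, h2⟩ := Pool.Agent.MET.unitP hC hA hB hxP
    obtain ⟨k, hk⟩ := unit_pow hE hB (IsUnit.of_mul_eq_one η' h1)
    refine ⟨k, ?_, ?_⟩
    · rw [← e_pow he]
      apply he.per
      refine h3f _ ?_ ?_
      · have := (idl (A := A) (B := B) f).sub_mem hx (hpw k).1
        rwa [sub_sub_sub_cancel_right] at this
      · rw [hk] at h2
        have := (idl (A := A) (B := B) 3).sub_mem h2 (hpw k).2
        rwa [sub_sub_sub_cancel_right] at this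
    · rw [← w_pow hw]
      apply hw.per
      rw [hk] at h2
      have := (idl (A := A) (B := B) 3).sub_mem h2 (hpw k).2
      rwa [sub_sub_sub_cancel_right] at this
  -- the value at `y`
  have hwu : IsUnit (⟨0, 1⟩ : OO A B) := isUnit_w hE
  have hw3 : w y ^ 3 = -1 := by
    have h1 : w y = w ⟨0, 1⟩ := hw.per _ _ hy3
    rw [h1, ← w_pow hw, w_six hE hB, hw.unit _ isUnit_one.neg, MUX.emb_neg hcq, MUX.emb_one hcq]
  have hy6 : e y ^ 6 = 1 := by
    rw [← e_pow he, ← he.one]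
    apply he.per
    refine h3f _ (hpw 6).1 ?_
    have h1 := (hpw 6).2
    have h2 : (⟨0, 1⟩ : OO A B) ^ 6 = 1 := by
      rw [show (6 : ℕ) = 3 * 2 by norm_num, pow_mul, w_six hE hB]
      norm_num
    rwa [h2] at h1
  have hw6 : w y ^ 6 = 1 := by
    rw [show (6 : ℕ) = 3 * 2 by norm_num, pow_mul, hw3]
    norm_num
  have hwy0 : w y ≠ 0 := by
    intro h0
    rw [h0, zero_pow (by norm_num)] at hw6
    exact zero_ne_one hw6
  have he06 : e0 y ^ 6 = 1 := by
    have h1 := hee y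
    rw [h1, mul_pow, hw6, mul_one] at hy6
    exact hy6
  have he0 : e0 y ≠ 0 := by
    intro h0
    rw [h0, zero_pow (by norm_num)] at he06
    exact zero_ne_one he06
  have hg : e0 y ^ 2 = 1 := by
    have h1 : e0 y ^ (Nat.gcd 6 r) = 1 := by
      rw [← orderOf_dvd_iff_pow_eq_one]
      exact Nat.dvd_gcd (orderOf_dvd_of_pow_eq_one he06) (orderOf_dvd_of_pow_eq_one (her y he0))
    have h2 : Nat.gcd 6 r ∣ 2 := by
      have h3 : Nat.Coprime (Nat.gcd 6 r) 3 := by
        rw [Nat.coprime_comm, Nat.Prime.coprime_iff_not_dvd Nat.prime_three]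
        intro h4
        exact hr (h4.trans (Nat.gcd_dvd_right 6 r))
      have h5 : Nat.gcd 6 r ∣ 3 * 2 := Nat.gcd_dvd_left 6 r
      exact h3.dvd_of_dvd_mul_left h5
    obtain ⟨c, hc⟩ := h2
    rw [hc, pow_mul, h1, one_pow]
  have hpm : e0 y = 1 ∨ e0 y = -1 := by
    have : (e0 y - 1) * (e0 y + 1) = 0 := by linear_combination hg
    rcases mul_eq_zero.1 this with h | h
    · exact Or.inl (sub_eq_zero.1 h)
    · exact Or.inr (eq_neg_of_add_eq_zero_left h)
  rcases hpm with h1 | h1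
  · refine ⟨0, by norm_num, fun x hx hxP => ?_⟩
    obtain ⟨k, h2, h3⟩ := hkey x hx hxP
    rw [h2, h3, hee y, h1, one_mul, mul_zero, zero_add, pow_one]
  · refine ⟨1, le_rfl, fun x hx hxP => ?_⟩
    obtain ⟨k, h2, h3⟩ := hkey x hx hxP
    have h4 : e y = w y ^ 4 := by
      rw [hee y, h1, show (4 : ℕ) = 3 + 1 by norm_num, pow_add, hw3, pow_one]
    rw [h2, h3, h4, ← pow_mul, ← pow_mul, mul_comm]

end

end Pool.Agent.MEH
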