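import Pool.Agent.ME.Z3All
import Pool.Agent.ME.N.IRAll
import Pool.Agent.ME.HAll3

/-!
# ME: the inputs of block J and the main theorem for `D = -3`, `p = 3`, no hypotheses (helper21)
-/

set_option autoImplicit false

open NumberField IsDedekindDomain

namespace Pool.Agent.MEZ

open _root_.MU3 Pool.Agent.MU3 Pool.Agent.MU3A Pool.Agent.MU3B Pool.Agent.RI Pool.Agent.RID
  Pool.Agent.MUX Pool.Agent.ME Pool.Agent.MUXK Pool.Agent.MUXJ Pool.Agent.MUXW Pool.Agent.MUXZ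
  Pool.Agent.NSI Pool.Agent.NSZ Pool.Agent.NS Pool.Agent.NSRD Pool.Agent.NSIR

/-- the inputs of block J for `D = -3`, `p = 3` -/
theorem s3_INPG : S3_INPG :=
  inpg3 (r_INP_E Pool.Agent.MEH.h_HFIN3) r_SUB_E

/-- THE MAIN THEOREM, `D = -3`, `p = 3` -/
theorem z_m33 (A B : ℤ) (hC : CaseE3 A B)
    (F M K : IntermediateField ℚ ℂ) [FiniteDimensional ℚ M] (hF : kk A B ≤ F) (h : F ≤ M)
    (a : ℕ) (hT : TorU_E A B F) (hGal : IsGalois F (IntermediateField.extendScalars h))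
    (ha : Module.finrank F (IntermediateField.extendScalars h) = 3 ^ a) (hK : K ≤ M) :
    ∃ C : ℕ, ∀ (n : ℕ) (Q : IntermediateField ℚ ℂ), IsLayer 3 n Q →
      padicValNat 3 (classNo (K ⊔ Q)) ≤ C * (n + 1) ^ C :=
  z_main33 s3_INPG A B hC F M K hF h a hT hGal ha hK

end Pool.Agent.MEZ
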