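import Pool.Agent.ME.DefsE
import Pool.Agent.MUX.StXC
import Pool.Agent.MUX.VX

/-!
# ME, block CE (helper58): the main theorem of complex multiplication for the exceptional fields, `TorXE A B`

The twin of `Pool/Agent/MUX/StXC.lean` for the normalisation `IsNE`. The statements of `MUX/StXC.lean` which do not depend on the normalisation
(`CLF COP TRO GEN ENO INV QCR QEX QNE ISL FEX RP1 RP2 RP3 REP DNX NMC`) are used as they are. All proofs are in `Pool/Agent/ME/C_X.lean`, namespace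
`Pool.Agent.MEC`; the final theorem `c_TORE` is in `Pool/Agent/ME/CEAll.lean`.
-/

set_option autoImplicit false

open Polynomial NumberField IsDedekindDomain

namespace Pool.Agent.MEC

open _root_.MU3 Pool.Agent.MU3A Pool.Agent.MU3B Pool.Agent.MUX Pool.Agent.MUXU Pool.Agent.RI
open Pool.Agent.ME
open Pool.Agent.MUXE (NL Sxe_RNG)
open Pool.Agent.MUXC (Sc_CLF Sc_COP Sc_TRO Sc_GEN Sc_ENO Sc_INV Sc_QCR Sc_QEX Sc_QNE Sc_ISL Sc_FEX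
  Sc_RP1 Sc_RP2 Sc_RP3 Sc_REP Sc_DNX Sc_NMC)
open Pool.Agent.MUXV (GR InK tX)

noncomputable section

/-- good reduction of `y² = x³ - (g₂/4) x - g₃/4` at `V` -/
def GRE (V : ValuationSubring ℂ) (L : PeriodPair) : Prop :=
  ∃ (W : WeierstrassCurve.Affine ℂ) (ξ : ℂ →+ W.Point), GR V W L (xnE L) (yy L) ξ

/-- the generators of `RFE m` -/
def genS {A B : ℤ} (m : Ideal (OO A B)) : Set ℂ :=
  {c | ∃ (b : Ideal (OO A B)) (L : PeriodPair) (om : ℂ),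
    IsNE b L om ∧ (c = kapE L ∨ ∃ z, Tor m L z ∧ z ∉ L.lattice ∧ c = xnE L z)}

/-- all normalised lattices have the same points and the same coordinates -/
def Sc_SGQ : Prop :=
  ∀ (A B : ℤ) (L L' : PeriodPair), NrmE A B L → NrmE A B L' →
    (∀ z, z ∈ L.lattice ↔ z ∈ L'.lattice) ∧ kapE L = kapE L' ∧
      ∀ z, xnE L z = xnE L' z ∧ yy L z = yy L' z

/-- the twin of `MUXC.Sc_CJN` -/
def Sc_CJN : Prop :=
  ∀ A B : ℤ, CQ A B →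
    (∀ (σ : ℂ ≃+* ℂ), FixK A B σ → ∀ (b : Ideal (OO A B)) (L : PeriodPair) (om : ℂ), IsNE b L om →
      (∀ x : OO A B, σ (emb x) = emb x) ∧
      ∃ (b' : Ideal (OO A B)) (L' : PeriodPair) (om' : ℂ), IsNE b' L' om' ∧ IsCj σ L L' ∧
        kapE L' = σ (kapE L)) ∧
    (∀ (σ : ℂ ≃+* ℂ) (L L' : PeriodPair), NrmE A B L → NrmE A B L' →
      kapE L' = σ (kapE L) → IsCj σ L L') ∧
    ∀ (L L' : PeriodPair), NrmE A B L → NrmE A B L' → kapE L = kapE L' →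
      (∀ z, z ∈ L.lattice ↔ z ∈ L'.lattice) ∧ ∀ z, xnE L z = xnE L' z ∧ yy L z = yy L' z

/-- the twin of `MUXC.Sc_PMF` -/
def Sc_PMF : Prop :=
  ∀ (σ : ℂ ≃+* ℂ) (L L' : PeriodPair) (Φ : ℂ → ℂ), IsPhi σ L L' Φ → ∀ z z' : ℂ,
    PME σ L L' z z' ↔ Φ z - z' ∈ L'.lattice

/-- the twin of `MUXC.Sc_PHM` -/
def Sc_PHM : Prop :=
  ∀ A B : ℤ, CQ A B → ∀ (σ : ℂ ≃+* ℂ), FixK A B σ → ∀ (b : Ideal (OO A B)) (L L' : PeriodPair)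
    (om : ℂ), IsLI b L om → IsCj σ L L' → ∀ Φ : ℂ → ℂ, IsPhi σ L L' Φ →
    (∀ (x : OO A B) (z : ℂ), Φ (emb x * z) - emb x * Φ z ∈ L'.lattice) ∧
    (∀ (m : Ideal (OO A B)) (z : ℂ), Tor m L' (Φ z) ↔ Tor m L z) ∧
    (∀ z z' : ℂ, Φ z - Φ z' ∈ L'.lattice ↔ z - z' ∈ L.lattice) ∧
    (∀ z z' : ℂ, Φ (z - z') - (Φ z - Φ z') ∈ L'.lattice)

/-- the twin of `MUXC.Sc_EXA` -/
def Sc_EXA : Prop :=
  ∀ A B : ℤ, CQ A B → ∀ (σ : ℂ ≃+* ℂ), FixK A B σ → ∀ (m b b' : Ideal (OO A B))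
    (L L' : PeriodPair) (om om' : ℂ), m ≠ ⊥ → IsNE b L om → IsNE b' L' om' →
    kapE L' = σ (kapE L) → ∃ (a : Ideal (OO A B)) (mu : ℂ), ActE σ m a L L' mu

/-- the twin of `MUXC.Sc_IND` -/
def Sc_IND : Prop :=
  ∀ A B : ℤ, CQ A B → ∀ (σ : ℂ ≃+* ℂ), FixK A B σ → ∀ (m a b b' c c' : Ideal (OO A B))
    (L L' M M' : PeriodPair) (om om' omm omm' mu : ℂ), m ≠ ⊥ → IsNE b L om → IsNE b' L' om' →
    IsNE c M omm → IsNE c' M' omm' → ActE σ m a L L' mu → kapE M' = σ (kapE M) →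
    ∃ nu : ℂ, ActE σ m a M M' nu

/-- the twin of `MUXC.Sc_ACT` -/
def Sc_ACT : Prop :=
  ∀ A B : ℤ, CQ A B → ∀ m : Ideal (OO A B), m ≠ ⊥ → ∀ σ : ℂ ≃+* ℂ, FixK A B σ →
    ∃ a : Ideal (OO A B), IsCoprime a m ∧ ∀ (b : Ideal (OO A B)) (L : PeriodPair) (om : ℂ),
      IsNE b L om → ∃ (b' : Ideal (OO A B)) (L' : PeriodPair) (om' mu : ℂ), IsNE b' L' om' ∧
        ActE σ m a L L' mu

/-- the twin of `MUXC.Sc_CMP` -/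
def Sc_CMP : Prop :=
  ∀ A B : ℤ, CQ A B → ∀ (m a b : Ideal (OO A B)) (σ τ : ℂ ≃+* ℂ) (L L' L'' : PeriodPair)
    (mu nu : ℂ), ActE σ m a L L' mu → ActE τ m b L' L'' nu →
    ActE (σ.trans τ) m (a * b) L L'' (nu * mu)

/-- the twin of `MUXC.Sc_CHG` -/
def Sc_CHG : Prop :=
  ∀ A B : ℤ, CQ A B → ∀ (m a a' : Ideal (OO A B)) (σ : ℂ ≃+* ℂ) (L L' : PeriodPair) (mu : ℂ)
    (x y : OO A B), m ≠ ⊥ → IsCoprime a' m → IsCoprime (sp x) m → x ≠ 0 → y ≠ 0 → x - y ∈ m →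
    sp x * a = sp y * a' → (∃ (b : Ideal (OO A B)) (om : ℂ), IsNE b L om) → ActE σ m a L L' mu →
    ActE σ m a' L L' (mu * emb x / emb y)

/-- the twin of `MUXC.Sc_UNQ` -/
def Sc_UNQ : Prop :=
  ∀ A B : ℤ, CQ A B → ∀ (m a a' : Ideal (OO A B)) (σ : ℂ ≃+* ℂ) (L L' : PeriodPair)
    (mu mu' : ℂ), m ≠ ⊥ → (∃ (b : Ideal (OO A B)) (om : ℂ), IsNE b L om) → ActE σ m a L L' mu →
    ActE σ m a' L L' mu' →
    ∃ x y : OO A B, IsCoprime (sp x) m ∧ x ≠ 0 ∧ y ≠ 0 ∧ x - y ∈ m ∧ sp x * a = sp y * a' ∧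
      mu' = mu * emb x / emb y

/-- the twin of `MUXC.Sc_TRV` -/
def Sc_TRV : Prop :=
  ∀ A B : ℤ, CaseE A B → ∀ (m a : Ideal (OO A B)) (σ : ℂ ≃+* ℂ) (b : Ideal (OO A B))
    (L L' : PeriodPair) (om mu : ℂ), m ≠ ⊥ → FixK A B σ → IsNE b L om → ActE σ m a L L' mu →
    NrmE A B L' →
    (∃ c : OO A B, mu = emb c ∧ a = sp c ∧ (m ≤ idl 2 → c - 1 ∈ idl (A := A) (B := B) 2)) ∧
    ((∀ y ∈ (RFE m : IntermediateField (kk A B) ℂ), σ y = y) → ∃ c : OO A B, c - 1 ∈ m ∧ a = sp c) ∧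
    ((m ≤ idl 2 ∨ m = ⊤) → (∃ c : OO A B, c - 1 ∈ m ∧ a = sp c) →
      ∀ y ∈ (RFE m : IntermediateField (kk A B) ℂ), σ y = y)

/-- the twin of `MUXC.Sc_NRL` -/
def Sc_NRL : Prop :=
  ∀ A B : ℤ, CaseE A B → ∀ (m a : Ideal (OO A B)) (σ : ℂ ≃+* ℂ) (b : Ideal (OO A B))
    (L L' : PeriodPair) (om mu : ℂ), m ≠ ⊥ → m ≠ ⊤ → FixK A B σ → IsNE b L om → ActE σ m a L L' mu →
    NrmE A B L' ∧ IsCj σ L L'

/-- the twin of `MUXC.Sc_FNG` -/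
def Sc_FNG : Prop :=
  ∀ A B : ℤ, CQ A B → ∀ m : Ideal (OO A B), m ≠ ⊥ → (genS m).Finite

/-- the twin of `MUXC.Sc_FGL` -/
def Sc_FGL : Prop :=
  ∀ A B : ℤ, CQ A B → ∀ m : Ideal (OO A B), m ≠ ⊥ →
    FiniteDimensional (kk A B) (RFE m) ∧ IsGalois (kk A B) (RFE m) ∧
    ∀ σ : ℂ ≃+* ℂ, FixK A B σ → ∀ y ∈ (RFE m : IntermediateField (kk A B) ℂ), σ y ∈ RFE m

/-- the twin of `MUXC.Sc_CMM` -/
def Sc_CMM : Prop :=
  ∀ A B : ℤ, CQ A B → ∀ m : Ideal (OO A B), m ≠ ⊥ → ∀ σ τ : RFE m ≃ₐ[kk A B] RFE m,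
    σ * τ = τ * σ

/-- the twin of `MUXC.Sc_EXT` -/
def Sc_EXT : Prop :=
  ∀ A B : ℤ, CQ A B → (∀ m m' : Ideal (OO A B), m' ≤ m → (RFE m : IntermediateField (kk A B) ℂ) ≤ RFE m') ∧
  ∀ (m : Ideal (OO A B)), m ≠ ⊥ → ∀ (D : IntermediateField ℚ ℂ) (h : kk A B ≤ D),
    (∀ y ∈ D, y ∈ (RFE m : IntermediateField (kk A B) ℂ)) → letI := algC h
    ∀ τ : D ≃ₐ[kk A B] D, ∃ σ : ℂ ≃+* ℂ, FixK A B σ ∧ ExtC h τ σ

/-- every ideal has a normalised lattice -/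
def Sc_NEX : Prop :=
  ∀ A B : ℤ, CaseE A B → ∀ b : Ideal (OO A B), b ≠ ⊥ → ∃ (L : PeriodPair) (om : ℂ), IsNE b L om

/-- good reduction where `2` and `3` are units -/
def Sc_BAD : Prop :=
  ∀ A B : ℤ, CaseE A B → ∀ V : ValuationSubring ℂ, V.valuation (2 : ℂ) = 1 →
    V.valuation (3 : ℂ) = 1 → ∀ L : PeriodPair, NrmE A B L → GRE V L

/-- the Frobenius congruence for a prime ideal of degree one -/
def Sc_FRX : Prop :=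
  ∀ (A B : ℤ), CaseE A B → ∀ (Q : Ideal (OO A B)) (q : ℕ), q.Prime → q ≠ 2 → q ≠ 3 →
    nI Q = q → ∀ (b b' : Ideal (OO A B)) (L M : PeriodPair) (om om' mu : ℂ),
    IsNE b L om → IsNE b' M om' → IsQ Q L M mu →
    ∀ V : ValuationSubring ℂ, OverI V Q → ∃ mu' : ℂ, IsQ Q L M mu' ∧
    ∀ z, ¬ InK V L (xnE L) z → ¬ InK V M (xnE M) (mu' * z) ∧
      V.valuation (xnE M (mu' * z) - xnE L z ^ q) < 1

/-- the twin of `MUXC.Sc_FRO` -/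
def Sc_FRO : Prop :=
  ∀ A B : ℤ, CaseE A B → ∃ n₀ : ℕ, n₀ ≠ 0 ∧ ∀ m : Ideal (OO A B), m ≠ ⊥ →
    ∀ (Q : Ideal (OO A B)) (q : ℕ), q.Prime → nI Q = q → ¬ q ∣ n₀ → ¬ q ∣ nI m →
    ∀ V : ValuationSubring ℂ, OverI V Q → ∀ s : ℂ ≃+* ℂ, FixK A B s →
    (∀ x : ℂ, x ∈ (RFE m : IntermediateField (kk A B) ℂ) → x ∈ V →
      V.valuation (s x - x ^ q) < 1) →
    ∀ (b : Ideal (OO A B)) (L : PeriodPair) (om : ℂ), IsNE b L om →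
      ∃ (b' : Ideal (OO A B)) (L' : PeriodPair) (om' mu : ℂ), IsNE b' L' om' ∧
        ActE s m Q L L' mu

/-- the twin of `MUXC.Sc_SUR` -/
def Sc_SUR : Prop :=
  ∀ A B : ℤ, CaseE A B → ∀ m : Ideal (OO A B), m ≠ ⊥ → ∀ a : Ideal (OO A B), a ≠ ⊥ →
    IsCoprime a m → ∃ σ : ℂ ≃+* ℂ, FixK A B σ ∧ ∀ (b : Ideal (OO A B)) (L : PeriodPair) (om : ℂ),
      IsNE b L om → ∃ (b' : Ideal (OO A B)) (L' : PeriodPair) (om' mu : ℂ), IsNE b' L' om' ∧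
        ActE σ m a L L' mu

/-- the twin of `MUXC.Sc_ZET` -/
def Sc_ZET : Prop :=
  ∀ A B : ℤ, CaseE A B → ∀ (M : ℕ) (m a : Ideal (OO A B)) (σ : ℂ ≃+* ℂ) (b : Ideal (OO A B))
    (L L' : PeriodPair) (om mu : ℂ), m ≠ ⊥ → FixK A B σ → M ≠ 0 → m ≤ idl M →
    IsNE b L om → ActE σ m a L L' mu → ∀ z : ℂ, z ^ M = 1 →
      z ∈ (RFE m : IntermediateField (kk A B) ℂ) ∧ σ z = z ^ nI a

/-- the twin of `MUXC.Sc_TOR` -/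
def Sc_TOR : Prop := ∀ A B : ℤ, CaseE A B → TorXE A B

end

end Pool.Agent.MEC
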