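import Pool.Agent.ME.ZIn4
import Pool.Agent.ME.N.IAll
import Pool.Agent.ME.HAll4
import Pool.Agent.ME2.ZFinE

/-!
# ME: the inputs of block J and the main theorem for `D = -4`, `p = 3`, no hypotheses (helper21)
-/

set_option autoImplicit false

open NumberField IsDedekindDomain

namespace Pool.Agent.ME2

open _root_.MU3 Pool.Agent.MU3 Pool.Agent.MU3A Pool.Agent.MU3B Pool.Agent.RI Pool.Agent.RID
  Pool.Agent.MUX Pool.Agent.MUXK Pool.Agent.MUXE Pool.Agent.MUXJ Pool.Agent.NSZ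
open Pool.Agent.ME hiding ActE

/-- the inputs of block J for `D = -4`, `p = 3` -/
theorem e34_INPG : E34_INPG := by
  intro A B V hC hB hV hT
  refine ⟨8, by norm_num, by norm_num, by norm_num, ?_⟩
  exact MEZ.inpg4 (Pool.Agent.NSI.n_INP_E Pool.Agent.MEH.h_HFIN4) A B V { hC with eB := hB } hV hT

/-- THE MAIN THEOREM, `D = -4`, `p = 3` -/
theorem z_m43 (A B : ℤ) (hC : CaseE A B) (hB : B = 0)
    (F M K : IntermediateField ℚ ℂ) [FiniteDimensional ℚ M] (hF : kk A B ≤ F) (h : F ≤ M)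
    (a : ℕ) (hT : TorU_E A B F) (hGal : IsGalois F (IntermediateField.extendScalars h))
    (ha : Module.finrank F (IntermediateField.extendScalars h) = 3 ^ a) (hK : K ≤ M) :
    ∃ C : ℕ, ∀ (n : ℕ) (Q : IntermediateField ℚ ℂ), IsLayer 3 n Q →
      padicValNat 3 (classNo (K ⊔ Q)) ≤ C * (n + 1) ^ C :=
  z_main43 e34_INPG A B hC hB F M K hF h a hT hGal ha hK

end Pool.Agent.ME2
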