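import Pool.Agent.ME.CEAll
import Pool.Agent.ME.Lib
import Pool.Agent.ME.X.StWX

/-!
# ME, block W: library (helper21)

An automorphism of `ℂ / k` acts on the points of level `m` of all normalised lattices as multiplication by one element `c`, which is `1` modulo `2` if `m ≤ (2)` (`actW`).
-/

set_option autoImplicit false

namespace Pool.Agent.MUXW

open _root_.MU3 Pool.Agent.MU3A Pool.Agent.MU3B Pool.Agent.RI Pool.Agent.MUX Pool.Agent.MUXU
open Pool.Agent.ME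

noncomputable section

variable {A B : ℤ}

lemma nrm_lat {L L' : PeriodPair} (h : NrmE A B L) (h' : NrmE A B L') (z : ℂ) :
    z ∈ L.lattice ↔ z ∈ L'.lattice := (MEC.c_SGQ A B L L' h h').1 z

lemma nrm_x {L L' : PeriodPair} (h : NrmE A B L) (h' : NrmE A B L') (z : ℂ) :
    xnE L z = xnE L' z := ((MEC.c_SGQ A B L L' h h').2.2 z).1

lemma nrm_y {L L' : PeriodPair} (h : NrmE A B L) (h' : NrmE A B L') (z : ℂ) :
    yy L z = yy L' z := ((MEC.c_SGQ A B L L' h h').2.2 z).2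

/-- from `GRE` to the model of the general statements, `c = 0` -/
lemma gre_zero {V : ValuationSubring ℂ} {L : PeriodPair} (h : MEC.GRE V L) :
    ∃ (W : WeierstrassCurve.Affine ℂ) (ξ : ℂ →+ W.Point),
      Pool.Agent.MUXV.GR V W L (fun z => L.weierstrassP z - 0)
        (fun z => L.derivWeierstrassP z / 2) ξ := by
  obtain ⟨W, ξ, G⟩ := h
  refine ⟨W, ξ, ?_⟩
  have e1 : (fun z => L.weierstrassP z - 0) = xnE L := by
    funext z
    rw [sub_zero]
    rfl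
  rw [e1]
  exact G

lemma ink_zero (V : ValuationSubring ℂ) (L : PeriodPair) (z : ℂ) :
    Pool.Agent.MUXV.InK V L (fun z => L.weierstrassP z - 0) z ↔
      Pool.Agent.MUXV.InK V L (xnE L) z := by
  have e1 : (fun z => L.weierstrassP z - 0) = xnE L := by
    funext z
    rw [sub_zero]
    rfl
  rw [e1]

/-- the converse of `gre_zero` -/
lemma gre_of {V : ValuationSubring ℂ} {L : PeriodPair}
    (h : ∃ (W : WeierstrassCurve.Affine ℂ) (ξ : ℂ →+ W.Point),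
      Pool.Agent.MUXV.GR V W L (fun z => L.weierstrassP z - 0)
        (fun z => L.derivWeierstrassP z / 2) ξ) : MEC.GRE V L := by
  obtain ⟨W, ξ, G⟩ := h
  refine ⟨W, ξ, ?_⟩
  have e1 : (fun z => L.weierstrassP z - 0) = xnE L := by
    funext z
    rw [sub_zero]
    rfl
  rw [e1] at G
  exact G

/-- change of both lattices -/
lemma actE_chg {m a : Ideal (OO A B)} {σ : ℂ ≃+* ℂ} {L L' M M' : PeriodPair} {mu : ℂ}
    (hL : NrmE A B L) (hL' : NrmE A B L') (hM : NrmE A B M) (hM' : NrmE A B M')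
    (h : ME.ActE σ m a L L' mu) : ME.ActE σ m a M M' mu := by
  refine ⟨hM.kapc hM' σ, h.cop, ⟨h.isq.1, fun z => ?_⟩, fun z hz => ?_⟩
  · rw [nrm_lat hM' hL', h.isq.2 z]
    exact forall₂_congr fun x _ => nrm_lat hL hM _
  · have hz' : Tor m L z := fun x hx => (nrm_lat hM hL _).1 (hz x hx)
    rcases h.act z hz' with ⟨f1, f2⟩ | ⟨f1, f2, f3, f4⟩
    · exact Or.inl ⟨(nrm_lat hL hM _).1 f1, (nrm_lat hL' hM' _).1 f2⟩
    · refine Or.inr ⟨fun g => f1 ((nrm_lat hL hM _).2 g), fun g => f2 ((nrm_lat hL' hM' _).2 g), ?_, ?_⟩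
      · rw [nrm_x hM hL, nrm_x hM' hL', f3]
      · rw [nrm_y hM hL, nrm_y hM' hL', f4]

/-- the shape of the action -/
lemma act_shape (h : CaseE A B) {m a : Ideal (OO A B)} (hm : m ≠ ⊥) {σ : ℂ ≃+* ℂ}
    (hσ : FixK A B σ) {b : Ideal (OO A B)} {L L' : PeriodPair} {om mu : ℂ} (hL : IsNE b L om)
    (hL' : NrmE A B L') (hA : ME.ActE σ m a L L' mu) :
    ∃ c : OO A B, mu = emb c ∧ a = sp c ∧ (m ≤ idl 2 → c - 1 ∈ idl (A := A) (B := B) 2) ∧
      ∀ (M M' : PeriodPair), NrmE A B M → NrmE A B M' → ME.ActE σ m (sp c) M M' (emb c) := by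
  obtain ⟨⟨c, hc, hac, hc2⟩, -, -⟩ := MEC.c_TRV A B h m a σ b L L' om mu hm hσ hL hA hL'
  refine ⟨c, hc, hac, hc2, fun M M' hM hM' => ?_⟩
  rw [← hc, ← hac]
  exact actE_chg hL.nrm hL' hM hM' hA

theorem top_ne_bot : (⊤ : Ideal (OO A B)) ≠ ⊥ := by
  intro h0
  have h3 : (1 : OO A B) ∈ (⊥ : Ideal (OO A B)) := h0 ▸ trivial
  rw [Ideal.mem_bot] at h3
  have h4 : (1 : ℤ) = 0 := congrArg QuadraticAlgebra.re h3
  exact one_ne_zero h4

/-- an automorphism acts on the points of level `m` as one element `c` -/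
theorem actW (h : CaseE A B) (T : TorXE A B) {m : Ideal (OO A B)} (hm : m ≠ ⊥) {σ : ℂ ≃+* ℂ}
    (hσ : FixK A B σ) :
    ∃ c : OO A B, IsCoprime (sp c) m ∧ (m ≤ idl 2 → c - 1 ∈ idl (A := A) (B := B) 2) ∧
      ∀ (M M' : PeriodPair), NrmE A B M → NrmE A B M' → ME.ActE σ m (sp c) M M' (emb c) := by
  obtain ⟨L₀, om₀, hL₀⟩ := MEC.exists_isNE h (⊤ : Ideal (OO A B)) top_ne_bot
  obtain ⟨a, hcop, ha⟩ := T.act m hm σ hσ
  obtain ⟨b', L', om', mu, hL', hA⟩ := ha _ _ _ hL₀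
  obtain ⟨c, -, hac, hc2, hc⟩ := act_shape h hm hσ hL₀ hL'.nrm hA
  exact ⟨c, hac ▸ hcop, hc2, hc⟩

/-- the action on the coordinates -/
lemma act_pt {m a : Ideal (OO A B)} {σ : ℂ ≃+* ℂ} {M : PeriodPair} {mu : ℂ}
    (hA : ME.ActE σ m a M M mu) {z : ℂ} (hz : Tor m M z) (hzM : z ∉ M.lattice) :
    mu * z ∉ M.lattice ∧ σ (xnE M z) = xnE M (mu * z) ∧ σ (yy M z) = yy M (mu * z) := by
  rcases hA.act z hz with ⟨f1, -⟩ | ⟨-, f2, f3, f4⟩
  · exact absurd f1 hzM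
  · exact ⟨f2, f3, f4⟩

/-- every `c` prime to `m` which is `1` modulo `2` occurs, if `m ≤ (2)` -/
theorem surjW (h : CaseE A B) (T : TorXE A B) {m : Ideal (OO A B)} (hm : m ≠ ⊥)
    (h2 : m ≤ idl 2) {c : OO A B} (hcm : IsCoprime (sp c) m) (hc2 : c - 1 ∈ idl (A := A) (B := B) 2) :
    ∃ σ : ℂ ≃+* ℂ, FixK A B σ ∧ ∃ c' : OO A B, (c' = c ∨ c' = -c) ∧
      ∀ (M M' : PeriodPair), NrmE A B M → NrmE A B M' → ME.ActE σ m (sp c) M M' (emb c') := by
  have hC := h.toCQ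
  obtain ⟨L₀, om₀, hL₀⟩ := MEC.exists_isNE h (⊤ : Ideal (OO A B)) top_ne_bot
  have hc0 : c ≠ 0 := by
    rintro rfl
    rw [mem_two] at hc2
    have h9 : (2 : ℤ) ∣ ((0 : OO A B) - 1).re := hc2.1
    have h10 : ((0 : OO A B) - 1).re = -1 := rfl
    rw [h10] at h9
    omega
  obtain ⟨σ, hσ, hs⟩ := T.surj m hm (sp c) (by rwa [Ne, Ideal.span_singleton_eq_bot]) hcm
  obtain ⟨b', L', om', mu, hL', hA⟩ := hs _ _ _ hL₀
  obtain ⟨c', hmu, hac, hc2', hc⟩ := act_shape h hm hσ hL₀ hL'.nrm hA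
  have := isDomain hC
  obtain ⟨u, hu⟩ := Ideal.span_singleton_eq_span_singleton.1 hac
  refine ⟨σ, hσ, c', ?_, fun M M' hM hM' => ?_⟩
  · have h3 : (u : OO A B) - 1 ∈ idl (A := A) (B := B) 2 := by
      have h4 : (u : OO A B) * (c - 1) ∈ idl (A := A) (B := B) 2 := Ideal.mul_mem_left _ _ hc2
      have h5 : (u : OO A B) - 1 = (c' - 1) - (u : OO A B) * (c - 1) := by rw [← hu]; ring
      rw [h5]
      exact sub_mem (hc2' h2) h4
    rcases unit_two h u.isUnit h3 with h6 | h6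
    · left
      rw [← hu, h6, mul_one]
    · right
      rw [← hu, h6]
      ring
  · have := hc M M' hM hM'
    rwa [← hac] at this

/-- the exponents of automorphisms of `F_m`, `2 ∣ m`, are `1` modulo `2` -/
theorem actH_two (h : CaseE A B) (T : TorXE A B) (hACM : Sy_ACM_E) {m a : OO A B} (hm : m ≠ 0)
    (h2 : (2 : OO A B) ∣ m)
    {σ : (RFE (sp m) : IntermediateField (kk A B) ℂ) ≃ₐ[kk A B] RFE (sp m)}
    (ha : ActH_E σ m a) : (2 : OO A B) ∣ a - 1 := by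
  have hQ := h.toCQ
  have hm0 : (sp m : Ideal (OO A B)) ≠ ⊥ := by
    rwa [Ne, Ideal.span_singleton_eq_bot]
  let D : IntermediateField ℚ ℂ :=
    (RFE (sp m) : IntermediateField (kk A B) ℂ).restrictScalars ℚ
  have hle : kk A B ≤ D := fun x hx =>
    (RFE (sp m) : IntermediateField (kk A B) ℂ).algebraMap_mem ⟨x, hx⟩
  have hDy : ∀ y ∈ D, y ∈ (RFE (sp m) : IntermediateField (kk A B) ℂ) := fun y hy => hy
  let := algC hle
  let τ : D ≃ₐ[kk A B] D := AlgEquiv.ofRingEquiv (f := (σ.toRingEquiv : D ≃+* D))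
    (fun r => σ.commutes r)
  obtain ⟨s, hs, hs1⟩ := T.ext (sp m) hm0 D hle hDy τ
  have hs2 : ∀ y : (RFE (sp m) : IntermediateField (kk A B) ℂ),
      ((σ y : (RFE (sp m) : IntermediateField (kk A B) ℂ)) : ℂ) = s y := fun y =>
    (hs1 y).symm
  obtain ⟨c, hcop, hc2, hA⟩ := actW h T hm0 hs
  have hcop' := (Ideal.isCoprime_span_singleton_iff c m).1 hcop
  have h2' : (sp m : Ideal (OO A B)) ≤ idl 2 := by
    rw [Ideal.span_singleton_le_span_singleton]
    exact_mod_cast h2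
  have hc : ActH_E σ m c := by
    refine ⟨hcop', fun b L om hL hk => ?_, fun b L om hL z hz hz' => ?_⟩
    · rw [hs2]
      exact hL.nrm.fixk s
    · have ht : Tor (sp m) L z := by
        intro x hx
        obtain ⟨y, rfl⟩ := Ideal.mem_span_singleton'.1 hx
        rw [Pool.Agent.MUX.emb_mul hQ, mul_assoc]
        exact hL.toIsLI.hasCM hQ y _ hz
      obtain ⟨h8, h9, -⟩ := act_pt (hA L L hL.nrm hL.nrm) ht hz'
      exact ⟨h8, fun hx => by rw [hs2]; exact h9⟩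
  have hc2' : (2 : OO A B) ∣ c - 1 := by
    have h3 := Ideal.mem_span_singleton.1 (hc2 h2')
    exact_mod_cast h3
  obtain ⟨L₀, om₀, hL₀⟩ := MEC.exists_isNE h (⊤ : Ideal (OO A B)) top_ne_bot
  rcases (hACM A B hQ L₀ om₀ hL₀ m hm).1 _ σ a c le_rfl ha hc with h3 | h3
  · have h4 := dvd_add (h2.trans h3) hc2'
    rwa [sub_add_sub_cancel] at h4
  · have h4 := dvd_sub (h2.trans h3) hc2'
    have h5 : (2 : OO A B) ∣ 2 := dvd_rfl
    have h6 := dvd_sub h4 h5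
    have e : a + c - (c - 1) - 2 = a - 1 := by ring
    rwa [e] at h6

end

end Pool.Agent.MUXW
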