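import Pool.Agent.ME.StXEE
import Pool.Agent.NS.StEN

/-!
# ME, block E for `D = -4` (`3` inert): cubes and logarithmic derivatives (helper86)

The statements of `Pool/Agent/NS/StEN.lean` which see the frame (`NL`, `RF`, `TorX`, `GalE`, `Reps`), for the frame of `DefsE.lean`; all levels are even. The other statements of block EN
(`Pool.Agent.NSE.e_ALG, e_PRO, e_PUL, e_COE, e_GRN, e_LEG, e_TW3, e_PTS, e_TPN, e_UNT, e_RAT, e_ISO, e_ADD, e_THN, e_BAS, e_NE1` in `EAll.lean`) are used as they are: they are statements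
on lattices with `GoodN`. `S4_RFIN` (helper58) is the twin of `Sn_RFIN`, `S4_EFIN` is the result.
-/

set_option autoImplicit false

open Polynomial

namespace Pool.Agent.ME4

open _root_.MU3 Pool.Agent.MU3A Pool.Agent.MU3B Pool.Agent.MUX Pool.Agent.MUXU Pool.Agent.RI
open Pool.Agent.NS
open Pool.Agent.ME hiding ActE
open Pool.Agent.MEE
open Pool.Agent.MUXE (RingE)
open Pool.Agent.MUXV (GR InK tX)
open Pool.Agent.NSE (E3 su ru WL IntP Pts Rep)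

noncomputable section

/-- (RFIN) the reduction of the normalised lattices at `V | 3`, `D = -4`. -/
def S4_RFIN : Prop :=
  ∀ (A B : ℤ) (V : ValuationSubring ℂ), CaseE A B → B = 0 →
    OverI V (idl (A := A) (B := B) 3) → TorXE A B →
    (∀ (b : Ideal (OO A B)) (L : PeriodPair) (om : ℂ), IsNE b L om →
      ∃ u e lam : ℂ, GoodN V L u e lam ∧ u ^ 2 ∈ RFE (idl (A := A) (B := B) 2) ∧
        e ∈ RFE (idl (A := A) (B := B) 2) ∧ lam ∈ RFE (idl (A := A) (B := B) 2)) ∧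
    ∀ f : ℕ, f ≠ 0 → 2 ∣ f → ¬ 3 ∣ f → ∀ σ : ℂ ≃+* ℂ, FixK A B σ →
      (∀ y ∈ RFE (idl (A := A) (B := B) f), y ∈ V → σ y - y ∈ V.nonunits) →
      ∀ y ∈ RFE (idl (A := A) (B := B) f), σ y = y

/-- (EFIN) cubes have a logarithmic derivative divisible by `3`. -/
def S4_EFIN : Prop :=
  ∀ (A B : ℤ) (V : ValuationSubring ℂ) (f : ℕ), SetE4 A B V f → TorXE A B →
    ∀ (ι : Type) [Fintype ι] (R : RepsE A B (3 * f) ι) (u e lam : ℂ),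
    GoodN V (R.L R.i0) u e lam → ∀ w : OO A B → ℂ, IsTei V w →
    ∀ n : ℕ, 1 ≤ n →
    ∀ (H : ι → Finset ℂ), (∀ i, IsHalf (R.L i) (aX 3 f : ℂ) (H i)) →
    ∀ (D : IntermediateField ℚ ℂ) (h : kk A B ≤ D),
      (∀ y ∈ D, y ∈ RFE (idl (A := A) (B := B) (lvX 3 f n))) →
    letI := algC h
    (∀ τ : D ≃ₐ[kk A B] D, ∃ y : D, (y : ℂ) = cXE R (lvX 3 f n) H h 1 ∧
      ((τ y : D) : ℂ) = cXE R (lvX 3 f n) H h τ) →
    ∀ g : (D ≃ₐ[kk A B] D) → ℤ,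
      (∃ y ∈ D, y ^ 3 = ∏ᶠ τ : D ≃ₐ[kk A B] D, cXE R (lvX 3 f n) H h τ ^ g τ) →
      ∀ τ' : D ≃ₐ[kk A B] D,
        V.valuation ((∑ᶠ τ : D ≃ₐ[kk A B] D, (g τ : ℂ) *
          TTNE R w (lvX 3 f n) (aX 3 f) h (τ * τ')) / u) ≤ V.valuation (3 : ℂ)

/-- everything on `O`, `k`, `V` and the reduction which is used -/
structure CtxN4 (A B : ℤ) (V : ValuationSubring ℂ) : Prop where
  case : CaseE A B
  ring : RingE A B
  cq : CQ A B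
  v3 : V.valuation (3 : ℂ) < 1
  int : ∀ x : OO A B, V.valuation (emb x) ≤ 1
  unit : ∀ x : OO A B, x ∉ idl (A := A) (B := B) 3 → V.valuation (emb x) = 1
  nat : ∀ n : ℕ, ¬ 3 ∣ n → V.valuation (n : ℂ) = 1
  max : (idl (A := A) (B := B) 3).IsMaximal
  nrm : ∀ x : OO A B, x ∉ idl (A := A) (B := B) 3 → ¬ (3 : ℤ) ∣ nm x
  kval : ∀ y ∈ kk A B, y ≠ 0 → ∃ k : ℤ, V.valuation y = V.valuation (3 : ℂ) ^ k
  good : ∀ L, NLE A B L → ∃ u e lam : ℂ, GoodN V L u e lam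
  iner : ∀ f : ℕ, f ≠ 0 → 2 ∣ f → ¬ 3 ∣ f → ∀ σ : ℂ ≃+* ℂ, FixK A B σ →
    (∀ y ∈ RFE (idl (A := A) (B := B) f), y ∈ V → σ y - y ∈ V.nonunits) →
    ∀ y ∈ RFE (idl (A := A) (B := B) f), σ y = y

/-- (CTX) from the standing hypotheses to `CtxN4`.

PROOF. `cong`/norm: `4 nm x = (2 x.re + B x.im)² - (B² + 4A) x.im²` and `B² + 4A ≡ -1` modulo 3, so `3 ∣ nm x` only if `3 ∣ x.im`, `3 ∣ x.re`, `x ∈ (3)`; `nm x = x star x`: so `O/(3)` is a field (`max`). `v 3 < 1`: `OverI` for `x = 3`. `int`: `emb x` is integral over `ℤ` (`x² - tr x + nm`). `unit`: `OverI`. `nat`: `1 = 3 a + n b`. `ring`: `te_RNG`.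
`kval`: `x ∈ O`, `x ≠ 0`: `x = 3^j y`, `y ∉ (3)` (for instance the largest `j` with `3^j ∣ x.re, x.im`), `v(emb x) = v(3)^j`; every element of `k` is `emb x/n`, `n` a positive integer (see `E_PC.lean`). `good`, `iner`: `S4_RFIN`. See also `E_CTX.lean`, `E_PA.lean`, `E_PC.lean` of `Pool/Agent/MUX/`. -/
def S4_CTX : Prop :=
  ∀ (A B : ℤ) (V : ValuationSubring ℂ), CaseE A B → B = 0 →
    OverI V (idl (A := A) (B := B) 3) → TorXE A B → S4_RFIN → CtxN4 A B V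

/-- (RAM) a finite Galois extension `F / k` with trivial inertia group at `V` is unramified. -/
def S4_RAM : Prop :=
  ∀ (A B : ℤ) (V : ValuationSubring ℂ), CtxN4 A B V →
    ∀ (F : IntermediateField (kk A B) ℂ) [FiniteDimensional (kk A B) F] [IsGalois (kk A B) F],
      (∀ σ : F ≃ₐ[kk A B] F, (∀ x : F, V.valuation (x : ℂ) ≤ 1 →
        V.valuation ((σ x : ℂ) - x) < 1) → σ = 1) →
      ∀ y ∈ F, y ≠ 0 → ∃ k : ℤ, V.valuation y = V.valuation (3 : ℂ) ^ k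

/-- (UNR) `RFE (f)` is unramified at `V` if `f` is even and prime to `3`.

Uses S4_RAM. PROOF. (RAM) for `F = RFE (idl f)` (finite, Galois: `TorXE`). `σ ∈ Gal(F/k)` in the inertia group: extend it to `s ∈ Aut(ℂ)`, `FixK` (`T.ext` for `F` as a field over `ℚ`; see `CXW.extn` in `Pool/Agent/MUX/W_CXW.lean`); `CtxN4.iner`: `s y = y` for all `y ∈ F`, so `σ = 1`. -/
def S4_UNR : Prop :=
  ∀ (A B : ℤ) (V : ValuationSubring ℂ), CtxN4 A B V → TorXE A B →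
    ∀ f : ℕ, f ≠ 0 → 2 ∣ f → ¬ 3 ∣ f → ∀ y ∈ RFE (idl (A := A) (B := B) f), y ≠ 0 →
      ∃ k : ℤ, V.valuation y = V.valuation (3 : ℂ) ^ k

/-- (DEG) the degree of `RFE (3^(j+1) f)` over `RFE (f)`.

PROOF. As `Pool/Agent/MUX/E_DEG.lean`. `σ ∈ Gal(RFE (3^(j+1) f)/k)` trivial on `RFE (f)` acts as some `α` with `α - 1 ∈ (f)` (`GalEE.ker`), prime to `3`; `σ` is determined by the class of `α` modulo `3^(j+1)` (if `α ≡ α'` modulo `3^(j+1)` and modulo `f`, then modulo `3^(j+1) f`; `Pool.Agent.MEE.tm_FAC`). There are at most `8·9^j` classes modulo `3^(j+1)` of elements not divisible by `3`: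
pairs `(re, im)` modulo `3^(j+1)`, not both divisible by `3`: `9^(j+1) - 9^j`. -/
def S4_DEG : Prop :=
  ∀ (A B : ℤ) (V : ValuationSubring ℂ), CtxN4 A B V → GalEE A B → ∀ (j f : ℕ), f ≠ 0 → 2 ∣ f →
    ¬ 3 ∣ f → Module.finrank (kk A B) (RFE (idl (A := A) (B := B) (3 ^ (j + 1) * f))) ≤
      (8 * 9 ^ j) * Module.finrank (kk A B) (RFE (idl (A := A) (B := B) f))

/-- (SIG) `Y ↦ σ_Y(w)` for `w` in the ray class field, `σ_Y(P) = P + Y`, `P = om/(3^(n+1) f)`.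

Uses Se_ALG, Se_PRO, Se_COE, Se_GRN, Se_LEG, Se_PTS, Se_TPN, Se_ADD, S4_UNR, S4_DEG, Se_BAS. PROOF. `M = RFE (3^(n+1) f a)`, `M₀ = RFE (f a)`, `m = 3^(n+1) f`. `w₁, w₂` (LEG): `e = ℘ w₁`, `u² = ℘ w₂ - ℘ w₁`, `xnE L w_i = ℘ w_i - 1/12 ∈ RFE (2) ≤ M₀` (`2 ∣ f`), so `e, u² ∈ M₀`. `P = om/m`. `k` with `3^(n+1) k ≡ 1` modulo `f`, `P₀ = 3^(n+1) k P`,
`P₁ = P - P₀`: `f P₀ ∈ L`, `2 P₀ ∉ L` (`f ∤ 2 k`, `f ≥ 3`, `k` prime to `f`), `3^(n+1) P₁ ∈ L`, `3^n P₁ ∉ L` (`3^n (1 - 3^(n+1) k) P ∈ L` iff `m ∣ 3^n (1 - 3^(n+1) k)`). `P₀, 2 P₀ ∉ InK` (TPN (1)), so `v(y P₀) = 1` (`Pool.Agent.MU3.Val.v_y_unit` in `Pool/Agent/MU3/VRed.lean` for the point `ξ P₀`, with `MUXV.inE_iff`).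
`π = x(P) - x(P₀)`, `v(π - 2 y(P₀) t(P₁)) ≤ v(t P₁)²` (`MUXV.near`), `v π = v(t P₁)`, `v(t P₁)² = v(s P₁)` (`t = -x/y`, `y² = x³ (1 + ..)`), so `v(π)^(8·9^n) = v 3` (TPN (2)). (BAS) with `N = 8·9^n` (DEG with `j = n`, `f := f a`; UNR): `w = Σ a_i π^i`, `a_i ∈ M₀`, `v a_i ≤ 1`. `F Y = Σ a_i (x(P + Y) - x(P₀))^i`: polynomial over `V` in `x(P + Y)`, represented (ADD, PRO (1))
by `(Σ a_i π^i, β) = (w, β)`. `σ` with `c = 1 + 3^n f a y` acts trivially on `M₀` (`Pool.Agent.MEE.tm_FAC`: `c - 1 ∈ (f a)`), so on `a_i`, `e`, `u²`, `x(P₀)` (`xnE L P₀ ∈ M₀`), and `σ(xnE L P) = xnE L (emb c * P)`, `emb c * P = P + emb y * (a om/3)`; so `σ w = Σ a_i (x(P + Y) - x(P₀))^i`, `Y = emb y * (a om/3)`. -/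
def S4_SIG : Prop :=
  ∀ (A B : ℤ) (V : ValuationSubring ℂ), CtxN4 A B V → TorXE A B → GalEE A B →
    ∀ (L : PeriodPair) (om u e lam : ℂ), IsNE (⊤ : Ideal (OO A B)) L om → GoodN V L u e lam →
    ∀ n f a : ℕ, 1 ≤ n → 3 ≤ f → 2 ∣ f → ¬ 3 ∣ f → a ≠ 0 → ¬ 3 ∣ a →
    ∀ w ∈ RFE (idl (A := A) (B := B) (3 ^ (n + 1) * f * a)), V.valuation w ≤ 1 →
    ∃ (F : ℂ → ℂ) (β : ℂ), V.valuation β ≤ 1 ∧ Rep V (E3 L) (su L u e) (ru L u e) F w β ∧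
      ∀ (y : OO A B), y ∉ idl (A := A) (B := B) 3 →
      ∀ (σ : RFE (idl (A := A) (B := B) (3 ^ (n + 1) * f * a)) ≃ₐ[kk A B]
        RFE (idl (A := A) (B := B) (3 ^ (n + 1) * f * a))),
      ActEE (em σ) (idl (A := A) (B := B) (3 ^ (n + 1) * f * a))
        (1 + ((3 ^ n * f * a : ℕ) : OO A B) * y) →
      ∀ hw : w ∈ RFE (idl (A := A) (B := B) (3 ^ (n + 1) * f * a)),
        (σ ⟨w, hw⟩ : ℂ) = F (emb y * (a * om / 3))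

/-- (MUL) the isogenies `μ_i x : L_(i0) → L_i` have degree prime to `3`.

PROOF. `μ = μ_i emb x`, `μ_i = om_i N(b_i)/om_0`, `L_0 = om_0 emb O`, `L_i = om_i emb b_i`; `N(b_i) ∈ b_i`: `μ L_0 ⊆ L_i` (`Pool.Agent.MEE.tm_PT`). `μ z ∈ L_i`: `emb x N(b_i) z/om_0 ∈ emb b_i ⊆ emb O`; multiply by `star x`: `nm x · N(b_i) z ∈ L_0`. `N = (nm x).natAbs * nI (R.b i)`, prime to `3` (`CtxN4.nrm`; `R.cop`, `3 ∣ n`). -/
def S4_MUL : Prop :=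
  ∀ (A B : ℤ) (V : ValuationSubring ℂ), CtxN4 A B V → ∀ (n : ℕ) (ι : Type) (R : RepsE A B n ι),
    n ≠ 0 → 3 ∣ n → ∀ (i : ι) (x : OO A B), x ∉ idl (A := A) (B := B) 3 →
      muXE R i * emb x ≠ 0 ∧ Isg (R.L R.i0) (R.L i) (muXE R i * emb x) ∧
      ∃ N : ℕ, ¬ 3 ∣ N ∧ ∀ z, muXE R i * emb x * z ∈ (R.L i).lattice →
        (N : ℂ) * z ∈ (R.L R.i0).lattice

/-- (ONE) Lemma E, for products over arbitrary finite families of points `(i, x)`.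

Uses Se_ALG, Se_PRO, Se_COE, Se_LEG, Se_PTS, Se_THN, S4_UNR, S4_SIG, Se_NE1, S4_MUL. PROOF. (Model: `Pool/Agent/MUX/E_ONE.lean`.) `m = 3^(n+1) f`, `L_0 = R.L R.i0 = om emb O`, `M = RFE (m a)`. Models `u_i, e_i, lam_i` of `L_i` (`CtxN4.good`), `u, e, lam` of `L_0`. `z = ptE R m i x` for `(i, x) ∈ X j`: exact order `m` (`Pool.Agent.MEE.tm_PT`, `x` prime to `m`), so (NE1) applies, also to all `q ∈ H i`.
(1) `v(Θ(z)) = v(u_i²)^|H_i|` (THN with `μ = muXE i * emb x`, MUL; `x ∉ (3)` as `3 ∣ m`), `3 ∣ |H_i|` (`b_HRE`: `2 |H| + 1 = a²`, `3 ∤ a`), `v(u_i²) ∈ v(3)^ℤ` (LEG: `u_i² = xnE w₂ - xnE w₁ ∈ RFE (2)`; UNR with `f = 2`). So `v(W) = v(3)^(3 K)` for `W = ∏_j (∏ Θ)^(g_j) = y³`, `v(y) = v(3)^K`, `w = y/3^K ∈ RFE (m) ≤ M`, `v w = 1`.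
(2) `c_b = 1 + 3^n f a b`, `b ∈ O ∖ (3)`, is prime to `m a` (`n ≥ 1`), `σ_b` with `ActEE (em σ_b) (m a) c_b` (`GalEE.sur`). (SIG) for `w`: `F`, `β`. `Y_b = emb b * (a om/3) ∈ E3 L_0`, every `Y ∈ E3 L_0` is congruent to some `Y_b` modulo `L_0` (`Y = om emb b'/3`, `a b ≡ b'` modulo 3), and all functions below are functions of `(s Y, r Y)`, so periodic (PTS).
(3) (`Pool.Agent.MEE.tm_GTH`): `σ_b(Θ(z)) = Θ(emb c_b z) = Θ(z + μ Y_b)`, `μ = muXE i * emb x` (`3^n f a b z = muXE i emb x · 3^n f a b om/m`). So for `G_(j,y)(Y) = Θ(z + μ Y)/Θ(z)` (THN: represented by `(1, μ dlX/u)`), `∏_j (∏_y G)^(g_j) (Y_b) = σ_b W/W = (σ_b w/w)³ = (F(Y_b)/w)³` (`3^K` is rational). The left side is represented by `(1, S')`,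
`S' = Σ_j g_j Σ_y emb(x) muXE i dlX/u` (PRO (2)), `F/w` by `(1, β/w)`: (PRO (3)) `v(S') ≤ v 3`. (4) Replace `emb x` by `w x`: `v(w x - emb x) ≤ v 3` and `v(muXE i dlX/u) ≤ 1` (THN: `v(μ dlX/u) ≤ 1`, `v(emb x) = 1`). -/
def S4_ONE : Prop :=
  ∀ (A B : ℤ) (V : ValuationSubring ℂ), CtxN4 A B V → TorXE A B → GalEE A B →
    ∀ (n f a : ℕ), 1 ≤ n → 3 ≤ f → 2 ∣ f → ¬ 3 ∣ f → 3 ≤ a → ¬ 3 ∣ a → a.Coprime f →
    ∀ (ι : Type) (R : RepsE A B (3 * f) ι) (u e lam : ℂ), GoodN V (R.L R.i0) u e lam →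
    ∀ (H : ι → Finset ℂ), (∀ i, IsHalf (R.L i) (a : ℂ) (H i)) →
    ∀ w : OO A B → ℂ, IsTei V w →
    ∀ (J : Type) [Fintype J] (X : J → Finset (ι × OO A B)) (g : J → ℤ),
      (∀ j, ∀ y ∈ X j, IsCoprime y.2 ((3 ^ (n + 1) * f : ℕ) : OO A B)) →
      (∃ y ∈ RFE (idl (A := A) (B := B) (3 ^ (n + 1) * f)), y ^ 3 =
        ∏ j, (∏ y ∈ X j, ThetaH (R.L y.1) (H y.1) (ptE R (3 ^ (n + 1) * f) y.1 y.2)) ^ g j) →
      V.valuation ((∑ j, (g j : ℂ) * ∑ y ∈ X j, w y.2 * muXE R y.1 *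
        dlX (R.L y.1) a (ptE R (3 ^ (n + 1) * f) y.1 y.2)) / u) ≤ V.valuation (3 : ℂ)

/-- (MAIN) Lemma E for arbitrary families of pairs.

Uses S4_ONE, S4_CTX. PROOF. As `Pool/Agent/MUX/E_MAIN0.lean` (`Sxe_MAIN0`); `lvX 3 f n = f * 3 * 3^n = 3^(n+1) * f`, `aX 3 f = 1 + 6 f`. `f ≥ 3` and `2 ∣ f`: `SetE4.fD`, `absD ≥ 3`. -/
def S4_MAIN : Prop :=
  ∀ (A B : ℤ) (V : ValuationSubring ℂ) (f : ℕ), SetE4 A B V f → TorXE A B → S4_RFIN →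
    ∀ (ι : Type) [Fintype ι] (R : RepsE A B (3 * f) ι) (u e lam : ℂ),
    GoodN V (R.L R.i0) u e lam → ∀ w : OO A B → ℂ, IsTei V w →
    ∀ n : ℕ, 1 ≤ n →
    ∀ (H : ι → Finset ℂ), (∀ i, IsHalf (R.L i) (aX 3 f : ℂ) (H i)) →
    ∀ (D : IntermediateField ℚ ℂ) (h : kk A B ≤ D),
      (∀ y ∈ D, y ∈ RFE (idl (A := A) (B := B) (lvX 3 f n))) →
    letI := algC h
    ∀ (C : (D ≃ₐ[kk A B] D) → ℂ)
      (S : (D ≃ₐ[kk A B] D) → Finset (ι × (OO A B ⧸ idl (A := A) (B := B) (lvX 3 f n)))),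
    (∀ τ : D ≃ₐ[kk A B] D, ∃ y : D, (y : ℂ) = C 1 ∧ ((τ y : D) : ℂ) = C τ) →
    (∀ τ, ∀ q ∈ S τ, IsCoprime (Quotient.out q.2 : OO A B) ((lvX 3 f n : ℕ) : OO A B)) →
    (∀ τ, C τ = ∏ q ∈ S τ, ThetaH (R.L q.1) (H q.1) (ptE R (lvX 3 f n) q.1 (Quotient.out q.2))) →
    ∀ g : (D ≃ₐ[kk A B] D) → ℤ,
      (∃ y ∈ D, y ^ 3 = ∏ᶠ τ : D ≃ₐ[kk A B] D, C τ ^ g τ) →
      ∀ τ' : D ≃ₐ[kk A B] D,
        V.valuation ((∑ᶠ τ : D ≃ₐ[kk A B] D, (g τ : ℂ) * ∑ q ∈ S (τ * τ'),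
          w (Quotient.out q.2) * muXE R q.1 *
            dlX (R.L q.1) (aX 3 f) (ptE R (lvX 3 f n) q.1 (Quotient.out q.2))) / u) ≤
          V.valuation (3 : ℂ)

/-- (FIN) the final form.

Uses S4_MAIN. PROOF. `S τ = XXE R m h τ` (a finite set, `ι` and `O/m` are finite); `cXE = C`. As `Pool/Agent/MUX/E_EW.lean`. -/
def S4_FIN : Prop := S4_RFIN → S4_EFIN

end

end Pool.Agent.ME4
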