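import Pool.Agent.ME.CEAll
import Pool.Agent.ME.StE4
import Pool.Agent.NS.RN_ALL

/-!
# ME, block R (helper58): the reduction of the normalised lattices at the places above `3`, exceptional fields

`D = -4`: `y² = x³ - x`, `u = 1`, `e = 0`, `lam = -1`. `D = -3`: `y² = x³ + 1`, `e = -1`, `u² = 1 + w`, `lam = 1 - w`, `w = exp(π i/3)`. `σ` in the inertia group acts on `E[f]` as `mu ≡ ± 1`.
-/

set_option autoImplicit false

open Polynomial NumberField IsDedekindDomain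

namespace Pool.Agent.MER

open _root_.MU3 Pool.Agent.MU3A Pool.Agent.MU3B Pool.Agent.MUX Pool.Agent.MUXU Pool.Agent.RI
open Pool.Agent.ME Pool.Agent.MEC
open Pool.Agent.NS (xu yu GoodN)
open Pool.Agent.NSRD (GoodR)
open Pool.Agent.NSR (Leg WL)
open Pool.Agent.MUXV (GR InK tX)

noncomputable section

variable {A B : ℤ}

/-- `σ` in the inertia group of `RFE (f)` is trivial on `RFE (f)`, `f` even and a unit at `V` -/
theorem iner (h : CaseE A B) (T : TorXE A B) (V : ValuationSubring ℂ) {u e : ℂ}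
    (W : WeierstrassCurve.Affine ℂ) (hu : u ^ 2 ∈ kk A B) (he : e ∈ kk A B)
    (G : ∀ L : PeriodPair, NrmE A B L → ∃ (Y : ℂ → ℂ) (ξ : ℂ →+ W.Point), GR V W L (xu L u e) Y ξ)
    {f : ℕ} (hf : f ≠ 0) (h2 : 2 ∣ f) (hv : V.valuation (f : ℂ) = 1) (σ : ℂ ≃+* ℂ)
    (hσ : FixK A B σ)
    (hin : ∀ y ∈ RFE (idl (A := A) (B := B) f), y ∈ V → σ y - y ∈ V.nonunits) :
    ∀ y ∈ RFE (idl (A := A) (B := B) f), σ y = y := by
  have hC := h.toCQ
  have hm : (idl (A := A) (B := B) f) ≠ ⊥ := by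
    intro h0
    exact natCast_ne_zero' hC hf (Ideal.span_singleton_eq_bot.1 h0)
  have hm2 : (idl (A := A) (B := B) f) ≤ idl 2 := by
    obtain ⟨k, rfl⟩ := h2
    rw [Ideal.span_singleton_le_span_singleton]
    exact ⟨(k : OO A B), by push_cast; ring⟩
  obtain ⟨L, om, hL⟩ := exists_isNE h (⊤ : Ideal (OO A B)) (by
    intro h0
    have := (Submodule.mem_bot (OO A B)).1 (h0 ▸ Submodule.mem_top : (1 : OO A B) ∈ (⊥ : Ideal _))
    have h1 := congrArg emb this
    rw [Pool.Agent.MUX.emb_one hC, Pool.Agent.MUX.emb_zero hC] at h1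
    exact one_ne_zero h1)
  have hCM : HasCM A B L := hL.toIsLI.hasCM hC
  obtain ⟨a, -, ha⟩ := T.act _ hm σ hσ
  obtain ⟨b', L', om', mu, hL', hact⟩ := ha ⊤ L om hL
  obtain ⟨c, hc, hac, -⟩ := T.two _ a σ ⊤ L L' om mu hm hm2 hσ hL hact hL'.nrm
  refine (T.triv _ a σ ⊤ L L' om mu hm (Or.inl hm2) hσ hL hact hL'.nrm).2 ?_
  obtain ⟨hlat, -, hco⟩ := c_SGQ A B L L' hL.nrm hL'.nrm
  obtain ⟨z, hz, hzm, -⟩ := Pool.Agent.MUXC.c_GEN A B hC ⊤ _ L om hL.toIsLI hm
  by_cases hzL : z ∈ L.lattice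
  · have h1 : (1 : OO A B) ∈ idl (A := A) (B := B) f := (hzm 1).1 (by
      rwa [Pool.Agent.MUX.emb_one hC, one_mul])
    exact ⟨c, by rw [(Ideal.eq_top_iff_one _).2 h1]; trivial, hac⟩
  rcases hact.act z hz with ⟨h1, -⟩ | ⟨-, hmz', hx, -⟩
  · exact absurd h1 hzL
  have hmz : mu * z ∉ L.lattice := fun h1 => hmz' ((hlat _).1 h1)
  have hfk := TRV.fix hσ
  have hxz : σ (xnE L z) = xnE L (mu * z) := by rw [hx, (hco _).1]
  have hX : σ (xu L u e z) = xu L u e (mu * z) := by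
    unfold xu
    rw [map_div₀, map_sub, hfk _ hu, hfk _ he]
    have : σ (L.weierstrassP z) = L.weierstrassP (mu * z) := hxz
    rw [this]
  have htm : Tor (idl (A := A) (B := B) f) L (mu * z) := by
    intro x hx
    have e1 : emb x * (mu * z) = mu * (emb x * z) := by ring
    rw [e1, hc]
    exact hCM c _ (hz x hx)
  obtain ⟨Y, ξ, g⟩ := G L hL.nrm
  have hK : ∀ y : ℂ, Tor (idl (A := A) (B := B) f) L y → InK V L (xu L u e) y →
      y ∈ L.lattice := by
    intro y hy hyK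
    apply Pool.Agent.MUXV.mem_of_nat_mul g hyK hv
    have h5 := hy ((f : ℕ) : OO A B) (Ideal.mem_span_singleton_self _)
    rwa [Pool.Agent.MUX.emb_natCast hC] at h5
  have hzK : ¬ InK V L (xu L u e) z := fun h1 => hzL (hK z hz h1)
  have hmK : ¬ InK V L (xu L u e) (mu * z) := fun h1 => hmz (hK _ htm h1)
  have hxV : xu L u e z ∈ V :=
    (ValuationSubring.valuation_le_one_iff _ _).1 (Pool.Agent.MUXV.int_X hzK).2
  have hxR : xu L u e z ∈ RFE (idl (A := A) (B := B) f) := by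
    have h1 : xnE L z ∈ RFE (idl (A := A) (B := B) f) :=
      IntermediateField.subset_adjoin _ _ ⟨⊤, L, om, hL, Or.inr ⟨z, hz, hzL, rfl⟩⟩
    have h3 : u ^ 2 ∈ RFE (idl (A := A) (B := B) f) :=
      (RFE (idl (A := A) (B := B) f)).algebraMap_mem ⟨u ^ 2, hu⟩
    have h4 : e ∈ RFE (idl (A := A) (B := B) f) :=
      (RFE (idl (A := A) (B := B) f)).algebraMap_mem ⟨e, he⟩
    exact div_mem (sub_mem h1 h4) h3
  have hlt := hin _ hxR hxV
  rw [hX, ValuationSubring.mem_nonunits_iff] at hlt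
  by_cases hm1 : mu * z - z ∈ L.lattice
  · refine ⟨c, (hzm _).1 ?_, hac⟩
    rw [Pool.Agent.MUX.emb_sub hC, Pool.Agent.MUX.emb_one hC, ← hc, sub_mul, one_mul]
    exact hm1
  by_cases hp1 : mu * z + z ∈ L.lattice
  · refine ⟨-c, ?_, ?_⟩
    · have h9 : c + 1 ∈ idl (A := A) (B := B) f := by
        refine (hzm _).1 ?_
        rw [Pool.Agent.MUX.emb_add hC, Pool.Agent.MUX.emb_one hC, ← hc, add_mul, one_mul]
        exact hp1
      have e1 : -c - 1 = -(c + 1) := by ring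
      rw [e1]
      exact neg_mem h9
    · rw [hac]
      exact (Ideal.span_singleton_neg c).symm
  exfalso
  have := Pool.Agent.MUXV.v_X_sub g hmK hzK (fun h1 => hp1 (hK _ (htm.add hz) h1))
    (fun h1 => hm1 (hK _ (by
      have := htm.add hz.neg
      rwa [← sub_eq_add_neg] at this) h1))
  exact absurd this hlt.ne

lemma v_nat {V : ValuationSubring ℂ} (v3 : V.valuation (3 : ℂ) < 1) {n : ℕ} (hn : ¬ 3 ∣ n) :
    V.valuation (n : ℂ) = 1 := by
  have hle : ∀ k : ℤ, V.valuation (k : ℂ) ≤ 1 := fun k => by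
    rw [ValuationSubring.valuation_le_one_iff]
    exact intCast_mem V k
  have hco : IsCoprime (3 : ℤ) (n : ℤ) := by
    have : Nat.Coprime 3 n := (Nat.Prime.coprime_iff_not_dvd Nat.prime_three).2 hn
    exact_mod_cast Nat.isCoprime_iff_coprime.2 this
  obtain ⟨x, y, hxy⟩ := hco
  have h1 : (x : ℂ) * 3 + y * n = 1 := by exact_mod_cast hxy
  by_contra hne
  have hlt : V.valuation (n : ℂ) < 1 := lt_of_le_of_ne (by exact_mod_cast hle n) hne
  have h2 : V.valuation ((x : ℂ) * 3 + y * n) < 1 := by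
    refine Valuation.map_add_lt _ ?_ ?_
    · rw [map_mul]
      exact lt_of_le_of_lt (mul_le_of_le_one_left' (hle x)) v3
    · rw [map_mul]
      exact lt_of_le_of_lt (mul_le_of_le_one_left' (hle y)) hlt
  rw [h1, map_one] at h2
  exact lt_irrefl _ h2

/-- `D = -4`: the model -/
lemma leg4 (hB : B = 0) {L : PeriodPair} (hL : NrmE A B L) : Leg L 1 0 (-1) := by
  refine ⟨one_ne_zero, fun z hz => ?_⟩
  have h1 := L.derivWeierstrassP_sq z hz
  rw [hL.g2, hL.g3] at h1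
  unfold g2E g3E at h1
  rw [if_pos hB, if_pos hB] at h1
  linear_combination (1 / 4) * h1

/-- (RFIN) for `D = -4` -/
theorem rfin4 : Pool.Agent.ME4.S4_RFIN := by
  intro A B V h hB hV T
  have hC := h.toCQ
  have v3 : V.valuation (3 : ℂ) < 1 := by
    have h1 := (hV ((3 : ℕ) : OO A B)).2 (Ideal.mem_span_singleton_self _)
    rw [Pool.Agent.MUX.emb_natCast hC, ValuationSubring.mem_nonunits_iff] at h1
    exact_mod_cast h1
  have v2 : V.valuation (2 : ℂ) = 1 := by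
    have := v_nat v3 (n := 2) (by norm_num)
    exact_mod_cast this
  have hl : V.valuation (1 + (-1 : ℂ)) < 1 := by
    rw [add_neg_cancel, map_zero]
    exact zero_lt_one
  constructor
  · intro b L om hL
    refine ⟨1, 0, -1, ⟨one_ne_zero, (leg4 hB hL.nrm).eq, ?_⟩, ?_, ?_, ?_⟩
    · rw [add_neg_cancel, map_zero]
      exact zero_le
    · rw [one_pow]
      exact one_mem _
    · exact zero_mem _
    · exact neg_mem (one_mem _)
  · intro f hf h2 h3 σ hσ hin
    refine iner h T V (WL (-1)) (u := 1) (e := 0) (by rw [one_pow]; exact one_mem _) (zero_mem _)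
      (fun L hL => ?_) hf h2 (v_nat v3 h3) σ hσ hin
    obtain ⟨ξ, g, -⟩ := Pool.Agent.NSR.rgrl V L 1 0 (-1) v2 hl (leg4 hB hL)
    exact ⟨_, ξ, g⟩

/-- `D = -3`: the model -/
lemma leg3 (h : CaseE A B) (hB : B = 1) {L : PeriodPair} (hL : NrmE A B L) {u : ℂ}
    (hu : u ^ 2 = 1 + wC A B) (hu0 : u ≠ 0) : Leg L u (-1) (1 - wC A B) := by
  refine ⟨hu0, fun z hz => ?_⟩
  have hw := w_sq h
  rw [hB] at hw
  push_cast at hw
  have h1 := L.derivWeierstrassP_sq z hz
  have hB0 : B ≠ 0 := by omega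
  rw [hL.g2, hL.g3] at h1
  unfold g2E g3E at h1
  rw [if_neg hB0, if_neg hB0] at h1
  rw [hB] at hu ⊢
  have e1 : (L.derivWeierstrassP z / (2 * u ^ 3)) ^ 2 =
      (L.derivWeierstrassP z ^ 2 / 4) / (u ^ 2) ^ 3 := by
    field_simp
    norm_num
  have e2 : (L.weierstrassP z - -1) / u ^ 2 * ((L.weierstrassP z - -1) / u ^ 2 - 1) *
      ((L.weierstrassP z - -1) / u ^ 2 - (1 - wC A 1)) =
      ((L.weierstrassP z + 1) * (L.weierstrassP z + 1 - u ^ 2) *
        (L.weierstrassP z + 1 - (1 - wC A 1) * u ^ 2)) / (u ^ 2) ^ 3 := by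
    field_simp
    ring
  rw [e1, e2, hu, h1]
  congr 1
  linear_combination -(L.weierstrassP z + 1) * (L.weierstrassP z - wC A 1 - 1) * hw

/-- (RFIN) for `D = -3` -/
theorem rfin3 (A B : ℤ) (P : Ideal (OO A B)) (V : ValuationSubring ℂ) (h : CaseE A B)
    (hB : B = 1) (hP : IsPN 3 P) (hV : OverI V P) (T : TorXE A B) :
    (∀ (b : Ideal (OO A B)) (L : PeriodPair) (om : ℂ), IsNE b L om →
      ∃ u e lam : ℂ, GoodR V L u e lam ∧ u ^ 2 ∈ RFE (idl (A := A) (B := B) 2) ∧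
        e ∈ RFE (idl (A := A) (B := B) 2) ∧ lam ∈ RFE (idl (A := A) (B := B) 2)) ∧
    ∀ f : ℕ, f ≠ 0 → 2 ∣ f → ¬ 3 ∣ f → ∀ σ : ℂ ≃+* ℂ, FixK A B σ →
      (∀ y ∈ RFE (idl (A := A) (B := B) f), y ∈ V → σ y - y ∈ V.nonunits) →
      ∀ y ∈ RFE (idl (A := A) (B := B) f), σ y = y := by
  have hC := h.toCQ
  have v3 : V.valuation (3 : ℂ) < 1 := by
    have h1 := (hV ((3 : ℕ) : OO A B)).2 hP.mem
    rw [Pool.Agent.MUX.emb_natCast hC, ValuationSubring.mem_nonunits_iff] at h1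
    exact_mod_cast h1
  have v2 : V.valuation (2 : ℂ) = 1 := by
    have := v_nat v3 (n := 2) (by norm_num)
    exact_mod_cast this
  have hemb := (Pool.Agent.MUXV.q_VQI A B hC.toF V).1
  have hw := w_sq h
  have v1w : V.valuation (1 - wC A B) ≤ 1 := by
    have h1 := hemb (1 - (⟨0, 1⟩ : OO A B))
    rwa [Pool.Agent.MUX.emb_sub hC, Pool.Agent.MUX.emb_one hC, Pool.Agent.MUX.emb_w] at h1
  have hl2 : V.valuation (1 + (1 - wC A B)) ^ 2 ≤ V.valuation (3 : ℂ) := by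
    have e1 : (1 + (1 - wC A B)) ^ 2 = 3 * (1 - wC A B) := by
      rw [hB] at hw ⊢
      push_cast at hw
      linear_combination hw
    rw [← map_pow, e1, map_mul]
    exact mul_le_of_le_one_right' v1w
  have hl : V.valuation (1 + (1 - wC A B)) < 1 := by
    have h1 : V.valuation (1 + (1 - wC A B)) ^ 2 < 1 := lt_of_le_of_lt hl2 v3
    by_contra hcon
    rw [not_lt] at hcon
    exact absurd h1 (not_lt.2 (one_le_pow₀ hcon))
  have hwk : wC A B ∈ kk A B := wC_mem A B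
  obtain ⟨u, hu⟩ := IsAlgClosed.exists_pow_nat_eq (1 + wC A B) (n := 2) (by norm_num)
  have hu0 : u ≠ 0 := by
    rintro rfl
    rw [zero_pow (by norm_num)] at hu
    have h1 : wC A B = -1 := by linear_combination -hu
    rw [hB] at hw h1
    push_cast at hw
    rw [h1] at hw
    norm_num at hw
  have huk : u ^ 2 ∈ kk A B := by
    rw [hu]
    exact add_mem (one_mem _) hwk
  have hk : ∀ x ∈ kk A B, x ∈ RFE (idl (A := A) (B := B) 2) := fun x hx =>
    (RFE (idl (A := A) (B := B) 2)).algebraMap_mem ⟨x, hx⟩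
  constructor
  · intro b L om hL
    exact ⟨u, -1, 1 - wC A B, ⟨hu0, (leg3 h hB hL.nrm hu hu0).eq, hl2⟩, hk _ huk,
      neg_mem (one_mem _), hk _ (sub_mem (one_mem _) hwk)⟩
  · intro f hf h2 h3 σ hσ hin
    refine iner h T V (WL (1 - wC A B)) huk (neg_mem (one_mem _))
      (fun L hL => ?_) hf h2 (v_nat v3 h3) σ hσ hin
    obtain ⟨ξ, g, -⟩ := Pool.Agent.NSR.rgrl V L u (-1) (1 - wC A B) v2 hl (leg3 h hB hL hu hu0)
    exact ⟨_, ξ, g⟩

end

end Pool.Agent.MER
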