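import Pool.Agent.ME.DefsE2

/-!
# ME, block T (helper4): the type for `D = -4`, `p = 3`

The twin of `Sn_TYF` (`NS/StTN.lean`) in the frame of `DefsE.lean`; for `D = -3` the statement is `Sq_TYF_E` of `DefsE2.lean`.
-/

set_option autoImplicit false

namespace Pool.Agent.NS

open _root_.MU3 Pool.Agent.MU3A Pool.Agent.MU3B Pool.Agent.RI Pool.Agent.MUX Pool.Agent.ME OnePoint

noncomputable section

/-- (TYF) `D = -4`: the type (`typ`, `unr`, `vpi`). -/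
def Sn_TYF_E : Prop :=
  ∀ (A B : ℤ) (V : ValuationSubring ℂ) (f : ℕ), SetE4 A B V f → TorXE A B →
    ∀ (ι : Type) [Fintype ι] (R : RepsE A B (3 * f) ι) (u el lam : ℂ),
    GoodN V (R.L R.i0) u el lam → ∀ w : OO A B → ℂ, IsTei V w →
    ∀ e : OO A B → ℂ, IsEIE (idl (A := A) (B := B) (3 * f)) e → ∀ r : ℕ, ¬ 3 ∣ r →
    (∀ x, e x ≠ 0 → e x ^ r = 1) → ∀ i : ℕ,
    (∀ x, x - 1 ∈ idl (A := A) (B := B) f → x ∉ idl (A := A) (B := B) 3 → e x = w x ^ i) →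
    ∀ kk : ι → ℂ, (∀ i, kk i ^ r = 1) →
    ∃ (pi : ℂ) (KI : Subfield ℂ),
      (∀ x y : OnePoint ℚ, ∃ w' ∈ KI, PhiKE R e kk x y / (u * R.om R.i0) = pi * w') ∧
      (∀ w' ∈ KI, V.valuation w' < 1 → V.valuation w' ≤ V.valuation (3 : ℂ)) ∧
      V.valuation pi ^ 8 * V.valuation (3 : ℂ) ^ i = 1

end

end Pool.Agent.NS
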