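import Pool.Agent.ME.DefsE
import Pool.Agent.MUX.E_RNG

/-!
# ME, block E: the facts of `MUX/StXE.lean` on the ray class fields, for the exceptional fields (helper86)

Twin of the first part of `Pool/Agent/MUX/StXE.lean` (`NL`, `ActE`, `GalE`, TRA, TRB, FAC, GTH, PT, GAL) for the normalisation `IsNE` of `DefsE.lean`. The levels are even: `GalEE.ker` is
only stated for `m' ≤ (2)`, `GalEE.sur` for `m ≤ (2)` and `α ≡ 1` modulo `2` (all points of order 2 are rational). `RingE` is the old one.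
-/

set_option autoImplicit false

open WeierstrassCurve Polynomial NumberField IsDedekindDomain

namespace Pool.Agent.MEE

open _root_.MU3 Pool.Agent.MU3A Pool.Agent.MU3B Pool.Agent.MUX Pool.Agent.MUXU Pool.Agent.RI
open Pool.Agent.ME hiding ActE
open Pool.Agent.MUXE (RingE)

noncomputable section

/-- `L` is a normalised lattice with complex multiplication by `O` -/
def NLE (A B : ℤ) (L : PeriodPair) : Prop := ∃ (b : Ideal (OO A B)) (om : ℂ), IsNE b L om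

/-- the embedding `σ` of `F ⊇ RFE m` acts on `RFE m` as the principal ideal `(α)` -/
def ActEE {A B : ℤ} {F : IntermediateField (kk A B) ℂ} (σ : F →ₐ[kk A B] ℂ)
    (m : Ideal (OO A B)) (α : OO A B) : Prop :=
  IsCoprime (sp α) m ∧ ∀ L, NLE A B L → (∀ h : kapE L ∈ F, σ ⟨kapE L, h⟩ = kapE L) ∧
    ∀ z, Tor m L z → z ∉ L.lattice → emb α * z ∉ L.lattice ∧
      ∀ hx : xnE L z ∈ F, σ ⟨xnE L z, hx⟩ = xnE L (emb α * z)

/-- The facts on the fields `RFE m`. -/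
structure GalEE (A B : ℤ) : Prop where
  fin : ∀ m : Ideal (OO A B), m ≠ ⊥ → FiniteDimensional (kk A B) (RFE m)
  gal : ∀ m : Ideal (OO A B), m ≠ ⊥ → IsGalois (kk A B) (RFE m)
  ker : ∀ (m m' : Ideal (OO A B)), m ≠ ⊥ → m ≤ m' → m' ≤ idl (A := A) (B := B) 2 →
    ∀ σ : RFE m →ₐ[kk A B] ℂ,
    (∀ (y : ℂ) (hy : y ∈ RFE m), y ∈ RFE m' → σ ⟨y, hy⟩ = y) →
    ∃ α : OO A B, α - 1 ∈ m' ∧ ActEE σ m α
  sur : ∀ (m : Ideal (OO A B)), m ≠ ⊥ → m ≤ idl (A := A) (B := B) 2 →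
    ∀ α : OO A B, IsCoprime (sp α) m → α - 1 ∈ idl (A := A) (B := B) 2 →
    ∃ σ : RFE m ≃ₐ[kk A B] RFE m, ActEE (em σ) m α

/-- (GAL) from the main theorem of complex multiplication. -/
def Sme_GAL : Prop := ∀ A B : ℤ, CaseE A B → RingE A B → TorXE A B → GalEE A B

/-- (TRA) torsion points: formal facts. -/
def Sme_TRA : Prop :=
  ∀ (A B : ℤ), RingE A B → ∀ L, NLE A B L →
    (∀ (x : OO A B) (z : ℂ), z ∈ L.lattice → emb x * z ∈ L.lattice) ∧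
    (∀ (m : Ideal (OO A B)) (z w : ℂ), Tor m L z → Tor m L w → Tor m L (z + w)) ∧
    (∀ (m : Ideal (OO A B)) (x : OO A B) (z : ℂ), Tor m L z → Tor m L (emb x * z)) ∧
    (∀ (m m' : Ideal (OO A B)) (z : ℂ), IsCoprime m m' → Tor m L z → Tor m' L z →
      z ∈ L.lattice) ∧
    (∀ (x : OO A B) (z : ℂ), Tor (sp x) L z ↔ emb x * z ∈ L.lattice) ∧
    (∀ (m m' : Ideal (OO A B)) (x : OO A B) (z : ℂ), x ∈ m → Tor (m * m') L z →
      Tor m' L (emb x * z)) ∧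
    (∀ (m m' : Ideal (OO A B)) (z : ℂ), (∀ x ∈ m, Tor m' L (emb x * z)) → Tor (m * m') L z) ∧
    (∀ (m : Ideal (OO A B)) (z w : ℂ), z - w ∈ L.lattice → (Tor m L z ↔ Tor m L w)) ∧
    ∀ (z w : ℂ), z - w ∈ L.lattice → (z ∈ L.lattice ↔ w ∈ L.lattice) ∧
      (z ∉ L.lattice → xnE L z = xnE L w ∧ yy L z = yy L w ∧ xnE L (-z) = xnE L z)

/-- (TRB) existence of torsion points, and points killed by a maximal ideal. -/
def Sme_TRB : Prop :=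
  ∀ (A B : ℤ), RingE A B → ∀ L, NLE A B L →
    (∀ (m m' : Ideal (OO A B)), m' ≠ ⊥ → m' < m → ∃ z, Tor m' L z ∧ ¬ Tor m L z) ∧
    ∀ Q : Ideal (OO A B), Q ≠ ⊥ → Q.IsMaximal → ∀ z w, Tor Q L z → Tor Q L w → z ∉ L.lattice →
      ∃ x : OO A B, w - emb x * z ∈ L.lattice

/-- (FAC) formal properties of the fields. -/
def Sme_FAC : Prop :=
  ∀ (A B : ℤ), RingE A B →
    (∀ m m' : Ideal (OO A B), m ≤ m' → RFE m' ≤ RFE m) ∧
    (∀ (m : Ideal (OO A B)) (L), NLE A B L → kapE L ∈ RFE m ∧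
      ∀ z, Tor m L z → z ∉ L.lattice → xnE L z ∈ RFE m) ∧
    (∀ (m : Ideal (OO A B)) (σ τ : RFE m →ₐ[kk A B] ℂ) (α : OO A B), ActEE σ m α →
      ActEE τ m α → σ = τ) ∧
    (∀ (m m' : Ideal (OO A B)) (_ : m ≤ m') (σ : RFE m →ₐ[kk A B] ℂ) (α : OO A B),
      ActEE σ m α → α - 1 ∈ m' → ∀ (y : ℂ) (hy : y ∈ RFE m), y ∈ RFE m' → σ ⟨y, hy⟩ = y) ∧
    ∀ (m : Ideal (OO A B)) (F : IntermediateField (kk A B) ℂ) (σ : F →ₐ[kk A B] ℂ)
      (α β : OO A B), (α - β ∈ m ∨ α + β ∈ m) → ActEE σ m α → ActEE σ m β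

/-- (GTH) the Galois action on `Θ_a(z)`. -/
def Sme_GTH : Prop :=
  ∀ (A B : ℤ), RingE A B → ∀ L, NLE A B L → ∀ (a : ℕ) (H : Finset ℂ), IsHalf L (a : ℂ) H →
    ∀ m : Ideal (OO A B),
      m ≤ sp (a : OO A B) → ∀ (σ : RFE m ≃ₐ[kk A B] RFE m) (c : OO A B), ActEE (em σ) m c →
        c - 1 ∈ sp (a : OO A B) → ∀ z, Tor m L z → z ∉ L.lattice →
        ∃ hz : ThetaH L H z ∈ RFE m, (σ ⟨ThetaH L H z, hz⟩ : ℂ) = ThetaH L H (emb c * z)

/-- (PT) the points `ptE R m i x` and the factors `μ_i = om_i N(b_i)/om_0`. -/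
def Sme_PT : Prop :=
  ∀ (A B : ℤ), RingE A B → ∀ (n : ℕ) (ι : Type) (R : RepsE A B n ι), n ≠ 0 → ∀ i : ι,
    muXE R i ≠ 0 ∧
    (∀ u ∈ (R.L R.i0).lattice, muXE R i * u ∈ (R.L i).lattice) ∧
    (∀ (r : ℕ), r ≠ 0 → r.primeFactors ⊆ n.primeFactors → ∀ u, (r : ℂ) * u ∈ (R.L R.i0).lattice →
      muXE R i * u ∈ (R.L i).lattice → u ∈ (R.L R.i0).lattice) ∧
    ∀ (m : ℕ), m ≠ 0 → m.primeFactors ⊆ n.primeFactors → ∀ x : OO A B,
      ptE R m i x = muXE R i * (emb x * (R.om R.i0 / m)) ∧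
      (m : ℂ) * ptE R m i x ∈ (R.L i).lattice ∧
      (IsCoprime x (m : OO A B) → ∀ c : ℕ, (c : ℂ) * ptE R m i x ∈ (R.L i).lattice → m ∣ c) ∧
      ∀ x' : OO A B, emb x' * (R.om R.i0 / m) ∈ (R.L R.i0).lattice ↔ (m : OO A B) ∣ x'

end

end Pool.Agent.MEE
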