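import Pool.Agent.MUX.ZDefsW

/-!
# The field generated by the values of the Weber functions, for all imaginary quadratic fields (helper87)

`k = ℚ(√-d)`, `d` squarefree. For `d ≠ 1, 3` the Weber function of a lattice `L` with complex multiplication is
`(g₂ g₃/(g₂³ - 27 g₃²)) ℘_L(z)`; for `d = 1` (`g₃ = 0`) it is `(g₂²/(g₂³ - 27 g₃²)) ℘_L(z)²`, for `d = 3` (`g₂ = 0`) it is
`(g₃/(g₂³ - 27 g₃²)) ℘_L(z)³`. The field `weberAll d` is generated by the values of all three functions at the points of finite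
order; it is the maximal abelian extension of `k` (Weber, Fueter, Hasse).
-/

set_option autoImplicit false

namespace Pool.Agent.MUXZ

open Pool.Agent.MU3Z

/-- The subfield of `ℂ` generated by `√-d`, the numbers `j(L)/1728 = g₂³/(g₂³ - 27 g₃²)` and the values at the points
of finite order of the three Weber functions `(g₂ g₃/Δ) ℘(z)`, `(g₂²/Δ) ℘(z)²`, `(g₃/Δ) ℘(z)³`, `Δ = g₂³ - 27 g₃²`, for
all lattices `L` with complex multiplication by the ring of integers of `ℚ(√-d)`. -/
noncomputable def weberAll (d : ℕ) : IntermediateField ℚ ℂ :=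
  IntermediateField.adjoin ℚ ({rt d} ∪ {t : ℂ | ∃ L : PeriodPair, HasCM d L ∧
    (t = L.g₂ ^ 3 / dsc L ∨
      ∃ (n : ℕ) (z : ℂ), n ≠ 0 ∧ n * z ∈ L.lattice ∧ z ∉ L.lattice ∧
        (t = L.g₂ * L.g₃ / dsc L * L.weierstrassP z ∨
          t = L.g₂ ^ 2 / dsc L * L.weierstrassP z ^ 2 ∨
          t = L.g₃ / dsc L * L.weierstrassP z ^ 3))})

end Pool.Agent.MUXZ
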