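import Pool.Agent.ME.Z3_INPG
import Pool.Agent.ME.Weber
import Pool.Agent.ME.R_S3
import Pool.Agent.ME.E3All
import Pool.Agent.ME.N.ZL
import Pool.Agent.ME.N.I_SUB
import Pool.Agent.ME.X.Z_THN
import Pool.Agent.ME.X.I_IAF
import Pool.Agent.MUX.IAll
import Pool.Agent.ME.X.JGAll
import Pool.Agent.NS.ZR_VEX
import Pool.Agent.MUX.WAll

/-!
# ME: the final theorem for `D = -3`, `p = 3` (helper87). Model: `NS/ZRam3.lean`
-/

set_option autoImplicit false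

open NumberField IsDedekindDomain

namespace Pool.Agent.MEZ

open _root_.MU3 Pool.Agent.MU3 Pool.Agent.MU3A Pool.Agent.MU3B Pool.Agent.RI Pool.Agent.RID
  Pool.Agent.MUX Pool.Agent.ME Pool.Agent.MUXK Pool.Agent.MUXJ Pool.Agent.MUXW Pool.Agent.MUXZ
  Pool.Agent.NSI Pool.Agent.NSZ Pool.Agent.NS Pool.Agent.MU3Z Pool.Agent.NSRD Pool.Agent.NSIR

/-- existence of `P` and `V` -/
theorem vex3 (A B : ℤ) (h : CaseE3 A B) : ∃ (P : Ideal (OO A B)) (V : ValuationSubring ℂ),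
    IsPN 3 P ∧ OverI V P ∧ (3 : ℂ) ∈ V.nonunits := by
  haveI : Fact (Nat.Prime 3) := ⟨Nat.prime_three⟩
  have h3 : (3 : ℤ) ∣ B ^ 2 + 4 * A := by
    rw [h.hA, h.eB]
    norm_num
  let ψ := psiR A B h3
  have hsurj : Function.Surjective ψ := ZMod.ringHom_surjective ψ
  have hmax : (RingHom.ker ψ).IsMaximal := RingHom.ker_isMaximal_of_surjective ψ hsurj
  have hP : IsPN 3 (RingHom.ker ψ) := by
    refine ⟨hmax.isPrime, ?_, ?_⟩
    · rw [RingHom.mem_ker, map_natCast]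
      rfl
    · unfold MUX.nI
      rw [Nat.card_congr (RingHom.quotientKerEquivOfSurjective hsurj).toEquiv, Nat.card_zmod]
  obtain ⟨V, hV, hpV⟩ := vex_gen 3 A B h.toCQ _ hP.mem hmax
  exact ⟨_, V, hP, hV, by exact_mod_cast hpV⟩

/-- `RFE ⊤ = k` -/
theorem rfe_top {A B : ℤ} (h : CQ A B) {σ : ℂ ≃+* ℂ} (hσ : FixK A B σ) :
    ∀ y ∈ RFE (⊤ : Ideal (OO A B)), σ y = y := by
  have hfix := CXW.fixk hσ
  intro y hy
  induction hy using IntermediateField.adjoin_induction with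
  | mem x hx =>
    obtain ⟨b, L, om, hL, hx | ⟨z, hz, hz', hx⟩⟩ := hx
    · rw [hx]
      exact hL.nrm.fixk σ
    · exfalso
      apply hz'
      have h1 := hz 1 trivial
      rwa [MUX.emb_one h, one_mul] at h1
  | algebraMap x => exact hfix _ x.2
  | add x y _ _ hx hy => rw [map_add, hx, hy]
  | inv x _ hx => rw [map_inv₀, hx]
  | mul x y _ _ hx hy => rw [map_mul, hx, hy]

theorem unrE {A B : ℤ} (h : CQ A B) (V : ValuationSubring ℂ) : UnrH_E A B V :=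
  fun _ hσ _ => rfe_top h hσ

theorem s3_INW (h : Pool.Agent.NSZ.Zl_INW_E) : S3_INW := by
  intro A B f hL hE hf2 T ι _ R H θ hθ K₀ K Bn _ _ _ hX hKF hHK hk hk₀
  have h2 : 2 ∣ lvX 3 f 0 := by
    unfold lvX
    exact (hf2.mul_right _).mul_right _
  exact h 3 A B f hL hE h2 T ι R H θ hθ K₀ K Bn hX hKF hHK hk hk₀

theorem nSUB_E : Sn_SUB_E :=
  tn_SUB_E Pool.Agent.MUXI.i_LAY Pool.Agent.MUXI.ti_IAF_E

/-- the inputs of block J, from `Sp_INP_E` and `Sp_SUB_E` of block IR -/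
theorem inpg3 (hINP : Sp_INP_E) (hSUR : Sp_SUB_E) : S3_INPG :=
  t3_INPG Pool.Agent.MUXI.i_LAY Pool.Agent.MER.s3_rfin
    (Pool.Agent.ME3.efin3 Pool.Agent.MER.s3_rfin) hINP hSUR Pool.Agent.NSZ.tl_LVX
    (s3_INW (Pool.Agent.NSZ.l_INW_E nSUB_E)) nSUB_E (Pool.Agent.MUXZ.tz_THN_E y_THG_E) y_MEM
    y_CXW_E

/-- THE MAIN THEOREM, `D = -3`, `p = 3` -/
theorem z_main33 (hIN : S3_INPG) (A B : ℤ) (hC : CaseE3 A B)
    (F M K : IntermediateField ℚ ℂ) [FiniteDimensional ℚ M] (hF : kk A B ≤ F) (h : F ≤ M)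
    (a : ℕ) (hT : TorU_E A B F) (hGal : IsGalois F (IntermediateField.extendScalars h))
    (ha : Module.finrank F (IntermediateField.extendScalars h) = 3 ^ a) (hK : K ≤ M) :
    ∃ C : ℕ, ∀ (n : ℕ) (Q : IntermediateField ℚ ℂ), IsLayer 3 n Q →
      padicValNat 3 (classNo (K ⊔ Q)) ≤ C * (n + 1) ^ C := by
  have : Fact (Nat.Prime 3) := ⟨Nat.prime_three⟩
  have hCQ : MUX.CQ A B := hC.toCQ
  obtain ⟨P, V, hP, hV, h3V⟩ := vex3 A B hC
  have hTor := MEC.c_TORE A B hC.toCaseE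
  have hdom : IsDomain (OO A B) := (MUXE.te_RNG _ _ hCQ).ded.toIsDomain
  have hNL : NLex_E A B := by
    obtain ⟨L, om, hL⟩ := MEC.exists_isNE hC.toCaseE (⊤ : Ideal (OO A B)) bot_ne_top.symm
    exact ⟨⊤, L, om, hL⟩
  have hX : AboX 3 2 A B P V :=
    ⟨hCQ, Or.inr rfl, Or.inr rfl, fun h => by omega, hP.prime, hP.mem, fun h => by omega, hV,
      by exact_mod_cast h3V⟩
  exact j_FING_E 3 2 4 A B P V hX (by norm_num) (by norm_num)
    (fun _ => by norm_num) (unrE hCQ V) hTor hNL (hIN A B P V hC hP hV hTor) F M K hF h a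
    hT hGal ha hK

/-- every finite extension of `ℚ` inside `weberAll 3` -/
theorem final33 (hIN : S3_INPG)
    (K : IntermediateField ℚ ℂ) [FiniteDimensional ℚ K] (hK : K ≤ weberAll 3) :
    ∃ C : ℕ, ∀ (n : ℕ) (Q : IntermediateField ℚ ℂ), IsLayer 3 n Q →
      padicValNat 3 (classNo (K ⊔ Q)) ≤ C * (n + 1) ^ C := by
  have hE : CaseE (pA 3) (pB 3) := caseE_p (Or.inr rfl)
  have hC : CaseE3 (pA 3) (pB 3) := { hE with eB := by unfold pB; norm_num }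
  refine to_weberE (Or.inr rfl) (MEC.c_TORE _ _ hE) ?_ K hK
  intro F M K _ hF h a hT hGal ha hK
  exact z_main33 hIN _ _ hC F M K hF h a hT hGal ha hK

end Pool.Agent.MEZ
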