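import Pool.Agent.ME.Z3All
import Pool.Agent.ME.N.IRAll

/-!
# ME: `D = -3`, `p = 3`, from the character sums `Sq_HFIN_E` (helper87)
-/

set_option autoImplicit false

open NumberField IsDedekindDomain

namespace Pool.Agent.MEZ

open _root_.MU3 Pool.Agent.MU3 Pool.Agent.MU3A Pool.Agent.MU3B Pool.Agent.RI Pool.Agent.RID
  Pool.Agent.MUX Pool.Agent.MUXK Pool.Agent.MUXE Pool.Agent.MUXJ Pool.Agent.NSZ Pool.Agent.MUXZ
open Pool.Agent.ME hiding ActE

/-- the inputs of block J, `D = -3`, `p = 3` -/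
theorem inpg33 (hH : Pool.Agent.NSRD.Sq_HFIN_E) : S3_INPG :=
  inpg3 (Pool.Agent.NSIR.r_INP_E hH) Pool.Agent.NSIR.r_SUB_E

/-- THE MAIN THEOREM, `D = -3`, `p = 3` -/
theorem main33 (hH : Pool.Agent.NSRD.Sq_HFIN_E) (A B : ℤ) (hC : CaseE A B) (hB : B = 1)
    (F M K : IntermediateField ℚ ℂ) [FiniteDimensional ℚ M] (hF : kk A B ≤ F) (h : F ≤ M)
    (a : ℕ) (hT : TorU_E A B F) (hGal : IsGalois F (IntermediateField.extendScalars h))
    (ha : Module.finrank F (IntermediateField.extendScalars h) = 3 ^ a) (hK : K ≤ M) :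
    ∃ C : ℕ, ∀ (n : ℕ) (Q : IntermediateField ℚ ℂ), IsLayer 3 n Q →
      padicValNat 3 (classNo (K ⊔ Q)) ≤ C * (n + 1) ^ C := by
  have hC3 : CaseE3 A B := { hC with eB := hB }
  exact z_main33 (inpg33 hH) A B hC3 F M K hF h a hT hGal ha hK

end Pool.Agent.MEZ
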