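import Pool.Agent.ME.CEAll
import Pool.Agent.MUX.E_RNG

/-!
# ME (helper87): existence of `RepsE`, one element
-/

set_option autoImplicit false

namespace Pool.Agent.MEZ

open _root_.MU3 Pool.Agent.MU3A Pool.Agent.MU3B Pool.Agent.RI Pool.Agent.MUX Pool.Agent.ME

noncomputable section

/-- every nonzero ideal of `O` is principal -/
theorem principal {A B : ℤ} (h : CaseE A B) (c : Ideal (OO A B)) (hc : c ≠ ⊥) :
    ∃ y : OO A B, y ≠ 0 ∧ c = sp y := by
  have hC := h.toCQ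
  have hdom : IsDomain (OO A B) := by
    have := (MUXE.te_RNG A B hC).ded
    infer_instance
  obtain ⟨L, om, hL⟩ := MEC.exists_isNE h (⊤ : Ideal (OO A B)) bot_ne_top.symm
  obtain ⟨L', om', hL'⟩ := MEC.exists_isNE h c hc
  obtain ⟨h1, -, -⟩ := MEC.c_SGQ A B L L' hL.nrm hL'.nrm
  have h0 : om ∈ L.lattice := by
    refine (hL.mem _).2 ⟨1, trivial, ?_⟩
    rw [MUX.emb_one hC, mul_one]
  obtain ⟨y, hy, hom⟩ := (hL'.mem _).1 ((h1 _).1 h0)
  have hom0 := hL.om_ne
  have hom'0 := hL'.om_ne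
  have hy0 : y ≠ 0 := by
    rintro rfl
    apply hom0
    rw [hom, MUX.emb_zero hC, mul_zero]
  refine ⟨y, hy0, le_antisymm ?_ ?_⟩
  · intro x hx
    have h2 : om' * emb x ∈ L'.lattice := (hL'.mem _).2 ⟨x, hx, rfl⟩
    obtain ⟨z, -, hz⟩ := (hL.mem _).1 ((h1 _).2 h2)
    refine Ideal.mem_span_singleton'.2 ⟨z, MUX.emb_inj hC ?_⟩
    rw [MUX.emb_mul hC]
    apply mul_left_cancel₀ hom'0
    rw [hz, hom]
    ring
  · rw [Ideal.span_singleton_le_iff_mem]
    exact hy

/-- the representatives -/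
theorem exists_reps {A B : ℤ} (h : CaseE A B) (n : ℕ) : Nonempty (RepsE A B n Unit) := by
  have hC := h.toCQ
  have hdom : IsDomain (OO A B) := by
    have := (MUXE.te_RNG A B hC).ded
    infer_instance
  obtain ⟨L, om, hL⟩ := MEC.exists_isNE h (⊤ : Ideal (OO A B)) bot_ne_top.symm
  refine ⟨⟨fun _ => ⊤, fun _ => L, fun _ => om, (), fun _ => hL, fun _ => ?_, rfl, ?_, ?_⟩⟩
  · have h1 : nI (⊤ : Ideal (OO A B)) = 1 := by
      unfold nI
      exact Nat.card_unique
    rw [h1]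
    exact Nat.coprime_one_left n
  · intro c hc
    obtain ⟨y, hy, hcy⟩ := principal h c hc
    refine ⟨(), 1, y, one_ne_zero, hy, ?_⟩
    have h4 : sp (1 : OO A B) = ⊤ := Ideal.span_singleton_one
    rw [hcy, Ideal.mul_top, h4, Ideal.top_mul]
  · intro i j x y _ _ _
    rfl

end

end Pool.Agent.MEZ
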