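import Pool.Agent.ME.N.StIR
import Pool.Agent.ME.StE3
import Pool.Agent.ME.X.StZX
import Pool.Agent.ME.X.StJG
import Pool.Agent.ME.Z_Reps
import Pool.Agent.NS.ZL

/-!
# ME, `D = -3`, `p = 3` (helper87): the inputs of block J

Model: `Pool/Agent/NS/ZR_INPG.lean`.
-/

set_option autoImplicit false

open NumberField IsDedekindDomain

namespace Pool.Agent.MEZ

open _root_.MU3 Pool.Agent.MU3 Pool.Agent.MU3A Pool.Agent.MU3B Pool.Agent.RI Pool.Agent.RID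
  Pool.Agent.MUX Pool.Agent.ME Pool.Agent.MUXK Pool.Agent.MUXJ Pool.Agent.MUXW Pool.Agent.MUXZ
  Pool.Agent.NSI Pool.Agent.NSZ Pool.Agent.NSRD Pool.Agent.NSIR
open Pool.Agent.MU3V (Sub GD)

noncomputable section

lemma setL_3 {A B : ℤ} {P : Ideal (OO A B)} {V : ValuationSubring ℂ} {f : ℕ}
    (h : SetE3 A B P V f) : SetL 3 A B f :=
  ⟨h.case.toCQ, Or.inr rfl, h.f0, h.fp⟩

/-- the inputs from block W, `p = 3` (the statement `Zl_INW_E` for `p = 3`) -/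
def S3_INW : Prop :=
  ∀ (A B : ℤ) (f : ℕ)
    (_ : SetL 3 A B f) (_ : CaseE A B) (_ : 2 ∣ f) (_ : TorXE A B) (ι : Type) [Finite ι]
    (R : RepsE A B (3 * f) ι) (H : ι → Finset ℂ)
    (θ : ∀ n : ℕ, (RFE (idl (A := A) (B := B) (lvX 3 f n)) : IntermediateField (kk A B) ℂ))
    (_ : ThN_E 3 f R H θ)
    (K₀ K : IntermediateField ℚ ℂ) (Bn : ℕ → IntermediateField ℚ ℂ)
    [FiniteDimensional ℚ (kk A B)] [FiniteDimensional ℚ K] [∀ n, FiniteDimensional ℚ ↥(K ⊔ Bn n)]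
    (_ : SetX 3 (kk A B) K₀ K Bn) (_ : ∀ y ∈ K, y ∈ RFE (idl (A := A) (B := B) (lvX 3 f 0)))
    (_ : ∀ y ∈ RFE (⊤ : Ideal (OO A B)), y ∈ K)
    (hk : ∀ n, kk A B ≤ K ⊔ Bn n) (hk₀ : ∀ n, kk A B ≤ K₀ ⊔ Bn n),
    ∃ S : Finset ℕ, InpW 3 (kk A B) K₀ K Bn hk hk₀ S (fun n => cW (hk n) (θ n))
      (fun n => cW (hk₀ n) (θ n)) 0

/-- the inputs of block J for `D = -3` at `p = 3` -/
def S3_INPG : Prop :=
  ∀ (A B : ℤ) (P : Ideal (OO A B)) (V : ValuationSubring ℂ), CaseE3 A B → IsPN 3 P →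
    OverI V P → TorXE A B → InpG_E 3 4 A B V

/-- the field condition of `S3_EFIN` -/
theorem fixB {A B : ℤ} (h1 : Pool.Agent.MUXI.Si_LAY) (f n : ℕ) (K Bn : IntermediateField ℚ ℂ)
    (hK : ∀ y ∈ K, y ∈ RFE (idl (A := A) (B := B) (3 * f))) (hlay : IsLayer 3 n Bn) :
    ∀ σ : ℂ ≃+* ℂ, FixK A B σ → (∀ y ∈ RFE (idl (A := A) (B := B) (3 * f)), σ y = y) →
      (∀ z : ℂ, z ^ 3 ^ (n + 1) = 1 → σ z = z) → ∀ y ∈ K ⊔ Bn, σ y = y := by
  have hzt : Pool.Agent.MU3I.zt (3 ^ (n + 1)) ^ 3 ^ (n + 1) = 1 := by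
    unfold Pool.Agent.MU3I.zt
    exact (Complex.isPrimitiveRoot_exp _ (pow_ne_zero _ (by norm_num))).pow_eq_one
  have hq : q0 3 * 3 ^ n = 3 ^ (n + 1) := by
    have : q0 3 = 3 := by simp [q0]
    rw [this]
    ring
  have hBdef : Bn = IntermediateField.adjoin ℚ
      {Pool.Agent.MU3I.zt (3 ^ (n + 1)) + (Pool.Agent.MU3I.zt (3 ^ (n + 1)))⁻¹} := by
    have h2 := h1 3 n (Or.inr rfl) Bn hlay
    rwa [hq] at h2
  intro σ hfix hσ hσz y hy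
  let F : IntermediateField ℚ ℂ :=
    { carrier := {x | σ x = x}
      mul_mem' := fun {a b} ha hb => by
        show σ (a * b) = a * b
        rw [map_mul, ha, hb]
      add_mem' := fun {a b} ha hb => by
        show σ (a + b) = a + b
        rw [map_add, ha, hb]
      algebraMap_mem' := fun r => by
        show σ (algebraMap ℚ ℂ r) = algebraMap ℚ ℂ r
        exact map_ratCast σ r
      inv_mem' := fun a ha => by
        show σ a⁻¹ = a⁻¹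
        rw [map_inv₀, ha] }
  have hKF : K ≤ F := fun x hx => hσ x (hK x hx)
  have hBF : Bn ≤ F := by
    rw [hBdef, IntermediateField.adjoin_le_iff]
    intro x hx
    rw [Set.mem_singleton_iff] at hx
    rw [hx]
    have h3 : Pool.Agent.MU3I.zt (3 ^ (n + 1)) ∈ F := hσz _ hzt
    exact add_mem h3 (inv_mem h3)
  exact (sup_le hKF hBF) hy

/-- the input of block IR for the norm to any field `D ≤ RFE (lvR P f n)` -/
theorem eInpR3 (hME : Sy_MEM) (hCX : Sy_CXW_E) (hEF : Pool.Agent.ME3.S3_EFIN)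
    {A B : ℤ} {P : Ideal (OO A B)} {V : ValuationSubring ℂ} {f : ℕ}
    (hS : SetE3 A B P V f) (hf3 : 3 ≤ f) (hT : TorXE A B) (hLV : Zl_LVX)
    {ι : Type} [Fintype ι] (R : RepsE A B (3 * f) ι) {u e lam : ℂ}
    (hG : GoodR V (R.L R.i0) u e lam) {H : ι → Finset ℂ}
    {θ : ∀ n : ℕ, (RFE (idl (A := A) (B := B) (lvX 3 f n)) : IntermediateField (kk A B) ℂ)}
    (hth : ThN_E 3 f R H θ) (n : ℕ) (hn : 1 ≤ n) (D : IntermediateField ℚ ℂ) (h : kk A B ≤ D)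
    (hD : ∀ y ∈ D, y ∈ RFE (idl (A := A) (B := B) (lvX 3 f n)))
    (hDR : ∀ y ∈ D, y ∈ RFE (lvR P f n))
    (hDc : ∀ σ : ℂ ≃+* ℂ, FixK A B σ → (∀ y ∈ RFE (idl (A := A) (B := B) (3 * f)), σ y = y) →
      (∀ z : ℂ, z ^ 3 ^ (n + 1) = 1 → σ z = z) → ∀ y ∈ D, σ y = y) :
    EInpR_E P V f R u n h (fun τ => cWt h (θ n) τ) := by
  obtain ⟨hl0, _, _, hl2, hlu, hodd, hac, _, _, hcop⟩ := hLV 3 A B f (setL_3 hS) n
  have hb : (idl (A := A) (B := B) (lvX 3 f n)) ≠ ⊥ := by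
    intro hh
    apply hl0
    have := (Ideal.span_singleton_eq_bot.mp hh)
    exact_mod_cast (by
      have h1 := congrArg (fun x : OO A B => x.re) this
      simpa using h1 : ((lvX 3 f n : ℕ) : ℤ) = 0)
  have := hT.fin _ hb
  have := hT.gal _ hb
  obtain ⟨h1, h2, h3, h4, h5⟩ := hME A B _ (hT.fin _ hb) (hT.gal _ hb) (hT.comm _ hb) D h hD (θ n)
    (hth.ne n)
  let := algC h
  have hconj : ∀ τ : D ≃ₐ[kk A B] D, ∃ y : D, (y : ℂ) = cWt h (θ n) 1 ∧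
      ((τ y : D) : ℂ) = cWt h (θ n) τ := by
    intro τ
    refine ⟨⟨cWt h (θ n) 1, (h2 1).1⟩, rfl, ?_⟩
    have hm : cW h (θ n) ∈ D := by rw [h1]; exact (h2 1).1
    have := h3 τ hm
    have he : (⟨cWt h (θ n) 1, (h2 1).1⟩ : D) = ⟨cW h (θ n), hm⟩ := Subtype.ext h1.symm
    rw [he]; exact this
  have h2m : 2 ∣ lvX 3 f n := by
    unfold lvX
    exact (hS.f2.mul_right _).mul_right _
  have hsq : ∀ τ : D ≃ₐ[kk A B] D, cXE R (lvX 3 f n) H h τ = cWt h (θ n) τ ^ 2 :=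
    hCX A B hS.case hT (3 * f) ι R (lvX 3 f n) hl0 h2m
      (fun i => hcop _ (R.cop i)) hl2 (aX 3 f) H (by unfold aX; omega) hac hth.half (θ n)
      (hth.ptE n) D h hD
  refine ⟨(h2 1).2, hconj, ?_⟩
  intro w hw g hg τ'
  refine hEF A B P V f hS hf3 hT ι R u e lam hG w hw n hn H hth.half D h hDR hDc ?_ g ?_ τ'
  · intro τ
    obtain ⟨y, hy1, hy2⟩ := hconj τ
    refine ⟨y ^ 2, ?_, ?_⟩
    · rw [hsq 1, ← hy1]
      rfl
    · rw [hsq τ, ← hy2, map_pow]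
      rfl
  · obtain ⟨y, hy, hyp⟩ := hg
    refine ⟨y ^ 2, D.pow_mem hy 2, ?_⟩
    have hfin : Finite (D ≃ₐ[kk A B] D) := by
      choose s hs using h4
      refine Finite.of_injective s ?_
      intro τ τ' e
      apply AlgEquiv.ext
      intro z
      refine Subtype.ext ((hs τ z (hD z z.2)).symm.trans ?_)
      rw [e]
      exact hs τ' z (hD z z.2)
    have e1 : (y ^ 2) ^ 3 = (y ^ 3) ^ 2 := by ring
    refine e1.trans ?_
    rw [hyp, finprod_pow (Set.toFinite _)]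
    refine finprod_congr fun τ => ?_
    rw [hsq τ, ← zpow_natCast, ← zpow_natCast, ← zpow_mul, ← zpow_mul, mul_comm]

/-- the inputs of block J -/
theorem t3_INPG (hLAY : Pool.Agent.MUXI.Si_LAY) (hRF : Pool.Agent.ME3.S3_RFIN)
    (hEF : Pool.Agent.ME3.S3_EFIN) (hINP : Sp_INP_E) (hSUR : Sp_SUB_E) (hLV : Zl_LVX)
    (hIW : S3_INW) (hSUB : Sn_SUB_E) (hTH : Sz_THN_E) (hME : Sy_MEM) (hCX : Sy_CXW_E) :
    S3_INPG := by
  intro A B P V hC hP hV hT f hf0 hfp hfd K₀ K Bn _ _ _ hX hK hH hk hk₀ hkK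
  have hCQ : CQ A B := hC.toCQ
  have hf2 : 2 ∣ f := (by norm_num : 2 ∣ 4).trans hfd
  have hf3 : 3 ≤ f := (by norm_num : 3 ≤ 4).trans (Nat.le_of_dvd (Nat.pos_of_ne_zero hf0) hfd)
  have hS : SetE3 A B P V f := by
    refine ⟨hC.toCaseE, hC.eB, hP, hV, hf0, hfp, ?_⟩
    have hD : absD A B = 3 := by
      unfold absD
      rw [hC.hA, hC.eB]
      norm_num
    rw [hD]
    obtain ⟨c, rfl⟩ := hf2
    refine ⟨c, ?_⟩
    push_cast
    ring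
  have hL : SetL 3 A B f := setL_3 hS
  have : Fact (Nat.Prime 3) := ⟨Nat.prime_three⟩
  obtain ⟨R⟩ := exists_reps hC.toCaseE (3 * f)
  have hodd := (hLV 3 A B f hL 0).2.2.2.2.2.1
  obtain ⟨H, hHalf, hθ⟩ := hTH A B hCQ hT (3 * f) Unit R (aX 3 f) hodd
  have hθ' : ∀ n : ℕ, ∃ θ : (RFE (idl (A := A) (B := B) (lvX 3 f n)) :
      IntermediateField (kk A B) ℂ),
      (θ : ℂ) = ThetaH (R.L R.i0) (H R.i0) (ptE R (lvX 3 f n) R.i0 1) ∧
      (θ : ℂ) = ThetaH (R.L R.i0) (H R.i0) (R.om R.i0 / emb ((lvX 3 f n : ℕ) : OO A B)) ∧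
      θ ≠ 0 := fun n =>
    hθ (lvX 3 f n) (hLV 3 A B f hL n).1 (hLV 3 A B f hL n).2.2.2.2.1
      (hLV 3 A B f hL n).2.2.2.2.2.2.1
  choose θ hθ1 hθ2 hθ3 using hθ'
  have hth : ThN_E 3 f R H θ := ⟨hHalf, hθ1, hθ2, hθ3⟩
  obtain ⟨S, hW⟩ := hIW A B f hL hC.toCaseE hf2 hT Unit R H θ hth K₀ K Bn hX hK hH hk hk₀
  obtain ⟨u, e, lam, hG, -, -, -⟩ :=
    (hRF A B P V hC.toCaseE hC.eB hP hV hT).1 _ _ _ (R.nl R.i0)
  have hNL : ∃ (b : Ideal (OO A B)) (L : PeriodPair) (om : ℂ), IsNE b L om :=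
    ⟨_, _, _, R.nl R.i0⟩
  have hK₀ : ∀ y ∈ K₀, y ∈ RFE (idl (A := A) (B := B) (lvX 3 f 0)) := fun y hy => hK y (hX.le hy)
  have hlv0 : lvX 3 f 0 = 3 * f := by
    unfold lvX
    simp [q0, mul_comm]
  have hK₀' : ∀ y ∈ K₀, y ∈ RFE (idl (A := A) (B := B) (3 * f)) := by
    rw [← hlv0]; exact hK₀
  have hDn : ∀ n, ∀ y ∈ K₀ ⊔ Bn n, y ∈ RFE (idl (A := A) (B := B) (lvX 3 f n)) := fun n =>
    hSUB 3 A B f hL hT hNL K₀ hK₀ n (Bn n) (hX.b0.lay n)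
  refine ⟨S, fun n => cW (hk n) (θ n), fun n => cW (hk₀ n) (θ n), 0, ?_⟩
  refine hINP A B P V f hS hfd hT Unit R u e lam hG K₀ K Bn hX hK₀ hk hk₀ hkK S _ _ 0 hW
    (fun n τ => cWt (hk₀ n) (θ n) τ) (fun n hn => ?_) (fun n hn => ?_)
  · exact eInpR3 hME hCX hEF hS hf3 hT hLV R hG hth n hn (K₀ ⊔ Bn n) (hk₀ n) (hDn n)
      (hSUR A B P V f hS hT hNL K₀ hK₀' n (Bn n) hn (hX.b0.lay n))
      (fixB hLAY f n K₀ (Bn n) hK₀' (hX.b0.lay n))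
  · have hb : (idl (A := A) (B := B) (lvX 3 f n)) ≠ ⊥ := by
      intro hh
      apply (hLV 3 A B f hL n).1
      have := (Ideal.span_singleton_eq_bot.mp hh)
      exact_mod_cast (by
        have h1 := congrArg (fun x : OO A B => x.re) this
        simpa using h1 : ((lvX 3 f n : ℕ) : ℤ) = 0)
    exact (hME A B _ (hT.fin _ hb) (hT.gal _ hb) (hT.comm _ hb) _ (hk₀ n) (hDn n) (θ n)
      (hth.ne n)).1

end

end Pool.Agent.MEZ
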