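import Pool.Agent.ME.ZIn4
import Pool.Agent.ME.HAll4
import Pool.Agent.ME.N.IAll
import Pool.Agent.ME.Weber
import Pool.Agent.ME2.ZFinE

/-!
# ME: `D = -4`, `p = 3`, without hypotheses (helper87)

`inpg43 : E34_INPG` (the inputs of block J), `main43` (the theorem for extensions of `3`-power degree of fields which are contained in a ray class
field), `final43` (subfields of `weberAll 1`).
-/

set_option autoImplicit false

open NumberField IsDedekindDomain

namespace Pool.Agent.MEZ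

open _root_.MU3 Pool.Agent.MU3 Pool.Agent.MU3A Pool.Agent.MU3B Pool.Agent.RI Pool.Agent.RID
  Pool.Agent.MUX Pool.Agent.MUXK Pool.Agent.MUXE Pool.Agent.MUXJ Pool.Agent.NSZ Pool.Agent.MUXZ
open Pool.Agent.ME hiding ActE

/-- the inputs of block J, `D = -4`, `p = 3` -/
theorem inpg43 : Pool.Agent.ME2.E34_INPG := by
  intro A B V hC hB hV hT
  have hC4 : CaseE4 A B := { hC with eB := hB }
  exact ⟨8, by norm_num, by norm_num, by norm_num,
    inpg4 (Pool.Agent.NSI.n_INP_E Pool.Agent.MEH.h_HFIN4) A B V hC4 hV hT⟩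

/-- THE MAIN THEOREM, `D = -4`, `p = 3` -/
theorem main43 (A B : ℤ) (hC : CaseE A B) (hB : B = 0)
    (F M K : IntermediateField ℚ ℂ) [FiniteDimensional ℚ M] (hF : kk A B ≤ F) (h : F ≤ M)
    (a : ℕ) (hT : TorU_E A B F) (hGal : IsGalois F (IntermediateField.extendScalars h))
    (ha : Module.finrank F (IntermediateField.extendScalars h) = 3 ^ a) (hK : K ≤ M) :
    ∃ C : ℕ, ∀ (n : ℕ) (Q : IntermediateField ℚ ℂ), IsLayer 3 n Q →
      padicValNat 3 (classNo (K ⊔ Q)) ≤ C * (n + 1) ^ C :=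
  Pool.Agent.ME2.z_main43 inpg43 A B hC hB F M K hF h a hT hGal ha hK

/-- every finite extension of `ℚ` inside `weberAll 1`, `p = 3` -/
theorem final43 (K : IntermediateField ℚ ℂ) [FiniteDimensional ℚ K] (hK : K ≤ weberAll 1) :
    ∃ C : ℕ, ∀ (n : ℕ) (Q : IntermediateField ℚ ℂ), IsLayer 3 n Q →
      padicValNat 3 (classNo (K ⊔ Q)) ≤ C * (n + 1) ^ C := by
  have hE : CaseE (pA 1) (pB 1) := caseE_p (Or.inl rfl)
  have hB : pB 1 = 0 := by unfold pB; norm_num
  refine to_weberE (Or.inl rfl) (MEC.c_TORE _ _ hE) ?_ K hK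
  intro F M K _ hF h a hT hGal ha hK
  exact main43 _ _ hE hB F M K hF h a hT hGal ha hK

end Pool.Agent.MEZ
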