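import Pool.Agent.ME.ZSqE
import Pool.Agent.ME.R_ALL
import Pool.Agent.ME.E4All
import Pool.Agent.ME.N.ZL
import Pool.Agent.ME.N.I_SUB
import Pool.Agent.ME.X.Z_THN
import Pool.Agent.ME.X.I_IAF
import Pool.Agent.MUX.IAll

/-!
# ME: the inputs of block J for `D = -4`, `p = 3`, from `Sn_INP_E` (helper87)
-/

set_option autoImplicit false

namespace Pool.Agent.MEZ

open Pool.Agent.MUX Pool.Agent.ME Pool.Agent.MUXK Pool.Agent.MUXJ Pool.Agent.MUXW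
  Pool.Agent.MUXZ Pool.Agent.NSI Pool.Agent.NSZ Pool.Agent.NS

/-- `K B_n ≤ RFE (lvX p f n)` -/
theorem sub_E : Sn_SUB_E :=
  tn_SUB_E Pool.Agent.MUXI.i_LAY Pool.Agent.MUXI.ti_IAF_E

/-- block E, `D = -4` -/
theorem efin_E4 : Sn_EFIN_E := Pool.Agent.ME4.efin4 Pool.Agent.MER.rfin4

/-- the inputs of block J, `D = -4`, `p = 3` -/
theorem inpg4 (hINP : Sn_INP_E) :
    ∀ (A B : ℤ) (V : ValuationSubring ℂ), CaseE4 A B →
      OverI V (idl (A := A) (B := B) 3) → TorXE A B → InpG_E 3 8 A B V :=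
  ni_INPG_E Pool.Agent.MER.rfinE4 efin_E4 hINP tl_LVX (l_INW_E sub_E) sub_E
    (tz_THN_E y_THG_E) y_MEM y_CXW_E

end Pool.Agent.MEZ
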