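import Pool.Agent.ME.WLib
import Pool.Agent.ME.X.StJX

/-!
# ME, final assemblies: the field `RFE ⊤` is `k`, `UnrH_E`, `NLex_E` (helper21)
-/

set_option autoImplicit false

namespace Pool.Agent.MEZ

open _root_.MU3 Pool.Agent.MU3A Pool.Agent.MU3B Pool.Agent.RI Pool.Agent.MUX Pool.Agent.MUXU
open Pool.Agent.ME Pool.Agent.MUXJ

noncomputable section

variable {A B : ℤ}

/-- `kapE` is a rational number -/
lemma kapE_rat {L : PeriodPair} (h : NrmE A B L) : ∃ q : ℚ, kapE L = (q : ℂ) := by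
  unfold kapE
  rw [h.g2, h.g3]
  unfold g2E g3E
  split_ifs
  · exact ⟨4, by push_cast; ring⟩
  · exact ⟨-4, by push_cast; ring⟩

/-- `RFE ⊤ = k` -/
theorem rfe_topE (h : CaseE A B) :
    (RFE (⊤ : Ideal (OO A B)) : IntermediateField (kk A B) ℂ) = ⊥ := by
  rw [eq_bot_iff]
  unfold RFE
  rw [IntermediateField.adjoin_le_iff]
  rintro c ⟨b, L, om, hL, hc | ⟨z, hz, hzL, -⟩⟩
  · obtain ⟨q, hq⟩ := kapE_rat hL.nrm
    rw [hc, hq]
    exact ((⊥ : IntermediateField (kk A B) ℂ).restrictScalars ℚ).algebraMap_mem q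
  · exfalso
    apply hzL
    have h1 := hz 1 trivial
    rwa [Pool.Agent.MUX.emb_one h.toCQ, one_mul] at h1

theorem mem_of_top (h : CaseE A B) {y : ℂ} (hy : y ∈ RFE (⊤ : Ideal (OO A B))) : y ∈ kk A B := by
  rw [rfe_topE h, IntermediateField.mem_bot] at hy
  obtain ⟨x, rfl⟩ := hy
  exact x.2

theorem unrH_E (h : CaseE A B) (V : ValuationSubring ℂ) : UnrH_E A B V := by
  intro σ hσ _ y hy
  exact Pool.Agent.MEC.TRV.fix hσ y (mem_of_top h hy)

theorem nlex_E (h : CaseE A B) : NLex_E A B := by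
  obtain ⟨L, om, hL⟩ := MEC.exists_isNE h (⊤ : Ideal (OO A B)) Pool.Agent.MUXW.top_ne_bot
  exact ⟨⊤, L, om, hL⟩

end

end Pool.Agent.MEZ
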