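import Pool.Agent.ME.N.StIN
import Pool.Agent.ME.N.StIR
import Pool.Agent.ME.X.StJG
import Pool.Agent.ME.X.StZX
import Pool.Agent.ME.CEAll
import Pool.Agent.ME.N.ZL
import Pool.Agent.NS.ZSq

/-!
# ME, final assembly, part 1 (helper6): the inputs of block J for the exceptional fields, `p = 3`

`rexE`: the set of representatives (class number one). `eInpN_E`, `eInpR_E`: the inputs `EInpN_E`, `EInpR_E` of blocks IN, IR. `ni_INPG_E`: the inputs `InpG_E 3 8` for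
`D = -4`; `zr_INPG_E`: the inputs `InpG_E 3 4` for `D = -3`. Models: `NS/ZSq.lean`, `NS/ZR_INPG.lean` (helper87).
-/

set_option autoImplicit false

open NumberField IsDedekindDomain

namespace Pool.Agent.MEZ

open _root_.MU3 Pool.Agent.MU3 Pool.Agent.MU3A Pool.Agent.MU3B Pool.Agent.RI Pool.Agent.RID
  Pool.Agent.MUX Pool.Agent.MUXK Pool.Agent.MUXJ Pool.Agent.MUXW Pool.Agent.MUXZ Pool.Agent.NSI
  Pool.Agent.NSIR Pool.Agent.NS Pool.Agent.NSRD Pool.Agent.NSZ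
open Pool.Agent.ME hiding ActE
open Pool.Agent.MU3V (Sub GD)

noncomputable section

/-! ### Representatives -/

/-- every nonzero ideal is principal -/
theorem pidE {A B : ℤ} (hE : CaseE A B) (c : Ideal (OO A B)) (hc : c ≠ ⊥) :
    ∃ y : OO A B, y ≠ 0 ∧ c = sp y := by
  have hC : MUX.CQ A B := hE.toCQ
  have ht : (⊤ : Ideal (OO A B)) ≠ ⊥ := by
    intro h
    have h1 : (1 : OO A B) ∈ (⊥ : Ideal (OO A B)) := by rw [← h]; trivial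
    rw [Ideal.mem_bot] at h1
    have h2 := congrArg QuadraticAlgebra.re h1
    rw [QuadraticAlgebra.re_one, QuadraticAlgebra.re_zero] at h2
    exact one_ne_zero h2
  obtain ⟨L, om, hL⟩ := MEC.exists_isNE hE ⊤ ht
  obtain ⟨L', om', hL'⟩ := MEC.exists_isNE hE c hc
  obtain ⟨h1, -, -⟩ := MEC.c_SGQ A B L L' hL.nrm hL'.nrm
  have h0 : om ∈ L.lattice := by
    refine (hL.mem _).2 ⟨1, trivial, ?_⟩
    rw [MUX.emb_one hC, mul_one]
  obtain ⟨β, hβ, hom⟩ := (hL'.mem _).1 ((h1 _).1 h0)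
  refine ⟨β, ?_, ?_⟩
  · rintro rfl
    rw [MUX.emb_zero hC, mul_zero] at hom
    exact hL.om_ne hom
  apply le_antisymm
  · intro x hx
    have h2 : om' * emb x ∈ L'.lattice := (hL'.mem _).2 ⟨x, hx, rfl⟩
    obtain ⟨y, -, hy⟩ := (hL.mem _).1 ((h1 _).2 h2)
    rw [hom, mul_assoc, ← MUX.emb_mul hC] at hy
    have h3 := MUX.emb_inj hC (mul_left_cancel₀ hL'.om_ne hy)
    rw [h3]
    exact Ideal.mul_mem_right _ _ (Ideal.mem_span_singleton_self β)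
  · rw [Ideal.span_singleton_le_iff_mem]
    exact hβ

/-- the set of representatives -/
theorem rexE {A B : ℤ} (hE : CaseE A B) (n : ℕ) : Nonempty (RepsE A B n Unit) := by
  have ht : (⊤ : Ideal (OO A B)) ≠ ⊥ := by
    intro h
    have h1 : (1 : OO A B) ∈ (⊥ : Ideal (OO A B)) := by rw [← h]; trivial
    rw [Ideal.mem_bot] at h1
    have h2 := congrArg QuadraticAlgebra.re h1
    rw [QuadraticAlgebra.re_one, QuadraticAlgebra.re_zero] at h2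
    exact one_ne_zero h2
  obtain ⟨L, om, hL⟩ := MEC.exists_isNE hE ⊤ ht
  refine ⟨⟨fun _ => ⊤, fun _ => L, fun _ => om, (), fun _ => hL, fun _ => ?_, rfl, ?_, ?_⟩⟩
  · have : MUX.nI (⊤ : Ideal (OO A B)) = 1 := by
      unfold MUX.nI
      exact Nat.card_unique
    rw [this]
    exact Nat.coprime_one_left n
  · intro c hc
    obtain ⟨y, hy, hcy⟩ := pidE hE c hc
    refine ⟨(), 1, y, ?_, hy, ?_⟩
    · intro h
      have h2 := congrArg QuadraticAlgebra.re h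
      rw [QuadraticAlgebra.re_one, QuadraticAlgebra.re_zero] at h2
      exact one_ne_zero h2
    · have h4 : sp (1 : OO A B) = ⊤ := Ideal.span_singleton_one
      rw [hcy, h4, Ideal.top_mul, Ideal.mul_top]
  · intro i j _ _ _ _ _
    rfl

/-! ### The inputs of blocks IN, IR -/

lemma lv_even {f : ℕ} (hf : 2 ∣ f) (n : ℕ) : 2 ∣ lvX 3 f n := by
  unfold lvX
  exact Dvd.dvd.mul_right (Dvd.dvd.mul_right hf _) _

/-- finiteness of the Galois group of a subfield -/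
theorem finG {A B : ℤ} (F : IntermediateField (kk A B) ℂ) (hF : FiniteDimensional (kk A B) F)
    (D : IntermediateField ℚ ℂ) (h : kk A B ≤ D) (hD : ∀ y ∈ D, y ∈ F) : letI := algC h
    Finite (D ≃ₐ[kk A B] D) := by
  let := algC h
  have hfd : FiniteDimensional (kk A B) D := by
    have hle : ∀ x : D, (x : ℂ) ∈ F := fun x => hD x x.2
    let φ : D →ₗ[kk A B] F :=
      { toFun := fun x => ⟨x, hle x⟩
        map_add' := fun x y => rfl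
        map_smul' := fun c x => by
          apply Subtype.ext
          rfl }
    exact FiniteDimensional.of_injective φ (fun x y hxy => by
      have := congrArg (fun z : F => (z : ℂ)) hxy
      exact Subtype.ext this)
  exact inferInstance

/-- the conjugates of `cW`, and the product over `XXE` -/
theorem conjsq (hME : Sy_MEM) (hCX : Sy_CXW_E) {A B : ℤ} (hE : CaseE A B) (hT : TorXE A B) {f : ℕ}
    (hL : SetL 3 A B f) (hf2 : 2 ∣ f) (hLV : Zl_LVX) {ι : Type} (R : RepsE A B (3 * f) ι)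
    {H : ι → Finset ℂ}
    {θ : ∀ n : ℕ, (RFE (idl (A := A) (B := B) (lvX 3 f n)) : IntermediateField (kk A B) ℂ)}
    (hth : ThN_E 3 f R H θ) (n : ℕ) (D : IntermediateField ℚ ℂ) (h : kk A B ≤ D)
    (hD : ∀ y ∈ D, y ∈ RFE (idl (A := A) (B := B) (lvX 3 f n))) : letI := algC h
    cWt h (θ n) 1 ≠ 0 ∧ Finite (D ≃ₐ[kk A B] D) ∧
    (∀ τ : D ≃ₐ[kk A B] D, ∃ y : D, (y : ℂ) = cWt h (θ n) 1 ∧
      ((τ y : D) : ℂ) = cWt h (θ n) τ) ∧
    ∀ τ : D ≃ₐ[kk A B] D, cXE R (lvX 3 f n) H h τ = cWt h (θ n) τ ^ 2 := by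
  obtain ⟨hl0, _, _, hl2, hlu, hodd, hac, _, _, hcop⟩ := hLV 3 A B f hL n
  have hb : (idl (A := A) (B := B) (lvX 3 f n)) ≠ ⊥ := idl_ne_bot hl0
  have := hT.fin _ hb
  have := hT.gal _ hb
  obtain ⟨h1, h2, h3, _, _⟩ := hME A B _ (hT.fin _ hb) (hT.gal _ hb) (hT.comm _ hb) D h hD (θ n)
    (hth.ne n)
  let := algC h
  refine ⟨(h2 1).2, finG _ (hT.fin _ hb) D h hD, ?_, ?_⟩
  · intro τ
    refine ⟨⟨cWt h (θ n) 1, (h2 1).1⟩, rfl, ?_⟩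
    have hm : cW h (θ n) ∈ D := by rw [h1]; exact (h2 1).1
    have := h3 τ hm
    have he : (⟨cWt h (θ n) 1, (h2 1).1⟩ : D) = ⟨cW h (θ n), hm⟩ := Subtype.ext h1.symm
    rw [he]; exact this
  · exact hCX A B hE hT (3 * f) ι R (lvX 3 f n) hl0 (lv_even hf2 n)
      (fun i => hcop _ (R.cop i)) hl2 (aX 3 f) H (by unfold aX; omega) hac hth.half (θ n)
      (hth.ptE n) D h hD

/-- the passage to the squares -/
theorem sqfam {A B : ℤ} {D : IntermediateField ℚ ℂ} (h : kk A B ≤ D)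
    (X C : (letI := algC h; D ≃ₐ[kk A B] D) → ℂ) (hf : letI := algC h; Finite (D ≃ₐ[kk A B] D))
    (hsq : ∀ τ, X τ = C τ ^ 2)
    (hconj : letI := algC h; ∀ τ : D ≃ₐ[kk A B] D, ∃ y : D, (y : ℂ) = C 1 ∧ ((τ y : D) : ℂ) = C τ)
    (g : (letI := algC h; D ≃ₐ[kk A B] D) → ℤ)
    (hg : letI := algC h; ∃ y ∈ D, y ^ 3 = ∏ᶠ τ : D ≃ₐ[kk A B] D, C τ ^ g τ) : letI := algC h
    (∀ τ : D ≃ₐ[kk A B] D, ∃ y : D, (y : ℂ) = X 1 ∧ ((τ y : D) : ℂ) = X τ) ∧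
    ∃ y ∈ D, y ^ 3 = ∏ᶠ τ : D ≃ₐ[kk A B] D, X τ ^ g τ := by
  let := algC h
  constructor
  · intro τ
    obtain ⟨z, hz1, hz2⟩ := hconj τ
    refine ⟨z ^ 2, ?_, ?_⟩
    · rw [hsq]
      push_cast
      rw [hz1]
    · rw [hsq, map_pow]
      push_cast
      rw [hz2]
  · obtain ⟨y, hy, hye⟩ := hg
    refine ⟨y ^ 2, pow_mem hy 2, ?_⟩
    have h4 : (∏ᶠ τ : D ≃ₐ[kk A B] D, X τ ^ g τ) =
        (∏ᶠ τ : D ≃ₐ[kk A B] D, C τ ^ g τ) ^ 2 := by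
      have := Fintype.ofFinite (D ≃ₐ[kk A B] D)
      rw [finprod_eq_prod_of_fintype, finprod_eq_prod_of_fintype, ← Finset.prod_pow]
      refine Finset.prod_congr rfl fun τ _ => ?_
      rw [hsq, ← zpow_natCast, ← zpow_natCast, ← zpow_mul, ← zpow_mul, mul_comm]
    rw [h4, ← hye]
    ring

/-- the input of block IN for the norm to any field `D ≤ RFE (lvX 3 f n)`, `D = -4` -/
theorem eInpN_E (hME : Sy_MEM) (hCX : Sy_CXW_E) (hEF : Sn_EFIN_E)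
    {A B : ℤ} {V : ValuationSubring ℂ} {f : ℕ}
    (hS : SetE4 A B V f) (hT : TorXE A B) (hLV : Zl_LVX)
    {ι : Type} [Fintype ι] (R : RepsE A B (3 * f) ι) {u e lam : ℂ}
    (hG : GoodN V (R.L R.i0) u e lam) {H : ι → Finset ℂ}
    {θ : ∀ n : ℕ, (RFE (idl (A := A) (B := B) (lvX 3 f n)) : IntermediateField (kk A B) ℂ)}
    (hth : ThN_E 3 f R H θ) (n : ℕ) (hn : 1 ≤ n) (D : IntermediateField ℚ ℂ) (h : kk A B ≤ D)
    (hD : ∀ y ∈ D, y ∈ RFE (idl (A := A) (B := B) (lvX 3 f n))) :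
    EInpN_E V f R u n h (fun τ => cWt h (θ n) τ) := by
  let := algC h
  obtain ⟨h1, h2, h3, h4⟩ := conjsq hME hCX hS.case hT (setL_N_E hS) hS.f2 hLV R hth n D h hD
  refine ⟨h1, h3, ?_⟩
  rintro w hw g hg τ'
  obtain ⟨k1, k2⟩ := sqfam h (fun τ => cXE R (lvX 3 f n) H h τ) (fun τ => cWt h (θ n) τ) h2 h4 h3
    g hg
  exact hEF A B V f hS hT ι R u e lam hG w hw n hn H hth.half D h hD k1 g k2 τ'

/-- the input of block IR for the norm to any field `D ≤ RFE (lvR P f n)`, `D = -3` -/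
theorem eInpR_E (hME : Sy_MEM) (hCX : Sy_CXW_E) (hEF : Sq_EFIN_E)
    {A B : ℤ} {P : Ideal (OO A B)} {V : ValuationSubring ℂ} {f : ℕ}
    (hS : SetE3 A B P V f) (hT : TorXE A B) (hLV : Zl_LVX)
    {ι : Type} [Fintype ι] (R : RepsE A B (3 * f) ι) {u e lam : ℂ}
    (hG : GoodR V (R.L R.i0) u e lam) {H : ι → Finset ℂ}
    {θ : ∀ n : ℕ, (RFE (idl (A := A) (B := B) (lvX 3 f n)) : IntermediateField (kk A B) ℂ)}
    (hth : ThN_E 3 f R H θ) (n : ℕ) (hn : 1 ≤ n) (D : IntermediateField ℚ ℂ) (h : kk A B ≤ D)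
    (hD : ∀ y ∈ D, y ∈ RFE (idl (A := A) (B := B) (lvX 3 f n)))
    (hDR : ∀ y ∈ D, y ∈ RFE (lvR P f n)) :
    EInpR_E P V f R u n h (fun τ => cWt h (θ n) τ) := by
  let := algC h
  obtain ⟨h1, h2, h3, h4⟩ := conjsq hME hCX hS.case hT
    ⟨hS.case.toCQ, Or.inr rfl, hS.f0, hS.fp⟩ hS.f2 hLV R hth n D h hD
  refine ⟨h1, h3, ?_⟩
  rintro w hw g hg τ'
  obtain ⟨k1, k2⟩ := sqfam h (fun τ => cXE R (lvX 3 f n) H h τ) (fun τ => cWt h (θ n) τ) h2 h4 h3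
    g hg
  exact hEF A B P V f hS hT ι R u e lam hG w hw n hn H hth.half D h hDR k1 g k2 τ'

/-! ### The inputs of block J -/

/-- the inputs of block J, `D = -4` -/
theorem ni_INPG_E (hRF : Sn_RFIN_E) (hEF : Sn_EFIN_E) (hINP : Sn_INP_E) (hLV : Zl_LVX)
    (hIW : Zl_INW_E) (hSUB : Sn_SUB_E) (hTH : Sz_THN_E) (hME : Sy_MEM) (hCX : Sy_CXW_E) :
    ∀ (A B : ℤ) (V : ValuationSubring ℂ), CaseE4 A B →
      OverI V (idl (A := A) (B := B) 3) → TorXE A B → InpG_E 3 8 A B V := by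
  intro A B V hC hV hT f hf0 hfp hfd K₀ K Bn _ _ _ hX hK hH hk hk₀ hkK
  have hCQ : CQ A B := hC.toCQ
  have hS : SetE4 A B V f := by
    refine ⟨hC.toCaseE, hC.eB, hV, hf0, hfp, ?_⟩
    have h1 : ((8 : ℕ) : ℤ) ∣ (f : ℤ) := by exact_mod_cast hfd
    have h2 : 2 * absD A B = ((8 : ℕ) : ℤ) := by
      unfold absD
      rw [hC.eB, hC.hA]
      norm_num
    rwa [h2]
  have hL : SetL 3 A B f := setL_N_E hS
  have : Fact (Nat.Prime 3) := ⟨Nat.prime_three⟩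
  obtain ⟨R⟩ := rexE hC.toCaseE (3 * f)
  have hodd := (hLV 3 A B f hL 0).2.2.2.2.2.1
  obtain ⟨H, hHalf, hθ⟩ := hTH A B hCQ hT (3 * f) Unit R (aX 3 f) hodd
  have hθ' : ∀ n : ℕ, ∃ θ : (RFE (idl (A := A) (B := B) (lvX 3 f n)) :
      IntermediateField (kk A B) ℂ),
      (θ : ℂ) = ThetaH (R.L R.i0) (H R.i0) (ptE R (lvX 3 f n) R.i0 1) ∧
      (θ : ℂ) = ThetaH (R.L R.i0) (H R.i0) (R.om R.i0 / emb ((lvX 3 f n : ℕ) : OO A B)) ∧
      θ ≠ 0 := fun n =>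
    hθ (lvX 3 f n) (hLV 3 A B f hL n).1 (hLV 3 A B f hL n).2.2.2.2.1
      (hLV 3 A B f hL n).2.2.2.2.2.2.1
  choose θ hθ1 hθ2 hθ3 using hθ'
  have hth : ThN_E 3 f R H θ := ⟨hHalf, hθ1, hθ2, hθ3⟩
  obtain ⟨S, hW⟩ := hIW 3 A B f hL hC.toCaseE
    (lv_even hS.f2 0) hT Unit R H θ hth K₀ K Bn hX hK hH hk hk₀
  obtain ⟨u, e, lam, hG, -, -, -⟩ := (hRF A B V hC hV hT).1 _ _ _ (R.nl R.i0)
  have hNL : ∃ (b : Ideal (OO A B)) (L : PeriodPair) (om : ℂ), IsNE b L om :=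
    ⟨_, _, _, R.nl R.i0⟩
  have hK₀ : ∀ y ∈ K₀, y ∈ RFE (idl (A := A) (B := B) (lvX 3 f 0)) := fun y hy => hK y (hX.le hy)
  have hDn : ∀ n, ∀ y ∈ K₀ ⊔ Bn n, y ∈ RFE (idl (A := A) (B := B) (lvX 3 f n)) := fun n =>
    hSUB 3 A B f hL hT hNL K₀ hK₀ n (Bn n) (hX.b0.lay n)
  refine ⟨S, fun n => cW (hk n) (θ n), fun n => cW (hk₀ n) (θ n), 0, ?_⟩
  refine hINP A B V f hS hT Unit R u e lam hG K₀ K Bn hX hK₀ hk hk₀ hkK S _ _ 0 hW
    (fun n τ => cWt (hk₀ n) (θ n) τ) (fun n hn => ?_) (fun n hn => ?_)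
  · exact eInpN_E hME hCX hEF hS hT hLV R hG hth n hn (K₀ ⊔ Bn n) (hk₀ n) (hDn n)
  · have hb : (idl (A := A) (B := B) (lvX 3 f n)) ≠ ⊥ := idl_ne_bot (hLV 3 A B f hL n).1
    exact (hME A B _ (hT.fin _ hb) (hT.gal _ hb) (hT.comm _ hb) _ (hk₀ n) (hDn n) (θ n)
      (hth.ne n)).1

/-- the inputs of block J, `D = -3` -/
theorem zr_INPG_E (hRF : Sq_RFIN_E) (hEF : Sq_EFIN_E) (hINP : Sp_INP_E) (hSUR : Sp_SUB_E)
    (hLV : Zl_LVX) (hIW : Zl_INW_E) (hSUB : Sn_SUB_E) (hTH : Sz_THN_E) (hME : Sy_MEM)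
    (hCX : Sy_CXW_E) :
    ∀ (A B : ℤ) (P : Ideal (OO A B)) (V : ValuationSubring ℂ), CaseE3 A B → IsPN 3 P →
      OverI V P → TorXE A B → InpG_E 3 4 A B V := by
  intro A B P V hC hP hV hT f hf0 hfp hfd K₀ K Bn _ _ _ hX hK hH hk hk₀ hkK
  have hCQ : CQ A B := hC.toCQ
  have hS : SetE3 A B P V f := by
    refine ⟨hC.toCaseE, hC.eB, hP, hV, hf0, hfp, ?_⟩
    have h2 : absD A B = 3 := by
      unfold absD
      rw [hC.eB, hC.hA]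
      norm_num
    rw [h2]
    obtain ⟨c, hc⟩ := hfd
    exact ⟨2 * (c : ℤ), by rw [hc]; push_cast; ring⟩
  have hL : SetL 3 A B f := ⟨hCQ, Or.inr rfl, hf0, hfp⟩
  have : Fact (Nat.Prime 3) := ⟨Nat.prime_three⟩
  obtain ⟨R⟩ := rexE hC.toCaseE (3 * f)
  have hodd := (hLV 3 A B f hL 0).2.2.2.2.2.1
  obtain ⟨H, hHalf, hθ⟩ := hTH A B hCQ hT (3 * f) Unit R (aX 3 f) hodd
  have hθ' : ∀ n : ℕ, ∃ θ : (RFE (idl (A := A) (B := B) (lvX 3 f n)) :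
      IntermediateField (kk A B) ℂ),
      (θ : ℂ) = ThetaH (R.L R.i0) (H R.i0) (ptE R (lvX 3 f n) R.i0 1) ∧
      (θ : ℂ) = ThetaH (R.L R.i0) (H R.i0) (R.om R.i0 / emb ((lvX 3 f n : ℕ) : OO A B)) ∧
      θ ≠ 0 := fun n =>
    hθ (lvX 3 f n) (hLV 3 A B f hL n).1 (hLV 3 A B f hL n).2.2.2.2.1
      (hLV 3 A B f hL n).2.2.2.2.2.2.1
  choose θ hθ1 hθ2 hθ3 using hθ'
  have hth : ThN_E 3 f R H θ := ⟨hHalf, hθ1, hθ2, hθ3⟩
  obtain ⟨S, hW⟩ := hIW 3 A B f hL hC.toCaseE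
    (lv_even hS.f2 0) hT Unit R H θ hth K₀ K Bn hX hK hH hk hk₀
  obtain ⟨u, e, lam, hG, -, -, -, -⟩ := (hRF A B P V hC hP hV hT).1 _ _ _ (R.nl R.i0)
  have hNL : ∃ (b : Ideal (OO A B)) (L : PeriodPair) (om : ℂ), IsNE b L om :=
    ⟨_, _, _, R.nl R.i0⟩
  have hK₀ : ∀ y ∈ K₀, y ∈ RFE (idl (A := A) (B := B) (lvX 3 f 0)) := fun y hy => hK y (hX.le hy)
  have hlv0 : lvX 3 f 0 = 3 * f := by
    unfold lvX
    simp [q0, mul_comm]
  have hK₀' : ∀ y ∈ K₀, y ∈ RFE (idl (A := A) (B := B) (3 * f)) := by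
    rw [← hlv0]; exact hK₀
  have hDn : ∀ n, ∀ y ∈ K₀ ⊔ Bn n, y ∈ RFE (idl (A := A) (B := B) (lvX 3 f n)) := fun n =>
    hSUB 3 A B f hL hT hNL K₀ hK₀ n (Bn n) (hX.b0.lay n)
  refine ⟨S, fun n => cW (hk n) (θ n), fun n => cW (hk₀ n) (θ n), 0, ?_⟩
  refine hINP A B P V f hS hfd hT Unit R u e lam hG K₀ K Bn hX hK₀ hk hk₀ hkK S _ _ 0 hW
    (fun n τ => cWt (hk₀ n) (θ n) τ) (fun n hn => ?_) (fun n hn => ?_)
  · exact eInpR_E hME hCX hEF hS hT hLV R hG hth n hn (K₀ ⊔ Bn n) (hk₀ n) (hDn n)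
      (hSUR A B P V f hS hT hNL K₀ hK₀' n (Bn n) hn (hX.b0.lay n))
  · have hb : (idl (A := A) (B := B) (lvX 3 f n)) ≠ ⊥ := idl_ne_bot (hLV 3 A B f hL n).1
    exact (hME A B _ (hT.fin _ hb) (hT.gal _ hb) (hT.comm _ hb) _ (hk₀ n) (hDn n) (θ n)
      (hth.ne n)).1

end

end Pool.Agent.MEZ
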